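import Mathlib

/-!
# Project MEI, interface S3

The analytic inequality on the gnomonic square which is behind the theorem for bodies of constant
width containing a regular tetrahedron.
-/

namespace Helper22.MEI

open Set MeasureTheory

/-- half of the square root of three -/
noncomputable def c3 : ℝ := √3 / 2

/-- half side of the square -/
noncomputable def s : ℝ := √2 / 2

noncomputable def t : ℝ := √2 / 4

noncomputable def NN (p : ℝ × ℝ) : ℝ := √(1 + p.1 ^ 2 + p.2 ^ 2)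

noncomputable def AA (x : ℝ) : ℝ := √(1 + x ^ 2)

noncomputable def SQ : Set (ℝ × ℝ) := Ioo (-s) s ×ˢ Ioo (-s) s

/-- the largest admissible function: `mid` and `lens` part -/
noncomputable def f0 (p : ℝ × ℝ) : ℝ :=
  if 3 * p.2 ^ 2 ≤ 1 + p.1 ^ 2 then c3 * AA p.1 - t else NN p - |p.2| / 2 - t

/-- the smallest admissible function -/
noncomputable def f1 (p : ℝ × ℝ) : ℝ := NN p - f0 (p.2, p.1)

noncomputable def dX (f : ℝ × ℝ → ℝ) (p : ℝ × ℝ) : ℝ := fderiv ℝ f p (1, 0)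

noncomputable def dY (f : ℝ × ℝ → ℝ) (p : ℝ × ℝ) : ℝ := fderiv ℝ f p (0, 1)

/-- the integrand of the volume formula of helper14 -/
noncomputable def qd (f : ℝ × ℝ → ℝ) (p : ℝ × ℝ) : ℝ :=
  3 * f p ^ 2 / NN p ^ 2 - dX f p ^ 2 - dY f p ^ 2 - (f p - p.1 * dX f p - p.2 * dY f p) ^ 2
    - 2 * f p / NN p + 1

/-- the quadratic form of the cofactor matrix of the Hessian of `NN` -/
noncomputable def cq (p : ℝ × ℝ) (u v : ℝ) : ℝ :=
  ((1 + p.1 ^ 2) * u ^ 2 + 2 * p.1 * p.2 * u * v + (1 + p.2 ^ 2) * v ^ 2) / NN p ^ 3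

noncomputable def W (p : ℝ × ℝ) : ℝ :=
  if 3 * p.2 ^ 2 ≤ 1 + p.1 ^ 2 then 2 * (1 - c3 * NN p / AA p.1) / NN p ^ 4 else -2 / NN p ^ 4

noncomputable def Dfun (P : ℝ × ℝ → ℝ) : ℝ :=
  ∫ p in SQ, (W p * P p - cq p (dX P p) (dY P p))

/-- the admissible functions: support function of the body on one square -/
structure Adm (f : ℝ × ℝ → ℝ) : Prop where
  diff : Differentiable ℝ f
  cv : ConvexOn ℝ univ f
  cvN : ConvexOn ℝ univ (fun p => NN p - f p)
  bX : ∀ p : ℝ × ℝ, |p.1| = s → |p.2| ≤ s → f p = s / 2 + t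
  bY : ∀ p : ℝ × ℝ, |p.2| = s → |p.1| ≤ s → f p = NN p - (s / 2 + t)
  gXX : ∀ p : ℝ × ℝ, |p.1| = s → |p.2| ≤ s → dX f p = p.1 / (2 * s)
  gXY : ∀ p : ℝ × ℝ, |p.1| = s → |p.2| ≤ s → dY f p = 0
  gYX : ∀ p : ℝ × ℝ, |p.2| = s → |p.1| ≤ s → dX f p = p.1 / NN p
  gYY : ∀ p : ℝ × ℝ, |p.2| = s → |p.1| ≤ s → dY f p = p.2 / NN p - p.2 / (2 * s)

/-- The analytic inequality: what the class T theorem needs. -/
def M1A : Prop := ∀ f : ℝ × ℝ → ℝ, Adm f → 0 ≤ Dfun (fun p => f0 p - f p)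

/-- the part where `f0` does not depend on `Y` -/
def mid : Set (ℝ × ℝ) := {p | 3 * p.2 ^ 2 ≤ 1 + p.1 ^ 2}

theorem s_pos : 0 < s := by unfold s; positivity

theorem t_pos : 0 < t := by unfold t; positivity

theorem s_sq : s ^ 2 = 1 / 2 := by
  unfold s; rw [div_pow, Real.sq_sqrt (by norm_num)]; norm_num

theorem s_eq : s = 2 * t := by unfold s t; ring

theorem st : s / 2 + t = s := by rw [s_eq]; ring

theorem c3_pos : 0 < c3 := by unfold c3; positivity

theorem c3_sq : c3 ^ 2 = 3 / 4 := by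
  unfold c3; rw [div_pow, Real.sq_sqrt (by norm_num)]; norm_num

theorem NN_sq (p : ℝ × ℝ) : NN p ^ 2 = 1 + p.1 ^ 2 + p.2 ^ 2 := Real.sq_sqrt (by positivity)

theorem NN_pos (p : ℝ × ℝ) : 0 < NN p := Real.sqrt_pos.2 (by positivity)

theorem NN_ne (p : ℝ × ℝ) : NN p ≠ 0 := (NN_pos p).ne'

theorem NN_ge (p : ℝ × ℝ) : 1 ≤ NN p := Real.one_le_sqrt.2 (by nlinarith [sq_nonneg p.1, sq_nonneg p.2])

theorem AA_sq (x : ℝ) : AA x ^ 2 = 1 + x ^ 2 := Real.sq_sqrt (by positivity)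

theorem AA_pos (x : ℝ) : 0 < AA x := Real.sqrt_pos.2 (by positivity)

theorem AA_ne (x : ℝ) : AA x ≠ 0 := (AA_pos x).ne'

theorem AA_ge (x : ℝ) : 1 ≤ AA x := Real.one_le_sqrt.2 (by nlinarith [sq_nonneg x])

theorem NN_swap (p : ℝ × ℝ) : NN (p.2, p.1) = NN p := by
  unfold NN; congr 1; ring

theorem NN_cont : Continuous NN := by unfold NN; fun_prop

theorem AA_cont : Continuous AA := by unfold AA; fun_prop

/-- on the interface both formulas for `f0` agree -/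
theorem iface {p : ℝ × ℝ} (h : 3 * p.2 ^ 2 = 1 + p.1 ^ 2) :
    NN p = 2 * |p.2| ∧ AA p.1 = √3 * |p.2| := by
  constructor
  · unfold NN
    rw [show 1 + p.1 ^ 2 + p.2 ^ 2 = (2 * |p.2|) ^ 2 by rw [mul_pow, sq_abs]; linarith]
    exact Real.sqrt_sq (by positivity)
  · unfold AA
    rw [← h, Real.sqrt_mul (by norm_num), Real.sqrt_sq_eq_abs]

theorem iface_val {p : ℝ × ℝ} (h : 3 * p.2 ^ 2 = 1 + p.1 ^ 2) :
    c3 * AA p.1 - t = NN p - |p.2| / 2 - t := by
  obtain ⟨h1, h2⟩ := iface h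
  rw [h1, h2]
  unfold c3
  have : √3 * √3 = 3 := Real.mul_self_sqrt (by norm_num)
  linear_combination (|p.2| / 2) * this

theorem f0_cont : Continuous f0 := by
  unfold f0
  refine Continuous.if_le ?_ ?_ ?_ ?_ ?_
  · exact (continuous_const.mul (AA_cont.comp continuous_fst)).sub continuous_const
  · exact (NN_cont.sub (continuous_snd.abs.div_const 2)).sub continuous_const
  · fun_prop
  · fun_prop
  · exact fun p h => iface_val h

end Helper22.MEI
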