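import Pool.Agent.Helper22.MEI.Cells
import Pool.Agent.Helper14.CW.Chart

/-!
# Project MEI: the coordinates of a frame preserve the volume
-/

namespace Helper22.Wedge

open Set MeasureTheory
open Helper80.CW Helper82.CW
open scoped RealInnerProductSpace

variable (b : OrthonormalBasis (Fin 3) ℝ E3) (c : E3)

theorem co_mp : MeasurePreserving (co b c) volume volume := by
  have h1 : MeasurePreserving (fun x : E3 => x - c) volume volume :=
    measurePreserving_sub_right volume c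
  have h2 := (Helper14.CW.crd_mp b).comp h1
  have h3 : MeasurePreserving (Prod.swap : ℝ × (ℝ × ℝ) → (ℝ × ℝ) × ℝ) volume volume :=
    Measure.measurePreserving_swap
  have h4 : MeasurePreserving (MeasurableEquiv.prodAssoc : (ℝ × ℝ) × ℝ ≃ᵐ ℝ × ℝ × ℝ) volume volume :=
    measurePreserving_prodAssoc volume volume volume
  have h5 := h4.comp (h3.comp h2)
  have e : (MeasurableEquiv.prodAssoc : (ℝ × ℝ) × ℝ ≃ᵐ ℝ × ℝ × ℝ) ∘
      ((Prod.swap : ℝ × (ℝ × ℝ) → (ℝ × ℝ) × ℝ) ∘ (Helper14.CW.crd b ∘ fun x : E3 => x - c))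
      = co b c := by
    funext x
    simp only [Function.comp, Helper14.CW.crd_apply]
    rfl
  rwa [e] at h5

theorem co_inj : Function.Injective (co b c) := by
  intro x y h
  have h0 : ⟪b 0, x - c⟫ = ⟪b 0, y - c⟫ := congrArg (fun q : ℝ × ℝ × ℝ => q.1) h
  have h1 : ⟪b 1, x - c⟫ = ⟪b 1, y - c⟫ := congrArg (fun q : ℝ × ℝ × ℝ => q.2.1) h
  have h2 : ⟪b 2, x - c⟫ = ⟪b 2, y - c⟫ := congrArg (fun q : ℝ × ℝ × ℝ => q.2.2) h
  have h3 : x - c = y - c := by
    rw [← b.sum_repr' (x - c), ← b.sum_repr' (y - c), Fin.sum_univ_three, Fin.sum_univ_three,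
      h0, h1, h2]
  exact sub_left_injective h3

theorem co_surj : Function.Surjective (co b c) := by
  intro q
  refine ⟨c + (q.1 • b 0 + q.2.1 • b 1 + q.2.2 • b 2), ?_⟩
  obtain ⟨⟨i00, i01, i02⟩, ⟨i10, i11, i12⟩, ⟨i20, i21, i22⟩⟩ := ibv b
  unfold co
  rw [add_sub_cancel_left]
  simp only [inner_add_right, real_inner_smul_right, i00, i01, i02, i10, i11, i12, i20, i21, i22]
  ext <;> simp

/-- the coordinates as a homeomorphism-like measurable embedding -/
theorem co_emb : MeasurableEmbedding (co b c) :=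
  (co_cd b c).continuous.measurableEmbedding (co_inj b c)

/-- integrals over sets given by coordinates -/
theorem int_co (A : Set (ℝ × ℝ × ℝ)) (F : ℝ × ℝ × ℝ → ℝ) :
    ∫ x in {x : E3 | co b c x ∈ A}, F (co b c x) = ∫ q in A, F q :=
  (co_mp b c).setIntegral_preimage_emb (co_emb b c) F A

theorem vol_co (A : Set (ℝ × ℝ × ℝ)) (hA : MeasurableSet A) :
    volume {x : E3 | co b c x ∈ A} = volume A :=
  (co_mp b c).measure_preimage hA.nullMeasurableSet

/-- norms in coordinates -/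
theorem norm_co (x y : E3) : ‖x - y‖ ^ 2 = ((co b c x).1 - (co b c y).1) ^ 2
    + ((co b c x).2.1 - (co b c y).2.1) ^ 2 + ((co b c x).2.2 - (co b c y).2.2) ^ 2 := by
  have h := b.sum_sq_norm_inner_right (x - y)
  rw [Fin.sum_univ_three] at h
  have e : ∀ k, ⟪b k, x - c⟫ - ⟪b k, y - c⟫ = ⟪b k, x - y⟫ := fun k => by
    rw [← inner_sub_right]; congr 1; abel
  unfold co
  simp only [e]
  rw [← h]
  simp only [Real.norm_eq_abs, sq_abs]

/-- inner products in coordinates -/
theorem inner_co (u v : E3) : ⟪u, v⟫ = ⟪b 0, u⟫ * ⟪b 0, v⟫ + ⟪b 1, u⟫ * ⟪b 1, v⟫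
    + ⟪b 2, u⟫ * ⟪b 2, v⟫ := by
  have h := b.sum_inner_mul_inner u v
  rw [Fin.sum_univ_three] at h
  rw [← h, real_inner_comm (b 0) u, real_inner_comm (b 1) u, real_inner_comm (b 2) u]

end Helper22.Wedge
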