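import Pool.Agent.Helper22.MEI.CoMp
import Pool.Agent.Helper80.CW.Basic

/-!
# Project MEI, all bodies: from the divergence theorem on the whole space to cells

`σ` is the pair measure of a body: image of the surface measure under `u ↦ (p(u), p(u) - u)`.
-/

namespace Helper22.Sig

open Set MeasureTheory Filter Topology Metric
open Helper80.CW Helper82.CW Helper22.Wedge
open scoped RealInnerProductSpace

/-- divergence -/
noncomputable def dvg (G : E3 → E3) (x : E3) : ℝ :=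
  LinearMap.trace ℝ E3 (fderiv ℝ G x : E3 →ₗ[ℝ] E3)

theorem dvg_basis (b : OrthonormalBasis (Fin 3) ℝ E3) (G : E3 → E3) (x : E3) :
    dvg G x = ∑ i, ⟪b i, fderiv ℝ G x (b i)⟫ := by
  unfold dvg
  rw [LinearMap.trace_eq_sum_inner _ b]
  rfl

theorem fd_apply {G : E3 → E3} {x : E3} (hG : DifferentiableAt ℝ G x) (i : Fin 3) (v : E3) :
    fderiv ℝ (fun y => G y i) x v = (fderiv ℝ G x v) i := by
  have h1 : HasFDerivAt (fun y => (EuclideanSpace.proj (𝕜 := ℝ) i : E3 →L[ℝ] ℝ) (G y))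
      ((EuclideanSpace.proj (𝕜 := ℝ) i : E3 →L[ℝ] ℝ).comp (fderiv ℝ G x)) x :=
    (EuclideanSpace.proj (𝕜 := ℝ) i : E3 →L[ℝ] ℝ).hasFDerivAt.comp x hG.hasFDerivAt
  have h2 : fderiv ℝ (fun y => G y i) x = (EuclideanSpace.proj (𝕜 := ℝ) i : E3 →L[ℝ] ℝ).comp
      (fderiv ℝ G x) := h1.fderiv
  rw [h2]
  rfl

/-- the form with partial derivatives -/
theorem dvg_pd {G : E3 → E3} {x : E3} (hG : DifferentiableAt ℝ G x) :
    dvg G x = ∑ i, pd i (fun y => G y i) x := by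
  rw [dvg_basis (EuclideanSpace.basisFun (Fin 3) ℝ)]
  refine Finset.sum_congr rfl fun i _ => ?_
  unfold pd
  rw [fd_apply hG]
  rw [EuclideanSpace.basisFun_apply, EuclideanSpace.inner_single_left]
  simp [e]

theorem dvg_smul {W : E3 → ℝ} {G : E3 → E3} {x : E3} (hW : DifferentiableAt ℝ W x)
    (hG : DifferentiableAt ℝ G x) :
    dvg (fun y => W y • G y) x = W x * dvg G x + fderiv ℝ W x (G x) := by
  have h1 : HasFDerivAt (fun y => W y • G y)
      (W x • fderiv ℝ G x + (fderiv ℝ W x).smulRight (G x)) x := hW.hasFDerivAt.smul hG.hasFDerivAt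
  rw [dvg_basis (EuclideanSpace.basisFun (Fin 3) ℝ), dvg_basis (EuclideanSpace.basisFun (Fin 3) ℝ),
    h1.fderiv, Finset.mul_sum]
  set b : OrthonormalBasis (Fin 3) ℝ E3 := EuclideanSpace.basisFun (Fin 3) ℝ
  have h2 : fderiv ℝ W x (G x) = ∑ i, fderiv ℝ W x (b i) * ⟪b i, G x⟫ := by
    conv_lhs => rw [← b.sum_repr' (G x), map_sum]
    refine Finset.sum_congr rfl fun i _ => ?_
    rw [map_smul, smul_eq_mul]
    ring
  rw [h2, ← Finset.sum_add_distrib]
  refine Finset.sum_congr rfl fun i _ => ?_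
  simp only [ContinuousLinearMap.add_apply, ContinuousLinearMap.smul_apply,
    ContinuousLinearMap.smulRight_apply, inner_add_right, real_inner_smul_right]

/-- divergence of a field given by coordinates -/
theorem dvg_fld (b : OrthonormalBasis (Fin 3) ℝ E3) (c : E3) {G1 G2 G3 : ℝ × ℝ × ℝ → ℝ}
    (h1 : ContDiff ℝ 1 G1) (h2 : ContDiff ℝ 1 G2) (h3 : ContDiff ℝ 1 G3) (x : E3) :
    dvg (fld b c G1 G2 G3) x = Helper22.MEI.dv G1 G2 G3 (co b c x) := by
  have hc := co_cd b c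
  have d1 : DifferentiableAt ℝ (fun y => G1 (co b c y)) x :=
    (h1.comp hc).differentiable one_ne_zero x
  have d2 : DifferentiableAt ℝ (fun y => G2 (co b c y)) x :=
    (h2.comp hc).differentiable one_ne_zero x
  have d3 : DifferentiableAt ℝ (fun y => G3 (co b c y)) x :=
    (h3.comp hc).differentiable one_ne_zero x
  have k1 := (d1.hasFDerivAt.smul (hasFDerivAt_const (b 0) x))
  have k2 := (d2.hasFDerivAt.smul (hasFDerivAt_const (b 1) x))
  have k3 := (d3.hasFDerivAt.smul (hasFDerivAt_const (b 2) x))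
  have k : HasFDerivAt (fld b c G1 G2 G3) _ x := (k1.add k2).add k3
  rw [dvg_basis b, k.fderiv, Fin.sum_univ_three]
  obtain ⟨⟨i00, i01, i02⟩, ⟨i10, i11, i12⟩, ⟨i20, i21, i22⟩⟩ := ibv b
  simp only [ContinuousLinearMap.add_apply, ContinuousLinearMap.smul_apply,
    ContinuousLinearMap.smulRight_apply, ContinuousLinearMap.zero_apply, smul_zero, zero_add,
    inner_add_right, real_inner_smul_right, i00, i01, i02, i10, i11, i12, i20, i21, i22, mul_one,
    mul_zero, add_zero]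
  rw [fd_co b c h1, fd_co b c h2, fd_co b c h3, i00, i10, i20, i01, i11, i21, i02, i12, i22]
  rfl

theorem fld_cd (b : OrthonormalBasis (Fin 3) ℝ E3) (c : E3) {n : WithTop ℕ∞}
    {G1 G2 G3 : ℝ × ℝ × ℝ → ℝ} (h1 : ContDiff ℝ n G1) (h2 : ContDiff ℝ n G2)
    (h3 : ContDiff ℝ n G3) : ContDiff ℝ n (fld b c G1 G2 G3) := by
  have hip : ∀ u : E3, ContDiff ℝ n (fun y : E3 => ⟪u, y - c⟫) := fun u =>
    (innerSL ℝ u).contDiff.comp (contDiff_id.sub contDiff_const)
  have hc : ContDiff ℝ n (co b c) := (hip (b 0)).prodMk ((hip (b 1)).prodMk (hip (b 2)))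
  exact (((h1.comp hc).smul contDiff_const).add ((h2.comp hc).smul contDiff_const)).add
    ((h3.comp hc).smul contDiff_const)

/-- radial fields -/
theorem dvg_radial (r : ℝ) (a x : E3) : dvg (fun y => r • (y - a)) x = 3 * r := by
  have h0 : HasFDerivAt (fun y : E3 => y - a) (ContinuousLinearMap.id ℝ E3) x :=
    (hasFDerivAt_id (𝕜 := ℝ) x).sub_const a
  have h1 := h0.const_smul r
  have h2 : fderiv ℝ (fun y : E3 => r • (y - a)) x = r • ContinuousLinearMap.id ℝ E3 := h1.fderiv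
  rw [dvg_basis (EuclideanSpace.basisFun (Fin 3) ℝ), h2]
  set b : OrthonormalBasis (Fin 3) ℝ E3 := EuclideanSpace.basisFun (Fin 3) ℝ
  have h3 : ∀ i, ⟪b i, (r • ContinuousLinearMap.id ℝ E3) (b i)⟫ = r := by
    intro i
    simp only [ContinuousLinearMap.smul_apply, ContinuousLinearMap.id_apply, real_inner_smul_right]
    rw [ib b i i, if_pos rfl, mul_one]
  rw [Finset.sum_congr rfl fun i _ => h3 i]
  simp

/-! ### cells and tangent fields -/

variable {ι : Type*} [Fintype ι]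

/-- open cell -/
def Cel (ν : ι → E3) (c : ι → ℝ) : Set E3 := {x | ∀ j, c j < ⟪ν j, x⟫}

/-- the field is tangent to the walls -/
def Tang (ν : ι → E3) (c : ι → ℝ) (G : E3 → E3) : Prop := ∀ j x, ⟪ν j, x⟫ = c j → ⟪ν j, G x⟫ = 0

theorem lipBall {G : E3 → E3} (h : ContDiff ℝ 1 G) (R : ℝ) :
    ∃ L, LipschitzOnWith L G (closedBall 0 R) := by
  have hc : IsCompact (closedBall (0 : E3) R) := isCompact_closedBall 0 R
  have hcont : Continuous (fun x => ‖fderiv ℝ G x‖) := (h.continuous_fderiv one_ne_zero).norm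
  obtain ⟨C, hC⟩ := hc.bddAbove_image hcont.continuousOn
  refine ⟨Real.toNNReal C, ?_⟩
  refine Convex.lipschitzOnWith_of_nnnorm_fderiv_le (𝕜 := ℝ)
    (fun x _ => (h.differentiable one_ne_zero) x) (fun x hx => ?_) (convex_closedBall 0 R)
  have h1 : ‖fderiv ℝ G x‖ ≤ C := hC ⟨x, hx, rfl⟩
  have h2 : (‖fderiv ℝ G x‖₊ : ℝ) ≤ Real.toNNReal C := by
    rw [coe_nnnorm]
    exact h1.trans (Real.le_coe_toNNReal C)
  exact_mod_cast h2

theorem tang_bd {ν : E3} {c : ℝ} {G : E3 → E3} (hG : ContDiff ℝ 1 G)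
    (hT : ∀ x, ⟪ν, x⟫ = c → ⟪ν, G x⟫ = 0) {K : Set E3} (hK : IsCompact K) :
    ∃ C : ℝ, ∀ x ∈ K, |⟪ν, G x⟫| ≤ C * |⟪ν, x⟫ - c| := by
  by_cases hν : ν = 0
  · refine ⟨0, fun x _ => ?_⟩
    rw [hν, inner_zero_left, abs_zero, zero_mul]
  have hn : 0 < ‖ν‖ := norm_pos_iff.2 hν
  obtain ⟨R0, hR0⟩ := hK.isBounded.subset_closedBall (0 : E3)
  set R := |R0| + (‖ν‖ * |R0| + |c|) / ‖ν‖ with hR
  obtain ⟨L, hL⟩ := lipBall hG R
  refine ⟨L, fun x hx => ?_⟩
  have hx0 : ‖x‖ ≤ |R0| := by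
    have h1 := hR0 hx
    rw [mem_closedBall, dist_zero_right] at h1
    exact h1.trans (le_abs_self _)
  set l := ⟪ν, x⟫ - c with hl
  set y := x - (l / ‖ν‖ ^ 2) • ν with hy
  have hyc : ⟪ν, y⟫ = c := by
    rw [hy, inner_sub_right, real_inner_smul_right, real_inner_self_eq_norm_sq]
    field_simp
    rw [hl]; ring
  have hd : ‖x - y‖ = |l| / ‖ν‖ := by
    rw [hy, sub_sub_cancel, norm_smul, Real.norm_eq_abs, abs_div, abs_of_pos (pow_pos hn 2)]
    field_simp
  have hlb : |l| ≤ ‖ν‖ * |R0| + |c| := by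
    rw [hl]
    refine (abs_sub _ _).trans ?_
    have h1 := abs_real_inner_le_norm ν x
    have h2 := mul_le_mul_of_nonneg_left hx0 hn.le
    linarith
  have hxR : x ∈ closedBall (0 : E3) R := by
    rw [mem_closedBall, dist_zero_right]
    have : 0 ≤ (‖ν‖ * |R0| + |c|) / ‖ν‖ := by positivity
    linarith
  have hyR : y ∈ closedBall (0 : E3) R := by
    rw [mem_closedBall, dist_zero_right]
    have h1 : ‖y‖ ≤ ‖x‖ + ‖x - y‖ := by
      have h2 := norm_sub_norm_le y x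
      have h3 : ‖y - x‖ = ‖x - y‖ := norm_sub_rev _ _
      linarith
    rw [hd] at h1
    have h4 : |l| / ‖ν‖ ≤ (‖ν‖ * |R0| + |c|) / ‖ν‖ := div_le_div_of_nonneg_right hlb hn.le
    linarith
  have h1 := hL.dist_le_mul x hxR y hyR
  rw [dist_eq_norm, dist_eq_norm, hd] at h1
  have h2 : ⟪ν, G x⟫ = ⟪ν, G x - G y⟫ := by
    rw [inner_sub_right, hT y hyc, sub_zero]
  rw [h2]
  calc |⟪ν, G x - G y⟫| ≤ ‖ν‖ * ‖G x - G y‖ := abs_real_inner_le_norm _ _
    _ ≤ ‖ν‖ * (L * (|l| / ‖ν‖)) := mul_le_mul_of_nonneg_left h1 hn.le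
    _ = L * |l| := by field_simp

/-! ### smooth step -/

theorem st_deriv_bd : ∃ M, ∀ r, |deriv Real.smoothTransition r| ≤ M := by
  have hc : Continuous (deriv Real.smoothTransition) :=
    (Real.smoothTransition.contDiff (n := 1)).continuous_deriv le_rfl
  obtain ⟨M, hM⟩ := (isCompact_Icc (a := (0 : ℝ)) (b := 1)).bddAbove_image
    (hc.abs).continuousOn
  refine ⟨M, fun r => ?_⟩
  have h0 : 0 ≤ M := (abs_nonneg _).trans (hM ⟨0, by simp, rfl⟩)
  by_cases h : r ∈ Icc (0 : ℝ) 1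
  · exact hM ⟨r, h, rfl⟩
  · have hz : deriv Real.smoothTransition r = 0 := by
      rw [mem_Icc, not_and_or, not_le, not_le] at h
      rcases h with h | h
      · refine IsLocalMin.deriv_eq_zero (Eventually.of_forall fun y => ?_)
        rw [Real.smoothTransition.zero_of_nonpos h.le]
        exact Real.smoothTransition.nonneg y
      · refine IsLocalMax.deriv_eq_zero (Eventually.of_forall fun y => ?_)
        rw [Real.smoothTransition.one_of_one_le h.le]
        exact Real.smoothTransition.le_one y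
    rw [hz, abs_zero]; exact h0

theorem st_deriv_zero {r : ℝ} (h : r ≤ 0 ∨ 1 ≤ r) : deriv Real.smoothTransition r = 0 := by
  rcases h with h | h
  · refine IsLocalMin.deriv_eq_zero (Eventually.of_forall fun y => ?_)
    rw [Real.smoothTransition.zero_of_nonpos h]
    exact Real.smoothTransition.nonneg y
  · refine IsLocalMax.deriv_eq_zero (Eventually.of_forall fun y => ?_)
    rw [Real.smoothTransition.one_of_one_le h]
    exact Real.smoothTransition.le_one y

/-- one factor of the cut-off -/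
noncomputable def wf (ν : E3) (c : ℝ) (m : ℕ) (x : E3) : ℝ :=
  Real.smoothTransition ((⟪ν, x⟫ - c) * (m + 1))

theorem wf_cd (ν : E3) (c : ℝ) (m : ℕ) {n : ℕ∞} : ContDiff ℝ n (wf ν c m) := by
  have h1 : ContDiff ℝ n (fun x : E3 => (⟪ν, x⟫ - c) * ((m : ℝ) + 1)) := by
    have h2 : ContDiff ℝ n (fun x : E3 => (innerSL ℝ ν) x) := (innerSL ℝ ν).contDiff
    exact (h2.sub contDiff_const).mul contDiff_const
  exact Real.smoothTransition.contDiff.comp h1

theorem wf_nonneg (ν : E3) (c : ℝ) (m : ℕ) (x : E3) : 0 ≤ wf ν c m x :=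
  Real.smoothTransition.nonneg _

theorem wf_le (ν : E3) (c : ℝ) (m : ℕ) (x : E3) : wf ν c m x ≤ 1 :=
  Real.smoothTransition.le_one _

theorem wf_fd (ν : E3) (c : ℝ) (m : ℕ) (x v : E3) : fderiv ℝ (wf ν c m) x v
    = deriv Real.smoothTransition ((⟪ν, x⟫ - c) * (m + 1)) * ((m + 1) * ⟪ν, v⟫) := by
  have h0 : HasFDerivAt (fun x : E3 => (innerSL ℝ ν) x) (innerSL ℝ ν) x :=
    (innerSL ℝ ν).hasFDerivAt
  have h1 : HasFDerivAt (fun x : E3 => (⟪ν, x⟫ - c) * ((m : ℝ) + 1))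
      (((m : ℝ) + 1) • innerSL ℝ ν) x := (h0.sub_const c).mul_const _
  have h2 : HasDerivAt Real.smoothTransition
      (deriv Real.smoothTransition ((⟪ν, x⟫ - c) * (m + 1))) ((⟪ν, x⟫ - c) * (m + 1)) :=
    ((Real.smoothTransition.contDiff (n := 1)).differentiable one_ne_zero _).hasDerivAt
  have h3 := h2.comp_hasFDerivAt x h1
  have h4 : fderiv ℝ (wf ν c m) x = deriv Real.smoothTransition ((⟪ν, x⟫ - c) * (m + 1)) •
      (((m : ℝ) + 1) • innerSL ℝ ν) := h3.fderiv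
  rw [h4]
  simp only [ContinuousLinearMap.smul_apply, smul_eq_mul, innerSL_apply_apply]

theorem wf_lim (ν : E3) (c : ℝ) (x : E3) : Tendsto (fun m : ℕ => wf ν c m x) atTop
    (𝓝 (if c < ⟪ν, x⟫ then 1 else 0)) := by
  split_ifs with h
  · refine tendsto_const_nhds.congr' ?_
    obtain ⟨N, hN⟩ := exists_nat_gt ((⟪ν, x⟫ - c)⁻¹)
    filter_upwards [eventually_ge_atTop N] with m hm
    refine (Real.smoothTransition.one_of_one_le ?_).symm
    have h1 : 0 < ⟪ν, x⟫ - c := by linarith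
    have h2 : (N : ℝ) ≤ m := by exact_mod_cast hm
    have h3 : (⟪ν, x⟫ - c)⁻¹ ≤ (m : ℝ) + 1 := by linarith
    calc (1 : ℝ) = (⟪ν, x⟫ - c) * (⟪ν, x⟫ - c)⁻¹ := by field_simp
      _ ≤ _ := mul_le_mul_of_nonneg_left h3 h1.le
  · refine tendsto_const_nhds.congr' (Eventually.of_forall fun m => ?_)
    refine (Real.smoothTransition.zero_of_nonpos ?_).symm
    exact mul_nonpos_of_nonpos_of_nonneg (by linarith) (by positivity)

theorem wf_fd_lim (ν : E3) (c : ℝ) (x v : E3) : ∀ᶠ m : ℕ in atTop,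
    fderiv ℝ (wf ν c m) x v = 0 := by
  by_cases h : c < ⟪ν, x⟫
  · obtain ⟨N, hN⟩ := exists_nat_gt ((⟪ν, x⟫ - c)⁻¹)
    filter_upwards [eventually_ge_atTop N] with m hm
    rw [wf_fd, st_deriv_zero, zero_mul]
    right
    have h1 : 0 < ⟪ν, x⟫ - c := by linarith
    have h2 : (N : ℝ) ≤ m := by exact_mod_cast hm
    have h3 : (⟪ν, x⟫ - c)⁻¹ ≤ (m : ℝ) + 1 := by linarith
    calc (1 : ℝ) = (⟪ν, x⟫ - c) * (⟪ν, x⟫ - c)⁻¹ := by field_simp
      _ ≤ _ := mul_le_mul_of_nonneg_left h3 h1.le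
  · refine Eventually.of_forall fun m => ?_
    rw [wf_fd, st_deriv_zero, zero_mul]
    left
    exact mul_nonpos_of_nonpos_of_nonneg (by linarith) (by positivity)

/-- the whole cut-off -/
noncomputable def Wf (ν : ι → E3) (c : ι → ℝ) (m : ℕ) (x : E3) : ℝ := ∏ j, wf (ν j) (c j) m x

theorem Wf_cd (ν : ι → E3) (c : ι → ℝ) (m : ℕ) {n : ℕ∞} : ContDiff ℝ n (Wf ν c m) := by
  unfold Wf
  exact contDiff_prod fun j _ => wf_cd (ν j) (c j) m

theorem Wf_nonneg (ν : ι → E3) (c : ι → ℝ) (m : ℕ) (x : E3) : 0 ≤ Wf ν c m x :=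
  Finset.prod_nonneg fun j _ => wf_nonneg _ _ _ _

theorem Wf_le (ν : ι → E3) (c : ι → ℝ) (m : ℕ) (x : E3) : Wf ν c m x ≤ 1 :=
  Finset.prod_le_one (fun j _ => wf_nonneg _ _ _ _) fun j _ => wf_le _ _ _ _

open Classical in
theorem Wf_lim (ν : ι → E3) (c : ι → ℝ) (x : E3) : Tendsto (fun m : ℕ => Wf ν c m x) atTop
    (𝓝 (if x ∈ Cel ν c then 1 else 0)) := by
  have h1 : Tendsto (fun m : ℕ => Wf ν c m x) atTop
      (𝓝 (∏ j, (if c j < ⟪ν j, x⟫ then (1 : ℝ) else 0))) :=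
    tendsto_finset_prod _ fun j _ => wf_lim (ν j) (c j) x
  have h2 : (∏ j, (if c j < ⟪ν j, x⟫ then (1 : ℝ) else 0)) = if x ∈ Cel ν c then 1 else 0 := by
    by_cases h : x ∈ Cel ν c
    · rw [if_pos h]
      exact Finset.prod_eq_one fun j _ => if_pos (h j)
    · rw [if_neg h]
      have h' : ∃ j, ¬ c j < ⟪ν j, x⟫ := by
        by_contra hcon
        push Not at hcon
        exact h hcon
      obtain ⟨j, hj⟩ := h'
      exact Finset.prod_eq_zero (Finset.mem_univ j) (if_neg hj)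
  rwa [h2] at h1

open Classical in
theorem Wf_fd (ν : ι → E3) (c : ι → ℝ) (m : ℕ) (x v : E3) : fderiv ℝ (Wf ν c m) x v
    = ∑ j, (∏ k ∈ Finset.univ.erase j, wf (ν k) (c k) m x) * fderiv ℝ (wf (ν j) (c j) m) x v := by
  have h1 : ∀ j ∈ (Finset.univ : Finset ι), HasFDerivAt (wf (ν j) (c j) m)
      (fderiv ℝ (wf (ν j) (c j) m) x) x := fun j _ =>
    ((wf_cd (ν j) (c j) m (n := 1)).differentiable one_ne_zero x).hasFDerivAt
  have h2 := HasFDerivAt.finset_prod h1
  have h3 : fderiv ℝ (Wf ν c m) x = ∑ i, (∏ k ∈ Finset.univ.erase i, wf (ν k) (c k) m x) •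
      fderiv ℝ (wf (ν i) (c i) m) x := h2.fderiv
  rw [h3]
  simp only [ContinuousLinearMap.sum_apply, ContinuousLinearMap.smul_apply, smul_eq_mul]

theorem Cel_open (ν : ι → E3) (c : ι → ℝ) : IsOpen (Cel ν c) := by
  have h : Cel ν c = ⋂ j, {x | c j < ⟪ν j, x⟫} := by
    ext x; simp [Cel]
  rw [h]
  exact isOpen_iInter_of_finite fun j => isOpen_lt continuous_const (by fun_prop)

/-- bound of the derivative of the cut-off along a tangent field -/
theorem cut_bd {ν : ι → E3} {c : ι → ℝ} {G : E3 → E3} (hG : ContDiff ℝ 1 G)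
    (hT : Tang ν c G) {K : Set E3} (hK : IsCompact K) :
    ∃ B, ∀ m : ℕ, ∀ x ∈ K, |fderiv ℝ (Wf ν c m) x (G x)| ≤ B := by
  classical
  have h1 : ∀ j, ∃ C : ℝ, ∀ x ∈ K, |⟪ν j, G x⟫| ≤ C * |⟪ν j, x⟫ - c j| :=
    fun j => tang_bd hG (hT j) hK
  choose C hC using h1
  obtain ⟨M, hM⟩ := st_deriv_bd
  have hM0 : 0 ≤ M := (abs_nonneg _).trans (hM 0)
  refine ⟨∑ j, M * |C j|, fun m x hx => ?_⟩
  rw [Wf_fd]
  refine (Finset.abs_sum_le_sum_abs _ _).trans (Finset.sum_le_sum fun j _ => ?_)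
  rw [abs_mul]
  have h2 : |∏ k ∈ Finset.univ.erase j, wf (ν k) (c k) m x| ≤ 1 := by
    rw [abs_of_nonneg (Finset.prod_nonneg fun k _ => wf_nonneg _ _ _ _)]
    exact Finset.prod_le_one (fun k _ => wf_nonneg _ _ _ _) fun k _ => wf_le _ _ _ _
  have h3 : |fderiv ℝ (wf (ν j) (c j) m) x (G x)| ≤ M * |C j| := by
    rw [wf_fd]
    by_cases hcase : (⟪ν j, x⟫ - c j) * (m + 1) ≤ 0 ∨ 1 ≤ (⟪ν j, x⟫ - c j) * (m + 1)
    · rw [st_deriv_zero hcase, zero_mul, abs_zero]
      positivity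
    · rw [not_or, not_le, not_le] at hcase
      have hm : (0 : ℝ) < m + 1 := by positivity
      have hl : 0 < ⟪ν j, x⟫ - c j := by
        by_contra hcon
        have := mul_nonpos_of_nonpos_of_nonneg (not_lt.1 hcon) hm.le
        linarith [hcase.1]
      rw [abs_mul]
      refine mul_le_mul (hM _) ?_ (abs_nonneg _) hM0
      rw [abs_mul, abs_of_pos hm]
      have h4 := hC j x hx
      rw [abs_of_pos hl] at h4
      have h5 : C j * (⟪ν j, x⟫ - c j) ≤ |C j| * (⟪ν j, x⟫ - c j) :=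
        mul_le_mul_of_nonneg_right (le_abs_self _) hl.le
      calc ((m : ℝ) + 1) * |⟪ν j, G x⟫| ≤ (m + 1) * (|C j| * (⟪ν j, x⟫ - c j)) :=
            mul_le_mul_of_nonneg_left (h4.trans h5) hm.le
        _ = |C j| * ((⟪ν j, x⟫ - c j) * (m + 1)) := by ring
        _ ≤ |C j| * 1 := mul_le_mul_of_nonneg_left hcase.2.le (abs_nonneg _)
        _ = |C j| := mul_one _
  calc |∏ k ∈ Finset.univ.erase j, wf (ν k) (c k) m x| * |fderiv ℝ (wf (ν j) (c j) m) x (G x)|
      ≤ 1 * (M * |C j|) := mul_le_mul h2 h3 (abs_nonneg _) zero_le_one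
    _ = M * |C j| := one_mul _

open Classical in
/-- **flux identity in cells** from the flux identity on the whole space -/
theorem S2_cell {σ : Measure (E3 × E3)} [IsFiniteMeasure σ] {K : Set E3} (hK : IsCompact K)
    (hσ : ∀ᵐ z ∂σ, z.1 ∈ K ∧ z.2 ∈ K) {n : ℕ∞} (hn : 1 ≤ n)
    (hU : ∀ G : E3 → E3, ContDiff ℝ n G → ∫ z, ⟪G z.1, z.1 - z.2⟫ ∂σ = ∫ x in K, dvg G x)
    (ν : ι → E3) (c : ι → ℝ) {G : E3 → E3} (hG : ContDiff ℝ n G) (hT : Tang ν c G) :
    ∫ z in {z | z.1 ∈ Cel ν c}, ⟪G z.1, z.1 - z.2⟫ ∂σ = ∫ x in K ∩ Cel ν c, dvg G x := by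
  have hG1 : ContDiff ℝ 1 G := hG.of_le (by exact_mod_cast hn)
  have hCo := Cel_open ν c
  have hKm : MeasurableSet K := hK.isClosed.measurableSet
  -- bounds
  have hc1 : Continuous (fun z : E3 × E3 => ⟪G z.1, z.1 - z.2⟫) := by
    have := hG1.continuous
    fun_prop
  have hc2 : Continuous (dvg G) := by
    have h1 : (dvg G) = fun x => ∑ i, ⟪(EuclideanSpace.basisFun (Fin 3) ℝ) i,
        fderiv ℝ G x ((EuclideanSpace.basisFun (Fin 3) ℝ) i)⟫ :=
      funext fun x => dvg_basis _ G x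
    rw [h1]
    have h2 : ∀ i, Continuous (fun x => fderiv ℝ G x ((EuclideanSpace.basisFun (Fin 3) ℝ) i)) :=
      fun i => (hG1.continuous_fderiv one_ne_zero).clm_apply continuous_const
    fun_prop
  obtain ⟨B1, hB1⟩ := (hK.prod hK).bddAbove_image (hc1.abs).continuousOn
  obtain ⟨B2, hB2⟩ := hK.bddAbove_image (hc2.abs).continuousOn
  obtain ⟨B3, hB3⟩ := cut_bd hG1 hT hK
  have hb1 : ∀ᵐ z ∂σ, |⟪G z.1, z.1 - z.2⟫| ≤ B1 := by
    filter_upwards [hσ] with z hz
    exact hB1 ⟨z, ⟨hz.1, hz.2⟩, rfl⟩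
  -- the identity with the cut-off
  have hid : ∀ m : ℕ, ∫ z, Wf ν c m z.1 * ⟪G z.1, z.1 - z.2⟫ ∂σ
      = ∫ x in K, (Wf ν c m x * dvg G x + fderiv ℝ (Wf ν c m) x (G x)) := by
    intro m
    have h1 := hU (fun y => Wf ν c m y • G y) ((Wf_cd ν c m).smul hG)
    have h2 : ∀ z : E3 × E3, ⟪Wf ν c m z.1 • G z.1, z.1 - z.2⟫
        = Wf ν c m z.1 * ⟪G z.1, z.1 - z.2⟫ := fun z => real_inner_smul_left _ _ _
    simp only [h2] at h1
    rw [h1]
    refine integral_congr_ae (Eventually.of_forall fun x => ?_)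
    exact dvg_smul ((Wf_cd ν c m (n := 1)).differentiable one_ne_zero x)
      (hG1.differentiable one_ne_zero x)
  -- limit of the left side
  have hl1 : Tendsto (fun m : ℕ => ∫ z, Wf ν c m z.1 * ⟪G z.1, z.1 - z.2⟫ ∂σ) atTop
      (𝓝 (∫ z, (if z.1 ∈ Cel ν c then 1 else 0) * ⟪G z.1, z.1 - z.2⟫ ∂σ)) := by
    refine tendsto_integral_of_dominated_convergence (fun _ => B1) (fun m => ?_)
      (integrable_const _) (fun m => ?_) (Eventually.of_forall fun z => ?_)
    · have h3 : Continuous (Wf ν c m) := (Wf_cd ν c m (n := 1)).continuous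
      exact ((h3.comp continuous_fst).mul hc1).aestronglyMeasurable
    · filter_upwards [hb1] with z hz
      rw [Real.norm_eq_abs, abs_mul, abs_of_nonneg (Wf_nonneg _ _ _ _)]
      exact (mul_le_of_le_one_left (abs_nonneg _) (Wf_le _ _ _ _)).trans hz
    · exact (Wf_lim ν c z.1).mul_const _
  -- limit of the right side
  have hvK : volume K < ⊤ := hK.measure_lt_top
  have hl2 : Tendsto (fun m : ℕ => ∫ x in K,
      (Wf ν c m x * dvg G x + fderiv ℝ (Wf ν c m) x (G x))) atTop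
      (𝓝 (∫ x in K, ((if x ∈ Cel ν c then 1 else 0) * dvg G x + 0))) := by
    haveI : IsFiniteMeasure (volume.restrict K) := ⟨by
      rw [Measure.restrict_apply_univ]; exact hvK⟩
    refine tendsto_integral_of_dominated_convergence (fun _ => B2 + B3) (fun m => ?_)
      (integrable_const _) (fun m => ?_) (Eventually.of_forall fun x => ?_)
    · have h3 : Continuous (Wf ν c m) := (Wf_cd ν c m (n := 1)).continuous
      have h4 : Continuous (fun x => fderiv ℝ (Wf ν c m) x (G x)) :=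
        ((Wf_cd ν c m (n := 1)).continuous_fderiv one_ne_zero).clm_apply hG1.continuous
      exact ((h3.mul hc2).add h4).aestronglyMeasurable
    · filter_upwards [ae_restrict_mem hKm] with x hx
      rw [Real.norm_eq_abs]
      refine (abs_add_le _ _).trans (add_le_add ?_ (hB3 m x hx))
      rw [abs_mul, abs_of_nonneg (Wf_nonneg _ _ _ _)]
      exact (mul_le_of_le_one_left (abs_nonneg _) (Wf_le _ _ _ _)).trans (hB2 ⟨x, hx, rfl⟩)
    · refine ((Wf_lim ν c x).mul_const _).add ?_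
      refine tendsto_const_nhds.congr' ?_
      have h5 : ∀ᶠ m : ℕ in atTop, ∀ j, fderiv ℝ (wf (ν j) (c j) m) x (G x) = 0 :=
        eventually_all.2 fun j => wf_fd_lim (ν j) (c j) x (G x)
      filter_upwards [h5] with m hm
      rw [Wf_fd]
      exact (Finset.sum_eq_zero fun j _ => by rw [hm j, mul_zero]).symm
  have heq := tendsto_nhds_unique (hl1.congr hid) hl2
  have e1 : ∫ z, (if z.1 ∈ Cel ν c then (1 : ℝ) else 0) * ⟪G z.1, z.1 - z.2⟫ ∂σ
      = ∫ z in {z | z.1 ∈ Cel ν c}, ⟪G z.1, z.1 - z.2⟫ ∂σ := by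
    have hm : MeasurableSet {z : E3 × E3 | z.1 ∈ Cel ν c} :=
      (hCo.preimage continuous_fst).measurableSet
    rw [← integral_indicator hm]
    refine integral_congr_ae (Eventually.of_forall fun z => ?_)
    by_cases h : z.1 ∈ Cel ν c
    · rw [indicator_of_mem (show z ∈ {z : E3 × E3 | z.1 ∈ Cel ν c} from h)]
      simp only [if_pos h, one_mul]
    · rw [indicator_of_notMem (show z ∉ {z : E3 × E3 | z.1 ∈ Cel ν c} from h)]
      simp only [if_neg h, zero_mul]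
  have e2 : ∫ x in K, ((if x ∈ Cel ν c then (1 : ℝ) else 0) * dvg G x + 0)
      = ∫ x in K ∩ Cel ν c, dvg G x := by
    rw [← setIntegral_indicator hCo.measurableSet]
    refine integral_congr_ae (Eventually.of_forall fun x => ?_)
    by_cases h : x ∈ Cel ν c
    · rw [indicator_of_mem h]
      simp only [if_pos h, one_mul, add_zero]
    · rw [indicator_of_notMem h]
      simp only [if_neg h, zero_mul, add_zero]
  rw [e1, e2] at heq
  exact heq

end Helper22.Sig
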