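import Pool.Agent.Helper22.MEI.Cpd3
import Pool.Agent.Helper95.MEI.Hc

/-!
# Project MEI (M2), TEAM TC: joint form of the coupling, clean weights

`kw φ σ a M m e i = (mp + xw)/M`: the weights of the coupling for which the product of the two
height moments cancels.  They dominate the moments `mX` of the coupling density of the other cell
in the coordinate of the vertex, and their sum dominates the mass of the other cell.
-/

set_option autoImplicit false

namespace Helper22.Cpd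

open Set Metric MeasureTheory Helper80.CW Helper14.CW Helper14.MEI2
open Helper93.MEI Helper37.MEI Helper41.MEI Helper78.MEI Helper49.Cpl
open Helper22.Sgn (gL TE_sgn)
open Pool.Agent.Helper8.MEI (DD DD_pos)
open Pool.Agent.Helper73.MEI (PM TE pf pr)
open Pool.Agent.Helper95.MEI.Fub (Zp exc_cont eX_cont eY_cont eW_cont Qv_cont pp_cont
  DDe_cont int_cont)
open scoped RealInnerProductSpace Real

section defs
variable (φ : ℝ → ℝ) (σ : Measure (E3 × E3)) (a : Fin 4 → E3)

/-- moment of the coupling density of the other cell, coordinate of the vertex `vx m e i` -/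
noncomputable def mX (m : Fin 3) (e i : Bool) : ℝ :=
  ∫ z in EE a m (!e), dp φ (ap a m (!e)) z * bar a (vx m e i) z.2 ∂σ

/-- extra weight of the two levels of the cell `e` -/
noncomputable def xw (m : Fin 3) (e : Bool) : ℝ :=
  if 0 ≤ pH φ σ (ap a m false) ∧ 0 ≤ pH φ σ (ap a m true) then
    √2 / 2 * pH φ σ (ap a m (!e)) else √2 * pp (pH φ σ (ap a m (!e)))

/-- the weights of the coupling -/
noncomputable def kw (M : Fin 3 → ℝ) (m : Fin 3) (e i : Bool) : ℝ :=
  (mp φ σ a m e i + xw φ σ a m e) / M m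

end defs

section pt
variable {a : Fin 4 → E3}

theorem bar2_v (h : Gram4 (al a)) (x : E3) : bar a 2 x = 1 / 2 + eY a x + √2 / 2 * eV a x := by
  rw [bar2_eq, eV_eq h]
  linear_combination (1 / 4) * s2s

theorem bar3_v (h : Gram4 (al a)) (x : E3) : bar a 3 x = 1 / 2 - eY a x + √2 / 2 * eV a x := by
  rw [bar3_eq, eV_eq h]
  linear_combination (1 / 4) * s2s

end pt

theorem vx_opp : ∀ (m : Fin 3) (e : Bool), vx m e false = pf m (!e) 2 ∧ vx m e true = pf m (!e) 3 := by
  decide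

section sys
variable {φ : ℝ → ℝ} {a : Fin 4 → E3} {K : Set E3} {σ : Measure (E3 × E3)} [IsFiniteMeasure σ]

/-- **levels and height moment of a cell** -/
theorem pQ_pH (hφ : Prof φ) (h : Gram4 (al a)) (hK : IsCompact K) (hp : ∀ x ∈ K, Pl a x)
    (hσ : ∀ᵐ z ∂σ, z.1 ∈ K ∧ z.2 ∈ K) (hS : ∀ j, ∀ q ∈ K, Qv a j q ≤ 0.12) :
    pQ φ σ a 0 + pQ φ σ a 1 ≤ √2 * pH φ σ a := by
  have c : ∀ f : E3 → ℝ, Continuous f → Integrable (fun z : E3 × E3 => dp φ a z * f z.2) σ :=
    fun f hf => int_cont hK hσ ((dp_cont hφ.cont a).mul (hf.comp continuous_snd))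
  have hV : Continuous (eV a) := eV_cont a
  unfold pQ pH
  rw [← integral_add (c _ (Qv_cont a 0)).integrableOn (c _ (Qv_cont a 1)).integrableOn,
    ← integral_const_mul]
  refine integral_mono_ae ((c _ (Qv_cont a 0)).integrableOn.add (c _ (Qv_cont a 1)).integrableOn)
    ((c _ hV).integrableOn.const_mul _) ?_
  filter_upwards [ae_restrict_of_ae hσ] with z hz
  have h1 := Helper95.MEI.Hc.circ h (hp _ hz.2) fun j => hS j _ hz.2
  have h2 := dp_nonneg hφ.nn h (hp _ hz.1)
  have h3 := mul_le_mul_of_nonneg_left h1 h2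
  show dp φ a z * Qv a 0 z.2 + dp φ a z * Qv a 1 z.2 ≤ √2 * (dp φ a z * eV a z.2)
  linarith

omit [IsFiniteMeasure σ] in
theorem xw_nonneg (m : Fin 3) (e : Bool) : 0 ≤ xw φ σ a m e := by
  unfold xw
  split_ifs with h
  · cases e
    · exact mul_nonneg (by positivity) h.2
    · exact mul_nonneg (by positivity) h.1
  · exact mul_nonneg (Real.sqrt_nonneg 2) (pp_nonneg _)

omit [IsFiniteMeasure σ] in
theorem xw_ge (m : Fin 3) (e : Bool) : √2 / 2 * pH φ σ (ap a m (!e)) ≤ xw φ σ a m e := by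
  have h1 := le_pp (pH φ σ (ap a m (!e)))
  have h2 := pp_nonneg (pH φ σ (ap a m (!e)))
  have h3 : 0 < √2 := by positivity
  unfold xw
  split_ifs with h
  · exact le_rfl
  · nlinarith

omit [IsFiniteMeasure σ] in
theorem xw_le (m : Fin 3) (e : Bool) : xw φ σ a m e ≤ √2 * pp (pH φ σ (ap a m (!e))) := by
  have h1 := le_pp (pH φ σ (ap a m (!e)))
  have h2 := pp_nonneg (pH φ σ (ap a m (!e)))
  have h3 : 0 < √2 := by positivity
  unfold xw
  split_ifs with h
  · nlinarith
  · exact le_rfl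

/-- the extra weights pay the product of the two height moments -/
theorem xw_sum (hφ : Prof φ) (ha : ∀ i j, i ≠ j → dist (a i) (a j) = 1) (hK : IsCompact K)
    (hp : ∀ x ∈ K, Pl a x) (hσ : ∀ᵐ z ∂σ, z.1 ∈ K ∧ z.2 ∈ K)
    (hS : ∀ j, ∀ q ∈ K, Qv a j q ≤ 0.12) (m : Fin 3) :
    xw φ σ a m false * (pQ φ σ (ap a m false) 0 + pQ φ σ (ap a m false) 1) +
      xw φ σ a m true * (pQ φ σ (ap a m true) 0 + pQ φ σ (ap a m true) 1) ≤
      2 * (pH φ σ (ap a m false) * pH φ σ (ap a m true)) := by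
  have g : ∀ e, pQ φ σ (ap a m e) 0 + pQ φ σ (ap a m e) 1 ≤ √2 * pH φ σ (ap a m e) := fun e =>
    pQ_pH hφ (hgp ha m e) hK (fun x hx => Pl_perm (pr m e) (hp x hx)) hσ
      (fun j q hq => hS (pf m e j) q hq)
  have s2 := s2s
  have f1 := mul_le_mul_of_nonneg_left (g false) (xw_nonneg (φ := φ) (σ := σ) (a := a) m false)
  have f2 := mul_le_mul_of_nonneg_left (g true) (xw_nonneg (φ := φ) (σ := σ) (a := a) m true)
  refine (add_le_add f1 f2).trans ?_
  set HA := pH φ σ (ap a m false) with hA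
  set HB := pH φ σ (ap a m true) with hB
  unfold xw
  rw [← hA, ← hB, Bool.not_false, Bool.not_true, ← hA, ← hB]
  split_ifs with h
  · have e1 : √2 / 2 * HB * (√2 * HA) + √2 / 2 * HA * (√2 * HB) = √2 * √2 * (HA * HB) := by ring
    rw [e1, s2]
  · have e1 : √2 * pp HB * (√2 * HA) + √2 * pp HA * (√2 * HB) =
        √2 * √2 * (pp HB * HA + pp HA * HB) := by ring
    rw [e1, s2]
    have h2 : pp HB * HA + pp HA * HB ≤ HA * HB := by
      rcases le_or_gt 0 HA with kA | kA
      · have kB : HB < 0 := by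
          by_contra hc
          push Not at hc
          exact h ⟨kA, hc⟩
        have e2 : pp HB = 0 := max_eq_right kB.le
        have e3 : pp HA = HA := max_eq_left kA
        rw [e2, e3]
        linarith
      · have e3 : pp HA = 0 := max_eq_right kA.le
        rcases le_or_gt 0 HB with kB | kB
        · have e2 : pp HB = HB := max_eq_left kB
          rw [e2, e3]
          linarith
        · have e2 : pp HB = 0 := max_eq_right kB.le
          rw [e2, e3]
          have := mul_pos_of_neg_of_neg kA kB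
          linarith
    linarith

/-- **the pair of opposite edges with the clean weights** -/
theorem te_kw (hφ : Prof φ) (hP : PM K σ) (ha : ∀ i j, i ≠ j → dist (a i) (a j) = 1)
    (hd : ∀ x ∈ K, ∀ y ∈ K, ‖x - y‖ ≤ 1) (hp : ∀ x ∈ K, Pl a x)
    (hS : ∀ j, ∀ q ∈ K, Qv a j q ≤ 0.12) (m : Fin 3)
    {B : Bool → OrthonormalBasis (Fin 3) ℝ E3} (hB : ∀ e, Fr (ap a m e) (B e)) {M : Fin 3 → ℝ}
    (hM : 0 < M m) :
    -(∑ e, ∑ i, gP φ σ a (kw φ σ a M m e i) m e i) ≤
      TE (B false) (cen a) σ + TE (B true) (cen a) σ := by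
  have hg : Gram4 (al (ap a m false)) := gram_of_dist (hap ha m false)
  have hpl : ∀ x ∈ K, Pl (ap a m false) x := fun x hx => Pl_perm (pr m false) (hp x hx)
  have key := cplp hφ.cont hφ.cont hφ.nn hφ.nn hg hP.cpt hd hpl hP.mem
  rw [← ap_mir a m] at key
  have hx := xw_sum hφ ha hP.cpt hp hP.mem hS m
  rw [TE_sgn hP ha m false (hB false), TE_sgn hP ha m true (hB true)]
  simp only [Fintype.sum_bool]
  rw [gP_eq hφ.cont hP.cpt hP.mem, gP_eq hφ.cont hP.cpt hP.mem, gP_eq hφ.cont hP.cpt hP.mem,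
    gP_eq hφ.cont hP.cpt hP.mem]
  unfold kw mp
  simp only [Bool.not_false, Bool.not_true, if_true, Bool.false_eq_true, if_false]
  set A0 := p0 φ σ (ap a m false)
  set AY := pY φ σ (ap a m false)
  set B0 := p0 φ σ (ap a m true)
  set BY := pY φ σ (ap a m true)
  set HA := pH φ σ (ap a m false)
  set HB := pH φ σ (ap a m true)
  set q0 := pQ φ σ (ap a m false) 0
  set q1 := pQ φ σ (ap a m false) 1
  set q2 := pQ φ σ (ap a m true) 0
  set q3 := pQ φ σ (ap a m true) 1
  set xA := xw φ σ a m false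
  set xB := xw φ σ a m true
  have e : (B0 / 2 + BY + xA) / M m / 2 * q0 + (B0 / 2 + -BY + xA) / M m / 2 * q1 +
      ((A0 / 2 + AY + xB) / M m / 2 * q2 + (A0 / 2 + -AY + xB) / M m / 2 * q3) =
      ((B0 / 2 + BY) * q0 + (B0 / 2 - BY) * q1 + (A0 / 2 + AY) * q2 + (A0 / 2 - AY) * q3 +
        (xA * (q0 + q1) + xB * (q2 + q3))) / M m / 2 := by
    field_simp
    ring
  have k : ((B0 / 2 + BY) * q0 + (B0 / 2 - BY) * q1 + (A0 / 2 + AY) * q2 + (A0 / 2 - AY) * q3 +
        (xA * (q0 + q1) + xB * (q2 + q3))) / M m / 2 ≤ 0 := by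
    apply div_nonpos_of_nonpos_of_nonneg _ (by norm_num)
    apply div_nonpos_of_nonpos_of_nonneg _ hM.le
    linarith
  rw [← e] at k
  linarith

/-- **the excess terms lose at most the levels of the coupled system**, clean weights -/
theorem TL_kw (hφ : Prof φ) (hP : PM K σ) (ha : ∀ i j, i ≠ j → dist (a i) (a j) = 1)
    (hd : ∀ x ∈ K, ∀ y ∈ K, ‖x - y‖ ≤ 1) (hp : ∀ x ∈ K, Pl a x)
    (hS : ∀ j, ∀ q ∈ K, Qv a j q ≤ 0.12)
    {B : Fin 3 → Bool → OrthonormalBasis (Fin 3) ℝ E3}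
    (hB : ∀ m e, Fr (fun i => a (pr m e i)) (B m e)) {M : Fin 3 → ℝ} (hM : ∀ m, 0 < M m) :
    TL σ a B (l3 φ (kw φ σ a M) a) 0 := by
  have h0 : TL σ a B (l3 φ (kw φ σ a M) a) (0 + 0 + 0) := by
    refine TL_pairs (εm := fun _ => 0) fun m => ?_
    have h1 := te_kw hφ hP ha hd hp hS m (B := B m) (hB m) (M := M) (hM m)
    have h2 := gP_le (κ := kw φ σ a M) (a := a) hφ hP.cpt hP.mem m false
    have h3 := gP_le (κ := kw φ σ a M) (a := a) hφ hP.cpt hP.mem m true
    simp only [Fintype.sum_bool] at h1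
    linarith
  have e : (0 : ℝ) + 0 + 0 = 0 := by norm_num
  rw [e] at h0
  exact h0

theorem kw_nonneg (hφ : Prof φ) (hK : IsCompact K) (hσ : ∀ᵐ z ∂σ, z.1 ∈ K ∧ z.2 ∈ K)
    (ha : ∀ i j, i ≠ j → dist (a i) (a j) = 1) (hp : ∀ x ∈ K, Pl a x)
    {M : Fin 3 → ℝ} (hM : ∀ m, 0 < M m) (m : Fin 3) (e i : Bool) : 0 ≤ kw φ σ a M m e i :=
  div_nonneg (add_nonneg (mp_nonneg hφ ha hK hσ hp m e i) (xw_nonneg m e)) (hM m).le

omit [IsFiniteMeasure σ] in
theorem kw_le_one {M : Fin 3 → ℝ} (hM : ∀ m, 0 < M m)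
    (h : ∀ m e i, mp φ σ a m e i + xw φ σ a m e ≤ M m) (m : Fin 3) (e i : Bool) :
    kw φ σ a M m e i ≤ 1 := by
  unfold kw
  rw [div_le_one (hM m)]
  exact h m e i

omit [IsFiniteMeasure σ] in
/-- `kw * M` -/
theorem kw_mul {M : Fin 3 → ℝ} (hM : ∀ m, 0 < M m) (m : Fin 3) (e i : Bool) :
    kw φ σ a M m e i * M m = mp φ σ a m e i + xw φ σ a m e :=
  div_mul_cancel₀ _ (hM m).ne'

/-- the moment in barycentric coordinates -/
theorem mX_eq (hφ : Prof φ) (ha : ∀ i j, i ≠ j → dist (a i) (a j) = 1) (hK : IsCompact K)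
    (hσ : ∀ᵐ z ∂σ, z.1 ∈ K ∧ z.2 ∈ K) (m : Fin 3) (e i : Bool) :
    mX φ σ a m e i = mp φ σ a m e i + √2 / 2 * pH φ σ (ap a m (!e)) := by
  have hg := hgp ha m (!e)
  set b := ap a m (!e) with hb
  have c0 := (int_cont hK hσ (dp_cont hφ.cont b)).integrableOn (s := Zp b 2 3)
  have c1' : Continuous fun z : E3 × E3 => dp φ b z * eY b z.2 :=
    (dp_cont hφ.cont b).mul ((eY_cont b).comp continuous_snd)
  have c2' : Continuous fun z : E3 × E3 => dp φ b z * eV b z.2 :=
    (dp_cont hφ.cont b).mul ((eV_cont b).comp continuous_snd)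
  have c1 := (int_cont hK hσ c1').integrableOn (s := Zp b 2 3)
  have c2 := (int_cont hK hσ c2').integrableOn (s := Zp b 2 3)
  have k2 : ∀ x, bar b 2 x = bar a (pf m (!e) 2) x := fun x => bar_perm (pr m (!e)) 2 x
  have k3 : ∀ x, bar b 3 x = bar a (pf m (!e) 3) x := fun x => bar_perm (pr m (!e)) 3 x
  have hE : EE a m (!e) = Zp b 2 3 := rfl
  unfold mX mp
  rw [hE, ← hb]
  unfold p0 pY pH
  cases i
  · have v : vx m e false = pf m (!e) 2 := (vx_opp m e).1
    have e1 : ∀ z : E3 × E3, dp φ b z * bar a (vx m e false) z.2 =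
        dp φ b z / 2 + dp φ b z * eY b z.2 + √2 / 2 * (dp φ b z * eV b z.2) := by
      intro z
      rw [v, ← k2, bar2_v hg]
      ring
    simp only [e1, Bool.false_eq_true, if_false]
    have i1 : IntegrableOn (fun z => dp φ b z / 2 + dp φ b z * eY b z.2) (Zp b 2 3) σ :=
      (c0.div_const 2).add c1
    rw [integral_add i1 (c2.const_mul _), integral_add (c0.div_const 2) c1, integral_div,
      integral_const_mul]
  · have v : vx m e true = pf m (!e) 3 := (vx_opp m e).2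
    have e1 : ∀ z : E3 × E3, dp φ b z * bar a (vx m e true) z.2 =
        dp φ b z / 2 - dp φ b z * eY b z.2 + √2 / 2 * (dp φ b z * eV b z.2) := by
      intro z
      rw [v, ← k3, bar3_v hg]
      ring
    simp only [e1, if_true]
    have i1 : IntegrableOn (fun z => dp φ b z / 2 - dp φ b z * eY b z.2) (Zp b 2 3) σ :=
      (c0.div_const 2).sub c1
    rw [integral_add i1 (c2.const_mul _), integral_sub (c0.div_const 2) c1, integral_div,
      integral_const_mul]
    ring

/-- **the weights dominate the moments of the other cell** -/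
theorem mX_le_kw (hφ : Prof φ) (ha : ∀ i j, i ≠ j → dist (a i) (a j) = 1) (hK : IsCompact K)
    (hσ : ∀ᵐ z ∂σ, z.1 ∈ K ∧ z.2 ∈ K) {M : Fin 3 → ℝ} (hM : ∀ m, 0 < M m) (m : Fin 3)
    (e i : Bool) : mX φ σ a m e i ≤ kw φ σ a M m e i * M m := by
  rw [kw_mul hM, mX_eq hφ ha hK hσ]
  linarith [xw_ge (φ := φ) (σ := σ) (a := a) m e]

omit [IsFiniteMeasure σ] in
/-- **sum row**: the two weights dominate the mass of the other cell -/
theorem p0_le_kw {M : Fin 3 → ℝ} (hM : ∀ m, 0 < M m) (m : Fin 3) (e : Bool) :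
    p0 φ σ (ap a m (!e)) ≤ (kw φ σ a M m e false + kw φ σ a M m e true) * M m := by
  have h1 := xw_nonneg (φ := φ) (σ := σ) (a := a) m e
  rw [add_mul, kw_mul hM, kw_mul hM]
  unfold mp
  simp only [if_true, Bool.false_eq_true, if_false]
  linarith

/-- upper bound of the weights through the moments of the other cell -/
theorem kw_up (hφ : Prof φ) (ha : ∀ i j, i ≠ j → dist (a i) (a j) = 1) (hK : IsCompact K)
    (hσ : ∀ᵐ z ∂σ, z.1 ∈ K ∧ z.2 ∈ K) (m : Fin 3) (e i : Bool) :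
    mp φ σ a m e i + xw φ σ a m e ≤
      mX φ σ a m e i + √2 / 2 * |pH φ σ (ap a m (!e))| := by
  have h1 := xw_le (φ := φ) (σ := σ) (a := a) m e
  have h3 : 0 < √2 := by positivity
  rw [mX_eq hφ ha hK hσ]
  set H := pH φ σ (ap a m (!e))
  rcases abs_cases H with ⟨e1, e2⟩ | ⟨e1, e2⟩
  · have e3 : pp H = H := max_eq_left e2
    rw [e3] at h1
    rw [e1]
    linarith
  · have e3 : pp H = 0 := max_eq_right e2.le
    rw [e3] at h1
    rw [e1]
    linarith

end sys

end Helper22.Cpd
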