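import Pool.Agent.Helper53.MEI.Mom6
import Pool.Agent.Helper22.MEI.Cpd4

/-!
# Project MEI (M2), TEAM TC: lower bound of the mass of the coupling density in a cell

Flux of the axial vector with a weight which does not depend on the height: only the lower wall
integrals enter (no own sphere).
-/

set_option autoImplicit false

namespace Helper22.P0

open Set Metric MeasureTheory Filter Topology Helper80.CW Helper14.CW Helper14.MEI2
open Helper22.MEI (t FD FD_pos)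
open Helper22.Wedge (co co_cd co_mp EC ib ibv)
open Helper22.Sig (dvg Cel_open)
open Helper21.Mom (co_cdn)
open Helper93.MEI Helper37.MEI Helper21.Sec Helper53.MEI Helper22.Cpd
open Helper49.Cpl (dp p0 rh rh_pos)
open Pool.Agent.Helper73.MEI (PM pf pr pf_bij)
open Pool.Agent.Helper95.MEI.Fub (Zp int_cont)
open scoped ContDiff RealInnerProductSpace Real

/-! ### height of the cell -/

theorem N_le {y w r : ℝ} (hy : 0 ≤ y) (hw : √2 * y ≤ w)
    (h : √2 * w + y + (y ^ 2 + w ^ 2) ≤ r) (hr1 : r ≤ 2 / 5) :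
    4 * (y ^ 2 + w ^ 2) ≤ 2 * r ^ 2 - 2 * r ^ 3 + 5 / 2 * r ^ 4 := by
  have s2 : √2 * √2 = 2 := Real.mul_self_sqrt (by norm_num)
  have hs : 0 < √2 := by positivity
  obtain ⟨N, hN⟩ : ∃ N, N = y ^ 2 + w ^ 2 := ⟨_, rfl⟩
  rw [← hN] at h ⊢
  have hw0 : 0 ≤ w := le_trans (mul_nonneg hs.le hy) hw
  have hN0 : 0 ≤ N := by rw [hN]; positivity
  have h2 : 2 * y ≤ √2 * w := by
    have := mul_le_mul_of_nonneg_left hw hs.le
    rw [← mul_assoc, s2] at this
    exact this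
  have h3 : 3 * y ≤ r - N := by linarith
  have h4 : 0 ≤ √2 * w := mul_nonneg hs.le hw0
  have h5 : (√2 * w) ^ 2 ≤ (r - N - y) ^ 2 := pow_le_pow_left₀ h4 (by linarith) 2
  have h6 : (√2 * w) ^ 2 = 2 * (N - y ^ 2) := by
    rw [hN, mul_pow, sq √2, s2]
    ring
  have h7 : 0 ≤ y * (2 * (r - N) - 3 * y) := mul_nonneg hy (by linarith)
  have h8 : 2 * N ≤ (r - N) ^ 2 := by nlinarith
  have hr0 : 0 ≤ r := by linarith
  by_contra hc
  push Not at hc
  obtain ⟨n, hn⟩ : ∃ n, n = (r ^ 2 - r ^ 3 + 5 / 4 * r ^ 4) / 2 := ⟨_, rfl⟩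
  have hc2 : n < N := by rw [hn]; linarith
  have hNr : N ≤ r := by linarith
  have k1 : (r - N) ^ 2 - 2 * N ≤ (r - n) ^ 2 - 2 * n - (N - n) := by
    have e : (r - n) ^ 2 - 2 * n - ((r - N) ^ 2 - 2 * N) = (N - n) * (2 * r - N - n + 2) := by
      ring
    have : (N - n) * 1 ≤ (N - n) * (2 * r - N - n + 2) :=
      mul_le_mul_of_nonneg_left (by linarith) (by linarith)
    linarith
  have k2 : (r - n) ^ 2 - 2 * n ≤ 0 := by
    have e : (r - n) ^ 2 - 2 * n =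
        r ^ 4 * (-(1 / 4) - 5 / 4 * r + (1 - r + 5 / 4 * r ^ 2) ^ 2 / 4) := by
      rw [hn]
      ring
    rw [e]
    have u0 : 0 ≤ 1 - r + 5 / 4 * r ^ 2 := by nlinarith
    have u1 : 1 - r + 5 / 4 * r ^ 2 ≤ 1 := by nlinarith
    have u2 : (1 - r + 5 / 4 * r ^ 2) ^ 2 ≤ 1 := by nlinarith
    have u3 : -(1 / 4) - 5 / 4 * r + (1 - r + 5 / 4 * r ^ 2) ^ 2 / 4 ≤ 0 := by linarith
    exact mul_nonpos_of_nonneg_of_nonpos (by positivity) u3
  linarith

/-- `4 (y² + w²)` at the top of the cell, level `s` -/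
noncomputable def TS (s : ℝ) : ℝ :=
  2 * (1 / 4 + s) ^ 2 - 2 * (1 / 4 + s) ^ 3 + 5 / 2 * (1 / 4 + s) ^ 4

/-! ### the flux, smooth profile -/

section
variable {b : OrthonormalBasis (Fin 3) ℝ E3} {c : E3} {σ : Measure (E3 × E3)}
  [IsFiniteMeasure σ] {K : Set E3} (hK : IsCompact K)
  (hσ : ∀ᵐ z ∂σ, z.1 ∈ K ∧ z.2 ∈ K) (hσ1 : ∀ᵐ z ∂σ, ‖z.1 - z.2‖ = 1)
  (hU : ∀ G : E3 → E3, ContDiff ℝ ∞ G → ∫ z, ⟪G z.1, z.1 - z.2⟫ ∂σ = ∫ x in K, dvg G x)
  {s1 s2 s3 s4 : ℝ} (h : Bod b c K s1 s2 s3 s4)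

theorem fd_g {γ : ℝ → ℝ} (hγ : Differentiable ℝ γ) (x : E3) :
    fderiv ℝ (fun y => γ (co b c y).1) x (b 2) = 0 := by
  obtain ⟨⟨i00, i01, i02⟩, ⟨i10, i11, i12⟩, ⟨i20, i21, i22⟩⟩ := ibv b
  have e : (fun y => (co b c y).1) = fun y => ⟪b 0, y⟫ - ⟪b 0, c⟫ := by
    funext y
    show ⟪b 0, y - c⟫ = _
    rw [inner_sub_right]
  have h1 : HasFDerivAt (fun y : E3 => (co b c y).1) (innerSL ℝ (b 0)) x := by
    rw [e]
    exact ((innerSL ℝ (b 0)).hasFDerivAt).sub_const _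
  have h2 := (hγ (co b c x).1).hasDerivAt.comp_hasFDerivAt x h1
  have h3 : (γ ∘ fun y : E3 => (co b c y).1) = fun y => γ (co b c y).1 := rfl
  rw [h3] at h2
  rw [h2.fderiv]
  show deriv γ (co b c x).1 • ⟪b 0, b 2⟫ = 0
  rw [i02, smul_zero]

include hK hσ hσ1 hU h in
theorem mass_smooth {φ : ℝ → ℝ} (sφ : ContDiff ℝ ∞ φ)
    (hφ : ∀ X : ℝ, |X| ≤ 1 / 2 → 0 ≤ φ X ∧ φ X ≤ 1) {T c0 : ℝ} (h0 : 0 ≤ c0)
    (hc : c0 * (1 + T) ≤ 1)
    (hT : ∀ x ∈ K, x ∈ EC b c → 4 * ((co b c x).2.1 ^ 2 + ((co b c x).2.2 - t) ^ 2) ≤ T) :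
    c0 * (√2 * JGl φ s1 s2) ≤ ∫ z in {z | z.1 ∈ EC b c}, omF φ (co b c z.1) ∂σ := by
  have hcc := (co_cd b c).continuous
  obtain ⟨γ, hγd⟩ : ∃ γ : ℝ → ℝ, γ = fun X => c0 * φ X / (1 + X ^ 2 / 2) := ⟨_, rfl⟩
  have hγ : ContDiff ℝ ∞ γ := by
    rw [hγd]
    refine (contDiff_const.mul sφ).div (by fun_prop) fun X => ?_
    positivity
  have hX1 : ContDiff ℝ ∞ (fun x : E3 => (co b c x).1) := contDiff_fst.comp (co_cdn b c)
  have hg : ContDiff ℝ ∞ (fun x : E3 => γ (co b c x).1) := hγ.comp hX1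
  have hl := fluxg_lim b c hK hσ hU hg (b 2)
  rw [cel_eq] at hl
  simp only [fd_g (hγ.differentiable (by simp)), integral_zero, sub_zero] at hl
  have hn := nuw_b b
  rw [(hn 0).1, (hn 1).1] at hl
  have hFD : ∀ x : E3, 1 + (co b c x).1 ^ 2 / 2 ≤ 4 * FD (co b c x) := by
    intro x
    unfold FD
    nlinarith [sq_nonneg (co b c x).2.1, sq_nonneg ((co b c x).2.2 - t)]
  -- comparison on the body
  have hlow : ∀ x ∈ K, c0 * omF φ (co b c x) ≤ γ (co b c x).1 := by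
    intro x hx
    have h1 := (hφ _ (h.X_le x hx)).1
    have h2 : 0 < 1 + (co b c x).1 ^ 2 / 2 := by positivity
    rw [hγd]
    unfold omF
    rw [← mul_div_assoc]
    exact div_le_div_of_nonneg_left (mul_nonneg h0 h1) h2 (hFD x)
  have hJ : ∀ (ε : ℝ) (m : ℕ), (ε = 1 ∨ ε = -1) →
      c0 * JG b c φ K ε m ≤ ∫ x in K, γ (co b c x).1 * jk (m + 1) (Tw b c ε x) := by
    intro ε m hε
    have e1 : JG b c φ K ε m = ∫ x in K, omF φ (co b c x) * jk (m + 1) (Tw b c ε x) := by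
      unfold JG
      rw [← int_Tw b c hε K (fun p => omG φ p * jk (m + 1) p)]
      simp only [omF_omG b c φ hε]
    have hM : (0 : ℝ) < m + 1 := by positivity
    have cj : Continuous fun x : E3 => jk (m + 1) (Tw b c ε x) := (jk_cont _).comp (Tw_cont b c ε)
    have c1 : Continuous fun x : E3 => omF φ (co b c x) * jk (m + 1) (Tw b c ε x) :=
      ((omF_cd (n := 0) (sφ.of_le (by simp))).continuous.comp hcc).mul cj
    have c2 : Continuous fun x : E3 => γ (co b c x).1 * jk (m + 1) (Tw b c ε x) :=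
      hg.continuous.mul cj
    rw [e1, ← integral_const_mul]
    refine setIntegral_mono_on ((c1.continuousOn.integrableOn_compact hK).const_mul c0)
      (c2.continuousOn.integrableOn_compact hK) hK.isClosed.measurableSet fun x hx => ?_
    have h1 := jk_nonneg hM (Tw b c ε x)
    have h2 := mul_le_mul_of_nonneg_right (hlow x hx) h1
    linarith
  have hlim : Tendsto (fun m : ℕ => c0 * (√2 * (JGl φ s1 s2 - √2 * (1 / ((m : ℝ) + 1)) -
      √2 * (1 / ((m : ℝ) + 1)) - 4 * (1 / ((m : ℝ) + 1))))) atTop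
      (𝓝 (c0 * (√2 * JGl φ s1 s2))) := by
    have hc : Continuous (fun u : ℝ => c0 * (√2 * (JGl φ s1 s2 - √2 * u - √2 * u - 4 * u))) := by
      fun_prop
    have h2 := (hc.tendsto 0).comp lim_inv
    refine h2.congr' ?_ |>.trans (le_of_eq ?_)
    · exact Eventually.of_forall fun m => rfl
    · congr 1
      ring
  have h3 := le_of_tendsto_of_tendsto' hlim hl fun m => by
    have k1 := mul_le_mul_of_nonneg_left (JG_lo sφ.continuous hφ hK h (Or.inl rfl) m) h0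
    have k2 := mul_le_mul_of_nonneg_left (JG_lo sφ.continuous hφ hK h (Or.inr rfl) m) h0
    have k3 := hJ 1 m (Or.inl rfl)
    have k4 := hJ (-1) m (Or.inr rfl)
    have k5 : 0 < √2 := by positivity
    have k6 := mul_le_mul_of_nonneg_left (k1.trans k3) (by positivity : (0 : ℝ) ≤ √2 / 2)
    have k7 := mul_le_mul_of_nonneg_left (k2.trans k4) (by positivity : (0 : ℝ) ≤ √2 / 2)
    linarith
  refine h3.trans ?_
  have c1 : Continuous fun z : E3 × E3 => γ (co b c z.1).1 * ⟪b 2, z.1 - z.2⟫ :=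
    (hg.continuous.comp continuous_fst).mul (by fun_prop)
  have c2 : Continuous fun z : E3 × E3 => omF φ (co b c z.1) :=
    (omF_cd (n := 0) (sφ.of_le (by simp))).continuous.comp (hcc.comp continuous_fst)
  refine integral_mono_ae (int_cont hK hσ c1).integrableOn (int_cont hK hσ c2).integrableOn ?_
  have hEm : MeasurableSet {z : E3 × E3 | z.1 ∈ EC b c} := by
    rw [← cel_eq]
    exact measurable_fst (Cel_open _ _).measurableSet
  filter_upwards [ae_restrict_of_ae hσ, ae_restrict_of_ae hσ1, ae_restrict_mem hEm] with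
    z hz hz1 hzE
  have h1 := (hφ _ (h.X_le _ hz.1)).1
  have h2 : 0 < 1 + (co b c z.1).1 ^ 2 / 2 := by positivity
  have hF := FD_pos (co b c z.1)
  have hT' := hT _ hz.1 hzE
  have e4 : 4 * FD (co b c z.1) = 1 + (co b c z.1).1 ^ 2 / 2 +
      4 * ((co b c z.1).2.1 ^ 2 + ((co b c z.1).2.2 - t) ^ 2) := by
    unfold FD
    ring
  have k1 : γ (co b c z.1).1 ≤ omF φ (co b c z.1) := by
    rw [hγd]
    unfold omF
    show c0 * φ (co b c z.1).1 / (1 + (co b c z.1).1 ^ 2 / 2) ≤ _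
    rw [div_le_div_iff₀ h2 (by positivity)]
    have k2 : c0 * (4 * FD (co b c z.1)) ≤ 1 + (co b c z.1).1 ^ 2 / 2 := by
      have k3 : c0 * (4 * FD (co b c z.1)) ≤ c0 * ((1 + (co b c z.1).1 ^ 2 / 2) * (1 + T)) := by
        apply mul_le_mul_of_nonneg_left _ h0
        rw [e4]
        have hT0 : 0 ≤ T := le_trans (by positivity) hT'
        have := mul_nonneg (by positivity : (0 : ℝ) ≤ (co b c z.1).1 ^ 2 / 2) hT0
        linarith
      have k4 := mul_le_mul_of_nonneg_left hc h2.le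
      calc c0 * (4 * FD (co b c z.1)) ≤ c0 * ((1 + (co b c z.1).1 ^ 2 / 2) * (1 + T)) := k3
        _ = (1 + (co b c z.1).1 ^ 2 / 2) * (c0 * (1 + T)) := by ring
        _ ≤ (1 + (co b c z.1).1 ^ 2 / 2) * 1 := k4
        _ = _ := by ring
    have k5 := mul_le_mul_of_nonneg_left k2 h1
    linarith
  have k6 : 0 ≤ γ (co b c z.1).1 := by
    rw [hγd]
    exact div_nonneg (mul_nonneg h0 h1) h2.le
  have k7 : ⟪b 2, z.1 - z.2⟫ ≤ 1 := by
    refine (real_inner_le_norm _ _).trans ?_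
    rw [hz1, b.norm_eq_one, one_mul]
  show γ (co b c z.1).1 * ⟪b 2, z.1 - z.2⟫ ≤ omF φ (co b c z.1)
  have k8 := mul_le_mul_of_nonneg_left k7 k6
  linarith

end

/-! ### general profile, placed body -/

section fr
variable {a : Fin 4 → E3} (ha : ∀ i j, i ≠ j → dist (a i) (a j) = 1)
  {K : Set E3} {σ : Measure (E3 × E3)} [IsFiniteMeasure σ] (h : PM K σ)
  (hcomp : ∀ p : E3, (∀ q ∈ K, dist p q ≤ 1) → p ∈ K)
  (hpl : ∀ x ∈ K, Pl a x) {b : OrthonormalBasis (Fin 3) ℝ E3} (hb : Fr a b)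
  {S : Fin 4 → ℝ} (hQ : ∀ x ∈ K, ∀ i, Qv a i x ≤ S i) (hS0 : ∀ i, 0 ≤ S i)

include ha hpl hb hQ in
omit [IsFiniteMeasure σ] in
theorem top_cell {s : ℝ} (h2 : S 2 ≤ s) (h3 : S 3 ≤ s) (hs : s ≤ 3 / 20) (x : E3) (hx : x ∈ K)
    (hE : x ∈ EC b (cen a)) :
    4 * ((co b (cen a) x).2.1 ^ 2 + ((co b (cen a) x).2.2 - t) ^ 2) ≤ TS s := by
  have hG := gram_of_dist ha
  have q2 := hQ x hx 2
  have q3 := hQ x hx 3
  rw [Qv2_e hG] at q2
  rw [Qv3_e hG] at q3
  have hE' : |(co b (cen a) x).2.1| < Helper22.MEI.s * ((co b (cen a) x).2.2 - t) := hE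
  rw [co_e53 ha hb] at hE' ⊢
  simp only at hE' ⊢
  have et : √2 / 4 + eW a x - t = eW a x := by
    unfold Helper22.MEI.t
    ring
  have es : Helper22.MEI.s = √2 / 2 := rfl
  rw [et, es] at hE'
  rw [et]
  have s2 : √2 * √2 = 2 := Real.mul_self_sqrt (by norm_num)
  have k1 : √2 * |eY a x| ≤ eW a x := by
    have := mul_le_mul_of_nonneg_left hE'.le (Real.sqrt_nonneg 2)
    have e : √2 * (√2 / 2 * eW a x) = eW a x := by
      rw [← mul_assoc, ← mul_div_assoc, s2]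
      ring
    rw [e] at this
    exact this
  have k2 : √2 * eW a x + |eY a x| + (|eY a x| ^ 2 + eW a x ^ 2) ≤ 1 / 4 + s := by
    rw [sq_abs]
    have := sq_nonneg (eX a x)
    rcases abs_cases (eY a x) with ⟨e1, _⟩ | ⟨e1, _⟩ <;> rw [e1] <;> linarith
  have k3 := N_le (abs_nonneg _) k1 k2 (by linarith)
  rw [sq_abs] at k3
  exact k3

include ha h hcomp hpl hb hQ hS0 in
/-- **mass of a weight in a cell, lower bound by the lower wall integral** -/
theorem mass_fr {φ : ℝ → ℝ} {φn : ℕ → ℝ → ℝ} (hw : Wgt φ φn) (cφ : Continuous φ) {s c0 : ℝ}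
    (h2 : S 2 ≤ s) (h3 : S 3 ≤ s) (hs : s ≤ 3 / 20) (h0 : 0 ≤ c0) (hc : c0 * (1 + TS s) ≤ 1) :
    c0 * (√2 * JGl φ (S 0) (S 1)) ≤ ∫ z in Zp a 2 3, wF φ a z.1 ∂σ := by
  have hB := Helper21.Alp.bod ha hcomp hpl hb hQ hS0
  have hcc := (co_cd b (cen a)).continuous
  have hσ1 : ∀ᵐ z ∂σ, ‖z.1 - z.2‖ = 1 := by
    filter_upwards [h.ae] with z hz
    exact hz.2.2.1
  have hT := top_cell ha hpl hb hQ h2 h3 hs
  have hFD : Continuous (fun z : E3 × E3 => FD (co b (cen a) z.1)) :=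
    (Helper37.MEI.FD_cdn (n := 0)).continuous.comp (hcc.comp continuous_fst)
  have hg : Continuous (fun z : E3 × E3 => 1 / (4 * FD (co b (cen a) z.1))) :=
    Continuous.div continuous_const (continuous_const.mul hFD) fun z => by
      have := FD_pos (co b (cen a) z.1)
      positivity
  have hgi := int_cont h.cpt h.mem hg
  have e : ∀ (ψ : ℝ → ℝ) (z : E3 × E3), omF ψ (co b (cen a) z.1) =
      ψ (co b (cen a) z.1).1 * (1 / (4 * FD (co b (cen a) z.1))) := by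
    intro ψ z
    unfold omF
    ring
  have hlim : Tendsto (fun n => ∫ z in {z : E3 × E3 | z.1 ∈ EC b (cen a)},
      omF (φn n) (co b (cen a) z.1) ∂σ) atTop
      (𝓝 (∫ z in {z : E3 × E3 | z.1 ∈ EC b (cen a)}, omF φ (co b (cen a) z.1) ∂σ)) := by
    simp only [e]
    refine lim_w (f := fun z : E3 × E3 => (co b (cen a) z.1).1) ?_ hgi.integrableOn ?_
      (fun n => (hw.sn n).continuous) hw.hn hw.hl
    · exact (continuous_fst.comp (hcc.comp continuous_fst)).measurable.aemeasurable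
    · filter_upwards [ae_restrict_of_ae h.mem] with z hz
      exact hB.X_le _ hz.1
  have k1 := le_of_tendsto_of_tendsto'
    (((lim_JGl (fun n => (hw.sn n).continuous) hw.hn hw.hl (S 0) (S 1)).const_mul
      (√2)).const_mul c0) hlim fun n => mass_smooth h.cpt h.mem hσ1 h.flux hB (hw.sn n) (hw.hn n)
        h0 hc hT
  rw [Helper21.Alp.Zp_eq ha hb]
  refine k1.trans (le_of_eq ?_)
  apply integral_congr_ae
  filter_upwards with z
  unfold omF wF FD
  rw [co_e53 ha hb]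
  have et : √2 / 4 + eW a z.1 - t = eW a z.1 := by
    unfold Helper22.MEI.t
    ring
  show φ (eX a z.1) / (4 * (1 / 4 + eX a z.1 ^ 2 / 8 + (eY a z.1 ^ 2 +
    (√2 / 4 + eW a z.1 - t) ^ 2))) = _
  rw [et]
  rfl

end fr

/-! ### the six edges -/

section six
variable {a : Fin 4 → E3} {K : Set E3} {σ : Measure (E3 × E3)} [IsFiniteMeasure σ]

theorem dp_wF (φ : ℝ → ℝ) (a : Fin 4 → E3) (z : E3 × E3) : dp φ a z = wF φ a z.1 := by
  unfold dp wF rh
  rw [div_eq_mul_inv]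

/-- **mass of the coupling density of a cell** -/
theorem p0_low (h : PM K σ) (ha : ∀ i j, i ≠ j → dist (a i) (a j) = 1)
    (hull : ∀ p, (∀ q ∈ K, ‖p - q‖ ≤ 1) → p ∈ K) (hp : ∀ x ∈ K, Pl a x)
    {B : Fin 3 → Bool → OrthonormalBasis (Fin 3) ℝ E3}
    (hB : ∀ m e, Fr (fun i => a (pr m e i)) (B m e)) {S : Fin 4 → ℝ} (hS0 : ∀ i, 0 ≤ S i)
    (hQ : ∀ i, ∀ q ∈ K, Qv a i q ≤ S i) {φ : ℝ → ℝ} {φn : ℕ → ℝ → ℝ} (hw : Wgt φ φn)
    (cφ : Continuous φ) (m : Fin 3) (e : Bool) {s c0 : ℝ} (h2 : S (pf m e 2) ≤ s)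
    (h3 : S (pf m e 3) ≤ s) (hs : s ≤ 3 / 20) (h0 : 0 ≤ c0) (hc : c0 * (1 + TS s) ≤ 1) :
    c0 * (√2 * JGl φ (S (pf m e 0)) (S (pf m e 1))) ≤ p0 φ σ (ap a m e) := by
  have ha' := hap ha m e
  have hb : Fr (ap a m e) (B m e) := hB m e
  have hcomp : ∀ p : E3, (∀ q ∈ K, dist p q ≤ 1) → p ∈ K := fun p hpp =>
    hull p fun q hq => by rw [← dist_eq_norm]; exact hpp q hq
  have hp' : ∀ x ∈ K, Pl (ap a m e) x := fun x hx => Pl_perm _ (hp x hx)
  have k := mass_fr ha' h hcomp hp' hb (S := fun i => S (pf m e i))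
    (fun x hx i => hQ (pf m e i) x hx) (fun i => hS0 _) hw cφ h2 h3 hs h0 hc
  unfold p0
  simp only [dp_wF]
  exact k

/-! ### the profile `fd = 1 - 7/8 |x|` -/

theorem prof_fd : Prof fd where
  cont := fd_cont
  nn x hx := by
    unfold fd
    linarith
  le x _ := by
    unfold fd
    linarith

theorem dp_fd (a : Fin 4 → E3) (z : E3 × E3) : dp fd a z = Helper49.Cpl.de a z := by
  rw [dp_wF, wF_fd]

/-- the constant of the lower bound -/
theorem JGl_fd2 (s1 s2 : ℝ) : 0.08378 - 0.29 * (s1 + s2) ≤ √2 * JGl fd s1 s2 ∨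
    s1 + s2 < 0 := by
  rcases lt_or_ge (s1 + s2) 0 with hs | hs
  · exact Or.inr hs
  left
  rw [JGl_fd]
  have s2' : √2 * √2 = 2 := Real.mul_self_sqrt (by norm_num)
  have e : √2 * (2 * (√2 * (681479 / 27216000 - 7 / 8 * (517423 / 110592000)) -
      √2 / 3 * ((23 / 48 - 7 / 8 * (15 / 128)) * (0.5774 * (s1 + s2))))) =
      √2 * √2 * (2 * ((681479 / 27216000 - 7 / 8 * (517423 / 110592000)) -
      1 / 3 * ((23 / 48 - 7 / 8 * (15 / 128)) * (0.5774 * (s1 + s2))))) := by ring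
  rw [e, s2']
  norm_num
  linarith

/-- **mass of the coupling density `de`**: `c0 = 1/(1 + TS s)`, `s` = the bigger of the two
levels over the walls -/
theorem d0_low (h : PM K σ) (ha : ∀ i j, i ≠ j → dist (a i) (a j) = 1)
    (hull : ∀ p, (∀ q ∈ K, ‖p - q‖ ≤ 1) → p ∈ K) (hp : ∀ x ∈ K, Pl a x)
    {B : Fin 3 → Bool → OrthonormalBasis (Fin 3) ℝ E3}
    (hB : ∀ m e, Fr (fun i => a (pr m e i)) (B m e)) {S : Fin 4 → ℝ} (hS0 : ∀ i, 0 ≤ S i)
    (hQ : ∀ i, ∀ q ∈ K, Qv a i q ≤ S i) (m : Fin 3) (e : Bool) {s c0 : ℝ}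
    (h2 : S (pf m e 2) ≤ s) (h3 : S (pf m e 3) ≤ s) (hs : s ≤ 3 / 20) (h0 : 0 ≤ c0)
    (hc : c0 * (1 + TS s) ≤ 1) :
    c0 * (0.08378 - 0.29 * (S (pf m e 0) + S (pf m e 1))) ≤ p0 fd σ (ap a m e) := by
  have k := p0_low h ha hull hp hB hS0 hQ wgt_fd fd_cont m e h2 h3 hs h0 hc
  rcases JGl_fd2 (S (pf m e 0)) (S (pf m e 1)) with h1 | h1
  · exact (mul_le_mul_of_nonneg_left h1 h0).trans k
  · have := hS0 (pf m e 0)
    have := hS0 (pf m e 1)
    linarith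

end six

end Helper22.P0
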