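import Pool.Agent.Helper22.MEI.Third
import Pool.Agent.Helper49.MEI.Cpl3
import Pool.Agent.Helper78.MEI.TC5

/-!
# Project MEI (M2), TEAM TC: the system of arc weights of the coupled pair

`l3 φ κ a`: losses with the reduced weights `wn - κ φ/2` (helper49's coupling with profile `φ`);
admissible in the sense of `Lok`, it satisfies `TL` (helper78) with `κ = m/M`.
-/

set_option autoImplicit false

namespace Helper22.Cpd

open Set Metric MeasureTheory Helper80.CW Helper14.CW Helper14.MEI2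
open Helper93.MEI Helper37.MEI Helper41.MEI Helper78.MEI Helper49.Cpl
open Pool.Agent.Helper8.MEI (DD DD_pos)
open Pool.Agent.Helper73.MEI (PM TE pf pr)
open Pool.Agent.Helper95.MEI.Fub (Zp exc_cont eX_cont eY_cont eW_cont Qv_cont pp_cont
  DDe_cont int_cont bar_cont)
open scoped RealInnerProductSpace Real

/-- admissible profiles -/
structure Prof (φ : ℝ → ℝ) : Prop where
  cont : Continuous φ
  nn : ∀ x, |x| ≤ 1 / 2 → 0 ≤ φ x
  le : ∀ x, |x| ≤ 1 / 2 → φ x / 2 ≤ 1 / 2 - 7 * |x| / 16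

theorem prof22 : Prof ph22 where
  cont := ph22_cont
  nn := ph22_nonneg
  le x _ := by
    have h := ph22_le x
    rcases abs_cases x with ⟨e1, _⟩ | ⟨e1, _⟩ <;> rw [e1] <;> linarith [h.1, h.2]

theorem prof_abs : Prof fun x => 1 - 7 * |x| / 8 where
  cont := by fun_prop
  nn x hx := by
    show 0 ≤ 1 - 7 * |x| / 8
    linarith
  le x _ := by
    show (1 - 7 * |x| / 8) / 2 ≤ 1 / 2 - 7 * |x| / 16
    linarith

section defs
variable (φ : ℝ → ℝ)

/-- reduced numerator -/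
noncomputable def wr (κ : ℝ) (a : Fin 4 → E3) (i : Bool) (x : E3) : ℝ :=
  wn a i x - κ / 2 * φ (eX a x)

/-- reduced weight -/
noncomputable def wrt (κ : ℝ) (a : Fin 4 → E3) (i : Bool) (x : E3) : ℝ :=
  wr φ κ a i x / (4 * DD (eX a x) (eY a x) (eW a x))

/-- loss charged to the vertex `vi i` -/
noncomputable def ls3 (κ : Bool → ℝ) (a : Fin 4 → E3) (i : Bool) (z : E3 × E3) : ℝ :=
  pp (wr φ (κ i) a i z.1 * pp (Qv a (vi i) z.2) -
    wr φ (κ (!i)) a (!i) z.1 * pp (-Qv a (vo i) z.2)) /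
    (4 * DD (eX a z.1) (eY a z.1) (eW a z.1))

/-- the system -/
noncomputable def l3 (κ : Fin 3 → Bool → Bool → ℝ) (a : Fin 4 → E3) (m : Fin 3) (e i : Bool)
    (z : E3 × E3) : ℝ := ls3 φ (κ m e) (ap a m e) i z

/-- `m/M` -/
noncomputable def kp (σ : Measure (E3 × E3)) (a : Fin 4 → E3) (M : Fin 3 → ℝ) (m : Fin 3)
    (e i : Bool) : ℝ := mp φ σ a m e i / M m

end defs

section pt
variable {φ : ℝ → ℝ} {a : Fin 4 → E3}

theorem wn_abs (i : Bool) (x : E3) : 1 / 2 - 7 * |eX a x| / 16 ≤ wn a i x := by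
  have h1 := neg_abs_le (eX a x)
  have h2 := le_abs_self (eX a x)
  unfold wn
  cases i
  · simp only [Bool.false_eq_true, if_false]; linarith
  · simp only [if_true]; linarith

theorem wr_nonneg (hφ : Prof φ) (h : Gram4 (al a)) {κ : ℝ} (h1 : κ ≤ 1) (i : Bool) {x : E3}
    (hx : Pl a x) : 0 ≤ wr φ κ a i x := by
  obtain ⟨_, hX, _⟩ := pl_e h hx
  have k1 := hφ.nn _ hX
  have k2 := hφ.le _ hX
  have k3 := wn_abs (a := a) i x
  have k4 := mul_le_mul_of_nonneg_right h1 k1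
  unfold wr
  linarith

theorem wr_anti (hφ : Prof φ) (h : Gram4 (al a)) {κ κ' : ℝ} (h1 : κ ≤ κ') (i : Bool) {x : E3}
    (hx : Pl a x) : wr φ κ' a i x ≤ wr φ κ a i x := by
  obtain ⟨_, hX, _⟩ := pl_e h hx
  have k4 := mul_le_mul_of_nonneg_right h1 (hφ.nn _ hX)
  unfold wr
  linarith

theorem wr_le (hφ : Prof φ) (h : Gram4 (al a)) {κ : ℝ} (h0 : 0 ≤ κ) (i : Bool) {x : E3}
    (hx : Pl a x) : wr φ κ a i x ≤ wn a i x := by
  have := wr_anti hφ h h0 i hx
  unfold wr at this ⊢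
  linarith

theorem wrt_nonneg (hφ : Prof φ) (h : Gram4 (al a)) {κ : ℝ} (h1 : κ ≤ 1) (i : Bool) {x : E3}
    (hx : Pl a x) : 0 ≤ wrt φ κ a i x :=
  div_nonneg (wr_nonneg hφ h h1 i hx) (D4_pos _).le

theorem wrt_anti (hφ : Prof φ) (h : Gram4 (al a)) {κ κ' : ℝ} (h1 : κ ≤ κ') (i : Bool) {x : E3}
    (hx : Pl a x) : wrt φ κ' a i x ≤ wrt φ κ a i x :=
  div_le_div_of_nonneg_right (wr_anti hφ h h1 i hx) (D4_pos _).le

theorem wrt_le (hφ : Prof φ) (h : Gram4 (al a)) {κ : ℝ} (h0 : 0 ≤ κ) (i : Bool) {x : E3}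
    (hx : Pl a x) : wrt φ κ a i x ≤ wt a i x := by
  rw [wt_wn]
  exact div_le_div_of_nonneg_right (wr_le hφ h h0 i hx) (D4_pos _).le

/-- the reduced weight in the form of helper49 -/
theorem wrt_dp (φ : ℝ → ℝ) (κ : ℝ) (i : Bool) (z : E3 × E3) :
    wrt φ κ a i z.1 = wt a i z.1 - κ / 2 * dp φ a z := by
  rw [wt_wn]
  unfold wrt wr dp rh
  rw [sub_div]
  congr 1
  rw [← mul_assoc]
  exact div_eq_mul_inv _ _

theorem wr_cont (hφ : Prof φ) (κ : ℝ) (a : Fin 4 → E3) (i : Bool) : Continuous (wr φ κ a i) :=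
  (wn_cont a i).sub (continuous_const.mul (hφ.cont.comp (eX_cont a)))

theorem wrt_cont (hφ : Prof φ) (κ : ℝ) (a : Fin 4 → E3) (i : Bool) : Continuous (wrt φ κ a i) :=
  (wr_cont hφ κ a i).div (continuous_const.mul (by
    have h1 := eX_cont a
    have h2 := eY_cont a
    have h3 := eW_cont a
    unfold DD
    fun_prop)) fun _ => (D4_pos _).ne'

theorem ls3_nonneg (κ : Bool → ℝ) (i : Bool) (z : E3 × E3) : 0 ≤ ls3 φ κ a i z :=
  div_nonneg (pp_nonneg _) (D4_pos _).le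

theorem ls3_cont (hφ : Prof φ) (κ : Bool → ℝ) (a : Fin 4 → E3) (i : Bool) :
    Continuous (ls3 φ κ a i) := by
  unfold ls3
  refine Continuous.div ?_ (continuous_const.mul (DDe_cont a)) fun z => (D4_pos _).ne'
  refine pp_cont.comp ?_
  refine Continuous.sub ?_ ?_
  · exact ((wr_cont hφ _ a i).comp continuous_fst).mul
      (pp_cont.comp ((Qv_cont a (vi i)).comp continuous_snd))
  · exact ((wr_cont hφ _ a (!i)).comp continuous_fst).mul
      (pp_cont.comp ((Qv_cont a (vo i)).comp continuous_snd).neg)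

theorem ls3_le (hφ : Prof φ) (h : Gram4 (al a)) {κ : Bool → ℝ} (h1 : ∀ i, κ i ≤ 1) (i : Bool)
    {z : E3 × E3} (hz : Pl a z.1) :
    ls3 φ κ a i z ≤ wrt φ (κ i) a i z.1 * pp (Qv a (vi i) z.2) := by
  unfold wrt ls3
  rw [div_mul_eq_mul_div]
  apply div_le_div_of_nonneg_right _ (D4_pos _).le
  have h3 := pp_nonneg (Qv a (vi i) z.2)
  have h4 := mul_nonneg (wr_nonneg hφ h (h1 (!i)) (!i) hz) (pp_nonneg (-Qv a (vo i) z.2))
  have h5 := mul_nonneg (wr_nonneg hφ h (h1 i) i hz) h3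
  exact max_le (by linarith) h5

/-- **the two signed levels are at most the two losses** -/
theorem ls3_ge (κ : Bool → ℝ) (z : E3 × E3) :
    wrt φ (κ false) a false z.1 * Qv a 0 z.2 + wrt φ (κ true) a true z.1 * Qv a 1 z.2 ≤
      ls3 φ κ a false z + ls3 φ κ a true z := by
  have hD := D4_pos (a := a) z.1
  have e2 : ls3 φ κ a false z + ls3 φ κ a true z =
      (pp (wr φ (κ false) a false z.1 * pp (Qv a 0 z.2) -
          wr φ (κ true) a true z.1 * pp (-Qv a 1 z.2)) +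
        pp (wr φ (κ true) a true z.1 * pp (Qv a 1 z.2) -
          wr φ (κ false) a false z.1 * pp (-Qv a 0 z.2))) /
      (4 * DD (eX a z.1) (eY a z.1) (eW a z.1)) := by
    rw [add_div]
    rfl
  have e1 : wrt φ (κ false) a false z.1 * Qv a 0 z.2 + wrt φ (κ true) a true z.1 * Qv a 1 z.2 =
      (wr φ (κ false) a false z.1 * Qv a 0 z.2 + wr φ (κ true) a true z.1 * Qv a 1 z.2) /
      (4 * DD (eX a z.1) (eY a z.1) (eW a z.1)) := by
    unfold wrt
    rw [add_div, div_mul_eq_mul_div, div_mul_eq_mul_div]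
  rw [e1, e2]
  apply div_le_div_of_nonneg_right _ hD.le
  have p0 := pp_sub (Qv a 0 z.2)
  have p1 := pp_sub (Qv a 1 z.2)
  have q0 := le_pp (wr φ (κ false) a false z.1 * pp (Qv a 0 z.2) -
    wr φ (κ true) a true z.1 * pp (-Qv a 1 z.2))
  have q1 := le_pp (wr φ (κ true) a true z.1 * pp (Qv a 1 z.2) -
    wr φ (κ false) a false z.1 * pp (-Qv a 0 z.2))
  have e3 : wr φ (κ false) a false z.1 * Qv a 0 z.2 + wr φ (κ true) a true z.1 * Qv a 1 z.2 =
      (wr φ (κ false) a false z.1 * pp (Qv a 0 z.2) -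
        wr φ (κ true) a true z.1 * pp (-Qv a 1 z.2)) +
      (wr φ (κ true) a true z.1 * pp (Qv a 1 z.2) -
        wr φ (κ false) a false z.1 * pp (-Qv a 0 z.2)) := by
    calc wr φ (κ false) a false z.1 * Qv a 0 z.2 + wr φ (κ true) a true z.1 * Qv a 1 z.2 =
        wr φ (κ false) a false z.1 * (pp (Qv a 0 z.2) - pp (-Qv a 0 z.2)) +
        wr φ (κ true) a true z.1 * (pp (Qv a 1 z.2) - pp (-Qv a 1 z.2)) := by rw [p0, p1]
      _ = _ := by ring
  linarith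

end pt

section sys
variable {φ : ℝ → ℝ} {a : Fin 4 → E3} {K : Set E3} {σ : Measure (E3 × E3)}
  {κ : Fin 3 → Bool → Bool → ℝ}

theorem Qv_vi (a : Fin 4 → E3) (m : Fin 3) (e i : Bool) (x : E3) :
    Qv (ap a m e) (vi i) x = Qv a (vx m e i) x := by
  rw [vx_vi]
  rfl

/-- the loss is below the reduced weight times the level -/
theorem l3_le (hφ : Prof φ) (ha : ∀ i j, i ≠ j → dist (a i) (a j) = 1)
    (h1 : ∀ m e i, κ m e i ≤ 1) (m : Fin 3) (e i : Bool) {z : E3 × E3} (hz : Pl a z.1) :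
    l3 φ κ a m e i z ≤ wrt φ (κ m e i) (ap a m e) i z.1 * pp (Qv a (vx m e i) z.2) := by
  have k := ls3_le hφ (hgp ha m e) (κ := κ m e) (h1 m e) i (z := z) (Pl_perm _ hz)
  rw [Qv_vi] at k
  exact k

theorem l3_ok (hφ : Prof φ) (ha : ∀ i j, i ≠ j → dist (a i) (a j) = 1)
    (h0 : ∀ m e i, 0 ≤ κ m e i) (h1 : ∀ m e i, κ m e i ≤ 1) : Lok a (l3 φ κ a) where
  cont m e i := ls3_cont hφ _ _ i
  nn m e i z := ls3_nonneg _ i z
  le m e i z hz := (l3_le hφ ha h1 m e i hz).trans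
    (mul_le_mul_of_nonneg_right (wrt_le hφ (hgp ha m e) (h0 m e i) i (Pl_perm _ hz))
      (pp_nonneg _))

/-- **the signed levels of a cell are at most its two losses** -/
theorem gP_le [IsFiniteMeasure σ] (hφ : Prof φ) (hK : IsCompact K)
    (hσ : ∀ᵐ z ∂σ, z.1 ∈ K ∧ z.2 ∈ K) (m : Fin 3) (e : Bool) :
    gP φ σ a (κ m e false) m e false + gP φ σ a (κ m e true) m e true ≤
      sL σ a (l3 φ κ a) m e false + sL σ a (l3 φ κ a) m e true := by
  have c1 : ∀ i, Continuous fun z : E3 × E3 =>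
      (wt (ap a m e) i z.1 - κ m e i / 2 * dp φ (ap a m e) z) * Qv a (vx m e i) z.2 := fun i =>
    (((wt_cont (ap a m e) i).comp continuous_fst).sub
      (continuous_const.mul (dp_cont hφ.cont (ap a m e)))).mul
      ((Qv_cont a (vx m e i)).comp continuous_snd)
  have i1 := fun i => (int_cont hK hσ (c1 i)).integrableOn (s := EE a m e)
  have i2 := fun i => (int_cont hK hσ (ls3_cont hφ (κ m e) (ap a m e) i)).integrableOn
    (s := EE a m e)
  unfold gP sL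
  rw [← integral_add (i1 false) (i1 true)]
  have e2 : (∫ z in EE a m e, l3 φ κ a m e false z ∂σ) + ∫ z in EE a m e, l3 φ κ a m e true z ∂σ =
      ∫ z in EE a m e, (ls3 φ (κ m e) (ap a m e) false z + ls3 φ (κ m e) (ap a m e) true z) ∂σ :=
    (integral_add (i2 false) (i2 true)).symm
  rw [e2]
  refine integral_mono ((i1 false).add (i1 true)) ((i2 false).add (i2 true)) fun z => ?_
  have k := ls3_ge (φ := φ) (a := ap a m e) (κ m e) z
  rw [wrt_dp, wrt_dp] at k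
  have e3 : Qv (ap a m e) 0 z.2 = Qv a (vx m e false) z.2 := rfl
  have e4 : Qv (ap a m e) 1 z.2 = Qv a (vx m e true) z.2 := rfl
  rw [e3, e4] at k
  exact k

/-- the numbers of a pair are nonnegative -/
theorem mp_nonneg (hφ : Prof φ) (ha : ∀ i j, i ≠ j → dist (a i) (a j) = 1) [IsFiniteMeasure σ]
    (hK : IsCompact K) (hσ : ∀ᵐ z ∂σ, z.1 ∈ K ∧ z.2 ∈ K) (hp : ∀ x ∈ K, Pl a x)
    (m : Fin 3) (e i : Bool) : 0 ≤ mp φ σ a m e i := by
  have hg := hgp ha m (!e)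
  have c0 := (int_cont hK hσ (dp_cont hφ.cont (ap a m (!e)))).integrableOn
    (s := Zp (ap a m (!e)) 2 3)
  have c1' : Continuous fun z : E3 × E3 =>
      dp φ (ap a m (!e)) z * eY (ap a m (!e)) z.2 :=
    (dp_cont hφ.cont (ap a m (!e))).mul ((eY_cont (ap a m (!e))).comp continuous_snd)
  have c1 := (int_cont hK hσ c1').integrableOn (s := Zp (ap a m (!e)) 2 3)
  have k0 : ∀ᵐ z ∂(σ.restrict (Zp (ap a m (!e)) 2 3)),
      0 ≤ dp φ (ap a m (!e)) z ∧ |eY (ap a m (!e)) z.2| ≤ 1 / 2 := by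
    filter_upwards [ae_restrict_of_ae hσ] with z hz
    exact ⟨dp_nonneg hφ.nn hg (Pl_perm _ (hp _ hz.1)), (pl_e hg (Pl_perm _ (hp _ hz.2))).2.2⟩
  have k1 : 0 ≤ p0 φ σ (ap a m (!e)) / 2 + pY φ σ (ap a m (!e)) := by
    have e1 : p0 φ σ (ap a m (!e)) / 2 + pY φ σ (ap a m (!e)) =
        ∫ z in Zp (ap a m (!e)) 2 3, (dp φ (ap a m (!e)) z / 2 +
          dp φ (ap a m (!e)) z * eY (ap a m (!e)) z.2) ∂σ := by
      rw [integral_add (c0.div_const 2) c1, integral_div]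
      rfl
    rw [e1]
    apply integral_nonneg_of_ae
    filter_upwards [k0] with z hz
    have h2 := abs_le.1 hz.2
    have h3 := mul_nonneg hz.1 (by linarith : 0 ≤ 1 / 2 + eY (ap a m (!e)) z.2)
    show 0 ≤ dp φ (ap a m (!e)) z / 2 + dp φ (ap a m (!e)) z * eY (ap a m (!e)) z.2
    linarith
  have k2 : 0 ≤ p0 φ σ (ap a m (!e)) / 2 - pY φ σ (ap a m (!e)) := by
    have e1 : p0 φ σ (ap a m (!e)) / 2 - pY φ σ (ap a m (!e)) =
        ∫ z in Zp (ap a m (!e)) 2 3, (dp φ (ap a m (!e)) z / 2 -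
          dp φ (ap a m (!e)) z * eY (ap a m (!e)) z.2) ∂σ := by
      rw [integral_sub (c0.div_const 2) c1, integral_div]
      rfl
    rw [e1]
    apply integral_nonneg_of_ae
    filter_upwards [k0] with z hz
    have h2 := abs_le.1 hz.2
    have h3 := mul_nonneg hz.1 (by linarith : 0 ≤ 1 / 2 - eY (ap a m (!e)) z.2)
    show 0 ≤ dp φ (ap a m (!e)) z / 2 - dp φ (ap a m (!e)) z * eY (ap a m (!e)) z.2
    linarith
  unfold mp
  cases i
  · simp only [Bool.false_eq_true, if_false]; exact k1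
  · simp only [if_true]; linarith

theorem kp_nonneg (hφ : Prof φ) (ha : ∀ i j, i ≠ j → dist (a i) (a j) = 1) [IsFiniteMeasure σ]
    (hK : IsCompact K) (hσ : ∀ᵐ z ∂σ, z.1 ∈ K ∧ z.2 ∈ K) (hp : ∀ x ∈ K, Pl a x)
    {M : Fin 3 → ℝ} (hM : ∀ m, 0 < M m) (m : Fin 3) (e i : Bool) : 0 ≤ kp φ σ a M m e i :=
  div_nonneg (mp_nonneg hφ ha hK hσ hp m e i) (hM m).le

/-- **the excess terms lose at most the levels of the coupled system** -/
theorem TL_l3 [IsFiniteMeasure σ] (hφ : Prof φ) (hP : PM K σ)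
    (ha : ∀ i j, i ≠ j → dist (a i) (a j) = 1)
    (hd : ∀ x ∈ K, ∀ y ∈ K, ‖x - y‖ ≤ 1) (hp : ∀ x ∈ K, Pl a x)
    {B : Fin 3 → Bool → OrthonormalBasis (Fin 3) ℝ E3}
    (hB : ∀ m e, Fr (fun i => a (pr m e i)) (B m e)) {M εm : Fin 3 → ℝ} (hM : ∀ m, 0 < M m)
    (hε : ∀ m, -εm m ≤ pH φ σ (ap a m false) * pH φ σ (ap a m true) / M m) :
    TL σ a B (l3 φ (kp φ σ a M) a) (εm 0 + εm 1 + εm 2) := by
  apply TL_pairs
  intro m
  have h1 := te_pairp hφ.cont hφ.nn hP ha hd hp m (B := B m) (hB m) (hM m)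
  have h2 := gP_le (κ := kp φ σ a M) (a := a) hφ hP.cpt hP.mem m false
  have h3 := gP_le (κ := kp φ σ a M) (a := a) hφ hP.cpt hP.mem m true
  have h4 := hε m
  simp only [Fintype.sum_bool] at h1
  unfold kp at h2 h3 ⊢
  linarith

/-! ### columns and mass -/

theorem den3_le (hφ : Prof φ) (ha : ∀ i j, i ≠ j → dist (a i) (a j) = 1)
    (h1 : ∀ m e i, κ m e i ≤ 1) (m : Fin 3) (e i : Bool) {z : E3 × E3} (hz : Pl a z.1) :
    den a (l3 φ κ a) m e i z ≤ wrt φ (κ m e i) (ap a m e) i z.1 := by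
  have hw := wrt_nonneg hφ (hgp ha m e) (h1 m e i) i (Pl_perm _ hz)
  unfold den
  by_cases h0 : pp (Qv a (vx m e i) z.2) = 0
  · rw [h0, div_zero]
    exact hw
  · have h2 : 0 < pp (Qv a (vx m e i) z.2) := lt_of_le_of_ne (pp_nonneg _) (Ne.symm h0)
    rw [div_le_iff₀ h2]
    exact l3_le hφ ha h1 m e i hz

/-- mass of an arc -/
theorem sm3_le [IsFiniteMeasure σ] (hφ : Prof φ) (ha : ∀ i j, i ≠ j → dist (a i) (a j) = 1)
    (h0 : ∀ m e i, 0 ≤ κ m e i) (h1 : ∀ m e i, κ m e i ≤ 1) (hK : IsCompact K)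
    (hσ : ∀ᵐ z ∂σ, z.1 ∈ K ∧ z.2 ∈ K) (hp : ∀ x ∈ K, Pl a x) (m : Fin 3) (e i : Bool) {κ' : ℝ}
    (hκ : κ' ≤ κ m e i) :
    sm σ a (l3 φ κ a) m e i ≤ ∫ z in EE a m e, wrt φ κ' (ap a m e) i z.1 ∂σ := by
  have hl := l3_ok (κ := κ) hφ ha h0 h1
  obtain ⟨C, hC⟩ := den_bdd ha hl hK hσ hp m e i
  refine massG hK hσ (den_meas hl m e i) (den_nn hl m e i) hC (wrt_cont hφ _ _ i) ?_
  filter_upwards [ae_restrict_of_ae hσ] with z hz
  exact (den3_le hφ ha h1 m e i (hp _ hz.1)).trans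
    (wrt_anti hφ (hgp ha m e) hκ i (Pl_perm _ (hp _ hz.1)))

/-- **columns of an arc** -/
theorem sM3_le [IsFiniteMeasure σ] (hφ : Prof φ) (ha : ∀ i j, i ≠ j → dist (a i) (a j) = 1)
    (h0 : ∀ m e i, 0 ≤ κ m e i) (h1 : ∀ m e i, κ m e i ≤ 1) (hK : IsCompact K)
    (hσ : ∀ᵐ z ∂σ, z.1 ∈ K ∧ z.2 ∈ K) (hp : ∀ x ∈ K, Pl a x) (m : Fin 3) (e i : Bool) {κ' : ℝ}
    (hκ : κ' ≤ κ m e i) (k : Fin 4) :
    pp (sM σ a (l3 φ κ a) m e i k) ≤
      ∫ z in EE a m e, wrt φ κ' (ap a m e) i z.1 * pp (bar a k z.2) ∂σ := by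
  have hl := l3_ok (κ := κ) hφ ha h0 h1
  obtain ⟨C, hC⟩ := den_bdd ha hl hK hσ hp m e i
  have i1 := dens_int (σ := σ) hK hσ (den_meas hl m e i) (den_nn hl m e i) hC
    ((Helper93.MEI.bar_cont a k).comp continuous_snd)
  have i2 : Integrable (fun z : E3 × E3 =>
      wrt φ κ' (ap a m e) i z.1 * pp (bar a k z.2)) σ :=
    int_cont hK hσ (((wrt_cont hφ κ' (ap a m e) i).comp continuous_fst).mul
      (pp_cont.comp ((Helper93.MEI.bar_cont a k).comp continuous_snd)))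
  unfold pp sM
  apply max_le
  · refine integral_mono_ae i1.integrableOn i2.integrableOn ?_
    filter_upwards [ae_restrict_of_ae hσ] with z hz
    have h2 := den_nonneg hl m e i z
    have h3 := (den3_le (κ := κ) hφ ha h1 m e i (hp _ hz.1)).trans
      (wrt_anti hφ (hgp ha m e) hκ i (Pl_perm _ (hp _ hz.1)))
    have h4 := le_pp (bar a k z.2)
    have h5 := pp_nonneg (bar a k z.2)
    exact (mul_le_mul_of_nonneg_left h4 h2).trans (mul_le_mul_of_nonneg_right h3 h5)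
  · apply integral_nonneg_of_ae
    filter_upwards [ae_restrict_of_ae hσ] with z hz
    exact mul_nonneg (wrt_nonneg hφ (hgp ha m e) (hκ.trans (h1 m e i)) i
      (Pl_perm _ (hp _ hz.1))) (pp_nonneg _)

end sys

end Helper22.Cpd
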