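import Pool.Agent.Helper22.MEI.Mono
import Pool.Agent.Helper75.MEI.Sheet
import Pool.Agent.Helper47.MEI.Arith

/-!
# Project MEI, class T: assembly of the analytic inequality from the rows D, E, F
-/

namespace Helper22.MEI

open Set MeasureTheory Filter Topology
open Helper14.CW.Geo

variable {f : ℝ × ℝ → ℝ}

theorem St_eq (f : ℝ × ℝ → ℝ) : Helper75.MEI.St f = St f := rfl

theorem al_eq (f : ℝ × ℝ → ℝ) : Helper75.MEI.al f = al f := rfl

theorem Bq_eq (f : ℝ × ℝ → ℝ) (p : ℝ × ℝ) : Bq f p 0 = Helper75.MEI.B0 f p := by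
  unfold Bq Helper75.MEI.B0
  ring

theorem IB_eq (f : ℝ × ℝ → ℝ) : Helper75.MEI.IB f = IB f := by
  unfold Helper75.MEI.IB IB
  simp only [Bq_eq]

theorem Tf_eq (f : ℝ × ℝ → ℝ) : Helper75.MEI.Tf f = PF f - St f / 4 := rfl

/-- flux of `e₃ - F~` from below -/
theorem PhiG_ge (h : Adm f) : al f - 4 * (PF f - St f / 4) ≤ Phi Ga Gb Gc f := by
  have g1 : IntegrableOn (fun p => (Ga (gp f p) * p.1 + Gb (gp f p) * p.2 + Gc (gp f p)) * hd f p)
      SQ := (Phi_good Ga_cd Gb_cd Gc_cd h).int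
  have g2 : IntegrableOn (fun p => (-qz f p - t) * (NN p * hd f p)) SQ := by
    refine ((Good.cont ?_).mul (gN.mul h.ghd)).int
    exact ((qz_cont h).neg).sub continuous_const
  have g3 : IntegrableOn (fun p => (Fa (gp f p) * p.1 + Fb (gp f p) * p.2 + Fc (gp f p)) * hd f p)
      SQ := (Phi_good Fa_cd Fb_cd Fc_cd h).int
  have g4 : IntegrableOn (fun p => NN p * hd f p) SQ := (gN.mul h.ghd).int
  have g5 : IntegrableOn (fun p => 4 * ((Fa (gp f p) * p.1 + Fb (gp f p) * p.2 + Fc (gp f p)) * hd f p)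
      - NN p * hd f p) SQ := (g3.const_mul 4).sub g4
  have e0 : al f - 4 * (PF f - St f / 4) = ∫ p in SQ, ((-qz f p - t) * (NN p * hd f p)
      - (4 * ((Fa (gp f p) * p.1 + Fb (gp f p) * p.2 + Fc (gp f p)) * hd f p)
      - NN p * hd f p)) := by
    rw [integral_sub g2 g5, integral_sub (g3.const_mul 4) g4, integral_const_mul]
    unfold al PF Phi St
    ring
  rw [e0]
  unfold Phi
  refine setIntegral_mono_ae_restrict (g2.sub g5) g1 ?_
  have h0 : ∀ᵐ p ∂(volume.restrict SQ), p ∈ SQ := ae_restrict_mem SQ_meas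
  filter_upwards [h0, ae_restrict_of_ae h.hess_ae] with p hp H
  have k := FU_ge h (SQ_abs hp).1 (SQ_abs hp).2
  have hb := Bq0_nonneg h (SQ_abs hp).1 (SQ_abs hp).2
  have hz := pz_le h p
  have hN := NN_pos p
  have hc := c3_lt
  have hd0 := hd_nonneg H
  have e1 : (-qz f p - t) * (NN p * hd f p) = (1 - (pz f p + t) * NN p) * hd f p := by
    unfold qz
    field_simp
    ring
  have e2 : Ga (gp f p) * p.1 + Gb (gp f p) * p.2 + Gc (gp f p)
      = 1 - 4 * (pz f p + t) * (Fa (gp f p) * p.1 + Fb (gp f p) * p.2 + Fc (gp f p)) := by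
    have : (gp f p).2.2 = pz f p := rfl
    unfold Ga Gb Gc
    rw [this]
    ring
  rw [e1, e2]
  set A := Fa (gp f p) * p.1 + Fb (gp f p) * p.2 + Fc (gp f p) with hA
  have h4 : 0 ≤ A - NN p / 4 := by
    have : 0 ≤ 1 / 2 * Bq f p 0 * NN p := by positivity
    linarith
  have h5 : 0 ≤ 1 - (pz f p + t) := by linarith
  have h6 : 0 ≤ 4 * ((1 - (pz f p + t)) * (A - NN p / 4)) * hd f p :=
    mul_nonneg (mul_nonneg (by norm_num) (mul_nonneg h5 h4)) hd0
  nlinarith

/-- **assembly**, with the equality case -/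
theorem asm (hD : Helper75.MEI.ST_D) (hE : Helper75.MEI.ST_E) (hF : Helper75.MEI.ST_F)
    (h : Adm f) : 0 ≤ Dfun (fun p => f0 p - f p) ∧
      (Dfun (fun p => f0 p - f p) = 0 → Vt f = Vt f0 ∨ Vt (sw f) = Vt f0) := by
  obtain ⟨F1, F2, F3, F4, F5⟩ := hF
  rw [Tf_eq] at F1 F2
  rw [al_eq] at F3
  rw [St_eq] at F4
  obtain ⟨D1, D2⟩ := hD f h
  simp only [St_eq] at D2
  have E := hE f h
  simp only [St_eq, IB_eq, al_eq] at E
  have hs := h.swap
  have hz : 0 ≤ Phi Ga Gb Gc f0 := by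
    have := PhiG_ge Helper55.MEI.adm_f0
    rw [F1, F3] at this
    linarith
  have key := Pool.Agent.Helper47.MEI.arith_full (V := Vt f) (Vs := Vt (sw f)) (V0 := Vt f0)
    (V1 := Vt f1) (Ph := PF f) (Phs := PF (sw f)) (Ph0 := PF f0) (Ph1 := PF f1) (Sf := St f)
    (Ss := St (sw f)) (S0 := St f0) (S1 := St f1) (al := al f) (be := al (sw f))
    (IA := IB (sw f)) (IB := IB f) (Vt_le h) (Vt_le hs) F5 D2 (by linarith) (by linarith) F4
    (by linarith [use_a h]) (by linarith [use_a hs]) (use_b hs) (use_b h) (use_d h) (use_d hs)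
    (T_nonneg h) (T_nonneg hs) (al_loss h hz) (al_loss hs hz) (IB_nonneg hs) (IB_nonneg h)
    (by linarith [T_ge h, T_ge hs]) E
  rw [D1]
  refine ⟨by linarith [key.1], fun h0 => key.2 ?_⟩
  linarith

theorem M1A_of (hD : Helper75.MEI.ST_D) (hE : Helper75.MEI.ST_E) (hF : Helper75.MEI.ST_F) : M1A :=
  fun _ h => (asm hD hE hF h).1

end Helper22.MEI
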