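import Pool.Agent.Helper73.MEI.Reg1

/-!
# Project MEI (M2), regime II: the bulge beyond the lens `A*`, no smallness
-/

namespace Helper22.BE2

open Set MeasureTheory Filter Topology Metric
open Helper80.CW Helper22.Wedge Helper22.Sig Helper14.CW Helper14.MEI2 Helper93.MEI
open Helper22.MEI (s t)
open Pool.Agent.Helper73.MEI
open Pool.Agent.Helper95.MEI.Cst (AsE)
open Pool.Agent.Helper95.MEI.Fub (co_e)
open scoped RealInnerProductSpace

section
variable {b : OrthonormalBasis (Fin 3) ℝ E3} {c : E3} {K : Set E3} {a3 a4 : E3}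

/-- the bulge outside `A*` -/
theorem be_gen (hX : ∀ x ∈ K, |(co b c x).1| ≤ 1 / 2)
    (ha3 : co b c a3 = (0, 1 / 2, -t)) (ha4 : co b c a4 = (0, -(1 / 2), -t)) {s3 s4 S : ℝ}
    (h3 : ∀ x ∈ K, ‖x - a3‖ ^ 2 - 1 ≤ s3) (h4 : ∀ x ∈ K, ‖x - a4‖ ^ 2 - 1 ≤ s4)
    (hs3 : 0 ≤ s3) (hs4 : 0 ≤ s4) (hs3' : s3 ≤ S) (hs4' : s4 ≤ S) :
    volume.real ((K ∩ EC b c) \ Ast b c a3 a4) ≤ (0.0393 + 0.2358 * S) * (s3 + s4) := by
  have hsub : (K ∩ EC b c) \ Ast b c a3 a4 ⊆
      {x | co b c x ∈ Helper72.MEI.Bu4 s4} ∪ {x | co b c x ∈ Helper72.MEI.Bu3 s3} := by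
    rintro x ⟨⟨hxK, hxE⟩, hxA⟩
    have e3 : ‖x - a3‖ ^ 2 - 1 = Helper72.MEI.Q3 (co b c x) := by
      rw [norm_co b c x a3, ha3]
      unfold Helper72.MEI.Q3 t
      ring
    have e4 : ‖x - a4‖ ^ 2 - 1 = Helper72.MEI.Q4 (co b c x) := by
      rw [norm_co b c x a4, ha4]
      unfold Helper72.MEI.Q4 t
      ring
    have hcell : |(co b c x).2.1| < s * ((co b c x).2.2 - t) := hxE
    have hs2 : s * √2 = 1 := by
      have := s_sqrt2
      linarith
    have hsq : (0:ℝ) < √2 := Real.sqrt_pos.2 (by norm_num)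
    have hcell' : √2 * |(co b c x).2.1| < (co b c x).2.2 - t := by
      have := mul_lt_mul_of_pos_left hcell hsq
      calc √2 * |(co b c x).2.1| < √2 * (s * ((co b c x).2.2 - t)) := this
        _ = (s * √2) * ((co b c x).2.2 - t) := by ring
        _ = _ := by rw [hs2, one_mul]
    have hout : 0 < ‖x - a3‖ ^ 2 - 1 ∨ 0 < ‖x - a4‖ ^ 2 - 1 := by
      by_contra hcon
      push Not at hcon
      obtain ⟨k3, k4⟩ := hcon
      exact hxA ⟨hxE, by nlinarith [norm_nonneg (x - a3)], by nlinarith [norm_nonneg (x - a4)]⟩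
    have d3 := Helper78.MEI.d3_eq b c (p := x) ha3
    have d4 := Helper78.MEI.d4_eq b c (p := x) ha4
    rcases le_total 0 (co b c x).2.1 with hy | hy
    · left
      rw [abs_of_nonneg hy] at hcell'
      refine ⟨hX x hxK, hy, by unfold t at hcell'; linarith, ?_, by rw [← e4]; exact h4 x hxK⟩
      rw [← e4]
      rcases hout with h | h <;> linarith
    · right
      rw [abs_of_nonpos hy] at hcell'
      refine ⟨hX x hxK, hy, by unfold t at hcell'; linarith, ?_, by rw [← e3]; exact h3 x hxK⟩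
      rw [← e3]
      rcases hout with h | h <;> linarith
  have hS : 0 ≤ S := hs3.trans hs3'
  have hv : volume ((K ∩ EC b c) \ Ast b c a3 a4) ≤
      ENNReal.ofReal ((0.0393 + 0.2358 * S) * (s3 + s4)) := by
    refine (measure_mono hsub).trans ((measure_union_le _ _).trans ?_)
    rw [vol_co b c _ (Helper72.MEI.Bu4_meas s4), vol_co b c _ (Bu3_meas s3)]
    refine (add_le_add (Helper72.MEI.bulge4_gen hs4) (Helper72.MEI.bulge3_gen hs3)).trans ?_
    rw [← ENNReal.ofReal_add (by positivity) (by positivity)]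
    apply ENNReal.ofReal_le_ofReal
    have k3 : (0.0393 + 0.2358 * s3) * s3 ≤ (0.0393 + 0.2358 * S) * s3 :=
      mul_le_mul_of_nonneg_right (by linarith) hs3
    have k4 : (0.0393 + 0.2358 * s4) * s4 ≤ (0.0393 + 0.2358 * S) * s4 :=
      mul_le_mul_of_nonneg_right (by linarith) hs4
    linarith
  exact ENNReal.toReal_le_of_le_ofReal (by positivity) hv

end

/-- **BETA for all `s`** in the frame of the edge `a 0, a 1` -/
theorem be_le {a : Fin 4 → E3} {K : Set E3} {b : OrthonormalBasis (Fin 3) ℝ E3}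
    (ha : ∀ i j, i ≠ j → dist (a i) (a j) = 1) (hp : ∀ x ∈ K, Pl a x) (hb : Fr a b)
    {S : Fin 4 → ℝ} (hS0 : ∀ i, 0 ≤ S i) {M : ℝ} (hS : ∀ i, S i ≤ M)
    (hQ : ∀ x ∈ K, ∀ i, Qv a i x ≤ S i) :
    beE b (cen a) K ≤ (0.0393 + 0.2358 * M) * (S 2 + S 3) := by
  have g := gram_of_dist ha
  obtain ⟨-, -, ⟨x2, y2, w2⟩, ⟨x3, y3, w3⟩⟩ := e_vertices g
  have hc := co_e g hb.1 hb.2.1 hb.2.2
  have s2 : √2 / 4 + -(√2 / 2) = -(√2 / 4) := by ring
  have ha3 : co b (cen a) (a 2) = (0, 1 / 2, -t) := by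
    rw [hc, x2, y2, w2, s2]; rfl
  have ha4 : co b (cen a) (a 3) = (0, -(1 / 2), -t) := by
    rw [hc, x3, y3, w3, s2]
    have : (-1 / 2 : ℝ) = -(1 / 2) := by norm_num
    rw [this]; rfl
  have h1 := be_gen (K := K) (S := M) (fun x hx => by
    rw [hc]
    exact (pl_e g (hp x hx)).2.1) ha3 ha4 (fun x hx => hQ x hx 2) (fun x hx => hQ x hx 3)
    (hS0 2) (hS0 3) (hS 2) (hS 3)
  rwa [Ast_eq ha3 ha4] at h1

end Helper22.BE2
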