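import Pool.Agent.Helper22.MEI.Flux2

/-!
# Project MEI: volume, area and the first order functional
-/

namespace Helper22.MEI

open Set MeasureTheory Filter Topology

variable {f h : ℝ × ℝ → ℝ}

noncomputable def nX (p : ℝ × ℝ) : ℝ := p.1 / NN p

noncomputable def nY (p : ℝ × ℝ) : ℝ := p.2 / NN p

theorem NN_cd : ContDiff ℝ 1 NN := by
  unfold NN
  refine ContDiff.sqrt (by fun_prop) fun p => ?_
  positivity

theorem nX_cd : ContDiff ℝ 1 nX := contDiff_fst.div NN_cd NN_ne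

theorem nY_cd : ContDiff ℝ 1 nY := contDiff_snd.div NN_cd NN_ne

theorem lpN : Lp NN := Lp.loc NN_cd.locallyLipschitz

theorem lpnX : Lp nX := Lp.loc nX_cd.locallyLipschitz

theorem lpnY : Lp nY := Lp.loc nY_cd.locallyLipschitz

theorem NN_fdv (p v : ℝ × ℝ) : fderiv ℝ NN p v = p.1 / NN p * v.1 + p.2 / NN p * v.2 := by
  rw [(NN_hasFDerivAt p).fderiv]
  rfl

theorem inv_fd (p : ℝ × ℝ) : HasFDerivAt (fun q : ℝ × ℝ => (NN q)⁻¹) ((-(NN p ^ 2)⁻¹) •
      ((p.1 / NN p) • ContinuousLinearMap.fst ℝ ℝ ℝ + (p.2 / NN p) • ContinuousLinearMap.snd ℝ ℝ ℝ))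
      p := (hasDerivAt_inv (NN_ne p)).comp_hasFDerivAt p (NN_hasFDerivAt p)

theorem nX_fdv (p v : ℝ × ℝ) :
    fderiv ℝ nX p v = (1 + p.2 ^ 2) / NN p ^ 3 * v.1 + -(p.1 * p.2) / NN p ^ 3 * v.2 := by
  have hn := NN_ne p
  have h0 : HasFDerivAt (fun q : ℝ × ℝ => q.1) (ContinuousLinearMap.fst ℝ ℝ ℝ) p :=
    hasFDerivAt_fst
  have h1 := h0.mul (inv_fd p)
  have e : nX = (fun q : ℝ × ℝ => q.1) * (fun q => (NN q)⁻¹) := by
    funext q; simp [nX, div_eq_mul_inv]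
  rw [e, h1.fderiv]
  have h2 := NN_sq p
  simp only [ContinuousLinearMap.add_apply, ContinuousLinearMap.smul_apply,
    ContinuousLinearMap.coe_fst', ContinuousLinearMap.coe_snd', smul_eq_mul]
  field_simp
  rw [h2]
  ring

theorem nY_fdv (p v : ℝ × ℝ) :
    fderiv ℝ nY p v = -(p.1 * p.2) / NN p ^ 3 * v.1 + (1 + p.1 ^ 2) / NN p ^ 3 * v.2 := by
  have hn := NN_ne p
  have h0 : HasFDerivAt (fun q : ℝ × ℝ => q.2) (ContinuousLinearMap.snd ℝ ℝ ℝ) p :=
    hasFDerivAt_snd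
  have h1 := h0.mul (inv_fd p)
  have e : nY = (fun q : ℝ × ℝ => q.2) * (fun q => (NN q)⁻¹) := by
    funext q; simp [nY, div_eq_mul_inv]
  rw [e, h1.fderiv]
  have h2 := NN_sq p
  simp only [ContinuousLinearMap.add_apply, ContinuousLinearMap.smul_apply,
    ContinuousLinearMap.coe_fst', ContinuousLinearMap.coe_snd', smul_eq_mul]
  field_simp
  rw [h2]
  ring

/-- the operator of the cofactor matrix -/
noncomputable def cD (f : ℝ × ℝ → ℝ) (p : ℝ × ℝ) : ℝ := Jc (dX f) nY p + Jc nX (dY f) p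

theorem cD_eq {p : ℝ × ℝ} (H : Hess f p) : cD f p =
    (dX (dX f) p * (1 + p.1 ^ 2) + 2 * dX (dY f) p * (p.1 * p.2) + dY (dY f) p * (1 + p.2 ^ 2))
      / NN p ^ 3 := by
  have hs : fderiv ℝ (dX f) p (0, 1) = fderiv ℝ (dY f) p (1, 0) := H.symm
  unfold cD Jc
  simp only [dX, dY] at *
  rw [nX_fdv, nX_fdv, nY_fdv, nY_fdv, hs]
  ring

theorem NNd (p : ℝ × ℝ) : DifferentiableAt ℝ NN p := NN_diff p

theorem nXd (p : ℝ × ℝ) : DifferentiableAt ℝ nX p := (nX_cd.differentiable one_ne_zero) p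

theorem nYd (p : ℝ × ℝ) : DifferentiableAt ℝ nY p := (nY_cd.differentiable one_ne_zero) p

theorem bl1 {p : ℝ × ℝ} (hd0 : Differentiable ℝ f) (H : Hess f p) :
    2 * (NN p * hd f p) = f p * cD f p
      + Jc (fun q => NN q * dX f q) (dY f) p + Jc (dX f) (fun q => NN q * dY f q) p
      - Jc (fun q => f q * nX q) (dY f) p - Jc (dX f) (fun q => f q * nY q) p := by
  have hs : fderiv ℝ (dX f) p (0, 1) = fderiv ℝ (dY f) p (1, 0) := H.symm
  rw [cD_eq H]
  unfold Jc hd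
  have a1 := mul_fd (NNd p) H.dx
  have a2 := mul_fd (NNd p) H.dy
  have a3 := mul_fd (hd0 p) (nXd p)
  have a4 := mul_fd (hd0 p) (nYd p)
  simp only [dX, dY] at *
  rw [a1, a1, a2, a2, a3, a3, a4, a4]
  simp only [NN_fdv, nX_fdv, nY_fdv, hs]
  unfold nX nY
  have hn := NN_ne p
  field_simp
  ring

theorem bl2 {p : ℝ × ℝ} (hd0 : Differentiable ℝ f) (H : Hess f p) :
    f p * cD f p = -cq p (dX f p) (dY f p)
      + Jc (fun q => f q * dX f q) nY p + Jc nX (fun q => f q * dY f q) p := by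
  have hs : fderiv ℝ (dX f) p (0, 1) = fderiv ℝ (dY f) p (1, 0) := H.symm
  rw [cD_eq H]
  unfold Jc cq
  have a1 := mul_fd (hd0 p) H.dx
  have a2 := mul_fd (hd0 p) H.dy
  simp only [dX, dY] at *
  rw [a1, a1, a2, a2]
  simp only [nX_fdv, nY_fdv, hs]
  have hn := NN_ne p
  field_simp
  ring

theorem bl3 {p : ℝ × ℝ} (hd0 : Differentiable ℝ f) (H : Hess f p) :
    NN p * cD f p = 2 * f p / NN p ^ 4
      + Jc (fun q => NN q * dX f q) nY p + Jc nX (fun q => NN q * dY f q) p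
      - Jc (fun q => f q * nX q) nY p - Jc nX (fun q => f q * nY q) p := by
  have hs : fderiv ℝ (dX f) p (0, 1) = fderiv ℝ (dY f) p (1, 0) := H.symm
  rw [cD_eq H]
  unfold Jc
  have a1 := mul_fd (NNd p) H.dx
  have a2 := mul_fd (NNd p) H.dy
  have a3 := mul_fd (hd0 p) (nXd p)
  have a4 := mul_fd (hd0 p) (nYd p)
  simp only [dX, dY] at *
  rw [a1, a1, a2, a2, a3, a3, a4, a4]
  simp only [NN_fdv, nX_fdv, nY_fdv, hs]
  unfold nX nY
  have hn := NN_ne p
  have h2 := NN_sq p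
  field_simp
  linear_combination (-2 * f p) * h2

/-! ### the functionals -/

noncomputable def St (f : ℝ × ℝ → ℝ) : ℝ := ∫ p in SQ, NN p * hd f p

/-- first order functional -/
noncomputable def JJ (f : ℝ × ℝ → ℝ) : ℝ :=
  ∫ p in SQ, (-(2 * f p / NN p ^ 4) - cq p (dX f p) (dY f p))

/-- the swap maps points with a Hessian to such points -/
theorem swap_ae {P : ℝ × ℝ → Prop} (hP : ∀ᵐ p : ℝ × ℝ, P p) : ∀ᵐ p : ℝ × ℝ, P (p.2, p.1) := by
  have h : MeasurePreserving (Prod.swap : ℝ × ℝ → ℝ × ℝ) volume volume := by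
    rw [Measure.volume_eq_prod]
    exact Measure.measurePreserving_swap
  exact h.quasiMeasurePreserving.ae hP

/-- determinant of the mirror body at the swapped point -/
theorem hd_sw (hf : Adm f) {p : ℝ × ℝ} (H : Hess f p) :
    hd (sw f) (p.2, p.1) = 1 / NN p ^ 4 - cD f p + hd f p := by
  have ex : dX (sw f) = fun q => nX q - dY f (q.2, q.1) := funext (dX_sw hf.diff)
  have ey : dY (sw f) = fun q => nY q - dX f (q.2, q.1) := funext (dY_sw hf.diff)
  have hs : fderiv ℝ (dX f) p (0, 1) = fderiv ℝ (dY f) p (1, 0) := H.symm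
  -- derivative of the composition with the swap
  have key : ∀ (k : ℝ × ℝ → ℝ), DifferentiableAt ℝ k p → ∀ v : ℝ × ℝ,
      HasFDerivAt (fun q : ℝ × ℝ => k (q.2, q.1)) ((fderiv ℝ k p).comp swL) (p.2, p.1) := by
    intro k hk _
    have h1 : HasFDerivAt k (fderiv ℝ k p) (swL (p.2, p.1)) := hk.hasFDerivAt
    exact h1.comp (p.2, p.1) swL.hasFDerivAt
  have fx : ∀ v : ℝ × ℝ, fderiv ℝ (dX (sw f)) (p.2, p.1) v
      = fderiv ℝ nX (p.2, p.1) v - fderiv ℝ (dY f) p (v.2, v.1) := by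
    intro v
    have hx := ((nXd (p.2, p.1)).hasFDerivAt.sub (key (dY f) H.dy v)).fderiv
    rw [show (nX - fun q : ℝ × ℝ => dY f (q.2, q.1)) = fun q => nX q - dY f (q.2, q.1) from rfl]
      at hx
    rw [ex, hx]
    rfl
  have fy : ∀ v : ℝ × ℝ, fderiv ℝ (dY (sw f)) (p.2, p.1) v
      = fderiv ℝ nY (p.2, p.1) v - fderiv ℝ (dX f) p (v.2, v.1) := by
    intro v
    have hx := ((nYd (p.2, p.1)).hasFDerivAt.sub (key (dX f) H.dx v)).fderiv
    rw [show (nY - fun q : ℝ × ℝ => dX f (q.2, q.1)) = fun q => nY q - dX f (q.2, q.1) from rfl]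
      at hx
    rw [ey, hx]
    rfl
  rw [cD_eq H]
  have ha : hd (sw f) (p.2, p.1) = fderiv ℝ (dX (sw f)) (p.2, p.1) (1, 0)
      * fderiv ℝ (dY (sw f)) (p.2, p.1) (0, 1) - fderiv ℝ (dY (sw f)) (p.2, p.1) (1, 0)
      * fderiv ℝ (dX (sw f)) (p.2, p.1) (0, 1) := rfl
  have hb : hd f p = fderiv ℝ (dX f) p (1, 0) * fderiv ℝ (dY f) p (0, 1)
    - fderiv ℝ (dY f) p (1, 0) * fderiv ℝ (dX f) p (0, 1) := rfl
  rw [ha, hb]
  simp only [fx, fy, nX_fdv, nY_fdv, NN_swap, dX, dY, hs]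
  have hn := NN_ne p
  have h2 := NN_sq p
  field_simp
  linear_combination (-1 : ℝ) * h2

theorem good_cfd {F : ℝ × ℝ → ℝ} (hF : ContDiff ℝ 1 F) (v : ℝ × ℝ) :
    Good (fun p => fderiv ℝ F p v) :=
  Good.cont ((hF.continuous_fderiv one_ne_zero).clm_apply continuous_const)

theorem Adm.gcD (hf : Adm f) : Good (cD f) :=
  ((hf.gXX'.mul (good_cfd nY_cd _)).sub (hf.gYX'.mul (good_cfd nY_cd _))).add
    (((good_cfd nX_cd _).mul hf.gYY').sub ((good_cfd nX_cd _).mul hf.gXY'))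

theorem Lp.jcongr {a b a' b' : ℝ × ℝ → ℝ} (ha : Lp a) (hb : Lp b) (ha' : Lp a') (hb' : Lp b')
    (h1 : ∀ p ∈ CQ, |p.1| = s ∨ |p.2| = s → a p = a' p)
    (h2 : ∀ p ∈ CQ, |p.1| = s ∨ |p.2| = s → b p = b' p) :
    ∫ p in SQ, Jc a b p = ∫ p in SQ, Jc a' b' p := by
  obtain ⟨K, hK⟩ := ha
  obtain ⟨L, hL⟩ := hb
  obtain ⟨K', hK'⟩ := ha'
  obtain ⟨L', hL'⟩ := hb'
  exact jac_congr hK hL hK' hL' h1 h2

/-- boundary terms -/
noncomputable def Z1 (f : ℝ × ℝ → ℝ) : ℝ :=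
  (∫ p in SQ, Jc (fun q => NN q * dX f q) (dY f) p) + (∫ p in SQ, Jc (dX f) (fun q => NN q * dY f q) p)
    - (∫ p in SQ, Jc (fun q => f q * nX q) (dY f) p) - ∫ p in SQ, Jc (dX f) (fun q => f q * nY q) p

noncomputable def Z2 (f : ℝ × ℝ → ℝ) : ℝ :=
  (∫ p in SQ, Jc (fun q => f q * dX f q) nY p) + ∫ p in SQ, Jc nX (fun q => f q * dY f q) p

noncomputable def Z3 (f : ℝ × ℝ → ℝ) : ℝ :=
  (∫ p in SQ, Jc (fun q => NN q * dX f q) nY p) + (∫ p in SQ, Jc nX (fun q => NN q * dY f q) p)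
    - (∫ p in SQ, Jc (fun q => f q * nX q) nY p) - ∫ p in SQ, Jc nX (fun q => f q * nY q) p

theorem Z1_congr (hf : Adm f) (hh : Adm h) : Z1 f = Z1 h := by
  unfold Z1
  rw [Lp.jcongr (lpN.mul hf.lpX) hf.lpY (lpN.mul hh.lpX) hh.lpY
      (fun p hp hb => by rw [(hf.bdry hh hp hb).2.1]) (fun p hp hb => (hf.bdry hh hp hb).2.2),
    Lp.jcongr hf.lpX (lpN.mul hf.lpY) hh.lpX (lpN.mul hh.lpY)
      (fun p hp hb => (hf.bdry hh hp hb).2.1) (fun p hp hb => by rw [(hf.bdry hh hp hb).2.2]),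
    Lp.jcongr (hf.lp.mul lpnX) hf.lpY (hh.lp.mul lpnX) hh.lpY
      (fun p hp hb => by rw [(hf.bdry hh hp hb).1]) (fun p hp hb => (hf.bdry hh hp hb).2.2),
    Lp.jcongr hf.lpX (hf.lp.mul lpnY) hh.lpX (hh.lp.mul lpnY)
      (fun p hp hb => (hf.bdry hh hp hb).2.1) (fun p hp hb => by rw [(hf.bdry hh hp hb).1])]

theorem Z2_congr (hf : Adm f) (hh : Adm h) : Z2 f = Z2 h := by
  unfold Z2
  rw [Lp.jcongr (hf.lp.mul hf.lpX) lpnY (hh.lp.mul hh.lpX) lpnY
      (fun p hp hb => by rw [(hf.bdry hh hp hb).2.1, (hf.bdry hh hp hb).1]) (fun p hp hb => rfl),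
    Lp.jcongr lpnX (hf.lp.mul hf.lpY) lpnX (hh.lp.mul hh.lpY)
      (fun p hp hb => rfl) (fun p hp hb => by rw [(hf.bdry hh hp hb).2.2, (hf.bdry hh hp hb).1])]

theorem Z3_congr (hf : Adm f) (hh : Adm h) : Z3 f = Z3 h := by
  unfold Z3
  rw [Lp.jcongr (lpN.mul hf.lpX) lpnY (lpN.mul hh.lpX) lpnY
      (fun p hp hb => by rw [(hf.bdry hh hp hb).2.1]) (fun p hp hb => rfl),
    Lp.jcongr lpnX (lpN.mul hf.lpY) lpnX (lpN.mul hh.lpY)
      (fun p hp hb => rfl) (fun p hp hb => by rw [(hf.bdry hh hp hb).2.2]),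
    Lp.jcongr (hf.lp.mul lpnX) lpnY (hh.lp.mul lpnX) lpnY
      (fun p hp hb => by rw [(hf.bdry hh hp hb).1]) (fun p hp hb => rfl),
    Lp.jcongr lpnX (hf.lp.mul lpnY) lpnX (hh.lp.mul lpnY)
      (fun p hp hb => rfl) (fun p hp hb => by rw [(hf.bdry hh hp hb).1])]

theorem int1 (hf : Adm f) : 2 * (∫ p in SQ, NN p * hd f p) = (∫ p in SQ, f p * cD f p) + Z1 f := by
  have i0 : IntegrableOn (fun p => f p * cD f p) SQ := (hf.gf.mul hf.gcD).int
  have i1 := (lpN.mul hf.lpX).jint hf.lpY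
  have i2 := hf.lpX.jint (lpN.mul hf.lpY)
  have i3 := (hf.lp.mul lpnX).jint hf.lpY
  have i4 := hf.lpX.jint (hf.lp.mul lpnY)
  have e : ∫ p in SQ, 2 * (NN p * hd f p) = ∫ p in SQ, (f p * cD f p
      + Jc (fun q => NN q * dX f q) (dY f) p + Jc (dX f) (fun q => NN q * dY f q) p
      - Jc (fun q => f q * nX q) (dY f) p - Jc (dX f) (fun q => f q * nY q) p) := by
    refine setIntegral_congr_ae SQ_meas ?_
    filter_upwards [hf.hess_ae] with p H _ using bl1 hf.diff H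
  rw [integral_const_mul] at e
  have k1 : IntegrableOn (fun p => f p * cD f p + Jc (fun q => NN q * dX f q) (dY f) p) SQ :=
    i0.add i1
  have k2 : IntegrableOn (fun p => f p * cD f p + Jc (fun q => NN q * dX f q) (dY f) p
    + Jc (dX f) (fun q => NN q * dY f q) p) SQ := k1.add i2
  have k3 : IntegrableOn (fun p => f p * cD f p + Jc (fun q => NN q * dX f q) (dY f) p
    + Jc (dX f) (fun q => NN q * dY f q) p - Jc (fun q => f q * nX q) (dY f) p) SQ := k2.sub i3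
  rw [integral_sub k3 i4, integral_sub k2 i3, integral_add k1 i2, integral_add i0 i1] at e
  rw [e]
  unfold Z1
  ring

theorem cq_goodA (hf : Adm f) : Good (fun p => cq p (dX f p) (dY f p)) := by
  unfold cq
  refine Good.div (Good.cont ?_) ?_ (fun p => pow_ne_zero 3 (NN_ne p))
  · have h1 := hf.cX
    have h2 := hf.cY
    fun_prop
  · exact NN_cont.pow 3

theorem int2 (hf : Adm f) : (∫ p in SQ, f p * cD f p)
    = -(∫ p in SQ, cq p (dX f p) (dY f p)) + Z2 f := by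
  have i0 : IntegrableOn (fun p => -cq p (dX f p) (dY f p)) SQ := (cq_goodA hf).neg.int
  have i1 := (hf.lp.mul hf.lpX).jint lpnY
  have i2 := lpnX.jint (hf.lp.mul hf.lpY)
  have e : ∫ p in SQ, f p * cD f p = ∫ p in SQ, (-cq p (dX f p) (dY f p)
      + Jc (fun q => f q * dX f q) nY p + Jc nX (fun q => f q * dY f q) p) := by
    refine setIntegral_congr_ae SQ_meas ?_
    filter_upwards [hf.hess_ae] with p H _ using bl2 hf.diff H
  have k1 : IntegrableOn (fun p => -cq p (dX f p) (dY f p) + Jc (fun q => f q * dX f q) nY p) SQ :=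
    i0.add i1
  rw [integral_add k1 i2, integral_add i0 i1, integral_neg] at e
  rw [e]
  unfold Z2
  ring

theorem fN_good (hf : Adm f) : Good (fun p => 2 * f p / NN p ^ 4) := by
  refine Good.div (Good.cont ?_) (NN_cont.pow 4) (fun p => pow_ne_zero 4 (NN_ne p))
  have := hf.diff.continuous
  fun_prop

theorem int3 (hf : Adm f) : (∫ p in SQ, NN p * cD f p)
    = (∫ p in SQ, 2 * f p / NN p ^ 4) + Z3 f := by
  have i0 : IntegrableOn (fun p => 2 * f p / NN p ^ 4) SQ := (fN_good hf).int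
  have i1 := (lpN.mul hf.lpX).jint lpnY
  have i2 := lpnX.jint (lpN.mul hf.lpY)
  have i3 := (hf.lp.mul lpnX).jint lpnY
  have i4 := lpnX.jint (hf.lp.mul lpnY)
  have e : ∫ p in SQ, NN p * cD f p = ∫ p in SQ, (2 * f p / NN p ^ 4
      + Jc (fun q => NN q * dX f q) nY p + Jc nX (fun q => NN q * dY f q) p
      - Jc (fun q => f q * nX q) nY p - Jc nX (fun q => f q * nY q) p) := by
    refine setIntegral_congr_ae SQ_meas ?_
    filter_upwards [hf.hess_ae] with p H _ using bl3 hf.diff H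
  have k1 : IntegrableOn (fun p => 2 * f p / NN p ^ 4 + Jc (fun q => NN q * dX f q) nY p) SQ :=
    i0.add i1
  have k2 : IntegrableOn (fun p => 2 * f p / NN p ^ 4 + Jc (fun q => NN q * dX f q) nY p
    + Jc nX (fun q => NN q * dY f q) p) SQ := k1.add i2
  have k3 : IntegrableOn (fun p => 2 * f p / NN p ^ 4 + Jc (fun q => NN q * dX f q) nY p
    + Jc nX (fun q => NN q * dY f q) p - Jc (fun q => f q * nX q) nY p) SQ := k2.sub i3
  rw [integral_sub k3 i4, integral_sub k2 i3, integral_add k1 i2, integral_add i0 i1] at e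
  rw [e]
  unfold Z3
  ring

theorem JJ_eq (hf : Adm f) : JJ f = -(∫ p in SQ, 2 * f p / NN p ^ 4)
    - ∫ p in SQ, cq p (dX f p) (dY f p) := by
  unfold JJ
  have i0 : IntegrableOn (fun p => -(2 * f p / NN p ^ 4)) SQ := (fN_good hf).neg.int
  rw [integral_sub i0 (cq_goodA hf).int, integral_neg]

/-- constant -/
noncomputable def C0 : ℝ := ∫ p in SQ, NN p * (1 / NN p ^ 4)

theorem g4 : Good (fun p => 1 / NN p ^ 4) :=
  Good.div (Good.const 1) (NN_cont.pow 4) (fun p => pow_ne_zero 4 (NN_ne p))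

theorem gN : Good NN := Good.cont NN_cont

theorem St_sw (hf : Adm f) : St (sw f) = C0 - (∫ p in SQ, NN p * cD f p) + ∫ p in SQ, NN p * hd f p := by
  unfold St C0
  rw [← int_swap (fun p => NN p * hd (sw f) p)]
  have e : ∫ p in SQ, NN (p.2, p.1) * hd (sw f) (p.2, p.1)
      = ∫ p in SQ, (NN p * (1 / NN p ^ 4) - NN p * cD f p + NN p * hd f p) := by
    refine setIntegral_congr_ae SQ_meas ?_
    filter_upwards [hf.hess_ae] with p H _
    rw [hd_sw hf H, NN_swap]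
    ring
  rw [e]
  have i1 : IntegrableOn (fun p => NN p * (1 / NN p ^ 4)) SQ := (gN.mul g4).int
  have i2 : IntegrableOn (fun p => NN p * cD f p) SQ := (gN.mul hf.gcD).int
  have i3 : IntegrableOn (fun p => NN p * hd f p) SQ := (gN.mul hf.ghd).int
  have k1 : IntegrableOn (fun p => NN p * (1 / NN p ^ 4) - NN p * cD f p) SQ := i1.sub i2
  rw [integral_add k1 i3, integral_sub i1 i2]

/-- **Blaschke per square, area** -/
theorem St_JJ (hf : Adm f) : St f + St (sw f) = JJ f + (Z1 f + Z2 f - Z3 f + C0) := by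
  rw [St_sw hf, JJ_eq hf]
  have h1 := int1 hf
  have h2 := int2 hf
  have h3 := int3 hf
  unfold St
  linarith

theorem Vt_sw (hf : Adm f) : 3 * Vt (sw f) = (∫ p in SQ, (NN p - f p) * (1 / NN p ^ 4))
    - (∫ p in SQ, (NN p - f p) * cD f p) + ∫ p in SQ, (NN p - f p) * hd f p := by
  unfold Vt
  rw [← int_swap (fun p => sw f p * hd (sw f) p)]
  have e : ∫ p in SQ, sw f (p.2, p.1) * hd (sw f) (p.2, p.1)
      = ∫ p in SQ, ((NN p - f p) * (1 / NN p ^ 4) - (NN p - f p) * cD f p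
        + (NN p - f p) * hd f p) := by
    refine setIntegral_congr_ae SQ_meas ?_
    filter_upwards [hf.hess_ae] with p H _
    rw [hd_sw hf H]
    show (NN (p.2, p.1) - f p) * _ = _
    rw [NN_swap]
    ring
  rw [e]
  have i1 : IntegrableOn (fun p => (NN p - f p) * (1 / NN p ^ 4)) SQ := ((gN.sub hf.gf).mul g4).int
  have i2 : IntegrableOn (fun p => (NN p - f p) * cD f p) SQ := ((gN.sub hf.gf).mul hf.gcD).int
  have i3 : IntegrableOn (fun p => (NN p - f p) * hd f p) SQ := ((gN.sub hf.gf).mul hf.ghd).int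
  have k1 : IntegrableOn (fun p => (NN p - f p) * (1 / NN p ^ 4) - (NN p - f p) * cD f p) SQ :=
    i1.sub i2
  rw [integral_add k1 i3, integral_sub i1 i2]
  ring

/-- **Blaschke per square, volume** -/
theorem Vt_JJ (hf : Adm f) : 2 * (Vt f + Vt (sw f))
    = JJ f + (Z2 f + Z1 f / 3 - 2 * Z3 f / 3 + 2 * C0 / 3) := by
  have h0 := Vt_sw hf
  have h1 := int1 hf
  have h2 := int2 hf
  have h3 := int3 hf
  have h4 := JJ_eq hf
  have a1 : ∫ p in SQ, (NN p - f p) * (1 / NN p ^ 4) = C0 - (∫ p in SQ, 2 * f p / NN p ^ 4) / 2 := by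
    have e : (fun p => (NN p - f p) * (1 / NN p ^ 4))
        = fun p => NN p * (1 / NN p ^ 4) - (1 / 2) * (2 * f p / NN p ^ 4) := by
      funext p; ring
    rw [e, integral_sub (gN.mul g4).int ((fN_good hf).int.const_mul (1 / 2)), integral_const_mul]
    unfold C0
    ring
  have a2 : ∫ p in SQ, (NN p - f p) * cD f p
      = (∫ p in SQ, NN p * cD f p) - ∫ p in SQ, f p * cD f p := by
    rw [← integral_sub (gN.mul hf.gcD).int (hf.gf.mul hf.gcD).int]
    refine integral_congr_ae (Eventually.of_forall fun p => ?_)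
    simp only
    ring
  have a3 : ∫ p in SQ, (NN p - f p) * hd f p
      = (∫ p in SQ, NN p * hd f p) - ∫ p in SQ, f p * hd f p := by
    rw [← integral_sub (gN.mul hf.ghd).int (hf.gf.mul hf.ghd).int]
    refine integral_congr_ae (Eventually.of_forall fun p => ?_)
    simp only
    ring
  rw [a1, a2, a3] at h0
  have h5 : Vt f = (1 / 3) * ∫ p in SQ, f p * hd f p := rfl
  linarith

/-- differences -/
theorem blaschke (hf : Adm f) (hh : Adm h) : St f + St (sw f) - (St h + St (sw h))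
    = 2 * (Vt f + Vt (sw f)) - 2 * (Vt h + Vt (sw h)) := by
  rw [St_JJ hf, St_JJ hh, Vt_JJ hf, Vt_JJ hh, Z1_congr hf hh, Z2_congr hf hh, Z3_congr hf hh]
  ring

theorem Vt_diff (hf : Adm f) (hh : Adm h) :
    2 * (Vt f + Vt (sw f)) - 2 * (Vt h + Vt (sw h)) = JJ f - JJ h := by
  rw [Vt_JJ hf, Vt_JJ hh, Z1_congr hf hh, Z2_congr hf hh, Z3_congr hf hh]
  ring

end Helper22.MEI
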