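import Pool.Agent.Helper22.MEI.Good

/-!
# The bridge: difference of the volume integrals
-/

namespace Helper22.MEI

open Set MeasureTheory Filter Topology

theorem isOpen_mid : IsOpen {p : ℝ × ℝ | 3 * p.2 ^ 2 < 1 + p.1 ^ 2} :=
  isOpen_lt (by fun_prop) (by fun_prop)

theorem isOpen_lens : IsOpen {p : ℝ × ℝ | 1 + p.1 ^ 2 < 3 * p.2 ^ 2} :=
  isOpen_lt (by fun_prop) (by fun_prop)

theorem mid_meas : MeasurableSet {p : ℝ × ℝ | 3 * p.2 ^ 2 ≤ 1 + p.1 ^ 2} :=
  (isClosed_le (by fun_prop) (by fun_prop)).measurableSet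

/-- the vector field `c ∇ f0` -/
noncomputable def m1 (p : ℝ × ℝ) : ℝ :=
  if 3 * p.2 ^ 2 ≤ 1 + p.1 ^ 2 then c3 * p.1 * AA p.1 / NN p ^ 3
  else p.1 / NN p ^ 2 - |p.2| * p.1 / (2 * NN p ^ 3)

noncomputable def m2 (p : ℝ × ℝ) : ℝ :=
  if 3 * p.2 ^ 2 ≤ 1 + p.1 ^ 2 then c3 * p.1 ^ 2 * p.2 / (AA p.1 * NN p ^ 3)
  else p.2 / NN p ^ 2 - sg p.2 * (1 + p.2 ^ 2) / (2 * NN p ^ 3)

noncomputable def m1X (p : ℝ × ℝ) : ℝ :=
  if 3 * p.2 ^ 2 ≤ 1 + p.1 ^ 2 then
    c3 * (1 + 2 * p.1 ^ 2) / (AA p.1 * NN p ^ 3) - 3 * c3 * p.1 ^ 2 * AA p.1 / NN p ^ 5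
  else 1 / NN p ^ 2 - 2 * p.1 ^ 2 / NN p ^ 4 - |p.2| / (2 * NN p ^ 3)
    + 3 * |p.2| * p.1 ^ 2 / (2 * NN p ^ 5)

noncomputable def m2Y (p : ℝ × ℝ) : ℝ :=
  if 3 * p.2 ^ 2 ≤ 1 + p.1 ^ 2 then
    c3 * p.1 ^ 2 / (AA p.1 * NN p ^ 3) - 3 * c3 * p.1 ^ 2 * p.2 ^ 2 / (AA p.1 * NN p ^ 5)
  else 1 / NN p ^ 2 - 2 * p.2 ^ 2 / NN p ^ 4 - |p.2| / NN p ^ 3
    + 3 * |p.2| * (1 + p.2 ^ 2) / (2 * NN p ^ 5)

theorem NNpow_ne (p : ℝ × ℝ) (n : ℕ) : NN p ^ n ≠ 0 := pow_ne_zero _ (NN_ne p)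

theorem m1_cont : Continuous m1 := by
  unfold m1
  have hA : Continuous fun p : ℝ × ℝ => AA p.1 := AA_cont.comp continuous_fst
  have hN := NN_cont
  refine Continuous.if_le ?_ ?_ ?_ ?_ ?_
  · exact Continuous.div (by fun_prop) (by fun_prop) (fun p => NNpow_ne p 3)
  · exact (Continuous.div (by fun_prop) (by fun_prop) (fun p => NNpow_ne p 2)).sub
      (Continuous.div (by fun_prop) (by fun_prop)
        (fun p => mul_ne_zero two_ne_zero (NNpow_ne p 3)))
  · fun_prop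
  · fun_prop
  · intro p h
    obtain ⟨e1, e2⟩ := iface h
    rw [e1, e2]
    have hy : 1 / 2 < |p.2| := half_lt h.ge
    have hy0 : |p.2| ≠ 0 := by linarith
    have h3 : √3 * √3 = 3 := Real.mul_self_sqrt (by norm_num)
    unfold c3
    field_simp
    ring_nf
    rw [show √3 ^ 2 = 3 by rw [pow_two, h3]]
    ring

theorem m2_cont : Continuous m2 := by
  unfold m2
  have hA : Continuous fun p : ℝ × ℝ => AA p.1 := AA_cont.comp continuous_fst
  have hN := NN_cont
  have hs : Continuous fun p : ℝ × ℝ => sg p.2 := sg_cont.comp continuous_snd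
  refine Continuous.if_le ?_ ?_ ?_ ?_ ?_
  · exact Continuous.div (by fun_prop) (by fun_prop)
      (fun p => mul_ne_zero (AA_ne _) (NNpow_ne p 3))
  · exact (Continuous.div (by fun_prop) (by fun_prop) (fun p => NNpow_ne p 2)).sub
      (Continuous.div (by fun_prop) (by fun_prop)
        (fun p => mul_ne_zero two_ne_zero (NNpow_ne p 3)))
  · fun_prop
  · fun_prop
  · intro p h
    obtain ⟨e1, e2⟩ := iface h
    have hy : 1 / 2 < |p.2| := half_lt h.ge
    have hy0 : |p.2| ≠ 0 := by linarith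
    have hx : p.1 ^ 2 = 3 * |p.2| ^ 2 - 1 := by rw [sq_abs]; linarith
    have h5 : p.2 = sg p.2 * |p.2| := by
      rw [← sg_mul hy.le, ← mul_assoc, sg_sq hy.le, one_mul]
    have h3 : √3 ≠ 0 := by positivity
    rw [e1, e2, hx]
    have h6 : p.2 ^ 2 = |p.2| ^ 2 := (sq_abs _).symm
    rw [h6]
    have h7 : c3 * (3 * |p.2| ^ 2 - 1) * p.2 / (√3 * |p.2| * (2 * |p.2|) ^ 3)
        = sg p.2 * ((3 * |p.2| ^ 2 - 1) / (16 * |p.2| ^ 3)) := by
      unfold c3
      have e7 : √3 / 2 * (3 * |p.2| ^ 2 - 1) * (sg p.2 * |p.2|) / (√3 * |p.2| * (2 * |p.2|) ^ 3)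
          = sg p.2 * ((3 * |p.2| ^ 2 - 1) / (16 * |p.2| ^ 3)) := by
        field_simp
        ring
      rw [← h5] at e7
      exact e7
    have h8 : p.2 / (2 * |p.2|) ^ 2 = sg p.2 * (1 / (4 * |p.2|)) := by
      have e8 : sg p.2 * |p.2| / (2 * |p.2|) ^ 2 = sg p.2 * (1 / (4 * |p.2|)) := by
        field_simp
        ring
      rw [← h5] at e8
      exact e8
    rw [h7, h8]
    field_simp
    ring

theorem m1X_good : Good m1X := by
  unfold m1X
  have hA : Continuous fun p : ℝ × ℝ => AA p.1 := AA_cont.comp continuous_fst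
  have hN := NN_cont
  refine Good.ite mid_meas (Good.cont ?_) (Good.cont ?_)
  · refine (Continuous.div (by fun_prop) (by fun_prop)
      (fun p => mul_ne_zero (AA_ne _) (NNpow_ne p 3))).sub
      (Continuous.div (by fun_prop) (by fun_prop) (fun p => NNpow_ne p 5))
  · refine (((Continuous.div (by fun_prop) (by fun_prop) (fun p => NNpow_ne p 2)).sub
      (Continuous.div (by fun_prop) (by fun_prop) (fun p => NNpow_ne p 4))).sub
      (Continuous.div (by fun_prop) (by fun_prop)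
        (fun p => mul_ne_zero two_ne_zero (NNpow_ne p 3)))).add
      (Continuous.div (by fun_prop) (by fun_prop)
        (fun p => mul_ne_zero two_ne_zero (NNpow_ne p 5)))

theorem m2Y_good : Good m2Y := by
  unfold m2Y
  have hA : Continuous fun p : ℝ × ℝ => AA p.1 := AA_cont.comp continuous_fst
  have hN := NN_cont
  refine Good.ite mid_meas (Good.cont ?_) (Good.cont ?_)
  · refine (Continuous.div (by fun_prop) (by fun_prop)
      (fun p => mul_ne_zero (AA_ne _) (NNpow_ne p 3))).sub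
      (Continuous.div (by fun_prop) (by fun_prop)
        (fun p => mul_ne_zero (AA_ne _) (NNpow_ne p 5)))
  · refine (((Continuous.div (by fun_prop) (by fun_prop) (fun p => NNpow_ne p 2)).sub
      (Continuous.div (by fun_prop) (by fun_prop) (fun p => NNpow_ne p 4))).sub
      (Continuous.div (by fun_prop) (by fun_prop) (fun p => NNpow_ne p 3))).add
      (Continuous.div (by fun_prop) (by fun_prop)
        (fun p => mul_ne_zero two_ne_zero (NNpow_ne p 5)))

theorem NN_lineX (x y : ℝ) : HasDerivAt (fun z => NN (z, y)) (x / NN (x, y)) x := by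
  have := line_X NN_diff x y
  rwa [dX_NN] at this

theorem NN_lineY (x y : ℝ) : HasDerivAt (fun z => NN (x, z)) (y / NN (x, y)) y := by
  have := line_Y NN_diff x y
  rwa [dY_NN] at this

theorem m1_line {x y : ℝ} (h : 3 * y ^ 2 ≠ 1 + x ^ 2) :
    HasDerivAt (fun z => m1 (z, y)) (m1X (x, y)) x := by
  have hN := NN_lineX x y
  have hn := NN_ne (x, y)
  have hx := hasDerivAt_id x
  rcases lt_or_gt_of_ne h with h | h
  · have e : (fun z => m1 (z, y)) =ᶠ[𝓝 x] fun z => c3 * z * AA z / NN (z, y) ^ 3 := by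
      have ho : IsOpen {z : ℝ | 3 * y ^ 2 < 1 + z ^ 2} := isOpen_lt (by fun_prop) (by fun_prop)
      filter_upwards [ho.mem_nhds h] with z hz
      unfold m1
      rw [if_pos (le_of_lt hz)]
    refine HasDerivAt.congr_of_eventuallyEq ?_ e
    have hA := AA_hasDerivAt x
    have ha := AA_ne x
    have hd := ((hx.const_mul c3).mul hA).div (hN.pow 3) (NNpow_ne (x, y) 3)
    refine hd.congr_deriv ?_
    unfold m1X
    rw [if_pos (show 3 * (x, y).2 ^ 2 ≤ 1 + (x, y).1 ^ 2 from h.le)]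
    simp only [id, Nat.cast_ofNat, Pi.pow_apply, Pi.mul_apply]
    have hA2 := AA_sq x
    field_simp
    linear_combination (c3 * NN (x, y) ^ 4) * hA2
  · have e : (fun z => m1 (z, y)) =ᶠ[𝓝 x]
        fun z => z / NN (z, y) ^ 2 - |y| * z / (2 * NN (z, y) ^ 3) := by
      have ho : IsOpen {z : ℝ | 1 + z ^ 2 < 3 * y ^ 2} := isOpen_lt (by fun_prop) (by fun_prop)
      filter_upwards [ho.mem_nhds h] with z hz
      unfold m1
      rw [if_neg (not_le.2 hz)]
    refine HasDerivAt.congr_of_eventuallyEq ?_ e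
    have hd := (hx.div (hN.pow 2) (NNpow_ne (x, y) 2)).sub
      ((hx.const_mul |y|).div ((hN.pow 3).const_mul 2)
        (mul_ne_zero two_ne_zero (NNpow_ne (x, y) 3)))
    refine hd.congr_deriv ?_
    unfold m1X
    rw [if_neg (not_le.2 (show 1 + (x, y).1 ^ 2 < 3 * (x, y).2 ^ 2 from h))]
    simp only [id, Nat.cast_ofNat, Pi.pow_apply, Pi.mul_apply]
    field_simp
    ring

theorem sg_line {y : ℝ} (h : 1 / 2 < |y|) : HasDerivAt sg 0 y := by
  rcases lt_abs.1 h with h1 | h1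
  · have e : sg =ᶠ[𝓝 y] fun _ => (1 : ℝ) := by
      filter_upwards [isOpen_Ioi.mem_nhds h1] with z hz
      exact sg_pos (le_of_lt hz)
    exact (hasDerivAt_const y (1 : ℝ)).congr_of_eventuallyEq e
  · have e : sg =ᶠ[𝓝 y] fun _ => (-1 : ℝ) := by
      filter_upwards [isOpen_Iio.mem_nhds (show y < -(1 / 2) by linarith)] with z hz
      exact sg_neg (le_of_lt hz)
    exact (hasDerivAt_const y (-1 : ℝ)).congr_of_eventuallyEq e

theorem m2_line {x y : ℝ} (h : 3 * y ^ 2 ≠ 1 + x ^ 2) :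
    HasDerivAt (fun z => m2 (x, z)) (m2Y (x, y)) y := by
  have hN := NN_lineY x y
  have hn := NN_ne (x, y)
  have hy := hasDerivAt_id y
  rcases lt_or_gt_of_ne h with h | h
  · have e : (fun z => m2 (x, z)) =ᶠ[𝓝 y]
        fun z => c3 * x ^ 2 * z / (AA x * NN (x, z) ^ 3) := by
      have ho : IsOpen {z : ℝ | 3 * z ^ 2 < 1 + x ^ 2} := isOpen_lt (by fun_prop) (by fun_prop)
      filter_upwards [ho.mem_nhds h] with z hz
      unfold m2
      rw [if_pos (le_of_lt hz)]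
    refine HasDerivAt.congr_of_eventuallyEq ?_ e
    have ha := AA_ne x
    have hd := (hy.const_mul (c3 * x ^ 2)).div ((hN.pow 3).const_mul (AA x))
      (mul_ne_zero ha (NNpow_ne (x, y) 3))
    refine hd.congr_deriv ?_
    unfold m2Y
    rw [if_pos (show 3 * (x, y).2 ^ 2 ≤ 1 + (x, y).1 ^ 2 from h.le)]
    simp only [id, Nat.cast_ofNat, Pi.pow_apply, Pi.mul_apply]
    field_simp
    ring
  · have hyh : 1 / 2 < |y| := half_lt (p := (x, y)) h.le
    have e : (fun z => m2 (x, z)) =ᶠ[𝓝 y]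
        fun z => z / NN (x, z) ^ 2 - sg z * (1 + z ^ 2) / (2 * NN (x, z) ^ 3) := by
      have ho : IsOpen {z : ℝ | 1 + x ^ 2 < 3 * z ^ 2} := isOpen_lt (by fun_prop) (by fun_prop)
      filter_upwards [ho.mem_nhds h] with z hz
      unfold m2
      rw [if_neg (not_le.2 hz)]
    refine HasDerivAt.congr_of_eventuallyEq ?_ e
    have hq : HasDerivAt (fun z : ℝ => 1 + z ^ 2) (2 * y) y := by
      have := (hasDerivAt_pow 2 y).const_add 1
      simpa using this
    have hd := (hy.div (hN.pow 2) (NNpow_ne (x, y) 2)).sub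
      (((sg_line hyh).mul hq).div ((hN.pow 3).const_mul 2)
        (mul_ne_zero two_ne_zero (NNpow_ne (x, y) 3)))
    refine hd.congr_deriv ?_
    unfold m2Y
    rw [if_neg (not_le.2 (show 1 + (x, y).1 ^ 2 < 3 * (x, y).2 ^ 2 from h))]
    simp only [id, Nat.cast_ofNat, Pi.pow_apply, Pi.mul_apply, ← sg_mul hyh.le]
    field_simp
    ring

theorem hV {P N F m : ℝ → ℝ} {x u a m' : ℝ} (hP : HasDerivAt P u x)
    (hN : HasDerivAt N (x / N x) x) (hF : HasDerivAt F a x) (hm : HasDerivAt m m' x)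
    (h0 : N x ≠ 0) :
    HasDerivAt (fun z => P z ^ 2 * z / N z ^ 3 + 2 * P z * m z - 2 * F z * P z * z / N z ^ 3)
      ((2 * P x * u * x + P x ^ 2) / N x ^ 3 - 3 * P x ^ 2 * x ^ 2 / N x ^ 5 + 2 * u * m x
        + 2 * P x * m' - (2 * a * P x * x + 2 * F x * u * x + 2 * F x * P x) / N x ^ 3
        + 6 * F x * P x * x ^ 2 / N x ^ 5) x := by
  have hx := hasDerivAt_id x
  have hd := ((((hP.pow 2).mul hx).div (hN.pow 3) (pow_ne_zero 3 h0)).add
    ((hP.const_mul 2).mul hm)).sub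
    ((((hF.const_mul 2).mul hP).mul hx).div (hN.pow 3) (pow_ne_zero 3 h0))
  refine hd.congr_deriv ?_
  simp only [id, Nat.cast_ofNat, Pi.pow_apply, Pi.mul_apply]
  field_simp
  ring

end Helper22.MEI
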