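import Pool.Agent.Helper22.MEI.Bridge

namespace Helper22.MEI

open Set MeasureTheory Filter Topology

section
variable (f : ℝ × ℝ → ℝ)

/-- `P = f0 - f` -/
noncomputable def PP (p : ℝ × ℝ) : ℝ := f0 p - f p

noncomputable def V1 (p : ℝ × ℝ) : ℝ :=
  PP f p ^ 2 * p.1 / NN p ^ 3 + 2 * PP f p * m1 p - 2 * f0 p * PP f p * p.1 / NN p ^ 3

noncomputable def V2 (p : ℝ × ℝ) : ℝ :=
  PP f p ^ 2 * p.2 / NN p ^ 3 + 2 * PP f p * m2 p - 2 * f0 p * PP f p * p.2 / NN p ^ 3

noncomputable def D1 (p : ℝ × ℝ) : ℝ :=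
  (2 * PP f p * dX (PP f) p * p.1 + PP f p ^ 2) / NN p ^ 3
    - 3 * PP f p ^ 2 * p.1 ^ 2 / NN p ^ 5 + 2 * dX (PP f) p * m1 p
        + 2 * PP f p * m1X p
        - (2 * g0X p * PP f p * p.1 + 2 * f0 p * dX (PP f) p * p.1 + 2 * f0 p * PP f p) / NN p ^ 3
        + 6 * f0 p * PP f p * p.1 ^ 2 / NN p ^ 5

noncomputable def D2 (p : ℝ × ℝ) : ℝ :=
  (2 * PP f p * dY (PP f) p * p.2 + PP f p ^ 2) / NN p ^ 3
    - 3 * PP f p ^ 2 * p.2 ^ 2 / NN p ^ 5 + 2 * dY (PP f) p * m2 p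
        + 2 * PP f p * m2Y p
        - (2 * g0Y p * PP f p * p.2 + 2 * f0 p * dY (PP f) p * p.2 + 2 * f0 p * PP f p) / NN p ^ 3
        + 6 * f0 p * PP f p * p.2 ^ 2 / NN p ^ 5

variable {f}

theorem PP_diff (h : Adm f) : Differentiable ℝ (PP f) := f0_diff.sub h.diff

theorem dX_PP (h : Adm f) (p : ℝ × ℝ) : dX (PP f) p = g0X p - dX f p := by
  have := (f0_diff p).hasFDerivAt.sub (h.diff p).hasFDerivAt
  unfold dX
  rw [show PP f = f0 - f from rfl, this.fderiv, ContinuousLinearMap.sub_apply]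
  have := dX_f0 p
  unfold dX at this
  rw [this]

theorem dY_PP (h : Adm f) (p : ℝ × ℝ) : dY (PP f) p = g0Y p - dY f p := by
  have := (f0_diff p).hasFDerivAt.sub (h.diff p).hasFDerivAt
  unfold dY
  rw [show PP f = f0 - f from rfl, this.fderiv, ContinuousLinearMap.sub_apply]
  have := dY_f0 p
  unfold dY at this
  rw [this]

theorem PP_cont (h : Adm f) : Continuous (PP f) := (PP_diff h).continuous

theorem PX_good (h : Adm f) : Good (dX (PP f)) := by
  have := (Good.cont g0X_cont).sub h.gX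
  have e : dX (PP f) = fun p => g0X p - dX f p := funext (dX_PP h)
  rw [e]; exact this

theorem PY_good (h : Adm f) : Good (dY (PP f)) := by
  have := (Good.cont g0Y_cont).sub h.gY
  have e : dY (PP f) = fun p => g0Y p - dY f p := funext (dY_PP h)
  rw [e]; exact this

theorem D1_good (h : Adm f) : Good (D1 f) := by
  have hP := PP_cont h
  have hPx := PX_good h
  have hN := NN_cont
  have h0 := f0_cont
  have hg := g0X_cont
  have hm := m1_cont
  have hmx := m1X_good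
  have a1 : Good fun p : ℝ × ℝ => (2 * PP f p * dX (PP f) p * p.1 + PP f p ^ 2) / NN p ^ 3 := by
    refine Good.div (Good.add (Good.mul (Good.mul (Good.cont ?_) hPx) (Good.cont ?_))
      (Good.cont ?_)) (by fun_prop) (fun p => NNpow_ne p 3) <;> fun_prop
  have a2 : Good fun p : ℝ × ℝ => 3 * PP f p ^ 2 * p.1 ^ 2 / NN p ^ 5 :=
    Good.cont (Continuous.div (by fun_prop) (by fun_prop) (fun p => NNpow_ne p 5))
  have a3 : Good fun p : ℝ × ℝ => 2 * dX (PP f) p * m1 p :=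
    ((Good.const 2).mul hPx).mul (Good.cont hm)
  have a4 : Good fun p : ℝ × ℝ => 2 * PP f p * m1X p :=
    ((Good.const 2).mul (Good.cont hP)).mul hmx
  have a5 : Good fun p : ℝ × ℝ => (2 * g0X p * PP f p * p.1 + 2 * f0 p * dX (PP f) p * p.1
      + 2 * f0 p * PP f p) / NN p ^ 3 := by
    refine Good.div (Good.add (Good.add (Good.cont ?_) (Good.mul (Good.mul (Good.cont ?_) hPx)
      (Good.cont ?_))) (Good.cont ?_)) (by fun_prop) (fun p => NNpow_ne p 3) <;> fun_prop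
  have a6 : Good fun p : ℝ × ℝ => 6 * f0 p * PP f p * p.1 ^ 2 / NN p ^ 5 :=
    Good.cont (Continuous.div (by fun_prop) (by fun_prop) (fun p => NNpow_ne p 5))
  exact ((((a1.sub a2).add a3).add a4).sub a5).add a6

theorem D2_good (h : Adm f) : Good (D2 f) := by
  have hP := PP_cont h
  have hPx := PY_good h
  have hN := NN_cont
  have h0 := f0_cont
  have hg := g0Y_cont
  have hm := m2_cont
  have hmx := m2Y_good
  have a1 : Good fun p : ℝ × ℝ => (2 * PP f p * dY (PP f) p * p.2 + PP f p ^ 2) / NN p ^ 3 := by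
    refine Good.div (Good.add (Good.mul (Good.mul (Good.cont ?_) hPx) (Good.cont ?_))
      (Good.cont ?_)) (by fun_prop) (fun p => NNpow_ne p 3) <;> fun_prop
  have a2 : Good fun p : ℝ × ℝ => 3 * PP f p ^ 2 * p.2 ^ 2 / NN p ^ 5 :=
    Good.cont (Continuous.div (by fun_prop) (by fun_prop) (fun p => NNpow_ne p 5))
  have a3 : Good fun p : ℝ × ℝ => 2 * dY (PP f) p * m2 p :=
    ((Good.const 2).mul hPx).mul (Good.cont hm)
  have a4 : Good fun p : ℝ × ℝ => 2 * PP f p * m2Y p :=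
    ((Good.const 2).mul (Good.cont hP)).mul hmx
  have a5 : Good fun p : ℝ × ℝ => (2 * g0Y p * PP f p * p.2 + 2 * f0 p * dY (PP f) p * p.2
      + 2 * f0 p * PP f p) / NN p ^ 3 := by
    refine Good.div (Good.add (Good.add (Good.cont ?_) (Good.mul (Good.mul (Good.cont ?_) hPx)
      (Good.cont ?_))) (Good.cont ?_)) (by fun_prop) (fun p => NNpow_ne p 3) <;> fun_prop
  have a6 : Good fun p : ℝ × ℝ => 6 * f0 p * PP f p * p.2 ^ 2 / NN p ^ 5 :=
    Good.cont (Continuous.div (by fun_prop) (by fun_prop) (fun p => NNpow_ne p 5))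
  exact ((((a1.sub a2).add a3).add a4).sub a5).add a6

/-- the boundary values of `f0` -/
theorem f0_bX {p : ℝ × ℝ} (h : |p.1| = s) (h2 : |p.2| ≤ s) : f0 p = s / 2 + t := by
  have hx : p.1 ^ 2 = 1 / 2 := by rw [← sq_abs, h, s_sq]
  have hy : p.2 ^ 2 ≤ 1 / 2 := by
    rw [← sq_abs, ← s_sq]; exact pow_le_pow_left₀ (abs_nonneg _) h2 2
  unfold f0
  rw [if_pos (by rw [hx]; linarith)]
  have hA : AA p.1 = √3 * s := by
    unfold AA
    rw [hx, show (1 : ℝ) + 1 / 2 = 3 * s ^ 2 by rw [s_sq]; norm_num,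
      Real.sqrt_mul (by norm_num), Real.sqrt_sq s_pos.le]
  rw [hA]
  have h3 : √3 * √3 = 3 := Real.mul_self_sqrt (by norm_num)
  have e := s_eq
  unfold c3
  linear_combination (s / 2) * h3 + e

theorem f0_bY {p : ℝ × ℝ} (h : |p.2| = s) (h2 : |p.1| ≤ s) : f0 p = NN p - (s / 2 + t) := by
  have hx : p.2 ^ 2 = 1 / 2 := by rw [← sq_abs, h, s_sq]
  have hy : p.1 ^ 2 ≤ 1 / 2 := by
    rw [← sq_abs, ← s_sq]; exact pow_le_pow_left₀ (abs_nonneg _) h2 2
  unfold f0
  split_ifs with hc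
  · have he : 3 * p.2 ^ 2 = 1 + p.1 ^ 2 := by
      rw [hx] at hc ⊢; linarith
    rw [iface_val he, h]; ring
  · rw [h]; ring

theorem PP_bX (h : Adm f) {p : ℝ × ℝ} (h1 : |p.1| = s) (h2 : |p.2| ≤ s) : PP f p = 0 := by
  unfold PP; rw [f0_bX h1 h2, h.bX p h1 h2]; ring

theorem PP_bY (h : Adm f) {p : ℝ × ℝ} (h1 : |p.2| = s) (h2 : |p.1| ≤ s) : PP f p = 0 := by
  unfold PP; rw [f0_bY h1 h2, h.bY p h1 h2]; ring

theorem V1_cont (h : Adm f) : Continuous (V1 f) := by
  have hP := PP_cont h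
  have hN := NN_cont
  have h0 := f0_cont
  have hm := m1_cont
  unfold V1
  exact ((Continuous.div (by fun_prop) (by fun_prop) (fun p => NNpow_ne p 3)).add
    (by fun_prop)).sub (Continuous.div (by fun_prop) (by fun_prop) (fun p => NNpow_ne p 3))

theorem V2_cont (h : Adm f) : Continuous (V2 f) := by
  have hP := PP_cont h
  have hN := NN_cont
  have h0 := f0_cont
  have hm := m2_cont
  unfold V2
  exact ((Continuous.div (by fun_prop) (by fun_prop) (fun p => NNpow_ne p 3)).add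
    (by fun_prop)).sub (Continuous.div (by fun_prop) (by fun_prop) (fun p => NNpow_ne p 3))

theorem sq_countable (a : ℝ) : {z : ℝ | z ^ 2 = a}.Countable := by
  refine (Set.Finite.subset (Set.toFinite {√a, -√a}) ?_).countable
  intro z hz
  have hz' : z ^ 2 = a := hz
  have : √a = |z| := by rw [← hz', Real.sqrt_sq_eq_abs]
  rcases abs_choice z with h | h
  · left; rw [this, h]
  · right
    rw [mem_singleton_iff, this, h, neg_neg]

theorem V1_zero (h : Adm f) {y : ℝ} (hy : |y| ≤ s) : ∫ x in (-s)..s, D1 f (x, y) = 0 := by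
  have hs := s_pos
  have hc : {x : ℝ | 3 * y ^ 2 = 1 + x ^ 2}.Countable := by
    refine (sq_countable (3 * y ^ 2 - 1)).mono ?_
    intro x hx
    have hx' : 3 * y ^ 2 = 1 + x ^ 2 := hx
    show x ^ 2 = 3 * y ^ 2 - 1
    linarith
  have hF := integral_eq_of_hasDerivAt_off_countable_of_le (fun x => V1 f (x, y))
    (fun x => D1 f (x, y)) (a := -s) (b := s) (by linarith) hc
    (((V1_cont h).comp (continuous_id.prodMk continuous_const)).continuousOn) ?_
    ((D1_good h).lineX hy)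
  · rw [hF]
    have e1 : PP f (s, y) = 0 := PP_bX h (abs_of_pos hs) hy
    have e2 : PP f (-s, y) = 0 := PP_bX h (by rw [abs_neg]; exact abs_of_pos hs) hy
    unfold V1
    rw [e1, e2]
    simp
  · intro x hx
    have hne : 3 * y ^ 2 ≠ 1 + x ^ 2 := hx.2
    have hf0 : HasDerivAt (fun z => f0 (z, y)) (g0X (x, y)) x := by
      have := line_X f0_diff x y
      rwa [dX_f0] at this
    exact hV (line_X (PP_diff h) x y) (NN_lineX x y) hf0 (m1_line hne) (NN_ne (x, y))

theorem V2_zero (h : Adm f) {x : ℝ} (hx : |x| ≤ s) : ∫ y in (-s)..s, D2 f (x, y) = 0 := by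
  have hs := s_pos
  have hc : {y : ℝ | 3 * y ^ 2 = 1 + x ^ 2}.Countable := by
    refine (sq_countable ((1 + x ^ 2) / 3)).mono ?_
    intro y hy
    have hy' : 3 * y ^ 2 = 1 + x ^ 2 := hy
    show y ^ 2 = (1 + x ^ 2) / 3
    linarith
  have hF := integral_eq_of_hasDerivAt_off_countable_of_le (fun y => V2 f (x, y))
    (fun y => D2 f (x, y)) (a := -s) (b := s) (by linarith) hc
    (((V2_cont h).comp (continuous_const.prodMk continuous_id)).continuousOn) ?_
    ((D2_good h).lineY hx)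
  · rw [hF]
    have e1 : PP f (x, s) = 0 := PP_bY h (abs_of_pos hs) hx
    have e2 : PP f (x, -s) = 0 := PP_bY h (by rw [abs_neg]; exact abs_of_pos hs) hx
    unfold V2
    rw [e1, e2]
    simp
  · intro y hy
    have hne : 3 * y ^ 2 ≠ 1 + x ^ 2 := hy.2
    have hf0 : HasDerivAt (fun z => f0 (x, z)) (g0Y (x, y)) y := by
      have := line_Y f0_diff x y
      rwa [dY_f0] at this
    exact hV (line_Y (PP_diff h) x y) (NN_lineY x y) hf0 (m2_line hne) (NN_ne (x, y))

theorem D1_int (h : Adm f) : ∫ p in SQ, D1 f p = 0 := by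
  have hI := (D1_good h).int
  have hs := s_pos
  unfold SQ at hI ⊢
  have e := setIntegral_prod_swap (μ := (volume : Measure ℝ)) (ν := (volume : Measure ℝ))
    (Ioo (-s) s) (Ioo (-s) s) (D1 f)
  rw [Measure.volume_eq_prod]
  rw [← e]
  rw [setIntegral_prod _ (by
    rw [Measure.volume_eq_prod] at hI
    exact hI.swap)]
  have : ∀ y ∈ Ioo (-s) s, ∫ x in Ioo (-s) s, D1 f (Prod.swap (y, x)) = 0 := by
    intro y hy
    have h0 := V1_zero h (y := y) (abs_le.2 ⟨hy.1.le, hy.2.le⟩)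
    rw [intervalIntegral.integral_of_le (by linarith), integral_Ioc_eq_integral_Ioo] at h0
    exact h0
  rw [setIntegral_congr_fun measurableSet_Ioo this]
  simp

theorem D2_int (h : Adm f) : ∫ p in SQ, D2 f p = 0 := by
  have hI := (D2_good h).int
  have hs := s_pos
  unfold SQ at hI ⊢
  rw [Measure.volume_eq_prod] at hI ⊢
  rw [setIntegral_prod _ hI]
  have : ∀ x ∈ Ioo (-s) s, ∫ y in Ioo (-s) s, D2 f (x, y) = 0 := by
    intro x hx
    have h0 := V2_zero h (x := x) (abs_le.2 ⟨hx.1.le, hx.2.le⟩)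
    rw [intervalIntegral.integral_of_le (by linarith), integral_Ioc_eq_integral_Ioo] at h0
    exact h0
  rw [setIntegral_congr_fun measurableSet_Ioo this]
  simp

end

/-- the pointwise identity -/
theorem alg (X Y N F a b P u v m1' m2' : ℝ) (hN : N ≠ 0) (hN2 : N ^ 2 = 1 + X ^ 2 + Y ^ 2) :
    (3 * (F - P) ^ 2 / N ^ 2 - (a - u) ^ 2 - (b - v) ^ 2
      - ((F - P) - X * (a - u) - Y * (b - v)) ^ 2 - 2 * (F - P) / N + 1) / N ^ 3
    - (3 * F ^ 2 / N ^ 2 - a ^ 2 - b ^ 2 - (F - X * a - Y * b) ^ 2 - 2 * F / N + 1) / N ^ 3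
    = ((2 / N ^ 4 - 2 * (m1' + m2')) * P
        - ((1 + X ^ 2) * u ^ 2 + 2 * X * Y * u * v + (1 + Y ^ 2) * v ^ 2) / N ^ 3)
      + ((2 * P * u * X + P ^ 2) / N ^ 3 - 3 * P ^ 2 * X ^ 2 / N ^ 5
        + 2 * u * (((1 + X ^ 2) * a + X * Y * b) / N ^ 3) + 2 * P * m1'
        - (2 * a * P * X + 2 * F * u * X + 2 * F * P) / N ^ 3 + 6 * F * P * X ^ 2 / N ^ 5)
      + ((2 * P * v * Y + P ^ 2) / N ^ 3 - 3 * P ^ 2 * Y ^ 2 / N ^ 5
        + 2 * v * ((X * Y * a + (1 + Y ^ 2) * b) / N ^ 3) + 2 * P * m2'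
        - (2 * b * P * Y + 2 * F * v * Y + 2 * F * P) / N ^ 3 + 6 * F * P * Y ^ 2 / N ^ 5) := by
  field_simp
  linear_combination (-3 * P ^ 2 + 6 * F * P) * hN2

end Helper22.MEI
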