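import Pool.Agent.Helper22.MEI.Bridge2

namespace Helper22.MEI

open Set MeasureTheory Filter Topology

theorem m1_eq (p : ℝ × ℝ) :
    m1 p = ((1 + p.1 ^ 2) * g0X p + p.1 * p.2 * g0Y p) / NN p ^ 3 := by
  have hn := NN_ne p
  have hA := AA_ne p.1
  have hA2 := AA_sq p.1
  have hN2 := NN_sq p
  unfold m1 g0X g0Y
  split_ifs with h
  · rw [← hA2]
    field_simp
    ring
  · have hy := half_lt (not_le.1 h).le
    rw [← sg_mul hy.le]
    field_simp
    linear_combination (2 * p.1) * hN2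

theorem m2_eq (p : ℝ × ℝ) :
    m2 p = (p.1 * p.2 * g0X p + (1 + p.2 ^ 2) * g0Y p) / NN p ^ 3 := by
  have hn := NN_ne p
  have hA := AA_ne p.1
  have hA2 := AA_sq p.1
  have hN2 := NN_sq p
  unfold m2 g0X g0Y
  split_ifs with h
  · field_simp
    ring
  · field_simp
    linear_combination (2 * p.2) * hN2

theorem W_eq (p : ℝ × ℝ) : W p = 2 / NN p ^ 4 - 2 * (m1X p + m2Y p) := by
  have hn := NN_ne p
  have hA := AA_ne p.1
  have hA2 := AA_sq p.1
  have hN2 := NN_sq p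
  unfold W m1X m2Y
  split_ifs with h
  · field_simp
    linear_combination (3 * c3 * p.1 ^ 2) * hN2 - (3 * c3 * p.1 ^ 2) * hA2
  · field_simp
    linear_combination (4 * NN p - 3 * |p.2|) * hN2

theorem point (f : ℝ × ℝ → ℝ) (h : Adm f) (p : ℝ × ℝ) :
    qd f p * (NN p ^ 3)⁻¹ - qd f0 p * (NN p ^ 3)⁻¹
      = (W p * PP f p - cq p (dX (PP f) p) (dY (PP f) p)) + D1 f p + D2 f p := by
  have h1 : f p = f0 p - PP f p := by unfold PP; ring
  have h2 : dX f p = g0X p - dX (PP f) p := by rw [dX_PP h]; ring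
  have h3 : dY f p = g0Y p - dY (PP f) p := by rw [dY_PP h]; ring
  have ha := alg p.1 p.2 (NN p) (f0 p) (g0X p) (g0Y p) (PP f p) (dX (PP f) p) (dY (PP f) p)
    (m1X p) (m2Y p) (NN_ne p) (NN_sq p)
  rw [← m1_eq, ← m2_eq, ← W_eq] at ha
  unfold qd
  rw [dX_f0, dY_f0, h1, h2, h3]
  unfold D1 D2 cq
  rw [← div_eq_mul_inv, ← div_eq_mul_inv]
  exact ha

theorem qd_good (f : ℝ × ℝ → ℝ) (hc : Continuous f) (hX : Good (dX f)) (hY : Good (dY f)) :
    Good fun p => qd f p * (NN p ^ 3)⁻¹ := by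
  unfold qd
  have hN := NN_cont
  refine Good.mul ?_ (Good.cont ((hN.pow 3).inv₀ (fun p => NNpow_ne p 3)))
  have b1 : Good fun p : ℝ × ℝ => 3 * f p ^ 2 / NN p ^ 2 :=
    Good.cont (Continuous.div (by fun_prop) (by fun_prop) (fun p => NNpow_ne p 2))
  have b2 := hX.pow 2
  have b3 := hY.pow 2
  have b4 : Good fun p : ℝ × ℝ => (f p - p.1 * dX f p - p.2 * dY f p) ^ 2 :=
    (((Good.cont hc).sub ((Good.cont continuous_fst).mul hX)).sub
      ((Good.cont continuous_snd).mul hY)).pow 2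
  have b5 : Good fun p : ℝ × ℝ => 2 * f p / NN p :=
    Good.cont (Continuous.div (by fun_prop) (by fun_prop) NN_ne)
  exact ((((b1.sub b2).sub b3).sub b4).sub b5).add (Good.const 1)

theorem qd_good_adm {f : ℝ × ℝ → ℝ} (h : Adm f) : Good fun p => qd f p * (NN p ^ 3)⁻¹ :=
  qd_good f h.diff.continuous h.gX h.gY

theorem qd_good_f0 : Good fun p => qd f0 p * (NN p ^ 3)⁻¹ := by
  refine qd_good f0 f0_cont ?_ ?_
  · rw [show dX f0 = g0X from funext dX_f0]; exact Good.cont g0X_cont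
  · rw [show dY f0 = g0Y from funext dY_f0]; exact Good.cont g0Y_cont

theorem W_good : Good W := by
  have e : W = fun p => 2 / NN p ^ 4 - 2 * (m1X p + m2Y p) := funext W_eq
  rw [e]
  have hN := NN_cont
  exact (Good.cont (Continuous.div (by fun_prop) (by fun_prop) (fun p => NNpow_ne p 4))).sub
    ((Good.const 2).mul (m1X_good.add m2Y_good))

theorem cq_good {u v : ℝ × ℝ → ℝ} (hu : Good u) (hv : Good v) :
    Good fun p => cq p (u p) (v p) := by
  unfold cq
  have hN := NN_cont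
  refine Good.div ?_ (by fun_prop) (fun p => NNpow_ne p 3)
  have c1 : Good fun p : ℝ × ℝ => (1 + p.1 ^ 2) * u p ^ 2 :=
    (Good.cont (by fun_prop)).mul (hu.pow 2)
  have c2 : Good fun p : ℝ × ℝ => 2 * p.1 * p.2 * u p * v p :=
    ((Good.cont (by fun_prop)).mul hu).mul hv
  have c3 : Good fun p : ℝ × ℝ => (1 + p.2 ^ 2) * v p ^ 2 :=
    (Good.cont (by fun_prop)).mul (hv.pow 2)
  exact (c1.add c2).add c3

theorem Dint_good {f : ℝ × ℝ → ℝ} (h : Adm f) :
    Good fun p => W p * PP f p - cq p (dX (PP f) p) (dY (PP f) p) :=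
  (W_good.mul (Good.cont (PP_cont h))).sub (cq_good (PX_good h) (PY_good h))

/-- **The bridge.** -/
theorem bridge {f : ℝ × ℝ → ℝ} (h : Adm f) :
    (∫ p in SQ, qd f p * (NN p ^ 3)⁻¹) - (∫ p in SQ, qd f0 p * (NN p ^ 3)⁻¹)
      = Dfun (fun p => f0 p - f p) := by
  have i1 := (qd_good_adm h).int
  have i2 := qd_good_f0.int
  have i3 := (Dint_good h).int
  have i4 := (D1_good h).int
  have i5 := (D2_good h).int
  rw [← integral_sub i1 i2]
  have e : (∫ p in SQ, (qd f p * (NN p ^ 3)⁻¹ - qd f0 p * (NN p ^ 3)⁻¹))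
      = ∫ p in SQ, ((W p * PP f p - cq p (dX (PP f) p) (dY (PP f) p)) + D1 f p + D2 f p) :=
    integral_congr_ae (Eventually.of_forall fun p => point f h p)
  have e2 : (∫ p in SQ, ((W p * PP f p - cq p (dX (PP f) p) (dY (PP f) p)) + D1 f p + D2 f p))
      = (∫ p in SQ, ((W p * PP f p - cq p (dX (PP f) p) (dY (PP f) p)) + D1 f p))
        + ∫ p in SQ, D2 f p := integral_add (i3.add i4) i5
  have e3 : (∫ p in SQ, ((W p * PP f p - cq p (dX (PP f) p) (dY (PP f) p)) + D1 f p))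
      = (∫ p in SQ, (W p * PP f p - cq p (dX (PP f) p) (dY (PP f) p)))
        + ∫ p in SQ, D1 f p := integral_add i3 i4
  rw [e, e2, e3, D1_int h, D2_int h, add_zero, add_zero]
  rfl

/-- what the volume formula needs -/
theorem qd_ge (hM : M1A) {f : ℝ × ℝ → ℝ} (h : Adm f) :
    (∫ p in SQ, qd f0 p * (NN p ^ 3)⁻¹) ≤ ∫ p in SQ, qd f p * (NN p ^ 3)⁻¹ := by
  have := bridge h
  have := hM f h
  linarith

end Helper22.MEI
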