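import Pool.Agent.Helper22.MEI.Flux2
import Pool.Agent.Helper22.MEI.Blaschke
import Pool.Agent.Helper14.CW.Geo1
import Pool.Agent.Helper8.MEI.C
import Pool.Agent.Helper55.MEI.AdmF0

/-!
# Project MEI, class T: the field of helper75 and the uses of the monotonicity of fluxes
-/

namespace Helper22.MEI

open Set MeasureTheory Filter Topology
open Helper14.CW.Geo

variable {f : ℝ × ℝ → ℝ}

/-! ### partial derivatives of fields -/

theorem E1_of {F : ℝ × ℝ × ℝ → ℝ} (hF : ContDiff ℝ 1 F) {q : ℝ × ℝ × ℝ} {d : ℝ}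
    (h : HasDerivAt (fun a => F (a, q.2.1, q.2.2)) d q.1) : E1 F q = d := by
  have h1 : HasFDerivAt F (fderiv ℝ F q) q := (hF.differentiable one_ne_zero q).hasFDerivAt
  have h2 : HasDerivAt (fun a : ℝ => ((a, q.2.1, q.2.2) : ℝ × ℝ × ℝ)) (1, 0, 0) q.1 :=
    (hasDerivAt_id _).prodMk ((hasDerivAt_const _ _).prodMk (hasDerivAt_const _ _))
  have h3 := h1.comp_hasDerivAt (x := q.1) (f := fun a : ℝ => ((a, q.2.1, q.2.2) : ℝ × ℝ × ℝ)) h2
  exact h3.unique h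

theorem E2_of {F : ℝ × ℝ × ℝ → ℝ} (hF : ContDiff ℝ 1 F) {q : ℝ × ℝ × ℝ} {d : ℝ}
    (h : HasDerivAt (fun a => F (q.1, a, q.2.2)) d q.2.1) : E2 F q = d := by
  have h1 : HasFDerivAt F (fderiv ℝ F q) q := (hF.differentiable one_ne_zero q).hasFDerivAt
  have h2 : HasDerivAt (fun a : ℝ => ((q.1, a, q.2.2) : ℝ × ℝ × ℝ)) (0, 1, 0) q.2.1 :=
    (hasDerivAt_const _ _).prodMk ((hasDerivAt_id _).prodMk (hasDerivAt_const _ _))
  have h3 := h1.comp_hasDerivAt (x := q.2.1) (f := fun a : ℝ => ((q.1, a, q.2.2) : ℝ × ℝ × ℝ)) h2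
  exact h3.unique h

theorem E3_of {F : ℝ × ℝ × ℝ → ℝ} (hF : ContDiff ℝ 1 F) {q : ℝ × ℝ × ℝ} {d : ℝ}
    (h : HasDerivAt (fun a => F (q.1, q.2.1, a)) d q.2.2) : E3 F q = d := by
  have h1 : HasFDerivAt F (fderiv ℝ F q) q := (hF.differentiable one_ne_zero q).hasFDerivAt
  have h2 : HasDerivAt (fun a : ℝ => ((q.1, q.2.1, a) : ℝ × ℝ × ℝ)) (0, 0, 1) q.2.2 :=
    (hasDerivAt_const _ _).prodMk ((hasDerivAt_const _ _).prodMk (hasDerivAt_id _))
  have h3 := h1.comp_hasDerivAt (x := q.2.2) (f := fun a : ℝ => ((q.1, q.2.1, a) : ℝ × ℝ × ℝ)) h2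
  exact h3.unique h

/-! ### linear fields -/

theorem lin1 (c : ℝ) : ContDiff ℝ 1 (fun q : ℝ × ℝ × ℝ => c * q.1) := by fun_prop
theorem lin2 (c : ℝ) : ContDiff ℝ 1 (fun q : ℝ × ℝ × ℝ => c * q.2.1) := by fun_prop
theorem lin3 (c : ℝ) : ContDiff ℝ 1 (fun q : ℝ × ℝ × ℝ => c * q.2.2) := by fun_prop

theorem dv_lin (c : ℝ) (q : ℝ × ℝ × ℝ) :
    dv (fun q => c * q.1) (fun q => c * q.2.1) (fun q => c * q.2.2) q = 3 * c := by
  unfold dv
  rw [E1_of (lin1 c) (d := c * 1) ((hasDerivAt_id _).const_mul c),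
    E2_of (lin2 c) (d := c * 1) ((hasDerivAt_id _).const_mul c),
    E3_of (lin3 c) (d := c * 1) ((hasDerivAt_id _).const_mul c)]
  ring

theorem Phi_lin (c : ℝ) (f : ℝ × ℝ → ℝ) :
    Phi (fun q => c * q.1) (fun q => c * q.2.1) (fun q => c * q.2.2) f = 3 * c * Vt f := by
  unfold Phi Vt
  have e : ∀ p : ℝ × ℝ, (c * (gp f p).1 * p.1 + c * (gp f p).2.1 * p.2 + c * (gp f p).2.2) * hd f p
      = c * (f p * hd f p) := by
    intro p
    unfold gp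
    ring
  simp only [e]
  rw [integral_const_mul]
  ring

/-! ### the field -/

noncomputable def FD (q : ℝ × ℝ × ℝ) : ℝ := 1 / 4 + q.1 ^ 2 / 8 + (q.2.1 ^ 2 + (q.2.2 - t) ^ 2)

noncomputable def Fa (q : ℝ × ℝ × ℝ) : ℝ := 9 / 32 * q.1 / FD q

noncomputable def Fb (q : ℝ × ℝ × ℝ) : ℝ := 1 / 2 * q.2.1 / FD q

noncomputable def Fc (q : ℝ × ℝ × ℝ) : ℝ := 1 / 2 * (q.2.2 - t) / FD q

/-- `e₃ - F~`, `F~ = 4 (w + 1/√2) F` -/
noncomputable def Ga (q : ℝ × ℝ × ℝ) : ℝ := -(4 * (q.2.2 + t) * Fa q)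

noncomputable def Gb (q : ℝ × ℝ × ℝ) : ℝ := -(4 * (q.2.2 + t) * Fb q)

noncomputable def Gc (q : ℝ × ℝ × ℝ) : ℝ := 1 - 4 * (q.2.2 + t) * Fc q

/-- flux of the field -/
noncomputable def PF (f : ℝ × ℝ → ℝ) : ℝ := Phi Fa Fb Fc f

/-- `∫ w_g dS` -/
noncomputable def al (f : ℝ × ℝ → ℝ) : ℝ := ∫ p in SQ, (-qz f p - t) * (NN p * hd f p)

/-- `∫ B₀ dS` -/
noncomputable def IB (f : ℝ × ℝ → ℝ) : ℝ := ∫ p in SQ, Bq f p 0 * (NN p * hd f p)

theorem FD_pos (q : ℝ × ℝ × ℝ) : 0 < FD q := by unfold FD; positivity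

theorem FD_cd : ContDiff ℝ 1 FD := by unfold FD; fun_prop

theorem Fa_cd : ContDiff ℝ 1 Fa :=
  ContDiff.div (by fun_prop) FD_cd fun q => (FD_pos q).ne'

theorem Fb_cd : ContDiff ℝ 1 Fb :=
  ContDiff.div (by fun_prop) FD_cd fun q => (FD_pos q).ne'

theorem Fc_cd : ContDiff ℝ 1 Fc :=
  ContDiff.div (by fun_prop) FD_cd fun q => (FD_pos q).ne'

theorem Ga_cd : ContDiff ℝ 1 Ga := by
  have := Fa_cd
  unfold Ga; fun_prop

theorem Gb_cd : ContDiff ℝ 1 Gb := by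
  have := Fb_cd
  unfold Gb; fun_prop

theorem Gc_cd : ContDiff ℝ 1 Gc := by
  have := Fc_cd
  unfold Gc; fun_prop

open Pool.Agent.Helper8.MEI in
theorem dE1 (q : ℝ × ℝ × ℝ) : E1 Fa q = 9 / 32 / DD q.1 q.2.1 (q.2.2 - t)
    - 9 / 32 * q.1 * (q.1 / 4) / DD q.1 q.2.1 (q.2.2 - t) ^ 2 :=
  E1_of Fa_cd (hasDeriv_x q.1 q.2.1 (q.2.2 - t))

open Pool.Agent.Helper8.MEI in
theorem dE2 (q : ℝ × ℝ × ℝ) : E2 Fb q = 1 / 2 / DD q.1 q.2.1 (q.2.2 - t)
    - 1 / 2 * q.2.1 * (2 * q.2.1) / DD q.1 q.2.1 (q.2.2 - t) ^ 2 :=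
  E2_of Fb_cd (hasDeriv_y q.1 q.2.1 (q.2.2 - t))

open Pool.Agent.Helper8.MEI in
theorem dE3 (q : ℝ × ℝ × ℝ) : E3 Fc q = 1 / 2 / DD q.1 q.2.1 (q.2.2 - t)
    - 1 / 2 * (q.2.2 - t) * (2 * (q.2.2 - t)) / DD q.1 q.2.1 (q.2.2 - t) ^ 2 :=
  E3_of Fc_cd ((hasDeriv_w q.1 q.2.1 (q.2.2 - t)).comp_sub_const q.2.2 t)

open Pool.Agent.Helper8.MEI in
theorem dv_F (q : ℝ × ℝ × ℝ) : dv Fa Fb Fc q = divF q.1 q.2.1 (q.2.2 - t) := by
  unfold dv
  rw [dE1, dE2, dE3]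
  exact divF_eq _ _ _

open Pool.Agent.Helper8.MEI in
theorem dv_G (q : ℝ × ℝ × ℝ) : dv Ga Gb Gc q = -(4 * (q.2.2 + t) * divF q.1 q.2.1 (q.2.2 - t)
    + 2 * (q.2.2 - t) / DD q.1 q.2.1 (q.2.2 - t)) := by
  have hD := DD_pos q.1 q.2.1 (q.2.2 - t)
  have e1 : E1 Ga q = -(4 * (q.2.2 + t) * E1 Fa q) := by
    refine E1_of Ga_cd ?_
    rw [dE1]
    exact ((hasDeriv_x q.1 q.2.1 (q.2.2 - t)).const_mul (4 * (q.2.2 + t))).neg
  have e2 : E2 Gb q = -(4 * (q.2.2 + t) * E2 Fb q) := by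
    refine E2_of Gb_cd ?_
    rw [dE2]
    exact ((hasDeriv_y q.1 q.2.1 (q.2.2 - t)).const_mul (4 * (q.2.2 + t))).neg
  have e3 : E3 Gc q = -(4 * 1 * Fc q + 4 * (q.2.2 + t) * E3 Fc q) := by
    refine E3_of Gc_cd ?_
    rw [dE3]
    have h1 := ((hasDerivAt_id q.2.2).add_const t).const_mul 4
    have h2 := (hasDeriv_w q.1 q.2.1 (q.2.2 - t)).comp_sub_const q.2.2 t
    have h3 := (h1.mul h2).const_sub 1
    exact h3
  have e4 : Fc q = 1 / 2 * (q.2.2 - t) / DD q.1 q.2.1 (q.2.2 - t) := rfl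
  unfold dv
  rw [e1, e2, e3, dE1, dE2, dE3, e4, ← divF_eq]
  ring

/-! ### the region -/

open Pool.Agent.Helper8.MEI in
theorem zz (h : Adm f) {p : ℝ × ℝ} (h1 : |p.1| ≤ s) (h2 : |p.2| ≤ s) :
    ZZ (gp f p).1 (gp f p).2.1 ((gp f p).2.2 - t) := by
  have e1 : (2 * s : ℝ) = √2 := by unfold s; ring
  have e2 : (2 * c3 : ℝ) = √3 := by unfold c3; ring
  have a := outer_r h h1 h2
  have b := spindle h h1 h2
  have e3 := rp_sq f p
  rw [e1, e3] at a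
  rw [e2, e3] at b
  exact ⟨by unfold rp at a; exact a, by unfold rp at b; exact b⟩

theorem SQ_abs {p : ℝ × ℝ} (hp : p ∈ SQ) : |p.1| ≤ s ∧ |p.2| ≤ s :=
  ⟨abs_le.2 ⟨hp.1.1.le, hp.1.2.le⟩, abs_le.2 ⟨hp.2.1.le, hp.2.2.le⟩⟩

/-! ### uses of the monotonicity -/

open Pool.Agent.Helper8.MEI in
/-- (a) -/
theorem use_a (h : Adm f) : 4.32 * (Vt f0 - Vt f) ≤ PF f0 - PF f := by
  have h0 := Helper55.MEI.adm_f0
  have key := flux_mono (lin1 (1.44)) (lin2 (1.44)) (lin3 (1.44)) Fa_cd Fb_cd Fc_cd h h0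
    (fun p hp => h.le_f0 (SQ_abs hp).1) (fun p hp r hr => by
      have hc := h.comb h0 hr.1 hr.2
      rw [dv_lin, dv_F]
      have := divF_lo (zz hc (SQ_abs hp).1 (SQ_abs hp).2)
      linarith)
  rw [Phi_lin, Phi_lin] at key
  unfold PF
  linarith

open Pool.Agent.Helper8.MEI in
/-- (b) -/
theorem use_b (h : Adm f) : PF f - PF f1 ≤ 4.58 * (Vt f - Vt f1) := by
  have h0 := Helper55.MEI.adm_f1
  have key := flux_mono Fa_cd Fb_cd Fc_cd (lin1 (4.58 / 3)) (lin2 (4.58 / 3)) (lin3 (4.58 / 3))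
    h0 h (fun p hp => h.f1_le (SQ_abs hp).2) (fun p hp r hr => by
      have hc := h0.comb h hr.1 hr.2
      rw [dv_lin, dv_F]
      have := divF_hi (zz hc (SQ_abs hp).1 (SQ_abs hp).2)
      linarith)
  rw [Phi_lin, Phi_lin] at key
  unfold PF
  linarith

/-- volumes are monotone -/
theorem Vt_le (h : Adm f) : Vt f ≤ Vt f0 := by
  have h0 := Helper55.MEI.adm_f0
  have key := flux_mono (lin1 0) (lin2 0) (lin3 0) (lin1 1) (lin2 1) (lin3 1)
    h h0 (fun p hp => h.le_f0 (SQ_abs hp).1) (fun p hp r hr => by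
      rw [dv_lin, dv_lin]; norm_num)
  rw [Phi_lin, Phi_lin, Phi_lin, Phi_lin] at key
  linarith

/-- (d) -/
theorem use_d (h : Adm f) : PF f ≤ PF f0 := by
  have := use_a h
  have := Vt_le h
  linarith

open Pool.Agent.Helper8.MEI in
/-- (c) -/
theorem use_c (h : Adm f) : Phi Ga Gb Gc f0 + 12.2 * (Vt f0 - Vt f) ≤ Phi Ga Gb Gc f := by
  have h0 := Helper55.MEI.adm_f0
  have e : 2 * t = 1 / √2 := by
    unfold t
    rw [eq_div_iff (by positivity)]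
    have := Real.mul_self_sqrt (show (0 : ℝ) ≤ 2 by norm_num)
    linear_combination (1 / 2) * this
  have key := flux_mono Ga_cd Gb_cd Gc_cd (lin1 (-(12.2 / 3))) (lin2 (-(12.2 / 3)))
    (lin3 (-(12.2 / 3))) h h0 (fun p hp => h.le_f0 (SQ_abs hp).1) (fun p hp r hr => by
      have hc := h.comb h0 hr.1 hr.2
      rw [dv_lin, dv_G]
      have h1 := divFt_ge (zz hc (SQ_abs hp).1 (SQ_abs hp).2)
        (wf_nonneg hc (SQ_abs hp).1 (SQ_abs hp).2)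
      have e2 : (gp (cb r f f0) p).2.2 + t = (gp (cb r f f0) p).2.2 - t + 1 / √2 := by
        rw [← e]; ring
      rw [e2]
      linarith)
  rw [Phi_lin, Phi_lin] at key
  linarith

/-! ### pointwise lower bound -/

theorem unit_u (p : ℝ × ℝ) : (p.1 / NN p) ^ 2 + (p.2 / NN p) ^ 2 + (1 / NN p) ^ 2 = 1 := by
  have hn := NN_ne p
  field_simp
  rw [NN_sq]; ring

theorem FU (f : ℝ × ℝ → ℝ) (p : ℝ × ℝ) :
    Fa (gp f p) * p.1 + Fb (gp f p) * p.2 + Fc (gp f p)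
      = NN p * (Fa (gp f p) * (p.1 / NN p) + Fb (gp f p) * (p.2 / NN p)
        + Fc (gp f p) * (1 / NN p)) := by
  have hn := NN_ne p
  field_simp

open Pool.Agent.Helper8.MEI in
/-- pointwise: `<F, U> - N/4 ≥ B₀ N / 2` -/
theorem FU_ge (h : Adm f) {p : ℝ × ℝ} (h1 : |p.1| ≤ s) (h2 : |p.2| ≤ s) :
    1 / 2 * Bq f p 0 * NN p ≤ Fa (gp f p) * p.1 + Fb (gp f p) * p.2 + Fc (gp f p) - NN p / 4 := by
  have hN := NN_pos p
  have e1 : Bq f p 0 = 3 / 4 - ((dX f p - p.1 / NN p) ^ 2 + (dY f p - p.2 / NN p) ^ 2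
      + ((pz f p - t) - 1 / NN p) ^ 2) := by
    unfold Bq qx qy qz
    ring
  have key := F1_ge (dX f p) (dY f p) (pz f p - t) (p.1 / NN p) (p.2 / NN p) (1 / NN p)
    (Bq f p 0) (unit_u p) (zz h h1 h2) e1 (abs_dX h h1 h2) (abs_qx_le_Bq h h1 h2)
  rw [FU]
  have e2 : Fa (gp f p) = F1 (dX f p) (dY f p) (pz f p - t) := rfl
  have e3 : Fb (gp f p) = F2 (dX f p) (dY f p) (pz f p - t) := rfl
  have e4 : Fc (gp f p) = F3 (dX f p) (dY f p) (pz f p - t) := rfl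
  rw [e2, e3, e4]
  nlinarith

theorem qx_cont (h : Adm f) : Continuous (qx f) := by
  unfold qx
  exact h.cX.sub (continuous_fst.div NN_cont NN_ne)

theorem qy_cont (h : Adm f) : Continuous (qy f) := by
  unfold qy
  exact h.cY.sub (continuous_snd.div NN_cont NN_ne)

theorem pz_cont (h : Adm f) : Continuous (pz f) := by
  have h1 := h.cX
  have h2 := h.cY
  have h3 := h.diff.continuous
  unfold pz
  fun_prop

theorem qz_cont (h : Adm f) : Continuous (qz f) := by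
  unfold qz
  exact (pz_cont h).sub (continuous_const.div NN_cont NN_ne)

theorem Bq_cont (h : Adm f) (c : ℝ) : Continuous (fun p => Bq f p c) := by
  have h1 := qx_cont h
  have h2 := qy_cont h
  have h3 := qz_cont h
  unfold Bq
  fun_prop

theorem Bq0_nonneg (h : Adm f) {p : ℝ × ℝ} (h1 : |p.1| ≤ s) (h2 : |p.2| ≤ s) : 0 ≤ Bq f p 0 :=
  Bq_nonneg h h1 h2 (by norm_num)

theorem IB_nonneg (h : Adm f) : 0 ≤ IB f := by
  unfold IB
  refine integral_nonneg_of_ae ?_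
  have h0 : ∀ᵐ p ∂(volume.restrict SQ), p ∈ SQ := ae_restrict_mem SQ_meas
  filter_upwards [h0, ae_restrict_of_ae h.hess_ae] with p hp H
  exact mul_nonneg (Bq0_nonneg h (SQ_abs hp).1 (SQ_abs hp).2)
    (mul_nonneg (NN_pos p).le (hd_nonneg H))

theorem St_nonneg (h : Adm f) : 0 ≤ St f := by
  unfold St
  refine integral_nonneg_of_ae ?_
  filter_upwards [ae_restrict_of_ae h.hess_ae] with p H
  exact mul_nonneg (NN_pos p).le (hd_nonneg H)

/-- `T(f) ≥ (1/2) ∫ B₀ dS` -/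
theorem T_ge (h : Adm f) : IB f / 2 ≤ PF f - St f / 4 := by
  have g1 : IntegrableOn (fun p => (Fa (gp f p) * p.1 + Fb (gp f p) * p.2 + Fc (gp f p)) * hd f p)
      SQ := (Phi_good Fa_cd Fb_cd Fc_cd h).int
  have g2 : IntegrableOn (fun p => NN p * hd f p) SQ := (gN.mul h.ghd).int
  have g3 : IntegrableOn (fun p => Bq f p 0 * (NN p * hd f p)) SQ :=
    ((Good.cont (Bq_cont h 0)).mul (gN.mul h.ghd)).int
  have e1 : PF f - St f / 4 = ∫ p in SQ, ((Fa (gp f p) * p.1 + Fb (gp f p) * p.2 + Fc (gp f p))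
      * hd f p - 1 / 4 * (NN p * hd f p)) := by
    rw [integral_sub g1 (g2.const_mul (1 / 4)), integral_const_mul]
    unfold PF Phi St
    ring
  have e2 : IB f / 2 = ∫ p in SQ, 1 / 2 * (Bq f p 0 * (NN p * hd f p)) := by
    rw [integral_const_mul]
    unfold IB
    ring
  rw [e1, e2]
  refine setIntegral_mono_ae_restrict (g3.const_mul (1 / 2)) (g1.sub (g2.const_mul (1 / 4))) ?_
  have h0 : ∀ᵐ p ∂(volume.restrict SQ), p ∈ SQ := ae_restrict_mem SQ_meas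
  filter_upwards [h0, ae_restrict_of_ae h.hess_ae] with p hp H
  have k := FU_ge h (SQ_abs hp).1 (SQ_abs hp).2
  have k2 := mul_le_mul_of_nonneg_right k (hd_nonneg H)
  nlinarith

theorem T_nonneg (h : Adm f) : 0 ≤ PF f - St f / 4 := by
  have := T_ge h
  have := IB_nonneg h
  linarith

/-- `α(f) ≥` flux of `e₃ - F~` -/
theorem al_ge (h : Adm f) : Phi Ga Gb Gc f ≤ al f := by
  have g1 : IntegrableOn (fun p => (Ga (gp f p) * p.1 + Gb (gp f p) * p.2 + Gc (gp f p)) * hd f p)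
      SQ := (Phi_good Ga_cd Gb_cd Gc_cd h).int
  have g2 : IntegrableOn (fun p => (-qz f p - t) * (NN p * hd f p)) SQ := by
    refine ((Good.cont ?_).mul (gN.mul h.ghd)).int
    exact ((qz_cont h).neg).sub continuous_const
  unfold al Phi
  refine setIntegral_mono_ae_restrict g1 g2 ?_
  have h0 : ∀ᵐ p ∂(volume.restrict SQ), p ∈ SQ := ae_restrict_mem SQ_meas
  filter_upwards [h0, ae_restrict_of_ae h.hess_ae] with p hp H
  have k := FU_ge h (SQ_abs hp).1 (SQ_abs hp).2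
  have hb := Bq0_nonneg h (SQ_abs hp).1 (SQ_abs hp).2
  have hz := wf_nonneg h (SQ_abs hp).1 (SQ_abs hp).2
  have hN := NN_pos p
  have ht := t_pos
  have e1 : (-qz f p - t) * (NN p * hd f p) = (1 - (pz f p + t) * NN p) * hd f p := by
    unfold qz
    field_simp
    ring
  rw [e1]
  refine mul_le_mul_of_nonneg_right ?_ (hd_nonneg H)
  have e2 : Ga (gp f p) * p.1 + Gb (gp f p) * p.2 + Gc (gp f p)
      = 1 - 4 * (pz f p + t) * (Fa (gp f p) * p.1 + Fb (gp f p) * p.2 + Fc (gp f p)) := by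
    have : (gp f p).2.2 = pz f p := rfl
    unfold Ga Gb Gc
    rw [this]
    ring
  rw [e2]
  have h4 : NN p / 4 ≤ Fa (gp f p) * p.1 + Fb (gp f p) * p.2 + Fc (gp f p) := by
    have : 0 ≤ 1 / 2 * Bq f p 0 * NN p := by positivity
    linarith
  have h5 : 0 ≤ pz f p + t := by linarith
  nlinarith [mul_le_mul_of_nonneg_left h4 h5]

/-- section 5: `α(f) ≥ 12.2 l(f)` -/
theorem al_loss (h : Adm f) (hz : 0 ≤ Phi Ga Gb Gc f0) : 12.2 * (Vt f0 - Vt f) ≤ al f := by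
  have := use_c h
  have := al_ge h
  linarith

end Helper22.MEI
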