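import Pool.Agent.Helper22.MEI.Wedge
import Pool.Agent.Helper22.MEI.Mono
import Pool.Agent.Helper14.CW.Tetra

/-!
# Project MEI, all bodies: flux identities in the edge cells and in the cones over the faces
-/

namespace Helper22.Wedge

open Set MeasureTheory Filter Topology Metric
open Helper80.CW Helper82.CW
open scoped RealInnerProductSpace

/-! ### touching functions -/

theorem fd_touch {E : Type*} [NormedAddCommGroup E] [NormedSpace ℝ E] {l a : E → ℝ} {x : E}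
    (hle : ∀ y, l y ≤ a y) (hx : l x = a x) (hl : DifferentiableAt ℝ l x)
    (ha : DifferentiableAt ℝ a x) : fderiv ℝ l x = fderiv ℝ a x := by
  have h1 : IsLocalMin (fun y => a y - l y) x := Eventually.of_forall fun y => by
    simp only [hx, sub_self]
    linarith [hle y]
  have h2 := h1.fderiv_eq_zero
  have h3 : fderiv ℝ (fun y => a y - l y) x = fderiv ℝ a x - fderiv ℝ l x := fderiv_sub ha hl
  rw [h3] at h2
  exact (sub_eq_zero.1 h2).symm

/-- cell given by several functions -/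
theorem cell_eq {E : Type*} [NormedAddCommGroup E] [NormedSpace ℝ E] [FiniteDimensional ℝ E]
    [MeasurableSpace E] [BorelSpace E] {μ : Measure E} [μ.IsAddHaarMeasure]
    {ι : Type*} [Fintype ι] {J : Type*} {l χ : E → ℝ} {a : J → E → ℝ} {φ : ι → E → ℝ} {v : ι → E}
    {Kl Kc : NNReal} (hl : LipschitzWith Kl l) (hχ : LipschitzWith Kc χ)
    (hs : HasCompactSupport χ) (h0 : ∀ x, 0 ≤ χ x) (hφ : ∀ k, ContDiff ℝ 1 (φ k))
    (hle : ∀ y j, l y ≤ a j y) (hex : ∀ y, ∃ j, l y = a j y) (ha : ∀ j, Differentiable ℝ (a j))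
    {C : ℝ} (hC : ∀ x j, χ x ≠ 0 → 0 < a j x →
      |∑ k, φ k x * fderiv ℝ (a j) x (v k)| ≤ C * a j x) :
    ∫ x in {x | 0 < l x}, GG χ φ v x ∂μ = 0 := by
  refine wedge_eq hl hχ hs h0 hφ (C := C) ?_
  filter_upwards [hl.ae_differentiableAt] with x hx h1 h2
  obtain ⟨j, hj⟩ := hex x
  rw [fd_touch (fun y => hle y j) hj hx (ha j x), hj]
  exact hC x j h2 (hj ▸ h1)

/-- one-sided version -/
theorem cell_le {E : Type*} [NormedAddCommGroup E] [NormedSpace ℝ E] [FiniteDimensional ℝ E]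
    [MeasurableSpace E] [BorelSpace E] {μ : Measure E} [μ.IsAddHaarMeasure]
    {ι : Type*} [Fintype ι] {J : Type*} {l χ : E → ℝ} {a : J → E → ℝ} {φ : ι → E → ℝ} {v : ι → E}
    {Kl Kc : NNReal} (hl : LipschitzWith Kl l) (hχ : LipschitzWith Kc χ)
    (hs : HasCompactSupport χ) (h0 : ∀ x, 0 ≤ χ x) (hφ : ∀ k, ContDiff ℝ 1 (φ k))
    (hle : ∀ y j, l y ≤ a j y) (hex : ∀ y, ∃ j, l y = a j y) (ha : ∀ j, Differentiable ℝ (a j))
    {C : ℝ} (hC : ∀ x j, χ x ≠ 0 → 0 < a j x →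
      -(C * a j x) ≤ ∑ k, φ k x * fderiv ℝ (a j) x (v k)) :
    ∫ x in {x | 0 < l x}, GG χ φ v x ∂μ ≤ 0 := by
  refine wedge_le hl hχ hs h0 hφ (C := C) ?_
  filter_upwards [hl.ae_differentiableAt] with x hx h1 h2
  obtain ⟨j, hj⟩ := hex x
  rw [fd_touch (fun y => hle y j) hj hx (ha j x), hj]
  exact hC x j h2 (hj ▸ h1)

/-! ### coordinates -/

section
variable (b : OrthonormalBasis (Fin 3) ℝ E3) (c : E3)

/-- coordinates relative to `c` in the frame `b` -/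
noncomputable def co (x : E3) : ℝ × ℝ × ℝ := (⟪b 0, x - c⟫, ⟪b 1, x - c⟫, ⟪b 2, x - c⟫)

theorem ip_cd (u : E3) : ContDiff ℝ 1 (fun y : E3 => ⟪u, y - c⟫) := by
  have h : ContDiff ℝ 1 (fun y : E3 => (innerSL ℝ u) (y - c)) :=
    (innerSL ℝ u).contDiff.comp (contDiff_id.sub contDiff_const)
  exact h

theorem co_cd : ContDiff ℝ 1 (co b c) :=
  (ip_cd c (b 0)).prodMk ((ip_cd c (b 1)).prodMk (ip_cd c (b 2)))

theorem ip_hasFDerivAt (u : E3) (x : E3) :
    HasFDerivAt (fun y : E3 => ⟪u, y - c⟫) (innerSL ℝ u) x := by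
  have h : HasFDerivAt (fun y : E3 => (innerSL ℝ u) (y - c)) (innerSL ℝ u) x := by
    have h0 : HasFDerivAt (fun y : E3 => y - c) (ContinuousLinearMap.id ℝ E3) x :=
      (hasFDerivAt_id (𝕜 := ℝ) x).sub_const c
    have h1 := (innerSL ℝ u).hasFDerivAt.comp x h0
    exact h1
  exact h

theorem co_hasFDerivAt (x : E3) : HasFDerivAt (co b c)
    ((innerSL ℝ (b 0)).prod ((innerSL ℝ (b 1)).prod (innerSL ℝ (b 2)))) x :=
  (ip_hasFDerivAt c (b 0) x).prodMk
    ((ip_hasFDerivAt c (b 1) x).prodMk (ip_hasFDerivAt c (b 2) x))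

theorem ib (i j : Fin 3) : ⟪b i, b j⟫ = if i = j then (1 : ℝ) else 0 :=
  orthonormal_iff_ite.1 b.orthonormal i j

theorem ibv : (⟪b 0, b 0⟫ = (1 : ℝ) ∧ ⟪b 0, b 1⟫ = (0 : ℝ) ∧ ⟪b 0, b 2⟫ = (0 : ℝ)) ∧
    (⟪b 1, b 0⟫ = (0 : ℝ) ∧ ⟪b 1, b 1⟫ = (1 : ℝ) ∧ ⟪b 1, b 2⟫ = (0 : ℝ)) ∧
    (⟪b 2, b 0⟫ = (0 : ℝ) ∧ ⟪b 2, b 1⟫ = (0 : ℝ) ∧ ⟪b 2, b 2⟫ = (1 : ℝ)) := by
  have d : ∀ i j : Fin 3, i ≠ j → ⟪b i, b j⟫ = (0 : ℝ) := fun i j hij => by rw [ib, if_neg hij]
  have u : ∀ i : Fin 3, ⟪b i, b i⟫ = (1 : ℝ) := fun i => by rw [ib, if_pos rfl]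
  exact ⟨⟨u 0, d 0 1 (by decide), d 0 2 (by decide)⟩, ⟨d 1 0 (by decide), u 1, d 1 2 (by decide)⟩,
    ⟨d 2 0 (by decide), d 2 1 (by decide), u 2⟩⟩

/-- derivative of a function of the coordinates in the direction `b k` -/
theorem fd_co {G : ℝ × ℝ × ℝ → ℝ} (hG : ContDiff ℝ 1 G) (x v : E3) :
    fderiv ℝ (fun y => G (co b c y)) x v
      = fderiv ℝ G (co b c x) (⟪b 0, v⟫, ⟪b 1, v⟫, ⟪b 2, v⟫) := by
  have h1 : HasFDerivAt G (fderiv ℝ G (co b c x)) (co b c x) :=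
    (hG.differentiable one_ne_zero _).hasFDerivAt
  have h2 := h1.comp x (co_hasFDerivAt b c x)
  have h3 := h2.fderiv
  have h4 : fderiv ℝ (fun y => G (co b c y)) x = (fderiv ℝ G (co b c x)).comp
    ((innerSL ℝ (b 0)).prod ((innerSL ℝ (b 1)).prod (innerSL ℝ (b 2)))) := h3
  rw [h4]
  rfl

/-- the vector field with components `G1, G2, G3` -/
noncomputable def fld (G1 G2 G3 : ℝ × ℝ × ℝ → ℝ) (x : E3) : E3 :=
  G1 (co b c x) • b 0 + G2 (co b c x) • b 1 + G3 (co b c x) • b 2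

/-- the components -/
noncomputable def cmp (G1 G2 G3 : ℝ × ℝ × ℝ → ℝ) (k : Fin 3) (x : E3) : ℝ :=
  ![G1 (co b c x), G2 (co b c x), G3 (co b c x)] k

theorem cmp_cd {G1 G2 G3 : ℝ × ℝ × ℝ → ℝ} (h1 : ContDiff ℝ 1 G1) (h2 : ContDiff ℝ 1 G2)
    (h3 : ContDiff ℝ 1 G3) (k : Fin 3) : ContDiff ℝ 1 (cmp b c G1 G2 G3 k) := by
  have hc := co_cd b c
  fin_cases k
  · exact h1.comp hc
  · exact h2.comp hc
  · exact h3.comp hc

theorem GG_fld {G1 G2 G3 : ℝ × ℝ × ℝ → ℝ} (h1 : ContDiff ℝ 1 G1) (h2 : ContDiff ℝ 1 G2)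
    (h3 : ContDiff ℝ 1 G3) (χ : E3 → ℝ) (x : E3) :
    GG χ (cmp b c G1 G2 G3) (fun k => b k) x
      = fderiv ℝ χ x (fld b c G1 G2 G3 x) + χ x * Helper22.MEI.dv G1 G2 G3 (co b c x) := by
  unfold GG fld
  rw [Fin.sum_univ_three, Fin.sum_univ_three]
  have e0 : cmp b c G1 G2 G3 0 = fun y => G1 (co b c y) := rfl
  have e1 : cmp b c G1 G2 G3 1 = fun y => G2 (co b c y) := rfl
  have e2 : cmp b c G1 G2 G3 2 = fun y => G3 (co b c y) := rfl
  rw [e0, e1, e2, fd_co b c h1, fd_co b c h2, fd_co b c h3]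
  obtain ⟨⟨i00, i01, i02⟩, ⟨i10, i11, i12⟩, ⟨i20, i21, i22⟩⟩ := ibv b
  simp only [i00, i01, i02, i10, i11, i12, i20, i21, i22, map_add, map_smul, smul_eq_mul]
  unfold Helper22.MEI.dv Helper22.MEI.E1 Helper22.MEI.E2 Helper22.MEI.E3
  ring

/-! ### the edge cell -/

/-- distance-like function of the edge cell -/
noncomputable def el (x : E3) : ℝ :=
  min (Helper22.MEI.s * ((co b c x).2.2 - Helper22.MEI.t) - (co b c x).2.1)
    (Helper22.MEI.s * ((co b c x).2.2 - Helper22.MEI.t) + (co b c x).2.1)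

/-- the two walls -/
noncomputable def wl (j : Bool) (x : E3) : ℝ :=
  if j then Helper22.MEI.s * ((co b c x).2.2 - Helper22.MEI.t) - (co b c x).2.1
  else Helper22.MEI.s * ((co b c x).2.2 - Helper22.MEI.t) + (co b c x).2.1

/-- the edge cell: the part of space beyond the edge `a1 a2` -/
def EC : Set E3 := {x | |(co b c x).2.1| < Helper22.MEI.s * ((co b c x).2.2 - Helper22.MEI.t)}

theorem EC_eq : EC b c = {x | 0 < el b c x} := by
  ext x
  unfold EC el
  simp only [mem_setOf_eq, lt_min_iff, abs_lt]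
  constructor
  · rintro ⟨h1, h2⟩; exact ⟨by linarith, by linarith⟩
  · rintro ⟨h1, h2⟩; exact ⟨by linarith, by linarith⟩

theorem wl_fd (j : Bool) (x v : E3) : fderiv ℝ (wl b c j) x v
    = Helper22.MEI.s * ⟪b 2, v⟫ + (if j then -1 else 1) * ⟪b 1, v⟫ := by
  have h1 := ip_hasFDerivAt c (b 1) x
  have h2 := ip_hasFDerivAt c (b 2) x
  have h3 := (h2.sub_const Helper22.MEI.t).const_mul Helper22.MEI.s
  cases j
  · have h4 := (h3.add h1).fderiv
    have e : wl b c false = fun y => Helper22.MEI.s * (⟪b 2, y - c⟫ - Helper22.MEI.t)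
      + ⟪b 1, y - c⟫ := rfl
    have h5 : fderiv ℝ (wl b c false) x = Helper22.MEI.s • innerSL ℝ (b 2) + innerSL ℝ (b 1) := by
      rw [e]; exact h4
    rw [h5]
    simp
  · have h4 := (h3.sub h1).fderiv
    have e : wl b c true = fun y => Helper22.MEI.s * (⟪b 2, y - c⟫ - Helper22.MEI.t)
      - ⟪b 1, y - c⟫ := rfl
    have h5 : fderiv ℝ (wl b c true) x = Helper22.MEI.s • innerSL ℝ (b 2) - innerSL ℝ (b 1) := by
      rw [e]; exact h4
    rw [h5]
    simp
    ring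

theorem ip_diff (u : E3) : Differentiable ℝ (fun y : E3 => ⟪u, y - c⟫) :=
  fun x => (ip_hasFDerivAt c u x).differentiableAt

theorem wl_diff (j : Bool) : Differentiable ℝ (wl b c j) := by
  have h1 := ip_diff c (b 1)
  have h2 := ip_diff c (b 2)
  cases j
  · exact ((h2.sub_const Helper22.MEI.t).const_mul Helper22.MEI.s).add h1
  · exact ((h2.sub_const Helper22.MEI.t).const_mul Helper22.MEI.s).sub h1

theorem ip_lip (u : E3) : LipschitzWith ‖u‖₊ (fun y : E3 => ⟪u, y - c⟫) := by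
  refine LipschitzWith.of_dist_le_mul fun x y => ?_
  rw [Real.dist_eq, ← inner_sub_right]
  have e : x - c - (y - c) = x - y := by abel
  rw [e, dist_eq_norm]
  exact abs_real_inner_le_norm u (x - y)

theorem el_lip : ∃ K : NNReal, LipschitzWith K (el b c) := by
  have h1 := ip_lip c (b 1)
  have h2 := ip_lip c (b 2)
  have h3 : LipschitzWith (Real.toNNReal Helper22.MEI.s * ‖b 2‖₊)
      (fun y : E3 => Helper22.MEI.s * (⟪b 2, y - c⟫ - Helper22.MEI.t)) := by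
    refine LipschitzWith.of_dist_le_mul fun x y => ?_
    have := h2.dist_le_mul x y
    rw [Real.dist_eq] at this ⊢
    have e : Helper22.MEI.s * (⟪b 2, x - c⟫ - Helper22.MEI.t)
        - Helper22.MEI.s * (⟪b 2, y - c⟫ - Helper22.MEI.t)
        = Helper22.MEI.s * (⟪b 2, x - c⟫ - ⟪b 2, y - c⟫) := by ring
    rw [e, abs_mul, abs_of_pos Helper22.MEI.s_pos]
    rw [NNReal.coe_mul, Real.coe_toNNReal _ Helper22.MEI.s_pos.le, mul_assoc]
    exact mul_le_mul_of_nonneg_left this Helper22.MEI.s_pos.le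
  exact ⟨_, (h3.sub h1).min (h3.add h1)⟩

/-- **flux identity in the edge cell** for fields tangent to all planes through the edge line -/
theorem edge_flux {G1 G2 G3 ψ : ℝ × ℝ × ℝ → ℝ} (h1 : ContDiff ℝ 1 G1) (h2 : ContDiff ℝ 1 G2)
    (h3 : ContDiff ℝ 1 G3) (hψ : Continuous ψ) (e2 : ∀ q, G2 q = q.2.1 * ψ q)
    (e3 : ∀ q, G3 q = (q.2.2 - Helper22.MEI.t) * ψ q) {χ : E3 → ℝ} {K : NNReal}
    (hχ : LipschitzWith K χ) (hs : HasCompactSupport χ) (h0 : ∀ x, 0 ≤ χ x) :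
    ∫ x in EC b c, (fderiv ℝ χ x (fld b c G1 G2 G3 x)
      + χ x * Helper22.MEI.dv G1 G2 G3 (co b c x)) = 0 := by
  obtain ⟨Kl, hl⟩ := el_lip b c
  have hψc : Continuous (fun x => |ψ (co b c x)|) := (hψ.comp (co_cd b c).continuous).abs
  obtain ⟨C, hC⟩ := (hs : IsCompact (tsupport χ)).bddAbove_image hψc.continuousOn
  have key := cell_eq (μ := volume) (a := wl b c) (v := fun k => b k) hl hχ hs h0
    (cmp_cd b c h1 h2 h3) (fun y j => by
      cases j
      · exact min_le_right _ _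
      · exact min_le_left _ _) (fun y => by
      rcases le_total (wl b c true y) (wl b c false y) with h | h
      · exact ⟨true, min_eq_left h⟩
      · exact ⟨false, min_eq_right h⟩) (wl_diff b c) (C := C) (fun x j hx hj => by
      have hx' : x ∈ tsupport χ := subset_tsupport χ hx
      have hb : |ψ (co b c x)| ≤ C := hC ⟨x, hx', rfl⟩
      have e : ∑ k, cmp b c G1 G2 G3 k x * fderiv ℝ (wl b c j) x (b k)
          = ψ (co b c x) * wl b c j x := by
        rw [Fin.sum_univ_three]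
        have c0 : cmp b c G1 G2 G3 0 x = G1 (co b c x) := rfl
        have c1 : cmp b c G1 G2 G3 1 x = G2 (co b c x) := rfl
        have c2 : cmp b c G1 G2 G3 2 x = G3 (co b c x) := rfl
        rw [c0, c1, c2, wl_fd, wl_fd, wl_fd, e2, e3]
        obtain ⟨⟨i00, i01, i02⟩, ⟨i10, i11, i12⟩, ⟨i20, i21, i22⟩⟩ := ibv b
        rw [i20, i21, i22, i10, i11, i12]
        cases j
        · simp only [wl, Bool.false_eq_true, if_false]
          ring
        · simp only [wl, if_true]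
          ring
      rw [e, abs_mul, abs_of_pos hj]
      exact mul_le_mul_of_nonneg_right hb hj.le)
  rw [EC_eq]
  refine Eq.trans ?_ key
  refine integral_congr_ae (Eventually.of_forall fun x => ?_)
  exact (GG_fld b c h1 h2 h3 χ x).symm

open Helper22.MEI in
/-- the field of helper75 -/
theorem edge_flux_F {χ : E3 → ℝ} {K : NNReal}
    (hχ : LipschitzWith K χ) (hs : HasCompactSupport χ) (h0 : ∀ x, 0 ≤ χ x) :
    ∫ x in EC b c, (fderiv ℝ χ x (fld b c Fa Fb Fc x)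
      + χ x * Pool.Agent.Helper8.MEI.divF (co b c x).1 (co b c x).2.1 ((co b c x).2.2 - t)) = 0 := by
  have hψ : Continuous (fun q : ℝ × ℝ × ℝ => 1 / 2 / FD q) :=
    continuous_const.div FD_cd.continuous fun q => (FD_pos q).ne'
  have := edge_flux b c Fa_cd Fb_cd Fc_cd hψ
    (fun q => by unfold Fb; ring) (fun q => by unfold Fc; ring) hχ hs h0
  simp only [dv_F] at this
  exact this

end

/-! ### cones -/

/-- function of a cone with apex `a` -/
noncomputable def cn (a : E3) (ν : Fin 3 → E3) (x : E3) : ℝ :=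
  min ⟪ν 0, x - a⟫ (min ⟪ν 1, x - a⟫ ⟪ν 2, x - a⟫)

theorem cn_pos (a : E3) (ν : Fin 3 → E3) (x : E3) : 0 < cn a ν x ↔ ∀ k, 0 < ⟪ν k, x - a⟫ := by
  unfold cn
  rw [lt_min_iff, lt_min_iff]
  constructor
  · rintro ⟨h0, h1, h2⟩ k
    fin_cases k
    · exact h0
    · exact h1
    · exact h2
  · intro h; exact ⟨h 0, h 1, h 2⟩

theorem cn_lip (a : E3) (ν : Fin 3 → E3) : ∃ K : NNReal, LipschitzWith K (cn a ν) :=
  ⟨_, (ip_lip a (ν 0)).min ((ip_lip a (ν 1)).min (ip_lip a (ν 2)))⟩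

/-- **flux identity in a cone** for the radial field -/
theorem cone_flux (a : E3) (ν : Fin 3 → E3) {χ : E3 → ℝ} {K : NNReal}
    (hχ : LipschitzWith K χ) (hs : HasCompactSupport χ) (h0 : ∀ x, 0 ≤ χ x) :
    ∫ x in {x | ∀ k, 0 < ⟪ν k, x - a⟫}, (fderiv ℝ χ x (x - a) + 3 * χ x) = 0 := by
  obtain ⟨Kl, hl⟩ := cn_lip a ν
  set b : OrthonormalBasis (Fin 3) ℝ E3 := EuclideanSpace.basisFun (Fin 3) ℝ with hb
  have hrep : ∀ x : E3, x - a = ∑ k, ⟪b k, x - a⟫ • b k := fun x => (b.sum_repr' (x - a)).symm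
  have key := cell_eq (μ := volume) (J := Fin 3) (a := fun j x => ⟪ν j, x - a⟫)
    (φ := fun k x => ⟪b k, x - a⟫) (v := fun k => b k) hl hχ hs h0
    (fun k => ip_cd a (b k)) (fun y j => by
      unfold cn
      fin_cases j
      · exact min_le_left _ _
      · exact (min_le_right _ _).trans (min_le_left _ _)
      · exact (min_le_right _ _).trans (min_le_right _ _)) (fun y => by
      rcases min_choice ⟪ν 0, y - a⟫ (min ⟪ν 1, y - a⟫ ⟪ν 2, y - a⟫) with h | h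
      · exact ⟨0, h⟩
      · rcases min_choice ⟪ν 1, y - a⟫ ⟪ν 2, y - a⟫ with h' | h'
        · exact ⟨1, h.trans h'⟩
        · exact ⟨2, h.trans h'⟩) (fun j => ip_diff a (ν j)) (C := 1) (fun x j _ hj => by
      have e : ∑ k, ⟪b k, x - a⟫ * fderiv ℝ (fun x => ⟪ν j, x - a⟫) x (b k) = ⟪ν j, x - a⟫ := by
        rw [(ip_hasFDerivAt a (ν j) x).fderiv]
        conv_rhs => rw [hrep x, inner_sum]
        refine Finset.sum_congr rfl fun k _ => ?_
        rw [real_inner_smul_right]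
        rfl
      rw [e, abs_of_pos hj, one_mul])
  have hset : {x : E3 | ∀ k, 0 < ⟪ν k, x - a⟫} = {x | 0 < cn a ν x} := by
    ext x; exact (cn_pos a ν x).symm
  rw [hset]
  refine Eq.trans ?_ key
  refine integral_congr_ae (Eventually.of_forall fun x => ?_)
  simp only
  unfold GG
  have e1 : ∑ k, ⟪b k, x - a⟫ * fderiv ℝ χ x (b k) = fderiv ℝ χ x (x - a) := by
    conv_rhs => rw [hrep x, map_sum]
    refine Finset.sum_congr rfl fun k _ => ?_
    rw [map_smul, smul_eq_mul]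
  have e2 : ∑ k, fderiv ℝ (fun x => ⟪b k, x - a⟫) x (b k) = 3 := by
    have : ∀ k, fderiv ℝ (fun x => ⟪b k, x - a⟫) x (b k) = 1 := by
      intro k
      rw [(ip_hasFDerivAt a (b k) x).fderiv]
      have := ib b k k
      simpa using this
    rw [Finset.sum_congr rfl fun k _ => this k]
    simp
  rw [e1, e2]
  ring

end Helper22.Wedge
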