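import Pool.Agent.Helper22.MEI.Cpd

/-!
# Project MEI (M2), TEAM TC: third column of the arcs of the coupled pair
-/

set_option autoImplicit false

namespace Helper22.Cpd

open Set Metric MeasureTheory Helper80.CW Helper14.CW Helper14.MEI2
open Helper93.MEI Helper37.MEI Helper41.MEI Helper78.MEI Helper49.Cpl
open Pool.Agent.Helper8.MEI (DD DD_pos)
open Pool.Agent.Helper73.MEI (PM TE pf pr)
open Pool.Agent.Helper95.MEI.Fub (Zp exc_cont eX_cont eY_cont eW_cont Qv_cont pp_cont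
  DDe_cont int_cont)
open scoped RealInnerProductSpace Real

/-- weight of a vertex at the abscissa `x` -/
noncomputable def nb (i : Bool) (x : ℝ) : ℝ := 1 / 2 + (if i then -(7 * x / 16) else 7 * x / 16)

/-- numeric condition for the third column: own `κ ≥ k0`, other end `κ ≤ k1`, level `≤ S` -/
def ThOK (φ : ℝ → ℝ) (k0 k1 S ω T : ℝ) : Prop :=
  ∀ i x, |x| ≤ 1 / 2 → 0 < nb (!i) x - k1 / 2 * φ x ∧
    ω * ((nb i x - k0 / 2 * φ x) + (nb (!i) x - k1 / 2 * φ x)) ≤ nb (!i) x - k1 / 2 * φ x ∧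
    pp (((nb i x - k0 / 2 * φ x) + (nb (!i) x - k1 / 2 * φ x)) * √S -
      0.5773 * (nb (!i) x - k1 / 2 * φ x)) ^ 2 ≤ 4 * (nb (!i) x - k1 / 2 * φ x) * T

theorem wr_nb (φ : ℝ → ℝ) (κ : ℝ) (a : Fin 4 → E3) (i : Bool) (x : E3) :
    wr φ κ a i x = nb i (eX a x) - κ / 2 * φ (eX a x) := rfl

section pt
variable {φ : ℝ → ℝ} {a : Fin 4 → E3}

/-- the third coordinate, one pair, frame of the cell -/
theorem ls3_bar (hφ : Prof φ) (h : Gram4 (al a)) {κ : Bool → ℝ} {k0 k1 S ω T : ℝ}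
    (i : Bool) (hk0 : k0 ≤ κ i) (hκ1 : κ i ≤ 1) (hk1 : κ (!i) ≤ k1) (hT : ThOK φ k0 k1 S ω T)
    (hω : 0 < ω) (hω1 : ω ≤ 3 / 8) (hS1 : S ≤ 8 / 3 * ω ^ 2) {z : E3 × E3} (hz : Pl a z.1)
    (hq : Pl a z.2) (hS : Qv a (vi i) z.2 ≤ S) :
    ls3 φ κ a i z * pp (bar a (vo i) z.2) ≤
      pp (Qv a (vi i) z.2) * (T * (wt a false z.1 + wt a true z.1)) := by
  obtain ⟨_, hX, _⟩ := pl_e h hz
  obtain ⟨t1, t2, t3⟩ := hT i (eX a z.1) hX
  rw [← wr_nb φ k1 a (!i) z.1, ← wr_nb φ k0 a i z.1] at t2 t3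
  rw [← wr_nb φ k1 a (!i) z.1] at t1
  have hD := D4_pos (a := a) z.1
  have hs := bar_sum h z.2
  have hp := (pl_iff h).1 hq
  have d0 := wr_nonneg hφ h (hk0.trans hκ1) i hz
  have m1 := mul_le_mul_of_nonneg_right (wr_anti hφ h hk0 i hz) (pp_nonneg (Qv a (vi i) z.2))
  have m2 := mul_le_mul_of_nonneg_right (wr_anti hφ h hk1 (!i) hz)
    (pp_nonneg (-Qv a (vo i) z.2))
  have n1 : pp (wr φ (κ i) a i z.1 * pp (Qv a (vi i) z.2) -
      wr φ (κ (!i)) a (!i) z.1 * pp (-Qv a (vo i) z.2)) ≤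
      pp (wr φ k0 a i z.1 * pp (Qv a (vi i) z.2) -
        wr φ k1 a (!i) z.1 * pp (-Qv a (vo i) z.2)) := pp_mono (by linarith)
  have key : pp (wr φ k0 a i z.1 * pp (Qv a (vi i) z.2) -
        wr φ k1 a (!i) z.1 * pp (-Qv a (vo i) z.2)) * pp (bar a (vo i) z.2) ≤
      pp (Qv a (vi i) z.2) * T := by
    cases i
    · simp only [vi, vo, Bool.false_eq_true, if_false] at hS ⊢
      refine third_w (x := bar a 0 z.2) (u := bar a 2 z.2) (v := bar a 3 z.2) (by linarith)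
        (hp 0 2 (by decide)) (hp 0 3 (by decide)) (hp 1 2 (by decide)) (hp 1 3 (by decide))
        (hp 2 3 (by decide)) (hp 3 2 (by decide)) (hp 2 0 (by decide)) (hp 3 0 (by decide))
        ?_ ?_ d0 t1 hω hω1 t2 hS hS1 t3
      · rw [Qv_eq h]
        ring
      · rw [Qv_eq h, Qv_eq h]
        ring
    · simp only [vi, vo, if_true] at hS ⊢
      refine third_w (x := bar a 1 z.2) (u := bar a 2 z.2) (v := bar a 3 z.2) (by linarith)
        (hp 1 2 (by decide)) (hp 1 3 (by decide)) (hp 0 2 (by decide)) (hp 0 3 (by decide))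
        (hp 2 3 (by decide)) (hp 3 2 (by decide)) (hp 2 1 (by decide)) (hp 3 1 (by decide))
        ?_ ?_ d0 t1 hω hω1 t2 hS hS1 t3
      · rw [Qv_eq h]
        ring
      · rw [Qv_eq h, Qv_eq h]
        ring
  have n2 := (mul_le_mul_of_nonneg_right n1 (pp_nonneg (bar a (vo i) z.2))).trans key
  rw [wt_add]
  unfold ls3
  rw [div_mul_eq_mul_div, mul_one_div, ← mul_div_assoc]
  exact div_le_div_of_nonneg_right n2 hD.le

end pt

section sys
variable {φ : ℝ → ℝ} {a : Fin 4 → E3} {K : Set E3} {σ : Measure (E3 × E3)}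
  {κ : Fin 3 → Bool → Bool → ℝ}

/-- **third column of an arc** -/
theorem sM3_third [IsFiniteMeasure σ] (hφ : Prof φ) (ha : ∀ i j, i ≠ j → dist (a i) (a j) = 1)
    (h0 : ∀ m e i, 0 ≤ κ m e i) (h1 : ∀ m e i, κ m e i ≤ 1) (hK : IsCompact K)
    (hσ : ∀ᵐ z ∂σ, z.1 ∈ K ∧ z.2 ∈ K) (hp : ∀ x ∈ K, Pl a x) (m : Fin 3) (e i : Bool)
    {k0 k1 S ω T : ℝ} (hk0 : k0 ≤ κ m e i) (hk1 : κ m e (!i) ≤ k1) (hT : ThOK φ k0 k1 S ω T)
    (hT0 : 0 ≤ T) (hω : 0 < ω) (hω1 : ω ≤ 3 / 8) (hS1 : S ≤ 8 / 3 * ω ^ 2)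
    (hQ : ∀ x ∈ K, Qv a (vx m e i) x ≤ S) :
    pp (sM σ a (l3 φ κ a) m e i (vx m e (!i))) ≤ T *
      ((∫ z in EE a m e, wt (ap a m e) false z.1 ∂σ) +
        ∫ z in EE a m e, wt (ap a m e) true z.1 ∂σ) := by
  have hl := l3_ok (κ := κ) hφ ha h0 h1
  obtain ⟨C, hC⟩ := den_bdd ha hl hK hσ hp m e i
  have w0 := (cont_int hK hσ ((wt_cont (ap a m e) false).comp
    continuous_fst)).integrableOn (s := EE a m e)
  have w1 := (cont_int hK hσ ((wt_cont (ap a m e) true).comp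
    continuous_fst)).integrableOn (s := EE a m e)
  have h1' := thirdG (a := a) hK hσ (den_meas hl m e i) (den_nn hl m e i) hC (E := EE a m e)
    (W := fun x => wt (ap a m e) false x + wt (ap a m e) true x)
    ((wt_cont _ false).add (wt_cont _ true)) (D := T)
    (vx m e (!i)) (by
      filter_upwards [ae_restrict_of_ae hσ] with z hz
      have h2 := ls3_bar hφ (hgp ha m e) (κ := κ m e) i hk0 (h1 m e i) hk1 hT hω hω1 hS1
        (z := z) (Pl_perm _ (hp _ hz.1)) (Pl_perm _ (hp _ hz.2))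
        (by rw [Qv_vi]; exact hQ _ hz.2)
      have e2 : bar (ap a m e) (vo i) z.2 = bar a (vx m e (!i)) z.2 := by
        rw [vx_vo]
        exact bar_perm (pr m e) (vo i) z.2
      rw [e2, Qv_vi] at h2
      have hw : 0 ≤ wt (ap a m e) false z.1 + wt (ap a m e) true z.1 :=
        add_nonneg (wt_nonneg (hgp ha m e) _ (Pl_perm _ (hp _ hz.1)))
          (wt_nonneg (hgp ha m e) _ (Pl_perm _ (hp _ hz.1)))
      unfold den
      rcases eq_or_ne (pp (Qv a (vx m e i) z.2)) 0 with h3 | h3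
      · rw [h3, div_zero, zero_mul]
        exact mul_nonneg hT0 hw
      · have h4 : 0 < pp (Qv a (vx m e i) z.2) := lt_of_le_of_ne (pp_nonneg _) (Ne.symm h3)
        rw [div_mul_eq_mul_div, div_le_iff₀ h4]
        exact h2.trans (le_of_eq (by ring)))
  unfold sM
  refine h1'.trans (le_of_eq ?_)
  congr 1
  exact integral_add w0 w1

end sys

end Helper22.Cpd
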