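import Pool.Agent.Helper22.MEI.Lat
import Pool.Agent.Helper96.MEI.E2a

/-!
# Project MEI: the cylinder interface holds for admissible functions
-/

namespace Helper22.MEI

open Set MeasureTheory Real
open Helper96.MEI (z0 p0 kh lq rl Cyl z0_pos z0_sq p0_pos p0_lt cos_p0 lp_add_lq lp_nonneg
  lq_nonneg z0_lt_s mid_lens)

variable {f : ℝ × ℝ → ℝ}

theorem AA_tan {a : ℝ} (h : 0 < cos a) : AA (tan a) = 1 / cos a := by
  have h1 := Real.sin_sq_add_cos_sq a
  have e : 1 + tan a ^ 2 = (1 / cos a) ^ 2 := by
    rw [Real.tan_eq_sin_div_cos]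
    field_simp
    linarith
  unfold AA
  rw [e]
  exact Real.sqrt_sq (by positivity)

theorem NN_cu (z : ℝ) {a : ℝ} (h : 0 < cos a) : NN (cu z a) = √(1 + z ^ 2) / cos a := by
  have h1 := Real.sin_sq_add_cos_sq a
  have h2 : √(1 + z ^ 2) ^ 2 = 1 + z ^ 2 := Real.sq_sqrt (by positivity)
  have e : 1 + (cu z a).1 ^ 2 + (cu z a).2 ^ 2 = (√(1 + z ^ 2) / cos a) ^ 2 := by
    unfold cu
    simp only
    rw [Real.tan_eq_sin_div_cos, div_pow, div_pow, div_pow, h2]
    field_simp
    linarith
  unfold NN
  rw [e]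
  exact Real.sqrt_sq (by positivity)

theorem yi_tan {a : ℝ} (h : 0 < cos a) : yi (tan a) = z0 / cos a := by
  unfold yi z0
  rw [AA_tan h]
  field_simp

theorem cos_pos_p0 {a : ℝ} (ha : a ∈ Icc (-p0) p0) : 0 < cos a := cos_pos_Icc p0_lt ha

theorem tan_le_s {a : ℝ} (ha : a ∈ Icc (-p0) p0) : |tan a| ≤ s := by
  have h1 := p0_lt
  have e : arctan (tan a) = a := Real.arctan_tan (by linarith [ha.1]) (by linarith [ha.2])
  rw [abs_le]
  constructor
  · have : arctan (-s) ≤ arctan (tan a) := by
      rw [e, Real.arctan_neg]; exact ha.1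
    exact Real.arctan_strictMono.le_iff_le.1 this
  · have : arctan (tan a) ≤ arctan s := by
      rw [e]; exact ha.2
    exact Real.arctan_strictMono.le_iff_le.1 this

/-- `w` in cylinder coordinates -/
noncomputable def wF (f : ℝ × ℝ → ℝ) (a z : ℝ) : ℝ := hat (PP f) z a

noncomputable def wpF (f : ℝ × ℝ → ℝ) (a z : ℝ) : ℝ := hatp (PP f) z a

noncomputable def wzF (f : ℝ × ℝ → ℝ) (a z : ℝ) : ℝ := dY (PP f) (cu z a)

theorem dX_PP_cont (h : Adm f) : Continuous (dX (PP f)) := by
  have e : dX (PP f) = fun p => g0X p - dX f p := funext (dX_PP h)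
  rw [e]; exact g0X_cont.sub h.cX

theorem dY_PP_cont (h : Adm f) : Continuous (dY (PP f)) := by
  have e : dY (PP f) = fun p => g0Y p - dY f p := funext (dY_PP h)
  rw [e]; exact g0Y_cont.sub h.cY

theorem cu_cont2 : ContinuousOn (fun q : ℝ × ℝ => cu q.2 q.1) (Icc (-p0) p0 ×ˢ Icc (-s) s) := by
  unfold cu
  refine ContinuousOn.prodMk ?_ ?_
  · have e : (fun q : ℝ × ℝ => tan q.1) = fun q => sin q.1 / cos q.1 := by
      funext q; exact Real.tan_eq_sin_div_cos _
    rw [e]
    exact ContinuousOn.div (by fun_prop) (by fun_prop) fun q hq => (cos_pos_p0 hq.1).ne'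
  · exact ContinuousOn.div (by fun_prop) (by fun_prop) fun q hq => (cos_pos_p0 hq.1).ne'

theorem LXg (h : Adm f) : LipschitzWith 2 (dX (fun p => NN p - f p)) := by
  apply LipschitzWith.of_dist_le_mul
  intro p q
  have h1 := h.swap.LY.dist_le_mul (p.2, p.1) (q.2, q.1)
  rw [dY_sw h.diff, dY_sw h.diff] at h1
  rw [dX_Nsub h, dX_Nsub h]
  have e : dist (p.2, p.1) (q.2, q.1) = dist p q := by
    rw [Prod.dist_eq, Prod.dist_eq, max_comm]
  rw [e, NN_swap, NN_swap] at h1
  exact h1

theorem LYg (h : Adm f) : LipschitzWith 2 (dY (fun p => NN p - f p)) := by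
  apply LipschitzWith.of_dist_le_mul
  intro p q
  have h1 := h.swap.LX.dist_le_mul (p.2, p.1) (q.2, q.1)
  rw [dX_sw h.diff, dX_sw h.diff] at h1
  rw [dY_Nsub h, dY_Nsub h]
  have e : dist (p.2, p.1) (q.2, q.1) = dist p q := by
    rw [Prod.dist_eq, Prod.dist_eq, max_comm]
  rw [e, NN_swap, NN_swap] at h1
  exact h1

/-- the two descriptions of the test integral agree -/
theorem lat_key (h : Adm f) {b z κ ρ k : ℝ} (hb : b ∈ Icc 0 p0)
    (e1 : ∀ a, 0 < cos a → hat (PP f) z a = hat (fun p => NN p - f p) z a - κ - t * cos a)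
    (e2 : ∀ a, 0 < cos a →
      z * dY (PP f) (cu z a) = z * dY (fun p => NN p - f p) (cu z a) - ρ)
    (hk : κ - ρ = k) {v v' : ℝ → ℝ} (hv : ∀ a ∈ Icc (-b) b, HasDerivAt v (v' a) a)
    (hv' : ContinuousOn v' (Icc (-b) b)) (hnn : ∀ a ∈ Icc (-b) b, 0 ≤ v a)
    (hv1 : v (-b) = 0) (hv2 : v b = 0) :
    ∫ a in (-b)..b, (-wF f a z + z * wzF f a z - k) * v a ≤ -∫ a in (-b)..b, wpF f a z * v' a := by
  have hle : -b ≤ b := by linarith [hb.1]
  have hb' : b < π / 2 := lt_of_le_of_lt hb.2 p0_lt
  have hcos : ∀ a ∈ Icc (-b) b, 0 < cos a := fun a ha => cos_pos_Icc hb' ha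
  have key := lat h.diffN h.cvN (LXg h) (LYg h) hb.1 hb' hv hv' hnn hv1 hv2 (z := z)
  have hwp : ∀ a ∈ Icc (-b) b, wpF f a z = hatp (fun p => NN p - f p) z a + t * sin a := by
    intro a ha
    have hc := hcos a ha
    have d1 := hat_deriv (PP_diff h) z hc.ne'
    have d2 := ((hat_deriv h.diffN z hc.ne').sub_const κ).sub
      ((Real.hasDerivAt_cos a).const_mul t)
    have d3 : HasDerivAt (hat (PP f) z)
        (hatp (fun p => NN p - f p) z a - t * -sin a) a := by
      refine d2.congr_of_eventuallyEq ?_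
      have : ∀ᶠ r in nhds a, 0 < cos r := Real.continuous_cos.continuousAt.eventually
        (lt_mem_nhds hc)
      filter_upwards [this] with r hr using e1 r hr
    have := d1.unique d3
    unfold wpF
    rw [this]; ring
  have cv : ContinuousOn v (Icc (-b) b) := fun a ha => (hv a ha).continuousAt.continuousWithinAt
  have hcc : ContinuousOn (cu z) (Icc (-b) b) := fun a ha =>
    (cu_deriv z (hcos a ha).ne').continuousAt.continuousWithinAt
  have cX : ContinuousOn (fun a => dX (fun p => NN p - f p) (cu z a)) (Icc (-b) b) :=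
    (LXg h).continuous.comp_continuousOn hcc
  have cY : ContinuousOn (fun a => dY (fun p => NN p - f p) (cu z a)) (Icc (-b) b) :=
    (LYg h).continuous.comp_continuousOn hcc
  have cg : ContinuousOn (fun a => (fun p => NN p - f p) (cu z a)) (Icc (-b) b) :=
    h.diffN.continuous.comp_continuousOn hcc
  have ii : ∀ {u : ℝ → ℝ}, ContinuousOn u (Icc (-b) b) → IntervalIntegrable u volume (-b) b :=
    fun {u} hu => ContinuousOn.intervalIntegrable (by rwa [uIcc_of_le hle])
  have chp : ContinuousOn (fun a => hatp (fun p => NN p - f p) z a) (Icc (-b) b) := by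
    unfold hatp
    refine ContinuousOn.add (ContinuousOn.mul (by fun_prop) cg) (ContinuousOn.div (cX.add
      (ContinuousOn.mul (by fun_prop) cY)) (by fun_prop) fun a ha => (hcos a ha).ne')
  have ch : ContinuousOn (fun a => hat (fun p => NN p - f p) z a) (Icc (-b) b) :=
    ContinuousOn.mul (by fun_prop) cg
  have hsin : ∫ a in (-b)..b, sin a * v' a = -∫ a in (-b)..b, cos a * v a := by
    have h1 := intervalIntegral.integral_mul_deriv_eq_deriv_mul (a := -b) (b := b)
      (u := sin) (v := v) (u' := cos) (v' := v') (fun a _ => Real.hasDerivAt_sin a)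
      (fun a ha => hv a (by rwa [uIcc_of_le hle] at ha))
      (Real.continuous_cos.intervalIntegrable _ _) (ii hv')
    rw [h1, hv1, hv2]; ring
  have l1 : ∫ a in (-b)..b, (-wF f a z + z * wzF f a z - k) * v a =
      (∫ a in (-b)..b, (-hat (fun p => NN p - f p) z a
        + z * dY (fun p => NN p - f p) (cu z a)) * v a) + t * ∫ a in (-b)..b, cos a * v a := by
    rw [← intervalIntegral.integral_const_mul, ← intervalIntegral.integral_add]
    · refine intervalIntegral.integral_congr fun a ha => ?_
      rw [uIcc_of_le hle] at ha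
      simp only [wF, wzF]
      rw [e1 a (hcos a ha), e2 a (hcos a ha), ← hk]
      ring
    · exact ii ((ch.neg.add (continuousOn_const.mul cY)).mul cv)
    · exact ii (continuousOn_const.mul (ContinuousOn.mul (by fun_prop) cv))
  have l2 : ∫ a in (-b)..b, wpF f a z * v' a =
      (∫ a in (-b)..b, hatp (fun p => NN p - f p) z a * v' a) + t * ∫ a in (-b)..b, sin a * v' a := by
    rw [← intervalIntegral.integral_const_mul, ← intervalIntegral.integral_add]
    · refine intervalIntegral.integral_congr fun a ha => ?_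
      rw [uIcc_of_le hle] at ha
      show wpF f a z * v' a = hatp (fun p => NN p - f p) z a * v' a + t * (sin a * v' a)
      rw [hwp a ha]
      ring
    · exact ii (chp.mul hv')
    · exact ii (continuousOn_const.mul (ContinuousOn.mul (by fun_prop) hv'))
  rw [l1, l2, hsin]
  linarith

theorem cyl_of_adm (h : Adm f) : Cyl (wF f) (wpF f) (wzF f) where
  dp := fun a ha z _ => hat_deriv (PP_diff h) z (cos_pos_p0 ha).ne'
  cw := (by fun_prop : ContinuousOn (fun q : ℝ × ℝ => cos q.1) _).mul
    ((PP_cont h).comp_continuousOn cu_cont2)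
  cp := by
    have c1 := (PP_cont h).comp_continuousOn cu_cont2
    have c2 := (dX_PP_cont h).comp_continuousOn cu_cont2
    have c3 := (dY_PP_cont h).comp_continuousOn cu_cont2
    refine ContinuousOn.add (ContinuousOn.mul (by fun_prop) c1) (ContinuousOn.div (c2.add
      (ContinuousOn.mul (by fun_prop) c3)) (by fun_prop) fun q hq => (cos_pos_p0 hq.1).ne')
  cz := (dY_PP_cont h).comp_continuousOn cu_cont2
  nn := fun a ha z _ => mul_nonneg (cos_pos_p0 ha).le (PP_nonneg h (tan_le_s ha))
  b1 := by
    intro z hz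
    have hp : p0 ∈ Icc (-p0) p0 := ⟨by linarith [p0_pos], le_rfl⟩
    have hm : -p0 ∈ Icc (-p0) p0 := ⟨le_rfl, by linarith [p0_pos]⟩
    have hc := cos_pos_p0 hp
    have ht : tan p0 = s := Real.tan_arctan s
    have hzz : |z / cos p0| ≤ s := by
      rw [abs_div, abs_of_pos hc, div_le_iff₀ hc, cos_p0]
      exact abs_le.2 hz
    constructor
    · unfold wF hat cu
      rw [PP_bX h (by show |tan p0| = s; rw [ht]; exact abs_of_pos s_pos) hzz, mul_zero]
    · unfold wF hat cu
      rw [PP_bX h (by show |tan (-p0)| = s; rw [Real.tan_neg, ht, abs_neg]; exact abs_of_pos s_pos)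
        (by show |z / cos (-p0)| ≤ s; rw [Real.cos_neg]; exact hzz), mul_zero]
  b2 := by
    intro a ha z hz
    have hc := cos_pos_p0 ha
    have : |z / cos a| = s := by
      rw [abs_div, hz, abs_of_pos hc]; field_simp
    unfold wF hat cu
    rw [PP_bY h this (tan_le_s ha), mul_zero]
  cc := by
    intro a ha z hz
    have hc := cos_pos_p0 ha
    have hconc := PP_mid_concave h (tan a)
    rw [yi_tan hc] at hconc
    have hz0 := z0_pos
    have hq : 0 ≤ z0 / cos a := by positivity
    have h1 := hconc.2 (x := z0 / cos a) ⟨by linarith, le_rfl⟩ (y := -(z0 / cos a))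
      ⟨le_rfl, by linarith⟩ (lp_nonneg hz) (lq_nonneg hz) (lp_add_lq z)
    have e : Helper96.MEI.lp z • (z0 / cos a) + lq z • (-(z0 / cos a)) = z / cos a := by
      simp only [smul_eq_mul, Helper96.MEI.lp, lq]
      field_simp
      ring
    rw [e] at h1
    unfold rl wF hat cu
    simp only [smul_eq_mul] at h1
    have h2 := mul_le_mul_of_nonneg_left h1 hc.le
    rw [show -z0 / cos a = -(z0 / cos a) by ring]
    linarith
  lm := by
    intro z hz v v' hv hv' hnn h1 h2
    have hn : 0 < √(1 + z ^ 2) := Real.sqrt_pos.2 (by positivity)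
    have hn2 : √(1 + z ^ 2) ^ 2 = 1 + z ^ 2 := Real.sq_sqrt (by positivity)
    have hzz : |z| ≤ z0 := abs_le.2 hz
    have hmid : ∀ a, 0 < cos a → |z / cos a| ≤ yi (tan a) := by
      intro a ha
      rw [abs_div, abs_of_pos ha, yi_tan ha]
      exact div_le_div_of_nonneg_right hzz ha.le
    refine lat_key h (κ := √(1 + z ^ 2) - c3) (ρ := z ^ 2 / √(1 + z ^ 2))
      ⟨p0_pos.le, le_rfl⟩ ?_ ?_ ?_ hv hv' hnn h1 h2
    · intro a ha
      have e0 := f0_mid (hmid a ha)
      have e3 := NN_cu z ha
      unfold hat PP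
      simp only
      rw [e3]
      unfold cu
      rw [e0, AA_tan ha]
      field_simp
      ring
    · intro a ha
      rw [dY_PP h, dY_Nsub h, NN_cu z ha]
      have : g0Y (cu z a) = 0 := by
        unfold g0Y
        exact if_pos (mid_iff.2 (hmid a ha))
      rw [this]
      unfold cu
      simp only
      field_simp
      ring
    · unfold kh
      field_simp
      linarith
  ll := by
    intro b hb z hz v v' hv hv' hnn h1 h2
    have hb2 : b ∈ Icc (-p0) p0 := ⟨by linarith [hb.1, p0_pos], hb.2⟩
    have hzz : z0 ≤ |z| := by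
      rw [hz, ← cos_p0]
      exact mul_le_mul_of_nonneg_left (Helper96.MEI.cos_le_cos_p0 hb2) s_pos.le
    have hz0 := z0_pos
    have hz02 := z0_sq
    have hzh : 1 / 2 ≤ |z| := by nlinarith
    have hlens : ∀ a, 0 < cos a → yi (tan a) ≤ |z / cos a| := by
      intro a ha
      rw [abs_div, abs_of_pos ha, yi_tan ha]
      exact div_le_div_of_nonneg_right hzz ha.le
    have hlat := lat_key h (κ := |z| / 2) (ρ := |z| / 2) (k := 0) (z := z)
      hb ?_ ?_ (by ring) hv hv' hnn h1 h2
    · simpa only [sub_zero] using hlat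
    · intro a ha
      have e0 := f0_lens (hlens a ha)
      unfold hat PP
      unfold cu
      rw [e0, abs_div, abs_of_pos ha]
      field_simp
      ring
    · intro a ha
      rw [dY_PP h, dY_Nsub h]
      have hcz : 1 / 2 ≤ |z / cos a| := by
        rw [abs_div, abs_of_pos ha]
        have := Real.cos_le_one a
        rw [le_div_iff₀ ha]
        nlinarith
      have hY : z * g0Y (cu z a) = z * ((cu z a).2 / NN (cu z a)) - |z| / 2 := by
        unfold g0Y
        split_ifs with hc
        · have hm := mid_iff.1 hc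
          have he : |z / cos a| = yi (tan a) := le_antisymm hm (hlens a ha)
          have h3 : 3 * (cu z a).2 ^ 2 = 1 + (cu z a).1 ^ 2 := by
            show 3 * (z / cos a) ^ 2 = 1 + tan a ^ 2
            rw [← sq_abs, he, yi_sq]
          rw [(iface h3).1]
          unfold cu
          simp only
          rw [abs_div, abs_of_pos ha]
          have hz1 : 0 < |z| := by linarith
          have hzsq : z ^ 2 = |z| ^ 2 := (sq_abs z).symm
          field_simp
          rw [hzsq]
          ring
        · have h4 : sg (z / cos a) * (z / cos a) = |z / cos a| := sg_mul hcz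
          rw [abs_div, abs_of_pos ha] at h4
          have h5 : sg (z / cos a) * z = |z| := by
            field_simp at h4
            linarith
          unfold cu at *
          simp only
          rw [mul_sub]
          rw [← h5]
          ring
      rw [mul_sub, hY]
      ring

end Helper22.MEI
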