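import Pool.Agent.Helper22.MEI.Sig
import Pool.Agent.Helper14.CW.Decomp

/-!
# Project MEI, all bodies: walls are null, decomposition into cells
-/

namespace Helper22.Sig

open Set MeasureTheory Filter Topology Metric
open Helper80.CW Helper82.CW Helper22.Wedge
open scoped RealInnerProductSpace

theorem plane_null {ν : E3} (hν : ν ≠ 0) (c : ℝ) : volume {x : E3 | ⟪ν, x⟫ = c} = 0 := by
  set x0 : E3 := (c / ‖ν‖ ^ 2) • ν with hx0
  have hn : 0 < ‖ν‖ := norm_pos_iff.2 hν
  have h0 : ⟪ν, x0⟫ = c := by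
    rw [hx0, real_inner_smul_right, real_inner_self_eq_norm_sq]
    field_simp
  have h1 := Helper14.CW.null_plane hν
  have h2 : {x : E3 | ⟪ν, x⟫ = c} = (fun x => x - x0) ⁻¹' {x : E3 | ⟪ν, x⟫ = 0} := by
    ext x
    simp only [mem_setOf_eq, mem_preimage, inner_sub_right, h0]
    constructor <;> intro h <;> linarith
  rw [h2]
  have h3 : MeasurePreserving (fun x : E3 => x - x0) volume volume :=
    measurePreserving_sub_right volume x0
  rw [h3.measure_preimage]
  · exact h1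
  · exact (isClosed_eq (by fun_prop) continuous_const).measurableSet.nullMeasurableSet

/-- the boundary points on a plane through the interior are negligible -/
theorem wall_null {σ : Measure (E3 × E3)} [IsFiniteMeasure σ] {K : Set E3} (hK : IsCompact K)
    (hσ : ∀ᵐ z ∂σ, z.1 ∈ K ∧ z.2 ∈ K) {n : ℕ∞} (hn : 1 ≤ n)
    (hU : ∀ G : E3 → E3, ContDiff ℝ n G → ∫ z, ⟪G z.1, z.1 - z.2⟫ ∂σ = ∫ x in K, dvg G x)
    {ν : E3} (hν : ν ≠ 0) {c : ℝ} {a : E3} (ha : ⟪ν, a⟫ = c) {r : ℝ} (hr : 0 < r)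
    (hpos : ∀ᵐ z ∂σ, r ≤ ⟪z.1 - a, z.1 - z.2⟫) :
    σ {z | ⟪ν, z.1⟫ = c} = 0 := by
  have hKm : MeasurableSet K := hK.isClosed.measurableSet
  set G : E3 → E3 := fun y => (1 : ℝ) • (y - a) with hG
  have hGn : ContDiff ℝ n G := by
    rw [hG]; fun_prop
  have hGi : ∀ y, G y = y - a := fun y => one_smul ℝ _
  have hd : ∀ x, dvg G x = 3 := fun x => by rw [hG, dvg_radial]; norm_num
  have h1 := S2_cell (ι := Unit) hK hσ hn hU (fun _ => ν) (fun _ => c) hGn (by
    intro _ x hx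
    rw [hGi, inner_sub_right, hx, ha, sub_self])
  have h2 := S2_cell (ι := Unit) hK hσ hn hU (fun _ => -ν) (fun _ => -c) hGn (by
    intro _ x hx
    rw [inner_neg_left, neg_inj] at hx
    rw [hGi, inner_neg_left, inner_sub_right, hx, ha, sub_self, neg_zero])
  have h0 := hU G hGn
  have s1 : Cel (fun _ : Unit => ν) (fun _ => c) = {x | c < ⟪ν, x⟫} := by
    ext x; simp [Cel]
  have s2 : Cel (fun _ : Unit => -ν) (fun _ => -c) = {x | ⟪ν, x⟫ < c} := by
    ext x; simp [Cel, inner_neg_left]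
  rw [s1] at h1
  rw [s2] at h2
  -- integrability
  have hc1 : Continuous (fun z : E3 × E3 => ⟪G z.1, z.1 - z.2⟫) := by
    have : Continuous G := hGn.continuous
    fun_prop
  obtain ⟨B1, hB1⟩ := (hK.prod hK).bddAbove_image (hc1.abs).continuousOn
  have hb1 : ∀ᵐ z ∂σ, ‖⟪G z.1, z.1 - z.2⟫‖ ≤ B1 := by
    filter_upwards [hσ] with z hz
    exact hB1 ⟨z, ⟨hz.1, hz.2⟩, rfl⟩
  have hint : Integrable (fun z : E3 × E3 => ⟪G z.1, z.1 - z.2⟫) σ :=
    (integrable_const B1).mono' hc1.aestronglyMeasurable hb1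
  have mp : MeasurableSet {z : E3 × E3 | z.1 ∈ {x | c < ⟪ν, x⟫}} :=
    (isOpen_lt continuous_const (by fun_prop : Continuous fun z : E3 × E3 => ⟪ν, z.1⟫)).measurableSet
  have mn : MeasurableSet {z : E3 × E3 | z.1 ∈ {x | ⟪ν, x⟫ < c}} :=
    (isOpen_lt (by fun_prop : Continuous fun z : E3 × E3 => ⟪ν, z.1⟫) continuous_const).measurableSet
  have me : MeasurableSet {z : E3 × E3 | ⟪ν, z.1⟫ = c} :=
    (isClosed_eq (by fun_prop : Continuous fun z : E3 × E3 => ⟪ν, z.1⟫) continuous_const).measurableSet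
  -- splitting of both sides
  have hsplit : ∫ z, ⟪G z.1, z.1 - z.2⟫ ∂σ
      = (∫ z in {z : E3 × E3 | z.1 ∈ {x | c < ⟪ν, x⟫}}, ⟪G z.1, z.1 - z.2⟫ ∂σ)
        + (∫ z in {z : E3 × E3 | z.1 ∈ {x | ⟪ν, x⟫ < c}}, ⟪G z.1, z.1 - z.2⟫ ∂σ)
        + ∫ z in {z : E3 × E3 | ⟪ν, z.1⟫ = c}, ⟪G z.1, z.1 - z.2⟫ ∂σ := by
    have hu : (univ : Set (E3 × E3)) = ({z : E3 × E3 | z.1 ∈ {x | c < ⟪ν, x⟫}}
        ∪ {z : E3 × E3 | z.1 ∈ {x | ⟪ν, x⟫ < c}}) ∪ {z : E3 × E3 | ⟪ν, z.1⟫ = c} := by
      ext z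
      simp only [mem_univ, mem_union, mem_setOf_eq, true_iff]
      rcases lt_trichotomy (⟪ν, z.1⟫) c with h | h | h
      · exact Or.inl (Or.inr h)
      · exact Or.inr h
      · exact Or.inl (Or.inl h)
    rw [← setIntegral_univ, hu, setIntegral_union, setIntegral_union]
    · rw [disjoint_left]
      intro z h1 h2
      simp only [mem_setOf_eq] at h1 h2
      linarith
    · exact mn
    · exact hint.integrableOn
    · exact hint.integrableOn
    · rw [disjoint_left]
      intro z h1 h2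
      simp only [mem_union, mem_setOf_eq] at h1 h2
      rcases h1 with h1 | h1 <;> linarith
    · exact me
    · exact hint.integrableOn
    · exact hint.integrableOn
  have hvK : volume K ≠ ⊤ := hK.measure_lt_top.ne
  have hvol : ∫ x in K, dvg G x = (∫ x in K ∩ {x | c < ⟪ν, x⟫}, dvg G x)
      + ∫ x in K ∩ {x | ⟪ν, x⟫ < c}, dvg G x := by
    have hae : K =ᵐ[volume] ((K ∩ {x | c < ⟪ν, x⟫}) ∪ (K ∩ {x | ⟪ν, x⟫ < c}) : Set E3) := by
      have hp : ∀ᵐ x : E3, ⟪ν, x⟫ ≠ c := by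
        rw [ae_iff]
        simpa using plane_null hν c
      filter_upwards [hp] with x hx
      apply propext
      show x ∈ K ↔ x ∈ (K ∩ {x | c < ⟪ν, x⟫}) ∪ (K ∩ {x | ⟪ν, x⟫ < c})
      simp only [mem_union, mem_inter_iff, mem_setOf_eq]
      constructor
      · intro h
        rcases lt_or_gt_of_ne hx with h' | h'
        · exact Or.inr ⟨h, h'⟩
        · exact Or.inl ⟨h, h'⟩
      · rintro (h | h) <;> exact h.1
    rw [setIntegral_congr_set hae, setIntegral_union]
    · rw [disjoint_left]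
      rintro x ⟨-, h1⟩ ⟨-, h2⟩
      simp only [mem_setOf_eq] at h1 h2
      linarith
    · exact hKm.inter (isOpen_lt (by fun_prop) continuous_const).measurableSet
    · rw [funext hd]
      exact integrableOn_const (ne_top_of_le_ne_top hvK (measure_mono inter_subset_left))
    · rw [funext hd]
      exact integrableOn_const (ne_top_of_le_ne_top hvK (measure_mono inter_subset_left))
  have hz : ∫ z in {z : E3 × E3 | ⟪ν, z.1⟫ = c}, ⟪G z.1, z.1 - z.2⟫ ∂σ = 0 := by
    rw [hsplit, h1, h2, hvol] at h0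
    linarith
  have hge : r * (σ.real {z | ⟪ν, z.1⟫ = c}) ≤ 0 := by
    rw [← hz]
    have h3 : ∫ z in {z : E3 × E3 | ⟪ν, z.1⟫ = c}, r ∂σ
        ≤ ∫ z in {z : E3 × E3 | ⟪ν, z.1⟫ = c}, ⟪G z.1, z.1 - z.2⟫ ∂σ := by
      refine setIntegral_mono_ae (integrable_const r).integrableOn hint.integrableOn ?_
      filter_upwards [hpos] with z hz
      rw [hGi]; exact hz
    rw [setIntegral_const, smul_eq_mul, mul_comm] at h3
    exact h3
  have h4 : σ.real {z | ⟪ν, z.1⟫ = c} = 0 := by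
    have h5 : 0 ≤ σ.real {z | ⟪ν, z.1⟫ = c} := measureReal_nonneg
    nlinarith
  rwa [measureReal_eq_zero_iff] at h4

/-! ### decomposition by sign patterns of four functions -/

section
variable {Ω : Type*} [MeasurableSpace Ω] {m : Measure Ω}

/-- cell of the points where exactly the functions of `S` are negative -/
def pat (b : Fin 4 → Ω → ℝ) (S : Finset (Fin 4)) : Set Ω :=
  {x | (∀ j ∈ S, b j x < 0) ∧ ∀ j ∉ S, 0 < b j x}

theorem pat_meas {b : Fin 4 → Ω → ℝ} (hb : ∀ j, Measurable (b j)) (S : Finset (Fin 4)) :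
    MeasurableSet (pat b S) := by
  have h1 : pat b S = (⋂ j, {x | j ∈ S → b j x < 0}) ∩ ⋂ j, {x | j ∉ S → 0 < b j x} := by
    ext x
    simp [pat]
  rw [h1]
  refine (MeasurableSet.iInter fun j => ?_).inter (MeasurableSet.iInter fun j => ?_)
  · by_cases h : j ∈ S
    · simp only [h, true_imp_iff]; exact measurableSet_lt (hb j) measurable_const
    · simp only [h, false_imp_iff, setOf_true]; exact MeasurableSet.univ
  · by_cases h : j ∉ S
    · simp only [h, not_false_eq_true, true_imp_iff]; exact measurableSet_lt measurable_const (hb j)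
    · simp only [h, false_imp_iff, setOf_true]; exact MeasurableSet.univ

theorem pat_disj {b : Fin 4 → Ω → ℝ} {S S' : Finset (Fin 4)} (h : S ≠ S') :
    Disjoint (pat b S) (pat b S') := by
  rw [disjoint_left]
  rintro x ⟨h1, h2⟩ ⟨h3, h4⟩
  apply h
  ext j
  constructor
  · intro hj
    by_contra hj'
    linarith [h1 j hj, h4 j hj']
  · intro hj
    by_contra hj'
    linarith [h3 j hj, h2 j hj']

/-- decomposition into all sixteen cells -/
theorem int_pat {b : Fin 4 → Ω → ℝ} (hb : ∀ j, Measurable (b j))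
    (hne : ∀ᵐ x ∂m, ∀ j, b j x ≠ 0) {φ : Ω → ℝ} (hφ : Integrable φ m) :
    ∫ x, φ x ∂m = ∑ S : Finset (Fin 4), ∫ x in pat b S, φ x ∂m := by
  have h1 : (⋃ S : Finset (Fin 4), pat b S) =ᵐ[m] (univ : Set Ω) := by
    rw [eventuallyEq_univ]
    filter_upwards [hne] with x hx
    classical
    refine mem_iUnion.2 ⟨Finset.univ.filter fun j => b j x < 0, ?_, ?_⟩
    · intro j hj
      exact (Finset.mem_filter.1 hj).2
    · intro j hj
      have h2 : ¬ b j x < 0 := fun h => hj (Finset.mem_filter.2 ⟨Finset.mem_univ _, h⟩)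
      exact lt_of_le_of_ne (not_lt.1 h2) (hx j).symm
  rw [← setIntegral_univ, ← setIntegral_congr_set h1, integral_iUnion_fintype (pat_meas hb)
    (fun S S' h => pat_disj h) (fun S => hφ.integrableOn)]

end

end Helper22.Sig
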