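import Pool.Agent.Helper22.MEI.Def

/-!
# Derivatives of `f0`
-/

namespace Helper22.MEI

open Set MeasureTheory Filter Topology

/-- a continuous function which is the sign for `|y| ≥ 1/2` -/
noncomputable def sg (y : ℝ) : ℝ := max (-1) (min 1 (2 * y))

theorem sg_cont : Continuous sg := by unfold sg; fun_prop

theorem sg_pos {y : ℝ} (h : 1 / 2 ≤ y) : sg y = 1 := by
  unfold sg; rw [min_eq_left (by linarith), max_eq_right (by norm_num)]

theorem sg_neg {y : ℝ} (h : y ≤ -(1 / 2)) : sg y = -1 := by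
  unfold sg; rw [min_eq_right (by linarith), max_eq_left (by linarith)]

theorem half_lt {p : ℝ × ℝ} (h : 1 + p.1 ^ 2 ≤ 3 * p.2 ^ 2) : 1 / 2 < |p.2| := by
  have h2 : 1 ≤ 3 * |p.2| ^ 2 := by rw [sq_abs]; nlinarith [sq_nonneg p.1]
  by_contra hc
  push Not at hc
  nlinarith [abs_nonneg p.2]

theorem sg_mul {y : ℝ} (h : 1 / 2 ≤ |y|) : sg y * y = |y| := by
  rcases le_abs'.1 h with h1 | h1
  · rw [sg_neg h1, abs_of_neg (by linarith)]; ring
  · rw [sg_pos h1, abs_of_pos (by linarith)]; ring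

theorem sg_sq {y : ℝ} (h : 1 / 2 ≤ |y|) : sg y * sg y = 1 := by
  rcases le_abs'.1 h with h1 | h1
  · rw [sg_neg h1]; ring
  · rw [sg_pos h1]; ring

/-- partial derivatives of `f0` -/
noncomputable def g0X (p : ℝ × ℝ) : ℝ :=
  if 3 * p.2 ^ 2 ≤ 1 + p.1 ^ 2 then c3 * p.1 / AA p.1 else p.1 / NN p

noncomputable def g0Y (p : ℝ × ℝ) : ℝ :=
  if 3 * p.2 ^ 2 ≤ 1 + p.1 ^ 2 then 0 else p.2 / NN p - sg p.2 / 2

theorem ite_hasFDerivAt {φ1 φ2 : ℝ × ℝ → ℝ} {L : ℝ × ℝ →L[ℝ] ℝ} {p : ℝ × ℝ}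
    (c : ℝ × ℝ → Prop) [DecidablePred c] (h1 : HasFDerivAt φ1 L p) (h2 : HasFDerivAt φ2 L p)
    (e : φ1 p = φ2 p) : HasFDerivAt (fun x => if c x then φ1 x else φ2 x) L p := by
  rw [hasFDerivAt_iff_isLittleO] at *
  have hv : (if c p then φ1 p else φ2 p) = φ1 p := by split_ifs <;> simp [e]
  rw [Asymptotics.isLittleO_iff] at *
  intro r hr
  filter_upwards [h1 hr, h2 hr] with x hx1 hx2
  rw [hv]
  split_ifs
  · exact hx1
  · rw [e]; exact hx2

theorem AA_hasDerivAt (x : ℝ) : HasDerivAt AA (x / AA x) x := by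
  have h : HasDerivAt (fun x : ℝ => 1 + x ^ 2) (2 * x) x := by
    have := (hasDerivAt_pow 2 x).const_add 1
    simpa using this
  have h2 := h.sqrt (by positivity)
  refine h2.congr_deriv ?_
  rw [mul_div_mul_left _ _ two_ne_zero]
  rfl

theorem NN_hasFDerivAt (p : ℝ × ℝ) : HasFDerivAt NN
    ((p.1 / NN p) • ContinuousLinearMap.fst ℝ ℝ ℝ + (p.2 / NN p) • ContinuousLinearMap.snd ℝ ℝ ℝ)
    p := by
  have h1 : HasFDerivAt (fun q : ℝ × ℝ => q.1) (ContinuousLinearMap.fst ℝ ℝ ℝ) p :=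
    hasFDerivAt_fst
  have h2 : HasFDerivAt (fun q : ℝ × ℝ => q.2) (ContinuousLinearMap.snd ℝ ℝ ℝ) p :=
    hasFDerivAt_snd
  have h3 := ((h1.pow 2).const_add 1).add (h2.pow 2)
  have h4 := h3.sqrt (x := p) (by
    show 1 + p.1 ^ 2 + p.2 ^ 2 ≠ 0
    positivity)
  have hN := NN_ne p
  refine (h4.congr_fderiv ?_)
  ext
  · simp [NN]
    field_simp
  · simp [NN]
    field_simp

theorem phi1_fd (p : ℝ × ℝ) : HasFDerivAt (fun q : ℝ × ℝ => c3 * AA q.1 - t)
    ((c3 * p.1 / AA p.1) • ContinuousLinearMap.fst ℝ ℝ ℝ) p := by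
  have h1 : HasFDerivAt (fun q : ℝ × ℝ => q.1) (ContinuousLinearMap.fst ℝ ℝ ℝ) p :=
    hasFDerivAt_fst
  have h2 := (((AA_hasDerivAt p.1).comp_hasFDerivAt p h1).const_mul c3).sub_const t
  refine h2.congr_fderiv ?_
  ext
  · simp; ring
  · simp

theorem phi2_fd (p : ℝ × ℝ) (h : 1 / 2 < |p.2|) :
    HasFDerivAt (fun q : ℝ × ℝ => NN q - |q.2| / 2 - t)
    ((p.1 / NN p) • ContinuousLinearMap.fst ℝ ℝ ℝ
      + (p.2 / NN p - sg p.2 / 2) • ContinuousLinearMap.snd ℝ ℝ ℝ) p := by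
  have h2 : HasFDerivAt (fun q : ℝ × ℝ => q.2) (ContinuousLinearMap.snd ℝ ℝ ℝ) p :=
    hasFDerivAt_snd
  have ha : HasDerivAt (fun y : ℝ => |y|) (sg p.2) p.2 := by
    rcases lt_abs.1 h with h1 | h1
    · rw [sg_pos h1.le]; exact hasDerivAt_abs_pos (by linarith)
    · rw [sg_neg (by linarith)]; exact hasDerivAt_abs_neg (by linarith)
  have h3 := ((NN_hasFDerivAt p).sub ((ha.comp_hasFDerivAt p h2).mul_const (1 / 2))).sub_const t
  have h4 : (fun q : ℝ × ℝ => NN q - |q.2| / 2 - t)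
      = (fun q : ℝ × ℝ => NN q - ((fun y : ℝ => |y|) ∘ fun q : ℝ × ℝ => q.2) q * (1 / 2) - t) := by
    ext q; simp only [Function.comp]; ring
  rw [h4]
  refine h3.congr_fderiv ?_
  ext
  · simp
  · simp; ring

theorem f0_fd (p : ℝ × ℝ) : HasFDerivAt f0
    (g0X p • ContinuousLinearMap.fst ℝ ℝ ℝ + g0Y p • ContinuousLinearMap.snd ℝ ℝ ℝ) p := by
  have hc1 : Continuous fun q : ℝ × ℝ => 3 * q.2 ^ 2 := by fun_prop
  have hc2 : Continuous fun q : ℝ × ℝ => 1 + q.1 ^ 2 := by fun_prop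
  rcases lt_trichotomy (3 * p.2 ^ 2) (1 + p.1 ^ 2) with h | h | h
  · have e : f0 =ᶠ[𝓝 p] fun q => c3 * AA q.1 - t := by
      filter_upwards [(isOpen_lt hc1 hc2).mem_nhds h] with q hq
      unfold f0
      rw [if_pos (le_of_lt hq)]
    have := (phi1_fd p).congr_of_eventuallyEq e
    refine this.congr_fderiv ?_
    unfold g0X g0Y
    rw [if_pos h.le, if_pos h.le]
    simp
  · have h1 := phi1_fd p
    have h2 := phi2_fd p (half_lt h.ge)
    obtain ⟨e1, e2⟩ := iface h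
    have hy : 1 / 2 < |p.2| := half_lt h.ge
    have hy0 : |p.2| ≠ 0 := by linarith
    have h3 : HasFDerivAt (fun q : ℝ × ℝ => c3 * AA q.1 - t)
        (g0X p • ContinuousLinearMap.fst ℝ ℝ ℝ + g0Y p • ContinuousLinearMap.snd ℝ ℝ ℝ) p := by
      refine h1.congr_fderiv ?_
      unfold g0X g0Y
      rw [if_pos h.le, if_pos h.le]
      simp
    have h4 : HasFDerivAt (fun q : ℝ × ℝ => NN q - |q.2| / 2 - t)
        (g0X p • ContinuousLinearMap.fst ℝ ℝ ℝ + g0Y p • ContinuousLinearMap.snd ℝ ℝ ℝ) p := by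
      refine h2.congr_fderiv ?_
      unfold g0X g0Y
      rw [if_pos h.le, if_pos h.le, e1, e2]
      have z : p.2 / (2 * |p.2|) - sg p.2 / 2 = 0 := by
        have := sg_mul hy.le
        have h5 : p.2 = sg p.2 * |p.2| := by
          rw [← this, ← mul_assoc, sg_sq hy.le, one_mul]
        field_simp
        linarith
      rw [z]
      congr 2
      unfold c3
      have h3 : √3 ≠ 0 := by positivity
      field_simp
    exact ite_hasFDerivAt _ h3 h4 (iface_val h)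
  · have e : f0 =ᶠ[𝓝 p] fun q => NN q - |q.2| / 2 - t := by
      filter_upwards [(isOpen_lt hc2 hc1).mem_nhds h] with q hq
      unfold f0
      rw [if_neg (not_le.2 hq)]
    have := (phi2_fd p (half_lt h.le)).congr_of_eventuallyEq e
    refine this.congr_fderiv ?_
    unfold g0X g0Y
    rw [if_neg (not_le.2 h), if_neg (not_le.2 h)]

theorem f0_diff : Differentiable ℝ f0 := fun p => (f0_fd p).differentiableAt

theorem dX_f0 (p : ℝ × ℝ) : dX f0 p = g0X p := by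
  unfold dX
  rw [(f0_fd p).fderiv]
  simp

theorem dY_f0 (p : ℝ × ℝ) : dY f0 p = g0Y p := by
  unfold dY
  rw [(f0_fd p).fderiv]
  simp

theorem g0X_cont : Continuous g0X := by
  unfold g0X
  refine Continuous.if_le ?_ ?_ ?_ ?_ ?_
  · exact ((continuous_const.mul continuous_fst).div (AA_cont.comp continuous_fst)
      (fun p => AA_ne p.1))
  · exact continuous_fst.div NN_cont NN_ne
  · fun_prop
  · fun_prop
  · intro p h
    obtain ⟨e1, e2⟩ := iface h
    rw [e1, e2]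
    have hy : 1 / 2 < |p.2| := half_lt h.ge
    have hy0 : |p.2| ≠ 0 := by linarith
    have h3 : √3 ≠ 0 := by positivity
    unfold c3
    field_simp

theorem g0Y_cont : Continuous g0Y := by
  unfold g0Y
  refine Continuous.if_le ?_ ?_ ?_ ?_ ?_
  · fun_prop
  · exact (continuous_snd.div NN_cont NN_ne).sub ((sg_cont.comp continuous_snd).div_const 2)
  · fun_prop
  · fun_prop
  · intro p h
    obtain ⟨e1, e2⟩ := iface h
    rw [e1]
    have hy : 1 / 2 < |p.2| := half_lt h.ge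
    have hy0 : |p.2| ≠ 0 := by linarith
    have h5 : p.2 = sg p.2 * |p.2| := by
      rw [← sg_mul hy.le, ← mul_assoc, sg_sq hy.le, one_mul]
    have z : p.2 / (2 * |p.2|) - sg p.2 / 2 = 0 := by
      field_simp
      linarith
    exact z.symm

end Helper22.MEI
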