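import Pool.Agent.Helper22.MEI.Hess

/-!
# Project MEI: divergence theorem for Lipschitz fields on the square
-/

namespace Helper22.MEI

open Set MeasureTheory

variable {F G : ℝ × ℝ → ℝ}

/-- the closed square -/
noncomputable def CQ : Set (ℝ × ℝ) := Icc (-s) s ×ˢ Icc (-s) s

theorem CQ_compact : IsCompact CQ := isCompact_Icc.prod isCompact_Icc

theorem SQ_open : IsOpen SQ := isOpen_Ioo.prod isOpen_Ioo

theorem SQ_CQ : SQ ⊆ CQ := SQ_sub

theorem lipOn_of_loc (h : LocallyLipschitz F) : ∃ K, LipschitzOnWith K F CQ :=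
  (h.locallyLipschitzOn (s := CQ)).exists_lipschitzOnWith_of_compact CQ_compact

theorem lip_ae {K : NNReal} (h : LipschitzOnWith K F CQ) :
    ∀ᵐ p : ℝ × ℝ, p ∈ SQ → DifferentiableAt ℝ F p := by
  filter_upwards [h.ae_differentiableWithinAt_of_mem (μ := volume)] with p hp hs
  exact (hp (SQ_CQ hs)).differentiableAt
    (Filter.mem_of_superset (SQ_open.mem_nhds hs) SQ_CQ)

theorem fd_bound {K : NNReal} (h : LipschitzOnWith K F CQ) {p : ℝ × ℝ} (hp : p ∈ SQ) (v : ℝ × ℝ) :
    |fderiv ℝ F p v| ≤ K * ‖v‖ := by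
  have h1 : ‖fderiv ℝ F p‖ ≤ K := norm_fderiv_le_of_lipschitzOn ℝ
    (Filter.mem_of_superset (SQ_open.mem_nhds hp) SQ_CQ) h
  have h2 := (fderiv ℝ F p).le_opNorm v
  rw [Real.norm_eq_abs] at h2
  exact h2.trans (mul_le_mul_of_nonneg_right h1 (norm_nonneg v))

theorem fd_int {K : NNReal} (h : LipschitzOnWith K F CQ) (v : ℝ × ℝ) :
    IntegrableOn (fun p => fderiv ℝ F p v) SQ := by
  refine Measure.integrableOn_of_bounded (M := K * ‖v‖) ?_
    (measurable_fderiv_apply_const ℝ F v).aestronglyMeasurable ?_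
  · exact ((measure_mono SQ_CQ).trans_lt CQ_compact.measure_lt_top).ne
  · rw [ae_restrict_iff' SQ_meas]
    exact Filter.Eventually.of_forall fun p hp => fd_bound h hp v

theorem dX_int {K : NNReal} (h : LipschitzOnWith K F CQ) : IntegrableOn (dX F) SQ := fd_int h _

theorem dY_int {K : NNReal} (h : LipschitzOnWith K F CQ) : IntegrableOn (dY F) SQ := fd_int h _

theorem mem_CQ {x y : ℝ} (hx : |x| ≤ s) (hy : |y| ≤ s) : (x, y) ∈ CQ :=
  ⟨abs_le.1 hx, abs_le.1 hy⟩

/-- fundamental theorem of calculus on the vertical lines -/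
theorem int_dY {K : NNReal} (h : LipschitzOnWith K F CQ) :
    ∫ p in SQ, dY F p = ∫ x in Ioo (-s) s, (F (x, s) - F (x, -s)) := by
  have hI := dY_int h
  have hs := s_pos
  have hae := lip_ae h
  unfold SQ at hI ⊢
  rw [Measure.volume_eq_prod] at hI hae ⊢
  rw [setIntegral_prod _ hI]
  have h2 := Measure.ae_ae_of_ae_prod hae
  refine setIntegral_congr_ae measurableSet_Ioo ?_
  filter_upwards [h2] with x hx hxs
  have hxs' : |x| ≤ s := abs_le.2 ⟨hxs.1.le, hxs.2.le⟩
  have hline : LipschitzOnWith K (fun y => F (x, y)) (uIcc (-s) s) := by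
    rw [uIcc_of_le (by linarith)]
    intro y hy y' hy'
    refine (h (x := (x, y)) ⟨abs_le.1 hxs', hy⟩ (y := (x, y')) ⟨abs_le.1 hxs', hy'⟩).trans ?_
    refine le_of_eq ?_
    congr 1
    rw [Prod.edist_eq, edist_self]
    simp
  have hF := hline.absolutelyContinuousOnInterval.integral_deriv_eq_sub
  rw [← hF, intervalIntegral.integral_of_le (by linarith), integral_Ioc_eq_integral_Ioo]
  refine setIntegral_congr_ae measurableSet_Ioo ?_
  filter_upwards [hx] with y hy hys
  have hd := hy ⟨hxs, hys⟩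
  have h1 : HasDerivAt (fun y : ℝ => (x, y)) ((0 : ℝ), (1 : ℝ)) y :=
    (hasDerivAt_const y x).prodMk (hasDerivAt_id y)
  have h3 : HasDerivAt (fun y => F (x, y)) (dY F (x, y)) y :=
    (show HasFDerivAt F (fderiv ℝ F (x, y)) (x, y) from hd.hasFDerivAt).comp_hasDerivAt y h1
  exact h3.deriv.symm

theorem dX_swap (p : ℝ × ℝ) : dX (fun q => F (q.2, q.1)) p = dY F (p.2, p.1) := by
  have h := ContinuousLinearEquiv.comp_right_fderiv (𝕜 := ℝ) (ContinuousLinearEquiv.prodComm ℝ ℝ ℝ)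
    (f := F) (x := p)
  have e : (F ∘ (ContinuousLinearEquiv.prodComm ℝ ℝ ℝ)) = fun q => F (q.2, q.1) := rfl
  rw [e] at h
  unfold dX
  rw [h]
  rfl

theorem dY_swap (p : ℝ × ℝ) : dY (fun q => F (q.2, q.1)) p = dX F (p.2, p.1) := by
  have h := ContinuousLinearEquiv.comp_right_fderiv (𝕜 := ℝ) (ContinuousLinearEquiv.prodComm ℝ ℝ ℝ)
    (f := F) (x := p)
  have e : (F ∘ (ContinuousLinearEquiv.prodComm ℝ ℝ ℝ)) = fun q => F (q.2, q.1) := rfl
  rw [e] at h
  unfold dY
  rw [h]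
  rfl

theorem lip_swap {K : NNReal} (h : LipschitzOnWith K F CQ) :
    LipschitzOnWith K (fun q : ℝ × ℝ => F (q.2, q.1)) CQ := by
  intro p hp q hq
  refine (h (x := (p.2, p.1)) ⟨hp.2, hp.1⟩ (y := (q.2, q.1)) ⟨hq.2, hq.1⟩).trans ?_
  refine le_of_eq ?_
  congr 1
  rw [Prod.edist_eq, Prod.edist_eq, max_comm]

/-- fundamental theorem of calculus on the horizontal lines -/
theorem int_dX {K : NNReal} (h : LipschitzOnWith K F CQ) :
    ∫ p in SQ, dX F p = ∫ y in Ioo (-s) s, (F (s, y) - F (-s, y)) := by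
  have h1 := int_dY (lip_swap h)
  have h2 : ∫ p in SQ, dY (fun q : ℝ × ℝ => F (q.2, q.1)) p = ∫ p in SQ, dX F p := by
    rw [← int_swap (dX F)]
    refine setIntegral_congr_fun SQ_meas fun p _ => dY_swap p
  rw [← h2, h1]

/-- two Lipschitz functions with the same boundary values -/
theorem int_dX_congr {K L : NNReal} (h : LipschitzOnWith K F CQ) (h' : LipschitzOnWith L G CQ)
    (hb : ∀ x y, |x| = s → |y| < s → F (x, y) = G (x, y)) :
    ∫ p in SQ, dX F p = ∫ p in SQ, dX G p := by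
  rw [int_dX h, int_dX h']
  refine setIntegral_congr_fun measurableSet_Ioo fun y hy => ?_
  have hy' : |y| < s := abs_lt.2 hy
  have e1 : |s| = s := abs_of_pos s_pos
  have e2 : |-s| = s := by rw [abs_neg]; exact e1
  simp only [hb s y e1 hy', hb (-s) y e2 hy']

theorem int_dY_congr {K L : NNReal} (h : LipschitzOnWith K F CQ) (h' : LipschitzOnWith L G CQ)
    (hb : ∀ x y, |y| = s → |x| < s → F (x, y) = G (x, y)) :
    ∫ p in SQ, dY F p = ∫ p in SQ, dY G p := by
  rw [int_dY h, int_dY h']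
  refine setIntegral_congr_fun measurableSet_Ioo fun y hy => ?_
  have hy' : |y| < s := abs_lt.2 hy
  have e1 : |s| = s := abs_of_pos s_pos
  have e2 : |-s| = s := by rw [abs_neg]; exact e1
  simp only [hb y s e1 hy', hb y (-s) e2 hy']

end Helper22.MEI
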