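import Pool.Agent.Helper22.MEI.Bridge3

/-!
# Pointwise facts for admissible functions: swap, squeeze, convexity
-/

namespace Helper22.MEI

open Set MeasureTheory Filter Topology

/-- the mirror image of `f` -/
noncomputable def sw (f : ℝ × ℝ → ℝ) (p : ℝ × ℝ) : ℝ := NN p - f (p.2, p.1)

/-- the swap as a continuous linear map -/
noncomputable def swL : ℝ × ℝ →L[ℝ] ℝ × ℝ :=
  (ContinuousLinearMap.snd ℝ ℝ ℝ).prod (ContinuousLinearMap.fst ℝ ℝ ℝ)

theorem swL_apply (p : ℝ × ℝ) : swL p = (p.2, p.1) := rfl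

variable {f : ℝ × ℝ → ℝ}

theorem sw_fd (hd : Differentiable ℝ f) (p : ℝ × ℝ) :
    HasFDerivAt (sw f) (fderiv ℝ NN p - (fderiv ℝ f (p.2, p.1)).comp swL) p := by
  have h1 := (NN_diff p).hasFDerivAt
  have h2 : HasFDerivAt (f ∘ swL) ((fderiv ℝ f (p.2, p.1)).comp swL) p :=
    (hd (p.2, p.1)).hasFDerivAt.comp p swL.hasFDerivAt
  exact h1.sub h2

theorem sw_diff (hd : Differentiable ℝ f) : Differentiable ℝ (sw f) :=
  fun p => (sw_fd hd p).differentiableAt

theorem dX_sw (hd : Differentiable ℝ f) (p : ℝ × ℝ) :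
    dX (sw f) p = p.1 / NN p - dY f (p.2, p.1) := by
  have h := dX_NN p
  unfold dX at h ⊢
  rw [(sw_fd hd p).fderiv, ContinuousLinearMap.sub_apply, h]
  rfl

theorem dY_sw (hd : Differentiable ℝ f) (p : ℝ × ℝ) :
    dY (sw f) p = p.2 / NN p - dX f (p.2, p.1) := by
  have h := dY_NN p
  unfold dY at h ⊢
  rw [(sw_fd hd p).fderiv, ContinuousLinearMap.sub_apply, h]
  rfl

theorem sw_cv (h : Adm f) : ConvexOn ℝ univ (sw f) := by
  have := h.cvN.comp_linearMap swL.toLinearMap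
  have e : sw f = (fun p => NN p - f p) ∘ swL.toLinearMap := by
    ext p
    show NN p - f (p.2, p.1) = NN (p.2, p.1) - f (p.2, p.1)
    rw [NN_swap]
  rw [e]
  simpa using this

theorem Adm.swap (h : Adm f) : Adm (sw f) where
  diff := sw_diff h.diff
  cv := sw_cv h
  cvN := by
    have := h.cv.comp_linearMap swL.toLinearMap
    have e : (fun p => NN p - sw f p) = f ∘ swL.toLinearMap := by
      ext p
      show NN p - (NN p - f (p.2, p.1)) = f (p.2, p.1)
      ring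
    rw [e]
    simpa using this
  bX := fun p h1 h2 => by
    unfold sw
    rw [h.bY (p.2, p.1) h1 h2, NN_swap]; ring
  bY := fun p h1 h2 => by
    unfold sw
    rw [h.bX (p.2, p.1) h1 h2]
  gXX := fun p h1 h2 => by
    rw [dX_sw h.diff, h.gYY (p.2, p.1) h1 h2, NN_swap]; ring
  gXY := fun p h1 h2 => by
    rw [dY_sw h.diff, h.gYX (p.2, p.1) h1 h2, NN_swap]; ring
  gYX := fun p h1 h2 => by
    rw [dX_sw h.diff, h.gXY (p.2, p.1) h1 h2]; ring
  gYY := fun p h1 h2 => by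
    rw [dY_sw h.diff, h.gXX (p.2, p.1) h1 h2]

theorem qd_sw (hd : Differentiable ℝ f) (p : ℝ × ℝ) : qd (sw f) p = qd f (p.2, p.1) := by
  have hn := NN_ne p
  have hN2 := NN_sq p
  unfold qd
  rw [dX_sw hd, dY_sw hd, NN_swap]
  unfold sw
  have e : NN p - f (p.2, p.1) - p.1 * (p.1 / NN p - dY f (p.2, p.1))
      - p.2 * (p.2 / NN p - dX f (p.2, p.1))
      = 1 / NN p - (f (p.2, p.1) - p.2 * dX f (p.2, p.1) - p.1 * dY f (p.2, p.1)) := by
    field_simp
    linear_combination hN2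
  rw [e]
  simp only
  field_simp
  linear_combination hN2

theorem int_swap (g : ℝ × ℝ → ℝ) : ∫ p in SQ, g (p.2, p.1) = ∫ p in SQ, g p := by
  unfold SQ
  rw [Measure.volume_eq_prod]
  exact setIntegral_prod_swap (μ := (volume : Measure ℝ)) (ν := (volume : Measure ℝ))
    (Ioo (-s) s) (Ioo (-s) s) g

theorem Dfun_swap (h : Adm f) : Dfun (fun p => f0 p - sw f p) = Dfun (fun p => f0 p - f p) := by
  rw [← bridge h, ← bridge h.swap, ← int_swap (fun p => qd f p * (NN p ^ 3)⁻¹)]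
  congr 1
  refine integral_congr_ae (Eventually.of_forall fun p => ?_)
  show qd (sw f) p * (NN p ^ 3)⁻¹ = qd f (p.2, p.1) * (NN (p.2, p.1) ^ 3)⁻¹
  rw [qd_sw h.diff, NN_swap]

/-! ### squeeze -/

theorem Adm.diffN (h : Adm f) : Differentiable ℝ (fun p => NN p - f p) := NN_diff.sub h.diff

theorem dY_N_sub (h : Adm f) (p : ℝ × ℝ) :
    fderiv ℝ (fun p => NN p - f p) p (0, 1) = p.2 / NN p - dY f p := by
  have := (NN_diff p).hasFDerivAt.sub (h.diff p).hasFDerivAt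
  have e : fderiv ℝ (fun p => NN p - f p) p = fderiv ℝ NN p - fderiv ℝ f p := this.fderiv
  rw [e, ContinuousLinearMap.sub_apply]
  have h2 := dY_NN p
  unfold dY at h2 ⊢
  rw [h2]

/-- `f ≤ N - |Y|/2 - t` on the strip -/
theorem Adm.le_lens (h : Adm f) {p : ℝ × ℝ} (hp : |p.1| ≤ s) : f p ≤ NN p - |p.2| / 2 - t := by
  have hs := s_pos
  have key : ∀ σ : ℝ, (σ = 1 ∨ σ = -1) → σ * p.2 / 2 + t ≤ NN p - f p := by
    intro σ hσ
    have habs : |σ * s| = s := by
      rcases hσ with rfl | rfl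
      · rw [one_mul]; exact abs_of_pos hs
      · rw [neg_one_mul, abs_neg]; exact abs_of_pos hs
    have h1 := grad_ineq h.diffN h.cvN (p.1, σ * s) (0, p.2 - σ * s)
    have h2 : (p.1, σ * s) + ((0 : ℝ), p.2 - σ * s) = p := by
      ext <;> simp
    have h3 : fderiv ℝ (fun p => NN p - f p) (p.1, σ * s) (0, p.2 - σ * s)
        = (p.2 - σ * s) * (σ * s / (2 * s)) := by
      have e : ((0 : ℝ), p.2 - σ * s) = (p.2 - σ * s) • ((0 : ℝ), (1 : ℝ)) := by
        ext <;> simp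
      rw [e, map_smul, dY_N_sub h, h.gYY (p.1, σ * s) habs hp, smul_eq_mul]
      simp only
      ring
    rw [h2, h3] at h1
    have h4 := h.bY (p.1, σ * s) habs hp
    rw [h4] at h1
    have h5 : σ * s / (2 * s) = σ / 2 := by field_simp
    rw [h5] at h1
    have h6 : σ * σ = 1 := by rcases hσ with rfl | rfl <;> norm_num
    nlinarith [h1, h6]
  have k1 := key 1 (Or.inl rfl)
  have k2 := key (-1) (Or.inr rfl)
  rcases abs_cases p.2 with ⟨e, _⟩ | ⟨e, _⟩
  · rw [e]; linarith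
  · rw [e]; linarith

/-- restriction of a convex function to a vertical line -/
theorem convex_lineY {g : ℝ × ℝ → ℝ} (hc : ConvexOn ℝ univ g) (x : ℝ) :
    ConvexOn ℝ univ (fun y => g (x, y)) := by
  have h := hc.comp_affineMap (AffineMap.lineMap (x, (0 : ℝ)) (x, (1 : ℝ)))
  have e : (fun y => g (x, y)) = g ∘ (AffineMap.lineMap (x, (0 : ℝ)) (x, (1 : ℝ)) : ℝ → ℝ × ℝ) := by
    ext y
    simp [AffineMap.lineMap_apply]
  rw [e]
  simpa using h

theorem convex_lineX {g : ℝ × ℝ → ℝ} (hc : ConvexOn ℝ univ g) (y : ℝ) :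
    ConvexOn ℝ univ (fun x => g (x, y)) := by
  have h := hc.comp_affineMap (AffineMap.lineMap ((0 : ℝ), y) ((1 : ℝ), y))
  have e : (fun x => g (x, y)) = g ∘ (AffineMap.lineMap ((0 : ℝ), y) ((1 : ℝ), y) : ℝ → ℝ × ℝ) := by
    ext x
    simp [AffineMap.lineMap_apply]
  rw [e]
  simpa using h

theorem Adm.le_f0 (h : Adm f) {p : ℝ × ℝ} (hp : |p.1| ≤ s) : f p ≤ f0 p := by
  unfold f0
  split_ifs with hc
  · have hA := AA_pos p.1
    have h3 : (0 : ℝ) < √3 := by positivity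
    have h33 : √3 * √3 = 3 := Real.mul_self_sqrt (by norm_num)
    have hy : |p.2| ≤ AA p.1 / √3 := by
      rw [le_div_iff₀ h3]
      have : (|p.2| * √3) ^ 2 ≤ AA p.1 ^ 2 := by
        rw [AA_sq, mul_pow, sq_abs, Real.sq_sqrt (by norm_num)]
        linarith
      exact le_of_sq_le_sq this hA.le
    set y1 := AA p.1 / √3 with hy1
    have hy1p : 0 < y1 := by positivity
    have hcv := convex_lineY h.cv p.1
    have hN : ∀ σ : ℝ, (σ = 1 ∨ σ = -1) → f (p.1, σ * y1) ≤ c3 * AA p.1 - t := by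
      intro σ hσ
      have h1 := h.le_lens (p := (p.1, σ * y1)) hp
      have h2 : |σ * y1| = y1 := by
        rcases hσ with rfl | rfl
        · rw [one_mul]; exact abs_of_pos hy1p
        · rw [neg_one_mul, abs_neg]; exact abs_of_pos hy1p
      have h3 : 3 * (p.1, σ * y1).2 ^ 2 = 1 + (p.1, σ * y1).1 ^ 2 := by
        show 3 * (σ * y1) ^ 2 = 1 + p.1 ^ 2
        rw [← sq_abs, h2, hy1, div_pow, Real.sq_sqrt (by norm_num), AA_sq]
        ring
      rw [← iface_val h3] at h1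
      exact h1
    have a1 := hN 1 (Or.inl rfl)
    have a2 := hN (-1) (Or.inr rfl)
    rw [one_mul] at a1
    rw [neg_one_mul] at a2
    obtain ⟨b1, b2⟩ := abs_le.1 hy
    have := hcv.le_max_of_mem_Icc (mem_univ (-y1)) (mem_univ y1) ⟨b1, b2⟩
    exact this.trans (max_le a2 a1)
  · exact h.le_lens hp

theorem Adm.f1_le (h : Adm f) {p : ℝ × ℝ} (hp : |p.2| ≤ s) : f1 p ≤ f p := by
  have := h.swap.le_f0 (p := (p.2, p.1)) hp
  unfold sw at this
  unfold f1
  rw [NN_swap] at this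
  simp only at this
  linarith

/-- `R = f - f1` -/
noncomputable def RR (f : ℝ × ℝ → ℝ) (p : ℝ × ℝ) : ℝ := f p - f1 p

theorem RR_eq (f : ℝ × ℝ → ℝ) (p : ℝ × ℝ) : RR f p = PP (sw f) (p.2, p.1) := by
  unfold RR PP f1 sw
  rw [NN_swap]
  simp only
  ring

theorem PP_nonneg (h : Adm f) {p : ℝ × ℝ} (hp : |p.1| ≤ s) : 0 ≤ PP f p :=
  sub_nonneg.2 (h.le_f0 hp)

theorem RR_nonneg (h : Adm f) {p : ℝ × ℝ} (hp : |p.2| ≤ s) : 0 ≤ RR f p :=
  sub_nonneg.2 (h.f1_le hp)

noncomputable def GG (p : ℝ × ℝ) : ℝ := f0 p - f1 p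

theorem PP_add_RR (f : ℝ × ℝ → ℝ) (p : ℝ × ℝ) : PP f p + RR f p = GG p := by
  unfold PP RR GG; ring

end Helper22.MEI
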