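import Pool.Agent.Helper22.MEI.Facts

/-!
# Facts on lines: concavity in the mid part, convexity in the lens, slopes, Lipschitz gradients
-/

namespace Helper22.MEI

open Set MeasureTheory Filter Topology

variable {f : ℝ × ℝ → ℝ}

/-- position of the interface on the line `X = x` -/
noncomputable def yi (x : ℝ) : ℝ := AA x / √3

theorem yi_pos (x : ℝ) : 0 < yi x := div_pos (AA_pos x) (by positivity)

theorem yi_sq (x : ℝ) : 3 * yi x ^ 2 = 1 + x ^ 2 := by
  unfold yi
  rw [div_pow, AA_sq, Real.sq_sqrt (by norm_num)]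
  ring

theorem mid_iff {x y : ℝ} : 3 * y ^ 2 ≤ 1 + x ^ 2 ↔ |y| ≤ yi x := by
  rw [← yi_sq x]
  constructor
  · intro h
    have h2 : |y| ^ 2 ≤ yi x ^ 2 := by rw [sq_abs]; linarith
    exact le_of_sq_le_sq h2 (yi_pos x).le
  · intro h
    have h2 : |y| ^ 2 ≤ yi x ^ 2 := pow_le_pow_left₀ (abs_nonneg y) h 2
    rw [sq_abs] at h2
    linarith

theorem yi_le {x : ℝ} (hx : |x| ≤ s) : yi x ≤ s := by
  have h1 := yi_sq x
  have h2 : x ^ 2 ≤ 1 / 2 := by
    rw [← sq_abs, ← s_sq]; exact pow_le_pow_left₀ (abs_nonneg _) hx 2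
  have h3 := s_sq
  exact le_of_sq_le_sq (by linarith) s_pos.le

theorem f0_mid {x y : ℝ} (h : |y| ≤ yi x) : f0 (x, y) = c3 * AA x - t := by
  unfold f0
  rw [if_pos (mid_iff.2 h)]

theorem f0_lens {x y : ℝ} (h : yi x ≤ |y|) : f0 (x, y) = NN (x, y) - |y| / 2 - t := by
  unfold f0
  split_ifs with hc
  · have he : |y| = yi x := le_antisymm (mid_iff.1 hc) h
    have h3 : 3 * (x, y).2 ^ 2 = 1 + (x, y).1 ^ 2 := by
      show 3 * y ^ 2 = 1 + x ^ 2
      rw [← sq_abs, he, yi_sq]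
    exact iface_val h3
  · rfl

/-- `P` is concave in `Y` in the mid part -/
theorem PP_mid_concave (h : Adm f) (x : ℝ) :
    ConcaveOn ℝ (Icc (-yi x) (yi x)) (fun y => PP f (x, y)) := by
  have h1 := (convex_lineY h.cv x).subset (subset_univ (Icc (-yi x) (yi x))) (convex_Icc _ _)
  have h2 : ConcaveOn ℝ (Icc (-yi x) (yi x)) (fun y => c3 * AA x - t - f (x, y)) := by
    have := h1.neg.add_const (c3 * AA x - t)
    refine this.congr ?_
    intro y _
    simp only [Pi.neg_apply, Pi.add_apply]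
    ring
  refine h2.congr ?_
  intro y hy
  show c3 * AA x - t - f (x, y) = f0 (x, y) - f (x, y)
  rw [f0_mid (abs_le.2 hy)]

/-- the upper lens is convex -/
theorem lens_convex : Convex ℝ {p : ℝ × ℝ | AA p.1 ≤ √3 * p.2} := by
  have hA : ConvexOn ℝ univ AA := by
    have h1 : ConvexOn ℝ univ (fun x : ℝ => AA x) := by
      refine convexOn_of_deriv2_nonneg' convex_univ ?_ ?_ ?_
      · exact fun x _ => (AA_hasDerivAt x).differentiableAt.differentiableWithinAt
      · have e : deriv AA = fun x => x / AA x := funext fun x => (AA_hasDerivAt x).deriv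
        rw [e]
        exact fun x _ => ((hasDerivAt_id x).div (AA_hasDerivAt x)
          (AA_ne x)).differentiableAt.differentiableWithinAt
      · intro x _
        have e : deriv AA = fun x => x / AA x := funext fun x => (AA_hasDerivAt x).deriv
        have hd := (hasDerivAt_id x).div (AA_hasDerivAt x) (AA_ne x)
        show 0 ≤ deriv (deriv AA) x
        rw [e]
        have e2 : deriv (fun x => x / AA x) x
            = (1 * AA x - id x * (x / AA x)) / AA x ^ 2 := hd.deriv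
        rw [e2]
        have ha := AA_pos x
        have ha2 := AA_sq x
        refine div_nonneg ?_ (by positivity)
        have : 1 * AA x - id x * (x / AA x) = 1 / AA x := by
          simp only [id]
          field_simp
          linear_combination ha2
        rw [this]
        positivity
    exact h1
  have h2 : ConvexOn ℝ univ (fun p : ℝ × ℝ => AA p.1 - √3 * p.2) := by
    have h3 := hA.comp_linearMap (LinearMap.fst ℝ ℝ ℝ)
    have h4 : ConvexOn ℝ univ (fun p : ℝ × ℝ => -(√3 * p.2)) := by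
      have := ((-√3) • LinearMap.snd ℝ ℝ ℝ).convexOn (convex_univ (𝕜 := ℝ))
      refine this.congr ?_
      intro p _
      simp
    rw [preimage_univ] at h3
    have h3' : ConvexOn ℝ univ (fun p : ℝ × ℝ => AA p.1) := h3
    have h5 := h3'.add h4
    refine h5.congr ?_
    intro p _
    simp only [Pi.add_apply]
    ring
  have h6 := h2.convex_le 0
  refine (show {p : ℝ × ℝ | AA p.1 ≤ √3 * p.2}
    = {p : ℝ × ℝ | p ∈ univ ∧ AA p.1 - √3 * p.2 ≤ 0} from ?_) ▸ h6
  ext p
  simp only [mem_setOf_eq, mem_univ, true_and, sub_nonpos]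

/-- `P` is convex in the upper lens -/
theorem PP_lens_convex (h : Adm f) :
    ConvexOn ℝ {p : ℝ × ℝ | AA p.1 ≤ √3 * p.2} (PP f) := by
  have h1 := h.cvN.subset (subset_univ {p : ℝ × ℝ | AA p.1 ≤ √3 * p.2}) lens_convex
  have h2 : ConvexOn ℝ {p : ℝ × ℝ | AA p.1 ≤ √3 * p.2} (fun p : ℝ × ℝ => -(1 / 2) * p.2 - t) := by
    have := ((-(1 / 2 : ℝ)) • LinearMap.snd ℝ ℝ ℝ).convexOn lens_convex
    refine (this.add_const (-t)).congr ?_
    intro p _
    simp only [LinearMap.smul_apply, LinearMap.snd_apply, smul_eq_mul, Pi.add_apply]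
    ring
  refine (h1.add h2).congr ?_
  intro p hp
  have hp' : AA p.1 ≤ √3 * p.2 := hp
  have h3 : (0 : ℝ) < √3 := by positivity
  have hy : yi p.1 ≤ p.2 := by
    unfold yi
    rw [div_le_iff₀ h3]; linarith
  have hy0 : 0 < p.2 := lt_of_lt_of_le (yi_pos _) hy
  have e := f0_lens (x := p.1) (y := p.2) (by rw [abs_of_pos hy0]; exact hy)
  have e2 : f0 p = NN p - |p.2| / 2 - t := e
  simp only [Pi.add_apply]
  unfold PP
  rw [e2, abs_of_pos hy0]
  ring

/-- slopes of `f` in the direction `Y`: monotone and not faster than those of `N` -/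
theorem dY_mono (h : Adm f) (x : ℝ) {y y' : ℝ} (hy : y ≤ y') : dY f (x, y) ≤ dY f (x, y') := by
  rcases hy.eq_or_lt with rfl | hlt
  · exact le_rfl
  have hc := convex_lineY h.cv x
  have a := hc.le_slope_of_hasDerivAt (mem_univ y) (mem_univ y') hlt (line_Y h.diff x y)
  have b := hc.slope_le_of_hasDerivAt (mem_univ y) (mem_univ y') hlt (line_Y h.diff x y')
  exact a.trans b

theorem dY_mono' (h : Adm f) (x : ℝ) {y y' : ℝ} (hy : y ≤ y') :
    dY f (x, y') - dY f (x, y) ≤ y' / NN (x, y') - y / NN (x, y) := by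
  rcases hy.eq_or_lt with rfl | hlt
  · simp
  have hc := convex_lineY h.cvN x
  have d : ∀ z, HasDerivAt (fun z => NN (x, z) - f (x, z)) (z / NN (x, z) - dY f (x, z)) z :=
    fun z => (NN_lineY x z).sub (line_Y h.diff x z)
  have a := hc.le_slope_of_hasDerivAt (mem_univ y) (mem_univ y') hlt (d y)
  have b := hc.slope_le_of_hasDerivAt (mem_univ y) (mem_univ y') hlt (d y')
  linarith [a.trans b]

theorem dX_mono (h : Adm f) (y : ℝ) {x x' : ℝ} (hx : x ≤ x') : dX f (x, y) ≤ dX f (x', y) := by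
  rcases hx.eq_or_lt with rfl | hlt
  · exact le_rfl
  have hc := convex_lineX h.cv y
  have a := hc.le_slope_of_hasDerivAt (mem_univ x) (mem_univ x') hlt (line_X h.diff x y)
  have b := hc.slope_le_of_hasDerivAt (mem_univ x) (mem_univ x') hlt (line_X h.diff x' y)
  exact a.trans b

theorem dX_mono' (h : Adm f) (y : ℝ) {x x' : ℝ} (hx : x ≤ x') :
    dX f (x', y) - dX f (x, y) ≤ x' / NN (x', y) - x / NN (x, y) := by
  rcases hx.eq_or_lt with rfl | hlt
  · simp
  have hc := convex_lineX h.cvN y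
  have d : ∀ z, HasDerivAt (fun z => NN (z, y) - f (z, y)) (z / NN (z, y) - dX f (z, y)) z :=
    fun z => (NN_lineX z y).sub (line_X h.diff z y)
  have a := hc.le_slope_of_hasDerivAt (mem_univ x) (mem_univ x') hlt (d x)
  have b := hc.slope_le_of_hasDerivAt (mem_univ x) (mem_univ x') hlt (d x')
  linarith [a.trans b]

/-! ### boundary gradients of `P` and `R` -/

theorem dX_PP_bX (h : Adm f) {p : ℝ × ℝ} (h1 : |p.1| = s) (h2 : |p.2| ≤ s) :
    dX (PP f) p = 0 := by
  rw [dX_PP h, h.gXX p h1 h2]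
  have hx : p.1 ^ 2 = 1 / 2 := by rw [← sq_abs, h1, s_sq]
  have hy : p.2 ^ 2 ≤ 1 / 2 := by
    rw [← sq_abs, ← s_sq]; exact pow_le_pow_left₀ (abs_nonneg _) h2 2
  unfold g0X
  rw [if_pos (by rw [hx]; linarith)]
  have hA : AA p.1 = √3 * s := by
    unfold AA
    rw [hx, show (1 : ℝ) + 1 / 2 = 3 * s ^ 2 by rw [s_sq]; norm_num,
      Real.sqrt_mul (by norm_num), Real.sqrt_sq s_pos.le]
  rw [hA]
  have hs := s_pos.ne'
  have h3 : √3 ≠ 0 := by positivity
  unfold c3
  field_simp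
  ring

theorem dY_PP_bX (h : Adm f) {p : ℝ × ℝ} (h1 : |p.1| = s) (h2 : |p.2| ≤ s) :
    dY (PP f) p = 0 := by
  rw [dY_PP h, h.gXY p h1 h2]
  have hx : p.1 ^ 2 = 1 / 2 := by rw [← sq_abs, h1, s_sq]
  have hy : p.2 ^ 2 ≤ 1 / 2 := by
    rw [← sq_abs, ← s_sq]; exact pow_le_pow_left₀ (abs_nonneg _) h2 2
  unfold g0Y
  rw [if_pos (by rw [hx]; linarith)]
  ring

theorem g0_bY {p : ℝ × ℝ} (h1 : |p.2| = s) (h2 : |p.1| ≤ s) :
    g0X p = p.1 / NN p ∧ g0Y p = p.2 / NN p - p.2 / (2 * s) := by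
  have hx : p.2 ^ 2 = 1 / 2 := by rw [← sq_abs, h1, s_sq]
  have hy : p.1 ^ 2 ≤ 1 / 2 := by
    rw [← sq_abs, ← s_sq]; exact pow_le_pow_left₀ (abs_nonneg _) h2 2
  have hge : 1 + p.1 ^ 2 ≤ 3 * p.2 ^ 2 := by rw [hx]; linarith
  have hh : 1 / 2 < |p.2| := half_lt hge
  have hs := s_pos.ne'
  have hsg : p.2 / (2 * s) = sg p.2 / 2 := by
    have h5 : sg p.2 * p.2 = s := by rw [sg_mul hh.le, h1]
    have h6 := sg_sq hh.le
    rw [div_eq_div_iff (by positivity) two_ne_zero, ← h5]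
    linear_combination -(2 * p.2) * h6
  unfold g0X g0Y
  split_ifs with hc
  · have he : 3 * p.2 ^ 2 = 1 + p.1 ^ 2 := le_antisymm hc hge
    obtain ⟨e1, e2⟩ := iface he
    rw [e1, e2, hsg]
    have hy0 : |p.2| ≠ 0 := by linarith
    have h3 : √3 ≠ 0 := by positivity
    constructor
    · unfold c3
      field_simp
    · have h5 : p.2 = sg p.2 * |p.2| := by
        rw [← sg_mul hh.le, ← mul_assoc, sg_sq hh.le, one_mul]
      have : p.2 / (2 * |p.2|) = sg p.2 / 2 := by
        rw [div_eq_div_iff (by positivity) two_ne_zero]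
        linear_combination 2 * h5
      rw [this]; ring
  · exact ⟨rfl, by rw [hsg]⟩

theorem dX_PP_bY (h : Adm f) {p : ℝ × ℝ} (h1 : |p.2| = s) (h2 : |p.1| ≤ s) :
    dX (PP f) p = 0 := by
  rw [dX_PP h, h.gYX p h1 h2, (g0_bY h1 h2).1]; ring

theorem dY_PP_bY (h : Adm f) {p : ℝ × ℝ} (h1 : |p.2| = s) (h2 : |p.1| ≤ s) :
    dY (PP f) p = 0 := by
  rw [dY_PP h, h.gYY p h1 h2, (g0_bY h1 h2).2]; ring

end Helper22.MEI
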