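import Pool.Agent.Helper52.MEI.Contact

/-!
# The cap of a vertex distance from the contact points of every edge

`a k - z` in the body, `z` orthogonal to `a k - a v`: for all `q` of the body
`Q_k(q) ≤ 2 ‖z‖ ‖q - a v‖ - ‖z‖²`.
-/

set_option autoImplicit false

namespace Helper22.Far

open Set Metric Helper80.CW Helper82.CW Helper14.CW Helper93.MEI Pool.Agent.Helper52.MEI
open scoped RealInnerProductSpace

variable {a : Fin 4 → E3} {K : Set E3}

/-- exact form -/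
theorem Qv_far_inner {k v : Fin 4} {z : E3} (hz : Ct a K k v z)
    (hd : ∀ x ∈ K, ∀ y ∈ K, ‖x - y‖ ≤ 1) {q : E3} (hq : q ∈ K) :
    Qv a k q ≤ -(2 * ⟪q - a v, z⟫) - ‖z‖ ^ 2 := by
  have h1 := hd _ hq _ hz.mem1
  have e : q - (a k - z) = (q - a k) + z := by abel
  rw [e] at h1
  have h3 := norm_add_sq_real (q - a k) z
  have h5 := norm_nonneg ((q - a k) + z)
  have h6 : ⟪q - a k, z⟫ = ⟪q - a v, z⟫ := by
    have e2 : q - a k = (q - a v) - (a k - a v) := by abel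
    rw [e2, inner_sub_left, real_inner_comm z (a k - a v), hz.perp, sub_zero]
  unfold Qv
  rw [h6] at h3
  nlinarith

/-- **the far cap** -/
theorem Qv_far {k v : Fin 4} {z : E3} (hz : Ct a K k v z)
    (hd : ∀ x ∈ K, ∀ y ∈ K, ‖x - y‖ ≤ 1) {q : E3} (hq : q ∈ K) :
    Qv a k q ≤ 2 * ‖z‖ * ‖q - a v‖ - ‖z‖ ^ 2 := by
  have h1 := Qv_far_inner hz hd hq
  have h2 := abs_real_inner_le_norm (q - a v) z
  have h3 := neg_abs_le ⟪q - a v, z⟫
  nlinarith

/-- hence `Q_k(q) ≤ ‖q - a v‖²` for every `v ≠ k` -/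
theorem Qv_far_sq {k v : Fin 4} {z : E3} (hz : Ct a K k v z)
    (hd : ∀ x ∈ K, ∀ y ∈ K, ‖x - y‖ ≤ 1) {q : E3} (hq : q ∈ K) :
    Qv a k q ≤ ‖q - a v‖ ^ 2 := by
  have h1 := Qv_far hz hd hq
  nlinarith [sq_nonneg (‖z‖ - ‖q - a v‖)]

/-- distance to the vertex `v` in terms of the distance to the vertex `i` -/
theorem dist_far {i v : Fin 4} (hn : dist (a i) (a v) = 1) (q : E3) :
    ‖q - a v‖ ^ 2 = ‖a i - q‖ ^ 2 + 1 - 2 * yv a i v q := by
  have h2 : ‖a i - a v‖ = 1 := by rw [← dist_eq_norm]; exact hn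
  have e : q - a v = (a i - a v) - (a i - q) := by abel
  have h3 := norm_sub_sq_real (a i - a v) (a i - q)
  have h4 : ⟪a i - a v, a i - q⟫ = yv a i v q := by
    rw [real_inner_comm]
    rfl
  rw [e, h3, h4, h2]
  ring

end Helper22.Far
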