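import Pool.Agent.Helper22.MEI.Bridge3
import Pool.Agent.Helper14.CW.Adm

/-!
# Assembly of the class T theorem from the analytic inequality and the value of the constant
-/

namespace Helper22.MEI

open Set MeasureTheory Helper80.CW Helper82.CW

/-- the value of the volume formula at the Meissner support function (row L3) -/
def L3 : Prop :=
  Helper14.CW.CT + 3 / 2 * (∫ p in SQ, qd f0 p * (NN p ^ 3)⁻¹)
    = Real.pi * (2 / 3 - √3 / 4 * Real.arccos (1 / 3))

theorem class_T (hM : M1A) (hL : L3) {K : Set E3} (hK : IsCompact K) (hc : Convex ℝ K)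
    (hw : Width1 K) {a : Fin 4 → E3} (ha : ∀ i, a i ∈ K)
    (hd : ∀ i j, i ≠ j → dist (a i) (a j) = 1) :
    ENNReal.ofReal (Real.pi * (2 / 3 - √3 / 4 * Real.arccos (1 / 3))) ≤ volume K := by
  obtain ⟨P, hP, hV⟩ := Helper14.CW.tetra_adm hK hc hw ha hd
  refine le_trans (ENNReal.ofReal_le_ofReal ?_) hV
  have h3 : ∑ k : Fin 3, (∫ p in SQ, qd f0 p * (NN p ^ 3)⁻¹)
      ≤ ∑ k : Fin 3, ∫ p in SQ, qd (P k) p * (NN p ^ 3)⁻¹ :=
    Finset.sum_le_sum fun k _ => qd_ge hM (hP k)
  rw [Finset.sum_const, Finset.card_univ, Fintype.card_fin, nsmul_eq_mul] at h3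
  have := hL
  unfold L3 at this
  push_cast at h3
  linarith

end Helper22.MEI
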