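import Pool.Agent.Helper22.MEI.Stokes

/-!
# Project MEI: flux of a vector field through the surface, first variation
-/

namespace Helper22.MEI

open Set MeasureTheory Filter Topology

variable {f h k : ℝ × ℝ → ℝ}

/-- the point of the surface -/
noncomputable def gp (f : ℝ × ℝ → ℝ) (p : ℝ × ℝ) : ℝ × ℝ × ℝ :=
  (dX f p, dY f p, f p - p.1 * dX f p - p.2 * dY f p)

/-- determinant of the Hessian -/
noncomputable def hd (f : ℝ × ℝ → ℝ) (p : ℝ × ℝ) : ℝ :=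
  dX (dX f) p * dY (dY f) p - dX (dY f) p * dY (dX f) p

/-- partial derivatives in the space -/
noncomputable def E1 (F : ℝ × ℝ × ℝ → ℝ) (q : ℝ × ℝ × ℝ) : ℝ := fderiv ℝ F q (1, 0, 0)

noncomputable def E2 (F : ℝ × ℝ × ℝ → ℝ) (q : ℝ × ℝ × ℝ) : ℝ := fderiv ℝ F q (0, 1, 0)

noncomputable def E3 (F : ℝ × ℝ × ℝ → ℝ) (q : ℝ × ℝ × ℝ) : ℝ := fderiv ℝ F q (0, 0, 1)

noncomputable def dv (F1 F2 F3 : ℝ × ℝ × ℝ → ℝ) (q : ℝ × ℝ × ℝ) : ℝ := E1 F1 q + E2 F2 q + E3 F3 q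

/-- flux through the surface -/
noncomputable def Phi (F1 F2 F3 : ℝ × ℝ × ℝ → ℝ) (f : ℝ × ℝ → ℝ) : ℝ :=
  ∫ p in SQ, (F1 (gp f p) * p.1 + F2 (gp f p) * p.2 + F3 (gp f p)) * hd f p

/-! ### Lipschitz functions on the closed square -/

def Lp (F : ℝ × ℝ → ℝ) : Prop := ∃ K, LipschitzOnWith K F CQ

theorem Lp.mul {F G : ℝ × ℝ → ℝ} (hF : Lp F) (hG : Lp G) : Lp (fun p => F p * G p) := by
  obtain ⟨K, hK⟩ := hF
  obtain ⟨L, hL⟩ := hG
  exact lipOn_mul hK hL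

theorem Lp.sub {F G : ℝ × ℝ → ℝ} (hF : Lp F) (hG : Lp G) : Lp (fun p => F p - G p) := by
  obtain ⟨K, hK⟩ := hF
  obtain ⟨L, hL⟩ := hG
  exact ⟨_, lip_sub hK hL⟩

theorem Lp.const (c : ℝ) : Lp (fun _ => c) := ⟨0, (LipschitzWith.const c).lipschitzOnWith⟩

theorem Lp.neg {F : ℝ × ℝ → ℝ} (hF : Lp F) : Lp (fun p => -F p) := by
  simpa only [zero_sub] using (Lp.const 0).sub hF

theorem Lp.add {F G : ℝ × ℝ → ℝ} (hF : Lp F) (hG : Lp G) : Lp (fun p => F p + G p) := by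
  simpa only [sub_neg_eq_add] using hF.sub hG.neg

theorem Lp.of {K : NNReal} {F : ℝ × ℝ → ℝ} (h : LipschitzWith K F) : Lp F :=
  ⟨K, h.lipschitzOnWith⟩

theorem Lp.loc {F : ℝ × ℝ → ℝ} (h : LocallyLipschitz F) : Lp F := lipOn_of_loc h

theorem Lp.fst : Lp (fun p => p.1) := Lp.of LipschitzWith.prod_fst

theorem Lp.snd : Lp (fun p => p.2) := Lp.of LipschitzWith.prod_snd

theorem Lp.cont {F : ℝ × ℝ → ℝ} (h : Lp F) : ContinuousOn F CQ := by
  obtain ⟨K, hK⟩ := h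
  exact hK.continuousOn

theorem Lp.ae {F : ℝ × ℝ → ℝ} (h : Lp F) : ∀ᵐ p : ℝ × ℝ, p ∈ SQ → DifferentiableAt ℝ F p := by
  obtain ⟨K, hK⟩ := h
  exact lip_ae hK

theorem Adm.lp (h : Adm f) : Lp f := Lp.loc h.cv.locallyLipschitz

theorem Adm.lpX (h : Adm f) : Lp (dX f) := Lp.of h.LX

theorem Adm.lpY (h : Adm f) : Lp (dY f) := Lp.of h.LY

theorem Adm.lp3 (h : Adm f) : Lp (fun p => f p - p.1 * dX f p - p.2 * dY f p) :=
  (h.lp.sub (Lp.fst.mul h.lpX)).sub (Lp.snd.mul h.lpY)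

theorem gp_cont (h : Adm f) : Continuous (gp f) := by
  have h1 := h.cX
  have h2 := h.cY
  have h3 := h.diff.continuous
  unfold gp
  fun_prop

/-- composition with a `C^1` function in the space -/
theorem Lp.comp3 {F : ℝ × ℝ × ℝ → ℝ} (hF : ContDiff ℝ 1 F) {a b c : ℝ × ℝ → ℝ} (ha : Lp a)
    (hb : Lp b) (hc : Lp c) : Lp (fun p => F (a p, b p, c p)) := by
  obtain ⟨K1, h1⟩ := ha
  obtain ⟨K2, h2⟩ := hb
  obtain ⟨K3, h3⟩ := hc
  have hG : LipschitzOnWith (max K1 (max K2 K3)) (fun p => (a p, b p, c p)) CQ :=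
    h1.prodMk (h2.prodMk h3)
  have hS : IsCompact ((fun p => (a p, b p, c p)) '' CQ) :=
    CQ_compact.image_of_continuousOn hG.continuousOn
  obtain ⟨L, hL⟩ := (hF.locallyLipschitz.locallyLipschitzOn
    (s := (fun p => (a p, b p, c p)) '' CQ)).exists_lipschitzOnWith_of_compact hS
  exact ⟨_, hL.comp hG (mapsTo_image _ _)⟩

/-- Jacobian -/
noncomputable def Jc (a b : ℝ × ℝ → ℝ) (p : ℝ × ℝ) : ℝ := dX a p * dY b p - dY a p * dX b p

/-- version of Stokes used below -/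
theorem Lp.jac {a b : ℝ × ℝ → ℝ} (ha : Lp a) (hb : Lp b)
    (h0 : ∀ p ∈ CQ, |p.1| = s ∨ |p.2| = s → a p = 0) :
    ∫ p in SQ, Jc a b p = 0 := by
  obtain ⟨K, hK⟩ := ha
  obtain ⟨L, hL⟩ := hb
  exact jac_zero' hK hL h0

theorem Lp.jint {a b : ℝ × ℝ → ℝ} (ha : Lp a) (hb : Lp b) :
    IntegrableOn (fun p => Jc a b p) SQ := by
  obtain ⟨K, hK⟩ := ha
  obtain ⟨L, hL⟩ := hb
  exact Integrable.sub (dXY_int hK hL _ _) (dXY_int hK hL _ _)

/-! ### derivatives -/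

theorem fd3 (F : ℝ × ℝ × ℝ → ℝ) (q v : ℝ × ℝ × ℝ) :
    fderiv ℝ F q v = E1 F q * v.1 + E2 F q * v.2.1 + E3 F q * v.2.2 := by
  have e : v = v.1 • ((1 : ℝ), (0 : ℝ), (0 : ℝ)) + v.2.1 • ((0 : ℝ), (1 : ℝ), (0 : ℝ))
      + v.2.2 • ((0 : ℝ), (0 : ℝ), (1 : ℝ)) := by
    ext <;> simp
  conv_lhs => rw [e]
  rw [map_add, map_add, map_smul, map_smul, map_smul]
  simp only [E1, E2, E3, smul_eq_mul]
  ring

theorem comp_fd {F : ℝ × ℝ × ℝ → ℝ} (hF : ContDiff ℝ 1 F) {a b c : ℝ × ℝ → ℝ} {p : ℝ × ℝ}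
    (ha : DifferentiableAt ℝ a p) (hb : DifferentiableAt ℝ b p) (hc : DifferentiableAt ℝ c p)
    (v : ℝ × ℝ) : fderiv ℝ (fun p => F (a p, b p, c p)) p v
      = E1 F (a p, b p, c p) * fderiv ℝ a p v + E2 F (a p, b p, c p) * fderiv ℝ b p v
        + E3 F (a p, b p, c p) * fderiv ℝ c p v := by
  have h1 : HasFDerivAt (fun p => (a p, b p, c p))
      ((fderiv ℝ a p).prod ((fderiv ℝ b p).prod (fderiv ℝ c p))) p :=
    ha.hasFDerivAt.prodMk (hb.hasFDerivAt.prodMk hc.hasFDerivAt)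
  have h2 : HasFDerivAt F (fderiv ℝ F (a p, b p, c p)) (a p, b p, c p) :=
    ((hF.differentiable one_ne_zero) _).hasFDerivAt
  have h3 := (h2.comp p h1).fderiv
  have e : (F ∘ fun p => (a p, b p, c p)) = fun p => F (a p, b p, c p) := rfl
  rw [e] at h3
  rw [h3, ContinuousLinearMap.comp_apply, fd3]
  rfl

theorem mul_fd {a b : ℝ × ℝ → ℝ} {p : ℝ × ℝ} (ha : DifferentiableAt ℝ a p)
    (hb : DifferentiableAt ℝ b p) (v : ℝ × ℝ) :
    fderiv ℝ (fun p => a p * b p) p v = fderiv ℝ a p v * b p + a p * fderiv ℝ b p v := by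
  have h := (ha.hasFDerivAt.mul hb.hasFDerivAt).fderiv
  have e : (a * b) = fun p => a p * b p := rfl
  rw [e] at h
  rw [h]
  simp only [ContinuousLinearMap.add_apply, ContinuousLinearMap.smul_apply, smul_eq_mul]
  ring

theorem sub_fd {a b : ℝ × ℝ → ℝ} {p : ℝ × ℝ} (ha : DifferentiableAt ℝ a p)
    (hb : DifferentiableAt ℝ b p) (v : ℝ × ℝ) :
    fderiv ℝ (fun p => a p - b p) p v = fderiv ℝ a p v - fderiv ℝ b p v := by
  have h := (ha.hasFDerivAt.sub hb.hasFDerivAt).fderiv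
  have e : (a - b) = fun p => a p - b p := rfl
  rw [e] at h
  rw [h]
  rfl

theorem third_diff (hf : Differentiable ℝ f) {p : ℝ × ℝ} (hx : DifferentiableAt ℝ (dX f) p)
    (hy : DifferentiableAt ℝ (dY f) p) :
    HasFDerivAt (fun p => f p - p.1 * dX f p - p.2 * dY f p)
      (-(p.1 • fderiv ℝ (dX f) p) - p.2 • fderiv ℝ (dY f) p) p := by
  have h1 := (hf p).hasFDerivAt
  have h2 : HasFDerivAt (fun q : ℝ × ℝ => q.1) (ContinuousLinearMap.fst ℝ ℝ ℝ) p := hasFDerivAt_fst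
  have h3 : HasFDerivAt (fun q : ℝ × ℝ => q.2) (ContinuousLinearMap.snd ℝ ℝ ℝ) p := hasFDerivAt_snd
  have h4 := (h1.sub (h2.mul hx.hasFDerivAt)).sub (h3.mul hy.hasFDerivAt)
  refine HasFDerivAt.congr_fderiv (f := fun p => f p - p.1 * dX f p - p.2 * dY f p) h4 ?_
  ext
  · simp [dX, dY]
  · simp [dX, dY]
    ring

/-- convex combination -/
noncomputable def cb (r : ℝ) (f h : ℝ × ℝ → ℝ) (p : ℝ × ℝ) : ℝ := (1 - r) * f p + r * h p

theorem cb_fd (hf : Differentiable ℝ f) (hh : Differentiable ℝ h) (r : ℝ) (p : ℝ × ℝ) :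
    HasFDerivAt (cb r f h) ((1 - r) • fderiv ℝ f p + r • fderiv ℝ h p) p :=
  ((hf p).hasFDerivAt.const_mul (1 - r)).add ((hh p).hasFDerivAt.const_mul r)

theorem dX_cb (hf : Differentiable ℝ f) (hh : Differentiable ℝ h) (r : ℝ) :
    dX (cb r f h) = cb r (dX f) (dX h) := by
  funext p
  show fderiv ℝ (cb r f h) p (1, 0) = _
  rw [(cb_fd hf hh r p).fderiv]
  rfl

theorem dY_cb (hf : Differentiable ℝ f) (hh : Differentiable ℝ h) (r : ℝ) :
    dY (cb r f h) = cb r (dY f) (dY h) := by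
  funext p
  show fderiv ℝ (cb r f h) p (0, 1) = _
  rw [(cb_fd hf hh r p).fderiv]
  rfl

theorem cb_fdAt {a b : ℝ × ℝ → ℝ} {p : ℝ × ℝ} (ha : DifferentiableAt ℝ a p)
    (hb : DifferentiableAt ℝ b p) (r : ℝ) :
    HasFDerivAt (cb r a b) ((1 - r) • fderiv ℝ a p + r • fderiv ℝ b p) p :=
  (ha.hasFDerivAt.const_mul (1 - r)).add (hb.hasFDerivAt.const_mul r)

theorem dX_cbAt {a b : ℝ × ℝ → ℝ} {p : ℝ × ℝ} (ha : DifferentiableAt ℝ a p)
    (hb : DifferentiableAt ℝ b p) (r : ℝ) : dX (cb r a b) p = (1 - r) * dX a p + r * dX b p := by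
  unfold dX
  rw [(cb_fdAt ha hb r).fderiv]
  rfl

theorem dY_cbAt {a b : ℝ × ℝ → ℝ} {p : ℝ × ℝ} (ha : DifferentiableAt ℝ a p)
    (hb : DifferentiableAt ℝ b p) (r : ℝ) : dY (cb r a b) p = (1 - r) * dY a p + r * dY b p := by
  unfold dY
  rw [(cb_fdAt ha hb r).fderiv]
  rfl

theorem Adm.comb (hf : Adm f) (hh : Adm h) {r : ℝ} (h0 : 0 ≤ r) (h1 : r ≤ 1) :
    Adm (cb r f h) where
  diff := fun p => (cb_fd hf.diff hh.diff r p).differentiableAt
  cv := (hf.cv.smul (by linarith : (0 : ℝ) ≤ 1 - r)).add (hh.cv.smul h0)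
  cvN := by
    have h2 := (hf.cvN.smul (by linarith : (0 : ℝ) ≤ 1 - r)).add (hh.cvN.smul h0)
    have e : (fun p => NN p - cb r f h p)
        = (fun p => (1 - r) • (NN p - f p)) + fun p => r • (NN p - h p) := by
      funext p
      simp only [cb, Pi.add_apply, smul_eq_mul]
      ring
    rw [e]
    exact h2
  bX := fun p h1 h2 => by
    unfold cb; rw [hf.bX p h1 h2, hh.bX p h1 h2]; ring
  bY := fun p h1 h2 => by
    unfold cb; rw [hf.bY p h1 h2, hh.bY p h1 h2]; ring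
  gXX := fun p h1 h2 => by
    rw [dX_cb hf.diff hh.diff]; unfold cb; rw [hf.gXX p h1 h2, hh.gXX p h1 h2]; ring
  gXY := fun p h1 h2 => by
    rw [dY_cb hf.diff hh.diff]; unfold cb; rw [hf.gXY p h1 h2, hh.gXY p h1 h2]; ring
  gYX := fun p h1 h2 => by
    rw [dX_cb hf.diff hh.diff]; unfold cb; rw [hf.gYX p h1 h2, hh.gYX p h1 h2]; ring
  gYY := fun p h1 h2 => by
    rw [dY_cb hf.diff hh.diff]; unfold cb; rw [hf.gYY p h1 h2, hh.gYY p h1 h2]; ring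

/-- all admissible functions have the same values and gradients on the boundary -/
theorem Adm.bdry (hf : Adm f) (hh : Adm h) {p : ℝ × ℝ} (hp : p ∈ CQ)
    (hb : |p.1| = s ∨ |p.2| = s) : f p = h p ∧ dX f p = dX h p ∧ dY f p = dY h p := by
  have h1 : |p.1| ≤ s := abs_le.2 hp.1
  have h2 : |p.2| ≤ s := abs_le.2 hp.2
  rcases hb with hb | hb
  · exact ⟨by rw [hf.bX p hb h2, hh.bX p hb h2], by rw [hf.gXX p hb h2, hh.gXX p hb h2],
      by rw [hf.gXY p hb h2, hh.gXY p hb h2]⟩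
  · exact ⟨by rw [hf.bY p hb h1, hh.bY p hb h1], by rw [hf.gYX p hb h1, hh.gYX p hb h1],
      by rw [hf.gYY p hb h1, hh.gYY p hb h1]⟩

/-- the algebra of the first variation -/
theorem alg_var (X Y R M T R' M' T' F1 F2 F3 a11 a12 a13 a21 a22 a23 a31 a32 a33 w1 w2 w3 δ : ℝ)
    (hw : w3 = δ - X * w1 - Y * w2) :
    ((a11 * w1 + a12 * w2 + a13 * w3) * X + (a21 * w1 + a22 * w2 + a23 * w3) * Y
        + (a31 * w1 + a32 * w2 + a33 * w3)) * (R * T - M * M)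
      + (F1 * X + F2 * Y + F3) * (R * T' + R' * T - M * M' - M' * M)
    = (a11 + a22 + a33) * δ * (R * T - M * M)
      + (((a11 * R + a12 * M + a13 * (-(X * R) - Y * M)) * w2 + F1 * M') * (-(X * M) - Y * T)
          - ((a11 * M + a12 * T + a13 * (-(X * M) - Y * T)) * w2 + F1 * T') * (-(X * R) - Y * M))
      - (((a11 * R + a12 * M + a13 * (-(X * R) - Y * M)) * w3 + F1 * (-(X * R') - Y * M')) * T
          - ((a11 * M + a12 * T + a13 * (-(X * M) - Y * T)) * w3 + F1 * (-(X * M') - Y * T')) * M)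
      + (((a21 * R + a22 * M + a23 * (-(X * R) - Y * M)) * w3 + F2 * (-(X * R') - Y * M')) * M
          - ((a21 * M + a22 * T + a23 * (-(X * M) - Y * T)) * w3 + F2 * (-(X * M') - Y * T')) * R)
      - (((a21 * R + a22 * M + a23 * (-(X * R) - Y * M)) * w1 + F2 * R') * (-(X * M) - Y * T)
          - ((a21 * M + a22 * T + a23 * (-(X * M) - Y * T)) * w1 + F2 * M') * (-(X * R) - Y * M))
      + (((a31 * R + a32 * M + a33 * (-(X * R) - Y * M)) * w1 + F3 * R') * T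
          - ((a31 * M + a32 * T + a33 * (-(X * M) - Y * T)) * w1 + F3 * M') * M)
      - (((a31 * R + a32 * M + a33 * (-(X * R) - Y * M)) * w2 + F3 * M') * M
          - ((a31 * M + a32 * T + a33 * (-(X * M) - Y * T)) * w2 + F3 * T') * R) := by
  subst hw
  ring

/-! ### first variation -/

/-- mixed second variation of the determinant -/
noncomputable def mx (k f h : ℝ × ℝ → ℝ) (p : ℝ × ℝ) : ℝ :=
  dX (dX k) p * (dY (dY h) p - dY (dY f) p) + (dX (dX h) p - dX (dX f) p) * dY (dY k) p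
    - dX (dY k) p * (dY (dX h) p - dY (dX f) p) - (dX (dY h) p - dX (dY f) p) * dY (dX k) p

/-- integrand of the first variation -/
noncomputable def vi (F1 F2 F3 : ℝ × ℝ × ℝ → ℝ) (k f h : ℝ × ℝ → ℝ) (p : ℝ × ℝ) : ℝ :=
  ((E1 F1 (gp k p) * ((gp h p).1 - (gp f p).1) + E2 F1 (gp k p) * ((gp h p).2.1 - (gp f p).2.1)
      + E3 F1 (gp k p) * ((gp h p).2.2 - (gp f p).2.2)) * p.1
    + (E1 F2 (gp k p) * ((gp h p).1 - (gp f p).1) + E2 F2 (gp k p) * ((gp h p).2.1 - (gp f p).2.1)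
      + E3 F2 (gp k p) * ((gp h p).2.2 - (gp f p).2.2)) * p.2
    + (E1 F3 (gp k p) * ((gp h p).1 - (gp f p).1) + E2 F3 (gp k p) * ((gp h p).2.1 - (gp f p).2.1)
      + E3 F3 (gp k p) * ((gp h p).2.2 - (gp f p).2.2))) * hd k p
  + (F1 (gp k p) * p.1 + F2 (gp k p) * p.2 + F3 (gp k p)) * mx k f h p

theorem good_fd {F : ℝ × ℝ → ℝ} {K : NNReal} (h : LipschitzWith K F) (v : ℝ × ℝ) :
    Good (fun p => fderiv ℝ F p v) := by
  refine ⟨measurable_fderiv_apply_const ℝ F v, fun _ => K * ‖v‖, continuous_const, fun p => ?_⟩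
  have h1 : ‖fderiv ℝ F p‖ ≤ K := norm_fderiv_le_of_lipschitz ℝ h
  have h2 := (fderiv ℝ F p).le_opNorm v
  rw [Real.norm_eq_abs] at h2
  exact h2.trans (mul_le_mul_of_nonneg_right h1 (norm_nonneg v))

theorem Adm.gXX' (h : Adm f) : Good (dX (dX f)) := good_fd h.LX _

theorem Adm.gXY' (h : Adm f) : Good (dX (dY f)) := good_fd h.LY _

theorem Adm.gYX' (h : Adm f) : Good (dY (dX f)) := good_fd h.LX _

theorem Adm.gYY' (h : Adm f) : Good (dY (dY f)) := good_fd h.LY _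

theorem Adm.ghd (h : Adm f) : Good (hd f) := (h.gXX'.mul h.gYY').sub (h.gXY'.mul h.gYX')

theorem E1_cont {F : ℝ × ℝ × ℝ → ℝ} (hF : ContDiff ℝ 1 F) : Continuous (E1 F) :=
  (hF.continuous_fderiv one_ne_zero).clm_apply continuous_const

theorem E2_cont {F : ℝ × ℝ × ℝ → ℝ} (hF : ContDiff ℝ 1 F) : Continuous (E2 F) :=
  (hF.continuous_fderiv one_ne_zero).clm_apply continuous_const

theorem E3_cont {F : ℝ × ℝ × ℝ → ℝ} (hF : ContDiff ℝ 1 F) : Continuous (E3 F) :=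
  (hF.continuous_fderiv one_ne_zero).clm_apply continuous_const

theorem dv_cont {F1 F2 F3 : ℝ × ℝ × ℝ → ℝ} (h1 : ContDiff ℝ 1 F1) (h2 : ContDiff ℝ 1 F2)
    (h3 : ContDiff ℝ 1 F3) : Continuous (dv F1 F2 F3) :=
  ((E1_cont h1).add (E2_cont h2)).add (E3_cont h3)

variable {F1 F2 F3 : ℝ × ℝ × ℝ → ℝ}

theorem vi_ae (h1 : ContDiff ℝ 1 F1) (h2 : ContDiff ℝ 1 F2) (h3 : ContDiff ℝ 1 F3)
    (hf : Differentiable ℝ f) (hh : Differentiable ℝ h) {p : ℝ × ℝ} (Hk : Hess k p)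
    (Hf : Hess f p) (Hh : Hess h p) (hk : Differentiable ℝ k) :
    vi F1 F2 F3 k f h p = dv F1 F2 F3 (gp k p) * (h p - f p) * hd k p
      + Jc (fun p => F1 (gp k p) * ((gp h p).2.1 - (gp f p).2.1)) (fun p => (gp k p).2.2) p
      - Jc (fun p => F1 (gp k p) * ((gp h p).2.2 - (gp f p).2.2)) (fun p => (gp k p).2.1) p
      + Jc (fun p => F2 (gp k p) * ((gp h p).2.2 - (gp f p).2.2)) (fun p => (gp k p).1) p
      - Jc (fun p => F2 (gp k p) * ((gp h p).1 - (gp f p).1)) (fun p => (gp k p).2.2) p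
      + Jc (fun p => F3 (gp k p) * ((gp h p).1 - (gp f p).1)) (fun p => (gp k p).2.1) p
      - Jc (fun p => F3 (gp k p) * ((gp h p).2.1 - (gp f p).2.1)) (fun p => (gp k p).1) p := by
  -- derivatives of the third component
  have tk := third_diff hk Hk.dx Hk.dy
  have tf := third_diff hf Hf.dx Hf.dy
  have th := third_diff hh Hh.dx Hh.dy
  have dF : ∀ (F : ℝ × ℝ × ℝ → ℝ), ContDiff ℝ 1 F →
      DifferentiableAt ℝ (fun p => F (gp k p)) p := by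
    intro F hF
    exact ((hF.differentiable one_ne_zero) _).comp p
      (Hk.dx.prodMk (Hk.dy.prodMk tk.differentiableAt))
  have fF : ∀ (F : ℝ × ℝ × ℝ → ℝ), ContDiff ℝ 1 F → ∀ v, fderiv ℝ (fun p => F (gp k p)) p v
      = E1 F (gp k p) * fderiv ℝ (dX k) p v + E2 F (gp k p) * fderiv ℝ (dY k) p v
        + E3 F (gp k p) * (-(p.1 * fderiv ℝ (dX k) p v) - p.2 * fderiv ℝ (dY k) p v) := by
    intro F hF v
    have := comp_fd hF Hk.dx Hk.dy tk.differentiableAt v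
    rw [tk.fderiv] at this
    exact this
  have g3 : ∀ v, fderiv ℝ (fun p => (gp k p).2.2) p v
      = -(p.1 * fderiv ℝ (dX k) p v) - p.2 * fderiv ℝ (dY k) p v := by
    intro v
    show fderiv ℝ (fun p => k p - p.1 * dX k p - p.2 * dY k p) p v = _
    rw [tk.fderiv]
    rfl
  have g2 : ∀ v, fderiv ℝ (fun p => (gp k p).2.1) p v = fderiv ℝ (dY k) p v := fun v => rfl
  have g1 : ∀ v, fderiv ℝ (fun p => (gp k p).1) p v = fderiv ℝ (dX k) p v := fun v => rfl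
  -- the differences
  have d1 : DifferentiableAt ℝ (fun p => (gp h p).1 - (gp f p).1) p := Hh.dx.sub Hf.dx
  have d2 : DifferentiableAt ℝ (fun p => (gp h p).2.1 - (gp f p).2.1) p := Hh.dy.sub Hf.dy
  have d3 : DifferentiableAt ℝ (fun p => (gp h p).2.2 - (gp f p).2.2) p :=
    th.differentiableAt.sub tf.differentiableAt
  have f1 : ∀ v, fderiv ℝ (fun p => (gp h p).1 - (gp f p).1) p v
      = fderiv ℝ (dX h) p v - fderiv ℝ (dX f) p v := fun v => sub_fd Hh.dx Hf.dx v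
  have f2 : ∀ v, fderiv ℝ (fun p => (gp h p).2.1 - (gp f p).2.1) p v
      = fderiv ℝ (dY h) p v - fderiv ℝ (dY f) p v := fun v => sub_fd Hh.dy Hf.dy v
  have f3 : ∀ v, fderiv ℝ (fun p => (gp h p).2.2 - (gp f p).2.2) p v
      = -(p.1 * (fderiv ℝ (dX h) p v - fderiv ℝ (dX f) p v))
        - p.2 * (fderiv ℝ (dY h) p v - fderiv ℝ (dY f) p v) := by
    intro v
    have := sub_fd th.differentiableAt tf.differentiableAt v
    rw [th.fderiv, tf.fderiv] at this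
    refine this.trans ?_
    simp only [ContinuousLinearMap.sub_apply, ContinuousLinearMap.neg_apply,
      ContinuousLinearMap.smul_apply, smul_eq_mul]
    ring
  have sk : fderiv ℝ (dY k) p (1, 0) = fderiv ℝ (dX k) p (0, 1) := Hk.symm.symm
  have sf : fderiv ℝ (dY f) p (1, 0) = fderiv ℝ (dX f) p (0, 1) := Hf.symm.symm
  have sh : fderiv ℝ (dY h) p (1, 0) = fderiv ℝ (dX h) p (0, 1) := Hh.symm.symm
  have key := alg_var p.1 p.2 (fderiv ℝ (dX k) p (1, 0)) (fderiv ℝ (dX k) p (0, 1))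
    (fderiv ℝ (dY k) p (0, 1)) (fderiv ℝ (dX h) p (1, 0) - fderiv ℝ (dX f) p (1, 0))
    (fderiv ℝ (dX h) p (0, 1) - fderiv ℝ (dX f) p (0, 1))
    (fderiv ℝ (dY h) p (0, 1) - fderiv ℝ (dY f) p (0, 1))
    (F1 (gp k p)) (F2 (gp k p)) (F3 (gp k p)) (E1 F1 (gp k p)) (E2 F1 (gp k p)) (E3 F1 (gp k p))
    (E1 F2 (gp k p)) (E2 F2 (gp k p)) (E3 F2 (gp k p)) (E1 F3 (gp k p)) (E2 F3 (gp k p))
    (E3 F3 (gp k p)) ((gp h p).1 - (gp f p).1) ((gp h p).2.1 - (gp f p).2.1)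
    ((gp h p).2.2 - (gp f p).2.2) (h p - f p) (by simp only [gp]; ring)
  unfold Jc vi mx hd dv
  simp only [dX, dY] at *
  rw [mul_fd (dF F1 h1) d2, mul_fd (dF F1 h1) d2, mul_fd (dF F1 h1) d3, mul_fd (dF F1 h1) d3,
    mul_fd (dF F2 h2) d3, mul_fd (dF F2 h2) d3, mul_fd (dF F2 h2) d1, mul_fd (dF F2 h2) d1,
    mul_fd (dF F3 h3) d1, mul_fd (dF F3 h3) d1, mul_fd (dF F3 h3) d2, mul_fd (dF F3 h3) d2]
  simp only [fF F1 h1, fF F2 h2, fF F3 h3, g1, g2, g3, f1, f2, f3, sk, sf, sh]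
  linear_combination key

theorem gp1 (h : Adm f) : Lp (fun p => (gp f p).1) := h.lpX

theorem gp2 (h : Adm f) : Lp (fun p => (gp f p).2.1) := h.lpY

theorem gp3 (h : Adm f) : Lp (fun p => (gp f p).2.2) := h.lp3

theorem lpF {F : ℝ × ℝ × ℝ → ℝ} (hF : ContDiff ℝ 1 F) (hk : Adm k) : Lp (fun p => F (gp k p)) :=
  Lp.comp3 hF hk.lpX hk.lpY hk.lp3

theorem gp_bdry (hf : Adm f) (hh : Adm h) {p : ℝ × ℝ} (hp : p ∈ CQ)
    (hb : |p.1| = s ∨ |p.2| = s) : gp h p = gp f p := by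
  obtain ⟨e1, e2, e3⟩ := hf.bdry hh hp hb
  unfold gp
  rw [e1, e2, e3]

theorem Good.gF {F : ℝ × ℝ × ℝ → ℝ} (hF : Continuous F) (hk : Adm k) :
    Good (fun p => F (gp k p)) := Good.cont (hF.comp (gp_cont hk))

theorem Adm.gf (h : Adm f) : Good f := Good.cont h.diff.continuous

theorem int7 {a0 a1 a2 a3 a4 a5 a6 : ℝ × ℝ → ℝ} (h0 : IntegrableOn a0 SQ)
    (h1 : IntegrableOn a1 SQ) (h2 : IntegrableOn a2 SQ) (h3 : IntegrableOn a3 SQ)
    (h4 : IntegrableOn a4 SQ) (h5 : IntegrableOn a5 SQ) (h6 : IntegrableOn a6 SQ) :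
    ∫ p in SQ, (a0 p + a1 p - a2 p + a3 p - a4 p + a5 p - a6 p)
      = (∫ p in SQ, a0 p) + (∫ p in SQ, a1 p) - (∫ p in SQ, a2 p) + (∫ p in SQ, a3 p)
        - (∫ p in SQ, a4 p) + (∫ p in SQ, a5 p) - ∫ p in SQ, a6 p := by
  have k1 : IntegrableOn (fun p => a0 p + a1 p) SQ := h0.add h1
  have k2 : IntegrableOn (fun p => a0 p + a1 p - a2 p) SQ := k1.sub h2
  have k3 : IntegrableOn (fun p => a0 p + a1 p - a2 p + a3 p) SQ := k2.add h3
  have k4 : IntegrableOn (fun p => a0 p + a1 p - a2 p + a3 p - a4 p) SQ := k3.sub h4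
  have k5 : IntegrableOn (fun p => a0 p + a1 p - a2 p + a3 p - a4 p + a5 p) SQ := k4.add h5
  rw [integral_sub k5 h6, integral_add k4 h5, integral_sub k3 h4, integral_add k2 h3,
    integral_sub k1 h2, integral_add h0 h1]

/-- **first variation of the flux** -/
theorem first_var (h1 : ContDiff ℝ 1 F1) (h2 : ContDiff ℝ 1 F2) (h3 : ContDiff ℝ 1 F3)
    (hk : Adm k) (hf : Adm f) (hh : Adm h) :
    ∫ p in SQ, vi F1 F2 F3 k f h p
      = ∫ p in SQ, dv F1 F2 F3 (gp k p) * (h p - f p) * hd k p := by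
  have w1 : Lp (fun p => (gp h p).1 - (gp f p).1) := (gp1 hh).sub (gp1 hf)
  have w2 : Lp (fun p => (gp h p).2.1 - (gp f p).2.1) := (gp2 hh).sub (gp2 hf)
  have w3 : Lp (fun p => (gp h p).2.2 - (gp f p).2.2) := (gp3 hh).sub (gp3 hf)
  have a1 := (lpF h1 hk).mul w2
  have a2 := (lpF h1 hk).mul w3
  have a3 := (lpF h2 hk).mul w3
  have a4 := (lpF h2 hk).mul w1
  have a5 := (lpF h3 hk).mul w1
  have a6 := (lpF h3 hk).mul w2
  have z1 := a1.jac (gp3 hk) fun p hp hb => by rw [gp_bdry hf hh hp hb]; ring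
  have z2 := a2.jac (gp2 hk) fun p hp hb => by rw [gp_bdry hf hh hp hb]; ring
  have z3 := a3.jac (gp1 hk) fun p hp hb => by rw [gp_bdry hf hh hp hb]; ring
  have z4 := a4.jac (gp3 hk) fun p hp hb => by rw [gp_bdry hf hh hp hb]; ring
  have z5 := a5.jac (gp2 hk) fun p hp hb => by rw [gp_bdry hf hh hp hb]; ring
  have z6 := a6.jac (gp1 hk) fun p hp hb => by rw [gp_bdry hf hh hp hb]; ring
  have i1 := a1.jint (gp3 hk)
  have i2 := a2.jint (gp2 hk)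
  have i3 := a3.jint (gp1 hk)
  have i4 := a4.jint (gp3 hk)
  have i5 := a5.jint (gp2 hk)
  have i6 := a6.jint (gp1 hk)
  have gH : Good (fun p => dv F1 F2 F3 (gp k p) * (h p - f p) * hd k p) :=
    ((Good.gF (dv_cont h1 h2 h3) hk).mul (hh.gf.sub hf.gf)).mul hk.ghd
  have iH := gH.int
  have e : ∫ p in SQ, vi F1 F2 F3 k f h p
      = ∫ p in SQ, (dv F1 F2 F3 (gp k p) * (h p - f p) * hd k p
      + Jc (fun p => F1 (gp k p) * ((gp h p).2.1 - (gp f p).2.1)) (fun p => (gp k p).2.2) p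
      - Jc (fun p => F1 (gp k p) * ((gp h p).2.2 - (gp f p).2.2)) (fun p => (gp k p).2.1) p
      + Jc (fun p => F2 (gp k p) * ((gp h p).2.2 - (gp f p).2.2)) (fun p => (gp k p).1) p
      - Jc (fun p => F2 (gp k p) * ((gp h p).1 - (gp f p).1)) (fun p => (gp k p).2.2) p
      + Jc (fun p => F3 (gp k p) * ((gp h p).1 - (gp f p).1)) (fun p => (gp k p).2.1) p
      - Jc (fun p => F3 (gp k p) * ((gp h p).2.1 - (gp f p).2.1)) (fun p => (gp k p).1) p) := by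
    refine setIntegral_congr_ae SQ_meas ?_
    filter_upwards [hk.hess_ae, hf.hess_ae, hh.hess_ae] with p Hk Hf Hh _
    exact vi_ae h1 h2 h3 hf.diff hh.diff Hk Hf Hh hk.diff
  rw [e, int7 iH i1 i2 i3 i4 i5 i6, z1, z2, z3, z4, z5, z6]
  ring

end Helper22.MEI
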