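import Pool.Agent.Helper22.MEI.Flux

/-!
# Project MEI: homotopy formula for the flux
-/

namespace Helper22.MEI

open Set MeasureTheory Filter Topology

/-- measurable and locally bounded -/
def GB (g : (ℝ × ℝ) × ℝ → ℝ) : Prop :=
  Measurable g ∧ ∃ B : (ℝ × ℝ) × ℝ → ℝ, Continuous B ∧ ∀ p, |g p| ≤ B p

theorem GB.cont {g : (ℝ × ℝ) × ℝ → ℝ} (h : Continuous g) : GB g :=
  ⟨h.measurable, fun p => |g p|, h.abs, fun _ => le_rfl⟩

theorem GB.add {f g : (ℝ × ℝ) × ℝ → ℝ} (hf : GB f) (hg : GB g) : GB (fun p => f p + g p) := by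
  obtain ⟨mf, B, cB, bB⟩ := hf
  obtain ⟨mg, C, cC, bC⟩ := hg
  exact ⟨mf.add mg, fun p => B p + C p, cB.add cC,
    fun p => (abs_add_le _ _).trans (add_le_add (bB p) (bC p))⟩

theorem GB.mul {f g : (ℝ × ℝ) × ℝ → ℝ} (hf : GB f) (hg : GB g) : GB (fun p => f p * g p) := by
  obtain ⟨mf, B, cB, bB⟩ := hf
  obtain ⟨mg, C, cC, bC⟩ := hg
  refine ⟨mf.mul mg, fun p => B p * C p, cB.mul cC, fun p => ?_⟩
  rw [abs_mul]
  exact mul_le_mul (bB p) (bC p) (abs_nonneg _) ((abs_nonneg _).trans (bB p))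

theorem GB.neg {f : (ℝ × ℝ) × ℝ → ℝ} (hf : GB f) : GB (fun p => -f p) := by
  obtain ⟨mf, B, cB, bB⟩ := hf
  exact ⟨mf.neg, B, cB, fun p => by rw [abs_neg]; exact bB p⟩

theorem GB.sub {f g : (ℝ × ℝ) × ℝ → ℝ} (hf : GB f) (hg : GB g) : GB (fun p => f p - g p) := by
  simpa only [sub_eq_add_neg] using hf.add hg.neg

theorem GB.good {a : ℝ × ℝ → ℝ} (h : Good a) : GB (fun q => a q.1) := by
  obtain ⟨m, B, cB, bB⟩ := h
  exact ⟨m.comp measurable_fst, fun q => B q.1, cB.comp continuous_fst, fun q => bB q.1⟩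

theorem GB.snd : GB (fun q => q.2) := GB.cont continuous_snd

theorem GB.int {g : (ℝ × ℝ) × ℝ → ℝ} (h : GB g) :
    IntegrableOn g (SQ ×ˢ Ioc (0 : ℝ) 1) (volume.prod volume) := by
  obtain ⟨m, B, cB, bB⟩ := h
  have hK : IsCompact (CQ ×ˢ Icc (0 : ℝ) 1) := CQ_compact.prod isCompact_Icc
  obtain ⟨C, hC⟩ := hK.exists_bound_of_continuousOn cB.continuousOn
  have hsub : SQ ×ˢ Ioc (0 : ℝ) 1 ⊆ CQ ×ˢ Icc (0 : ℝ) 1 := prod_mono SQ_CQ Ioc_subset_Icc_self
  rw [← Measure.volume_eq_prod]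
  refine Measure.integrableOn_of_bounded (M := C) ?_ m.aestronglyMeasurable ?_
  · exact ((measure_mono hsub).trans_lt hK.measure_lt_top).ne
  · rw [ae_restrict_iff' (SQ_meas.prod measurableSet_Ioc)]
    exact Eventually.of_forall fun q hq =>
      (bB q).trans ((le_abs_self _).trans (hC q (hsub hq)))

variable {f h : ℝ × ℝ → ℝ} {F1 F2 F3 : ℝ × ℝ × ℝ → ℝ}

/-- interpolation -/
noncomputable def it (a b : ℝ × ℝ → ℝ) (q : (ℝ × ℝ) × ℝ) : ℝ := (1 - q.2) * a q.1 + q.2 * b q.1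

theorem it_good {a b : ℝ × ℝ → ℝ} (ha : Good a) (hb : Good b) : GB (it a b) :=
  ((GB.cont (by fun_prop : Continuous fun q : (ℝ × ℝ) × ℝ => 1 - q.2)).mul (GB.good ha)).add
    (GB.snd.mul (GB.good hb))

noncomputable def gq (f h : ℝ × ℝ → ℝ) (q : (ℝ × ℝ) × ℝ) : ℝ × ℝ × ℝ :=
  (it (dX f) (dX h) q, it (dY f) (dY h) q,
    it (fun p => (gp f p).2.2) (fun p => (gp h p).2.2) q)

theorem gp_cb (hf : Differentiable ℝ f) (hh : Differentiable ℝ h) (r : ℝ) (p : ℝ × ℝ) :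
    gp (cb r f h) p = gq f h (p, r) := by
  unfold gp gq it
  rw [dX_cb hf hh, dY_cb hf hh]
  unfold cb
  simp only [gp]
  refine Prod.ext rfl (Prod.ext rfl ?_)
  simp only
  ring

/-- explicit determinant -/
noncomputable def hq (f h : ℝ × ℝ → ℝ) (q : (ℝ × ℝ) × ℝ) : ℝ :=
  it (dX (dX f)) (dX (dX h)) q * it (dY (dY f)) (dY (dY h)) q
    - it (dX (dY f)) (dX (dY h)) q * it (dY (dX f)) (dY (dX h)) q

noncomputable def mq (f h : ℝ × ℝ → ℝ) (q : (ℝ × ℝ) × ℝ) : ℝ :=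
  it (dX (dX f)) (dX (dX h)) q * (dY (dY h) q.1 - dY (dY f) q.1)
    + (dX (dX h) q.1 - dX (dX f) q.1) * it (dY (dY f)) (dY (dY h)) q
    - it (dX (dY f)) (dX (dY h)) q * (dY (dX h) q.1 - dY (dX f) q.1)
    - (dX (dY h) q.1 - dX (dY f) q.1) * it (dY (dX f)) (dY (dX h)) q

noncomputable def vq (F1 F2 F3 : ℝ × ℝ × ℝ → ℝ) (f h : ℝ × ℝ → ℝ) (q : (ℝ × ℝ) × ℝ) : ℝ :=
  ((E1 F1 (gq f h q) * ((gp h q.1).1 - (gp f q.1).1)
      + E2 F1 (gq f h q) * ((gp h q.1).2.1 - (gp f q.1).2.1)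
      + E3 F1 (gq f h q) * ((gp h q.1).2.2 - (gp f q.1).2.2)) * q.1.1
    + (E1 F2 (gq f h q) * ((gp h q.1).1 - (gp f q.1).1)
      + E2 F2 (gq f h q) * ((gp h q.1).2.1 - (gp f q.1).2.1)
      + E3 F2 (gq f h q) * ((gp h q.1).2.2 - (gp f q.1).2.2)) * q.1.2
    + (E1 F3 (gq f h q) * ((gp h q.1).1 - (gp f q.1).1)
      + E2 F3 (gq f h q) * ((gp h q.1).2.1 - (gp f q.1).2.1)
      + E3 F3 (gq f h q) * ((gp h q.1).2.2 - (gp f q.1).2.2))) * hq f h q
  + (F1 (gq f h q) * q.1.1 + F2 (gq f h q) * q.1.2 + F3 (gq f h q)) * mq f h q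

theorem hd_cb (hf : Differentiable ℝ f) (hh : Differentiable ℝ h) {p : ℝ × ℝ} (Hf : Hess f p)
    (Hh : Hess h p) (r : ℝ) : hd (cb r f h) p = hq f h (p, r) := by
  unfold hd hq it
  rw [dX_cb hf hh, dY_cb hf hh, dX_cbAt Hf.dx Hh.dx, dX_cbAt Hf.dy Hh.dy, dY_cbAt Hf.dx Hh.dx,
    dY_cbAt Hf.dy Hh.dy]

theorem mx_cb (hf : Differentiable ℝ f) (hh : Differentiable ℝ h) {p : ℝ × ℝ} (Hf : Hess f p)
    (Hh : Hess h p) (r : ℝ) : mx (cb r f h) f h p = mq f h (p, r) := by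
  unfold mx mq it
  rw [dX_cb hf hh, dY_cb hf hh, dX_cbAt Hf.dx Hh.dx, dX_cbAt Hf.dy Hh.dy, dY_cbAt Hf.dx Hh.dx,
    dY_cbAt Hf.dy Hh.dy]

theorem vi_cb (hf : Differentiable ℝ f) (hh : Differentiable ℝ h) {p : ℝ × ℝ} (Hf : Hess f p)
    (Hh : Hess h p) (r : ℝ) : vi F1 F2 F3 (cb r f h) f h p = vq F1 F2 F3 f h (p, r) := by
  unfold vi vq
  rw [hd_cb hf hh Hf Hh, mx_cb hf hh Hf Hh, gp_cb hf hh]

theorem gq_cont (hf : Adm f) (hh : Adm h) : Continuous (gq f h) := by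
  have h1 := hf.cX
  have h2 := hf.cY
  have h3 := hf.diff.continuous
  have h4 := hh.cX
  have h5 := hh.cY
  have h6 := hh.diff.continuous
  unfold gq it gp
  fun_prop

theorem vq_GB (h1 : ContDiff ℝ 1 F1) (h2 : ContDiff ℝ 1 F2) (h3 : ContDiff ℝ 1 F3) (hf : Adm f)
    (hh : Adm h) : GB (vq F1 F2 F3 f h) := by
  have cg := gq_cont hf hh
  have i1 := it_good hf.gXX' hh.gXX'
  have i2 := it_good hf.gYY' hh.gYY'
  have i3 := it_good hf.gXY' hh.gXY'
  have i4 := it_good hf.gYX' hh.gYX'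
  have j1 := (GB.good hh.gXX').sub (GB.good hf.gXX')
  have j2 := (GB.good hh.gYY').sub (GB.good hf.gYY')
  have j3 := (GB.good hh.gXY').sub (GB.good hf.gXY')
  have j4 := (GB.good hh.gYX').sub (GB.good hf.gYX')
  have hhq : GB (hq f h) := (i1.mul i2).sub (i3.mul i4)
  have hmq : GB (mq f h) := (((i1.mul j2).add (j1.mul i2)).sub (i3.mul j4)).sub (j3.mul i4)
  have cE : ∀ {F : ℝ × ℝ × ℝ → ℝ}, Continuous F → GB (fun q => F (gq f h q)) := fun hF =>
    GB.cont (hF.comp cg)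
  have w1 : GB (fun q => (gp h q.1).1 - (gp f q.1).1) :=
    (GB.good (Good.cont hh.cX)).sub (GB.good (Good.cont hf.cX))
  have w2 : GB (fun q => (gp h q.1).2.1 - (gp f q.1).2.1) :=
    (GB.good (Good.cont hh.cY)).sub (GB.good (Good.cont hf.cY))
  have w3 : GB (fun q => (gp h q.1).2.2 - (gp f q.1).2.2) :=
    (GB.good (Good.cont (gp_cont hh).snd.snd)).sub (GB.good (Good.cont (gp_cont hf).snd.snd))
  have x1 : GB (fun q => q.1.1) := GB.cont (by fun_prop)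
  have x2 : GB (fun q => q.1.2) := GB.cont (by fun_prop)
  refine GB.add (GB.mul (GB.add (GB.add (GB.mul ?_ x1) (GB.mul ?_ x2)) ?_) hhq)
    (GB.mul (((cE h1.continuous).mul x1).add ((cE h2.continuous).mul x2) |>.add
      (cE h3.continuous)) hmq)
  · exact (((cE (E1_cont h1)).mul w1).add ((cE (E2_cont h1)).mul w2)).add ((cE (E3_cont h1)).mul w3)
  · exact (((cE (E1_cont h2)).mul w1).add ((cE (E2_cont h2)).mul w2)).add ((cE (E3_cont h2)).mul w3)
  · exact (((cE (E1_cont h3)).mul w1).add ((cE (E2_cont h3)).mul w2)).add ((cE (E3_cont h3)).mul w3)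

theorem vq_line (h1 : ContDiff ℝ 1 F1) (h2 : ContDiff ℝ 1 F2) (h3 : ContDiff ℝ 1 F3) (hf : Adm f)
    (hh : Adm h) (p : ℝ × ℝ) : Continuous (fun r => vq F1 F2 F3 f h (p, r)) := by
  have cg : Continuous (fun r : ℝ => gq f h (p, r)) :=
    (gq_cont hf hh).comp (continuous_const.prodMk continuous_id)
  have a1 := (E1_cont h1).comp cg
  have a2 := (E2_cont h1).comp cg
  have a3 := (E3_cont h1).comp cg
  have b1 := (E1_cont h2).comp cg
  have b2 := (E2_cont h2).comp cg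
  have b3 := (E3_cont h2).comp cg
  have c1 := (E1_cont h3).comp cg
  have c2 := (E2_cont h3).comp cg
  have c3 := (E3_cont h3).comp cg
  have e1 := h1.continuous.comp cg
  have e2 := h2.continuous.comp cg
  have e3 := h3.continuous.comp cg
  simp only [Function.comp_def] at a1 a2 a3 b1 b2 b3 c1 c2 c3 e1 e2 e3
  simp only [vq, hq, mq, it]
  fun_prop

theorem gq_deriv (p : ℝ × ℝ) (r : ℝ) : HasDerivAt (fun r => gq f h (p, r))
    ((gp h p).1 - (gp f p).1, (gp h p).2.1 - (gp f p).2.1, (gp h p).2.2 - (gp f p).2.2) r := by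
  have key : ∀ a b : ℝ, HasDerivAt (fun r : ℝ => (1 - r) * a + r * b) (b - a) r := by
    intro a b
    have := (((hasDerivAt_id r).const_sub 1).mul_const a).add ((hasDerivAt_id r).mul_const b)
    refine this.congr_deriv ?_
    ring
  exact (key (dX f p) (dX h p)).prodMk ((key (dY f p) (dY h p)).prodMk
    (key (gp f p).2.2 (gp h p).2.2))

theorem I_deriv (h1 : ContDiff ℝ 1 F1) (h2 : ContDiff ℝ 1 F2) (h3 : ContDiff ℝ 1 F3)
    (p : ℝ × ℝ) (r : ℝ) : HasDerivAt (fun r => (F1 (gq f h (p, r)) * p.1 + F2 (gq f h (p, r)) * p.2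
      + F3 (gq f h (p, r))) * hq f h (p, r)) (vq F1 F2 F3 f h (p, r)) r := by
  have key : ∀ a b : ℝ, HasDerivAt (fun r : ℝ => (1 - r) * a + r * b) (b - a) r := by
    intro a b
    have := (((hasDerivAt_id r).const_sub 1).mul_const a).add ((hasDerivAt_id r).mul_const b)
    refine this.congr_deriv ?_
    ring
  have cF : ∀ {F : ℝ × ℝ × ℝ → ℝ}, ContDiff ℝ 1 F → HasDerivAt (fun r => F (gq f h (p, r)))
      (E1 F (gq f h (p, r)) * ((gp h p).1 - (gp f p).1)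
        + E2 F (gq f h (p, r)) * ((gp h p).2.1 - (gp f p).2.1)
        + E3 F (gq f h (p, r)) * ((gp h p).2.2 - (gp f p).2.2)) r := by
    intro F hF
    have h0 : HasFDerivAt F (fderiv ℝ F (gq f h (p, r))) (gq f h (p, r)) :=
      ((hF.differentiable one_ne_zero) _).hasFDerivAt
    have := h0.comp_hasDerivAt r (gq_deriv p r)
    rw [fd3] at this
    exact this
  have hH : HasDerivAt (fun r => hq f h (p, r)) (mq f h (p, r)) r := by
    have := ((key (dX (dX f) p) (dX (dX h) p)).mul (key (dY (dY f) p) (dY (dY h) p))).sub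
      ((key (dX (dY f) p) (dX (dY h) p)).mul (key (dY (dX f) p) (dY (dX h) p)))
    refine HasDerivAt.congr_deriv (f := fun r => hq f h (p, r)) this ?_
    unfold mq it
    ring
  have := (((((cF h1).mul_const p.1).add ((cF h2).mul_const p.2)).add (cF h3))).mul hH
  refine HasDerivAt.congr_deriv (f := fun r => (F1 (gq f h (p, r)) * p.1
    + F2 (gq f h (p, r)) * p.2 + F3 (gq f h (p, r))) * hq f h (p, r)) this ?_
  unfold vq
  simp only [Pi.add_apply]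

theorem Phi_good (h1 : ContDiff ℝ 1 F1) (h2 : ContDiff ℝ 1 F2) (h3 : ContDiff ℝ 1 F3)
    (hf : Adm f) :
    Good (fun p => (F1 (gp f p) * p.1 + F2 (gp f p) * p.2 + F3 (gp f p)) * hd f p) :=
  ((((Good.gF h1.continuous hf).mul (Good.cont continuous_fst)).add
    ((Good.gF h2.continuous hf).mul (Good.cont continuous_snd))).add
    (Good.gF h3.continuous hf)).mul hf.ghd

/-- **homotopy formula for the flux** -/
theorem flux (h1 : ContDiff ℝ 1 F1) (h2 : ContDiff ℝ 1 F2) (h3 : ContDiff ℝ 1 F3) (hf : Adm f)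
    (hh : Adm h) : Phi F1 F2 F3 h - Phi F1 F2 F3 f
      = ∫ r in (0 : ℝ)..1, ∫ p in SQ, dv F1 F2 F3 (gp (cb r f h) p) * (h p - f p)
          * hd (cb r f h) p := by
  have hI := (vq_GB h1 h2 h3 hf hh).int
  have e1 : Phi F1 F2 F3 h - Phi F1 F2 F3 f
      = ∫ p in SQ, ∫ r in Ioc (0 : ℝ) 1, vq F1 F2 F3 f h (p, r) := by
    unfold Phi
    rw [← integral_sub (Phi_good h1 h2 h3 hh).int (Phi_good h1 h2 h3 hf).int]
    refine setIntegral_congr_ae SQ_meas ?_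
    filter_upwards [hf.hess_ae, hh.hess_ae] with p Hf Hh _
    rw [← intervalIntegral.integral_of_le zero_le_one]
    rw [intervalIntegral.integral_eq_sub_of_hasDerivAt (fun r _ => I_deriv h1 h2 h3 p r)
      ((vq_line h1 h2 h3 hf hh p).intervalIntegrable _ _)]
    have c1 : cb 1 f h = h := by funext p; simp [cb]
    have c0 : cb 0 f h = f := by funext p; simp [cb]
    rw [← gp_cb hf.diff hh.diff, ← gp_cb hf.diff hh.diff, ← hd_cb hf.diff hh.diff Hf Hh,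
      ← hd_cb hf.diff hh.diff Hf Hh, c1, c0]
  have hI' : Integrable (Function.uncurry fun (p : ℝ × ℝ) (r : ℝ) => vq F1 F2 F3 f h (p, r))
      ((volume.restrict SQ).prod (volume.restrict (Ioc (0 : ℝ) 1))) := by
    rw [Measure.prod_restrict]
    exact hI
  rw [e1, integral_integral_swap hI', intervalIntegral.integral_of_le zero_le_one]
  refine setIntegral_congr_fun measurableSet_Ioc fun r hr => ?_
  have hk : Adm (cb r f h) := hf.comb hh hr.1.le hr.2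
  rw [← first_var h1 h2 h3 hk hf hh]
  refine setIntegral_congr_ae SQ_meas ?_
  filter_upwards [hf.hess_ae, hh.hess_ae] with p Hf Hh _
  exact (vi_cb hf.diff hh.diff Hf Hh r).symm

/-! ### consequences -/

theorem hd_nonneg {p : ℝ × ℝ} (H : Hess f p) : 0 ≤ hd f p := by
  have h := H.pos
  have e := H.symm
  unfold hd
  rw [e]
  set a := dX (dX f) p
  set b := dX (dY f) p
  set c := dY (dY f) p
  have h1 := h (-b) a
  have h2 : 0 ≤ a := by
    have := h 1 0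
    nlinarith
  have h3 := h 1 0
  have h4 := h 0 1
  have h5 : 0 ≤ a * (a * c - b * b) := by nlinarith
  rcases h2.eq_or_lt with h0 | h0
  · -- `a = 0` forces `b = 0`
    have hb : b = 0 := by
      by_contra hb
      have h6 := h (-(c + 1) / (2 * b)) 1
      rw [← h0] at h6
      have e2 : 2 * b * (-(c + 1) / (2 * b)) * 1 = -(c + 1) := by field_simp
      rw [e2] at h6
      linarith
    rw [hb, ← h0]
    simp
  · by_contra hc
    push Not at hc
    nlinarith [mul_pos_of_neg_of_neg hc (neg_neg_of_pos h0)]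

noncomputable def Vt (f : ℝ × ℝ → ℝ) : ℝ := (1 / 3) * ∫ p in SQ, f p * hd f p

/-- integrand of the flux -/
noncomputable def dq (F1 F2 F3 : ℝ × ℝ × ℝ → ℝ) (f h : ℝ × ℝ → ℝ) (q : (ℝ × ℝ) × ℝ) : ℝ :=
  dv F1 F2 F3 (gq f h q) * (h q.1 - f q.1) * hq f h q

theorem hq_GB (hf : Adm f) (hh : Adm h) : GB (hq f h) :=
  ((it_good hf.gXX' hh.gXX').mul (it_good hf.gYY' hh.gYY')).sub
    ((it_good hf.gXY' hh.gXY').mul (it_good hf.gYX' hh.gYX'))

theorem dq_GB (h1 : ContDiff ℝ 1 F1) (h2 : ContDiff ℝ 1 F2) (h3 : ContDiff ℝ 1 F3) (hf : Adm f)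
    (hh : Adm h) : GB (dq F1 F2 F3 f h) :=
  ((GB.cont ((dv_cont h1 h2 h3).comp (gq_cont hf hh))).mul
    ((GB.good hh.gf).sub (GB.good hf.gf))).mul (hq_GB hf hh)

theorem GB.slice {g : (ℝ × ℝ) × ℝ → ℝ} (hg : GB g) (r : ℝ) : Good (fun p => g (p, r)) := by
  obtain ⟨m, B, cB, bB⟩ := hg
  exact ⟨m.comp (measurable_id.prodMk measurable_const), fun p => B (p, r),
    cB.comp (continuous_id.prodMk continuous_const), fun p => bB (p, r)⟩

theorem GB.outer {g : (ℝ × ℝ) × ℝ → ℝ} (hg : GB g) :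
    IntegrableOn (fun r => ∫ p in SQ, g (p, r)) (Ioc (0 : ℝ) 1) := by
  have hI := hg.int
  have hI' : Integrable g ((volume.restrict SQ).prod (volume.restrict (Ioc (0 : ℝ) 1))) := by
    rw [Measure.prod_restrict]
    exact hI
  exact hI'.integral_prod_right

/-- homotopy formula, explicit form -/
theorem flux' (h1 : ContDiff ℝ 1 F1) (h2 : ContDiff ℝ 1 F2) (h3 : ContDiff ℝ 1 F3) (hf : Adm f)
    (hh : Adm h) : Phi F1 F2 F3 h - Phi F1 F2 F3 f
      = ∫ r in Ioc (0 : ℝ) 1, ∫ p in SQ, dq F1 F2 F3 f h (p, r) := by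
  rw [flux h1 h2 h3 hf hh, intervalIntegral.integral_of_le zero_le_one]
  refine setIntegral_congr_fun measurableSet_Ioc fun r _ => ?_
  refine setIntegral_congr_ae SQ_meas ?_
  filter_upwards [hf.hess_ae, hh.hess_ae] with p Hf Hh _
  unfold dq
  rw [gp_cb hf.diff hh.diff, hd_cb hf.diff hh.diff Hf Hh]

theorem hq_nonneg (hf : Adm f) (hh : Adm h) {p : ℝ × ℝ} (Hf : Hess f p) (Hh : Hess h p) {r : ℝ}
    (h0 : 0 ≤ r) (h1 : r ≤ 1) : 0 ≤ hq f h (p, r) := by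
  rw [← hd_cb hf.diff hh.diff Hf Hh]
  refine hd_nonneg ((hf.comb hh h0 h1).hess_of ?_ ?_)
  · rw [dX_cb hf.diff hh.diff]
    exact (cb_fdAt Hf.dx Hh.dx r).differentiableAt
  · rw [dY_cb hf.diff hh.diff]
    exact (cb_fdAt Hf.dy Hh.dy r).differentiableAt

/-- comparison of two fluxes -/
theorem flux_mono {G1 G2 G3 : ℝ × ℝ × ℝ → ℝ} (h1 : ContDiff ℝ 1 F1) (h2 : ContDiff ℝ 1 F2)
    (h3 : ContDiff ℝ 1 F3) (k1 : ContDiff ℝ 1 G1) (k2 : ContDiff ℝ 1 G2) (k3 : ContDiff ℝ 1 G3)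
    (hf : Adm f) (hh : Adm h) (hle : ∀ p ∈ SQ, f p ≤ h p)
    (hd : ∀ p ∈ SQ, ∀ r ∈ Icc (0 : ℝ) 1,
      dv F1 F2 F3 (gp (cb r f h) p) ≤ dv G1 G2 G3 (gp (cb r f h) p)) :
    Phi F1 F2 F3 h - Phi F1 F2 F3 f ≤ Phi G1 G2 G3 h - Phi G1 G2 G3 f := by
  rw [flux' h1 h2 h3 hf hh, flux' k1 k2 k3 hf hh]
  have g1 := dq_GB h1 h2 h3 hf hh
  have g2 := dq_GB k1 k2 k3 hf hh
  refine setIntegral_mono_on g1.outer g2.outer measurableSet_Ioc fun r hr => ?_
  refine setIntegral_mono_on_ae (g1.slice r).int (g2.slice r).int SQ_meas ?_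
  filter_upwards [hf.hess_ae, hh.hess_ae] with p Hf Hh hp
  have a1 := hd p hp r ⟨hr.1.le, hr.2⟩
  rw [gp_cb hf.diff hh.diff] at a1
  have a2 := hq_nonneg hf hh Hf Hh hr.1.le hr.2
  have a3 := sub_nonneg.2 (hle p hp)
  exact mul_le_mul_of_nonneg_right (mul_le_mul_of_nonneg_right a1 a3) a2

end Helper22.MEI
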