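import Pool.Agent.Helper22.MEI.Der

/-!
# Integrability on the square, gradient of a differentiable convex function
-/

namespace Helper22.MEI

open Set MeasureTheory Filter Topology

/-- measurable and locally bounded -/
def Good (g : ℝ × ℝ → ℝ) : Prop :=
  Measurable g ∧ ∃ B : ℝ × ℝ → ℝ, Continuous B ∧ ∀ p, |g p| ≤ B p

theorem Good.cont {g : ℝ × ℝ → ℝ} (h : Continuous g) : Good g :=
  ⟨h.measurable, fun p => |g p|, h.abs, fun _ => le_rfl⟩

theorem Good.add {f g : ℝ × ℝ → ℝ} (hf : Good f) (hg : Good g) : Good (fun p => f p + g p) := by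
  obtain ⟨mf, B, cB, bB⟩ := hf
  obtain ⟨mg, C, cC, bC⟩ := hg
  exact ⟨mf.add mg, fun p => B p + C p, cB.add cC,
    fun p => (abs_add_le _ _).trans (add_le_add (bB p) (bC p))⟩

theorem Good.mul {f g : ℝ × ℝ → ℝ} (hf : Good f) (hg : Good g) : Good (fun p => f p * g p) := by
  obtain ⟨mf, B, cB, bB⟩ := hf
  obtain ⟨mg, C, cC, bC⟩ := hg
  refine ⟨mf.mul mg, fun p => B p * C p, cB.mul cC, fun p => ?_⟩
  rw [abs_mul]
  exact mul_le_mul (bB p) (bC p) (abs_nonneg _) ((abs_nonneg _).trans (bB p))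

theorem Good.const (c : ℝ) : Good (fun _ => c) := Good.cont continuous_const

theorem Good.neg {f : ℝ × ℝ → ℝ} (hf : Good f) : Good (fun p => -f p) := by
  obtain ⟨mf, B, cB, bB⟩ := hf
  exact ⟨mf.neg, B, cB, fun p => by rw [abs_neg]; exact bB p⟩

theorem Good.sub {f g : ℝ × ℝ → ℝ} (hf : Good f) (hg : Good g) : Good (fun p => f p - g p) := by
  simpa only [sub_eq_add_neg] using hf.add hg.neg

theorem Good.pow {f : ℝ × ℝ → ℝ} (hf : Good f) (n : ℕ) : Good (fun p => f p ^ n) := by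
  induction n with
  | zero => simpa using Good.const 1
  | succ n ih => simpa only [pow_succ] using ih.mul hf

theorem Good.div {f g : ℝ × ℝ → ℝ} (hf : Good f) (hg : Continuous g) (h0 : ∀ p, g p ≠ 0) :
    Good (fun p => f p / g p) := by
  have h : Good (fun p => f p * (g p)⁻¹) := hf.mul (Good.cont (hg.inv₀ h0))
  simpa only [div_eq_mul_inv] using h

theorem Good.ite {f g : ℝ × ℝ → ℝ} {c : ℝ × ℝ → Prop} [DecidablePred c]
    (hc : MeasurableSet {p | c p}) (hf : Good f) (hg : Good g) :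
    Good (fun p => if c p then f p else g p) := by
  obtain ⟨mf, B, cB, bB⟩ := hf
  obtain ⟨mg, C, cC, bC⟩ := hg
  refine ⟨Measurable.ite hc mf mg, fun p => B p + C p, cB.add cC, fun p => ?_⟩
  have h1 := (abs_nonneg _).trans (bB p)
  have h2 := (abs_nonneg _).trans (bC p)
  show |if c p then f p else g p| ≤ B p + C p
  split_ifs
  · linarith [bB p]
  · linarith [bC p]

theorem SQ_sub : SQ ⊆ Icc (-s) s ×ˢ Icc (-s) s :=
  prod_mono Ioo_subset_Icc_self Ioo_subset_Icc_self

theorem SQ_meas : MeasurableSet SQ := measurableSet_Ioo.prod measurableSet_Ioo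

theorem Good.bound {g : ℝ × ℝ → ℝ} (h : Good g) :
    ∃ C, ∀ p ∈ Icc (-s) s ×ˢ Icc (-s) s, ‖g p‖ ≤ C := by
  obtain ⟨_, B, cB, bB⟩ := h
  obtain ⟨C, hC⟩ := ((isCompact_Icc (a := -s) (b := s)).prod
    (isCompact_Icc (a := -s) (b := s))).exists_bound_of_continuousOn cB.continuousOn
  exact ⟨C, fun p hp => (bB p).trans ((le_abs_self _).trans (hC p hp))⟩

theorem Good.int {g : ℝ × ℝ → ℝ} (h : Good g) : IntegrableOn g SQ := by
  obtain ⟨C, hC⟩ := h.bound
  have hf : volume SQ ≠ ⊤ := by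
    have : volume SQ ≤ volume (Icc (-s) s ×ˢ Icc (-s) s) := measure_mono SQ_sub
    refine ne_top_of_le_ne_top ?_ this
    exact ((isCompact_Icc (a := -s) (b := s)).prod
      (isCompact_Icc (a := -s) (b := s))).measure_lt_top.ne
  refine Measure.integrableOn_of_bounded (M := C) hf h.1.aestronglyMeasurable ?_
  rw [ae_restrict_iff' SQ_meas]
  exact Eventually.of_forall fun p hp => hC p (SQ_sub hp)

theorem Good.lineX {g : ℝ × ℝ → ℝ} (h : Good g) {y : ℝ} (hy : |y| ≤ s) :
    IntervalIntegrable (fun x => g (x, y)) volume (-s) s := by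
  obtain ⟨C, hC⟩ := h.bound
  rw [intervalIntegrable_iff_integrableOn_Icc_of_le (by linarith [s_pos])]
  refine Measure.integrableOn_of_bounded (M := C) measure_Icc_lt_top.ne
    (h.1.comp (measurable_id.prodMk measurable_const)).aestronglyMeasurable ?_
  rw [ae_restrict_iff' measurableSet_Icc]
  exact Eventually.of_forall fun x hx => hC (x, y) ⟨hx, abs_le.1 hy⟩

theorem Good.lineY {g : ℝ × ℝ → ℝ} (h : Good g) {x : ℝ} (hx : |x| ≤ s) :
    IntervalIntegrable (fun y => g (x, y)) volume (-s) s := by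
  obtain ⟨C, hC⟩ := h.bound
  rw [intervalIntegrable_iff_integrableOn_Icc_of_le (by linarith [s_pos])]
  refine Measure.integrableOn_of_bounded (M := C) measure_Icc_lt_top.ne
    (h.1.comp (measurable_const.prodMk measurable_id)).aestronglyMeasurable ?_
  rw [ae_restrict_iff' measurableSet_Icc]
  exact Eventually.of_forall fun y hy => hC (x, y) ⟨abs_le.1 hx, hy⟩

theorem grad_ineq {f : ℝ × ℝ → ℝ} (hd : Differentiable ℝ f) (hc : ConvexOn ℝ univ f)
    (p v : ℝ × ℝ) : f p + fderiv ℝ f p v ≤ f (p + v) := by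
  let φ : ℝ → ℝ := fun r => f (p + r • v)
  have hφ : ConvexOn ℝ univ φ := by
    have h := hc.comp_affineMap (AffineMap.lineMap p (p + v))
    have e : φ = f ∘ (AffineMap.lineMap p (p + v) : ℝ → ℝ × ℝ) := by
      ext r
      simp only [φ, Function.comp, AffineMap.lineMap_apply, vsub_eq_sub, add_sub_cancel_left,
        vadd_eq_add, add_comm]
    rw [e]
    simpa using h
  have hd0 : HasDerivAt φ (fderiv ℝ f p v) 0 := by
    have h1 : HasDerivAt (fun r : ℝ => p + r • v) v 0 := by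
      have := ((hasDerivAt_id (0 : ℝ)).smul_const v).const_add p
      simpa using this
    have h2 : HasFDerivAt f (fderiv ℝ f p) (p + (0 : ℝ) • v) := by
      rw [zero_smul, add_zero]; exact (hd p).hasFDerivAt
    exact h2.comp_hasDerivAt (0 : ℝ) h1
  have h := hφ.le_slope_of_hasDerivAt (mem_univ 0) (mem_univ 1) one_pos hd0
  rw [slope_def_field] at h
  simp only [φ, zero_smul, add_zero, one_smul, sub_zero, div_one] at h
  linarith

theorem grad_good {f : ℝ × ℝ → ℝ} (hd : Differentiable ℝ f) (hc : ConvexOn ℝ univ f)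
    (v : ℝ × ℝ) : Good (fun p => fderiv ℝ f p v) := by
  refine ⟨measurable_fderiv_apply_const ℝ f v, fun p => |f (p + v) - f p| + |f (p + -v) - f p|,
    ?_, fun p => ?_⟩
  · have := hd.continuous
    fun_prop
  · have h1 := grad_ineq hd hc p v
    have h2 := grad_ineq hd hc p (-v)
    rw [map_neg] at h2
    rw [abs_le]
    constructor
    · linarith [le_abs_self (f (p + -v) - f p), abs_nonneg (f (p + v) - f p)]
    · linarith [le_abs_self (f (p + v) - f p), abs_nonneg (f (p + -v) - f p)]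

theorem Adm.gX {f : ℝ × ℝ → ℝ} (h : Adm f) : Good (dX f) := grad_good h.diff h.cv _

theorem Adm.gY {f : ℝ × ℝ → ℝ} (h : Adm f) : Good (dY f) := grad_good h.diff h.cv _

theorem line_X {f : ℝ × ℝ → ℝ} (hd : Differentiable ℝ f) (x y : ℝ) :
    HasDerivAt (fun z => f (z, y)) (dX f (x, y)) x := by
  have h1 : HasDerivAt (fun z : ℝ => (z, y)) ((1 : ℝ), (0 : ℝ)) x :=
    (hasDerivAt_id x).prodMk (hasDerivAt_const x y)
  exact (hd (x, y)).hasFDerivAt.comp_hasDerivAt x h1

theorem line_Y {f : ℝ × ℝ → ℝ} (hd : Differentiable ℝ f) (x y : ℝ) :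
    HasDerivAt (fun z => f (x, z)) (dY f (x, y)) y := by
  have h1 : HasDerivAt (fun z : ℝ => (x, z)) ((0 : ℝ), (1 : ℝ)) y :=
    (hasDerivAt_const y x).prodMk (hasDerivAt_id y)
  exact (hd (x, y)).hasFDerivAt.comp_hasDerivAt y h1

theorem NN_diff : Differentiable ℝ NN := fun p => (NN_hasFDerivAt p).differentiableAt

theorem dX_NN (p : ℝ × ℝ) : dX NN p = p.1 / NN p := by
  unfold dX
  rw [(NN_hasFDerivAt p).fderiv]
  simp

theorem dY_NN (p : ℝ × ℝ) : dY NN p = p.2 / NN p := by
  unfold dY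
  rw [(NN_hasFDerivAt p).fderiv]
  simp

end Helper22.MEI
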