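import Pool.Agent.Helper22.MEI.Facts2

/-!
# Project MEI: the gradient of an admissible function is Lipschitz, Hessian almost everywhere
-/

namespace Helper22.MEI

open Set MeasureTheory

variable {f : ℝ × ℝ → ℝ}

theorem NN_upper (p v : ℝ × ℝ) :
    NN (p + v) ≤ NN p + (p.1 / NN p * v.1 + p.2 / NN p * v.2) + (v.1 ^ 2 + v.2 ^ 2) / 2 := by
  have hn := NN_pos p
  have h1 := NN_ge p
  have hs := NN_sq p
  have hs' := NN_sq (p + v)
  simp only [Prod.fst_add, Prod.snd_add] at hs'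
  set m := NN (p + v)
  set n := NN p
  have hsq : 0 ≤ (m - n) ^ 2 := sq_nonneg _
  have h2 : 2 * n * m ≤ 2 * n ^ 2 + 2 * (p.1 * v.1 + p.2 * v.2) + (v.1 ^ 2 + v.2 ^ 2) := by
    nlinarith
  have h3 : (v.1 ^ 2 + v.2 ^ 2) ≤ n * (v.1 ^ 2 + v.2 ^ 2) := by
    nlinarith [sq_nonneg v.1, sq_nonneg v.2]
  have e : p.1 / n * v.1 + p.2 / n * v.2 = (p.1 * v.1 + p.2 * v.2) / n := by ring
  rw [e]
  have h4 : n * (n + (p.1 * v.1 + p.2 * v.2) / n + (v.1 ^ 2 + v.2 ^ 2) / 2)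
      = n ^ 2 + (p.1 * v.1 + p.2 * v.2) + n * (v.1 ^ 2 + v.2 ^ 2) / 2 := by
    field_simp
  have h5 : n * m ≤ n * (n + (p.1 * v.1 + p.2 * v.2) / n + (v.1 ^ 2 + v.2 ^ 2) / 2) := by
    rw [h4]; linarith
  exact le_of_mul_le_mul_left h5 hn

theorem fd_eq (hd : Differentiable ℝ f) (p v : ℝ × ℝ) :
    fderiv ℝ f p v = dX f p * v.1 + dY f p * v.2 := by
  have e : v = v.1 • ((1 : ℝ), (0 : ℝ)) + v.2 • ((0 : ℝ), (1 : ℝ)) := by
    ext <;> simp
  conv_lhs => rw [e]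
  rw [map_add, map_smul, map_smul]
  simp only [dX, dY, smul_eq_mul]
  ring

theorem Adm.tang (h : Adm f) (p v : ℝ × ℝ) : f p + (dX f p * v.1 + dY f p * v.2) ≤ f (p + v) := by
  rw [← fd_eq h.diff]; exact grad_ineq h.diff h.cv p v

theorem dX_Nsub (h : Adm f) (p : ℝ × ℝ) : dX (fun q => NN q - f q) p = p.1 / NN p - dX f p := by
  rw [← dX_NN p]
  unfold dX
  rw [show (fun q => NN q - f q) = NN - f from rfl, fderiv_sub (NN_diff p) (h.diff p)]
  rfl

theorem dY_Nsub (h : Adm f) (p : ℝ × ℝ) : dY (fun q => NN q - f q) p = p.2 / NN p - dY f p := by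
  rw [← dY_NN p]
  unfold dY
  rw [show (fun q => NN q - f q) = NN - f from rfl, fderiv_sub (NN_diff p) (h.diff p)]
  rfl

theorem Adm.upper (h : Adm f) (p v : ℝ × ℝ) :
    f (p + v) ≤ f p + (dX f p * v.1 + dY f p * v.2) + (v.1 ^ 2 + v.2 ^ 2) / 2 := by
  have h1 := grad_ineq h.diffN h.cvN p v
  rw [fd_eq h.diffN, dX_Nsub h, dY_Nsub h] at h1
  have h2 := NN_upper p v
  linarith

/-- cocoercivity -/
theorem Adm.coco (h : Adm f) (p q w : ℝ × ℝ) :
    (dX f p - dX f q) * w.1 + (dY f p - dY f q) * w.2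
      ≤ ((p.1 - q.1) ^ 2 + (p.2 - q.2) ^ 2) / 2 + (w.1 ^ 2 + w.2 ^ 2) / 2 := by
  have h1 := h.tang p (q - p + w)
  have h2 := h.upper q w
  have h3 := h.upper p (q - p)
  have e1 : p + (q - p + w) = q + w := by ring
  have e2 : p + (q - p) = q := by ring
  rw [e1] at h1
  rw [e2] at h3
  simp only [Prod.fst_add, Prod.snd_add, Prod.fst_sub, Prod.snd_sub] at h1 h3
  nlinarith

theorem Adm.lipX (h : Adm f) (p q : ℝ × ℝ) :
    |dX f p - dX f q| ≤ √((p.1 - q.1) ^ 2 + (p.2 - q.2) ^ 2) := by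
  set d := √((p.1 - q.1) ^ 2 + (p.2 - q.2) ^ 2) with hdd
  have hd0 : 0 ≤ d := Real.sqrt_nonneg _
  have hsq : d ^ 2 = (p.1 - q.1) ^ 2 + (p.2 - q.2) ^ 2 := Real.sq_sqrt (by positivity)
  rcases hd0.eq_or_lt with h0 | h0
  · rw [← h0] at hsq
    have e1 : p.1 - q.1 = 0 := by nlinarith [sq_nonneg (p.1 - q.1), sq_nonneg (p.2 - q.2)]
    have e2 : p.2 - q.2 = 0 := by nlinarith [sq_nonneg (p.1 - q.1), sq_nonneg (p.2 - q.2)]
    have : p = q := Prod.ext (by linarith) (by linarith)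
    rw [this, sub_self, abs_zero]; exact hd0
  · have a := h.coco p q (d, 0)
    have b := h.coco p q (-d, 0)
    simp only at a b
    rw [← hsq] at a b
    rw [abs_le]
    constructor
    · have : 0 ≤ ((dX f p - dX f q) + d) * d := by nlinarith
      have := nonneg_of_mul_nonneg_left this h0
      linarith
    · have : 0 ≤ (d - (dX f p - dX f q)) * d := by nlinarith
      have := nonneg_of_mul_nonneg_left this h0
      linarith

theorem Adm.lipY (h : Adm f) (p q : ℝ × ℝ) :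
    |dY f p - dY f q| ≤ √((p.1 - q.1) ^ 2 + (p.2 - q.2) ^ 2) := by
  set d := √((p.1 - q.1) ^ 2 + (p.2 - q.2) ^ 2) with hdd
  have hd0 : 0 ≤ d := Real.sqrt_nonneg _
  have hsq : d ^ 2 = (p.1 - q.1) ^ 2 + (p.2 - q.2) ^ 2 := Real.sq_sqrt (by positivity)
  rcases hd0.eq_or_lt with h0 | h0
  · rw [← h0] at hsq
    have e1 : p.1 - q.1 = 0 := by nlinarith [sq_nonneg (p.1 - q.1), sq_nonneg (p.2 - q.2)]
    have e2 : p.2 - q.2 = 0 := by nlinarith [sq_nonneg (p.1 - q.1), sq_nonneg (p.2 - q.2)]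
    have : p = q := Prod.ext (by linarith) (by linarith)
    rw [this, sub_self, abs_zero]; exact hd0
  · have a := h.coco p q (0, d)
    have b := h.coco p q (0, -d)
    simp only at a b
    rw [← hsq] at a b
    rw [abs_le]
    constructor
    · have : 0 ≤ ((dY f p - dY f q) + d) * d := by nlinarith
      have := nonneg_of_mul_nonneg_left this h0
      linarith
    · have : 0 ≤ (d - (dY f p - dY f q)) * d := by nlinarith
      have := nonneg_of_mul_nonneg_left this h0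
      linarith

theorem sqrt_dist (p q : ℝ × ℝ) :
    √((p.1 - q.1) ^ 2 + (p.2 - q.2) ^ 2) ≤ 2 * dist p q := by
  have h1 : |p.1 - q.1| ≤ dist p q := by
    rw [← Real.dist_eq]; exact (le_max_left _ _)
  have h2 : |p.2 - q.2| ≤ dist p q := by
    rw [← Real.dist_eq]; exact (le_max_right _ _)
  have h0 : 0 ≤ dist p q := dist_nonneg
  apply Real.sqrt_le_iff.2
  refine ⟨by positivity, ?_⟩
  have a1 : (p.1 - q.1) ^ 2 ≤ dist p q ^ 2 := by
    rw [← sq_abs]; exact pow_le_pow_left₀ (abs_nonneg _) h1 2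
  have a2 : (p.2 - q.2) ^ 2 ≤ dist p q ^ 2 := by
    rw [← sq_abs]; exact pow_le_pow_left₀ (abs_nonneg _) h2 2
  nlinarith

theorem Adm.LX (h : Adm f) : LipschitzWith 2 (dX f) := by
  apply LipschitzWith.of_dist_le_mul
  intro p q
  rw [Real.dist_eq]
  exact (h.lipX p q).trans (by simpa using sqrt_dist p q)

theorem Adm.LY (h : Adm f) : LipschitzWith 2 (dY f) := by
  apply LipschitzWith.of_dist_le_mul
  intro p q
  rw [Real.dist_eq]
  exact (h.lipY p q).trans (by simpa using sqrt_dist p q)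

theorem Adm.cX (h : Adm f) : Continuous (dX f) := h.LX.continuous

theorem Adm.cY (h : Adm f) : Continuous (dY f) := h.LY.continuous

/-- second order information at one point -/
structure Hess (f : ℝ × ℝ → ℝ) (p : ℝ × ℝ) : Prop where
  dx : DifferentiableAt ℝ (dX f) p
  dy : DifferentiableAt ℝ (dY f) p
  symm : dY (dX f) p = dX (dY f) p
  pos : ∀ a b : ℝ, 0 ≤ dX (dX f) p * a ^ 2 + 2 * dX (dY f) p * a * b + dY (dY f) p * b ^ 2
  le : ∀ a b : ℝ, dX (dX f) p * a ^ 2 + 2 * dX (dY f) p * a * b + dY (dY f) p * b ^ 2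
    ≤ ((1 + p.2 ^ 2) * a ^ 2 - 2 * p.1 * p.2 * a * b + (1 + p.1 ^ 2) * b ^ 2) / NN p ^ 3

/-- the derivative along a line of the directional derivative -/
theorem mono_line {g : ℝ × ℝ → ℝ} (hd : Differentiable ℝ g) (hc : ConvexOn ℝ univ g)
    (p : ℝ × ℝ) (a b : ℝ) :
    Monotone (fun r : ℝ => dX g (p + r • (a, b)) * a + dY g (p + r • (a, b)) * b) := by
  intro r r' hr
  rcases hr.eq_or_lt with rfl | hlt
  · exact le_rfl
  have h1 := grad_ineq hd hc (p + r • (a, b)) ((r' - r) • (a, b))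
  have h2 := grad_ineq hd hc (p + r' • (a, b)) ((r - r') • (a, b))
  rw [fd_eq hd] at h1 h2
  have e1 : p + r • (a, b) + (r' - r) • (a, b) = p + r' • (a, b) := by
    ext <;> simp <;> ring
  have e2 : p + r' • (a, b) + (r - r') • (a, b) = p + r • (a, b) := by
    ext <;> simp <;> ring
  rw [e1] at h1
  rw [e2] at h2
  simp only [Prod.smul_fst, Prod.smul_snd, smul_eq_mul] at h1 h2
  set A1 := dX g (p + r • (a, b))
  set A2 := dY g (p + r • (a, b))
  set B1 := dX g (p + r' • (a, b))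
  set B2 := dY g (p + r' • (a, b))
  have h3 : (r' - r) * (A1 * a + A2 * b) ≤ (r' - r) * (B1 * a + B2 * b) := by nlinarith
  exact le_of_mul_le_mul_left h3 (by linarith)

theorem hess_line {g : ℝ × ℝ → ℝ} {p : ℝ × ℝ} (hx : DifferentiableAt ℝ (dX g) p)
    (hy : DifferentiableAt ℝ (dY g) p) (a b : ℝ) :
    HasDerivAt (fun r : ℝ => dX g (p + r • (a, b)) * a + dY g (p + r • (a, b)) * b)
      ((dX (dX g) p * a + dY (dX g) p * b) * a + (dX (dY g) p * a + dY (dY g) p * b) * b) 0 := by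
  have h1 : HasDerivAt (fun r : ℝ => p + r • (a, b)) (a, b) 0 := by
    have := ((hasDerivAt_id (0 : ℝ)).smul_const ((a, b) : ℝ × ℝ)).const_add p
    simpa using this
  have key : ∀ k : ℝ × ℝ → ℝ, DifferentiableAt ℝ k p →
      HasDerivAt (fun r : ℝ => k (p + r • (a, b))) (dX k p * a + dY k p * b) 0 := by
    intro k hk
    have h2 : HasFDerivAt k (fderiv ℝ k p) (p + (0 : ℝ) • (a, b)) := by
      rw [zero_smul, add_zero]; exact hk.hasFDerivAt
    have h3 := h2.comp_hasDerivAt (0 : ℝ) h1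
    have e : ((a, b) : ℝ × ℝ) = a • ((1 : ℝ), (0 : ℝ)) + b • ((0 : ℝ), (1 : ℝ)) := by
      ext <;> simp
    have e2 : fderiv ℝ k p (a, b) = dX k p * a + dY k p * b := by
      conv_lhs => rw [e]
      rw [map_add, map_smul, map_smul]
      simp only [dX, dY, smul_eq_mul]
      ring
    rw [e2] at h3
    exact h3
  exact ((key _ hx).mul_const a).add ((key _ hy).mul_const b)

theorem hess_pos {g : ℝ × ℝ → ℝ} (hd : Differentiable ℝ g) (hc : ConvexOn ℝ univ g) {p : ℝ × ℝ}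
    (hx : DifferentiableAt ℝ (dX g) p) (hy : DifferentiableAt ℝ (dY g) p)
    (hs : dY (dX g) p = dX (dY g) p) (a b : ℝ) :
    0 ≤ dX (dX g) p * a ^ 2 + 2 * dX (dY g) p * a * b + dY (dY g) p * b ^ 2 := by
  have h1 := (mono_line hd hc p a b).deriv_nonneg (x := 0)
  rw [(hess_line hx hy a b).deriv, hs] at h1
  linarith [h1, show (dX (dX g) p * a + dX (dY g) p * b) * a + (dX (dY g) p * a + dY (dY g) p * b) * b
    = dX (dX g) p * a ^ 2 + 2 * dX (dY g) p * a * b + dY (dY g) p * b ^ 2 by ring]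

theorem hess_symm {g : ℝ × ℝ → ℝ} (hd : Differentiable ℝ g) {p : ℝ × ℝ}
    (hx : DifferentiableAt ℝ (dX g) p) (hy : DifferentiableAt ℝ (dY g) p) :
    dY (dX g) p = dX (dY g) p := by
  let Lx : ℝ × ℝ →L[ℝ] ℝ := ContinuousLinearMap.fst ℝ ℝ ℝ
  let Ly : ℝ × ℝ →L[ℝ] ℝ := ContinuousLinearMap.snd ℝ ℝ ℝ
  have e : fderiv ℝ g = fun q => dX g q • Lx + dY g q • Ly := by
    funext q
    ext v <;> simp [dX, dY, Lx, Ly]
  have hF : HasFDerivAt (fderiv ℝ g)
      ((fderiv ℝ (dX g) p).smulRight Lx + (fderiv ℝ (dY g) p).smulRight Ly) p := by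
    rw [e]
    exact (hx.hasFDerivAt.smul_const Lx).add (hy.hasFDerivAt.smul_const Ly)
  have h := second_derivative_symmetric (fun q => (hd q).hasFDerivAt) hF ((1 : ℝ), (0 : ℝ))
    ((0 : ℝ), (1 : ℝ))
  simp only [ContinuousLinearMap.add_apply, ContinuousLinearMap.smulRight_apply,
    ContinuousLinearMap.smul_apply, smul_eq_mul, Lx, Ly, ContinuousLinearMap.coe_fst',
    ContinuousLinearMap.coe_snd', mul_zero, mul_one, zero_add, add_zero] at h
  exact h.symm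

theorem Adm.hess_of (h : Adm f) {p : ℝ × ℝ} (hx : DifferentiableAt ℝ (dX f) p)
    (hy : DifferentiableAt ℝ (dY f) p) : Hess f p := by
  have hs := hess_symm h.diff hx hy
  have hn := NN_ne p
  have ex : dX (fun q => NN q - f q) = fun q => q.1 / NN q - dX f q := funext (dX_Nsub h)
  have ey : dY (fun q => NN q - f q) = fun q => q.2 / NN q - dY f q := funext (dY_Nsub h)
  have hi : HasFDerivAt (fun q : ℝ × ℝ => (NN q)⁻¹) ((-(NN p ^ 2)⁻¹) •
      ((p.1 / NN p) • ContinuousLinearMap.fst ℝ ℝ ℝ + (p.2 / NN p) • ContinuousLinearMap.snd ℝ ℝ ℝ))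
      p := (hasDerivAt_inv hn).comp_hasFDerivAt p (NN_hasFDerivAt p)
  have nx : HasFDerivAt (fun q : ℝ × ℝ => q.1 / NN q)
      (((1 + p.2 ^ 2) / NN p ^ 3) • ContinuousLinearMap.fst ℝ ℝ ℝ
        + (-(p.1 * p.2) / NN p ^ 3) • ContinuousLinearMap.snd ℝ ℝ ℝ) p := by
    have h0 : HasFDerivAt (fun q : ℝ × ℝ => q.1) (ContinuousLinearMap.fst ℝ ℝ ℝ) p :=
      hasFDerivAt_fst
    have h1 := h0.mul hi
    rw [show (fun q : ℝ × ℝ => q.1 / NN q) = (fun q => q.1) * (fun q => (NN q)⁻¹) from by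
      funext q; simp [div_eq_mul_inv]]
    refine h1.congr_fderiv ?_
    ext
    · simp
      field_simp
      nlinarith [NN_sq p]
    · simp
      field_simp
  have ny : HasFDerivAt (fun q : ℝ × ℝ => q.2 / NN q)
      ((-(p.1 * p.2) / NN p ^ 3) • ContinuousLinearMap.fst ℝ ℝ ℝ
        + ((1 + p.1 ^ 2) / NN p ^ 3) • ContinuousLinearMap.snd ℝ ℝ ℝ) p := by
    have h0 : HasFDerivAt (fun q : ℝ × ℝ => q.2) (ContinuousLinearMap.snd ℝ ℝ ℝ) p :=
      hasFDerivAt_snd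
    have h1 := h0.mul hi
    rw [show (fun q : ℝ × ℝ => q.2 / NN q) = (fun q => q.2) * (fun q => (NN q)⁻¹) from by
      funext q; simp [div_eq_mul_inv]]
    refine h1.congr_fderiv ?_
    ext
    · simp
      field_simp
    · simp
      field_simp
      nlinarith [NN_sq p]
  have gx : HasFDerivAt (dX (fun q => NN q - f q))
      (((1 + p.2 ^ 2) / NN p ^ 3) • ContinuousLinearMap.fst ℝ ℝ ℝ
        + (-(p.1 * p.2) / NN p ^ 3) • ContinuousLinearMap.snd ℝ ℝ ℝ - fderiv ℝ (dX f) p) p := by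
    rw [ex]; exact nx.sub hx.hasFDerivAt
  have gy : HasFDerivAt (dY (fun q => NN q - f q))
      ((-(p.1 * p.2) / NN p ^ 3) • ContinuousLinearMap.fst ℝ ℝ ℝ
        + ((1 + p.1 ^ 2) / NN p ^ 3) • ContinuousLinearMap.snd ℝ ℝ ℝ - fderiv ℝ (dY f) p) p := by
    rw [ey]; exact ny.sub hy.hasFDerivAt
  refine ⟨hx, hy, hs, hess_pos h.diff h.cv hx hy hs, fun a b => ?_⟩
  have hp := hess_pos h.diffN h.cvN gx.differentiableAt gy.differentiableAt
    (hess_symm h.diffN gx.differentiableAt gy.differentiableAt) a b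
  have e1 : dX (dX (fun q => NN q - f q)) p = (1 + p.2 ^ 2) / NN p ^ 3 - dX (dX f) p := by
    show fderiv ℝ (dX (fun q => NN q - f q)) p (1, 0) = _
    rw [gx.fderiv]; simp [dX]
  have e2 : dX (dY (fun q => NN q - f q)) p = -(p.1 * p.2) / NN p ^ 3 - dX (dY f) p := by
    show fderiv ℝ (dY (fun q => NN q - f q)) p (1, 0) = _
    rw [gy.fderiv]; simp [dX]
  have e3 : dY (dY (fun q => NN q - f q)) p = (1 + p.1 ^ 2) / NN p ^ 3 - dY (dY f) p := by
    show fderiv ℝ (dY (fun q => NN q - f q)) p (0, 1) = _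
    rw [gy.fderiv]; simp [dY]
  rw [e1, e2, e3] at hp
  have e4 : ((1 + p.2 ^ 2) * a ^ 2 - 2 * p.1 * p.2 * a * b + (1 + p.1 ^ 2) * b ^ 2) / NN p ^ 3
      = (1 + p.2 ^ 2) / NN p ^ 3 * a ^ 2 + 2 * (-(p.1 * p.2) / NN p ^ 3) * a * b
        + (1 + p.1 ^ 2) / NN p ^ 3 * b ^ 2 := by ring
  rw [e4]
  nlinarith

theorem Adm.hess_ae (h : Adm f) : ∀ᵐ p : ℝ × ℝ, Hess f p := by
  filter_upwards [h.LX.ae_differentiableAt (μ := volume), h.LY.ae_differentiableAt (μ := volume)]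
    with p h1 h2 using h.hess_of h1 h2

end Helper22.MEI
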