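import Pool.Agent.Helper95.MEI.Jt2
import Pool.Agent.Helper95.MEI.Bc
import Pool.Agent.Helper93.MEI.Blk10
import Pool.Agent.Helper47.MEI.MomP
import Pool.Agent.Helper63.MEI.MassLo3
import Pool.Agent.Helper63.MEI.Rad4
import Pool.Agent.Helper22.MEI.P0

/-!
# Project MEI (M2), TEAM TC: numbers of the joint form, any profile, affine in the levels

`XB` affine upper bound of the moments of the coupling density, `SB` affine lower bound of its
mass; `jl_of` : the structure `JL` (helper95) with the caps `Uc` and the masses `sc`.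
-/

set_option autoImplicit false

namespace Helper22.JtP

open Set Metric MeasureTheory Helper80.CW Helper14.CW Helper14.MEI2
open Helper93.MEI Helper37.MEI Helper41.MEI Helper78.MEI Helper49.Cpl
open Helper22.Cpd Helper22.P0
open Helper53.MEI (fd gp wF JGu JGl)
open Helper95.MEI.Hc Helper95.MEI.Jt
open Pool.Agent.Helper73.MEI (PM TE pf pr)
open Pool.Agent.Helper95.MEI.Fub (Zp pp_cont int_cont)
open scoped RealInnerProductSpace Real

/-- affine upper bound of the moments of the coupling density -/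
def XB (φ : ℝ → ℝ) (σ : Measure (E3 × E3)) (a : Fin 4 → E3) (S : Fin 4 → ℝ)
    (c cs co : ℝ) : Prop :=
  ∀ (m : Fin 3) (e : Bool) (k k' : Fin 4), (k = 2 ∧ k' = 3 ∨ k = 3 ∧ k' = 2) →
    pb φ σ (ap a m e) k ≤ c + cs * S (pf m e k') + co * (S (pf m e 0) + S (pf m e 1))

/-- affine lower bound of the mass of the coupling density -/
def SB (φ : ℝ → ℝ) (σ : Measure (E3 × E3)) (a : Fin 4 → E3) (S : Fin 4 → ℝ)
    (s0 s1 s2 : ℝ) : Prop :=
  ∀ (m : Fin 3) (e : Bool), s0 - s1 * (S (pf m e 0) + S (pf m e 1)) -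
    s2 * (S (pf m e 2) + S (pf m e 3)) ≤ p0 φ σ (ap a m e)

/-- the caps -/
noncomputable def Uc (c cs co r : ℝ) (S : Fin 4 → ℝ) (m : Fin 3) (e i : Bool) : ℝ :=
  (1 + r) * (c + co * (S (pf m (!e) 0) + S (pf m (!e) 1))) +
    cs * ((1 + r / 2) * S (pf m (!e) (if i then 2 else 3)) +
      r / 2 * S (pf m (!e) (if i then 3 else 2)))

/-- the masses -/
noncomputable def sc (s0 s1 s2 : ℝ) (S : Fin 4 → ℝ) (m : Fin 3) (e : Bool) : ℝ :=
  s0 - s1 * (S (pf m (!e) 0) + S (pf m (!e) 1)) - s2 * (S (pf m (!e) 2) + S (pf m (!e) 3))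

variable {φ : ℝ → ℝ} {a : Fin 4 → E3} {K : Set E3} {σ : Measure (E3 × E3)}

theorem mX_pb [IsFiniteMeasure σ] (hφ : Prof φ) (ha : ∀ i j, i ≠ j → dist (a i) (a j) = 1)
    (hK : IsCompact K) (hσ : ∀ᵐ z ∂σ, z.1 ∈ K ∧ z.2 ∈ K) (m : Fin 3) (e i : Bool) :
    mX φ σ a m e i = pb φ σ (ap a m (!e)) (if i then 3 else 2) := by
  rw [mX_eq hφ ha hK hσ, ← bm_mp hφ.cont ha hK hσ]
  rfl

/-- **the structure `JL` from the affine numbers** -/
theorem jl_of [IsFiniteMeasure σ] (hφ : Prof φ) (hP : PM K σ)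
    (ha : ∀ i j, i ≠ j → dist (a i) (a j) = 1) (hp : ∀ x ∈ K, Pl a x) {S : Fin 4 → ℝ}
    (hS0 : ∀ i, 0 ≤ S i) (hQ : ∀ i, ∀ q ∈ K, Qv a i q ≤ S i) {Sm r c cs co s0 s1 s2 k1 : ℝ}
    (hSm : ∀ i, S i ≤ Sm) (hr0 : 0 ≤ r) (hr1 : r ≤ 1) (hr : (1 - r) ^ 2 * (3 / 2 + 2 * Sm) ≤ 1)
    (hc : 0 ≤ c) (hcs : 0 ≤ cs) (hco : 0 ≤ co)
    (hX : XB φ σ a S c cs co) (hs : SB φ σ a S s0 s1 s2) (hk0 : 0 < k1) (hk1 : k1 ≤ 1)
    {M : Fin 3 → ℝ} (hM : ∀ m e i, Uc c cs co r S m e i ≤ k1 * M m) (hMp : ∀ m, 0 < M m)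
    (hs1 : -s1 ≤ (1 + r) * co) (hs2 : 0 ≤ s2) (hsc : s0 ≤ (1 + r) * c) :
    JL φ σ a k1 M (Uc c cs co r S) (fun _ _ _ => 0) (sc s0 s1 s2 S) := by
  have hU0 : ∀ m e i, (1 + r) * (c + co * (S (pf m (!e) 0) + S (pf m (!e) 1))) ≤
      Uc c cs co r S m e i := by
    intro m e i
    unfold Uc
    have h2 : 0 ≤ cs * ((1 + r / 2) * S (pf m (!e) (if i then 2 else 3)) +
        r / 2 * S (pf m (!e) (if i then 3 else 2))) :=
      mul_nonneg hcs (add_nonneg (mul_nonneg (by linarith) (hS0 _))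
        (mul_nonneg (by linarith) (hS0 _)))
    linarith
  have hUn : ∀ m e i, 0 ≤ Uc c cs co r S m e i := fun m e i =>
    (mul_nonneg (by linarith) (add_nonneg hc (mul_nonneg hco (add_nonneg (hS0 _) (hS0 _))))).trans
      (hU0 m e i)
  refine ⟨hk0, hk1, hMp, fun m e i => ?_, hM, hUn, fun m e i => pp_nonneg _, fun m e => ?_,
    fun m e i => ?_⟩
  · have h1 := hX m (!e) 2 3 (Or.inl ⟨rfl, rfl⟩)
    have h2 := hX m (!e) 3 2 (Or.inr ⟨rfl, rfl⟩)
    have g0 := hS0 (pf m (!e) 0)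
    have g1 := hS0 (pf m (!e) 1)
    have g2 := hS0 (pf m (!e) 2)
    have g3 := hS0 (pf m (!e) 3)
    have c2 : 0 ≤ c + cs * S (pf m (!e) 3) + co * (S (pf m (!e) 0) + S (pf m (!e) 1)) := by
      positivity
    have c3 : 0 ≤ c + cs * S (pf m (!e) 2) + co * (S (pf m (!e) 0) + S (pf m (!e) 1)) := by
      positivity
    have q0 : ∀ q ∈ K, Qv (ap a m (!e)) 0 q ≤ Sm := fun q hq =>
      (hQ (pf m (!e) 0) q hq).trans (hSm _)
    have q1 : ∀ q ∈ K, Qv (ap a m (!e)) 1 q ≤ Sm := fun q hq =>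
      (hQ (pf m (!e) 1) q hq).trans (hSm _)
    have h3 := pH_up (φ := φ) (σ := σ) (a := ap a m (!e)) hφ.cont hφ.nn (hgp ha m (!e)) hP.cpt
      hP.mem (fun x hx => Pl_perm _ (hp x hx)) q0 q1 hr0 hr1 hr h1 h2 (by linarith)
    rw [mX_pb hφ ha hP.cpt hP.mem]
    unfold Uc
    cases i
    · simp only [Bool.false_eq_true, if_false]
      linarith
    · simp only [if_true]
      linarith
  · exact hs m (!e)
  · have h1 := hU0 m e i
    have h2 := mul_le_mul_of_nonneg_right hs1 (add_nonneg (hS0 (pf m (!e) 0)) (hS0 (pf m (!e) 1)))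
    have h3 : 0 ≤ s2 * (S (pf m (!e) 2) + S (pf m (!e) 3)) :=
      mul_nonneg hs2 (add_nonneg (hS0 _) (hS0 _))
    unfold sc
    linarith

/-! ### numbers -/

section num
variable [IsFiniteMeasure σ] (h : PM K σ) (ha : ∀ i j, i ≠ j → dist (a i) (a j) = 1)
    (hull : ∀ p, (∀ q ∈ K, ‖p - q‖ ≤ 1) → p ∈ K) (hp : ∀ x ∈ K, Pl a x)
    {B : Fin 3 → Bool → OrthonormalBasis (Fin 3) ℝ E3}
    (hB : ∀ m e, Fr (fun i => a (pr m e i)) (B m e)) {S : Fin 4 → ℝ} (hS0 : ∀ i, 0 ≤ S i)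
    (hQ : ∀ i, ∀ q ∈ K, Qv a i q ≤ S i)

omit [IsFiniteMeasure σ] in
theorem pb_wF (φ : ℝ → ℝ) (σ : Measure (E3 × E3)) (a : Fin 4 → E3) (m : Fin 3) (e : Bool)
    (k : Fin 4) : pb φ σ (ap a m e) k =
      ∫ z in EE a m e, wF φ (ap a m e) z.1 * bar a (pf m e k) z.2 ∂σ := by
  unfold pb
  have hE : EE a m e = Zp (ap a m e) 2 3 := rfl
  rw [hE]
  congr 1
  funext z
  rw [dp_wF]
  congr 1
  exact bar_perm (pr m e) k z.2

include h ha hull hp hB hS0 hQ in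
/-- **moments, profile `ph22`**: `t` tangent of the other corner, `θ` size of the bulk part -/
theorem xb_ph {t θ : ℝ} (t0 : 0 ≤ t) (t1 : t ≤ 3 / 10) (u0 : 0 ≤ θ) (u1 : θ ≤ 1) :
    XB ph22 σ a S
      (0.05345 - (θ * (2 - θ) * 0.005584 + θ ^ 2 * (3 - 2 * θ) * 0.001467) +
        √2 * (15 / 4 * (t - t ^ 2) * gp t))
      (0.36843 - 2.1743 * t ^ 2 + 1.4497 * t ^ 3)
      (0.08294 + 0.032284 * θ + 0.012371 * θ ^ 2) := by
  intro m e k k' hk
  have h1 := Helper93.MEI.Blk.momF_all_blk h ha hull hp hB hS0 hQ m e hk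
    Helper93.MEI.Blk.wgt_ph ph22_cont u0 u1
  have h2 := Helper47.MEI.MomP.num_ph (hS0 (pf m e k')) (hS0 (pf m e 0)) (hS0 (pf m e 1)) t0 t1
  have h3 := Helper93.MEI.Blk.BK_ph u0 u1 (hS0 (pf m e 0)) (hS0 (pf m e 1))
  rw [pb_wF]
  refine h1.trans ((sub_le_sub h2 h3).trans (le_of_eq ?_))
  ring

include h ha hull hp hB hS0 hQ in
/-- `ph22`, tangent `1/10`, full bulk part -/
theorem xb_ph10 : XB ph22 σ a S 0.0466 0.34814 0.127595 := by
  intro m e k k' hk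
  have h1 := xb_ph h ha hull hp hB hS0 hQ (t := 1 / 10) (θ := 1) (by norm_num) (by norm_num)
    (by norm_num) le_rfl m e k k' hk
  obtain ⟨r0, r1⟩ := Helper53.MEI.r2b
  have s1 := hS0 (pf m e k')
  have s2 := hS0 (pf m e 0)
  have s3 := hS0 (pf m e 1)
  unfold gp at h1
  norm_num at h1 ⊢
  linarith

include h ha hull hp hB hS0 hQ in
/-- `ph22`, tangent `0`, full bulk part -/
theorem xb_ph0 : XB ph22 σ a S 0.0464 0.36843 0.127595 := by
  intro m e k k' hk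
  have h1 := xb_ph h ha hull hp hB hS0 hQ (t := 0) (θ := 1) (by norm_num) (by norm_num)
    (by norm_num) le_rfl m e k k' hk
  have s1 := hS0 (pf m e k')
  have s2 := hS0 (pf m e 0)
  have s3 := hS0 (pf m e 1)
  norm_num at h1 ⊢
  linarith

include h ha hull hp hB hS0 hQ in
/-- **masses, profile `ph22`**, levels `≤ Sm` -/
theorem sb_ph {Sm : ℝ} (hSm : ∀ i, S i ≤ Sm) :
    SB ph22 σ a S 0.07082 0.23457 (0.02977 + 0.1389 * Sm + 0.2315 * Sm ^ 2) := by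
  intro m e
  have h1 := Helper63.MassLo.mass_ph h ha hull hp hB hS0 hQ m e
  have key : ∀ i, 0.1389 * S i ^ 2 + 0.2315 * S i ^ 3 ≤
      (0.1389 * Sm + 0.2315 * Sm ^ 2) * S i := by
    intro i
    have k0 := hS0 i
    have k1 := hSm i
    have k2 : S i ^ 2 ≤ Sm * S i := by nlinarith
    have k3 : S i ^ 3 ≤ Sm ^ 2 * S i := by
      have := pow_le_pow_left₀ k0 k1 2
      nlinarith
    linarith
  have k2 := key (pf m e 2)
  have k3 := key (pf m e 3)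
  linarith

include h ha hull hp hB hS0 hQ in
/-- **masses, profile `ph22`, version 2** (helper63), affine below: `T` the sum of the two levels
of the edge, `T ≤ B` -/
theorem sb_ph2 {Sm B' s0 s1 : ℝ} (hSm : ∀ i, S i ≤ Sm) (hB' : ∀ m e, S (pf m e 0) + S (pf m e 1) ≤ B')
    (hB0 : 0 < B') (h0 : s0 ≤ 0.07713)
    (h1 : s0 - s1 * B' ≤ 0.07713 - 0.21162 * B' - 0.11121 * B' ^ 2 - 0.01209 * Sm * B') :
    SB ph22 σ a S s0 s1 0 := by
  intro m e
  have k1 := Helper63.Rad.mass_ph2 h ha hull hp hB hS0 hQ m e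
  have a0 := hS0 (pf m e 0)
  have a1 := hS0 (pf m e 1)
  have b0 := hSm (pf m e 0)
  have b1 := hSm (pf m e 1)
  have hT := hB' m e
  have k2 : (S (pf m e 0) - S (pf m e 1)) ^ 2 ≤ Sm * (S (pf m e 0) + S (pf m e 1)) := by
    have c0 := mul_le_mul_of_nonneg_right b0 a0
    have c1 := mul_le_mul_of_nonneg_right b1 a1
    have c2 := mul_nonneg a0 a1
    nlinarith
  obtain ⟨T, hTT⟩ : ∃ T, T = S (pf m e 0) + S (pf m e 1) := ⟨_, rfl⟩
  rw [← hTT] at k1 k2 hT ⊢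
  have hT0 : 0 ≤ T := by linarith
  have k3 : B' * (s0 - s1 * T) ≤
      B' * (0.07713 - 0.21162 * T - 0.11121 * T ^ 2 - 0.01209 * Sm * T) := by
    have c0 := mul_le_mul_of_nonneg_left h0 (sub_nonneg.2 hT)
    have c1 := mul_le_mul_of_nonneg_left h1 hT0
    have c2 : 0 ≤ B' * (T * (B' - T)) := mul_nonneg hB0.le (mul_nonneg hT0 (sub_nonneg.2 hT))
    nlinarith
  have k4 := le_of_mul_le_mul_left k3 hB0
  linarith

end num

end Helper22.JtP
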