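import Pool.Agent.Helper72.MEI.JNum
import Pool.Agent.Helper31.SR.IntC
import Pool.Agent.Helper22.MEI.JtP

/-!
# Project MEI (M2), TEAM TC: the polygons of a piece of states

`piece_pt`: at a state which is a convex combination of the vertices of a piece there are
couplings with `TL` and with their lower values in fixed polygons; all numbers are checked at the
vertices only.
-/

set_option autoImplicit false

namespace Helper22.JPc

open Set Metric MeasureTheory Helper80.CW Helper14.CW Helper14.MEI2 Helper82.M2 Helper82.CW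
open Helper93.MEI Helper37.MEI Helper41.MEI Helper78.MEI Helper49.Cpl
open Helper22.Cpd Helper22.P0 Helper22.JtP
open Helper95.MEI.Jt Helper72.J
open Pool.Agent.Helper31.SR
open Pool.Agent.Helper31.SR.IntB (Poly)
open Pool.Agent.Helper31.SR.IntC
open Pool.Agent.Helper73.MEI (PM TE pf pr)
open Pool.Agent.Helper95.MEI.Fub (Zp pp_cont int_cont)
open scoped RealInnerProductSpace Real

/-- affine function of the levels -/
def Aff (f : (Fin 4 → ℝ) → ℝ) : Prop := ∃ (c : ℝ) (w : Fin 4 → ℝ), ∀ S, f S = c + ∑ i, w i * S i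

theorem Aff.const (c : ℝ) : Aff fun _ => c := ⟨c, 0, fun S => by simp⟩

theorem Aff.coord (x : Fin 4) : Aff fun S => S x :=
  ⟨0, fun j => if j = x then 1 else 0, fun S => by simp⟩

theorem Aff.add {f g : (Fin 4 → ℝ) → ℝ} (hf : Aff f) (hg : Aff g) : Aff fun S => f S + g S := by
  obtain ⟨c, w, h⟩ := hf
  obtain ⟨d, u, k⟩ := hg
  refine ⟨c + d, fun i => w i + u i, fun S => ?_⟩
  show f S + g S = c + d + ∑ i, (w i + u i) * S i
  rw [h, k, Finset.sum_congr rfl fun i _ => add_mul (w i) (u i) (S i), Finset.sum_add_distrib]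
  ring

theorem Aff.smul {f : (Fin 4 → ℝ) → ℝ} (hf : Aff f) (t : ℝ) : Aff fun S => t * f S := by
  obtain ⟨c, w, h⟩ := hf
  refine ⟨t * c, fun i => t * w i, fun S => ?_⟩
  show t * f S = t * c + ∑ i, t * w i * S i
  rw [h, mul_add, Finset.mul_sum]
  congr 1
  exact Finset.sum_congr rfl fun i _ => by ring

theorem Aff.sub {f g : (Fin 4 → ℝ) → ℝ} (hf : Aff f) (hg : Aff g) : Aff fun S => f S - g S := by
  have h := hf.add (hg.smul (-1))
  obtain ⟨c, w, h⟩ := h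
  exact ⟨c, w, fun S => by rw [← h]; ring⟩

variable {ι : Type} [Fintype ι] {V : ι → Fin 4 → ℝ} {S : Fin 4 → ℝ} {lam : ι → ℝ}

theorem Aff.dc {f : (Fin 4 → ℝ) → ℝ} (hf : Aff f) (h : Dc V S lam) :
    f S = ∑ v, lam v * f (V v) := by
  obtain ⟨c, w, k⟩ := hf
  rw [k, h.aff c w]
  exact Finset.sum_congr rfl fun v _ => by rw [k]

theorem Aff.le {f g : (Fin 4 → ℝ) → ℝ} (hf : Aff f) (hg : Aff g) (h : Dc V S lam)
    (hv : ∀ v, f (V v) ≤ g (V v)) : f S ≤ g S := by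
  rw [hf.dc h, hg.dc h]
  exact Finset.sum_le_sum fun v _ => mul_le_mul_of_nonneg_left (hv v) (h.nn v)

theorem Aff.pos {f : (Fin 4 → ℝ) → ℝ} (hf : Aff f) (h : Dc V S lam) (hv : ∀ v, 0 < f (V v)) :
    0 < f S := by
  rw [hf.dc h]
  refine lt_of_le_of_ne (Finset.sum_nonneg fun v _ => mul_nonneg (h.nn v) (hv v).le) ?_
  intro h0
  have h1 : ∀ v, lam v = 0 := by
    intro v
    have h2 := (Finset.sum_eq_zero_iff_of_nonneg
      (fun v _ => mul_nonneg (h.nn v) (hv v).le)).1 h0.symm v (Finset.mem_univ v)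
    rcases mul_eq_zero.1 h2 with h3 | h3
    · exact h3
    · exact absurd h3 (hv v).ne'
  have h4 := h.one
  rw [Finset.sum_congr rfl fun v _ => h1 v] at h4
  simp at h4

theorem Uc_aff (c cs co r : ℝ) (m : Fin 3) (e i : Bool) : Aff fun S => Uc c cs co r S m e i := by
  unfold Uc
  exact (((Aff.const c).add (((Aff.coord _).add (Aff.coord _)).smul co)).smul (1 + r)).add
    ((((Aff.coord _).smul (1 + r / 2)).add ((Aff.coord _).smul (r / 2))).smul cs)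

theorem sc_aff (s0 s1 s2 : ℝ) (m : Fin 3) (e : Bool) : Aff fun S => sc s0 s1 s2 S m e := by
  unfold sc
  exact ((Aff.const s0).sub (((Aff.coord _).add (Aff.coord _)).smul s1)).sub
    (((Aff.coord _).add (Aff.coord _)).smul s2)

/-- **the polygons of a piece** -/
theorem piece_poly {φ : ℝ → ℝ} {σ : Measure (E3 × E3)} {a : Fin 4 → E3} (hD : Dc V S lam)
    {Mf : Fin 3 → (Fin 4 → ℝ) → ℝ} (hMf : ∀ m, Aff (Mf m)) (hMp : ∀ m v, 0 < Mf m (V v))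
    {c cs co r s0 s1 s2 k1 : ℝ} {up : Fin 3 → Bool → Bool → ℝ} {lo : Fin 3 → Bool → ℝ}
    (hU : ∀ m e i v, Uc c cs co r (V v) m e i ≤ up m e i * Mf m (V v))
    (hs : ∀ m e v, lo m e * Mf m (V v) ≤ sc s0 s1 s2 (V v) m e)
    {L : Fin 3 → Bool → Bool → ℝ} {κ κ₁ : Fin 3 → Bool → Bool → ℝ}
    (hpt : Pt φ σ a k1 (fun m => Mf m S) (Uc c cs co r S) L (sc s0 s1 s2 S) κ κ₁) (m : Fin 3) :
    Poly (up m) (lo m) (κ₁ m) := by
  have hM := (hMf m).pos hD (hMp m)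
  refine ⟨fun e b => (hpt.le m e b).1, fun e b => ?_, fun e => ?_⟩
  · have h1 := (Uc_aff c cs co r m e b).le ((hMf m).smul (up m e b)) hD (hU m e b)
    have h2 := (hpt.box m e b).2
    exact le_of_mul_le_mul_right (h2.trans h1) hM
  · have h1 := ((hMf m).smul (lo m e)).le (sc_aff s0 s1 s2 m e) hD (hs m e)
    have h2 := hpt.sum m e
    exact le_of_mul_le_mul_right (h1.trans h2) hM

/-- **couplings at a state of a piece**, any profile -/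
theorem piece_pt {φ : ℝ → ℝ} (hφ : Prof φ) {K : Set E3} {σ : Measure (E3 × E3)}
    [IsFiniteMeasure σ] {a c' : Fin 4 → E3} (hC : CN K σ a c') (hV : Viol K a S)
    (hD : Dc V S lam) {Sm : ℝ} (hSm : ∀ v i, V v i ≤ Sm) (hSm1 : Sm ≤ 0.12)
    {c cs co r s0 s1 s2 k1 : ℝ} (hr0 : 0 ≤ r) (hr1 : r ≤ 1)
    (hr : (1 - r) ^ 2 * (3 / 2 + 2 * Sm) ≤ 1) (hc : 0 ≤ c) (hcs : 0 ≤ cs) (hco : 0 ≤ co)
    (hX : XB φ σ a S c cs co) (hs : SB φ σ a S s0 s1 s2) (hk0 : 0 < k1) (hk1 : k1 ≤ 1)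
    (hs1 : -s1 ≤ (1 + r) * co) (hs2 : 0 ≤ s2) (hsc : s0 ≤ (1 + r) * c)
    {Mf : Fin 3 → (Fin 4 → ℝ) → ℝ} (hMf : ∀ m, Aff (Mf m)) (hMp : ∀ m v, 0 < Mf m (V v))
    {up : Fin 3 → Bool → Bool → ℝ} {lo : Fin 3 → Bool → ℝ}
    (hk : ∀ m e i v, Uc c cs co r (V v) m e i ≤ k1 * Mf m (V v))
    (hU : ∀ m e i v, Uc c cs co r (V v) m e i ≤ up m e i * Mf m (V v))
    (hlo : ∀ m e v, lo m e * Mf m (V v) ≤ sc s0 s1 s2 (V v) m e)
    {B : Fin 3 → Bool → OrthonormalBasis (Fin 3) ℝ E3}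
    (hB : ∀ m e, Fr (fun i => a (pr m e i)) (B m e)) :
    ∃ κ κ₁ : Fin 3 → Bool → Bool → ℝ,
      Pt φ σ a k1 (fun m => Mf m S) (Uc c cs co r S) (fun _ _ _ => 0) (sc s0 s1 s2 S) κ κ₁ ∧
      TL σ a B (l3 φ κ a) 0 ∧ ∀ m, Poly (up m) (lo m) (κ₁ m) := by
  have hS : ∀ i, S i ≤ Sm := fun i => by
    have h1 := (Aff.coord i).le (Aff.const Sm) hD fun v => hSm v i
    exact h1
  have hJ : JL φ σ a k1 (fun m => Mf m S) (Uc c cs co r S) (fun _ _ _ => 0)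
      (sc s0 s1 s2 S) :=
    jl_of hφ hC.pm hC.ha hC.hp hV.nn hV.le hS hr0 hr1 hr hc hcs hco hX hs hk0 hk1
      (fun m e i => (Uc_aff c cs co r m e i).le ((hMf m).smul k1) hD (hk m e i))
      (fun m => (hMf m).pos hD (hMp m)) hs1 hs2 hsc
  obtain ⟨κ, κ₁, h1, h2⟩ := exists_pt hφ hC.pm hC.ha hC.hd hC.hp
    (fun j q hq => (hV.le j q hq).trans ((hS j).trans hSm1)) hJ hB
  exact ⟨κ, κ₁, h1, h2, piece_poly hD hMf hMp hU hlo h1⟩

theorem pf01 : ∀ (m : Fin 3) (e : Bool), pf m e 0 ≠ pf m e 1 := by decide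

/-- **couplings at a state of a piece, profile `ph22`**, typed numbers: moments `xb_ph10`, masses
`mass_ph2`; the numbers are checked at the vertices of the piece -/
theorem piece_ph {K : Set E3} {σ : Measure (E3 × E3)} [IsFiniteMeasure σ] {a c' : Fin 4 → E3}
    (hC : CN K σ a c') (hV : Viol K a S) (hD : Dc V S lam) {Sm B' : ℝ}
    (hSm : ∀ v i, V v i ≤ Sm) (hSm1 : Sm ≤ 0.12) (hB' : ∀ v i j, i ≠ j → V v i + V v j ≤ B')
    (hB0 : 0 < B') {r s0 s1 k1 : ℝ} (hr0 : 0 ≤ r) (hr1 : r ≤ 1)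
    (hr : (1 - r) ^ 2 * (3 / 2 + 2 * Sm) ≤ 1) (h0 : s0 ≤ 0.07713)
    (h1 : s0 - s1 * B' ≤ 0.07713 - 0.21162 * B' - 0.11121 * B' ^ 2 - 0.01209 * Sm * B')
    (hs1 : -s1 ≤ (1 + r) * 0.127595) (hsc : s0 ≤ (1 + r) * 0.0466) (hk0 : 0 < k1) (hk1 : k1 ≤ 1)
    {Mf : Fin 3 → (Fin 4 → ℝ) → ℝ} (hMf : ∀ m, Aff (Mf m)) (hMp : ∀ m v, 0 < Mf m (V v))
    {up : Fin 3 → Bool → Bool → ℝ} {lo : Fin 3 → Bool → ℝ}
    (hk : ∀ m e i v, Uc 0.0466 0.34814 0.127595 r (V v) m e i ≤ k1 * Mf m (V v))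
    (hU : ∀ m e i v, Uc 0.0466 0.34814 0.127595 r (V v) m e i ≤ up m e i * Mf m (V v))
    (hlo : ∀ m e v, lo m e * Mf m (V v) ≤ sc s0 s1 0 (V v) m e)
    {B : Fin 3 → Bool → OrthonormalBasis (Fin 3) ℝ E3}
    (hB : ∀ m e, Fr (fun i => a (pr m e i)) (B m e)) :
    ∃ κ κ₁ : Fin 3 → Bool → Bool → ℝ,
      Pt ph22 σ a k1 (fun m => Mf m S) (Uc 0.0466 0.34814 0.127595 r S) (fun _ _ _ => 0)
        (sc s0 s1 0 S) κ κ₁ ∧
      TL σ a B (l3 ph22 κ a) 0 ∧ ∀ m, Poly (up m) (lo m) (κ₁ m) := by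
  have hS : ∀ i, S i ≤ Sm := fun i => (Aff.coord i).le (Aff.const Sm) hD fun v => hSm v i
  have hT : ∀ m e, S (pf m e 0) + S (pf m e 1) ≤ B' := fun m e =>
    ((Aff.coord _).add (Aff.coord _)).le (Aff.const B') hD fun v => hB' v _ _ (pf01 m e)
  exact piece_pt prof22 hC hV hD hSm hSm1 hr0 hr1 hr (by norm_num) (by norm_num) (by norm_num)
    (xb_ph10 hC.pm hC.ha hC.hull hC.hp hB hV.nn hV.le)
    (sb_ph2 hC.pm hC.ha hC.hull hC.hp hB hV.nn hV.le hS hT hB0 h0 h1) hk0 hk1 hs1 le_rfl hsc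
    hMf hMp hk hU hlo hB

end Helper22.JPc
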