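import Pool.Agent.Helper22.MEI.Dec
import Pool.Agent.Helper37.FX.Blaschke
import Pool.Agent.Helper47.MEI.Flux2

/-!
# Project MEI, all bodies: the pair measure of a smooth body satisfies (S1), (S2), (S3)
-/

namespace Helper22.Join

open Set MeasureTheory Filter Topology Metric
open Helper80.CW Helper82.CW Helper22.Wedge Helper22.Sig
open scoped RealInnerProductSpace ContDiff Real

variable {f : E3 → ℝ}

/-- finiteness of the pair measure -/
theorem fin (h : SSup f 1) : IsFiniteMeasure (Helper37.FX.sigma f) := by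
  haveI : Fact (Sm f) := ⟨h.sm⟩
  exact inferInstance

/-- (S1) -/
theorem S1 (h : SSup f 1) : ∀ᵐ z ∂(Helper37.FX.sigma f),
    z.1 ∈ Helper37.FX.Bd f ∧ z.2 ∈ Helper37.FX.Bd f ∧ ‖z.1 - z.2‖ = 1 ∧
      ∀ y ∈ Helper37.FX.Bd f, ⟪y, z.1 - z.2⟫ ≤ ⟪z.1, z.1 - z.2⟫ :=
  Helper37.FX.sigma_ae h

theorem S1' (h : SSup f 1) : ∀ᵐ z ∂(Helper37.FX.sigma f),
    z.1 ∈ Helper37.FX.Bd f ∧ z.2 ∈ Helper37.FX.Bd f := by
  filter_upwards [S1 h] with z hz
  exact ⟨hz.1, hz.2.1⟩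

/-- (S2) on the whole space -/
theorem S2_whole (h : SSup f 1) (hp : ∀ x, x ≠ 0 → 0 < f x) {G : E3 → E3}
    (hG : ContDiff ℝ ∞ G) :
    ∫ z, ⟪G z.1, z.1 - z.2⟫ ∂(Helper37.FX.sigma f) = ∫ x in Helper37.FX.Bd f, dvg G x := by
  have hGi : ∀ i : Fin 3, ContDiff ℝ ∞ (fun y => G y i) := fun i =>
    (EuclideanSpace.proj (𝕜 := ℝ) i : E3 →L[ℝ] ℝ).contDiff.comp hG
  have h1 := Helper47.MEI.flux h hp (G := fun i y => G y i) hGi
  have hc : Continuous (fun z : E3 × E3 => ⟪G z.1, z.1 - z.2⟫) := by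
    have := hG.continuous
    fun_prop
  have h2 := Helper37.FX.integral_sigma h (F := fun z : E3 × E3 => ⟪G z.1, z.1 - z.2⟫)
    hc.aestronglyMeasurable
  have h3 : ∀ u : E3, (fun z : E3 × E3 => ⟪G z.1, z.1 - z.2⟫)
      (Helper37.FX.gr f u, Helper37.FX.gr f u - u) * Helper37.FX.sg2 f u =
      (∑ i, G (Helper37.FX.gr f u) i * u i) * Helper37.FX.sg2 f u := by
    intro u
    simp only [sub_sub_cancel]
    congr 1
    rw [PiLp.inner_apply]
    refine Finset.sum_congr rfl fun i _ => ?_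
    simp [mul_comm]
  rw [h2]
  have h4 : (fun u : E3 => (fun z : E3 × E3 => ⟪G z.1, z.1 - z.2⟫)
      (Helper37.FX.gr f u, Helper37.FX.gr f u - u) * Helper37.FX.sg2 f u) =
      (fun u : E3 => (∑ i, G (Helper37.FX.gr f u) i * u i) * Helper37.FX.sg2 f u) := funext h3
  have h5 : (fun u : E3 => ⟪G (Helper37.FX.gr f u, Helper37.FX.gr f u - u).1,
      (Helper37.FX.gr f u, Helper37.FX.gr f u - u).1 -
      (Helper37.FX.gr f u, Helper37.FX.gr f u - u).2⟫ * Helper37.FX.sg2 f u) =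
      (fun u : E3 => (∑ i, G (Helper37.FX.gr f u) i * u i) * Helper37.FX.sg2 f u) := h4
  rw [h5, h1]
  refine integral_congr_ae (Eventually.of_forall fun x => ?_)
  show Helper47.MEI.dv (fun i y => G y i) x = dvg G x
  rw [dvg_pd ((hG.differentiable (by simp)) x)]
  rfl

/-- (S2) in a cell for tangent fields -/
theorem S2 (h : SSup f 1) (hp : ∀ x, x ≠ 0 → 0 < f x) {ι : Type*} [Fintype ι]
    (ν : ι → E3) (c : ι → ℝ) {G : E3 → E3} (hG : ContDiff ℝ ∞ G) (hT : Tang ν c G) :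
    ∫ z in {z | z.1 ∈ Cel ν c}, ⟪G z.1, z.1 - z.2⟫ ∂(Helper37.FX.sigma f) =
      ∫ x in Helper37.FX.Bd f ∩ Cel ν c, dvg G x := by
  haveI := fin h
  exact S2_cell (Helper37.FX.Bd_compact h) (S1' h) (n := ⊤) le_top
    (fun G hG => S2_whole h hp hG) ν c hG hT

/-- walls carry no mass -/
theorem wall (h : SSup f 1) (hp : ∀ x, x ≠ 0 → 0 < f x) {ν : E3} (hν : ν ≠ 0) {c : ℝ} {a : E3}
    (ha : ⟪ν, a⟫ = c) {r : ℝ} (hr : 0 < r)
    (hpos : ∀ᵐ z ∂(Helper37.FX.sigma f), r ≤ ⟪z.1 - a, z.1 - z.2⟫) :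
    Helper37.FX.sigma f {z | ⟪ν, z.1⟫ = c} = 0 := by
  haveI := fin h
  exact wall_null (Helper37.FX.Bd_compact h) (S1' h) (n := ⊤) le_top
    (fun G hG => S2_whole h hp hG) hν ha hr hpos

/-- (S3) -/
theorem S3 (h : SSup f 1) : (Helper37.FX.sigma f).real univ =
    2 * volume.real (Helper37.FX.Bd f) + 2 * π / 3 := Helper37.FX.sigma_total h

end Helper22.Join
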