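import Pool.Agent.Helper22.MEI.Hess

/-!
# Project MEI: weak latitude inequality
-/

namespace Helper22.MEI

open Set MeasureTheory Real Filter Topology

theorem lipOn_of_deriv {u u' : ℝ → ℝ} {a b : ℝ} (hu : ∀ x ∈ Icc a b, HasDerivAt u (u' x) x)
    (hc : ContinuousOn u' (Icc a b)) : ∃ K, LipschitzOnWith K u (Icc a b) := by
  obtain ⟨C, hC⟩ := isCompact_Icc.exists_bound_of_continuousOn hc
  refine ⟨Real.toNNReal C, ?_⟩
  refine Convex.lipschitzOnWith_of_nnnorm_hasDerivWithin_le (convex_Icc a b)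
    (fun x hx => (hu x hx).hasDerivWithinAt) fun x hx => ?_
  rw [← NNReal.coe_le_coe, Real.coe_toNNReal', coe_nnnorm]
  exact (hC x hx).trans (le_max_left _ _)

theorem ac_of_deriv {u u' : ℝ → ℝ} {a b : ℝ} (hab : a ≤ b)
    (hu : ∀ x ∈ Icc a b, HasDerivAt u (u' x) x)
    (hc : ContinuousOn u' (Icc a b)) : AbsolutelyContinuousOnInterval u a b := by
  obtain ⟨K, hK⟩ := lipOn_of_deriv hu hc
  rw [← uIcc_of_le hab] at hK
  exact hK.absolutelyContinuousOnInterval

/-- the curve of constant height -/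
noncomputable def cu (z a : ℝ) : ℝ × ℝ := (tan a, z / cos a)

noncomputable def hat (g : ℝ × ℝ → ℝ) (z a : ℝ) : ℝ := cos a * g (cu z a)

noncomputable def hatp (g : ℝ × ℝ → ℝ) (z a : ℝ) : ℝ :=
  -sin a * g (cu z a) + (dX g (cu z a) + z * sin a * dY g (cu z a)) / cos a

theorem cu1 {a : ℝ} (h : cos a ≠ 0) : HasDerivAt (fun a => tan a) (1 / cos a ^ 2) a :=
  Real.hasDerivAt_tan h

theorem cu2 (z : ℝ) {a : ℝ} (h : cos a ≠ 0) :
    HasDerivAt (fun a => z / cos a) (z * sin a / cos a ^ 2) a := by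
  have h1 := (hasDerivAt_const a z).div (Real.hasDerivAt_cos a) h
  refine h1.congr_deriv ?_
  ring

theorem cu_deriv (z : ℝ) {a : ℝ} (h : cos a ≠ 0) :
    HasDerivAt (cu z) (1 / cos a ^ 2, z * sin a / cos a ^ 2) a :=
  (cu1 h).prodMk (cu2 z h)

theorem comp_cu {g : ℝ × ℝ → ℝ} (hd : Differentiable ℝ g) (z : ℝ) {a : ℝ} (h : cos a ≠ 0) :
    HasDerivAt (fun a => g (cu z a))
      (dX g (cu z a) * (1 / cos a ^ 2) + dY g (cu z a) * (z * sin a / cos a ^ 2)) a := by
  have h1 := (hd (cu z a)).hasFDerivAt.comp_hasDerivAt a (cu_deriv z h)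
  rw [fd_eq hd] at h1
  exact h1

theorem hat_deriv {g : ℝ × ℝ → ℝ} (hd : Differentiable ℝ g) (z : ℝ) {a : ℝ} (h : cos a ≠ 0) :
    HasDerivAt (hat g z) (hatp g z a) a := by
  have h1 := (Real.hasDerivAt_cos a).mul (comp_cu hd z h)
  refine HasDerivAt.congr_deriv (f := hat g z) h1 ?_
  unfold hatp
  field_simp

theorem cos_pos_Icc {b a : ℝ} (hb : b < π / 2) (ha : a ∈ Icc (-b) b) : 0 < cos a :=
  Real.cos_pos_of_mem_Ioo ⟨by linarith [ha.1], by linarith [ha.2]⟩

theorem cu_lip {b : ℝ} (hb : b < π / 2) (z : ℝ) : ∃ K, LipschitzOnWith K (cu z) (Icc (-b) b) := by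
  have hc : ∀ a ∈ Icc (-b) b, cos a ≠ 0 := fun a ha => (cos_pos_Icc hb ha).ne'
  have c1 : ContinuousOn (fun a => 1 / cos a ^ 2) (Icc (-b) b) :=
    continuousOn_const.div (by fun_prop) fun a ha => pow_ne_zero 2 (hc a ha)
  have c2 : ContinuousOn (fun a => z * sin a / cos a ^ 2) (Icc (-b) b) :=
    ContinuousOn.div (by fun_prop) (by fun_prop) fun a ha => pow_ne_zero 2 (hc a ha)
  obtain ⟨K1, h1⟩ := lipOn_of_deriv (fun a ha => cu1 (hc a ha)) c1
  obtain ⟨K2, h2⟩ := lipOn_of_deriv (fun a ha => cu2 z (hc a ha)) c2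
  exact ⟨max K1 K2, h1.prodMk h2⟩

theorem comp_ac {b : ℝ} (hb0 : 0 ≤ b) (hb : b < π / 2) (z : ℝ) {k : ℝ × ℝ → ℝ} {K : NNReal}
    (hk : LipschitzWith K k) : AbsolutelyContinuousOnInterval (fun a => k (cu z a)) (-b) b := by
  obtain ⟨K', hK⟩ := cu_lip hb z
  have h := hk.comp_lipschitzOnWith hK
  rw [← uIcc_of_le (by linarith : -b ≤ b)] at h
  exact h.absolutelyContinuousOnInterval

/-- monotonicity of the gradient along a curve -/
theorem mono_curve {g : ℝ × ℝ → ℝ} (hd : Differentiable ℝ g) (hc : ConvexOn ℝ univ g)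
    {c : ℝ → ℝ × ℝ} {c1 c2 p' q' a : ℝ} (h1 : HasDerivAt (fun a => (c a).1) c1 a)
    (h2 : HasDerivAt (fun a => (c a).2) c2 a)
    (hp : HasDerivAt (fun a => dX g (c a)) p' a) (hq : HasDerivAt (fun a => dY g (c a)) q' a) :
    0 ≤ p' * c1 + q' * c2 := by
  have t1 := hasDerivAt_iff_tendsto_slope.1 h1
  have t2 := hasDerivAt_iff_tendsto_slope.1 h2
  have t3 := hasDerivAt_iff_tendsto_slope.1 hp
  have t4 := hasDerivAt_iff_tendsto_slope.1 hq
  have t := (t3.mul t1).add (t4.mul t2)
  refine ge_of_tendsto t ?_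
  filter_upwards [self_mem_nhdsWithin] with r hr
  have hr' : r - a ≠ 0 := sub_ne_zero.2 hr
  have m1 := grad_ineq hd hc (c a) (c r - c a)
  have m2 := grad_ineq hd hc (c r) (c a - c r)
  rw [fd_eq hd] at m1 m2
  rw [add_sub_cancel] at m1 m2
  simp only [Prod.fst_sub, Prod.snd_sub] at m1 m2
  rw [slope_def_field, slope_def_field, slope_def_field, slope_def_field]
  have e : (dX g (c r) - dX g (c a)) / (r - a) * (((c r).1 - (c a).1) / (r - a))
      + (dY g (c r) - dY g (c a)) / (r - a) * (((c r).2 - (c a).2) / (r - a))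
      = ((dX g (c r) - dX g (c a)) * ((c r).1 - (c a).1)
        + (dY g (c r) - dY g (c a)) * ((c r).2 - (c a).2)) / (r - a) ^ 2 := by
    field_simp
  rw [e]
  refine div_nonneg ?_ (sq_nonneg _)
  nlinarith

theorem lat {g : ℝ × ℝ → ℝ} (hd : Differentiable ℝ g) (hc : ConvexOn ℝ univ g) {K L : NNReal}
    (LX : LipschitzWith K (dX g)) (LY : LipschitzWith L (dY g)) {b z : ℝ} (hb0 : 0 ≤ b)
    (hb : b < π / 2) {v v' : ℝ → ℝ} (hv : ∀ a ∈ Icc (-b) b, HasDerivAt v (v' a) a)
    (hv' : ContinuousOn v' (Icc (-b) b)) (hnn : ∀ a ∈ Icc (-b) b, 0 ≤ v a)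
    (hv1 : v (-b) = 0) (hv2 : v b = 0) :
    ∫ a in (-b)..b, (-hat g z a + z * dY g (cu z a)) * v a ≤ -∫ a in (-b)..b, hatp g z a * v' a := by
  have hle : -b ≤ b := by linarith
  have hcos : ∀ a ∈ Icc (-b) b, 0 < cos a := fun a ha => cos_pos_Icc hb ha
  have hcos' : ∀ a ∈ Icc (-b) b, cos a ≠ 0 := fun a ha => (hcos a ha).ne'
  have hcc : ContinuousOn (cu z) (Icc (-b) b) := fun a ha =>
    (cu_deriv z (hcos' a ha)).continuousAt.continuousWithinAt
  have cX : ContinuousOn (fun a => dX g (cu z a)) (Icc (-b) b) :=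
    LX.continuous.comp_continuousOn hcc
  have cY : ContinuousOn (fun a => dY g (cu z a)) (Icc (-b) b) :=
    LY.continuous.comp_continuousOn hcc
  have cg : ContinuousOn (fun a => g (cu z a)) (Icc (-b) b) := hd.continuous.comp_continuousOn hcc
  -- absolute continuity
  have aX := comp_ac hb0 hb z LX
  have aY := comp_ac hb0 hb z LY
  have ag : AbsolutelyContinuousOnInterval (fun a => g (cu z a)) (-b) b := by
    refine ac_of_deriv hle (fun a ha => comp_cu hd z (hcos' a ha)) ?_
    refine (cX.mul ?_).add (cY.mul ?_)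
    · exact continuousOn_const.div (by fun_prop) fun a ha => pow_ne_zero 2 (hcos' a ha)
    · exact ContinuousOn.div (by fun_prop) (by fun_prop) fun a ha => pow_ne_zero 2 (hcos' a ha)
  have asin : AbsolutelyContinuousOnInterval (fun a => -sin a) (-b) b :=
    ac_of_deriv hle (fun a _ => (Real.hasDerivAt_sin a).neg) (by fun_prop)
  have azs : AbsolutelyContinuousOnInterval (fun a => z * sin a) (-b) b :=
    ac_of_deriv hle (fun a _ => (Real.hasDerivAt_sin a).const_mul z) (by fun_prop)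
  have aic : AbsolutelyContinuousOnInterval (fun a => (cos a)⁻¹) (-b) b := by
    refine ac_of_deriv hle (fun a ha => (Real.hasDerivAt_cos a).inv (hcos' a ha)) ?_
    exact ContinuousOn.div (by fun_prop) (by fun_prop) fun a ha => pow_ne_zero 2 (hcos' a ha)
  have aF : AbsolutelyContinuousOnInterval (hatp g z) (-b) b := by
    have := (asin.fun_mul ag).add ((aX.add (azs.fun_mul aY)).mul aic)
    exact this
  have av : AbsolutelyContinuousOnInterval v (-b) b := ac_of_deriv hle hv hv'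
  have ibp := aF.integral_mul_deriv_eq_deriv_mul av
  rw [hv1, hv2, mul_zero, mul_zero, sub_zero, zero_sub] at ibp
  have e1 : ∫ a in (-b)..b, hatp g z a * v' a = ∫ a in (-b)..b, hatp g z a * deriv v a := by
    refine intervalIntegral.integral_congr fun a ha => ?_
    rw [uIcc_of_le hle] at ha
    simp only [(hv a ha).deriv]
  rw [e1, ibp, neg_neg]
  have cv : ContinuousOn v (Icc (-b) b) := fun a ha => (hv a ha).continuousAt.continuousWithinAt
  have cl : ContinuousOn (fun a => (-hat g z a + z * dY g (cu z a)) * v a) (Icc (-b) b) := by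
    refine ContinuousOn.mul (ContinuousOn.add (ContinuousOn.neg ?_) (continuousOn_const.mul cY)) cv
    exact Real.continuous_cos.continuousOn.mul cg
  have i1 : IntervalIntegrable (fun a => (-hat g z a + z * dY g (cu z a)) * v a) volume (-b) b :=
    ContinuousOn.intervalIntegrable (by rwa [uIcc_of_le hle])
  have i2 : IntervalIntegrable (fun a => deriv (hatp g z) a * v a) volume (-b) b :=
    aF.intervalIntegrable_deriv.mul_continuousOn (by rwa [uIcc_of_le hle])
  refine intervalIntegral.integral_mono_ae_restrict hle i1 i2 ?_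
  rw [EventuallyLE, ae_restrict_iff' measurableSet_Icc]
  filter_upwards [aX.ae_differentiableAt, aY.ae_differentiableAt] with a hx hy ha
  have ha' : a ∈ uIcc (-b) b := by rwa [uIcc_of_le hle]
  have hp := (hx ha').hasDerivAt
  have hq := (hy ha').hasDerivAt
  set p' := deriv (fun a => dX g (cu z a)) a
  set q' := deriv (fun a => dY g (cu z a)) a
  have hn := hcos' a ha
  have hm := mono_curve hd hc (cu1 hn) (cu2 z hn) (c := cu z) hp hq
  have hF : HasDerivAt (hatp g z) (-hat g z a + z * dY g (cu z a) + (p' + z * sin a * q') / cos a)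
      a := by
    have h1 := ((Real.hasDerivAt_sin a).neg.mul (comp_cu hd z hn)).add
      ((hp.add (((Real.hasDerivAt_sin a).const_mul z).mul hq)).div (Real.hasDerivAt_cos a) hn)
    refine HasDerivAt.congr_deriv (f := hatp g z) h1 ?_
    unfold hat
    simp only [Pi.neg_apply, Pi.add_apply, Pi.mul_apply]
    field_simp
    ring
  rw [hF.deriv]
  refine mul_le_mul_of_nonneg_right ?_ (hnn a ha)
  have h3 : 0 ≤ (p' + z * sin a * q') / cos a := by
    have e : p' * (1 / cos a ^ 2) + q' * (z * sin a / cos a ^ 2)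
        = ((p' + z * sin a * q') / cos a) / cos a := by
      field_simp
    rw [e] at hm
    have := mul_nonneg hm (hcos a ha).le
    rwa [div_mul_cancel₀ _ hn] at this
  linarith

end Helper22.MEI
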