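import Pool.Agent.Helper22.MEI.Final
import Pool.Agent.Helper55.MEI.L3g

namespace Helper22.MEI

open Set MeasureTheory Helper80.CW Helper82.CW

theorem L3_holds : L3 := Pool.Agent.Helper55.MEI.meissner_value

/-- The class T theorem from the analytic inequality. -/
theorem class_T_of_M1A (hM : M1A) {K : Set E3} (hK : IsCompact K) (hc : Convex ℝ K)
    (hw : Width1 K) {a : Fin 4 → E3} (ha : ∀ i, a i ∈ K)
    (hd : ∀ i j, i ≠ j → dist (a i) (a j) = 1) :
    ENNReal.ofReal (Real.pi * (2 / 3 - √3 / 4 * Real.arccos (1 / 3))) ≤ volume K :=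
  class_T hM L3_holds hK hc hw ha hd

end Helper22.MEI
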