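import Pool.Agent.Helper78.MEI.FaceT
import Pool.Agent.Helper31.ARC.ArcP
import Pool.Agent.Helper73.MEI.SidePhi

/-!
# Project MEI (M2), faces: apex, chamber arcs and shared arcs mixed

`face_mix`: `face_strip` with general inside functions `f l` of the arcs and the apex weight
`lam * alP`, hypothesis `lam * alP * ζp k + (f 0 + f 1 + f 2 - f k) ≤ mu k` on the cone.
`fm`: the mixture of the chamber arcs (residual of the full apex) and of the side functions.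
-/

set_option autoImplicit false

namespace Helper22.Mix

open Set Metric MeasureTheory Real Matrix Helper80.CW Helper82.CW Helper14.CW Helper22.Sig
open Helper22.Wedge Helper14.MEI2 Pool.Agent.Helper73.MEI Helper33.MEI Helper93.MEI
open Pool.Agent.Helper52.MEI Helper78.MEI
open Pool.Agent.Helper55.Sx (Sim mm mm_pos mm_cont mt_mm deg1 int_Dl)
open Pool.Agent.Helper55.Mass (LN LN_nonneg vv vv_nonneg vv_le B0 intOn)
open Pool.Agent.Helper55.Apex (nc vt_vv)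
open Pool.Agent.Helper55.ApexP (PN PN_nonneg PN_det_pos alP alP_nonneg alP_zeta alP_meas alP_bound
  xx_mu alP_int)
open Pool.Agent.Helper55.Fill (xx rr xe wc xe_bal rr_nonneg xx_meas rr_meas xx_nonneg xx_le rr_int)
open Pool.Agent.Helper31.ARC (arP arP_nonneg arP_pair arP_meas arP_int arP_zero rsP arcP_mass
  arcP_mass_le cP)
open Pool.Agent.Helper73.MEI.SideP (flP flP_nonneg flP_pair flP_meas flP_int flP_zero flN_mass
  flN_pos mbN mbN_ge)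
open Helper75.MEI2 (mu vt)
open scoped RealInnerProductSpace ENNReal

section feas
variable {N : Fin 3 → Fin 3 → ℝ} {ζ ζp : Fin 3 → ℝ} {f κ : Fin 3 → ℝ × ℝ → ℝ}
  {F Kp β : Fin 3 → ℝ} {A' ρ lam : ℝ} {M : Fin 3 → Fin 3 → ℝ}

/-- feasibility in the cone, general inside functions -/
theorem mix_feas (hN : ∀ k m, 0 ≤ N k m) (hd : ∀ k, N k k = 0) {c : ℝ} (hc : c < 1)
    (hcol : ∀ m, nc N m ≤ c) (hζp : ∀ k, 0 < ζp k) (hζ : ∀ k, ζ k ≤ ζp k)
    (hf0 : ∀ l, ∀ t, 0 ≤ f l t)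
    (hfz : ∀ l, ∀ t, (¬ ∀ k, 0 ≤ mu (PN N) (vt t) k) → f l t = 0)
    (hfx : ∀ t, (∀ k, 0 ≤ mu (PN N) (vt t) k) → ∀ k,
      lam * alP N ζp t * ζp k + ((f 0 t + f 1 t + f 2 t) - f k t) ≤ mu (PN N) (vt t) k)
    (hl0 : 0 ≤ lam) (hA' : 0 < A') (hF0 : ∀ l, 0 < F l) (hβ1 : ∀ l, β l ≤ 1)
    (hF : ∀ l, (1 - β l) * ρ ≤ A' * F l)
    (hMl : ∀ l, M l l = 0) (hMρ : ∀ l k, M l k ≤ ρ) {t : ℝ × ℝ} (ht : t ∈ Sim) (k : Fin 3) :
    lam * alP N ζp t * ζ k + ∑ l, ash f F β A' l t * M l k ≤ xx N (vv t) k := by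
  rw [Fin.sum_univ_three]
  have hx0 := xx_nonneg hN hc hcol (fun k => vv_nonneg ht k) k
  by_cases h : ∀ k, 0 ≤ mu (PN N) (vt t) k
  · have h2 : xx N (vv t) k = mu (PN N) (vt t) k := by
      rw [← vt_vv, xx_mu hN hd hc hcol h]
    have ha0 := alP_nonneg (N := N) hζp t
    have e1 : lam * alP N ζp t * ζ k ≤ lam * alP N ζp t * ζp k :=
      mul_le_mul_of_nonneg_left (hζ k) (mul_nonneg hl0 ha0)
    have arc : ∀ l, ash f F β A' l t * M l k ≤ (if l = k then 0 else f l t) := by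
      intro l
      by_cases hlk : l = k
      · rw [hlk, hMl, if_pos rfl]
        simp
      · rw [if_neg hlk]
        have hAF : 0 < A' * F l := mul_pos hA' (hF0 l)
        have hb : 0 ≤ 1 - β l := by have := hβ1 l; linarith
        have g0 : 0 ≤ f l t / (A' * F l) := div_nonneg (hf0 l t) hAF.le
        have g1 := mul_le_mul_of_nonneg_left (hMρ l k) (mul_nonneg hb g0)
        have g3 := mul_le_mul_of_nonneg_left (hF l) g0
        have g2 : f l t / (A' * F l) * (A' * F l) = f l t := div_mul_cancel₀ _ hAF.ne'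
        unfold ash
        linarith
    have a0 := arc 0
    have a1 := arc 1
    have a2 := arc 2
    have hsum : (if (0 : Fin 3) = k then 0 else f 0 t) + (if (1 : Fin 3) = k then 0 else f 1 t)
        + (if (2 : Fin 3) = k then 0 else f 2 t) = (f 0 t + f 1 t + f 2 t) - f k t := by
      fin_cases k <;> simp <;> ring
    have hfk := hfx t h k
    rw [← hsum] at hfk
    rw [h2]
    linarith
  · have h1 : alP N ζp t = 0 := by
      unfold alP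
      rw [if_neg h]
    unfold ash
    rw [h1, hfz 0 t h, hfz 1 t h, hfz 2 t h]
    simpa using hx0

/-- the side functions are at most one -/
theorem mix_le_one (hN : ∀ k m, 0 ≤ N k m) (hd : ∀ k, N k k = 0) {c : ℝ} (hc : c < 1)
    (hcol : ∀ m, nc N m ≤ c) (hζp : ∀ k, 0 < ζp k) (hl0 : 0 ≤ lam) (hf0 : ∀ l, ∀ t, 0 ≤ f l t)
    (hfz : ∀ l, ∀ t, (¬ ∀ k, 0 ≤ mu (PN N) (vt t) k) → f l t = 0)
    (hfx : ∀ t, (∀ k, 0 ≤ mu (PN N) (vt t) k) → ∀ k,
      lam * alP N ζp t * ζp k + ((f 0 t + f 1 t + f 2 t) - f k t) ≤ mu (PN N) (vt t) k)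
    (l : Fin 3) {t : ℝ × ℝ} (ht : t ∈ Sim) : f l t ≤ 1 :=
  f_le_one hN hd hc hcol hf0 hfz (fun t h k => by
    have h1 := hfx t h k
    have h2 := mul_nonneg (mul_nonneg hl0 (alP_nonneg (N := N) hζp t)) (hζp k).le
    linarith) l ht

end feas

variable {a : Fin 4 → E3} {σ : Measure (E3 × E3)} [IsFiniteMeasure σ] {K : Set E3}

/-- **FACE THEOREM, GENERAL INSIDE ARCS AND STRIPS** (vertex `τ 0`): contact nodes
`(R j, μ j; 1 + N)`, apex with contact coordinates `ζ` (value `s0`) and weight `lam * alP`, arcs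
`(E l, sm l; M l)` paid in full: a part `1 - β l` by the inside functions `f l`, the part `β l` in
the strips. -/
theorem face_mix (h : PM K σ) (ha : ∀ i j, i ≠ j → dist (a i) (a j) = 1)
    (hp : ∀ x ∈ K, Pl a x)
    (hull : ∀ p, (∀ q ∈ K, ‖p - q‖ ≤ 1) → p ∈ K) (hQ : ∀ i, ∀ q ∈ K, Qv a i q ≤ 3 / 16)
    (τ : Equiv.Perm (Fin 4)) {A : ℝ} (hA : 7 / 2 ≤ A)
    {N : Fin 3 → Fin 3 → ℝ} (hN : ∀ k m, 0 ≤ N k m) (hd : ∀ k, N k k = 0) {c : ℝ} (hc : c < 1)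
    (hcol : ∀ m, nc N m ≤ c)
    {ζ ζp : Fin 3 → ℝ} (hζp : ∀ k, 0 < ζp k) (hζ : ∀ k, ζ k ≤ ζp k)
    {f : Fin 3 → ℝ × ℝ → ℝ} (hfm : ∀ l, Measurable (f l)) (hf0 : ∀ l, ∀ t, 0 ≤ f l t)
    (hfz : ∀ l, ∀ t, (¬ ∀ k, 0 ≤ mu (PN N) (vt t) k) → f l t = 0) {lam : ℝ}
    (hfx : ∀ t, (∀ k, 0 ≤ mu (PN N) (vt t) k) → ∀ k,
      lam * alP N ζp t * ζp k + ((f 0 t + f 1 t + f 2 t) - f k t) ≤ mu (PN N) (vt t) k)
    {κ : Fin 3 → ℝ × ℝ → ℝ} (hκm : ∀ l, Measurable (κ l)) (hκ0 : ∀ l, ∀ t ∈ Sim, 0 ≤ κ l t)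
    {Ck : ℝ} (hκC : ∀ l, ∀ t ∈ Sim, κ l t ≤ Ck)
    (hκr : ∀ t ∈ Sim, ∀ k, (κ 0 t + κ 1 t + κ 2 t) - κ k t ≤ rr N (vv t) k)
    {ρ : ℝ} (hρ : 0 < ρ) (hl0 : 0 ≤ lam) (hl1 : lam ≤ 1)
    {β : Fin 3 → ℝ} (hβ0 : ∀ l, 0 ≤ β l) (hβ1 : ∀ l, β l ≤ 1)
    (hF0 : ∀ l, 0 < Pool.Agent.Helper55.Mass.Id (f l))
    (hF : ∀ l, (1 - β l) * ρ ≤ (A / 2 + 1 / 8) * Pool.Agent.Helper55.Mass.Id (f l))
    (hK : ∀ l, β l * ρ ≤ (A / 2 + 1 / 8) * Pool.Agent.Helper55.Mass.Id (κ l))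
    {M : Fin 3 → Fin 3 → ℝ} (hM0 : ∀ l k, 0 ≤ M l k) (hMl : ∀ l, M l l = 0)
    (hMρ : ∀ l k, M l k ≤ ρ)
    {R S μ H r E sm : Fin 3 → ℝ} {s0 : ℝ}
    (hH : ∀ j, H j + (N 0 j * H 0 + N 1 j * H 1 + N 2 j * H 2) = R j)
    (hr : ∀ k, Pool.Agent.Helper55.Mass.Id (fun t => rr N (vv t) k) ≤ r k)
    (nodes : ∀ q ∈ K, ∀ j, Load (fun i => a (τ i)) q (R j) (μ j)
      (fun k => (if k = j then 1 else 0) + N k j))
    (apex : ∀ q ∈ K, Load (fun i => a (τ i)) q s0 1 (fun k => ζ k + LN N ζ k))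
    (arcs : ∀ q ∈ K, ∀ l, Load (fun i => a (τ i)) q (E l) (sm l) (M l))
    (caps : ∀ q ∈ K, Qv a (τ 1) q ≤ S 0 ∧ Qv a (τ 2) q ≤ S 1 ∧ Qv a (τ 3) q ≤ S 2)
    {νn νa νs : Fin 3 → ℝ} {νz : ℝ} (hνn0 : ∀ j, 0 ≤ νn j)
    (hνn : ∀ j, 1 + nc N j - μ j ≤ νn j)
    (hνz : (∑ k, (ζ k + LN N ζ k)) - 1 +
      (pp (-ζ 0) * νn 0 + pp (-ζ 1) * νn 1 + pp (-ζ 2) * νn 2) ≤ νz)
    (hνa : ∀ l, (∑ k, (M l k + LN N (M l) k)) - sm l ≤ νa l)
    (hνs : ∀ l, (M l 0 + M l 1 + M l 2) - sm l ≤ νs l)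
    {D W ω : ℝ × ℝ → ℝ} {C2 : ℝ}
    (hD : ∀ t ∈ Dl, vv t 0 * νn 0 + vv t 1 * νn 1 + vv t 2 * νn 2
      + lam * alP N ζp t * νz
      + ∑ l, ash f (fun l => Pool.Agent.Helper55.Mass.Id (f l)) β (A / 2 + 1 / 8) l t * νa l
      + ∑ l, ast κ (fun l => Pool.Agent.Helper55.Mass.Id (κ l)) β (A / 2 + 1 / 8) l t * νs l
      ≤ D t)
    (hω : AEStronglyMeasurable ω (volume.restrict Dl)) (hωC : ∀ t ∈ Dl, |ω t| ≤ C2)
    {s : ℝ × ℝ → ℝ} (hs : ∀ t ∈ Dl, 0 ≤ s t)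
    (own : ∀ p ∈ K, tx (fun i => a (τ i)) p ∈ Dl →
      Qv a (τ 0) p ≤ s (tx (fun i => a (τ i)) p))
    (hW : ∀ t ∈ Dl, ∀ q ∈ K,
      Yt (fun i => a (τ i)) t q / √(Helper33.MEI.mt t) - ‖a (τ 0) - q‖ ^ 2 ≤ s t →
      ‖a (τ 0) - q‖ ^ 2 ≤ W t) (hW2 : ∀ t ∈ Dl, W t < 2)
    (hcost : ∀ t ∈ Dl, cost (A / 2 + 1 / 8)
      (Gg N (fun _ : Unit => fun t => lam * alP N ζp t) (fun _ => ζ) (fun _ => s0)
        (ash f (fun l => Pool.Agent.Helper55.Mass.Id (f l)) β (A / 2 + 1 / 8))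
        (ast κ (fun l => Pool.Agent.Helper55.Mass.Id (κ l)) β (A / 2 + 1 / 8)) M E R S t
        / √(Helper33.MEI.mt t))
      (1 - (1 - D t) / √(Helper33.MEI.mt t)) (W t) ≤ ω t) :
    E 0 + E 1 + E 2
      + (A / 2 + 1 / 8) * (B0 * (H 0 + H 1 + H 2)
        - (r 0 * max (S 0 + H 0) 0 + r 1 * max (S 1 + H 1) 0 + r 2 * max (S 2 + H 2) 0)
        + lam * Pool.Agent.Helper55.Mass.Id (alP N ζp) *
          (s0 - (ζ 0 * R 0 + ζ 1 * R 1 + ζ 2 * R 2)))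
      - ((1 - β 0) * (M 0 0 * R 0 + M 0 1 * R 1 + M 0 2 * R 2)
        + (1 - β 1) * (M 1 0 * R 0 + M 1 1 * R 1 + M 1 2 * R 2)
        + (1 - β 2) * (M 2 0 * R 0 + M 2 1 * R 1 + M 2 2 * R 2))
      + (β 0 * (M 0 0 * S 0 + M 0 1 * S 1 + M 0 2 * S 2)
        + β 1 * (M 1 0 * S 0 + M 1 1 * S 1 + M 1 2 * S 2)
        + β 2 * (M 2 0 * S 0 + M 2 1 * S 1 + M 2 2 * S 2))
      - (√2)⁻¹ * ∫ t in Dl, ω t * M3 t ≤ Wi a (τ 0) K σ A := by
  have hA' : 0 < A / 2 + 1 / 8 := by linarith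
  have hKp : ∀ l, 0 ≤ Pool.Agent.Helper55.Mass.Id (κ l) := fun l => by
    have h1 := mul_nonneg (hβ0 l) hρ.le
    have h2 := h1.trans (hK l)
    by_contra hneg
    have := mul_neg_of_pos_of_neg hA' (not_le.1 hneg)
    linarith
  have hx : ∀ t ∈ Sim, ∀ k, lam * alP N ζp t * ζ k
      + ∑ l, ash f (fun l => Pool.Agent.Helper55.Mass.Id (f l)) β (A / 2 + 1 / 8) l t * M l k
      ≤ xx N (vv t) k := fun t ht k =>
    mix_feas hN hd hc hcol hζp hζ hf0 hfz hfx hl0 hA' hF0 hβ1 hF hMl hMρ ht k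
  have i0 : ∀ l, 0 ≤ 1 / ((A / 2 + 1 / 8) * Pool.Agent.Helper55.Mass.Id (f l)) := fun l => by
    have := mul_pos hA' (hF0 l)
    positivity
  have hCk : 0 ≤ Ck := by
    have hSim : ((0 : ℝ), (0 : ℝ)) ∈ Sim := ⟨le_rfl, le_rfl, by norm_num⟩
    exact (hκ0 0 _ hSim).trans (hκC 0 _ hSim)
  have key := face_gen (ι := Unit) h ha hp hull hQ τ hA hN hc hcol
    (al := fun _ => fun t => lam * alP N ζp t) (ζ := fun _ => ζ) (L := fun _ => s0)
    (μx := fun _ => 1) (R := R) (S := S) (μ := μ) (H := H) (r := r)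
    (α := ash f (fun l => Pool.Agent.Helper55.Mass.Id (f l)) β (A / 2 + 1 / 8))
    (g := ast κ (fun l => Pool.Agent.Helper55.Mass.Id (κ l)) β (A / 2 + 1 / 8))
    (Ca := lam * (1 / ζp 0) +
      (1 / ((A / 2 + 1 / 8) * Pool.Agent.Helper55.Mass.Id (f 0))
        + 1 / ((A / 2 + 1 / 8) * Pool.Agent.Helper55.Mass.Id (f 1))
        + 1 / ((A / 2 + 1 / 8) * Pool.Agent.Helper55.Mass.Id (f 2))))
    (Cg := Ck / ((A / 2 + 1 / 8) * Pool.Agent.Helper55.Mass.Id (κ 0))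
        + Ck / ((A / 2 + 1 / 8) * Pool.Agent.Helper55.Mass.Id (κ 1))
        + Ck / ((A / 2 + 1 / 8) * Pool.Agent.Helper55.Mass.Id (κ 2)))
    (M := M) (E := E) (sm := sm) (β := β) (D := D) (W := W) (ω := ω) (s := s)
    (fun _ => alP_meas.const_mul _)
    (fun _ t _ => mul_nonneg hl0 (alP_nonneg hζp t))
    (fun _ t ht => by
      have := mul_le_mul_of_nonneg_left (alP_bound hN hd hc hcol hζp ht) hl0
      have j0 := i0 0
      have j1 := i0 1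
      have j2 := i0 2
      linarith)
    (fun l => ((hfm l).div_const _).const_mul _)
    (fun l t _ => ash_nonneg hf0 hA' hF0 hβ1 l t)
    (fun l t ht => by
      have j0 := i0 0
      have j1 := i0 1
      have j2 := i0 2
      have jz : 0 ≤ lam * (1 / ζp 0) := by
        have := hζp 0
        positivity
      have hAF := mul_pos hA' (hF0 l)
      have g1 : f l t / ((A / 2 + 1 / 8) * Pool.Agent.Helper55.Mass.Id (f l)) ≤
          1 / ((A / 2 + 1 / 8) * Pool.Agent.Helper55.Mass.Id (f l)) :=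
        div_le_div_of_nonneg_right
          (mix_le_one hN hd hc hcol hζp hl0 hf0 hfz hfx l ht) hAF.le
      have g0 : 0 ≤ f l t / ((A / 2 + 1 / 8) * Pool.Agent.Helper55.Mass.Id (f l)) :=
        div_nonneg (hf0 l t) hAF.le
      have g2 : ash f (fun l => Pool.Agent.Helper55.Mass.Id (f l)) β (A / 2 + 1 / 8) l t ≤
          1 / ((A / 2 + 1 / 8) * Pool.Agent.Helper55.Mass.Id (f l)) := by
        have hb := hβ0 l
        have := mul_nonneg hb g0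
        unfold ash
        linarith
      refine g2.trans ?_
      fin_cases l
      · show 1 / ((A / 2 + 1 / 8) * Pool.Agent.Helper55.Mass.Id (f 0)) ≤ _
        linarith
      · show 1 / ((A / 2 + 1 / 8) * Pool.Agent.Helper55.Mass.Id (f 1)) ≤ _
        linarith
      · show 1 / ((A / 2 + 1 / 8) * Pool.Agent.Helper55.Mass.Id (f 2)) ≤ _
        linarith)
    (fun l => ((hκm l).div_const _).const_mul _)
    (fun l t ht => ast_nonneg hκ0 hA' hβ0 hKp l ht)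
    (fun l t ht => by
      have j : ∀ l, 0 ≤ Ck / ((A / 2 + 1 / 8) * Pool.Agent.Helper55.Mass.Id (κ l)) := fun l =>
        div_nonneg hCk (mul_nonneg hA'.le (hKp l))
      have j0 := j 0
      have j1 := j 1
      have j2 := j 2
      have hAF := mul_nonneg hA'.le (hKp l)
      have g1 : κ l t / ((A / 2 + 1 / 8) * Pool.Agent.Helper55.Mass.Id (κ l)) ≤
          Ck / ((A / 2 + 1 / 8) * Pool.Agent.Helper55.Mass.Id (κ l)) :=
        div_le_div_of_nonneg_right (hκC l t ht) hAF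
      have g0 : 0 ≤ κ l t / ((A / 2 + 1 / 8) * Pool.Agent.Helper55.Mass.Id (κ l)) :=
        div_nonneg (hκ0 l t ht) hAF
      have g2 : ast κ (fun l => Pool.Agent.Helper55.Mass.Id (κ l)) β (A / 2 + 1 / 8) l t ≤
          Ck / ((A / 2 + 1 / 8) * Pool.Agent.Helper55.Mass.Id (κ l)) := by
        have hb := mul_le_mul_of_nonneg_right (hβ1 l) g0
        unfold ast
        linarith
      refine g2.trans ?_
      fin_cases l
      · show Ck / ((A / 2 + 1 / 8) * Pool.Agent.Helper55.Mass.Id (κ 0)) ≤ _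
        linarith
      · show Ck / ((A / 2 + 1 / 8) * Pool.Agent.Helper55.Mass.Id (κ 1)) ≤ _
        linarith
      · show Ck / ((A / 2 + 1 / 8) * Pool.Agent.Helper55.Mass.Id (κ 2)) ≤ _
        linarith)
    hM0
    (fun t ht k => by
      simp only [Finset.univ_unique, Finset.sum_singleton]
      exact hx t ht k)
    (fun t ht k => ast_feas hκ0 hκr hA' hβ0 hKp hK hMl hMρ ht k)
    (fun l => ash_Id hA' hF0 l)
    (fun l => ast_Id hA' (by
      rcases eq_or_lt_of_le (hβ0 l) with e | hb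
      · exact Or.inl e.symm
      · right
        have h1 := mul_pos hb hρ
        have h2 := lt_of_lt_of_le h1 (hK l)
        by_contra hneg
        have := mul_nonpos_of_nonneg_of_nonpos hA'.le (not_lt.1 hneg)
        linarith))
    hH hr nodes (fun q hq _ => apex q hq) arcs caps
    (fun t ht => by
      have hx' : ∀ k, lam * (1 - 0) * alP N ζp t * ζ k
          + ∑ l, ash f (fun l => Pool.Agent.Helper55.Mass.Id (f l)) β (A / 2 + 1 / 8) l t * M l k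
          ≤ xx N (vv t) k := fun k => by
        rw [sub_zero, mul_one]
        exact hx t (Dl_Sim ht) k
      have k1 := DgS (φ := 0) hN hc hcol hζp hf0 zero_le_one hl0 hA' hF0 hM0 hβ1 hβ0 hκ0 hKp
        hνn0 hνn hνz hνa hνs (Dl_Sim ht) hx'
      simp only [sub_zero, mul_one] at k1
      exact k1.trans (hD t ht))
    hω hωC hs own hW hW2 hcost
  simp only [Finset.univ_unique, Finset.sum_singleton] at key
  have e0 : Pool.Agent.Helper55.Mass.Id (fun t => lam * alP N ζp t) =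
      lam * Pool.Agent.Helper55.Mass.Id (alP N ζp) :=
    Pool.Agent.Helper55.Mass.Id_const lam (alP N ζp)
  rw [e0] at key
  refine le_trans (le_of_eq ?_) key
  ring

/-! ### the mixture -/

section mixture
variable {N : Fin 3 → Fin 3 → ℝ} {ζp : Fin 3 → ℝ} {φ : ℝ}

/-- the mixture of the chamber arcs and of the side functions -/
noncomputable def fm (N : Fin 3 → Fin 3 → ℝ) (ζp : Fin 3 → ℝ) (φ : ℝ) (l : Fin 3) (t : ℝ × ℝ) : ℝ :=
  (1 - φ) * arP (PN N) ζp l t + φ * flP (PN N) l t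

theorem alP_eq (t : ℝ × ℝ) :
    Pool.Agent.Helper31.ARC.alP (PN N) ζp t = alP N ζp t := rfl

theorem fm_nonneg (hζp : ∀ k, 0 < ζp k) (hφ0 : 0 ≤ φ) (hφ1 : φ ≤ 1) (l : Fin 3) (t : ℝ × ℝ) :
    0 ≤ fm N ζp φ l t :=
  add_nonneg (mul_nonneg (by linarith) (arP_nonneg hζp l t)) (mul_nonneg hφ0 (flP_nonneg l t))

theorem fm_meas (l : Fin 3) : Measurable (fm N ζp φ l) :=
  ((arP_meas l).const_mul _).add ((flP_meas l).const_mul _)

theorem fm_zero (l : Fin 3) {t : ℝ × ℝ} (h : ¬ ∀ k, 0 ≤ mu (PN N) (vt t) k) :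
    fm N ζp φ l t = 0 := by
  push Not at h
  unfold fm
  rw [arP_zero h, flP_zero h, mul_zero, mul_zero, add_zero]

theorem fm_pair (hζp : ∀ k, 0 < ζp k) (hφ0 : 0 ≤ φ) (hφ1 : φ ≤ 1) {lam : ℝ}
    (hl1 : lam ≤ 1 - φ) {t : ℝ × ℝ} (h : ∀ k, 0 ≤ mu (PN N) (vt t) k) (k : Fin 3) :
    lam * alP N ζp t * ζp k +
      ((fm N ζp φ 0 t + fm N ζp φ 1 t + fm N ζp φ 2 t) - fm N ζp φ k t) ≤
      mu (PN N) (vt t) k := by
  obtain ⟨p0, p1, p2⟩ := arP_pair hζp h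
  obtain ⟨q0, q1, q2⟩ := flP_pair h
  have h1 : 0 ≤ 1 - φ := by linarith
  have hz := mul_le_mul_of_nonneg_right hl1
    (mul_nonneg (alP_nonneg (N := N) hζp t) (hζp k).le)
  have key : ∀ A B Z X : ℝ, A ≤ X - Z → B ≤ X → (1 - φ) * Z + ((1 - φ) * A + φ * B) ≤ X := by
    intro A B Z X hA hB
    have k1 := mul_le_mul_of_nonneg_left hA h1
    have k2 := mul_le_mul_of_nonneg_left hB hφ0
    linarith
  unfold rsP at p0 p1 p2
  rw [alP_eq] at p0 p1 p2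
  have r0 := key _ _ _ _ p0 q0
  have r1 := key _ _ _ _ p1 q1
  have r2 := key _ _ _ _ p2 q2
  unfold fm
  fin_cases k
  · simp only [Fin.zero_eta] at hz ⊢
    linarith
  · simp only [Fin.mk_one] at hz ⊢
    linarith
  · simp only [Fin.reduceFinMk] at hz ⊢
    linarith

theorem fm_Id (hζp : ∀ k, 0 < ζp k) (l : Fin 3) :
    Pool.Agent.Helper55.Mass.Id (fm N ζp φ l) =
      (1 - φ) * Pool.Agent.Helper55.Mass.Id (arP (PN N) ζp l)
        + φ * Pool.Agent.Helper55.Mass.Id (flP (PN N) l) := by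
  have i1 := arP_int (P := PN N) hζp l
  have i2 := flP_int (P := PN N) l
  unfold Pool.Agent.Helper55.Mass.Id
  have e : ∀ t : ℝ × ℝ, fm N ζp φ l t / mm t ^ 2 =
      (1 - φ) * (arP (PN N) ζp l t / mm t ^ 2) + φ * (flP (PN N) l t / mm t ^ 2) := by
    intro t
    unfold fm
    ring
  simp only [e]
  rw [integral_add (i1.const_mul _) (i2.const_mul _), integral_const_mul, integral_const_mul]
  ring

section mass
variable (hN : ∀ k m, 0 ≤ N k m) (hd : ∀ k, N k k = 0) {c : ℝ} (hc : c < 1)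
  (hcol : ∀ m, nc N m ≤ c)
include hN hd hc hcol

/-- **mass of the mixture** -/
theorem fm_mass (hζp : ∀ k, 0 < ζp k) (hφ0 : 0 ≤ φ) (hφ1 : φ ≤ 1) (l : Fin 3) :
    (1 - φ) * (1 / √2 * (ζp l * (PN N).det / (108 * cP (PN N) ζp l ^ 2)))
      + φ * (1 / √2 * ((PN N).det / (16 * mbN N l ^ 2))) ≤
      Pool.Agent.Helper55.Mass.Id (fm N ζp φ l) := by
  rw [fm_Id hζp l]
  have h1 := arcP_mass (PN_nonneg hN) (PN_det_pos hN hd hc hcol) hζp l
  have h2 := flN_mass hN hd hc hcol l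
  exact add_le_add (mul_le_mul_of_nonneg_left h1 (by linarith))
    (mul_le_mul_of_nonneg_left h2 hφ0)

theorem fm_pos (hζp : ∀ k, 0 < ζp k) (hφ0 : 0 ≤ φ) (hφ1 : φ ≤ 1) (l : Fin 3) :
    0 < Pool.Agent.Helper55.Mass.Id (fm N ζp φ l) := by
  have h1 := fm_mass hN hd hc hcol hζp hφ0 hφ1 l
  have hdp := PN_det_pos hN hd hc hcol
  have hm := mbN_ge hN l
  have hm0 : 0 < mbN N l := by linarith
  have hcp := Pool.Agent.Helper31.ARC.cP_pos (PN_nonneg hN) hdp hζp l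
  have hz := hζp l
  have p1 : 0 < 1 / √2 * (ζp l * (PN N).det / (108 * cP (PN N) ζp l ^ 2)) := by positivity
  have p2 : 0 < 1 / √2 * ((PN N).det / (16 * mbN N l ^ 2)) := by positivity
  rcases eq_or_lt_of_le hφ0 with e | hφ
  · rw [← e] at h1 ⊢
    linarith
  · have k1 := mul_nonneg (show 0 ≤ 1 - φ by linarith) p1.le
    have k2 := mul_pos hφ p2
    linarith

omit hc hcol in
/-- **the mean of the quadratic form over the chamber, explicit** -/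
theorem cP_N (l : Fin 3) {Q : ℝ} (hQ : Helper75.MEI2.Qf (PN N *ᵥ ζp) ≤ Q) :
    cP (PN N) ζp l ≤ Q / 12 + (2 + (nc N (l + 1) + nc N (l + 1) ^ 2)
      + (nc N (l + 2) + nc N (l + 2) ^ 2)) / 8
      - 13 / 240 * (1 - (N (l + 1) (l + 2) + N (l + 2) (l + 1))) := by
  obtain ⟨n0, n1, n2⟩ := Pool.Agent.Helper55.ApexP.nn_PN hd
  obtain ⟨d01, d02, d12⟩ := Pool.Agent.Helper55.ApexP.dd_PN hd
  have q0 := mul_nonneg (hN 1 0) (hN 2 0)
  have q1 := mul_nonneg (hN 0 1) (hN 2 1)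
  have q2 := mul_nonneg (hN 0 2) (hN 1 2)
  have hdd : ∀ j k, Helper75.MEI2.dd (PN N) j k = Helper75.MEI2.dd (PN N) k j := by
    intro j k
    unfold Helper75.MEI2.dd Helper75.MEI2.Qf
    ring
  refine Pool.Agent.Helper31.ARC.cP_le l hQ ?_ ?_
  · fin_cases l
    · show Helper75.MEI2.nn (PN N) 1 + Helper75.MEI2.nn (PN N) 2 ≤
        2 + (nc N 1 + nc N 1 ^ 2) + (nc N 2 + nc N 2 ^ 2)
      linarith
    · show Helper75.MEI2.nn (PN N) 2 + Helper75.MEI2.nn (PN N) 0 ≤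
        2 + (nc N 2 + nc N 2 ^ 2) + (nc N 0 + nc N 0 ^ 2)
      linarith
    · show Helper75.MEI2.nn (PN N) 0 + Helper75.MEI2.nn (PN N) 1 ≤
        2 + (nc N 0 + nc N 0 ^ 2) + (nc N 1 + nc N 1 ^ 2)
      linarith
  · fin_cases l
    · show 1 - (N 1 2 + N 2 1) ≤ Helper75.MEI2.dd (PN N) 1 2
      exact d12
    · show 1 - (N 2 0 + N 0 2) ≤ Helper75.MEI2.dd (PN N) 2 0
      rw [hdd 2 0]
      linarith
    · show 1 - (N 0 1 + N 1 0) ≤ Helper75.MEI2.dd (PN N) 0 1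
      exact d01

/-- **the arcs are paid by the mixture**: sufficient numbers -/
theorem fm_ok (hζp : ∀ k, 0 < ζp k) (hφ0 : 0 ≤ φ) (hφ1 : φ ≤ 1) {A' b C1 C2 d : ℝ}
    (hA : 0 < A') (l : Fin 3) (hC1 : cP (PN N) ζp l ≤ C1) (hC2 : mbN N l ≤ C2)
    (hd0 : 0 ≤ d) (hdd : d ≤ (PN N).det)
    (hb : b ≤ A' * ((1 - φ) * (ζp l * d / (152.736 * C1 ^ 2)) + φ * (d / (22.6276 * C2 ^ 2)))) :
    b ≤ A' * Pool.Agent.Helper55.Mass.Id (fm N ζp φ l) := by
  refine hb.trans (mul_le_mul_of_nonneg_left (le_trans ?_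
    (fm_mass hN hd hc hcol hζp hφ0 hφ1 l)) hA.le)
  have hcp := Pool.Agent.Helper31.ARC.cP_pos (PN_nonneg hN) (PN_det_pos hN hd hc hcol) hζp l
  have hm := mbN_ge hN l
  have hm0 : 0 < mbN N l := by linarith
  have hC10 : 0 < C1 := by linarith
  have hC20 : 0 < C2 := by linarith
  have hz := hζp l
  have hs : 0 < √2 := by positivity
  have hs2 : √2 ≤ 1.414222 := by
    rw [Real.sqrt_le_left (by norm_num)]
    norm_num
  have g1 : ζp l * d / (152.736 * C1 ^ 2) ≤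
      1 / √2 * (ζp l * (PN N).det / (108 * cP (PN N) ζp l ^ 2)) := by
    rw [one_div_mul_eq_div, div_div]
    refine div_le_div₀ (mul_nonneg hz.le (hd0.trans hdd))
      (mul_le_mul_of_nonneg_left hdd hz.le) (by positivity) ?_
    have k1 : cP (PN N) ζp l ^ 2 ≤ C1 ^ 2 := pow_le_pow_left₀ hcp.le hC1 2
    calc 108 * cP (PN N) ζp l ^ 2 * √2 ≤ 108 * C1 ^ 2 * 1.414222 := by
          apply mul_le_mul _ hs2 hs.le (by positivity)
          linarith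
      _ ≤ 152.736 * C1 ^ 2 := by nlinarith [sq_nonneg C1]
  have g2 : d / (22.6276 * C2 ^ 2) ≤ 1 / √2 * ((PN N).det / (16 * mbN N l ^ 2)) := by
    rw [one_div_mul_eq_div, div_div]
    refine div_le_div₀ (hd0.trans hdd) hdd (by positivity) ?_
    have k1 : mbN N l ^ 2 ≤ C2 ^ 2 := pow_le_pow_left₀ hm0.le hC2 2
    calc 16 * mbN N l ^ 2 * √2 ≤ 16 * C2 ^ 2 * 1.414222 := by
          apply mul_le_mul _ hs2 hs.le (by positivity)
          linarith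
      _ ≤ 22.6276 * C2 ^ 2 := by nlinarith [sq_nonneg C2]
  exact add_le_add (mul_le_mul_of_nonneg_left g1 (by linarith))
    (mul_le_mul_of_nonneg_left g2 hφ0)

end mass

end mixture

end Helper22.Mix
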