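import Pool.Agent.Helper41.MEI.ArcL
import Pool.Agent.Helper78.MEI.AsmK

/-!
# Project MEI (M2): signed arcs

The density is the full weight `wt` of the cell and the level is the signed integral
`gL = int wt Q`.  The edge excess is exactly `- (gL_0 + gL_1)`; each arc is a load of its face,
for every sign of `gL`.  `pL, pm, pM` = the arc switched off when its level is not positive.
-/

set_option autoImplicit false

namespace Helper22.Sgn

open Set Metric MeasureTheory Helper80.CW Helper14.CW Helper14.MEI2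
open Helper93.MEI Helper37.MEI Helper41.MEI Helper78.MEI
open Pool.Agent.Helper8.MEI (DD DD_pos)
open Pool.Agent.Helper73.MEI (PM TE TE_exc pf pr pr_apply pf_bij)
open Pool.Agent.Helper95.MEI.Fub (Zp exc exc_cont eX_cont eY_cont eW_cont Qv_cont pp_cont
  DDe_cont int_cont Zp_meas)
open Pool.Agent.Helper95.MEI.Cst (fAs vAs vAx v_hi v_lo)
open Pool.Agent.Helper52.MEI (Load)
open Helper33.MEI (Wi)
open scoped RealInnerProductSpace Real

section defs
variable (σ : Measure (E3 × E3)) (a : Fin 4 → E3)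

/-- signed level, mass, first moment of one arc -/
noncomputable def gL (m : Fin 3) (e i : Bool) : ℝ :=
  ∫ z in EE a m e, wt (ap a m e) i z.1 * Qv a (vx m e i) z.2 ∂σ
noncomputable def gm (m : Fin 3) (e i : Bool) : ℝ :=
  ∫ z in EE a m e, wt (ap a m e) i z.1 ∂σ
noncomputable def gM (m : Fin 3) (e i : Bool) (k : Fin 4) : ℝ :=
  ∫ z in EE a m e, wt (ap a m e) i z.1 * bar a k z.2 ∂σ

/-- the signed loss of a vertex, and the sum of the positive parts of its arcs -/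
noncomputable def GS (j : Fin 4) : ℝ :=
  ∑ x : Fin 3 × Bool × Bool, if vx x.1 x.2.1 x.2.2 = j then gL σ a x.1 x.2.1 x.2.2 else 0
noncomputable def PS (j : Fin 4) : ℝ :=
  ∑ x : Fin 3 × Bool × Bool, if vx x.1 x.2.1 x.2.2 = j then pp (gL σ a x.1 x.2.1 x.2.2) else 0

/-- the arc of `j` in the cell of the edge `j k` -/
noncomputable def aL (j k : Fin 4) : ℝ := gL σ a (ax j k).1 (ax j k).2.1 (ax j k).2.2
noncomputable def am (j k : Fin 4) : ℝ := gm σ a (ax j k).1 (ax j k).2.1 (ax j k).2.2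
noncomputable def aM (j k n : Fin 4) : ℝ := gM σ a (ax j k).1 (ax j k).2.1 (ax j k).2.2 n

/-- the arc switched off when its level is not positive -/
noncomputable def pL (j k : Fin 4) : ℝ := pp (aL σ a j k)
noncomputable def pm (j k : Fin 4) : ℝ := if 0 < aL σ a j k then am σ a j k else 0
noncomputable def pM (j k n : Fin 4) : ℝ := if 0 < aL σ a j k then aM σ a j k n else 0

end defs

variable {a : Fin 4 → E3} {K : Set E3} {σ : Measure (E3 × E3)}

/-- the excess of a pair is minus the two signed losses -/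
theorem exc_sgn (z : E3 × E3) :
    exc a z = -(wt a false z.1 * Qv a 0 z.2 + wt a true z.1 * Qv a 1 z.2) := by
  unfold exc
  rw [wt_wn, wt_wn, wn, wn]
  simp only [Bool.false_eq_true, if_false, if_true]
  ring

/-- **the excess of an edge cell is exactly minus the two signed levels** -/
theorem TE_sgn [IsFiniteMeasure σ] (hP : PM K σ) (ha : ∀ i j, i ≠ j → dist (a i) (a j) = 1)
    (m : Fin 3) (e : Bool) {b : OrthonormalBasis (Fin 3) ℝ E3} (hb : Fr (ap a m e) b) :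
    TE b (cen a) σ = -(gL σ a m e false + gL σ a m e true) := by
  have hc : cen (ap a m e) = cen a := cen_perm _
  have h1 := TE_exc hP (hap ha m e) hb
  rw [hc] at h1
  have i1 : ∀ i, Integrable (fun z : E3 × E3 =>
      wt (ap a m e) i z.1 * Qv a (vx m e i) z.2) σ := fun i =>
    int_cont hP.cpt hP.mem (((wt_cont (ap a m e) i).comp continuous_fst).mul
      ((Qv_cont a (vx m e i)).comp continuous_snd))
  rw [h1]
  unfold gL EE
  rw [← integral_add (i1 false).integrableOn (i1 true).integrableOn, ← integral_neg]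
  apply integral_congr_ae
  filter_upwards with z
  exact exc_sgn z

/-- the loss of a vertex by its three arcs -/
theorem GS_ax (j : Fin 4) : GS σ a j = ∑ k, if k = j then 0 else aL σ a j k := by
  unfold GS aL
  rw [Fintype.sum_prod_type]
  simp only [Fintype.sum_prod_type, Fin.sum_univ_three, Fin.sum_univ_four, Fintype.sum_bool]
  fin_cases j <;> simp [vx, pf, ax] <;> ring

theorem PS_ax (j : Fin 4) : PS σ a j = ∑ k, if k = j then 0 else pL σ a j k := by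
  unfold PS pL aL
  rw [Fintype.sum_prod_type]
  simp only [Fintype.sum_prod_type, Fin.sum_univ_three, Fin.sum_univ_four, Fintype.sum_bool]
  fin_cases j <;> simp [vx, pf, ax] <;> ring

theorem sum_face (f : Fin 4 → Fin 4 → ℝ) (τ : Equiv.Perm (Fin 4)) :
    (∑ k, if k = τ 0 then 0 else f (τ 0) k) = ∑ k : Fin 3, f (τ 0) (τ k.succ) := by
  rw [← Equiv.sum_comp τ (fun k => if k = τ 0 then 0 else f (τ 0) k), Fin.sum_univ_succ]
  rw [if_pos rfl, zero_add]
  apply Finset.sum_congr rfl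
  intro k _
  rw [if_neg]
  intro h
  exact absurd (τ.injective h) (Fin.succ_ne_zero k)

/-- the same in the labelling of the face -/
theorem GS_face (τ : Equiv.Perm (Fin 4)) :
    GS σ a (τ 0) = ∑ k : Fin 3, aL σ a (τ 0) (τ k.succ) := by
  rw [GS_ax, sum_face (aL σ a)]

theorem PS_face (τ : Equiv.Perm (Fin 4)) :
    PS σ a (τ 0) = ∑ k : Fin 3, pL σ a (τ 0) (τ k.succ) := by
  rw [PS_ax, sum_face (pL σ a)]

theorem sum_GS : ∑ j, GS σ a j = ∑ m, ∑ e, (gL σ a m e false + gL σ a m e true) := by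
  have h1 : ∑ j, GS σ a j = ∑ x : Fin 3 × Bool × Bool, gL σ a x.1 x.2.1 x.2.2 := by
    unfold GS
    rw [Finset.sum_comm]
    apply Finset.sum_congr rfl
    intro x _
    simp
  rw [h1, Fintype.sum_prod_type]
  apply Finset.sum_congr rfl
  intro m _
  rw [Fintype.sum_prod_type]
  apply Finset.sum_congr rfl
  intro e _
  rw [Fintype.sum_bool]
  ring

theorem GS_le_PS (j : Fin 4) : GS σ a j ≤ PS σ a j := by
  unfold GS PS
  apply Finset.sum_le_sum
  intro x _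
  split_ifs
  · exact le_pp _
  · exact le_rfl

theorem pL_nonneg (j k : Fin 4) : 0 ≤ pL σ a j k := pp_nonneg _

section loads
variable (ha : ∀ i j, i ≠ j → dist (a i) (a j) = 1) [IsFiniteMeasure σ]
  (hK : IsCompact K) (hσ : ∀ᵐ z ∂σ, z.1 ∈ K ∧ z.2 ∈ K) (hp : ∀ x ∈ K, Pl a x)

include ha hσ hp in
theorem wt_ae (m : Fin 3) (e i : Bool) : ∀ᵐ z ∂σ, 0 ≤ wt (ap a m e) i z.1 := by
  filter_upwards [hσ] with z hz
  exact wt_nonneg (hgp ha m e) i (Pl_perm _ (hp _ hz.1))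

include ha hσ hp in
theorem gm_nonneg (m : Fin 3) (e i : Bool) : 0 ≤ gm σ a m e i :=
  integral_nonneg_of_ae (ae_restrict_of_ae (wt_ae ha hσ hp m e i))

include hK hσ in
theorem wt_bdd (m : Fin 3) (e i : Bool) : ∃ C, ∀ᵐ z ∂σ, wt (ap a m e) i z.1 ≤ C := by
  obtain ⟨C, hC⟩ := hK.exists_bound_of_continuousOn (wt_cont (ap a m e) i).continuousOn
  refine ⟨C, ?_⟩
  filter_upwards [hσ] with z hz
  have h2 := hC _ hz.1
  rw [Real.norm_eq_abs] at h2
  exact (le_abs_self _).trans h2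

include ha hK hσ hp

/-- **load of one signed arc** -/
theorem arc_cplS (m : Fin 3) (e i : Bool) {r : E3} (hr : ∀ z ∈ K, ‖z - r‖ ≤ 1) :
    gL σ a m e i + gm σ a m e i * ‖a (vx m e i) - r‖ ^ 2 ≤
      2 * ∑ k, gM σ a m e i k * yv a (vx m e i) k r := by
  obtain ⟨C, hC⟩ := wt_bdd (a := a) hK hσ m e i
  exact cplG (c := fun z => wt (ap a m e) i z.1) (gram_of_dist ha) hK hσ
    ((wt_cont (ap a m e) i).measurable.comp measurable_fst) (wt_ae ha hσ hp m e i) hC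
    (EE a m e) _ hr

/-- level against mass -/
theorem gL_le {S : ℝ} (m : Fin 3) (e i : Bool) (hQ : ∀ x ∈ K, Qv a (vx m e i) x ≤ S) :
    gL σ a m e i ≤ S * gm σ a m e i := by
  unfold gL gm
  rw [← integral_const_mul]
  have i1 := (int_cont hK hσ (((wt_cont (ap a m e) i).comp continuous_fst).mul
      ((Qv_cont a (vx m e i)).comp continuous_snd))).integrableOn (s := EE a m e)
  have i2 := (int_cont hK hσ ((wt_cont (ap a m e) i).comp continuous_fst)).integrableOn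
    (s := EE a m e)
  refine integral_mono_ae i1 (i2.const_mul S) ?_
  filter_upwards [ae_restrict_of_ae hσ, ae_restrict_of_ae (wt_ae ha hσ hp m e i)] with z hz hz0
  have h1 := mul_le_mul_of_nonneg_left (hQ _ hz.2) hz0
  show wt (ap a m e) i z.1 * Qv a (vx m e i) z.2 ≤ S * wt (ap a m e) i z.1
  linarith

omit hp in
/-- total of the moments -/
theorem gM_sum (m : Fin 3) (e i : Bool) : ∑ k, gM σ a m e i k = gm σ a m e i := by
  have i1 : ∀ k, IntegrableOn (fun z : E3 × E3 => wt (ap a m e) i z.1 * bar a k z.2)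
      (EE a m e) σ := fun k =>
    (int_cont hK hσ (((wt_cont (ap a m e) i).comp continuous_fst).mul
      ((Pool.Agent.Helper95.MEI.Fub.bar_cont a k).comp continuous_snd))).integrableOn
  unfold gM gm
  rw [← integral_finsetSum _ fun k _ => i1 k]
  apply integral_congr_ae
  filter_upwards with z
  have hb := bar_sum (gram_of_dist ha) z.2
  rw [← Finset.mul_sum, Fin.sum_univ_four, hb, mul_one]

/-- the moments in the coordinates of the opposite edge -/
theorem gM_le_pp (m : Fin 3) (e i : Bool) (k : Fin 4) :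
    gM σ a m e i k ≤ ∫ z in EE a m e, wt (ap a m e) i z.1 * pp (bar a k z.2) ∂σ := by
  have i1 := (int_cont hK hσ (((wt_cont (ap a m e) i).comp continuous_fst).mul
      ((Pool.Agent.Helper95.MEI.Fub.bar_cont a k).comp continuous_snd))).integrableOn
      (s := EE a m e)
  have i2 := (int_cont hK hσ (((wt_cont (ap a m e) i).comp continuous_fst).mul
      (pp_cont.comp ((Pool.Agent.Helper95.MEI.Fub.bar_cont a k).comp
        continuous_snd)))).integrableOn (s := EE a m e)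
  refine integral_mono_ae i1 i2 ?_
  filter_upwards [ae_restrict_of_ae (wt_ae ha hσ hp m e i)] with z hz0
  exact mul_le_mul_of_nonneg_left (le_pp _) hz0

/-- **the signed arc as a load of the face** -/
theorem arc_loadS (τ : Equiv.Perm (Fin 4)) (k : Fin 3) {q : E3} (hq : Pl a q)
    (hd : ∀ z ∈ K, ‖z - q‖ ≤ 1) {M : Fin 3 → ℝ}
    (hM : ∀ n : Fin 3, aM σ a (τ 0) (τ k.succ) (τ n.succ) ≤ M n) :
    Load (fun i => a (τ i)) q (aL σ a (τ 0) (τ k.succ)) (am σ a (τ 0) (τ k.succ)) M := by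
  have hne : τ 0 ≠ τ k.succ := fun h => absurd (τ.injective h) (Fin.succ_ne_zero k).symm
  have h1 := arc_cplS ha hK hσ hp (ax (τ 0) (τ k.succ)).1 (ax (τ 0) (τ k.succ)).2.1
    (ax (τ 0) (τ k.succ)).2.2 hd
  rw [(ax_vx _ _ hne).1] at h1
  have e1 : ∑ n, gM σ a (ax (τ 0) (τ k.succ)).1 (ax (τ 0) (τ k.succ)).2.1
      (ax (τ 0) (τ k.succ)).2.2 n * yv a (τ 0) n q =
      ∑ n, aM σ a (τ 0) (τ k.succ) (τ n) * yv a (τ 0) (τ n) q :=
    (Equiv.sum_comp τ (fun n => aM σ a (τ 0) (τ k.succ) n * yv a (τ 0) n q)).symm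
  rw [e1, Fin.sum_univ_succ, yv_self, mul_zero, zero_add, Fin.sum_univ_three] at h1
  have y : ∀ n : Fin 3, 0 ≤ yv a (τ 0) (τ n.succ) q := fun n =>
    yv_nonneg hq fun h => absurd (τ.injective h) (Fin.succ_ne_zero n).symm
  have k0 := mul_le_mul_of_nonneg_right (hM 0) (y 0)
  have k1 := mul_le_mul_of_nonneg_right (hM 1) (y 1)
  have k2 := mul_le_mul_of_nonneg_right (hM 2) (y 2)
  have h2 : aL σ a (τ 0) (τ k.succ) + am σ a (τ 0) (τ k.succ) * ‖a (τ 0) - q‖ ^ 2 ≤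
      2 * (M 0 * yv a (τ 0) (τ (0 : Fin 3).succ) q + M 1 * yv a (τ 0) (τ (1 : Fin 3).succ) q +
        M 2 * yv a (τ 0) (τ (2 : Fin 3).succ) q) := by
    refine h1.trans ?_
    linarith
  exact h2

/-- **the arc switched off when its level is not positive**: level `pL ≥ 0`; the columns may be
enlarged, also to a bound that is only needed for a positive level -/
theorem arc_loadP (τ : Equiv.Perm (Fin 4)) (k : Fin 3) {q : E3} (hq : Pl a q)
    (hd : ∀ z ∈ K, ‖z - q‖ ≤ 1) {M : Fin 3 → ℝ}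
    (hM : ∀ n : Fin 3, pM σ a (τ 0) (τ k.succ) (τ n.succ) ≤ M n) :
    Load (fun i => a (τ i)) q (pL σ a (τ 0) (τ k.succ)) (pm σ a (τ 0) (τ k.succ)) M := by
  by_cases h0 : 0 < aL σ a (τ 0) (τ k.succ)
  · have e1 : pL σ a (τ 0) (τ k.succ) = aL σ a (τ 0) (τ k.succ) := max_eq_left h0.le
    have e2 : pm σ a (τ 0) (τ k.succ) = am σ a (τ 0) (τ k.succ) := if_pos h0
    rw [e1, e2]
    refine arc_loadS ha hK hσ hp τ k hq hd fun n => ?_
    have h1 := hM n
    have e3 : pM σ a (τ 0) (τ k.succ) (τ n.succ) = aM σ a (τ 0) (τ k.succ) (τ n.succ) := if_pos h0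
    rw [e3] at h1
    exact h1
  · have e1 : pL σ a (τ 0) (τ k.succ) = 0 := max_eq_right (not_lt.1 h0)
    have e2 : pm σ a (τ 0) (τ k.succ) = 0 := if_neg h0
    have y : ∀ n : Fin 3, 0 ≤ yv a (τ 0) (τ n.succ) q := fun n =>
      yv_nonneg hq fun h => absurd (τ.injective h) (Fin.succ_ne_zero n).symm
    have m0 : ∀ n : Fin 3, 0 ≤ M n := fun n => by
      have h1 := hM n
      have e3 : pM σ a (τ 0) (τ k.succ) (τ n.succ) = 0 := if_neg h0
      rwa [e3] at h1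
    have k0 := mul_nonneg (m0 0) (y 0)
    have k1 := mul_nonneg (m0 1) (y 1)
    have k2 := mul_nonneg (m0 2) (y 2)
    have h2 : pL σ a (τ 0) (τ k.succ) + pm σ a (τ 0) (τ k.succ) * ‖a (τ 0) - q‖ ^ 2 ≤
      2 * (M 0 * yv a (τ 0) (τ (0 : Fin 3).succ) q + M 1 * yv a (τ 0) (τ (1 : Fin 3).succ) q +
        M 2 * yv a (τ 0) (τ (2 : Fin 3).succ) q) := by
      rw [e1, e2]
      linarith
    exact h2

omit hK in
theorem am_nonneg (j k : Fin 4) : 0 ≤ am σ a j k := gm_nonneg ha hσ hp _ _ _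

omit hK in
theorem pm_nonneg (j k : Fin 4) : 0 ≤ pm σ a j k := by
  unfold pm
  split_ifs
  · exact am_nonneg ha hσ hp _ _
  · exact le_rfl

omit hK in
theorem pm_le (j k : Fin 4) : pm σ a j k ≤ am σ a j k := by
  unfold pm
  split_ifs
  · exact le_rfl
  · exact am_nonneg ha hσ hp _ _

/-- level against mass, switched arc -/
theorem pL_le {S : ℝ} {j k : Fin 4} (hjk : j ≠ k) (hQ : ∀ x ∈ K, Qv a j x ≤ S) :
    pL σ a j k ≤ S * pm σ a j k := by
  have h1 := gL_le ha hK hσ hp (S := S) (ax j k).1 (ax j k).2.1 (ax j k).2.2 (by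
    rw [(ax_vx j k hjk).1]; exact hQ)
  unfold pL pm
  by_cases h0 : 0 < aL σ a j k
  · rw [if_pos h0, show pp (aL σ a j k) = aL σ a j k from max_eq_left h0.le]
    exact h1
  · rw [if_neg h0, mul_zero, show pp (aL σ a j k) = 0 from max_eq_right (not_lt.1 h0)]

omit hp in
/-- total of the moments of an arc -/
theorem aM_sum (j k : Fin 4) : ∑ n, aM σ a j k n = am σ a j k := gM_sum ha hK hσ _ _ _

omit hp in
theorem pM_sum (j k : Fin 4) : ∑ n, pM σ a j k n = pm σ a j k := by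
  unfold pM pm
  by_cases h0 : 0 < aL σ a j k
  · simp only [if_pos h0]
    exact aM_sum ha hK hσ j k
  · simp only [if_neg h0]
    simp

end loads

section closed
variable (ha : ∀ i j, i ≠ j → dist (a i) (a j) = 1) [IsFiniteMeasure σ] (h : PM K σ)
  (hp : ∀ x ∈ K, Pl a x)
include ha h hp

/-- mass of an arc, closed bound (helper37) -/
theorem gm_mass {B : Fin 3 → Bool → OrthonormalBasis (Fin 3) ℝ E3}
    (hB : ∀ m e, Fr (fun i => a (pr m e i)) (B m e)) {s : Fin 4 → ℝ} (hs : ∀ i, 0 ≤ s i)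
    (hQ : ∀ i, ∀ q ∈ K, Qv a i q ≤ s i) (m : Fin 3) (e i : Bool) :
    (1 - 2 * (s (pf m e 0) + s (pf m e 1)) - 1.54 * (s (pf m e 0) - s (pf m e 1)) ^ 2) *
        gm σ a m e i ≤
      2 * fAs + 9.2 * ((0.0393 + 0.2358 * s (pf m e 2)) * s (pf m e 2) +
        (0.0393 + 0.2358 * s (pf m e 3)) * s (pf m e 3)) :=
  wt_mass ha h hp hB hs hQ m e i

/-- **moments in the coordinates of the two other corners of the arc** (helper21) -/
theorem aM_Mbar (hull : ∀ p, (∀ q ∈ K, ‖p - q‖ ≤ 1) → p ∈ K)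
    {B : Fin 3 → Bool → OrthonormalBasis (Fin 3) ℝ E3}
    (hB : ∀ m e, Fr (fun i => a (pr m e i)) (B m e)) {S : Fin 4 → ℝ} (hS0 : ∀ i, 0 ≤ S i)
    (hQ : ∀ i, ∀ q ∈ K, Qv a i q ≤ S i) {T : ℝ} (hT : ∀ i, S i ≤ T) (hT1 : T ≤ 3 / 16)
    {j l k : Fin 4} (hjl : j ≠ l) (hkj : k ≠ j) (hkl : k ≠ l) :
    aM σ a j l k ≤ Helper21.Mom.Mbar T := by
  refine (gM_le_pp ha h.cpt h.mem hp _ _ _ k).trans ?_
  rcases ax_pf j l k hjl hkj hkl with h1 | h1
  · conv_lhs =>
      rw [h1]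
    exact Helper21.Mom.mom_all h ha hull hp hB hS0 hQ hT hT1 _ _ _ (Or.inl rfl)
  · conv_lhs =>
      rw [h1]
    exact Helper21.Mom.mom_all h ha hull hp hB hS0 hQ hT hT1 _ _ _ (Or.inr rfl)

end closed

/-! ### assembly -/

section asm
variable [IsFiniteMeasure σ] {B : Fin 3 → Bool → OrthonormalBasis (Fin 3) ℝ E3}

/-- **regime II, `κ ≥ .13`, signed arcs** -/
theorem asm2g {κ : ℝ} (hκ : 0.13 ≤ κ) (h : PM K σ) (ha : ∀ i j, i ≠ j → dist (a i) (a j) = 1)
    (hp : ∀ x ∈ K, Pl a x) (hz : ∀ᵐ z ∂σ, Pl a z.1 ∧ ∀ k, bar a k z.1 ≠ 0)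
    (hull : ∀ p, (∀ q ∈ K, ‖p - q‖ ≤ 1) → p ∈ K)
    (hB : ∀ m e, Fr (fun i => a (pr m e i)) (B m e)) {s : Fin 4 → ℝ} (hs0 : ∀ i, 0 ≤ s i)
    (hs : ∀ i, s i ≤ 0.2) (hQ : ∀ i, ∀ q ∈ K, Qv a i q ≤ s i) :
    ∑ i, (Wi a i K σ (3.57 + κ) - GS σ a i
        - (pp (0.26 - κ) * (3 * ((0.0393 + 0.2358 * s i) * s i)) + κ * (0.1089 * s i)
          + (1.32 + κ) * (0.317 * s i ^ 3))) - 0.002301 * κ ≤
    (3.82 + κ) * (volume.real K - Helper82.CW.VM) := by
  have h1 := star2K hκ h ha hp hz hull hB hs0 hs hQ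
  have h2 : ∀ m e, TE (B m e) (cen a) σ = -(gL σ a m e false + gL σ a m e true) :=
    fun m e => TE_sgn h ha m e (hB m e)
  have h9 := sum_GS (a := a) (σ := σ)
  simp only [h2] at h1
  simp only [Fin.sum_univ_three, Fin.sum_univ_four, Fintype.sum_bool] at h1 h9 ⊢
  linarith

/-- **regime II, `κ = .26`, signed arcs** -/
theorem asm26g (h : PM K σ) (ha : ∀ i j, i ≠ j → dist (a i) (a j) = 1)
    (hp : ∀ x ∈ K, Pl a x) (hz : ∀ᵐ z ∂σ, Pl a z.1 ∧ ∀ k, bar a k z.1 ≠ 0)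
    (hull : ∀ p, (∀ q ∈ K, ‖p - q‖ ≤ 1) → p ∈ K)
    (hB : ∀ m e, Fr (fun i => a (pr m e i)) (B m e)) {s : Fin 4 → ℝ} (hs0 : ∀ i, 0 ≤ s i)
    (hs : ∀ i, s i ≤ 0.2) (hQ : ∀ i, ∀ q ∈ K, Qv a i q ≤ s i) :
    ∑ i, (Wi a i K σ 3.83 - GS σ a i - (0.0284 * s i + 0.501 * s i ^ 3)) - 6.0e-4 ≤
    4.08 * (volume.real K - Helper82.CW.VM) := by
  have h1 := asm2g (κ := 0.26) (by norm_num) h ha hp hz hull hB hs0 hs hQ
  have e0 : pp (0.26 - 0.26) = 0 := by
    unfold pp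
    norm_num
  have e1 : (3.57 + 0.26 : ℝ) = 3.83 := by norm_num
  have e3 : (3.82 + 0.26 : ℝ) = 4.08 := by norm_num
  rw [e0, e1, e3] at h1
  refine le_trans (sub_le_sub (Finset.sum_le_sum fun i _ => ?_) ?_) h1
  · have i1 := hs0 i
    have i3 := pow_nonneg i1 3
    norm_num
    nlinarith
  · norm_num

/-- **regime II, `κ = .13`, signed arcs** -/
theorem asm13g (h : PM K σ) (ha : ∀ i j, i ≠ j → dist (a i) (a j) = 1)
    (hp : ∀ x ∈ K, Pl a x) (hz : ∀ᵐ z ∂σ, Pl a z.1 ∧ ∀ k, bar a k z.1 ≠ 0)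
    (hull : ∀ p, (∀ q ∈ K, ‖p - q‖ ≤ 1) → p ∈ K)
    (hB : ∀ m e, Fr (fun i => a (pr m e i)) (B m e)) {s : Fin 4 → ℝ} (hs0 : ∀ i, 0 ≤ s i)
    (hs : ∀ i, s i ≤ 0.2) (hQ : ∀ i, ∀ q ∈ K, Qv a i q ≤ s i) :
    ∑ i, (Wi a i K σ 3.7 - GS σ a i
        - (0.0295 * s i + 0.092 * s i ^ 2 + 0.46 * s i ^ 3)) - 3.0e-4 ≤
    3.95 * (volume.real K - Helper82.CW.VM) := by
  have h1 := asm2g (κ := 0.13) (by norm_num) h ha hp hz hull hB hs0 hs hQ
  have e0 : pp (0.26 - 0.13) = 0.13 := by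
    unfold pp
    rw [max_eq_left (by norm_num)]
    norm_num
  have e1 : (3.57 + 0.13 : ℝ) = 3.7 := by norm_num
  have e3 : (3.82 + 0.13 : ℝ) = 3.95 := by norm_num
  rw [e0, e1, e3] at h1
  refine le_trans (sub_le_sub (Finset.sum_le_sum fun i _ => ?_) ?_) h1
  · have i1 := hs0 i
    have i2 := pow_nonneg i1 2
    have i3 := pow_nonneg i1 3
    norm_num
    nlinarith
  · norm_num

/-- the same with the positive parts of the signed levels, `κ = .26` -/
theorem asm26p (h : PM K σ) (ha : ∀ i j, i ≠ j → dist (a i) (a j) = 1)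
    (hp : ∀ x ∈ K, Pl a x) (hz : ∀ᵐ z ∂σ, Pl a z.1 ∧ ∀ k, bar a k z.1 ≠ 0)
    (hull : ∀ p, (∀ q ∈ K, ‖p - q‖ ≤ 1) → p ∈ K)
    (hB : ∀ m e, Fr (fun i => a (pr m e i)) (B m e)) {s : Fin 4 → ℝ} (hs0 : ∀ i, 0 ≤ s i)
    (hs : ∀ i, s i ≤ 0.2) (hQ : ∀ i, ∀ q ∈ K, Qv a i q ≤ s i) :
    ∑ i, (Wi a i K σ 3.83 - PS σ a i - (0.0284 * s i + 0.501 * s i ^ 3)) - 6.0e-4 ≤
    4.08 * (volume.real K - Helper82.CW.VM) := by
  refine le_trans (sub_le_sub_right (Finset.sum_le_sum fun i _ => ?_) _)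
    (asm26g h ha hp hz hull hB hs0 hs hQ)
  have := GS_le_PS (σ := σ) (a := a) i
  linarith

/-- the same with the positive parts of the signed levels, `κ = .13` -/
theorem asm13p (h : PM K σ) (ha : ∀ i j, i ≠ j → dist (a i) (a j) = 1)
    (hp : ∀ x ∈ K, Pl a x) (hz : ∀ᵐ z ∂σ, Pl a z.1 ∧ ∀ k, bar a k z.1 ≠ 0)
    (hull : ∀ p, (∀ q ∈ K, ‖p - q‖ ≤ 1) → p ∈ K)
    (hB : ∀ m e, Fr (fun i => a (pr m e i)) (B m e)) {s : Fin 4 → ℝ} (hs0 : ∀ i, 0 ≤ s i)
    (hs : ∀ i, s i ≤ 0.2) (hQ : ∀ i, ∀ q ∈ K, Qv a i q ≤ s i) :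
    ∑ i, (Wi a i K σ 3.7 - PS σ a i
        - (0.0295 * s i + 0.092 * s i ^ 2 + 0.46 * s i ^ 3)) - 3.0e-4 ≤
    3.95 * (volume.real K - Helper82.CW.VM) := by
  refine le_trans (sub_le_sub_right (Finset.sum_le_sum fun i _ => ?_) _)
    (asm13g h ha hp hz hull hB hs0 hs hQ)
  have := GS_le_PS (σ := σ) (a := a) i
  linarith

end asm

end Helper22.Sgn
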