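import Pool.Agent.Helper22.MEI.Div

/-!
# Project MEI: the integral of a Jacobian of two Lipschitz functions depends on the boundary
values only
-/

namespace Helper22.MEI

open Set MeasureTheory Filter Topology

variable {F G : ℝ × ℝ → ℝ}

theorem lipOn_mul {K L : NNReal} (hF : LipschitzOnWith K F CQ) (hG : LipschitzOnWith L G CQ) :
    ∃ M, LipschitzOnWith M (fun p => F p * G p) CQ := by
  obtain ⟨C, hC⟩ := CQ_compact.exists_bound_of_continuousOn hF.continuousOn
  obtain ⟨D, hD⟩ := CQ_compact.exists_bound_of_continuousOn hG.continuousOn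
  refine ⟨Real.toNNReal (C * L + D * K), LipschitzOnWith.of_dist_le_mul fun p hp q hq => ?_⟩
  have h1 := hF.dist_le_mul p hp q hq
  have h2 := hG.dist_le_mul p hp q hq
  have h3 := hC p hp
  have h4 := hD q hq
  have h0 : 0 ≤ dist p q := dist_nonneg
  rw [Real.dist_eq] at h1 h2 ⊢
  rw [Real.norm_eq_abs] at h3 h4
  have e : F p * G p - F q * G q = F p * (G p - G q) + (F p - F q) * G q := by ring
  rw [e]
  have h5 : |F p * (G p - G q) + (F p - F q) * G q| ≤ |F p| * |G p - G q| + |F p - F q| * |G q| := by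
    refine (abs_add_le _ _).trans ?_
    rw [abs_mul, abs_mul]
  have h6 : |F p| * |G p - G q| ≤ C * (L * dist p q) :=
    mul_le_mul h3 h2 (abs_nonneg _) ((abs_nonneg _).trans h3)
  have h7 : |F p - F q| * |G q| ≤ (K * dist p q) * D :=
    mul_le_mul h1 h4 (abs_nonneg _) (by positivity)
  have h8 : (C * L + D * K) * dist p q ≤ (Real.toNNReal (C * L + D * K) : ℝ) * dist p q :=
    mul_le_mul_of_nonneg_right (Real.le_coe_toNNReal _) h0
  nlinarith

theorem ext0_lip {a : ℝ × ℝ → ℝ} {K : NNReal} (h : LipschitzOnWith K a CQ)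
    (hb : ∀ p ∈ CQ, |p.1| = s ∨ |p.2| = s → a p = 0) : LipschitzWith K (CQ.indicator a) := by
  have key : ∀ p ∈ CQ, ∀ q, q ∉ CQ → |a p| ≤ K * dist p q := by
    intro p hp q hq
    obtain ⟨z, hz, hz0, hd⟩ : ∃ z ∈ CQ, a z = 0 ∧ dist p z ≤ dist p q := by
      have hs := s_pos
      have hs' : |s| = s := abs_of_pos hs
      have hs'' : |-s| = s := by rw [abs_neg]; exact hs'
      obtain ⟨⟨h1, h2⟩, h3, h4⟩ := hp
      have d1 : |p.1 - q.1| ≤ dist p q := by rw [← Real.dist_eq]; exact le_max_left _ _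
      have d2 : |p.2 - q.2| ≤ dist p q := by rw [← Real.dist_eq]; exact le_max_right _ _
      by_cases c1 : s < q.1
      · refine ⟨(s, p.2), ⟨⟨by linarith, le_rfl⟩, h3, h4⟩,
          hb _ ⟨⟨by linarith, le_rfl⟩, h3, h4⟩ (Or.inl hs'), ?_⟩
        rw [Prod.dist_eq, dist_self, max_eq_left dist_nonneg, Real.dist_eq,
          abs_of_nonpos (by simp only; linarith)]
        simp only
        linarith [neg_abs_le (p.1 - q.1)]
      by_cases c2 : q.1 < -s
      · refine ⟨(-s, p.2), ⟨⟨le_rfl, by linarith⟩, h3, h4⟩,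
          hb _ ⟨⟨le_rfl, by linarith⟩, h3, h4⟩ (Or.inl hs''), ?_⟩
        rw [Prod.dist_eq, dist_self, max_eq_left dist_nonneg, Real.dist_eq,
          abs_of_nonneg (by simp only; linarith)]
        simp only
        linarith [le_abs_self (p.1 - q.1)]
      by_cases c3 : s < q.2
      · refine ⟨(p.1, s), ⟨⟨h1, h2⟩, by simp only; linarith, le_rfl⟩,
          hb _ ⟨⟨h1, h2⟩, by simp only; linarith, le_rfl⟩ (Or.inr hs'), ?_⟩
        rw [Prod.dist_eq, dist_self, max_eq_right dist_nonneg, Real.dist_eq,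
          abs_of_nonpos (by simp only; linarith)]
        simp only
        linarith [neg_abs_le (p.2 - q.2)]
      by_cases c4 : q.2 < -s
      · refine ⟨(p.1, -s), ⟨⟨h1, h2⟩, le_rfl, by simp only; linarith⟩,
          hb _ ⟨⟨h1, h2⟩, le_rfl, by simp only; linarith⟩ (Or.inr hs''), ?_⟩
        rw [Prod.dist_eq, dist_self, max_eq_right dist_nonneg, Real.dist_eq,
          abs_of_nonneg (by simp only; linarith)]
        simp only
        linarith [le_abs_self (p.2 - q.2)]
      · exact absurd ⟨⟨not_lt.1 c2, not_lt.1 c1⟩, not_lt.1 c4, not_lt.1 c3⟩ hq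
    have h1 := h.dist_le_mul p hp z hz
    rw [Real.dist_eq, hz0, sub_zero] at h1
    exact h1.trans (mul_le_mul_of_nonneg_left hd K.2)
  apply LipschitzWith.of_dist_le_mul
  intro p q
  by_cases hp : p ∈ CQ
  · by_cases hq : q ∈ CQ
    · rw [indicator_of_mem hp, indicator_of_mem hq]
      exact h.dist_le_mul p hp q hq
    · rw [indicator_of_mem hp, indicator_of_notMem hq, Real.dist_eq, sub_zero]
      exact key p hp q hq
  · by_cases hq : q ∈ CQ
    · rw [indicator_of_mem hq, indicator_of_notMem hp, dist_comm, Real.dist_eq, sub_zero,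
        dist_comm p q]
      exact key q hq p hp
    · rw [indicator_of_notMem hp, indicator_of_notMem hq, dist_self]
      positivity

theorem CQ_SQ_null : volume (CQ \ SQ) = 0 := by
  have h1 : (Ioo (-s) s : Set ℝ) =ᵐ[volume] Icc (-s) s := Ioo_ae_eq_Icc
  have h2 : SQ =ᵐ[volume] CQ := by
    unfold SQ CQ
    rw [Measure.volume_eq_prod]
    exact Measure.set_prod_ae_eq h1 h1
  have := ae_le_set.1 h2.symm.le
  exact this

/-- difference quotient in the direction `X` -/
theorem dq_tendsto {B : ℝ × ℝ → ℝ} {p : ℝ × ℝ} (hB : DifferentiableAt ℝ B p) {c : ℕ → ℝ}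
    (hc : Tendsto c atTop (𝓝 0)) (hc0 : ∀ n, c n ≠ 0) :
    Tendsto (fun n => (B (p + (c n, 0)) - B p) / c n) atTop (𝓝 (dX B p)) := by
  have h1 : HasDerivAt (fun r : ℝ => p + (r, (0 : ℝ))) ((1 : ℝ), (0 : ℝ)) 0 :=
    ((hasDerivAt_id (0 : ℝ)).prodMk (hasDerivAt_const (0 : ℝ) (0 : ℝ))).const_add p
  have h2 : HasFDerivAt B (fderiv ℝ B p) (p + ((0 : ℝ), (0 : ℝ))) := by
    rw [show ((0 : ℝ), (0 : ℝ)) = 0 from rfl, add_zero]; exact hB.hasFDerivAt
  have h3 : HasDerivAt (fun r : ℝ => B (p + (r, (0 : ℝ)))) (dX B p) 0 := h2.comp_hasDerivAt 0 h1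
  have h4 := h3.tendsto_slope_zero
  have h5 : Tendsto c atTop (𝓝[≠] 0) :=
    tendsto_nhdsWithin_iff.2 ⟨hc, Eventually.of_forall hc0⟩
  have h6 := h4.comp h5
  refine h6.congr fun n => ?_
  simp only [Function.comp, zero_add, smul_eq_mul]
  rw [show ((0 : ℝ), (0 : ℝ)) = 0 from rfl, add_zero]
  ring

theorem eSQ : ∀ {A : ℝ × ℝ → ℝ}, (∀ p, p ∉ SQ → A p = 0) → ∀ x, A (x, s) = 0 ∧ A (x, -s) = 0 := by
  intro A hA x
  exact ⟨hA _ fun h => lt_irrefl _ h.2.2, hA _ fun h => lt_irrefl _ h.2.1⟩

/-- step 1 and 2: integration by parts for difference quotients -/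
theorem dq_parts {A B : ℝ × ℝ → ℝ} {K L : NNReal} (hA : LipschitzWith K A) (hB : LipschitzWith L B)
    (hA0 : ∀ p, p ∉ SQ → A p = 0) {c : ℝ} (hc : c ≠ 0) :
    ∫ p in SQ, dY A p * ((B (p + (c, 0)) - B p) / c) =
      ∫ p, ((A p - A (p - (c, 0))) / c) * dY B p := by
  have aeA := hA.ae_differentiableAt (μ := (volume : Measure (ℝ × ℝ)))
  have aeB := hB.ae_differentiableAt (μ := (volume : Measure (ℝ × ℝ)))
  have aeB' : ∀ᵐ p : ℝ × ℝ, DifferentiableAt ℝ B (p + (c, 0)) :=
    (quasiMeasurePreserving_add_right volume ((c, 0) : ℝ × ℝ)).ae aeB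
  set e : ℝ × ℝ := (c, 0) with he
  -- Lipschitz
  have hBs : LipschitzWith L (fun p => B (p + e)) := by
    apply LipschitzWith.of_dist_le_mul
    intro p q
    have := hB.dist_le_mul (p + e) (q + e)
    rwa [dist_add_right] at this
  have hBd : LipschitzWith ((L + L) * ‖c⁻¹‖₊) (fun p => (B (p + e) - B p) / c) := by
    have h1 := hBs.sub hB
    apply LipschitzWith.of_dist_le_mul
    intro p q
    have h2 := h1.dist_le_mul p q
    rw [Real.dist_eq] at h2 ⊢
    rw [← sub_div, abs_div, NNReal.coe_mul, coe_nnnorm, Real.norm_eq_abs, abs_inv, div_eq_mul_inv]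
    have h3 : 0 ≤ |c|⁻¹ := by positivity
    nlinarith
  obtain ⟨M, hM⟩ := lipOn_mul (hA.lipschitzOnWith (s := CQ)) (hBd.lipschitzOnWith (s := CQ))
  have h0 := int_dY hM
  have h0' : ∫ x in Ioo (-s) s, (A (x, s) * ((B ((x, s) + e) - B (x, s)) / c)
      - A (x, -s) * ((B ((x, -s) + e) - B (x, -s)) / c)) = 0 := by
    have : ∀ x ∈ Ioo (-s) s, (A (x, s) * ((B ((x, s) + e) - B (x, s)) / c)
      - A (x, -s) * ((B ((x, -s) + e) - B (x, -s)) / c)) = 0 := by
      intro x _
      rw [(eSQ hA0 x).1, (eSQ hA0 x).2]; ring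
    rw [setIntegral_congr_fun measurableSet_Ioo this]
    simp
  rw [h0'] at h0
  -- derivative of the difference quotient
  have dBe : ∀ᵐ p : ℝ × ℝ, HasFDerivAt (fun p => (B (p + e) - B p) / c)
      (c⁻¹ • (fderiv ℝ B (p + e) - fderiv ℝ B p)) p := by
    filter_upwards [aeB, aeB'] with p h1 h2
    have h3 : HasFDerivAt (fun p => B (p + e)) (fderiv ℝ B (p + e)) p := by
      have := (h2.hasFDerivAt).comp p ((hasFDerivAt_id p).add_const e)
      rw [ContinuousLinearMap.comp_id] at this
      exact this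
    have h4 := (h3.sub h1.hasFDerivAt).const_smul c⁻¹
    refine h4.congr_of_eventuallyEq (Eventually.of_forall fun q => ?_)
    simp only [Pi.smul_apply, Pi.sub_apply, smul_eq_mul]
    ring
  have hprod : ∀ᵐ p : ℝ × ℝ, dY (fun p => A p * ((B (p + e) - B p) / c)) p
      = dY A p * ((B (p + e) - B p) / c) + A p * ((dY B (p + e) - dY B p) / c) := by
    filter_upwards [aeA, dBe] with p h1 h2
    have h3 := h1.hasFDerivAt.mul h2
    unfold dY
    rw [show (fun p => A p * ((B (p + e) - B p) / c)) = A * fun p => (B (p + e) - B p) / c from rfl,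
      h3.fderiv]
    simp only [ContinuousLinearMap.add_apply, ContinuousLinearMap.smul_apply,
      ContinuousLinearMap.sub_apply, smul_eq_mul]
    ring
  -- integrability
  have bA : ∀ p v, |fderiv ℝ A p v| ≤ K * ‖v‖ := fun p v => by
    have h1 := norm_fderiv_le_of_lipschitz ℝ hA (x₀ := p)
    have h2 := (fderiv ℝ A p).le_opNorm v
    rw [Real.norm_eq_abs] at h2
    exact h2.trans (mul_le_mul_of_nonneg_right h1 (norm_nonneg v))
  have bB : ∀ p v, |fderiv ℝ B p v| ≤ L * ‖v‖ := fun p v => by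
    have h1 := norm_fderiv_le_of_lipschitz ℝ hB (x₀ := p)
    have h2 := (fderiv ℝ B p).le_opNorm v
    rw [Real.norm_eq_abs] at h2
    exact h2.trans (mul_le_mul_of_nonneg_right h1 (norm_nonneg v))
  have mY : ∀ F : ℝ × ℝ → ℝ, Measurable (dY F) := fun F => measurable_fderiv_apply_const ℝ F _
  have cA : HasCompactSupport A := by
    refine HasCompactSupport.intro CQ_compact fun p hp => hA0 p fun h => hp (SQ_CQ h)
  have iA : Integrable A := hA.continuous.integrable_of_hasCompactSupport cA
  have iAB : ∀ {H : ℝ × ℝ → ℝ}, Measurable H → (∃ C, ∀ p, |H p| ≤ C) →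
      Integrable (fun p => A p * H p) := by
    intro H hH hC
    obtain ⟨C, hC⟩ := hC
    have := iA.bdd_mul (f := H) (c := C) hH.aestronglyMeasurable (Eventually.of_forall hC)
    simpa only [mul_comm] using this
  have mBe : Measurable (fun p => dY B (p + e)) := (mY B).comp (measurable_add_const e)
  have i1 : Integrable (fun p => A p * dY B (p + e)) :=
    iAB mBe ⟨L * ‖((0 : ℝ), (1 : ℝ))‖, fun p => bB _ _⟩
  have i2 : Integrable (fun p => A p * dY B p) :=
    iAB (mY B) ⟨L * ‖((0 : ℝ), (1 : ℝ))‖, fun p => bB _ _⟩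
  have i1' : Integrable (fun p => A (p - e) * dY B p) := by
    have := i1.comp_sub_right e
    simpa only [sub_add_cancel] using this
  have i3 : IntegrableOn (fun p => dY A p * ((B (p + e) - B p) / c)) SQ := by
    have h1 : IntegrableOn (dY A) SQ := dY_int (hA.lipschitzOnWith (s := CQ))
    have hcont : ContinuousOn (fun p => (B (p + e) - B p) / c) CQ := hBd.continuous.continuousOn
    obtain ⟨C, hC⟩ := CQ_compact.exists_bound_of_continuousOn hcont
    have := h1.bdd_mul (f := fun p => (B (p + e) - B p) / c) (c := C)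
      hBd.continuous.aestronglyMeasurable (by
        rw [ae_restrict_iff' SQ_meas]
        exact Eventually.of_forall fun p hp => hC p (SQ_CQ hp))
    exact this.congr (Eventually.of_forall fun p => mul_comm _ _)
  have i4 : Integrable (fun p => A p * ((dY B (p + e) - dY B p) / c)) := by
    have := (i1.sub i2).div_const c
    refine this.congr (Eventually.of_forall fun p => ?_)
    simp only [Pi.sub_apply]
    ring
  have h5 : ∫ p in SQ, dY (fun p => A p * ((B (p + e) - B p) / c)) p
      = (∫ p in SQ, dY A p * ((B (p + e) - B p) / c))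
        + ∫ p in SQ, A p * ((dY B (p + e) - dY B p) / c) := by
    rw [← integral_add i3 i4.integrableOn]
    refine setIntegral_congr_ae SQ_meas ?_
    filter_upwards [hprod] with p hp _ using hp
  rw [h0] at h5
  have h6 : ∫ p in SQ, A p * ((dY B (p + e) - dY B p) / c)
      = ∫ p, A p * ((dY B (p + e) - dY B p) / c) :=
    setIntegral_eq_integral_of_forall_compl_eq_zero fun p hp => by rw [hA0 p hp, zero_mul]
  have h7 : ∫ p, A p * ((dY B (p + e) - dY B p) / c)
      = ((∫ p, A p * dY B (p + e)) - ∫ p, A p * dY B p) / c := by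
    rw [← integral_sub i1 i2, ← integral_div]
    refine integral_congr_ae (Eventually.of_forall fun p => ?_)
    simp only
    ring
  have h8 : ∫ p, A p * dY B (p + e) = ∫ p, A (p - e) * dY B p := by
    rw [← integral_sub_right_eq_self (fun p => A p * dY B (p + e)) e]
    simp only [sub_add_cancel]
  have h9 : ∫ p, ((A p - A (p - e)) / c) * dY B p
      = ((∫ p, A p * dY B p) - ∫ p, A (p - e) * dY B p) / c := by
    rw [← integral_sub i2 i1', ← integral_div]
    refine integral_congr_ae (Eventually.of_forall fun p => ?_)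
    simp only
    ring
  rw [h9]
  rw [h6, h7, h8] at h5
  have : (∫ p in SQ, dY A p * ((B (p + e) - B p) / c))
      = -(((∫ p, A (p - e) * dY B p) - ∫ p, A p * dY B p) / c) := by linarith
  rw [this]
  ring

/-- **Stokes**: the Jacobian of two Lipschitz functions, one of them zero outside the square -/
theorem jac_zero {A B : ℝ × ℝ → ℝ} {K L : NNReal} (hA : LipschitzWith K A) (hB : LipschitzWith L B)
    (hA0 : ∀ p, p ∉ SQ → A p = 0) :
    ∫ p in SQ, dY A p * dX B p = ∫ p in SQ, dX A p * dY B p := by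
  set c : ℕ → ℝ := fun n => 1 / ((n : ℝ) + 1) with hcdef
  have hc0 : ∀ n, c n ≠ 0 := fun n => by simp only [hcdef]; positivity
  have hcpos : ∀ n, 0 < c n := fun n => by simp only [hcdef]; positivity
  have hc1 : ∀ n, c n ≤ 1 := fun n => by
    simp only [hcdef]
    rw [div_le_one (by positivity)]
    have : (0 : ℝ) ≤ n := Nat.cast_nonneg n
    linarith
  have hc : Tendsto c atTop (𝓝 0) := tendsto_one_div_add_atTop_nhds_zero_nat
  have aeA := hA.ae_differentiableAt (μ := (volume : Measure (ℝ × ℝ)))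
  have aeB := hB.ae_differentiableAt (μ := (volume : Measure (ℝ × ℝ)))
  have bA : ∀ p v, |fderiv ℝ A p v| ≤ K * ‖v‖ := fun p v => by
    have h1 := norm_fderiv_le_of_lipschitz ℝ hA (x₀ := p)
    have h2 := (fderiv ℝ A p).le_opNorm v
    rw [Real.norm_eq_abs] at h2
    exact h2.trans (mul_le_mul_of_nonneg_right h1 (norm_nonneg v))
  have bB : ∀ p v, |fderiv ℝ B p v| ≤ L * ‖v‖ := fun p v => by
    have h1 := norm_fderiv_le_of_lipschitz ℝ hB (x₀ := p)
    have h2 := (fderiv ℝ B p).le_opNorm v
    rw [Real.norm_eq_abs] at h2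
    exact h2.trans (mul_le_mul_of_nonneg_right h1 (norm_nonneg v))
  have mY : ∀ F : ℝ × ℝ → ℝ, Measurable (dY F) := fun F => measurable_fderiv_apply_const ℝ F _
  have nv1 : ‖((0 : ℝ), (1 : ℝ))‖ = 1 := by simp
  -- difference quotients are bounded
  have qb : ∀ {H : ℝ × ℝ → ℝ} {M : NNReal}, LipschitzWith M H → ∀ (p q : ℝ × ℝ) (n : ℕ),
      dist p q = c n → |(H p - H q) / c n| ≤ M := by
    intro H M hH p q n hd
    have h1 := hH.dist_le_mul p q
    rw [Real.dist_eq, hd] at h1
    rw [abs_div, abs_of_pos (hcpos n), div_le_iff₀ (hcpos n)]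
    exact h1
  have hd1 : ∀ (p : ℝ × ℝ) n, dist (p + (c n, 0)) p = c n := by
    intro p n
    rw [dist_eq_norm, add_sub_cancel_left, Prod.norm_def]
    simp only [Real.norm_eq_abs, abs_zero, abs_of_pos (hcpos n)]
    exact max_eq_left (hcpos n).le
  have hd2 : ∀ (p : ℝ × ℝ) n, dist p (p - (c n, 0)) = c n := by
    intro p n
    rw [dist_eq_norm, sub_sub_cancel, Prod.norm_def]
    simp only [Real.norm_eq_abs, abs_zero, abs_of_pos (hcpos n)]
    exact max_eq_left (hcpos n).le
  have lim1 : Tendsto (fun n => ∫ p in SQ, dY A p * ((B (p + (c n, 0)) - B p) / c n)) atTop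
      (𝓝 (∫ p in SQ, dY A p * dX B p)) := by
    refine tendsto_integral_of_dominated_convergence (fun _ => (K : ℝ) * L) (fun n => ?_) ?_
      (fun n => ?_) ?_
    · refine ((mY A).mul ?_).aestronglyMeasurable
      have := hB.continuous
      fun_prop
    · refine integrableOn_const ?_
      exact ((measure_mono SQ_CQ).trans_lt CQ_compact.measure_lt_top).ne
    · refine Eventually.of_forall fun p => ?_
      rw [Real.norm_eq_abs, abs_mul]
      have h1 := bA p ((0 : ℝ), (1 : ℝ))
      rw [nv1, mul_one] at h1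
      exact mul_le_mul h1 (qb hB _ _ n (hd1 p n)) (abs_nonneg _) K.2
    · filter_upwards [ae_restrict_of_ae aeB] with p hp
      exact (dq_tendsto hp hc hc0).const_mul _
  have lim2 : Tendsto (fun n => ∫ p, ((A p - A (p - (c n, 0))) / c n) * dY B p) atTop
      (𝓝 (∫ p, dX A p * dY B p)) := by
    refine tendsto_integral_of_dominated_convergence
      ((Icc (-2 : ℝ) 2 ×ˢ Icc (-2 : ℝ) 2).indicator fun _ => (K : ℝ) * L) (fun n => ?_) ?_
      (fun n => ?_) ?_
    · refine (Measurable.mul ?_ (mY B)).aestronglyMeasurable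
      have := hA.continuous
      fun_prop
    · refine (integrable_indicator_iff (measurableSet_Icc.prod measurableSet_Icc)).2 ?_
      refine integrableOn_const ?_
      exact (isCompact_Icc.prod isCompact_Icc).measure_lt_top.ne
    · refine Eventually.of_forall fun p => ?_
      rw [Real.norm_eq_abs, abs_mul]
      have h1 := bB p ((0 : ℝ), (1 : ℝ))
      rw [nv1, mul_one] at h1
      by_cases hp : p ∈ (Icc (-2 : ℝ) 2 ×ˢ Icc (-2 : ℝ) 2)
      · rw [indicator_of_mem hp]
        exact mul_le_mul (qb hA _ _ n (hd2 p n)) h1 (abs_nonneg _) K.2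
      · rw [indicator_of_notMem hp]
        have hs1 : s ≤ 1 := by
          have := s_sq
          nlinarith [s_pos]
        have e1 : A p = 0 := hA0 p fun hq => hp
          ⟨⟨by linarith [hq.1.1], by linarith [hq.1.2]⟩, by linarith [hq.2.1], by linarith [hq.2.2]⟩
        have e2 : A (p - (c n, 0)) = 0 := by
          refine hA0 _ fun hq => hp ?_
          have h3 := hq.1.1
          have h4 := hq.1.2
          have h5 := hq.2.1
          have h6 := hq.2.2
          simp only [Prod.fst_sub, Prod.snd_sub, sub_zero] at h3 h4 h5 h6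
          have := hcpos n
          have := hc1 n
          exact ⟨⟨by linarith, by linarith⟩, by linarith, by linarith⟩
        rw [e1, e2]
        simp
    · filter_upwards [aeA] with p hp
      have h1 : Tendsto (fun n => -c n) atTop (𝓝 0) := by
        have := hc.neg
        rwa [neg_zero] at this
      have h2 := dq_tendsto hp h1 (fun n => neg_ne_zero.2 (hc0 n))
      refine (h2.congr fun n => ?_).mul_const _
      have e : p + (-c n, 0) = p - (c n, 0) := by
        ext <;> simp [sub_eq_add_neg]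
      rw [e]
      have := hc0 n
      field_simp
      ring
  have heq : ∀ n, ∫ p in SQ, dY A p * ((B (p + (c n, 0)) - B p) / c n) =
      ∫ p, ((A p - A (p - (c n, 0))) / c n) * dY B p := fun n => dq_parts hA hB hA0 (hc0 n)
  have h1 : ∫ p in SQ, dY A p * dX B p = ∫ p, dX A p * dY B p := by
    refine tendsto_nhds_unique lim1 ?_
    simp only [heq]
    exact lim2
  rw [h1]
  have hz : ∀ᵐ p : ℝ × ℝ, p ∉ SQ → dX A p * dY B p = 0 := by
    have : ∀ᵐ p : ℝ × ℝ, p ∉ CQ \ SQ := measure_eq_zero_iff_ae_notMem.1 CQ_SQ_null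
    filter_upwards [this] with p hp hps
    have hpc : p ∉ CQ := fun h => hp ⟨h, hps⟩
    have hev : A =ᶠ[𝓝 p] fun _ => 0 := by
      filter_upwards [CQ_compact.isClosed.isOpen_compl.mem_nhds hpc] with q hq
      exact hA0 q fun h => hq (SQ_CQ h)
    have : dX A p = 0 := by
      unfold dX
      rw [hev.fderiv_eq]
      simp
    rw [this, zero_mul]
  rw [← integral_add_compl SQ_meas (f := fun p => dX A p * dY B p) ?_]
  · have : ∫ p in SQᶜ, dX A p * dY B p = 0 := by
      rw [setIntegral_congr_ae SQ_meas.compl (g := fun _ => (0 : ℝ))]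
      · simp
      · filter_upwards [hz] with p hp hps using hp hps
    rw [this, add_zero]
  · have hI : IntegrableOn (fun p => dX A p * dY B p) SQ := by
      have h1 : IntegrableOn (dX A) SQ := dX_int (hA.lipschitzOnWith (s := CQ))
      have := h1.mul_bdd (g := dY B) (c := L) (mY B).aestronglyMeasurable
        (Eventually.of_forall fun p => by
          have h1 := bB p ((0 : ℝ), (1 : ℝ))
          rw [nv1, mul_one] at h1
          exact h1)
      exact this
    have hJ : IntegrableOn (fun p => dX A p * dY B p) SQᶜ := by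
      have h0 : IntegrableOn (fun _ : ℝ × ℝ => (0 : ℝ)) SQᶜ := integrableOn_zero
      refine h0.congr ?_
      rw [EventuallyEq, ae_restrict_iff' SQ_meas.compl]
      filter_upwards [hz] with p hp hps using (hp hps).symm
    rw [← integrableOn_univ, ← union_compl_self SQ]
    exact hI.union hJ

theorem dXY_int {a b : ℝ × ℝ → ℝ} {K L : NNReal} (ha : LipschitzOnWith K a CQ)
    (hb : LipschitzOnWith L b CQ) (v w : ℝ × ℝ) :
    IntegrableOn (fun p => fderiv ℝ a p v * fderiv ℝ b p w) SQ := by
  have h1 : IntegrableOn (fun p => fderiv ℝ a p v) SQ := fd_int ha v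
  exact h1.mul_bdd (g := fun p => fderiv ℝ b p w) (c := L * ‖w‖)
    (measurable_fderiv_apply_const ℝ b w).aestronglyMeasurable (by
      rw [ae_restrict_iff' SQ_meas]
      exact Eventually.of_forall fun p hp => fd_bound hb hp w)

/-- version on the closed square -/
theorem jac_zero' {a b : ℝ × ℝ → ℝ} {K L : NNReal} (ha : LipschitzOnWith K a CQ)
    (hb : LipschitzOnWith L b CQ) (h0 : ∀ p ∈ CQ, |p.1| = s ∨ |p.2| = s → a p = 0) :
    ∫ p in SQ, (dX a p * dY b p - dY a p * dX b p) = 0 := by
  obtain ⟨B, hB, hBe⟩ := hb.extend_real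
  have hA := ext0_lip ha h0
  have hA0 : ∀ p, p ∉ SQ → CQ.indicator a p = 0 := by
    intro p hp
    by_cases hc : p ∈ CQ
    · rw [indicator_of_mem hc]
      refine h0 p hc ?_
      by_contra hcon
      rw [not_or] at hcon
      obtain ⟨h1, h2⟩ := hcon
      have h3 : |p.1| < s := lt_of_le_of_ne (abs_le.2 hc.1) h1
      have h4 : |p.2| < s := lt_of_le_of_ne (abs_le.2 hc.2) h2
      exact hp ⟨abs_lt.1 h3, abs_lt.1 h4⟩
    · rw [indicator_of_notMem hc]
  have h := jac_zero hA hB hA0
  have eA : ∀ p ∈ SQ, fderiv ℝ (CQ.indicator a) p = fderiv ℝ a p := by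
    intro p hp
    refine Filter.EventuallyEq.fderiv_eq ?_
    filter_upwards [SQ_open.mem_nhds hp] with q hq
    rw [indicator_of_mem (SQ_CQ hq)]
  have eB : ∀ p ∈ SQ, fderiv ℝ B p = fderiv ℝ b p := by
    intro p hp
    refine Filter.EventuallyEq.fderiv_eq ?_
    filter_upwards [SQ_open.mem_nhds hp] with q hq
    exact (hBe (SQ_CQ hq)).symm
  have h1 : ∫ p in SQ, dY (CQ.indicator a) p * dX B p = ∫ p in SQ, dY a p * dX b p :=
    setIntegral_congr_fun SQ_meas fun p hp => by
      simp only [dX, dY]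
      rw [eA p hp, eB p hp]
  have h2 : ∫ p in SQ, dX (CQ.indicator a) p * dY B p = ∫ p in SQ, dX a p * dY b p :=
    setIntegral_congr_fun SQ_meas fun p hp => by
      simp only [dX, dY]
      rw [eA p hp, eB p hp]
  rw [h1, h2] at h
  have i1 : IntegrableOn (fun p => dX a p * dY b p) SQ := dXY_int ha hb _ _
  have i2 : IntegrableOn (fun p => dY a p * dX b p) SQ := dXY_int ha hb _ _
  rw [integral_sub i1 i2, h, sub_self]

theorem lip_sub {a b : ℝ × ℝ → ℝ} {K L : NNReal} (ha : LipschitzOnWith K a CQ)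
    (hb : LipschitzOnWith L b CQ) : LipschitzOnWith (K + L) (fun p => a p - b p) CQ := by
  refine LipschitzOnWith.of_dist_le_mul fun p hp q hq => ?_
  have h1 := ha.dist_le_mul p hp q hq
  have h2 := hb.dist_le_mul p hp q hq
  rw [Real.dist_eq] at h1 h2 ⊢
  rw [NNReal.coe_add, add_mul]
  have e : a p - b p - (a q - b q) = (a p - a q) - (b p - b q) := by ring
  rw [e]
  exact (abs_sub _ _).trans (add_le_add h1 h2)

/-- **the integral of a Jacobian depends only on the boundary values** -/
theorem jac_congr {a b a' b' : ℝ × ℝ → ℝ} {K L K' L' : NNReal} (ha : LipschitzOnWith K a CQ)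
    (hb : LipschitzOnWith L b CQ) (ha' : LipschitzOnWith K' a' CQ) (hb' : LipschitzOnWith L' b' CQ)
    (h1 : ∀ p ∈ CQ, |p.1| = s ∨ |p.2| = s → a p = a' p)
    (h2 : ∀ p ∈ CQ, |p.1| = s ∨ |p.2| = s → b p = b' p) :
    ∫ p in SQ, (dX a p * dY b p - dY a p * dX b p)
      = ∫ p in SQ, (dX a' p * dY b' p - dY a' p * dX b' p) := by
  have j1 := jac_zero' (lip_sub ha ha') hb fun p hp hb => by
    show a p - a' p = 0
    rw [h1 p hp hb, sub_self]
  have j2 := jac_zero' (lip_sub hb hb') ha' fun p hp hb => by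
    show b p - b' p = 0
    rw [h2 p hp hb, sub_self]
  have aea := lip_ae ha
  have aea' := lip_ae ha'
  have aeb := lip_ae hb
  have aeb' := lip_ae hb'
  have e : ∀ {u v : ℝ × ℝ → ℝ} {p : ℝ × ℝ}, DifferentiableAt ℝ u p → DifferentiableAt ℝ v p →
      fderiv ℝ (fun q => u q - v q) p = fderiv ℝ u p - fderiv ℝ v p := by
    intro u v p hu hv
    exact (hu.hasFDerivAt.sub hv.hasFDerivAt).fderiv
  have k1 : ∫ p in SQ, (dX (fun q => a q - a' q) p * dY b p - dY (fun q => a q - a' q) p * dX b p)
      = ∫ p in SQ, ((dX a p * dY b p - dY a p * dX b p) - (dX a' p * dY b p - dY a' p * dX b p)) := by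
    refine setIntegral_congr_ae SQ_meas ?_
    filter_upwards [aea, aea'] with p q1 q2 hp
    unfold dX dY
    rw [e (q1 hp) (q2 hp)]
    simp only [ContinuousLinearMap.sub_apply]
    ring
  have k2 : ∫ p in SQ, (dX (fun q => b q - b' q) p * dY a' p - dY (fun q => b q - b' q) p * dX a' p)
      = ∫ p in SQ, ((dX a' p * dY b' p - dY a' p * dX b' p)
        - (dX a' p * dY b p - dY a' p * dX b p)) := by
    refine setIntegral_congr_ae SQ_meas ?_
    filter_upwards [aeb, aeb'] with p q1 q2 hp
    unfold dX dY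
    rw [e (q1 hp) (q2 hp)]
    simp only [ContinuousLinearMap.sub_apply]
    ring
  have i : ∀ {u v : ℝ × ℝ → ℝ} {M N : NNReal}, LipschitzOnWith M u CQ → LipschitzOnWith N v CQ →
      IntegrableOn (fun p => dX u p * dY v p - dY u p * dX v p) SQ := fun hu hv =>
    (dXY_int hu hv _ _).sub (dXY_int hu hv _ _)
  rw [k1, integral_sub (i ha hb) (i ha' hb)] at j1
  rw [k2, integral_sub (i ha' hb') (i ha' hb)] at j2
  linarith

end Helper22.MEI
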