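import Pool.Agent.Helper73.MEI.Star

/-!
# Project MEI (M2): the cell `T` and the missing part of `T`
-/

namespace Helper22.TTc

open Set MeasureTheory Filter Topology Metric
open Helper80.CW Helper14.CW Helper93.MEI Helper14.MEI2
open scoped RealInnerProductSpace

variable {a : Fin 4 → E3}

/-- second elementary symmetric function of the barycentric coordinates -/
noncomputable def e2 (a : Fin 4 → E3) (x : E3) : ℝ :=
  bar a 0 x * bar a 1 x + bar a 0 x * bar a 2 x + bar a 0 x * bar a 3 x +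
    bar a 1 x * bar a 2 x + bar a 1 x * bar a 3 x + bar a 2 x * bar a 3 x

/-- Lagrange's identity -/
theorem lagrange (g : Gram4 (al a)) (p q : E3) : ‖p - q‖ ^ 2 =
    1 + (bar a 0 p * Qv a 0 q + bar a 1 p * Qv a 1 q + bar a 2 p * Qv a 2 q +
      bar a 3 p * Qv a 3 q) - e2 a p := by
  have h1 := norm_sub_sq_bar g p q
  have hp := bar_sum g p
  have hq := bar_sum g q
  rw [h1, Qv_eq0 g, Qv_eq1 g, Qv_eq2 g, Qv_eq3 g]
  unfold e2
  have e3p : bar a 3 p = 1 - bar a 0 p - bar a 1 p - bar a 2 p := by linarith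
  have e3q : bar a 3 q = 1 - bar a 0 q - bar a 1 q - bar a 2 q := by linarith
  rw [e3p, e3q]
  ring

/-- excess of the field `p - cen` -/
theorem cen_excess (g : Gram4 (al a)) {p q : E3} (hpq : ‖p - q‖ = 1) :
    ⟪p - cen a, p - q⟫ - 1 / 4 = 1 / 8 - e2 a p / 2 -
      1 / 8 * (Qv a 0 q + Qv a 1 q + Qv a 2 q + Qv a 3 q) := by
  rw [tet_excess hpq (cen a), norm_sub_sq_bar g p (cen a), norm_sub_sq_bar g q (cen a)]
  simp only [bar_cen]
  rw [Qv_eq0 g, Qv_eq1 g, Qv_eq2 g, Qv_eq3 g]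
  unfold e2
  have hp := bar_sum g p
  have hq := bar_sum g q
  have e3p : bar a 3 p = 1 - bar a 0 p - bar a 1 p - bar a 2 p := by linarith
  have e3q : bar a 3 q = 1 - bar a 0 q - bar a 1 q - bar a 2 q := by linarith
  rw [e3p, e3q]
  ring

theorem excess_nonneg (g : Gram4 (al a)) {p q : E3} (hpq : ‖p - q‖ = 1)
    (hp : ∀ k, 0 < bar a k p) {s : Fin 4 → ℝ} (hs : ∀ i, Qv a i q ≤ s i)
    (hsm : ∀ i, 4 * s i + (s 0 + s 1 + s 2 + s 3) ≤ 1) :
    0 ≤ ⟪p - cen a, p - q⟫ - 1 / 4 := by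
  have h1 := lagrange g p q
  have h2 := bar_sum g p
  rw [cen_excess g hpq]
  rw [hpq] at h1
  have h0 : e2 a p = bar a 0 p * Qv a 0 q + bar a 1 p * Qv a 1 q + bar a 2 p * Qv a 2 q +
      bar a 3 p * Qv a 3 q := by linarith
  set T := s 0 + s 1 + s 2 + s 3 with hT
  have hb : ∀ i, bar a i p * Qv a i q ≤ bar a i p * ((1 - T) / 4) := by
    intro i
    apply mul_le_mul_of_nonneg_left _ (hp i).le
    have := hs i
    have := hsm i
    linarith
  have h3 : e2 a p ≤ (1 - T) / 4 := by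
    have e : (1 - T) / 4 = bar a 0 p * ((1 - T) / 4) + bar a 1 p * ((1 - T) / 4) +
        bar a 2 p * ((1 - T) / 4) + bar a 3 p * ((1 - T) / 4) := by
      rw [← add_mul, ← add_mul, ← add_mul, h2, one_mul]
    rw [h0, e]
    have := hb 0
    have := hb 1
    have := hb 2
    have := hb 3
    linarith
  have h4 : Qv a 0 q + Qv a 1 q + Qv a 2 q + Qv a 3 q ≤ T := by
    have := hs 0
    have := hs 1
    have := hs 2
    have := hs 3
    linarith
  linarith

/-- **(T1)** the cell `T` has nonnegative excess -/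
theorem T1 (ha : ∀ i j, i ≠ j → dist (a i) (a j) = 1) {K : Set E3} {σ : Measure (E3 × E3)}
    (h : Pool.Agent.Helper73.MEI.PM K σ)
    {s : Fin 4 → ℝ} (hs : ∀ i, ∀ q ∈ K, Qv a i q ≤ s i)
    (hsm : ∀ i, 4 * s i + (s 0 + s 1 + s 2 + s 3) ≤ 1) :
    0 ≤ ∫ z in {z : E3 × E3 | z.1 ∈ T0 a}, (⟪z.1 - cen a, z.1 - z.2⟫ - 1 / 4) ∂σ := by
  have g := gram_of_dist ha
  have hm : MeasurableSet {z : E3 × E3 | z.1 ∈ T0 a} := measurable_fst (T0_open a).measurableSet
  apply setIntegral_nonneg_ae hm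
  filter_upwards [h.ae] with z hz hz0
  exact excess_nonneg g hz.2.2.1 hz0 (fun i => hs i _ hz.2.1) hsm

/-! ### The missing part of `T` -/

/-- corner of the tetrahedron -/
def Cor (a : Fin 4 → E3) (i : Fin 4) (D : ℝ) : Set E3 :=
  {x | (∀ k, 0 ≤ bar a k x) ∧ 1 - D ≤ bar a i x}

theorem TT_bar (a : Fin 4 → E3) : TT a = {x | ∀ k, 0 ≤ bar a k x} := by
  ext x
  unfold TT bar
  simp only [mem_setOf_eq]
  constructor
  · intro h k
    have := h k
    linarith
  · intro h k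
    have := h k
    linarith

theorem bar_lin (i : Fin 4) (x y : E3) (r : ℝ) :
    bar a i (x + r • (y - x)) = bar a i x + r * (bar a i y - bar a i x) := by
  have e : x + r • (y - x) - cen a = (x - cen a) + r • ((y - cen a) - (x - cen a)) := by
    have : (y - cen a) - (x - cen a) = y - x := by abel
    rw [this]
    abel
  unfold bar
  rw [e, inner_add_right, real_inner_smul_right,
    inner_sub_right (al a i) (y - cen a) (x - cen a)]
  ring

theorem vol_Cor (ha : ∀ i j, i ≠ j → dist (a i) (a j) = 1) (i : Fin 4) {D : ℝ} (hD : 0 ≤ D) :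
    volume (Cor a i D) ≤ ENNReal.ofReal (D ^ 3 * (√2 / 12)) := by
  have g := gram_of_dist ha
  rcases hD.eq_or_lt with h0 | h0
  · have hz : Cor a i D ⊆ {a i} := by
      rintro x ⟨hx1, hx2⟩
      rw [← h0, sub_zero] at hx2
      have hs := bar_sum g x
      have h1 : ‖x - a i‖ ^ 2 = 0 := by
        rw [norm_sub_sq_bar g x (a i)]
        simp only [bar_vertex g]
        have k0 := hx1 0
        have k1 := hx1 1
        have k2 := hx1 2
        have k3 := hx1 3
        fin_cases i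
        · simp only [Fin.zero_eta] at hx2 ⊢
          have e1 : bar a 1 x = 0 := by linarith
          have e2 : bar a 2 x = 0 := by linarith
          have e3 : bar a 3 x = 0 := by linarith
          have e0 : bar a 0 x = 1 := by linarith
          simp [e0, e1, e2, e3]
        · simp only [Fin.mk_one] at hx2 ⊢
          have e1 : bar a 1 x = 1 := by linarith
          have e2 : bar a 2 x = 0 := by linarith
          have e3 : bar a 3 x = 0 := by linarith
          have e0 : bar a 0 x = 0 := by linarith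
          simp [e0, e1, e2, e3]
        · have hx2' : 1 ≤ bar a 2 x := hx2
          have e1 : bar a 1 x = 0 := by linarith
          have e2 : bar a 2 x = 1 := by linarith
          have e3 : bar a 3 x = 0 := by linarith
          have e0 : bar a 0 x = 0 := by linarith
          simp [e0, e1, e2, e3]
        · have hx2' : 1 ≤ bar a 3 x := hx2
          have e1 : bar a 1 x = 0 := by linarith
          have e2 : bar a 2 x = 0 := by linarith
          have e3 : bar a 3 x = 1 := by linarith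
          have e0 : bar a 0 x = 0 := by linarith
          simp [e0, e1, e2, e3]
      have h2 : ‖x - a i‖ = 0 := by
        exact pow_eq_zero_iff (two_ne_zero) |>.1 h1
      exact sub_eq_zero.1 (norm_eq_zero.1 h2)
    calc volume (Cor a i D) ≤ volume {a i} := measure_mono hz
      _ = 0 := measure_singleton _
      _ ≤ _ := bot_le
  · have hsub : Cor a i D ⊆ AffineMap.homothety (a i) D '' (TT a) := by
      rintro x ⟨hx1, hx2⟩
      refine ⟨a i + D⁻¹ • (x - a i), ?_, ?_⟩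
      · rw [TT_bar]
        intro k
        rw [bar_lin, bar_vertex g]
        have hx1k := hx1 k
        by_cases hki : k = i
        · subst hki
          rw [if_pos rfl]
          have h1 : D⁻¹ * (1 - bar a k x) ≤ 1 := by
            rw [inv_mul_le_iff₀ h0]
            linarith
          linarith
        · rw [if_neg hki]
          have := mul_nonneg (inv_nonneg.2 h0.le) hx1k
          linarith
      · rw [AffineMap.homothety_apply]
        simp only [vsub_eq_sub, vadd_eq_add, add_sub_cancel_left]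
        rw [smul_smul, mul_inv_cancel₀ h0.ne', one_smul]
        abel
    calc volume (Cor a i D) ≤ volume (AffineMap.homothety (a i) D '' (TT a)) := measure_mono hsub
      _ = ENNReal.ofReal (D ^ 3 * (√2 / 12)) := by
        rw [Measure.addHaar_image_homothety, vol_TT' ha, ← ENNReal.ofReal_mul (abs_nonneg _)]
        have : Module.finrank ℝ E3 = 3 := by simp [E3]
        rw [this, abs_of_nonneg (by positivity)]

/-- points of the tetrahedron far from the vertices are in `K` -/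
theorem corner (g : Gram4 (al a)) {K : Set E3} (hh : ∀ x, (∀ q ∈ K, ‖x - q‖ ≤ 1) → x ∈ K)
    {s : Fin 4 → ℝ} (hs : ∀ i, ∀ q ∈ K, Qv a i q ≤ s i) {S : ℝ} (hS : ∀ i, s i ≤ S)
    (hS3 : 3 * S < 1) {x : E3} (hx : ∀ k, 0 ≤ bar a k x) (hxK : x ∉ K) :
    ∃ i, 1 - s i / (1 - 3 * S) ≤ bar a i x := by
  have h1 : ∃ q ∈ K, 1 < ‖x - q‖ := by
    by_contra hcon
    push Not at hcon
    exact hxK (hh x hcon)
  obtain ⟨q, hq, hxq⟩ := h1
  have h2 := lagrange g x q
  have h3 : 1 < ‖x - q‖ ^ 2 := by nlinarith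
  have hsum := bar_sum g x
  have k0 := hx 0
  have k1 := hx 1
  have k2 := hx 2
  have k3 := hx 3
  have m : ∀ i, bar a i x * Qv a i q ≤ bar a i x * s i := fun i =>
    mul_le_mul_of_nonneg_left (hs i q hq) (hx i)
  have h4 : e2 a x < bar a 0 x * s 0 + bar a 1 x * s 1 + bar a 2 x * s 2 + bar a 3 x * s 3 := by
    have := m 0
    have := m 1
    have := m 2
    have := m 3
    linarith
  have hpos : 0 < 1 - 3 * S := by linarith
  -- one coordinate is the largest
  have key : ∀ b0 b1 b2 b3 s0 s1 s2 s3 : ℝ, 0 ≤ b0 → 0 ≤ b1 → 0 ≤ b2 → 0 ≤ b3 →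
      b0 + b1 + b2 + b3 = 1 → b1 ≤ b0 → b2 ≤ b0 → b3 ≤ b0 → s0 ≤ S → s1 ≤ S → s2 ≤ S → s3 ≤ S →
      b0 * b1 + b0 * b2 + b0 * b3 + b1 * b2 + b1 * b3 + b2 * b3 <
        b0 * s0 + b1 * s1 + b2 * s2 + b3 * s3 → 1 - s0 / (1 - 3 * S) ≤ b0 := by
    intro b0 b1 b2 b3 s0 s1 s2 s3 p0 p1 p2 p3 hb q1 q2 q3 r0 r1 r2 r3 hlt
    have t0 : b0 * s0 ≤ b0 * S := mul_le_mul_of_nonneg_left r0 p0
    have t1 : b1 * s1 ≤ b1 * S := mul_le_mul_of_nonneg_left r1 p1
    have t2 : b2 * s2 ≤ b2 * S := mul_le_mul_of_nonneg_left r2 p2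
    have t3 : b3 * s3 ≤ b3 * S := mul_le_mul_of_nonneg_left r3 p3
    have hS1 : b0 * S + b1 * S + b2 * S + b3 * S = S := by
      rw [← add_mul, ← add_mul, ← add_mul, hb, one_mul]
    -- e2 ≥ (1 - b0) / 2
    have u1 : b1 * b1 ≤ b1 * b0 := mul_le_mul_of_nonneg_left q1 p1
    have u2 : b2 * b2 ≤ b2 * b0 := mul_le_mul_of_nonneg_left q2 p2
    have u3 : b3 * b3 ≤ b3 * b0 := mul_le_mul_of_nonneg_left q3 p3
    have hsq : (b0 + b1 + b2 + b3) * (b0 + b1 + b2 + b3) = 1 := by rw [hb]; norm_num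
    have hb0 : b0 * (b0 + b1 + b2 + b3) = b0 := by rw [hb, mul_one]
    have v1 : (1 - b0) / 2 ≤ b0 * b1 + b0 * b2 + b0 * b3 + b1 * b2 + b1 * b3 + b2 * b3 := by
      nlinarith
    have v2 : (1 - b0) / 2 < S := by linarith
    have v3 : b0 * (1 - b0) ≤
        b0 * b1 + b0 * b2 + b0 * b3 + b1 * b2 + b1 * b3 + b2 * b3 := by
      have w1 : 0 ≤ b1 * b2 := mul_nonneg p1 p2
      have w2 : 0 ≤ b1 * b3 := mul_nonneg p1 p3
      have w3 : 0 ≤ b2 * b3 := mul_nonneg p2 p3
      have e : 1 - b0 = b1 + b2 + b3 := by linarith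
      rw [e]
      nlinarith
    have hS0 : 0 < S ∨ S ≤ 0 := lt_or_ge 0 S
    have hS0' : 0 < S := by
      rcases hS0 with h | h
      · exact h
      · have : b0 ≤ 1 := by linarith
        linarith
    have v4 : b0 * (1 - b0) < s0 + (1 - b0) * S := by
      rcases le_or_gt 0 s0 with hs0 | hs0
      · have : b0 * s0 ≤ 1 * s0 := mul_le_mul_of_nonneg_right (by linarith) hs0
        have e : (1 - b0) * S = b1 * S + b2 * S + b3 * S := by
          rw [show 1 - b0 = b1 + b2 + b3 by linarith]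
          ring
        linarith
      · exfalso
        have w : b0 * (1 - b0) < b1 * S + b2 * S + b3 * S + b0 * s0 := by linarith
        have e : b1 * S + b2 * S + b3 * S = (1 - b0) * S := by
          rw [show 1 - b0 = b1 + b2 + b3 by linarith]
          ring
        have w1 : b0 * s0 ≤ 0 := mul_nonpos_of_nonneg_of_nonpos p0 hs0.le
        have w2 : (1 - b0) * (b0 - S) < 0 := by nlinarith
        have w3 : 0 ≤ (1 - b0) * (b0 - S) := mul_nonneg (by linarith) (by linarith)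
        linarith
    have v5 : (1 - b0) * (1 - 3 * S) ≤ (1 - b0) * (b0 - S) :=
      mul_le_mul_of_nonneg_left (by linarith) (by linarith)
    have v6 : (1 - b0) * (1 - 3 * S) < s0 := by nlinarith
    have v7 : 1 - b0 < s0 / (1 - 3 * S) := by
      rw [lt_div_iff₀ hpos]
      exact v6
    linarith
  unfold e2 at h4
  rcases le_total (bar a 1 x) (bar a 0 x) with c1 | c1
  · rcases le_total (bar a 3 x) (bar a 2 x) with c2 | c2
    · rcases le_total (bar a 2 x) (bar a 0 x) with c3 | c3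
      · exact ⟨0, key _ _ _ _ _ _ _ _ k0 k1 k2 k3 hsum c1 c3 (c2.trans c3)
          (hS 0) (hS 1) (hS 2) (hS 3) (by linarith)⟩
      · exact ⟨2, key _ _ _ _ _ _ _ _ k2 k0 k1 k3 (by linarith) c3 (c1.trans c3) c2
          (hS 2) (hS 0) (hS 1) (hS 3) (by linarith)⟩
    · rcases le_total (bar a 3 x) (bar a 0 x) with c3 | c3
      · exact ⟨0, key _ _ _ _ _ _ _ _ k0 k1 k2 k3 hsum c1 (c2.trans c3) c3
          (hS 0) (hS 1) (hS 2) (hS 3) (by linarith)⟩
      · exact ⟨3, key _ _ _ _ _ _ _ _ k3 k0 k1 k2 (by linarith) c3 (c1.trans c3) c2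
          (hS 3) (hS 0) (hS 1) (hS 2) (by linarith)⟩
  · rcases le_total (bar a 3 x) (bar a 2 x) with c2 | c2
    · rcases le_total (bar a 2 x) (bar a 1 x) with c3 | c3
      · exact ⟨1, key _ _ _ _ _ _ _ _ k1 k0 k2 k3 (by linarith) c1 c3 (c2.trans c3)
          (hS 1) (hS 0) (hS 2) (hS 3) (by linarith)⟩
      · exact ⟨2, key _ _ _ _ _ _ _ _ k2 k0 k1 k3 (by linarith) (c1.trans c3) c3 c2
          (hS 2) (hS 0) (hS 1) (hS 3) (by linarith)⟩
    · rcases le_total (bar a 3 x) (bar a 1 x) with c3 | c3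
      · exact ⟨1, key _ _ _ _ _ _ _ _ k1 k0 k2 k3 (by linarith) c1 (c2.trans c3) c3
          (hS 1) (hS 0) (hS 2) (hS 3) (by linarith)⟩
      · exact ⟨3, key _ _ _ _ _ _ _ _ k3 k0 k1 k2 (by linarith) (c1.trans c3) c3 c2
          (hS 3) (hS 0) (hS 1) (hS 2) (by linarith)⟩

/-- `T` and its open cell differ by a null set -/
theorem vol_TT_T0 (ha : ∀ i j, i ≠ j → dist (a i) (a j) = 1) (K : Set E3) :
    volume (K ∩ TT a) = volume (K ∩ T0 a) := by
  apply measure_congr
  have hz : ∀ᵐ x : E3 ∂volume, ∀ k : Fin 4, bar a k x ≠ 0 := by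
    rw [ae_all_iff]
    intro k
    rw [ae_iff]
    simpa using bar_zero_null ha k
  filter_upwards [hz] with x hx
  apply propext
  show x ∈ K ∩ TT a ↔ x ∈ K ∩ T0 a
  rw [TT_bar]
  constructor
  · rintro ⟨h1, h2⟩
    exact ⟨h1, fun k => lt_of_le_of_ne (h2 k) (hx k).symm⟩
  · rintro ⟨h1, h2⟩
    exact ⟨h1, fun k => (h2 k).le⟩

/-- **(T2)** the missing volume of `T` -/
theorem T2 (ha : ∀ i j, i ≠ j → dist (a i) (a j) = 1) {K : Set E3}
    (hh : ∀ x, (∀ q ∈ K, ‖x - q‖ ≤ 1) → x ∈ K)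
    {s : Fin 4 → ℝ} (hs : ∀ i, ∀ q ∈ K, Qv a i q ≤ s i) (h0 : ∀ i, 0 ≤ s i)
    {S : ℝ} (hS : ∀ i, s i ≤ S) (hS3 : 3 * S < 1) :
    √2 / 12 - volume.real (K ∩ T0 a) ≤ ∑ i, (s i / (1 - 3 * S)) ^ 3 * (√2 / 12) := by
  have g := gram_of_dist ha
  have hpos : 0 < 1 - 3 * S := by linarith
  have hsub : TT a ⊆ (K ∩ TT a) ∪ ⋃ i, Cor a i (s i / (1 - 3 * S)) := by
    intro x hx
    by_cases hxK : x ∈ K
    · exact Or.inl ⟨hxK, hx⟩
    · right
      have hx' := hx
      rw [TT_bar] at hx'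
      obtain ⟨i, hi⟩ := corner g hh hs hS hS3 hx' hxK
      exact mem_iUnion.2 ⟨i, hx', hi⟩
  have hD : ∀ i, 0 ≤ s i / (1 - 3 * S) := fun i => div_nonneg (h0 i) hpos.le
  have hDn : ∀ i, 0 ≤ (s i / (1 - 3 * S)) ^ 3 * (√2 / 12) := fun i =>
    mul_nonneg (pow_nonneg (hD i) 3) (by positivity)
  have h1 : volume (TT a) ≤ volume (K ∩ T0 a) +
      ENNReal.ofReal (∑ i, (s i / (1 - 3 * S)) ^ 3 * (√2 / 12)) := by
    calc volume (TT a) ≤ volume ((K ∩ TT a) ∪ ⋃ i, Cor a i (s i / (1 - 3 * S))) :=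
          measure_mono hsub
      _ ≤ volume (K ∩ TT a) + volume (⋃ i, Cor a i (s i / (1 - 3 * S))) := measure_union_le _ _
      _ ≤ volume (K ∩ T0 a) + ∑ i, volume (Cor a i (s i / (1 - 3 * S))) := by
          rw [vol_TT_T0 ha]
          gcongr
          exact measure_iUnion_fintype_le _ _
      _ ≤ volume (K ∩ T0 a) + ∑ i, ENNReal.ofReal ((s i / (1 - 3 * S)) ^ 3 * (√2 / 12)) := by
          gcongr with i _
          exact vol_Cor ha i (hD i)
      _ = _ := by
          rw [ENNReal.ofReal_sum_of_nonneg fun i _ => hDn i]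
  have hfin : volume (K ∩ T0 a) ≠ ⊤ := by
    have h2 : volume (K ∩ T0 a) ≤ volume (TT a) := by
      rw [← vol_TT_T0 ha]
      exact measure_mono inter_subset_right
    refine ne_top_of_le_ne_top ?_ h2
    rw [vol_TT' ha]
    exact ENNReal.ofReal_ne_top
  have h3 := ENNReal.toReal_mono (ENNReal.add_ne_top.2 ⟨hfin, ENNReal.ofReal_ne_top⟩) h1
  rw [ENNReal.toReal_add hfin ENNReal.ofReal_ne_top,
    ENNReal.toReal_ofReal (Finset.sum_nonneg fun i _ => hDn i), vol_TT' ha,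
    ENNReal.toReal_ofReal (by positivity)] at h3
  rw [measureReal_def]
  linarith

/-- numerical form, `s ≤ 0.14` -/
theorem T2_num (ha : ∀ i j, i ≠ j → dist (a i) (a j) = 1) {K : Set E3}
    (hh : ∀ x, (∀ q ∈ K, ‖x - q‖ ≤ 1) → x ∈ K)
    {s : Fin 4 → ℝ} (hs : ∀ i, ∀ q ∈ K, Qv a i q ≤ s i) (h0 : ∀ i, 0 ≤ s i)
    (hS : ∀ i, s i ≤ 0.14) :
    √2 / 12 - volume.real (K ∩ T0 a) ≤ 0.605 * (s 0 ^ 3 + s 1 ^ 3 + s 2 ^ 3 + s 3 ^ 3) := by
  have h1 := T2 ha hh hs h0 hS (by norm_num)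
  refine h1.trans ?_
  rw [Fin.sum_univ_four]
  have hr : √2 < 1.41422 := by
    rw [Real.sqrt_lt' (by norm_num)]
    norm_num
  have hr0 : 0 ≤ √2 := Real.sqrt_nonneg 2
  have key : ∀ t : ℝ, 0 ≤ t → (t / (1 - 3 * 0.14)) ^ 3 * (√2 / 12) ≤ 0.605 * t ^ 3 := by
    intro t ht
    have e : (t / (1 - 3 * 0.14)) ^ 3 * (√2 / 12) = t ^ 3 * ((1 / 0.58) ^ 3 * (√2 / 12)) := by
      norm_num
      ring
    rw [e]
    have h2 : ((1 / 0.58) ^ 3 * (√2 / 12) : ℝ) ≤ 0.605 := by
      norm_num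
      nlinarith
    have h3 : 0 ≤ t ^ 3 := pow_nonneg ht 3
    nlinarith
  have := key _ (h0 0)
  have := key _ (h0 1)
  have := key _ (h0 2)
  have := key _ (h0 3)
  linarith

end Helper22.TTc
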