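import Pool.Agent.Helper22.MEI.ThN
import Pool.Agent.Helper22.MEI.P0

/-!
# Project MEI (M2), TEAM TC: numbers of the third column, profile `fd = 1 - 7/8 |x|`
-/

set_option autoImplicit false

namespace Helper22.ThN

open Set Metric MeasureTheory Helper80.CW Helper14.CW Helper14.MEI2
open Helper93.MEI Helper37.MEI Helper41.MEI Helper78.MEI Helper49.Cpl Helper22.Cpd
open Helper53.MEI (fd)
open scoped RealInnerProductSpace Real

theorem conv_pp {a b t : ℝ} (h0 : 0 ≤ t) (h1 : t ≤ 1) :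
    pp ((1 - t) * a + t * b) ^ 2 ≤ (1 - t) * pp a ^ 2 + t * pp b ^ 2 := by
  have h2 : pp ((1 - t) * a + t * b) ≤ (1 - t) * pp a + t * pp b := by
    have k1 := mul_le_mul_of_nonneg_left (le_pp a) (sub_nonneg.2 h1)
    have k2 := mul_le_mul_of_nonneg_left (le_pp b) h0
    have k3 := mul_nonneg (sub_nonneg.2 h1) (pp_nonneg a)
    have k4 := mul_nonneg h0 (pp_nonneg b)
    exact max_le (by linarith) (by linarith)
  have h3 := pow_le_pow_left₀ (pp_nonneg _) h2 2
  have h4 : 0 ≤ t * (1 - t) * (pp a - pp b) ^ 2 :=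
    mul_nonneg (mul_nonneg h0 (sub_nonneg.2 h1)) (sq_nonneg _)
  nlinarith

/-- linear weights between two points -/
theorem lin_seg {v0 v1 s0 s1 R ω T t r : ℝ} (h0 : 0 ≤ t) (h1 : t ≤ 1) (hs0 : 0 < s0)
    (hs1 : 0 < s1) (hω : 0 < ω) (hr : r ≤ R) (g0 : ω * s0 ≤ v0) (g1 : ω * s1 ≤ v1)
    (b0 : pp (s0 * R - 0.5773 * v0) ^ 2 ≤ 4 * v0 * T)
    (b1 : pp (s1 * R - 0.5773 * v1) ^ 2 ≤ 4 * v1 * T) {v s : ℝ}
    (hv : v = (1 - t) * v0 + t * v1) (hs : s = (1 - t) * s0 + t * s1) :
    0 < v ∧ ω * s ≤ v ∧ pp (s * r - 0.5773 * v) ^ 2 ≤ 4 * v * T := by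
  have k0 := mul_le_mul_of_nonneg_left g0 (sub_nonneg.2 h1)
  have k1 := mul_le_mul_of_nonneg_left g1 h0
  have hsp : 0 < s := by
    rw [hs]
    rcases eq_or_lt_of_le h0 with h | h
    · rw [← h]
      linarith
    · have := mul_pos h hs1
      have := mul_nonneg (sub_nonneg.2 h1) hs0.le
      linarith
  have hw : ω * s ≤ v := by
    rw [hv, hs]
    linarith
  refine ⟨(mul_pos hω hsp).trans_le hw, hw, ?_⟩
  have e : s * R - 0.5773 * v = (1 - t) * (s0 * R - 0.5773 * v0) + t * (s1 * R - 0.5773 * v1) := by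
    rw [hv, hs]
    ring
  have h2 : pp (s * r - 0.5773 * v) ≤ pp (s * R - 0.5773 * v) := pp_mono (by
    have := mul_le_mul_of_nonneg_left hr hsp.le
    linarith)
  have h3 := pow_le_pow_left₀ (pp_nonneg _) h2 2
  have h4 := conv_pp (a := s0 * R - 0.5773 * v0) (b := s1 * R - 0.5773 * v1) h0 h1
  rw [← e] at h4
  have k2 := mul_le_mul_of_nonneg_left b0 (sub_nonneg.2 h1)
  have k3 := mul_le_mul_of_nonneg_left b1 h0
  refine (h3.trans h4).trans ?_
  rw [hv]
  linarith

/-- **the condition for the profile `fd`**: the two points `x = 0` and `|x| = 1/2` suffice -/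
theorem thok_fd {k0 k1 S ω T R : ℝ} (hk0 : 0 ≤ k0) (hk0' : k0 ≤ 1) (hk1 : 0 ≤ k1) (hk1' : k1 ≤ 1)
    (hω : 0 < ω) (hR : 0 ≤ R) (hS : S ≤ R ^ 2) (hT : 0 ≤ T)
    (a0 : ω * (1 - (k0 + k1) / 2) ≤ (1 - k1) / 2)
    (a1 : ω * (1 - 9 / 32 * (k0 + k1)) ≤ 9 / 32 * (1 - k1))
    (hp : 0 < 1 - (k0 + k1) / 2)
    (b0 : pp ((1 - (k0 + k1) / 2) * R - 0.5773 * ((1 - k1) / 2)) ^ 2 ≤ 4 * ((1 - k1) / 2) * T)
    (b1 : pp ((1 - 9 / 32 * (k0 + k1)) * R - 0.5773 * (9 / 32 * (1 - k1))) ^ 2 ≤
      4 * (9 / 32 * (1 - k1)) * T) : ThOK fd k0 k1 S ω T := by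
  have hr : √S ≤ R := by
    rw [Real.sqrt_le_iff]
    exact ⟨hR, hS⟩
  have s1 : 0 < 1 - 9 / 32 * (k0 + k1) := by linarith
  have a2 : ω * (1 - 9 / 32 * (k0 + k1)) ≤ 23 / 32 - 9 / 32 * k1 := by linarith
  have b2 : pp ((1 - 9 / 32 * (k0 + k1)) * R - 0.5773 * (23 / 32 - 9 / 32 * k1)) ^ 2 ≤
      4 * (23 / 32 - 9 / 32 * k1) * T := by
    have h1 : pp ((1 - 9 / 32 * (k0 + k1)) * R - 0.5773 * (23 / 32 - 9 / 32 * k1)) ≤
        pp ((1 - 9 / 32 * (k0 + k1)) * R - 0.5773 * (9 / 32 * (1 - k1))) :=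
      pp_mono (by linarith)
    have h2 := pow_le_pow_left₀ (pp_nonneg _) h1 2
    have h3 : 0 ≤ (7 / 16 : ℝ) * (4 * T) := by positivity
    linarith
  have near : ∀ x : ℝ, 0 ≤ x → x ≤ 1 / 2 →
      0 < 1 / 2 - 7 * x / 16 - k1 / 2 * (1 - 7 / 8 * x) ∧
      ω * (1 - (k0 + k1) / 2 * (1 - 7 / 8 * x)) ≤ 1 / 2 - 7 * x / 16 - k1 / 2 * (1 - 7 / 8 * x) ∧
      pp ((1 - (k0 + k1) / 2 * (1 - 7 / 8 * x)) * √S -
        0.5773 * (1 / 2 - 7 * x / 16 - k1 / 2 * (1 - 7 / 8 * x))) ^ 2 ≤
        4 * (1 / 2 - 7 * x / 16 - k1 / 2 * (1 - 7 / 8 * x)) * T := fun x x0 x1 =>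
    lin_seg (t := 2 * x) (by linarith) (by linarith) hp s1 hω hr a0 a1 b0 b1 (by ring) (by ring)
  have far : ∀ x : ℝ, 0 ≤ x → x ≤ 1 / 2 →
      0 < 1 / 2 + 7 * x / 16 - k1 / 2 * (1 - 7 / 8 * x) ∧
      ω * (1 - (k0 + k1) / 2 * (1 - 7 / 8 * x)) ≤ 1 / 2 + 7 * x / 16 - k1 / 2 * (1 - 7 / 8 * x) ∧
      pp ((1 - (k0 + k1) / 2 * (1 - 7 / 8 * x)) * √S -
        0.5773 * (1 / 2 + 7 * x / 16 - k1 / 2 * (1 - 7 / 8 * x))) ^ 2 ≤
        4 * (1 / 2 + 7 * x / 16 - k1 / 2 * (1 - 7 / 8 * x)) * T := fun x x0 x1 =>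
    lin_seg (t := 2 * x) (by linarith) (by linarith) hp s1 hω hr a0 a2 b0 b2 (by ring) (by ring)
  intro i x hx
  obtain ⟨x0, x1⟩ := abs_le.1 hx
  rcases le_total 0 x with h | h
  · have ea : fd x = 1 - 7 / 8 * x := by
      unfold fd
      rw [abs_of_nonneg h]
    cases i
    · have k := near x h x1
      have e1 : nb (!false) x - k1 / 2 * fd x = 1 / 2 - 7 * x / 16 - k1 / 2 * (1 - 7 / 8 * x) := by
        rw [ea]
        unfold nb
        simp only [Bool.not_false, if_true]
        ring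
      have e2 : nb false x - k0 / 2 * fd x + (nb (!false) x - k1 / 2 * fd x) =
          1 - (k0 + k1) / 2 * (1 - 7 / 8 * x) := by
        rw [e1, ea]
        unfold nb
        simp only [Bool.false_eq_true, if_false]
        ring
      rw [e2, e1]
      exact k
    · have k := far x h x1
      have e1 : nb (!true) x - k1 / 2 * fd x = 1 / 2 + 7 * x / 16 - k1 / 2 * (1 - 7 / 8 * x) := by
        rw [ea]
        unfold nb
        simp only [Bool.not_true, Bool.false_eq_true, if_false]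
      have e2 : nb true x - k0 / 2 * fd x + (nb (!true) x - k1 / 2 * fd x) =
          1 - (k0 + k1) / 2 * (1 - 7 / 8 * x) := by
        rw [e1, ea]
        unfold nb
        simp only [if_true]
        ring
      rw [e2, e1]
      exact k
  · have ea : fd x = 1 - 7 / 8 * (-x) := by
      unfold fd
      rw [abs_of_nonpos h]
    cases i
    · have k := far (-x) (by linarith) (by linarith)
      have e1 : nb (!false) x - k1 / 2 * fd x =
          1 / 2 + 7 * (-x) / 16 - k1 / 2 * (1 - 7 / 8 * (-x)) := by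
        rw [ea]
        unfold nb
        simp only [Bool.not_false, if_true]
        ring
      have e2 : nb false x - k0 / 2 * fd x + (nb (!false) x - k1 / 2 * fd x) =
          1 - (k0 + k1) / 2 * (1 - 7 / 8 * (-x)) := by
        rw [e1, ea]
        unfold nb
        simp only [Bool.false_eq_true, if_false]
        ring
      rw [e2, e1]
      exact k
    · have k := near (-x) (by linarith) (by linarith)
      have e1 : nb (!true) x - k1 / 2 * fd x =
          1 / 2 - 7 * (-x) / 16 - k1 / 2 * (1 - 7 / 8 * (-x)) := by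
        rw [ea]
        unfold nb
        simp only [Bool.not_true, Bool.false_eq_true, if_false]
        ring
      have e2 : nb true x - k0 / 2 * fd x + (nb (!true) x - k1 / 2 * fd x) =
          1 - (k0 + k1) / 2 * (1 - 7 / 8 * (-x)) := by
        rw [e1, ea]
        unfold nb
        simp only [if_true]
        ring
      rw [e2, e1]
      exact k

theorem pp_sq1 {w d : ℝ} (h : w ^ 2 ≤ d) : pp w ^ 2 ≤ d := by
  rcases le_total 0 w with h1 | h1
  · rwa [show pp w = w from max_eq_left h1]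
  · rw [show pp w = 0 from max_eq_right h1]
    nlinarith [sq_nonneg w]

theorem pp_sq2 {w d : ℝ} (h : w ≤ 0) (hd : 0 ≤ d) : pp w ^ 2 ≤ d := by
  rw [show pp w = 0 from max_eq_right h]
  simpa using hd

theorem thf_015 : ThOK fd 0 0.6 0.0152 0.0755 (0.207 * 0.0152) :=
  thok_fd (R := 0.1233) le_rfl zero_le_one (by norm_num) (by norm_num) (by norm_num) (by norm_num)
    (by norm_num) (by norm_num) (by norm_num) (by norm_num) (by norm_num)
    (by first | (refine pp_sq1 ?_; norm_num; done) | (refine pp_sq2 ?_ ?_ <;> norm_num))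
    (by first | (refine pp_sq1 ?_; norm_num; done) | (refine pp_sq2 ?_ ?_ <;> norm_num))

theorem thf_015b : ThOK fd 0 0.5 0.0152 0.0755 (0.072 * 0.0152) :=
  thok_fd (R := 0.1233) le_rfl zero_le_one (by norm_num) (by norm_num) (by norm_num) (by norm_num)
    (by norm_num) (by norm_num) (by norm_num) (by norm_num) (by norm_num)
    (by first | (refine pp_sq1 ?_; norm_num; done) | (refine pp_sq2 ?_ ?_ <;> norm_num))
    (by first | (refine pp_sq1 ?_; norm_num; done) | (refine pp_sq2 ?_ ?_ <;> norm_num))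

theorem thf_02 : ThOK fd 0 0.5 0.0204 0.0875 (0.151 * 0.0204) :=
  thok_fd (R := 0.1429) le_rfl zero_le_one (by norm_num) (by norm_num) (by norm_num) (by norm_num)
    (by norm_num) (by norm_num) (by norm_num) (by norm_num) (by norm_num)
    (by first | (refine pp_sq1 ?_; norm_num; done) | (refine pp_sq2 ?_ ?_ <;> norm_num))
    (by first | (refine pp_sq1 ?_; norm_num; done) | (refine pp_sq2 ?_ ?_ <;> norm_num))

theorem thf_025 : ThOK fd 0 0.4 0.0254 0.0976 (0.114 * 0.0254) :=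
  thok_fd (R := 0.1594) le_rfl zero_le_one (by norm_num) (by norm_num) (by norm_num) (by norm_num)
    (by norm_num) (by norm_num) (by norm_num) (by norm_num) (by norm_num)
    (by first | (refine pp_sq1 ?_; norm_num; done) | (refine pp_sq2 ?_ ?_ <;> norm_num))
    (by first | (refine pp_sq1 ?_; norm_num; done) | (refine pp_sq2 ?_ ?_ <;> norm_num))

theorem thf_03 : ThOK fd 0 0.4 0.0304 0.1068 (0.161 * 0.0304) :=
  thok_fd (R := 0.1744) le_rfl zero_le_one (by norm_num) (by norm_num) (by norm_num) (by norm_num)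
    (by norm_num) (by norm_num) (by norm_num) (by norm_num) (by norm_num)
    (by first | (refine pp_sq1 ?_; norm_num; done) | (refine pp_sq2 ?_ ?_ <;> norm_num))
    (by first | (refine pp_sq1 ?_; norm_num; done) | (refine pp_sq2 ?_ ?_ <;> norm_num))

theorem thf_03b : ThOK fd 0 0.3 0.0304 0.1068 (0.089 * 0.0304) :=
  thok_fd (R := 0.1744) le_rfl zero_le_one (by norm_num) (by norm_num) (by norm_num) (by norm_num)
    (by norm_num) (by norm_num) (by norm_num) (by norm_num) (by norm_num)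
    (by first | (refine pp_sq1 ?_; norm_num; done) | (refine pp_sq2 ?_ ?_ <;> norm_num))
    (by first | (refine pp_sq1 ?_; norm_num; done) | (refine pp_sq2 ?_ ?_ <;> norm_num))

theorem thf_048 : ThOK fd 0 0.3 0.048 0.1342 (0.201 * 0.048) :=
  thok_fd (R := 0.2191) le_rfl zero_le_one (by norm_num) (by norm_num) (by norm_num) (by norm_num)
    (by norm_num) (by norm_num) (by norm_num) (by norm_num) (by norm_num)
    (by first | (refine pp_sq1 ?_; norm_num; done) | (refine pp_sq2 ?_ ?_ <;> norm_num))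
    (by first | (refine pp_sq1 ?_; norm_num; done) | (refine pp_sq2 ?_ ?_ <;> norm_num))

theorem thf_048b : ThOK fd 0 0.2 0.048 0.1342 (0.137 * 0.048) :=
  thok_fd (R := 0.2191) le_rfl zero_le_one (by norm_num) (by norm_num) (by norm_num) (by norm_num)
    (by norm_num) (by norm_num) (by norm_num) (by norm_num) (by norm_num)
    (by first | (refine pp_sq1 ?_; norm_num; done) | (refine pp_sq2 ?_ ?_ <;> norm_num))
    (by first | (refine pp_sq1 ?_; norm_num; done) | (refine pp_sq2 ?_ ?_ <;> norm_num))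

theorem thf_06 : ThOK fd 0 0.3 0.0604 0.1505 (0.261 * 0.0604) :=
  thok_fd (R := 0.2458) le_rfl zero_le_one (by norm_num) (by norm_num) (by norm_num) (by norm_num)
    (by norm_num) (by norm_num) (by norm_num) (by norm_num) (by norm_num)
    (by first | (refine pp_sq1 ?_; norm_num; done) | (refine pp_sq2 ?_ ?_ <;> norm_num))
    (by first | (refine pp_sq1 ?_; norm_num; done) | (refine pp_sq2 ?_ ?_ <;> norm_num))

theorem thf_06b : ThOK fd 0 0.2 0.0604 0.1505 (0.192 * 0.0604) :=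
  thok_fd (R := 0.2458) le_rfl zero_le_one (by norm_num) (by norm_num) (by norm_num) (by norm_num)
    (by norm_num) (by norm_num) (by norm_num) (by norm_num) (by norm_num)
    (by first | (refine pp_sq1 ?_; norm_num; done) | (refine pp_sq2 ?_ ?_ <;> norm_num))
    (by first | (refine pp_sq1 ?_; norm_num; done) | (refine pp_sq2 ?_ ?_ <;> norm_num))

theorem thf_07 : ThOK fd 0 0.2 0.0702 0.1623 (0.229 * 0.0702) :=
  thok_fd (R := 0.265) le_rfl zero_le_one (by norm_num) (by norm_num) (by norm_num) (by norm_num)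
    (by norm_num) (by norm_num) (by norm_num) (by norm_num) (by norm_num)
    (by first | (refine pp_sq1 ?_; norm_num; done) | (refine pp_sq2 ?_ ?_ <;> norm_num))
    (by first | (refine pp_sq1 ?_; norm_num; done) | (refine pp_sq2 ?_ ?_ <;> norm_num))

theorem thf_09 : ThOK fd 0 0.2 0.0907 0.1845 (0.292 * 0.0907) :=
  thok_fd (R := 0.3012) le_rfl zero_le_one (by norm_num) (by norm_num) (by norm_num) (by norm_num)
    (by norm_num) (by norm_num) (by norm_num) (by norm_num) (by norm_num)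
    (by first | (refine pp_sq1 ?_; norm_num; done) | (refine pp_sq2 ?_ ?_ <;> norm_num))
    (by first | (refine pp_sq1 ?_; norm_num; done) | (refine pp_sq2 ?_ ?_ <;> norm_num))

end Helper22.ThN
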