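import Pool.Agent.Helper22.MEI.Cpd3
import Pool.Agent.Helper49.MEI.Cpl3
import Pool.Agent.Helper31.SR.Arc

/-!
# Project MEI (M2), TEAM TC: numbers of the third column

`chkTh`: rational Bernstein check of the condition `ThOK ph22 k0 k1 S ω T`; `thok_scale`: the
condition is linear in the level.
-/

set_option autoImplicit false

namespace Helper22.ThN

open Set Metric MeasureTheory Helper80.CW Helper14.CW Helper14.MEI2
open Helper93.MEI Helper37.MEI Helper41.MEI Helper78.MEI Helper49.Cpl Helper22.Cpd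
open Pool.Agent.Helper31.SR (MA aM idx idx_vx)
open scoped RealInnerProductSpace Real

/-- weight of the other end, `i = false` -/
def vq {α : Type*} [Field α] (k1 x : α) : α := 1 / 2 - 7 * x / 16 - 15 / 32 * k1 * (1 - 4 * x ^ 2)

/-- sum of the two weights -/
def sq' {α : Type*} [Field α] (k0 k1 x : α) : α := 1 - 15 / 32 * (k0 + k1) * (1 - 4 * x ^ 2)

/-- middle Bernstein coefficient of `vq` on `[l, r]` -/
def vm {α : Type*} [Field α] (k1 l r : α) : α :=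
  1 / 2 - 7 * (l + r) / 32 - 15 / 32 * k1 * (1 - 4 * (l * r))

/-- middle Bernstein coefficient of `sq'` -/
def sm' {α : Type*} [Field α] (k0 k1 l r : α) : α := 1 - 15 / 32 * (k0 + k1) * (1 - 4 * (l * r))

/-- check on one interval -/
def chkI (k0 k1 R om T l r : ℚ) : Bool :=
  let v0 := vq k1 l
  let v1 := vm k1 l r
  let v2 := vq k1 r
  let s0 := sq' k0 k1 l
  let s1 := sm' k0 k1 l r
  let s2 := sq' k0 k1 r
  let w0 := R * s0 - 0.5773 * v0
  let w1 := R * s1 - 0.5773 * v1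
  let w2 := R * s2 - 0.5773 * v2
  decide (om * s0 ≤ v0) && decide (om * s1 ≤ v1) && decide (om * s2 ≤ v2) &&
    ((decide (w0 ≤ 0) && decide (w1 ≤ 0) && decide (w2 ≤ 0)) ||
      (decide (w0 * w0 ≤ 4 * T * v0) && decide (2 * (w0 * w1) ≤ 4 * T * (v0 + v1)) &&
        decide (2 * (2 * (w1 * w1) + w0 * w2) ≤ 4 * T * (v0 + 4 * v1 + v2)) &&
        decide (2 * (w1 * w2) ≤ 4 * T * (v1 + v2)) && decide (w2 * w2 ≤ 4 * T * v2)))

/-- check on `n` intervals -/
def chkTh (k0 k1 R om T : ℚ) (n : ℕ) : Bool :=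
  decide (0 ≤ k0) && decide (k0 ≤ 1) && decide (0 ≤ k1) && decide (k1 ≤ 1) && decide (0 ≤ R) &&
    decide (0 < om) && decide (0 ≤ T) && decide (0 < n) &&
    (List.range n).all fun j => chkI k0 k1 R om T (-1 / 2 + j / n) (-1 / 2 + (j + 1) / n)

/-- real form of the check -/
theorem bern {v0 v1 v2 w0 w1 w2 T s t : ℝ} (hs : 0 ≤ s) (ht : 0 ≤ t) (hst : s + t = 1)
    (h0 : w0 * w0 ≤ 4 * T * v0) (h1 : 2 * (w0 * w1) ≤ 4 * T * (v0 + v1))
    (h2 : 2 * (2 * (w1 * w1) + w0 * w2) ≤ 4 * T * (v0 + 4 * v1 + v2))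
    (h3 : 2 * (w1 * w2) ≤ 4 * T * (v1 + v2)) (h4 : w2 * w2 ≤ 4 * T * v2) :
    (w0 * s ^ 2 + 2 * w1 * s * t + w2 * t ^ 2) ^ 2 ≤
      4 * (v0 * s ^ 2 + 2 * v1 * s * t + v2 * t ^ 2) * T := by
  have a0 := mul_le_mul_of_nonneg_left h0 (pow_nonneg hs 4)
  have a1 := mul_le_mul_of_nonneg_left h1 (mul_nonneg (pow_nonneg hs 3) ht)
  have a2 := mul_le_mul_of_nonneg_left h2 (mul_nonneg (pow_nonneg hs 2) (pow_nonneg ht 2))
  have a3 := mul_le_mul_of_nonneg_left h3 (mul_nonneg hs (pow_nonneg ht 3))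
  have a4 := mul_le_mul_of_nonneg_left h4 (pow_nonneg ht 4)
  have e : 4 * (v0 * s ^ 2 + 2 * v1 * s * t + v2 * t ^ 2) * T =
      4 * (v0 * s ^ 2 + 2 * v1 * s * t + v2 * t ^ 2) * T * (s + t) ^ 2 := by
    rw [hst, one_pow, mul_one]
  rw [e]
  nlinarith [a0, a1, a2, a3, a4]

theorem lin3 {w0 w1 w2 s t : ℝ} (hs : 0 ≤ s) (ht : 0 ≤ t) (h0 : 0 ≤ w0) (h1 : 0 ≤ w1)
    (h2 : 0 ≤ w2) : 0 ≤ w0 * s ^ 2 + 2 * w1 * s * t + w2 * t ^ 2 := by
  have a0 := mul_nonneg h0 (pow_nonneg hs 2)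
  have a1 := mul_nonneg h1 (mul_nonneg hs ht)
  have a2 := mul_nonneg h2 (pow_nonneg ht 2)
  nlinarith

theorem vq_s (k1 l r s t : ℝ) (hst : s + t = 1) : vq k1 (s * l + t * r) =
    vq k1 l * s ^ 2 + 2 * vm k1 l r * s * t + vq k1 r * t ^ 2 := by
  have hs : s = 1 - t := by linarith
  subst hs
  unfold vq vm
  ring

theorem sq_s (k0 k1 l r s t : ℝ) (hst : s + t = 1) : sq' k0 k1 (s * l + t * r) =
    sq' k0 k1 l * s ^ 2 + 2 * sm' k0 k1 l r * s * t + sq' k0 k1 r * t ^ 2 := by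
  have hs : s = 1 - t := by linarith
  subst hs
  unfold sq' sm'
  ring

theorem chkI_ok {k0 k1 R om T l r : ℚ} (h : chkI k0 k1 R om T l r = true) (hT : 0 ≤ T) {x : ℝ}
    (hl : (l : ℝ) ≤ x) (hr : x ≤ (r : ℝ)) :
    (om : ℝ) * sq' (k0 : ℝ) k1 x ≤ vq (k1 : ℝ) x ∧
      ((R : ℝ) * sq' (k0 : ℝ) k1 x - 0.5773 * vq (k1 : ℝ) x ≤ 0 ∨
        ((R : ℝ) * sq' (k0 : ℝ) k1 x - 0.5773 * vq (k1 : ℝ) x) ^ 2 ≤
          4 * vq (k1 : ℝ) x * T) := by
  obtain ⟨s, t, hs, ht, hst, hx⟩ : ∃ s t : ℝ, 0 ≤ s ∧ 0 ≤ t ∧ s + t = 1 ∧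
      x = s * (l : ℝ) + t * (r : ℝ) := by
    rcases eq_or_lt_of_le (hl.trans hr) with h1 | h1
    · exact ⟨1, 0, zero_le_one, le_rfl, by norm_num, by linarith⟩
    · have h2 : (0 : ℝ) < r - l := by linarith
      refine ⟨(r - x) / (r - l), (x - l) / (r - l), div_nonneg (by linarith) h2.le,
        div_nonneg (by linarith) h2.le, ?_, ?_⟩
      · rw [← add_div]
        rw [div_eq_one_iff_eq h2.ne']
        ring
      · field_simp
        ring
  unfold chkI at h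
  simp only [Bool.and_eq_true, Bool.or_eq_true, decide_eq_true_eq] at h
  obtain ⟨⟨⟨g0, g1⟩, g2⟩, h⟩ := h
  have G0 : (om : ℝ) * sq' (k0 : ℝ) k1 l ≤ vq (k1 : ℝ) l := by
    have := (Rat.cast_le (K := ℝ)).2 g0
    unfold vq sq' at this ⊢
    push_cast at this
    linarith
  have G1 : (om : ℝ) * sm' (k0 : ℝ) k1 l r ≤ vm (k1 : ℝ) l r := by
    have := (Rat.cast_le (K := ℝ)).2 g1
    unfold vm sm' at this ⊢
    push_cast at this
    linarith
  have G2 : (om : ℝ) * sq' (k0 : ℝ) k1 r ≤ vq (k1 : ℝ) r := by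
    have := (Rat.cast_le (K := ℝ)).2 g2
    unfold vq sq' at this ⊢
    push_cast at this
    linarith
  have cv : ∀ y : ℚ, ((vq k1 y : ℚ) : ℝ) = vq (k1 : ℝ) (y : ℝ) := by
    intro y
    unfold vq
    push_cast
    ring
  have cs : ∀ y : ℚ, ((sq' k0 k1 y : ℚ) : ℝ) = sq' (k0 : ℝ) k1 (y : ℝ) := by
    intro y
    unfold sq'
    push_cast
    ring
  have cvm : ((vm k1 l r : ℚ) : ℝ) = vm (k1 : ℝ) (l : ℝ) r := by
    unfold vm
    push_cast
    ring
  have csm : ((sm' k0 k1 l r : ℚ) : ℝ) = sm' (k0 : ℝ) k1 (l : ℝ) r := by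
    unfold sm'
    push_cast
    ring
  set v0 := vq (k1 : ℝ) (l : ℝ)
  set v1 := vm (k1 : ℝ) (l : ℝ) r
  set v2 := vq (k1 : ℝ) (r : ℝ)
  set s0 := sq' (k0 : ℝ) k1 (l : ℝ)
  set s1 := sm' (k0 : ℝ) k1 (l : ℝ) r
  set s2 := sq' (k0 : ℝ) k1 (r : ℝ)
  have ev : vq (k1 : ℝ) x = v0 * s ^ 2 + 2 * v1 * s * t + v2 * t ^ 2 := by
    rw [hx]
    exact vq_s _ _ _ _ _ hst
  have es : sq' (k0 : ℝ) k1 x = s0 * s ^ 2 + 2 * s1 * s * t + s2 * t ^ 2 := by
    rw [hx]
    exact sq_s _ _ _ _ _ _ hst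
  have ew : (R : ℝ) * sq' (k0 : ℝ) k1 x - 0.5773 * vq (k1 : ℝ) x =
      (R * s0 - 0.5773 * v0) * s ^ 2 + 2 * (R * s1 - 0.5773 * v1) * s * t +
        (R * s2 - 0.5773 * v2) * t ^ 2 := by
    rw [ev, es]
    ring
  refine ⟨?_, ?_⟩
  · have := lin3 hs ht (sub_nonneg.2 G0) (sub_nonneg.2 G1) (sub_nonneg.2 G2)
    rw [ev, es]
    linarith
  · rw [ew, ev]
    rcases h with ⟨⟨a0, a1⟩, a2⟩ | ⟨⟨⟨⟨b0, b1⟩, b2⟩, b3⟩, b4⟩
    · left
      have A0 : R * s0 - 0.5773 * v0 ≤ 0 := by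
        have := (Rat.cast_le (K := ℝ)).2 a0
        push_cast at this
        rw [cv, cs] at this
        linarith
      have A1 : R * s1 - 0.5773 * v1 ≤ 0 := by
        have := (Rat.cast_le (K := ℝ)).2 a1
        push_cast at this
        rw [cvm, csm] at this
        linarith
      have A2 : R * s2 - 0.5773 * v2 ≤ 0 := by
        have := (Rat.cast_le (K := ℝ)).2 a2
        push_cast at this
        rw [cv, cs] at this
        linarith
      have := lin3 hs ht (neg_nonneg.2 A0) (neg_nonneg.2 A1) (neg_nonneg.2 A2)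
      linarith
    · right
      refine bern hs ht hst ?_ ?_ ?_ ?_ ?_
      · have := (Rat.cast_le (K := ℝ)).2 b0
        push_cast at this
        rw [cv, cs] at this
        linarith
      · have := (Rat.cast_le (K := ℝ)).2 b1
        push_cast at this
        rw [cv, cs, cvm, csm] at this
        linarith
      · have := (Rat.cast_le (K := ℝ)).2 b2
        push_cast at this
        rw [cv, cs, cvm, csm, cv, cs] at this
        linarith
      · have := (Rat.cast_le (K := ℝ)).2 b3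
        push_cast at this
        rw [cvm, csm, cv, cs] at this
        linarith
      · have := (Rat.cast_le (K := ℝ)).2 b4
        push_cast at this
        rw [cv, cs] at this
        linarith

/-- the subinterval of a point -/
theorem exists_cell {n : ℕ} (hn : 0 < n) {x : ℝ} (h0 : -1 / 2 ≤ x) (h1 : x ≤ 1 / 2) :
    ∃ j < n, -1 / 2 + (j : ℝ) / n ≤ x ∧ x ≤ -1 / 2 + ((j : ℝ) + 1) / n := by
  have hn' : (0 : ℝ) < n := by exact_mod_cast hn
  rcases eq_or_lt_of_le h1 with h | h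
  · refine ⟨n - 1, by omega, ?_, ?_⟩
    · rw [Nat.cast_sub hn, Nat.cast_one, h]
      have : ((n : ℝ) - 1) / n ≤ 1 := by
        rw [div_le_one hn']
        linarith
      linarith
    · rw [Nat.cast_sub hn, Nat.cast_one, h]
      have : ((n : ℝ) - 1 + 1) / n = 1 := by
        rw [sub_add_cancel, div_self hn'.ne']
      rw [this]
      norm_num
  · have hy : 0 ≤ (x + 1 / 2) * n := mul_nonneg (by linarith) hn'.le
    refine ⟨⌊(x + 1 / 2) * n⌋₊, ?_, ?_, ?_⟩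
    · rw [Nat.floor_lt hy]
      nlinarith
    · have := Nat.floor_le hy
      have h2 : (⌊(x + 1 / 2) * n⌋₊ : ℝ) / n ≤ x + 1 / 2 := by
        rw [div_le_iff₀ hn']
        exact this
      linarith
    · have := (Nat.lt_floor_add_one ((x + 1 / 2) * n)).le
      have h2 : x + 1 / 2 ≤ ((⌊(x + 1 / 2) * n⌋₊ : ℝ) + 1) / n := by
        rw [le_div_iff₀ hn']
        exact this
      linarith

/-- **the condition from the check** -/
theorem thok_chk {k0 k1 R om T : ℚ} {n : ℕ} (h : chkTh k0 k1 R om T n = true) {S : ℝ}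
    (hS : S ≤ (R : ℝ) ^ 2) : ThOK ph22 (k0 : ℝ) k1 S om T := by
  unfold chkTh at h
  simp only [Bool.and_eq_true, decide_eq_true_eq, List.all_eq_true, List.mem_range] at h
  obtain ⟨⟨⟨⟨⟨⟨⟨⟨c0, c0'⟩, c1⟩, c1'⟩, cR⟩, com⟩, cT⟩, cn⟩, hall⟩ := h
  have r0 : (0 : ℝ) ≤ k0 := by exact_mod_cast c0
  have r0' : (k0 : ℝ) ≤ 1 := by exact_mod_cast c0'
  have r1 : (0 : ℝ) ≤ k1 := by exact_mod_cast c1
  have r1' : (k1 : ℝ) ≤ 1 := by exact_mod_cast c1'
  have rR : (0 : ℝ) ≤ R := by exact_mod_cast cR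
  have rom : (0 : ℝ) < om := by exact_mod_cast com
  have rT : (0 : ℝ) ≤ T := by exact_mod_cast cT
  have hR : √S ≤ R := by
    rw [Real.sqrt_le_iff]
    exact ⟨rR, hS⟩
  have main : ∀ x : ℝ, |x| ≤ 1 / 2 → 0 < vq (k1 : ℝ) x ∧
      (om : ℝ) * sq' (k0 : ℝ) k1 x ≤ vq (k1 : ℝ) x ∧
      pp (sq' (k0 : ℝ) k1 x * √S - 0.5773 * vq (k1 : ℝ) x) ^ 2 ≤ 4 * vq (k1 : ℝ) x * T := by
    intro x hx
    obtain ⟨x0, x1⟩ := abs_le.1 hx
    obtain ⟨j, hj, j0, j1⟩ := exists_cell cn (by linarith) x1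
    have hc := hall j hj
    have key := chkI_ok hc cT (x := x) (by push_cast; linarith) (by push_cast; linarith)
    obtain ⟨k2, k3⟩ := key
    have hx2 : x ^ 2 ≤ 1 / 4 := by nlinarith
    have hs : 0 < sq' (k0 : ℝ) k1 x := by
      unfold sq'
      have h1 : ((k0 : ℝ) + k1) * (1 - 4 * x ^ 2) ≤ 2 := by
        have h2 : 1 - 4 * x ^ 2 ≤ 1 := by nlinarith [sq_nonneg x]
        have h3 : 0 ≤ 1 - 4 * x ^ 2 := by linarith
        nlinarith
      nlinarith
    have hv : 0 < vq (k1 : ℝ) x := (mul_pos rom hs).trans_le k2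
    refine ⟨hv, k2, ?_⟩
    set w := sq' (k0 : ℝ) k1 x * √S - 0.5773 * vq (k1 : ℝ) x with hw
    have hwR : w ≤ (R : ℝ) * sq' (k0 : ℝ) k1 x - 0.5773 * vq (k1 : ℝ) x := by
      have := mul_le_mul_of_nonneg_left hR hs.le
      rw [hw]
      linarith
    have hvT : 0 ≤ 4 * vq (k1 : ℝ) x * T := by positivity
    rcases k3 with k3 | k3
    · have h4 : pp w = 0 := max_eq_right (hwR.trans k3)
      rw [h4]
      simpa using hvT
    · refine le_trans ?_ k3
      have h5 : pp w ≤ pp ((R : ℝ) * sq' (k0 : ℝ) k1 x - 0.5773 * vq (k1 : ℝ) x) := pp_mono hwR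
      have h6 : pp ((R : ℝ) * sq' (k0 : ℝ) k1 x - 0.5773 * vq (k1 : ℝ) x) ^ 2 ≤
          ((R : ℝ) * sq' (k0 : ℝ) k1 x - 0.5773 * vq (k1 : ℝ) x) ^ 2 := by
        rcases le_total 0 ((R : ℝ) * sq' (k0 : ℝ) k1 x - 0.5773 * vq (k1 : ℝ) x) with h7 | h7
        · rw [show pp ((R : ℝ) * sq' (k0 : ℝ) k1 x - 0.5773 * vq (k1 : ℝ) x) = _ from
            max_eq_left h7]
        · rw [show pp ((R : ℝ) * sq' (k0 : ℝ) k1 x - 0.5773 * vq (k1 : ℝ) x) = 0 from
            max_eq_right h7]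
          nlinarith [sq_nonneg ((R : ℝ) * sq' (k0 : ℝ) k1 x - 0.5773 * vq (k1 : ℝ) x)]
      exact (pow_le_pow_left₀ (pp_nonneg _) h5 2).trans h6
  intro i x hx
  cases i
  · have h1 := main x hx
    have e1 : nb (!false) x - (k1 : ℝ) / 2 * ph22 x = vq (k1 : ℝ) x := by
      unfold nb vq ph22
      simp only [Bool.not_false, if_true]
      ring
    have e2 : nb false x - (k0 : ℝ) / 2 * ph22 x + (nb (!false) x - (k1 : ℝ) / 2 * ph22 x) =
        sq' (k0 : ℝ) k1 x := by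
      unfold nb sq' ph22
      simp only [Bool.not_false, if_true, Bool.false_eq_true, if_false]
      ring
    rw [e2, e1]
    exact h1
  · have h1 := main (-x) (by rwa [abs_neg])
    have e1 : nb (!true) x - (k1 : ℝ) / 2 * ph22 x = vq (k1 : ℝ) (-x) := by
      unfold nb vq ph22
      simp only [Bool.not_true, Bool.false_eq_true, if_false]
      ring
    have e2 : nb true x - (k0 : ℝ) / 2 * ph22 x + (nb (!true) x - (k1 : ℝ) / 2 * ph22 x) =
        sq' (k0 : ℝ) k1 (-x) := by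
      unfold nb sq' ph22
      simp only [Bool.not_true, if_true, Bool.false_eq_true, if_false]
      ring
    rw [e2, e1]
    exact h1

/-- **the condition is linear in the level** -/
theorem thok_scale {φ : ℝ → ℝ} {k0 k1 X ω τ S : ℝ} (h : ThOK φ k0 k1 X ω (τ * X))
    (hS0 : 0 ≤ S) (hS : S ≤ X) (hτ : 0 ≤ τ) : ThOK φ k0 k1 S ω (τ * S) := by
  intro i x hx
  obtain ⟨h1, h2, h3⟩ := h i x hx
  refine ⟨h1, h2, ?_⟩
  set v := nb (!i) x - k1 / 2 * φ x
  set s := (nb i x - k0 / 2 * φ x) + v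
  have hX0 : 0 ≤ X := hS0.trans hS
  have c0 : 0 ≤ 2 * √(v * τ) := by positivity
  have cs : (2 * √(v * τ)) ^ 2 = 4 * (v * τ) := by
    rw [mul_pow, Real.sq_sqrt (by positivity)]
    ring
  have k1' : s * √X - 0.5773 * v ≤ 2 * √(v * τ) * √X := by
    have a1 : (2 * √(v * τ) * √X) ^ 2 = 4 * v * (τ * X) := by
      rw [mul_pow, cs, Real.sq_sqrt hX0]
      ring
    rw [← a1] at h3
    have a2 := (pow_le_pow_iff_left₀ (pp_nonneg _) (by positivity) two_ne_zero).1 h3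
    exact (le_pp _).trans a2
  have k2 : s * √S - 0.5773 * v ≤ 2 * √(v * τ) * √S := by
    have hr := Real.sqrt_le_sqrt hS
    have hr0 := Real.sqrt_nonneg S
    rcases le_total 0 (s - 2 * √(v * τ)) with h4 | h4
    · have := mul_le_mul_of_nonneg_left hr h4
      linarith
    · have := mul_nonneg (neg_nonneg.2 h4) hr0
      have h5 : 0 ≤ 0.5773 * v := by positivity
      linarith
  have k3 : pp (s * √S - 0.5773 * v) ≤ 2 * √(v * τ) * √S :=
    max_le k2 (by positivity)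
  have k4 := pow_le_pow_left₀ (pp_nonneg _) k3 2
  refine k4.trans (le_of_eq ?_)
  rw [mul_pow, cs, Real.sq_sqrt hS0]
  ring

theorem th_0225 : ThOK ph22 0 0.88 0.0225 0.0919 (0.685 * 0.0225) := by
  have h : chkTh 0 (0.88) (0.15) (0.0919) (0.685 * 0.0225) 16 = true := by decide +kernel
  have h2 := thok_chk h (S := 0.0225) (by push_cast; norm_num)
  push_cast at h2
  exact h2

theorem th_03 : ThOK ph22 0 0.85 0.03 0.1061 (0.57 * 0.03) := by
  have h : chkTh 0 (0.85) (0.1733) (0.1061) (0.57 * 0.03) 16 = true := by decide +kernel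
  have h2 := thok_chk h (S := 0.03) (by push_cast; norm_num)
  push_cast at h2
  exact h2

theorem th_045 : ThOK ph22 0 0.81 0.045 0.13 (0.497 * 0.045) := by
  have h : chkTh 0 (0.81) (0.2122) (0.13) (0.497 * 0.045) 16 = true := by decide +kernel
  have h2 := thok_chk h (S := 0.045) (by push_cast; norm_num)
  push_cast at h2
  exact h2

theorem th_06 : ThOK ph22 0 0.75 0.0604 0.1505 (0.398 * 0.0604) := by
  have h : chkTh 0 (0.75) (0.2458) (0.1505) (0.398 * 0.0604) 16 = true := by decide +kernel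
  have h2 := thok_chk h (S := 0.0604) (by push_cast; norm_num)
  push_cast at h2
  exact h2

theorem th_06b : ThOK ph22 0 0.78 0.0604 0.1505 (0.475 * 0.0604) := by
  have h : chkTh 0 (0.78) (0.2458) (0.1505) (0.475 * 0.0604) 32 = true := by decide +kernel
  have h2 := thok_chk h (S := 0.0604) (by push_cast; norm_num)
  push_cast at h2
  exact h2

theorem th_075 : ThOK ph22 0 0.74 0.075 0.1678 (0.429 * 0.075) := by
  have h : chkTh 0 (0.74) (0.2739) (0.1678) (0.429 * 0.075) 16 = true := by decide +kernel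
  have h2 := thok_chk h (S := 0.075) (by push_cast; norm_num)
  push_cast at h2
  exact h2

theorem th_09 : ThOK ph22 0 0.7 0.0907 0.1845 (0.398 * 0.0907) := by
  have h : chkTh 0 (0.7) (0.3012) (0.1845) (0.398 * 0.0907) 16 = true := by decide +kernel
  have h2 := thok_chk h (S := 0.0907) (by push_cast; norm_num)
  push_cast at h2
  exact h2

theorem th_12 : ThOK ph22 0 0.64 0.1204 0.2125 (0.38 * 0.1204) := by
  have h : chkTh 0 (0.64) (0.347) (0.2125) (0.38 * 0.1204) 32 = true := by decide +kernel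
  have h2 := thok_chk h (S := 0.1204) (by push_cast; norm_num)
  push_cast at h2
  exact h2

section sys
variable {φ : ℝ → ℝ} {a : Fin 4 → E3} {K : Set E3} {σ : Measure (E3 × E3)}
  {κ : Fin 3 → Bool → Bool → ℝ}

/-- **third column of the arcs of the coupled system**, linear in the own level -/
theorem MA_third3 [IsFiniteMeasure σ] (hφ : Prof φ) (ha : ∀ i j, i ≠ j → dist (a i) (a j) = 1)
    {k1 X ω t : ℝ} (hk1 : k1 ≤ 1) (h0 : ∀ m e i, 0 ≤ κ m e i) (h1 : ∀ m e i, κ m e i ≤ k1)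
    (hK : IsCompact K) (hσ : ∀ᵐ z ∂σ, z.1 ∈ K ∧ z.2 ∈ K) (hp : ∀ x ∈ K, Pl a x)
    (hT : ThOK φ 0 k1 X ω (t * X)) (ht : 0 ≤ t) (hω : 0 < ω) (hω1 : ω ≤ 3 / 8)
    (hX1 : X ≤ 8 / 3 * ω ^ 2) (τ : Equiv.Perm (Fin 4)) {S W : ℝ} (hS0 : 0 ≤ S) (hSX : S ≤ X)
    (hQ : ∀ x ∈ K, Qv a (τ 0) x ≤ S)
    (hW : ∀ m e i, ∫ z in EE a m e, wt (ap a m e) i z.1 ∂σ ≤ W) (p : Fin 3) :
    MA σ a (l3 φ κ a) τ p p ≤ 2 * t * S * W := by
  have hne : τ 0 ≠ τ p.succ := fun h => (Fin.succ_ne_zero p) (τ.injective h).symm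
  have hv := idx_vx (τ 0) (τ p.succ) hne
  have h2 := sM3_third hφ ha h0 (fun m e i => (h1 m e i).trans hk1) hK hσ hp
    (idx (τ 0) (τ p.succ)).1 (idx (τ 0) (τ p.succ)).2.1 (idx (τ 0) (τ p.succ)).2.2
    (k0 := 0) (h0 _ _ _) (h1 _ _ _) (thok_scale hT hS0 hSX ht) (mul_nonneg ht hS0) hω hω1
    (hSX.trans hX1) (by rw [hv.1]; exact hQ)
  rw [hv.2] at h2
  have w0 := hW (idx (τ 0) (τ p.succ)).1 (idx (τ 0) (τ p.succ)).2.1 false
  have w1 := hW (idx (τ 0) (τ p.succ)).1 (idx (τ 0) (τ p.succ)).2.1 true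
  have h3 := mul_le_mul_of_nonneg_left (add_le_add w0 w1) (mul_nonneg ht hS0)
  refine h2.trans ?_
  linarith

end sys

end Helper22.ThN
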