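import Pool.Agent.Helper22.MEI.ThN

/-!
# Project MEI (M2), TEAM TC: third column, profile `ph22`, more instances

`tpX_k`: levels `≤ 0.X`, couplings `≤ 0.k`.
-/

set_option autoImplicit false

namespace Helper22.ThN

open Helper49.Cpl Helper22.Cpd

theorem tp0172_78 : ThOK ph22 0 0.78 0.0172 0.0804 (0.128 * 0.0172) := by
  have h : chkTh 0 (0.78) (0.1312) (0.0804) (0.128 * 0.0172) 16 = true := by decide +kernel
  have h2 := thok_chk h (S := 0.0172) (by push_cast; norm_num)
  push_cast at h2
  exact h2

theorem tp0172_85 : ThOK ph22 0 0.85 0.0172 0.0804 (0.369 * 0.0172) := by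
  have h : chkTh 0 (0.85) (0.1312) (0.0804) (0.369 * 0.0172) 16 = true := by decide +kernel
  have h2 := thok_chk h (S := 0.0172) (by push_cast; norm_num)
  push_cast at h2
  exact h2

theorem tp025_7 : ThOK ph22 0 0.7 0.025 0.0969 (0.095 * 0.025) := by
  have h : chkTh 0 (0.7) (0.1582) (0.0969) (0.095 * 0.025) 16 = true := by decide +kernel
  have h2 := thok_chk h (S := 0.025) (by push_cast; norm_num)
  push_cast at h2
  exact h2

theorem tp025_78 : ThOK ph22 0 0.78 0.025 0.0969 (0.229 * 0.025) := by
  have h : chkTh 0 (0.78) (0.1582) (0.0969) (0.229 * 0.025) 16 = true := by decide +kernel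
  have h2 := thok_chk h (S := 0.025) (by push_cast; norm_num)
  push_cast at h2
  exact h2

theorem tp0327_65 : ThOK ph22 0 0.65 0.0327 0.1108 (0.101 * 0.0327) := by
  have h : chkTh 0 (0.65) (0.1809) (0.1108) (0.101 * 0.0327) 16 = true := by decide +kernel
  have h2 := thok_chk h (S := 0.0327) (by push_cast; norm_num)
  push_cast at h2
  exact h2

theorem tp0327_7 : ThOK ph22 0 0.7 0.0327 0.1108 (0.155 * 0.0327) := by
  have h : chkTh 0 (0.7) (0.1809) (0.1108) (0.155 * 0.0327) 16 = true := by decide +kernel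
  have h2 := thok_chk h (S := 0.0327) (by push_cast; norm_num)
  push_cast at h2
  exact h2

theorem tp0327_75 : ThOK ph22 0 0.75 0.0327 0.1108 (0.236 * 0.0327) := by
  have h : chkTh 0 (0.75) (0.1809) (0.1108) (0.236 * 0.0327) 16 = true := by decide +kernel
  have h2 := thok_chk h (S := 0.0327) (by push_cast; norm_num)
  push_cast at h2
  exact h2

theorem tp0327_78 : ThOK ph22 0 0.78 0.0327 0.1108 (0.304 * 0.0327) := by
  have h : chkTh 0 (0.78) (0.1809) (0.1108) (0.304 * 0.0327) 16 = true := by decide +kernel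
  have h2 := thok_chk h (S := 0.0327) (by push_cast; norm_num)
  push_cast at h2
  exact h2

theorem tp0403_65 : ThOK ph22 0 0.65 0.0403 0.123 (0.145 * 0.0403) := by
  have h : chkTh 0 (0.65) (0.2008) (0.123) (0.145 * 0.0403) 16 = true := by decide +kernel
  have h2 := thok_chk h (S := 0.0403) (by push_cast; norm_num)
  push_cast at h2
  exact h2

theorem tp0403_7 : ThOK ph22 0 0.7 0.0403 0.123 (0.204 * 0.0403) := by
  have h : chkTh 0 (0.7) (0.2008) (0.123) (0.204 * 0.0403) 16 = true := by decide +kernel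
  have h2 := thok_chk h (S := 0.0403) (by push_cast; norm_num)
  push_cast at h2
  exact h2

theorem tp0403_75 : ThOK ph22 0 0.75 0.0403 0.123 (0.291 * 0.0403) := by
  have h : chkTh 0 (0.75) (0.2008) (0.123) (0.291 * 0.0403) 16 = true := by decide +kernel
  have h2 := thok_chk h (S := 0.0403) (by push_cast; norm_num)
  push_cast at h2
  exact h2

theorem tp0477_6 : ThOK ph22 0 0.6 0.0477 0.1338 (0.14 * 0.0477) := by
  have h : chkTh 0 (0.6) (0.2185) (0.1338) (0.14 * 0.0477) 16 = true := by decide +kernel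
  have h2 := thok_chk h (S := 0.0477) (by push_cast; norm_num)
  push_cast at h2
  exact h2

theorem tp0477_65 : ThOK ph22 0 0.65 0.0477 0.1338 (0.183 * 0.0477) := by
  have h : chkTh 0 (0.65) (0.2185) (0.1338) (0.183 * 0.0477) 16 = true := by decide +kernel
  have h2 := thok_chk h (S := 0.0477) (by push_cast; norm_num)
  push_cast at h2
  exact h2

theorem tp0477_7 : ThOK ph22 0 0.7 0.0477 0.1338 (0.245 * 0.0477) := by
  have h : chkTh 0 (0.7) (0.2185) (0.1338) (0.245 * 0.0477) 16 = true := by decide +kernel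
  have h2 := thok_chk h (S := 0.0477) (by push_cast; norm_num)
  push_cast at h2
  exact h2

theorem tp0699_6 : ThOK ph22 0 0.6 0.0699 0.162 (0.223 * 0.0699) := by
  have h : chkTh 0 (0.6) (0.2644) (0.162) (0.223 * 0.0699) 16 = true := by decide +kernel
  have h2 := thok_chk h (S := 0.0699) (by push_cast; norm_num)
  push_cast at h2
  exact h2

end Helper22.ThN
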