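import Pool.Agent.Helper41.MEI.Exs

/-!
# Project MEI (M2): the third coordinate for general weights

Real form of the third column of an arc: own weight `di`, weight `e` of the other end of the edge,
`ω (di + e) ≤ e`.
-/

set_option autoImplicit false

namespace Helper22.Cpd

open Helper93.MEI Helper41.MEI
open Pool.Agent.Helper95.MEI.Fub (pp_cont)

theorem third_pos' {x y u v S ω : ℝ} (h1 : x + y + u + v = 1) (hx : 0 ≤ x)
    (a3 : y - u ≤ 1) (a4 : y - v ≤ 1) (a5 : u - v ≤ 1) (a6 : v - u ≤ 1)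
    (hω : 0 < ω) (hω1 : ω ≤ 3 / 8) (hxy : x ≤ y)
    (hQ : 1 / 2 * ((1 - x) ^ 2 + y ^ 2 + u ^ 2 + v ^ 2) - 1 ≤ S) (hS : S ≤ 8 / 3 * ω ^ 2) :
    1 / 2 * ((1 - x) ^ 2 + y ^ 2 + u ^ 2 + v ^ 2) - 1 ≤ ω * (y - x) := by
  rcases le_or_gt (8 / 3 * ω) (y - x) with hD | hD
  · have := mul_le_mul_of_nonneg_left hD hω.le
    nlinarith
  · obtain ⟨D, hD'⟩ : ∃ D, D = y - x := ⟨_, rfl⟩
    have hy : y = x + D := by linarith
    subst hy
    have hD0 : 0 ≤ D := by linarith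
    have hD1 : D < 8 / 3 * ω := by linarith
    have hv : v = 1 - x - (x + D) - u := by linarith
    have k3 : (u - v) ^ 2 ≤ 1 := by
      rw [sq_le_one_iff_abs_le_one, abs_le]
      constructor <;> linarith
    have k1 : 0 ≤ x * (1 - x - D) := mul_nonneg hx (by linarith)
    have k2 : 0 ≤ D * (1 / 2 + ω - 3 / 4 * D) := mul_nonneg hD0 (by linarith)
    subst hv
    nlinarith

theorem third_beta' {β y Q ω : ℝ} (hβ : 0 < β) (hy : 0 < y) (hQ0 : 0 < Q) (hω : 0 < ω)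
    (hω1 : ω ≤ 3 / 8) (hq : Q ≤ 8 / 3 * ω ^ 2)
    (c1 : Q ≤ 3 * β ^ 2 - 2 * β * y + y ^ 2)
    (c2 : 2 * Q ≤ 3 * β - y + 3 / 2 * β ^ 2 + 3 / 2 * y ^ 2 - β * y)
    (l : ω * (y + β) < Q) : Q ≤ 3 * β ^ 2 := by
  by_contra hc
  push Not at hc
  obtain ⟨t, ht⟩ : ∃ t, t = y - β := ⟨_, rfl⟩
  have hy' : y = β + t := by linarith
  subst hy'
  have h1 : β < t := by
    by_contra h
    push Not at h
    nlinarith
  have h2 : ω ^ 2 * (2 * β + t) ^ 2 < Q ^ 2 := by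
    rw [← mul_pow]
    apply pow_lt_pow_left₀ _ (mul_nonneg hω.le (by linarith)) (by norm_num)
    linarith
  have h3 : (2 * β + t) ^ 2 < 8 / 3 * Q := by
    have h4 : Q ^ 2 ≤ 8 / 3 * ω ^ 2 * Q := by
      rw [sq]
      exact mul_le_mul_of_nonneg_right hq hQ0.le
    have h5 : ω ^ 2 * (2 * β + t) ^ 2 < ω ^ 2 * (8 / 3 * Q) := by linarith
    exact lt_of_mul_lt_mul_left h5 (by positivity)
  have h6 : 2 * β < t := by
    by_contra h
    push Not at h
    have : 0 ≤ (2 * β - t) * (5 * t - 2 * β) := mul_nonneg (by linarith) (by linarith)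
    nlinarith
  have h7 : 2 * β + t < 1 := by
    have h8 : (2 * β + t) ^ 2 < 1 := by nlinarith
    nlinarith
  have h9 : 0 ≤ (t - 2 * β) * (1 - 1 / 2 * (β + 3 / 2 * t)) :=
    mul_nonneg (by linarith) (by linarith)
  nlinarith

theorem third_c1 {β y u : ℝ} (k : 0 ≤ (1 - β - u) * (1 - β - (1 + β - y - u))) :
    1 / 2 * ((1 - -β) ^ 2 + y ^ 2 + u ^ 2 + (1 + β - y - u) ^ 2) - 1 ≤
      3 * β ^ 2 - 2 * β * y + y ^ 2 := by
  nlinarith

theorem third_c2 {β y u : ℝ} (k3 : (u - (1 + β - y - u)) ^ 2 ≤ 1) :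
    2 * (1 / 2 * ((1 - -β) ^ 2 + y ^ 2 + u ^ 2 + (1 + β - y - u) ^ 2) - 1) ≤
      3 * β - y + 3 / 2 * β ^ 2 + 3 / 2 * y ^ 2 - β * y := by
  nlinarith

theorem third_r {β r : ℝ} (hβ : 0 < β) (hr : 0 < r) (h : r ^ 2 ≤ 3 * β ^ 2) :
    0.5773 * r ≤ β := by
  by_contra hc
  push Not at hc
  have k := pow_lt_pow_left₀ hc hβ.le two_ne_zero
  have k2 : (0.5773 * r) ^ 2 = 0.33327529 * r ^ 2 := by ring
  have k3 : 0 < r ^ 2 := by positivity
  rw [k2] at k
  linarith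

theorem third_l {β di e R r Q p : ℝ} (he : 0 < e) (hs : 0 < di + e) (hr0 : 0 < r)
    (hr2 : r ^ 2 = Q) (h6 : 0.5773 * r ≤ β) (hrS : r ≤ R)
    (hp : (di + e) * R - 0.5773 * e ≤ p) : (di + e) * Q - e * β ≤ r * p := by
  have k0 := mul_le_mul_of_nonneg_left h6 he.le
  have k1 := mul_le_mul_of_nonneg_left hrS hs.le
  have k2 : (di + e) * r - 0.5773 * e ≤ p := by linarith
  have k3 := mul_le_mul_of_nonneg_left k2 hr0.le
  have k4 : r * ((di + e) * r - 0.5773 * e) = (di + e) * r ^ 2 - e * (0.5773 * r) := by ring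
  rw [k4, hr2] at k3
  linarith

theorem third_f {A y β e Q T p r : ℝ} (he : 0 < e) (hQ0 : 0 < Q) (hr2 : r ^ 2 = Q)
    (h7 : A - e * β ≤ r * p) (h8 : 0 < A - e * β) (hT : p ^ 2 ≤ 4 * e * T) :
    (A - e * (y + β)) * y ≤ Q * T := by
  have k1 := pow_le_pow_left₀ h8.le h7 2
  rw [mul_pow, hr2] at k1
  have k2 := mul_le_mul_of_nonneg_left hT hQ0.le
  have k0 := sq_nonneg (A - e * β - 2 * e * y)
  have e1 : (A - e * β - 2 * e * y) ^ 2 =
      (A - e * β) ^ 2 - 4 * e * ((A - e * (y + β)) * y) := by ring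
  rw [e1] at k0
  have h12 : 4 * e * ((A - e * (y + β)) * y) ≤ 4 * e * (Q * T) := by linarith
  exact le_of_mul_le_mul_left h12 (by linarith)

/-- the real form: `x` own coordinate, `y` coordinate of the other end of the edge, `e` the weight
of the other end -/
theorem third_w {x y u v Q Q' S di e ω T : ℝ} (h1 : x + y + u + v = 1)
    (a1 : x - u ≤ 1) (a2 : x - v ≤ 1) (a3 : y - u ≤ 1) (a4 : y - v ≤ 1)
    (a5 : u - v ≤ 1) (a6 : v - u ≤ 1) (a7 : u - x ≤ 1) (a8 : v - x ≤ 1)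
    (hQ : Q = 1 / 2 * ((1 - x) ^ 2 + y ^ 2 + u ^ 2 + v ^ 2) - 1) (hQ' : Q' = Q - (y - x))
    (hdi : 0 ≤ di) (he : 0 < e) (hω : 0 < ω) (hω1 : ω ≤ 3 / 8) (hw : ω * (di + e) ≤ e)
    (hS : Q ≤ S) (hS1 : S ≤ 8 / 3 * ω ^ 2) (hT : pp ((di + e) * √S - 0.5773 * e) ^ 2 ≤ 4 * e * T) :
    pp (di * pp Q - e * pp (-Q')) * pp y ≤ pp Q * T := by
  have hT0 : 0 ≤ T := by
    by_contra h
    push Not at h
    have := sq_nonneg (pp ((di + e) * √S - 0.5773 * e))
    nlinarith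
  have hR : 0 ≤ pp Q * T := mul_nonneg (pp_nonneg _) hT0
  rcases le_or_gt y 0 with hy | hy
  · have e1 : pp y = 0 := max_eq_right hy
    rw [e1, mul_zero]
    exact hR
  rcases le_or_gt (di * pp Q - e * pp (-Q')) 0 with hN | hN
  · have e1 : pp (di * pp Q - e * pp (-Q')) = 0 := max_eq_right hN
    rw [e1, zero_mul]
    exact hR
  rcases le_or_gt Q 0 with hQ0 | hQ0
  · exfalso
    have e1 : pp Q = 0 := max_eq_right hQ0
    rw [e1] at hN
    have := mul_nonneg he.le (pp_nonneg (-Q'))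
    linarith
  have eQ : pp Q = Q := max_eq_left hQ0.le
  have ey : pp y = y := max_eq_left hy.le
  have eN : pp (di * pp Q - e * pp (-Q')) = di * pp Q - e * pp (-Q') := max_eq_left hN.le
  rw [eN, ey, eQ]
  rw [eQ] at hN
  have h2 : di * Q - e * pp (-Q') ≤ (di + e) * Q - e * (y - x) := by
    have := mul_le_mul_of_nonneg_left (le_pp (-Q')) he.le
    rw [hQ'] at this
    rw [hQ']
    linarith
  rcases le_or_gt 0 x with hx | hx
  · exfalso
    rcases le_or_gt x y with hxy | hxy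
    · have h3 := third_pos' h1 hx a3 a4 a5 a6 hω hω1 hxy (S := S) (by rw [← hQ]; exact hS) hS1
      rw [← hQ] at h3
      have h4 := mul_le_mul_of_nonneg_left h3 (by linarith : 0 ≤ di + e)
      have h5 := mul_le_mul_of_nonneg_right hw (sub_nonneg.2 hxy)
      nlinarith
    · have h3 := third_pos h1 hx hy.le a1 a2 a3 a4 a5 a6
      rw [← hQ] at h3
      linarith
  obtain ⟨β, hβ⟩ : ∃ β, β = -x := ⟨_, rfl⟩
  have hx' : x = -β := by linarith
  subst hx'
  have hβ0 : 0 < β := by linarith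
  have hs : 0 < di + e := by linarith
  have hN2 : 0 < (di + e) * Q - e * (y + β) := by linarith
  have l : ω * (y + β) < Q := by
    have h4 : ω * (di + e) * (y + β) ≤ e * (y + β) := mul_le_mul_of_nonneg_right hw (by linarith)
    have h5 : (di + e) * (ω * (y + β)) < (di + e) * Q := by nlinarith
    exact lt_of_mul_lt_mul_left h5 hs.le
  have hv : v = 1 + β - y - u := by linarith
  have c1 : Q ≤ 3 * β ^ 2 - 2 * β * y + y ^ 2 := by
    rw [hQ, hv]
    exact third_c1 (mul_nonneg (by linarith) (by linarith))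
  have c2 : 2 * Q ≤ 3 * β - y + 3 / 2 * β ^ 2 + 3 / 2 * y ^ 2 - β * y := by
    have k3 : (u - (1 + β - y - u)) ^ 2 ≤ 1 := by
      rw [sq_le_one_iff_abs_le_one, abs_le]
      constructor <;> linarith
    rw [hQ, hv]
    exact third_c2 k3
  have h5 := third_beta' hβ0 hy hQ0 hω hω1 (hS.trans hS1) c1 c2 l
  have hr2 : √Q ^ 2 = Q := Real.sq_sqrt hQ0.le
  have hr0 : 0 < √Q := Real.sqrt_pos.2 hQ0
  have hrS : √Q ≤ √S := Real.sqrt_le_sqrt hS
  have h6 : 0.5773 * √Q ≤ β := third_r hβ0 hr0 (by rw [hr2]; exact h5)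
  have h7 : (di + e) * Q - e * β ≤ √Q * pp ((di + e) * √S - 0.5773 * e) :=
    third_l he hs hr0 hr2 h6 hrS (le_pp _)
  have h8 : 0 < (di + e) * Q - e * β := by
    have := mul_pos he hy
    linarith
  have h10 : (di * Q - e * pp (-Q')) * y ≤ ((di + e) * Q - e * (y + β)) * y := by
    apply mul_le_mul_of_nonneg_right _ hy.le
    linarith
  exact h10.trans (third_f he hQ0 hr2 h7 h8 hT)

end Helper22.Cpd
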