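import Pool.Agent.Helper14.MEI4.ZL
import Pool.Agent.Helper73.MEI.FV4

/-!
# Project MEI (M2), track B: affine bounds of the share of a face over the box of the leaks

`FN` = the numbers of a face (units `10⁻⁶`), `phk` = a kernel check at the eight corners of the box
of the leaks; `FN.phi` = the bounds of the share `phiN` and of its products, affine in the total
leak. The functions are convex in each leak, so the corners are enough.
-/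

set_option autoImplicit false

namespace Helper22.VR

open Helper14.MEI4 Pool.Agent.Helper73.MEI.SideP Pool.Agent.Helper73.MEI.ArCor
open Pool.Agent.Helper55.Apex (nc)
open Helper29.MEI (vx0 vx1 vx2)

/-- the numbers of a face, units `10⁻⁶` -/
structure FN where
  tt : Fin 3 → ℕ
  rb : ℕ
  f0 : ℕ
  f1 : ℕ
  g0 : ℕ
  g1 : ℕ
  c0 : ℕ
  c1 : ℕ
  d0 : ℕ
  d1 : ℕ
  l0 : ℕ
  l1 : ℕ
  om : ℕ
  r1 : ℕ

/-- a cubic with nonnegative nonlinear part, from its ends -/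
theorem cub_le {h0 h1 h2 h3 x t : ℝ} (p2 : 0 ≤ h2) (p3 : 0 ≤ h3) (hx : 0 ≤ x) (hxt : x ≤ t)
    (e0 : h0 ≤ 0) (e1 : h0 + h1 * t + h2 * t ^ 2 + h3 * t ^ 3 ≤ 0) :
    h0 + h1 * x + h2 * x ^ 2 + h3 * x ^ 3 ≤ 0 := by
  rcases eq_or_lt_of_le (hx.trans hxt) with h | h
  · have hx0 : x = 0 := le_antisymm (by rw [h]; exact hxt) hx
    rw [hx0]
    linarith
  · have k0 : (t - x) * h0 ≤ 0 := mul_nonpos_of_nonneg_of_nonpos (sub_nonneg.2 hxt) e0
    have k1 : x * (h0 + h1 * t + h2 * t ^ 2 + h3 * t ^ 3) ≤ 0 :=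
      mul_nonpos_of_nonneg_of_nonpos hx e1
    have k2 : 0 ≤ h2 * (t * x * (t - x)) :=
      mul_nonneg p2 (mul_nonneg (mul_nonneg h.le hx) (sub_nonneg.2 hxt))
    have k3 : 0 ≤ h3 * (t * x * (t - x) * (t + x)) :=
      mul_nonneg p3 (mul_nonneg (mul_nonneg (mul_nonneg h.le hx) (sub_nonneg.2 hxt)) (by linarith))
    have key : t * (h0 + h1 * x + h2 * x ^ 2 + h3 * x ^ 3) ≤ t * 0 := by
      have e : t * (h0 + h1 * x + h2 * x ^ 2 + h3 * x ^ 3) =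
          (t - x) * h0 + x * (h0 + h1 * t + h2 * t ^ 2 + h3 * t ^ 3)
            - h2 * (t * x * (t - x)) - h3 * (t * x * (t - x) * (t + x)) := by ring
      rw [e]
      linarith
    exact le_of_mul_le_mul_left key h

/-- the function: `C (c + λ x)² (μ + ν x) + D T² (f + g T) - E (f + g T)` -/
noncomputable def Gf (C c l0 l1 l2 m n0 n1 n2 D E f g x y z : ℝ) : ℝ :=
  C * (c + l0 * x + l1 * y + l2 * z) ^ 2 * (m + n0 * x + n1 * y + n2 * z)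
    + D * (x + y + z) ^ 2 * (f + g * (x + y + z)) - E * (f + g * (x + y + z))

/-- one variable -/
theorem Gf_x {C c l0 l1 l2 m n0 n1 n2 D E f g x y z t : ℝ} (hC : 0 ≤ C) (hc : 0 ≤ c)
    (hl0 : 0 ≤ l0) (hl1 : 0 ≤ l1) (hl2 : 0 ≤ l2) (hm : 0 ≤ m) (hn0 : 0 ≤ n0) (hn1 : 0 ≤ n1)
    (hn2 : 0 ≤ n2) (hD : 0 ≤ D) (hf : 0 ≤ f) (hg : 0 ≤ g) (hx : 0 ≤ x) (hxt : x ≤ t)
    (hy : 0 ≤ y) (hz : 0 ≤ z) (e0 : Gf C c l0 l1 l2 m n0 n1 n2 D E f g 0 y z ≤ 0)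
    (e1 : Gf C c l0 l1 l2 m n0 n1 n2 D E f g t y z ≤ 0) :
    Gf C c l0 l1 l2 m n0 n1 n2 D E f g x y z ≤ 0 := by
  obtain ⟨l, hl⟩ : ∃ l, l = c + l1 * y + l2 * z := ⟨_, rfl⟩
  obtain ⟨u, hu⟩ : ∃ u, u = m + n1 * y + n2 * z := ⟨_, rfl⟩
  obtain ⟨s, hs⟩ : ∃ s, s = y + z := ⟨_, rfl⟩
  have l0' : 0 ≤ l := by rw [hl]; positivity
  have u0' : 0 ≤ u := by rw [hu]; positivity
  have s0' : 0 ≤ s := by rw [hs]; positivity
  have e : ∀ x, Gf C c l0 l1 l2 m n0 n1 n2 D E f g x y z =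
      (C * l ^ 2 * u + D * s ^ 2 * (f + g * s) - E * (f + g * s))
      + (C * (2 * l * l0 * u + l ^ 2 * n0) + D * (2 * s * (f + g * s) + s ^ 2 * g) - E * g) * x
      + (C * (l0 ^ 2 * u + 2 * l * l0 * n0) + D * ((f + g * s) + 2 * s * g)) * x ^ 2
      + (C * (l0 ^ 2 * n0) + D * g) * x ^ 3 := by
    intro x
    unfold Gf
    rw [hl, hu, hs]
    ring
  rw [e] at e0 e1 ⊢
  refine cub_le (by positivity) (by positivity) hx hxt ?_ e1
  linarith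

theorem Gf_yx (C c l0 l1 l2 m n0 n1 n2 D E f g x y z : ℝ) :
    Gf C c l0 l1 l2 m n0 n1 n2 D E f g x y z = Gf C c l1 l0 l2 m n1 n0 n2 D E f g y x z := by
  unfold Gf
  ring

theorem Gf_zx (C c l0 l1 l2 m n0 n1 n2 D E f g x y z : ℝ) :
    Gf C c l0 l1 l2 m n0 n1 n2 D E f g x y z = Gf C c l2 l1 l0 m n2 n1 n0 D E f g z y x := by
  unfold Gf
  ring

/-- **from the eight corners of the box** -/
theorem Gf_box {C c l0 l1 l2 m n0 n1 n2 D E f g : ℝ} (hC : 0 ≤ C) (hc : 0 ≤ c)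
    (hl0 : 0 ≤ l0) (hl1 : 0 ≤ l1) (hl2 : 0 ≤ l2) (hm : 0 ≤ m) (hn0 : 0 ≤ n0) (hn1 : 0 ≤ n1)
    (hn2 : 0 ≤ n2) (hD : 0 ≤ D) (hf : 0 ≤ f) (hg : 0 ≤ g) {tt : Fin 3 → ℕ}
    (hv : ∀ r < 8, Gf C c l0 l1 l2 m n0 n1 n2 D E f g ((vxk tt 0 r : ℝ) / 1000000)
      ((vxk tt 1 r : ℝ) / 1000000) ((vxk tt 2 r : ℝ) / 1000000) ≤ 0)
    {x y z : ℝ} (hx : 0 ≤ x) (hxt : x ≤ (tt 0 : ℝ) / 1000000) (hy : 0 ≤ y)
    (hyt : y ≤ (tt 1 : ℝ) / 1000000) (hz : 0 ≤ z) (hzt : z ≤ (tt 2 : ℝ) / 1000000) :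
    Gf C c l0 l1 l2 m n0 n1 n2 D E f g x y z ≤ 0 := by
  have t0 : (0 : ℝ) ≤ (tt 0 : ℝ) / 1000000 := by positivity
  have t1 : (0 : ℝ) ≤ (tt 1 : ℝ) / 1000000 := by positivity
  have t2 : (0 : ℝ) ≤ (tt 2 : ℝ) / 1000000 := by positivity
  have e0 : ∀ r, vxk tt 0 r = vx0 0 (tt 0) r := fun r => rfl
  have e1 : ∀ r, vxk tt 1 r = vx1 0 (tt 1) r := fun r => rfl
  have e2 : ∀ r, vxk tt 2 r = vx2 0 (tt 2) r := fun r => rfl
  simp only [e0, e1, e2, vx0, vx1, vx2] at hv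
  have v0 := hv 0 (by norm_num)
  have v1 := hv 1 (by norm_num)
  have v2 := hv 2 (by norm_num)
  have v3 := hv 3 (by norm_num)
  have v4 := hv 4 (by norm_num)
  have v5 := hv 5 (by norm_num)
  have v6 := hv 6 (by norm_num)
  have v7 := hv 7 (by norm_num)
  norm_num at v0 v1 v2 v3 v4 v5 v6 v7
  -- first variable
  have sx : ∀ y z, 0 ≤ y → 0 ≤ z → Gf C c l0 l1 l2 m n0 n1 n2 D E f g 0 y z ≤ 0 →
      Gf C c l0 l1 l2 m n0 n1 n2 D E f g ((tt 0 : ℝ) / 1000000) y z ≤ 0 →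
      Gf C c l0 l1 l2 m n0 n1 n2 D E f g x y z ≤ 0 := fun y z hy hz h0 h1 =>
    Gf_x hC hc hl0 hl1 hl2 hm hn0 hn1 hn2 hD hf hg hx hxt hy hz h0 h1
  have sy : ∀ x z, 0 ≤ x → 0 ≤ z → Gf C c l0 l1 l2 m n0 n1 n2 D E f g x 0 z ≤ 0 →
      Gf C c l0 l1 l2 m n0 n1 n2 D E f g x ((tt 1 : ℝ) / 1000000) z ≤ 0 →
      Gf C c l0 l1 l2 m n0 n1 n2 D E f g x y z ≤ 0 := fun x z hx hz h0 h1 => by
    rw [Gf_yx] at h0 h1 ⊢
    exact Gf_x hC hc hl1 hl0 hl2 hm hn1 hn0 hn2 hD hf hg hy hyt hx hz h0 h1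
  have sz : ∀ x y, 0 ≤ x → 0 ≤ y → Gf C c l0 l1 l2 m n0 n1 n2 D E f g x y 0 ≤ 0 →
      Gf C c l0 l1 l2 m n0 n1 n2 D E f g x y ((tt 2 : ℝ) / 1000000) ≤ 0 →
      Gf C c l0 l1 l2 m n0 n1 n2 D E f g x y z ≤ 0 := fun x y hx hy h0 h1 => by
    rw [Gf_zx] at h0 h1 ⊢
    exact Gf_x hC hc hl2 hl1 hl0 hm hn2 hn1 hn0 hD hf hg hz hzt hy hx h0 h1
  refine sz x y hx hy ?_ ?_
  · refine sy x 0 hx le_rfl ?_ ?_
    · exact sx 0 0 le_rfl le_rfl v0 v1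
    · exact sx _ 0 t1 le_rfl v2 v3
  · refine sy x _ hx t2 ?_ ?_
    · exact sx 0 _ le_rfl t2 v4 v5
    · exact sx _ _ t1 t2 v6 v7

/-- a corner of the box: the square of a leak -/
theorem vxk_sq (tt : Fin 3 → ℕ) (k : Fin 3) (r : ℕ) : tt k * vxk tt k r = vxk tt k r * vxk tt k r := by
  have e0 : vxk tt 0 r = vx0 0 (tt 0) r := rfl
  have e1 : vxk tt 1 r = vx1 0 (tt 1) r := rfl
  have e2 : vxk tt 2 r = vx2 0 (tt 2) r := rfl
  have key : k = 0 ∨ k = 1 ∨ k = 2 := by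
    fin_cases k <;> simp
  rcases key with rfl | rfl | rfl
  · rw [e0]
    unfold vx0
    split_ifs <;> simp
  · rw [e1]
    unfold vx1
    split_ifs <;> simp
  · rw [e2]
    unfold vx2
    split_ifs <;> simp

/-- the check at a corner: `phi (m0 + m1 n_k) / 3000000 ≤ F0 + F1 T` -/
def phv (rb : ℕ) (tt : Fin 3 → ℕ) (m0 m1 : ℕ) (k : Fin 3) (F0 F1 r : ℕ) : Bool :=
  Nat.ble (226276 * rb * (35000000000000 + 27000000 * (vxk tt 0 r + vxk tt 1 r + vxk tt 2 r)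
      + 20 * (vxk tt 0 r * vxk tt 0 r + vxk tt 1 r * vxk tt 1 r + vxk tt 2 r * vxk tt 2 r)) ^ 2
      * (m0 + m1 * vxk tt k r)
      + 35251200000000000000 * ((vxk tt 0 r + vxk tt 1 r + vxk tt 2 r) ^ 2
        * (F0 * 1000000 + F1 * (vxk tt 0 r + vxk tt 1 r + vxk tt 2 r))))
    (35251200000000000000 * (4000000000000
      * (F0 * 1000000 + F1 * (vxk tt 0 r + vxk tt 1 r + vxk tt 2 r))))

/-- the check in real numbers -/
theorem phv_le {rb : ℕ} {tt : Fin 3 → ℕ} {m0 m1 : ℕ} {k : Fin 3} {F0 F1 r : ℕ}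
    (h : phv rb tt m0 m1 k F0 F1 r = true) :
    Gf (22.6276 * ((rb : ℝ) / 1000000)) (35 / 48) (9 / 16 + 5 / 12 * ((tt 0 : ℝ) / 1000000))
      (9 / 16 + 5 / 12 * ((tt 1 : ℝ) / 1000000)) (9 / 16 + 5 / 12 * ((tt 2 : ℝ) / 1000000))
      ((m0 : ℝ) / 3000000) (if k = 0 then (m1 : ℝ) / 3 else 0) (if k = 1 then (m1 : ℝ) / 3 else 0)
      (if k = 2 then (m1 : ℝ) / 3 else 0) 0.51 2.04 ((F0 : ℝ) / 1000000) ((F1 : ℝ) / 1000000)
      ((vxk tt 0 r : ℝ) / 1000000) ((vxk tt 1 r : ℝ) / 1000000) ((vxk tt 2 r : ℝ) / 1000000)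
      ≤ 0 := by
  unfold phv at h
  rw [Nat.ble_eq] at h
  have h' := (Nat.cast_le (α := ℝ)).2 h
  push_cast at h'
  have s0 : (tt 0 : ℝ) * (vxk tt 0 r : ℝ) = (vxk tt 0 r : ℝ) * (vxk tt 0 r : ℝ) := by
    exact_mod_cast vxk_sq tt 0 r
  have s1 : (tt 1 : ℝ) * (vxk tt 1 r : ℝ) = (vxk tt 1 r : ℝ) * (vxk tt 1 r : ℝ) := by
    exact_mod_cast vxk_sq tt 1 r
  have s2 : (tt 2 : ℝ) * (vxk tt 2 r : ℝ) = (vxk tt 2 r : ℝ) * (vxk tt 2 r : ℝ) := by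
    exact_mod_cast vxk_sq tt 2 r
  have key : k = 0 ∨ k = 1 ∨ k = 2 := by
    fin_cases k <;> simp
  obtain ⟨x, hx⟩ : ∃ x : ℝ, x = (vxk tt 0 r : ℝ) := ⟨_, rfl⟩
  obtain ⟨y, hy⟩ : ∃ x : ℝ, x = (vxk tt 1 r : ℝ) := ⟨_, rfl⟩
  obtain ⟨z, hz⟩ : ∃ x : ℝ, x = (vxk tt 2 r : ℝ) := ⟨_, rfl⟩
  obtain ⟨L, hL⟩ : ∃ L : ℝ, L = 35000000000000 + 27000000 * (x + y + z)
    + 20 * (x * x + y * y + z * z) := ⟨_, rfl⟩
  have hlin : 35 / 48 + (9 / 16 + 5 / 12 * ((tt 0 : ℝ) / 1000000)) * (x / 1000000)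
      + (9 / 16 + 5 / 12 * ((tt 1 : ℝ) / 1000000)) * (y / 1000000)
      + (9 / 16 + 5 / 12 * ((tt 2 : ℝ) / 1000000)) * (z / 1000000) = L / 48000000000000 := by
    rw [← hx] at s0
    rw [← hy] at s1
    rw [← hz] at s2
    rw [hL]
    linear_combination (5 / 12 / 1000000000000) * s0 + (5 / 12 / 1000000000000) * s1
      + (5 / 12 / 1000000000000) * s2
  unfold Gf
  rw [← hx, ← hy, ← hz, hlin]
  have fin : ∀ M : ℝ, 226276 * (rb : ℝ) * L ^ 2 * M + 35251200000000000000 * ((x + y + z) ^ 2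
        * ((F0 : ℝ) * 1000000 + (F1 : ℝ) * (x + y + z))) ≤
      35251200000000000000 * (4000000000000 * ((F0 : ℝ) * 1000000 + (F1 : ℝ) * (x + y + z))) →
      22.6276 * ((rb : ℝ) / 1000000) * (L / 48000000000000) ^ 2 * (M / 3000000)
        + 0.51 * (x / 1000000 + y / 1000000 + z / 1000000) ^ 2 * ((F0 : ℝ) / 1000000
          + (F1 : ℝ) / 1000000 * (x / 1000000 + y / 1000000 + z / 1000000))
        - 2.04 * ((F0 : ℝ) / 1000000
          + (F1 : ℝ) / 1000000 * (x / 1000000 + y / 1000000 + z / 1000000)) ≤ 0 := by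
    intro M hM
    have e : 22.6276 * ((rb : ℝ) / 1000000) * (L / 48000000000000) ^ 2 * (M / 3000000)
        + 0.51 * (x / 1000000 + y / 1000000 + z / 1000000) ^ 2 * ((F0 : ℝ) / 1000000
          + (F1 : ℝ) / 1000000 * (x / 1000000 + y / 1000000 + z / 1000000))
        - 2.04 * ((F0 : ℝ) / 1000000
          + (F1 : ℝ) / 1000000 * (x / 1000000 + y / 1000000 + z / 1000000)) =
        (1 / (6912 * 10 ^ 40)) * ((226276 * (rb : ℝ) * L ^ 2 * M + 35251200000000000000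
          * ((x + y + z) ^ 2 * ((F0 : ℝ) * 1000000 + (F1 : ℝ) * (x + y + z))))
          - 35251200000000000000 * (4000000000000 * ((F0 : ℝ) * 1000000
            + (F1 : ℝ) * (x + y + z)))) := by
      ring
    rw [e]
    exact mul_nonpos_of_nonneg_of_nonpos (by positivity) (sub_nonpos.2 hM)
  rcases key with rfl | rfl | rfl
  · rw [← hx, ← hy, ← hz, ← hL] at h'
    rw [if_pos rfl, if_neg (by decide), if_neg (by decide)]
    refine le_trans (le_of_eq ?_) (fin _ h')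
    ring
  · rw [← hx, ← hy, ← hz, ← hL] at h'
    rw [if_neg (by decide), if_pos rfl, if_neg (by decide)]
    refine le_trans (le_of_eq ?_) (fin _ h')
    ring
  · rw [← hx, ← hy, ← hz, ← hL] at h'
    rw [if_neg (by decide), if_neg (by decide), if_pos rfl]
    refine le_trans (le_of_eq ?_) (fin _ h')
    ring

/-- the product of the share with an affine function of a leak -/
theorem phi_mul {N : Fin 3 → Fin 3 → ℝ} (hN : ∀ k m, 0 ≤ N k m) {rb : ℕ} {tt : Fin 3 → ℕ}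
    (hn : ∀ k, nc N k ≤ (tt k : ℝ) / 1000000) {m0 m1 : ℕ} {k : Fin 3} {F0 F1 : ℕ}
    (hk : ∀ r < 8, phv rb tt m0 m1 k F0 F1 r = true) (hT2 : TN N < 2) :
    phiN 2.04 ((rb : ℝ) / 1000000) (TN N) (QN N) * ((m0 : ℝ) / 3000000 + (m1 : ℝ) / 3 * nc N k) ≤
      (F0 : ℝ) / 1000000 + (F1 : ℝ) / 1000000 * TN N := by
  have n0 := nc_nonneg hN 0
  have n1 := nc_nonneg hN 1
  have n2 := nc_nonneg hN 2
  have hT0 : 0 ≤ TN N := TN_nonneg hN
  have hD : 0 < 1 - TN N ^ 2 / 4 := by nlinarith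
  have key := Gf_box (C := 22.6276 * ((rb : ℝ) / 1000000)) (c := 35 / 48)
    (l0 := 9 / 16 + 5 / 12 * ((tt 0 : ℝ) / 1000000))
    (l1 := 9 / 16 + 5 / 12 * ((tt 1 : ℝ) / 1000000))
    (l2 := 9 / 16 + 5 / 12 * ((tt 2 : ℝ) / 1000000)) (m := (m0 : ℝ) / 3000000)
    (n0 := if k = 0 then (m1 : ℝ) / 3 else 0) (n1 := if k = 1 then (m1 : ℝ) / 3 else 0)
    (n2 := if k = 2 then (m1 : ℝ) / 3 else 0) (D := 0.51) (E := 2.04)
    (f := (F0 : ℝ) / 1000000) (g := (F1 : ℝ) / 1000000) (by positivity) (by norm_num)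
    (by positivity) (by positivity) (by positivity) (by positivity)
    (by split_ifs <;> positivity) (by split_ifs <;> positivity) (by split_ifs <;> positivity)
    (by norm_num) (by positivity) (by positivity) (tt := tt) (fun r hr => phv_le (hk r hr))
    n0 (hn 0) n1 (hn 1) n2 (hn 2)
  have hm : (m0 : ℝ) / 3000000 + (if k = 0 then (m1 : ℝ) / 3 else 0) * nc N 0
      + (if k = 1 then (m1 : ℝ) / 3 else 0) * nc N 1
      + (if k = 2 then (m1 : ℝ) / 3 else 0) * nc N 2 =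
      (m0 : ℝ) / 3000000 + (m1 : ℝ) / 3 * nc N k := by
    have key : k = 0 ∨ k = 1 ∨ k = 2 := by
      fin_cases k <;> simp
    rcases key with rfl | rfl | rfl
    · rw [if_pos rfl, if_neg (by decide), if_neg (by decide)]
      ring
    · rw [if_neg (by decide), if_pos rfl, if_neg (by decide)]
      ring
    · rw [if_neg (by decide), if_neg (by decide), if_pos rfl]
      ring
  unfold Gf at key
  rw [hm] at key
  obtain ⟨M, hM⟩ : ∃ M, M = (m0 : ℝ) / 3000000 + (m1 : ℝ) / 3 * nc N k := ⟨_, rfl⟩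
  have hM0 : 0 ≤ M := by
    have := nc_nonneg hN k
    rw [hM]
    positivity
  rw [← hM] at key ⊢
  have hQ0 : 0 ≤ QN N := QN_nonneg
  have hQ : 35 / 48 + 9 / 16 * TN N + 5 / 12 * QN N ≤
      35 / 48 + (9 / 16 + 5 / 12 * ((tt 0 : ℝ) / 1000000)) * nc N 0
        + (9 / 16 + 5 / 12 * ((tt 1 : ℝ) / 1000000)) * nc N 1
        + (9 / 16 + 5 / 12 * ((tt 2 : ℝ) / 1000000)) * nc N 2 := by
    have q0 := mul_le_mul_of_nonneg_right (hn 0) n0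
    have q1 := mul_le_mul_of_nonneg_right (hn 1) n1
    have q2 := mul_le_mul_of_nonneg_right (hn 2) n2
    unfold TN QN
    linarith
  have hsq := mul_le_mul_of_nonneg_right (mul_le_mul_of_nonneg_left
    (pow_le_pow_left₀ (by positivity) hQ 2)
    (show (0 : ℝ) ≤ 22.6276 * ((rb : ℝ) / 1000000) by positivity)) hM0
  have eT : nc N 0 + nc N 1 + nc N 2 = TN N := rfl
  rw [eT] at key
  unfold phiN
  rw [div_mul_eq_mul_div, div_le_iff₀ (by positivity)]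
  linarith

/-- the share from below, affine in the total leak -/
theorem phi_low {N : Fin 3 → Fin 3 → ℝ} (hN : ∀ k m, 0 ≤ N k m) {rb g0 g1 : ℕ}
    (h0 : g0 * (2304 * 20400) ≤ 226276 * rb * 1225) (h1 : g1 * (768 * 20400) ≤ 226276 * rb * 630)
    (hT2 : TN N < 2) :
    (g0 : ℝ) / 1000000 + (g1 : ℝ) / 1000000 * TN N ≤
      phiN 2.04 ((rb : ℝ) / 1000000) (TN N) (QN N) := by
  have hT0 : 0 ≤ TN N := TN_nonneg hN
  have hQ0 : 0 ≤ QN N := QN_nonneg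
  have hD : 0 < 1 - TN N ^ 2 / 4 := by nlinarith
  have h0' : (g0 : ℝ) * (2304 * 20400) ≤ 226276 * rb * 1225 := by exact_mod_cast h0
  have h1' : (g1 : ℝ) * (768 * 20400) ≤ 226276 * rb * 630 := by exact_mod_cast h1
  have hr : (0 : ℝ) ≤ (rb : ℝ) := by positivity
  unfold phiN
  rw [le_div_iff₀ (by positivity)]
  have a1 : (g0 : ℝ) / 1000000 + (g1 : ℝ) / 1000000 * TN N ≤
      22.6276 * ((rb : ℝ) / 1000000) * (1225 / 2304 + 630 / 768 * TN N) / 2.04 := by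
    have := mul_le_mul_of_nonneg_right h1' hT0
    rw [le_div_iff₀ (by norm_num)]
    linarith
  have hL : 0 ≤ (g0 : ℝ) / 1000000 + (g1 : ℝ) / 1000000 * TN N := by positivity
  have a2 : ((g0 : ℝ) / 1000000 + (g1 : ℝ) / 1000000 * TN N) * (2.04 * (1 - TN N ^ 2 / 4)) ≤
      ((g0 : ℝ) / 1000000 + (g1 : ℝ) / 1000000 * TN N) * 2.04 := by
    refine mul_le_mul_of_nonneg_left ?_ hL
    nlinarith [sq_nonneg (TN N)]
  have a3 : (1225 / 2304 + 630 / 768 * TN N) ≤ (35 / 48 + 9 / 16 * TN N + 5 / 12 * QN N) ^ 2 := by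
    nlinarith [sq_nonneg (TN N), mul_nonneg hT0 hQ0, sq_nonneg (9 / 16 * TN N + 5 / 12 * QN N)]
  have a4 := mul_le_mul_of_nonneg_left a3 (show (0 : ℝ) ≤ 22.6276 * ((rb : ℝ) / 1000000) by
    positivity)
  have a5 : ((g0 : ℝ) / 1000000 + (g1 : ℝ) / 1000000 * TN N) * 2.04 ≤
      22.6276 * ((rb : ℝ) / 1000000) * (1225 / 2304 + 630 / 768 * TN N) := by
    rw [le_div_iff₀ (by norm_num)] at a1
    exact a1
  linarith

/-- **the kernel check of the numbers of a face** -/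
def phk (F : FN) : Bool :=
  ((List.range 8).all fun r =>
    phv F.rb F.tt 3000000 0 0 F.f0 F.f1 r &&
    (phv F.rb F.tt (3 * F.om) 2 0 F.c0 F.c1 r && phv F.rb F.tt (3 * F.om) 2 1 F.c0 F.c1 r &&
      phv F.rb F.tt (3 * F.om) 2 2 F.c0 F.c1 r) &&
    (phv F.rb F.tt (3 * F.om) 3 0 F.d0 F.d1 r && phv F.rb F.tt (3 * F.om) 3 1 F.d0 F.d1 r &&
      phv F.rb F.tt (3 * F.om) 3 2 F.d0 F.d1 r)) &&
  (Nat.ble (F.g0 * (2304 * 20400)) (226276 * F.rb * 1225) &&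
    Nat.ble (F.g1 * (768 * 20400)) (226276 * F.rb * 630)) &&
  (Nat.ble 1000000 (F.g0 + F.l0) && Nat.ble F.g0 1000000 &&
    Nat.ble (F.r1 * (1000000 - F.g0)) (1000000 * (F.l1 + F.g1))) &&
  Nat.blt (F.tt 0 + F.tt 1 + F.tt 2) 2000000

/-- **the bounds of the share of a face**, affine in the total leak -/
structure FN.Sp (F : FN) (N : Fin 3 → Fin 3 → ℝ) (φ : ℝ) : Prop where
  lo : (F.g0 : ℝ) / 1000000 + (F.g1 : ℝ) / 1000000 * TN N ≤ φ
  hi : φ ≤ (F.f0 : ℝ) / 1000000 + (F.f1 : ℝ) / 1000000 * TN N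
  c : ∀ k, φ * ((F.om : ℝ) / 1000000 + 2 / 3 * nc N k) ≤
    (F.c0 : ℝ) / 1000000 + (F.c1 : ℝ) / 1000000 * TN N
  d : ∀ k, φ * ((F.om : ℝ) / 1000000 + nc N k) ≤
    (F.d0 : ℝ) / 1000000 + (F.d1 : ℝ) / 1000000 * TN N
  l : φ ≤ 1 → ∀ k, (1 - φ) * (1 + (F.r1 : ℝ) / 1000000 * nc N k) ≤
    (F.l0 : ℝ) / 1000000 + (F.l1 : ℝ) / 1000000 * TN N

theorem FN.sp {F : FN} (h : phk F = true) {N : Fin 3 → Fin 3 → ℝ} (hN : ∀ k m, 0 ≤ N k m)
    (hn : ∀ k, nc N k ≤ (F.tt k : ℝ) / 1000000) {φ : ℝ}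
    (hφ : φ = phiN 2.04 ((F.rb : ℝ) / 1000000) (TN N) (QN N)) : F.Sp N φ := by
  unfold phk at h
  simp only [Bool.and_eq_true, List.all_eq_true, List.mem_range, Nat.ble_eq, Nat.blt_eq] at h
  obtain ⟨⟨⟨h1, h2, h3⟩, ⟨h4, h5⟩, h6⟩, h7⟩ := h
  have hT0 : 0 ≤ TN N := TN_nonneg hN
  have h7' : ((F.tt 0 : ℝ) + (F.tt 1 : ℝ) + (F.tt 2 : ℝ)) < 2000000 := by exact_mod_cast h7
  have hT2 : TN N < 2 := by
    have a0 := hn 0
    have a1 := hn 1
    have a2 := hn 2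
    unfold TN
    linarith
  have lo : (F.g0 : ℝ) / 1000000 + (F.g1 : ℝ) / 1000000 * TN N ≤ φ := by
    rw [hφ]
    exact phi_low hN h2 h3 hT2
  have three : ∀ {P : Fin 3 → Prop}, P 0 → P 1 → P 2 → ∀ k, P k := by
    intro P p0 p1 p2 k
    have key : k = 0 ∨ k = 1 ∨ k = 2 := by
      fin_cases k <;> simp
    rcases key with rfl | rfl | rfl
    · exact p0
    · exact p1
    · exact p2
  refine ⟨lo, ?_, ?_, ?_, ?_⟩
  · have key := phi_mul hN hn (fun r hr => (h1 r hr).1.1) hT2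
    rw [← hφ] at key
    norm_num at key
    exact key
  · refine fun k => ?_
    have hk : ∀ k : Fin 3, ∀ r < 8, phv F.rb F.tt (3 * F.om) 2 k F.c0 F.c1 r = true :=
      three (fun r hr => (h1 r hr).1.2.1.1) (fun r hr => (h1 r hr).1.2.1.2)
        (fun r hr => (h1 r hr).1.2.2)
    have key := phi_mul hN hn (hk k) hT2
    rw [← hφ] at key
    push_cast at key
    refine le_trans (le_of_eq ?_) key
    ring
  · refine fun k => ?_
    have hk : ∀ k : Fin 3, ∀ r < 8, phv F.rb F.tt (3 * F.om) 3 k F.d0 F.d1 r = true :=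
      three (fun r hr => (h1 r hr).2.1.1) (fun r hr => (h1 r hr).2.1.2)
        (fun r hr => (h1 r hr).2.2)
    have key := phi_mul hN hn (hk k) hT2
    rw [← hφ] at key
    push_cast at key
    refine le_trans (le_of_eq ?_) key
    ring
  · intro hφ1 k
    have nk := nc_nonneg hN k
    have nT : nc N k ≤ TN N := by
      have n0 := nc_nonneg hN 0
      have n1 := nc_nonneg hN 1
      have n2 := nc_nonneg hN 2
      refine three (P := fun k => nc N k ≤ TN N) ?_ ?_ ?_ k <;>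
      · unfold TN
        linarith
    have c4 : (1000000 : ℝ) ≤ (F.g0 : ℝ) + (F.l0 : ℝ) := by exact_mod_cast h4
    have c5 : (F.g0 : ℝ) ≤ 1000000 := by exact_mod_cast h5
    have c6 : (F.r1 : ℝ) * (1000000 - (F.g0 : ℝ)) ≤ 1000000 * ((F.l1 : ℝ) + (F.g1 : ℝ)) := by
      have h8 := (Nat.cast_le (α := ℝ)).2 h6
      rw [Nat.cast_mul, Nat.cast_sub h5] at h8
      push_cast at h8
      exact h8
    have q : 0 ≤ 1 + (F.r1 : ℝ) / 1000000 * nc N k := by positivity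
    have s1 := mul_le_mul_of_nonneg_right (show 1 - φ ≤ 1 - ((F.g0 : ℝ) / 1000000
      + (F.g1 : ℝ) / 1000000 * TN N) by linarith) q
    refine s1.trans ?_
    have s2 : 0 ≤ (F.g1 : ℝ) / 1000000 * TN N * ((F.r1 : ℝ) / 1000000 * nc N k) := by positivity
    have s3 : (1 - (F.g0 : ℝ) / 1000000) * ((F.r1 : ℝ) / 1000000 * nc N k) ≤
        (1 - (F.g0 : ℝ) / 1000000) * ((F.r1 : ℝ) / 1000000 * TN N) := by
      refine mul_le_mul_of_nonneg_left (mul_le_mul_of_nonneg_left nT (by positivity)) ?_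
      linarith
    have s4 := mul_le_mul_of_nonneg_right c6 hT0
    nlinarith

end Helper22.VR
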