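import Pool.Agent.Helper22.MEI.VRA
import Pool.Agent.Helper22.MEI.VRP
import Pool.Agent.Helper49.MEI.VR
import Pool.Agent.Helper99.MEI.WT6
import Pool.Agent.Helper21.MEI.SkW

/-!
# Project MEI (M2), track B: the cost of a face from families of tables (vertex rows)

`VD` = the data of a face (numbers of the share, classes of the position of the apex, one family
of tables per class and corner, trees of the combination of the corners), `VD.Ok` = the kernel
checks; `vr_wcf` = the cost `WCF` of a placed body; `vr_wface` = the hypothesis `WFace` about the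
cost of a face.
-/

set_option autoImplicit false

namespace Helper22.VR

open Set Metric MeasureTheory Helper93.MEI Helper80.CW Helper14.CW Helper82.CW Helper82.M2
open Helper14.MEI2 Pool.Agent.Helper73.MEI Helper78.MEI Helper41.MEI
open Pool.Agent.Helper31.SR hiding qq
open Helper37.MEI Pool.Agent.Helper52.MEI
open Helper14.MEI4 Helper99.MEI Helper60.R8 Helper49.VR
open Helper60.R7 (U U_pos jj ll)
open Pool.Agent.Helper31.SR.IntC
open Pool.Agent.Helper73.MEI.SideP Pool.Agent.Helper73.MEI.ArCor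
open Pool.Agent.Helper55.Apex (nc)
open Pool.Agent.Helper55.ApexP (PN)
open Pool.Agent.Helper96.Kap (kap kap_nonneg)
open scoped RealInnerProductSpace

/-- **the data of a face**: classes `L` of the position of the apex; for a class `q`, a corner `k`
and a member `(r, b)` (corner `r` of the box of the leaks, bit `b` of the apex) the table `Q` and
the numbers `rN` of its rows, one row per vertex `i < n` of the levels -/
structure VD (n : ℕ) where
  F : Helper22.VR.FN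
  V6 : ℕ
  Sx : ℕ
  L : List ℕ
  Q : ℕ → Fin 3 → Fin 8 × Bool → Cor
  rN : ℕ → Fin 3 → ℕ → Bool → List RN
  As : ℕ → Fin 3 → List LT
  Vs : ℕ → Fin 3 → List VT
  a : ℕ → Fin 3 → ℕ
  n1 : ℕ → Fin 3 → ℕ
  nl : ℕ → Fin 3 → ℕ
  ne : ℕ → Fin 3 → ℕ
  t : Fin 4 → Fin 4
  vN : ℕ → Fin 4 → ℕ
  e : ℕ → ℕ → ℕ → Fin 3 → ℕ
  d : ℕ → ℕ → ℕ → Fin 3 → ℕ
  em : ℕ → ℕ → Fin 3 → ℕ
  V : ℕ → ℕ → ℕ
  A : ℕ → ℕ
  B : ℕ → Fin 3 → ℕ
  Tr : ℕ → ℕ → ZT

variable {n : ℕ}

/-- the numbers of the tables -/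
def tpF (F : Helper22.VR.FN) (V6 : ℕ) : TP :=
  ⟨F.c0, F.c1, F.d0, F.d1, 0, 1000000, 1000000, 1000000, 0, V6⟩

/-- the family of the class `q` and the corner `k` -/
def VD.C (D : VD n) (q : ℕ) (k : Fin 3) : CT (Fin 8 × Bool) :=
  ⟨D.Q q k, fun e => D.rN q k e.1 e.2, tpF D.F D.V6, D.As q k, D.Vs q k, (0 :: D.L).getD q 0,
    D.L.getD q 0, 0, 1000000, D.a q k, D.n1 q k, D.nl q k, D.ne q k⟩

/-- the affine functions of the leaks -/
def gb (F : Helper22.VR.FN) : GA := ⟨1000000 - F.g0, fun _ => 0, fun _ => F.g1⟩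
def gt (F : Helper22.VR.FN) : GA := ⟨F.l0, fun _ => F.l1, fun _ => 0⟩
def gp (F : Helper22.VR.FN) : GA := ⟨2 * F.f0, fun _ => 2 * F.f1, fun _ => 0⟩

/-- the check of the numbers of a face -/
def VD.num (D : VD n) (e1 : ℕ) : Bool :=
  ((List.range n).all fun i =>
    Nat.ble (D.vN i 0) D.Sx && Nat.ble (D.vN i 1) D.Sx && Nat.ble (D.vN i 2) D.Sx &&
    Nat.ble (D.vN i 3) D.Sx &&
    Nat.ble (D.vN i 0 + D.vN i 1 + D.vN i 2 + D.vN i 3) 100000 &&
    Nat.ble (D.vN i (D.t 1)) (6 * D.V6) && Nat.ble (D.vN i (D.t 2)) (6 * D.V6) &&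
    Nat.ble (D.vN i (D.t 3)) (6 * D.V6)) &&
  (Nat.ble ((1500000 + 2 * D.Sx) * (2000000 - D.F.om) ^ 2) 4000000000000000000 &&
    Nat.ble D.F.om 1000000) &&
  (Nat.ble (D.F.tt 0) 500000 && Nat.ble (D.F.tt 1) 500000 && Nat.ble (D.F.tt 2) 500000) &&
  (Nat.ble (2000000 + D.F.tt 0) (2 * e1) && Nat.ble (2000000 + D.F.tt 1) (2 * e1) &&
    Nat.ble (2000000 + D.F.tt 2) (2 * e1))

/-- **the kernel checks of the data of a face** -/
structure VD.Ok (D : VD n) (c0 c1 e1 : ℕ) : Prop where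
  phi : phk D.F = true
  num : D.num e1 = true
  L0 : D.L ≠ []
  L1 : D.L.getLastD 0 = 1000000
  fam : ∀ q < D.L.length, ∀ k, (D.C q k).Ok 2040000 c0 c1 0 e1
  len : ∀ q < D.L.length, ∀ k e, (D.Q q k e).rows.length = n
  row : ∀ q < D.L.length, ∀ k, Helper49.VR.vck n D.F.tt 500000 (gb D.F) (gt D.F) (gp D.F) D.vN
    (D.t 0) (D.t k.succ) (D.t (jj k).succ) (D.t (ll k).succ) k (D.rN q k) = true
  w0 : ∀ q < D.L.length, ∀ k, ∀ r : Fin 8, ∀ g < n,
    (D.Q q k (r, false)).w g ≤ 400000000000000 * D.e g r q k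
  w1 : ∀ q < D.L.length, ∀ k, ∀ r : Fin 8, ∀ g < n,
    (D.Q q k (r, true)).w g ≤ 400000000000000 * (D.e g r q k + D.d g r q k)
  ck : ∀ g < n, ∀ r < 8, zfck D.L.length D.F.tt (D.e g r) (D.em g r) (D.V g r) (D.A g) (D.B g) r
    = true
  tr : ∀ g < n, ∀ r < 8, zchk2 D.Sx (D.V g r)
    (tabL2 0 D.L (fun q => D.e g r q 0) fun q => D.d g r q 0)
    (tabL2 0 D.L (fun q => D.e g r q 1) fun q => D.d g r q 1)
    (tabL2 0 D.L (fun q => D.e g r q 2) fun q => D.d g r q 2) (D.Tr g r)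
    0 0 0 1000000 1000000 1000000 = true

/-- the cost of the vertex `g` -/
noncomputable def VD.cst (D : VD n) (g : ℕ) (N : Fin 3 → Fin 3 → ℝ) : ℝ :=
  (D.A g : ℝ) / 1000000000000 + (D.B g 0 : ℝ) / 1000000000 * nc N 0
    + (D.B g 1 : ℝ) / 1000000000 * nc N 1 + (D.B g 2 : ℝ) / 1000000000 * nc N 2

theorem num_iff {D : VD n} {e1 : ℕ} (h : D.num e1 = true) :
    (∀ i < n, ((D.vN i 0 ≤ D.Sx ∧ D.vN i 1 ≤ D.Sx ∧ D.vN i 2 ≤ D.Sx ∧ D.vN i 3 ≤ D.Sx) ∧
      D.vN i 0 + D.vN i 1 + D.vN i 2 + D.vN i 3 ≤ 100000) ∧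
      (D.vN i (D.t 1) ≤ 6 * D.V6 ∧ D.vN i (D.t 2) ≤ 6 * D.V6 ∧ D.vN i (D.t 3) ≤ 6 * D.V6)) ∧
    ((1500000 + 2 * D.Sx) * (2000000 - D.F.om) ^ 2 ≤ 4000000000000000000 ∧ D.F.om ≤ 1000000) ∧
    (∀ k, D.F.tt k ≤ 500000) ∧ ∀ k, 2000000 + D.F.tt k ≤ 2 * e1 := by
  have three : ∀ {P : Fin 3 → Prop}, P 0 → P 1 → P 2 → ∀ k, P k := by
    intro P p0 p1 p2 k
    have key : k = 0 ∨ k = 1 ∨ k = 2 := by
      fin_cases k <;> simp
    rcases key with rfl | rfl | rfl
    · exact p0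
    · exact p1
    · exact p2
  unfold VD.num at h
  simp only [Bool.and_eq_true, List.all_eq_true, List.mem_range, Nat.ble_eq] at h
  obtain ⟨⟨⟨h1, h2⟩, h3⟩, h4⟩ := h
  refine ⟨fun i hi => ?_, h2, three h3.1.1 h3.1.2 h3.2, three h4.1.1 h4.1.2 h4.2⟩
  obtain ⟨⟨⟨⟨⟨⟨⟨a0, a1⟩, a2⟩, a3⟩, a4⟩, a5⟩, a6⟩, a7⟩ := h1 i hi
  exact ⟨⟨⟨a0, a1, a2, a3⟩, a4⟩, a5, a6, a7⟩

/-- the value of `G` with equal coefficients -/
theorem ga_sum (c p m : ℕ) (f : Fin 3 → ℝ) : (⟨c, fun _ => p, fun _ => m⟩ : GA).ev f =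
    qq c + qq p * (f 0 + f 1 + f 2) - qq m * (f 0 + f 1 + f 2) := by
  unfold GA.ev
  ring

section main
variable {ι : Type} [Fintype ι] {D : VD n} {c0 c1 e1 : ℕ}
variable {a : Fin 4 → E3} {σ : Measure (E3 × E3)} {K : Set E3} {S : Fin 4 → ℝ}
  {c : Fin 4 → E3} {z : Fin 4 → Fin 4 → E3} {l : Fin 3 → Bool → Bool → E3 × E3 → ℝ}
  {V : ι → Fin 4 → ℝ} {lam : ι → ℝ}

/-- **THE COST OF A FACE OF A PLACED BODY FROM THE FAMILIES OF TABLES** -/
theorem vr_wcf [IsFiniteMeasure σ] (H : D.Ok c0 c1 e1) (h : CN K σ a c) (v : Viol K a S)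
    (hz : CV a K z) (τ : Equiv.Perm (Fin 4)) (hτ : ∀ j, τ j = D.t j) (hl : Lok a l)
    (hδ : ∀ p, MA σ a l τ p p ≤ 0) {ρ β : Fin 3 → ℝ} (hρ : ∀ p, 0 < ρ p)
    (hρb : ∀ p, ρ p ≤ (D.F.rb : ℝ) / 1000000)
    (hMρ : ∀ p k, k ≠ p → MA σ a l τ p k ≤ ρ p) (hβ : ∀ p, β p = 0)
    {x : E3} (hx : x ∈ K) (hxs : Qv a (τ 0) x = S (τ 0) ∨ S (τ 0) = 0)
    {N : Fin 3 → Fin 3 → ℝ} (hNd : N = NM (fun i => a (τ i)) (fun i j => z (τ i) (τ j)))
    {tt : Fin 3 → ℝ} (htt : ∀ k, nc N k ≤ tt k)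
    (htD : ∀ k, nc N k ≤ (D.F.tt k : ℝ) / 1000000)
    {φ : ℝ} (hφe : φ = phiN 2.04 ((D.F.rb : ℝ) / 1000000) (TN N) (QN N)) (hφ : 0 < φ)
    (hφ1 : φ ≤ 1) (en : Fin n ≃ ι) (hD : Dc V S lam)
    (hV : ∀ (i : Fin n) (j : Fin 4), V (en i) j ≤ qq (D.vN i j))
    {Sm d0 d1 : ℝ} (hI : IsC Sm d0 d1) (hSm : (D.Sx : ℝ) / 1000000 ≤ Sm) (hd1 : 0 ≤ d1)
    (hd3 : 3 * d1 * (1 + (D.Sx : ℝ) / 1000000) ≤ d0) (hc0 : (c0 : ℝ) / U ≤ d0)
    (hc1 : d1 ≤ (c1 : ℝ) / U) :
    WCF 2.04 σ a K l τ z S x N (Rv tt N) φ β (fun _ => 0) (fun _ => 0)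
      (∑ g ∈ Finset.range n, mu en lam g * D.cst g N) := by
  have h' := h.perm τ
  have v' := viol_perm v τ
  have hz' := hz.perm τ
  have hN : ∀ k m, 0 ≤ N k m := fun k m => by
    rw [hNd]
    exact NM_nonneg h' v' hz' k m
  have hd : ∀ k, N k k = 0 := fun k => by
    rw [hNd]
    exact NM_diag k
  have hcol : ∀ m, nc N m ≤ 9 / 10 := fun m => by
    rw [hNd]
    exact nc_le h' v' hz' m
  have hc : (9 / 10 : ℝ) < 1 := by norm_num
  have hgr := gram_of_dist h'.ha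
  have nn : ∀ m, 0 ≤ nc N m := fun m => Pool.Agent.Helper73.MEI.SideP.nc_nonneg hN m
  obtain ⟨q1, ⟨q2, q3⟩, q4, q5⟩ := num_iff H.num
  -- levels
  have hS : ∀ j, S j = ∑ w, lam w * V w j := fun j => hD.eq j
  have hVn : ∀ (w : ι) (j : Fin 4), V w j ≤ qq (D.vN (en.symm w) j) := fun w j => by
    have := hV (en.symm w) j
    rw [Equiv.apply_symm_apply] at this
    exact this
  have hle : ∀ (j : Fin 4) (M : ℕ), (∀ i < n, D.vN i j ≤ M) → S j ≤ qq M := by
    intro j M hM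
    rw [hS]
    calc ∑ w, lam w * V w j ≤ ∑ w, lam w * qq M :=
          Finset.sum_le_sum fun w _ => mul_le_mul_of_nonneg_left ((hVn w j).trans
            (qq_mono (hM _ (en.symm w).2))) (hD.nn w)
      _ = qq M := by
          rw [← Finset.sum_mul, hD.one, one_mul]
  have hSx : ∀ j, S j ≤ qq D.Sx := by
    intro j
    refine hle j _ fun i hi => ?_
    obtain ⟨⟨⟨a0, a1, a2, a3⟩, -⟩, -⟩ := q1 i hi
    have key : j = 0 ∨ j = 1 ∨ j = 2 ∨ j = 3 := by
      fin_cases j <;> simp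
    rcases key with rfl | rfl | rfl | rfl
    · exact a0
    · exact a1
    · exact a2
    · exact a3
  have hSV : ∀ k : Fin 3, S (τ k.succ) ≤ qq (6 * D.V6) := by
    intro k
    rw [hτ]
    refine hle _ _ fun i hi => ?_
    obtain ⟨-, a1, a2, a3⟩ := q1 i hi
    have key : k = 0 ∨ k = 1 ∨ k = 2 := by
      fin_cases k <;> simp
    rcases key with rfl | rfl | rfl
    · exact a1
    · exact a2
    · exact a3
  have hsum : S (τ 0) + (S (τ 1) + S (τ 2) + S (τ 3)) ≤ 1 / 10 := by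
    have e1 : S (τ 0) + (S (τ 1) + S (τ 2) + S (τ 3)) = S 0 + S 1 + S 2 + S 3 := by
      have h1 := Equiv.sum_comp τ S
      rw [Fin.sum_univ_four, Fin.sum_univ_four] at h1
      linarith
    rw [e1, hS 0, hS 1, hS 2, hS 3, ← Finset.sum_add_distrib, ← Finset.sum_add_distrib,
      ← Finset.sum_add_distrib]
    calc ∑ w, (lam w * V w 0 + lam w * V w 1 + lam w * V w 2 + lam w * V w 3) ≤
        ∑ w, lam w * (1 / 10) := by
          refine Finset.sum_le_sum fun w _ => ?_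
          have e2 : lam w * V w 0 + lam w * V w 1 + lam w * V w 2 + lam w * V w 3 =
              lam w * (V w 0 + V w 1 + V w 2 + V w 3) := by ring
          rw [e2]
          refine mul_le_mul_of_nonneg_left ?_ (hD.nn w)
          obtain ⟨⟨-, a4⟩, -⟩ := q1 _ (en.symm w).2
          have a5 : ((D.vN (en.symm w) 0 : ℝ) + (D.vN (en.symm w) 1 : ℝ)
            + (D.vN (en.symm w) 2 : ℝ) + (D.vN (en.symm w) 3 : ℝ)) ≤ 100000 := by
            exact_mod_cast a4
          have b0 := hVn w 0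
          have b1 := hVn w 1
          have b2 := hVn w 2
          have b3 := hVn w 3
          unfold qq at b0 b1 b2 b3
          linarith
      _ = 1 / 10 := by
          rw [← Finset.sum_mul, hD.one, one_mul]
  -- the largest leak
  obtain ⟨cN, hcN, m0, hm0⟩ : ∃ cN, (∀ m, nc N m ≤ cN) ∧ ∃ m, cN = nc N m := by
    rcases le_total (nc N 0) (nc N 1) with h1 | h1
    · rcases le_total (nc N 1) (nc N 2) with h2 | h2
      · refine ⟨nc N 2, fun m => ?_, 2, rfl⟩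
        have key : m = 0 ∨ m = 1 ∨ m = 2 := by
          fin_cases m <;> simp
        rcases key with rfl | rfl | rfl
        · exact h1.trans h2
        · exact h2
        · exact le_rfl
      · refine ⟨nc N 1, fun m => ?_, 1, rfl⟩
        have key : m = 0 ∨ m = 1 ∨ m = 2 := by
          fin_cases m <;> simp
        rcases key with rfl | rfl | rfl
        · exact h1
        · exact le_rfl
        · exact h2
    · rcases le_total (nc N 0) (nc N 2) with h2 | h2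
      · refine ⟨nc N 2, fun m => ?_, 2, rfl⟩
        have key : m = 0 ∨ m = 1 ∨ m = 2 := by
          fin_cases m <;> simp
        rcases key with rfl | rfl | rfl
        · exact h2
        · exact h1.trans h2
        · exact le_rfl
      · refine ⟨nc N 0, fun m => ?_, 0, rfl⟩
        have key : m = 0 ∨ m = 1 ∨ m = 2 := by
          fin_cases m <;> simp
        rcases key with rfl | rfl | rfl
        · exact le_rfl
        · exact h1
        · exact h2
  have cN0 : 0 ≤ cN := (nn 0).trans (hcN 0)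
  have httm : ∀ m, (D.F.tt m : ℝ) / 1000000 ≤ 1 / 2 := fun m => by
    have : (D.F.tt m : ℝ) ≤ 500000 := by exact_mod_cast q4 m
    linarith
  have hcN1 : cN ≤ 1 / 2 := by
    rw [hm0]
    exact (htD m0).trans (httm m0)
  -- the share
  have sp := FN.sp H.phi hN htD hφe
  have hT : TN N = nc N 0 + nc N 1 + nc N 2 := rfl
  have hT0 : 0 ≤ TN N := TN_nonneg hN
  have hF : ∀ p, (1 - β p) * ρ p ≤ φ * (2.04 * Pool.Agent.Helper55.Mass.Id (flP (PN N) p)) := by
    intro p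
    rw [hβ, sub_zero, one_mul]
    have hT2 : TN N < 2 := by
      have b0 := (htD 0).trans (httm 0)
      have b1 := (htD 1).trans (httm 1)
      have b2 := (htD 2).trans (httm 2)
      rw [hT]
      linarith
    have k1 := phi_ok hN hd hc hcol (A' := 2.04) (by norm_num)
      (ρ := (D.F.rb : ℝ) / 1000000) (by positivity) hT2 p
    rw [← hφe] at k1
    exact (hρb p).trans k1
  have hK : ∀ p, β p * ρ p ≤ 2.04 *
      Pool.Agent.Helper55.Mass.Id (fun t => kap N (Pool.Agent.Helper55.Mass.vv t) p) := by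
    intro p
    rw [hβ, zero_mul]
    refine mul_nonneg (by norm_num) ?_
    unfold Pool.Agent.Helper55.Mass.Id
    refine mul_nonneg (by positivity) (setIntegral_nonneg
      Pool.Agent.Helper55.Sx.Sim_meas fun t ht => ?_)
    exact div_nonneg (kap_nonneg hN hc hcol (fun k => Pool.Agent.Helper55.Mass.vv_nonneg ht k) p)
      (by positivity)
  -- omega
  obtain ⟨ω, hωd⟩ : ∃ ω, ω = (D.F.om : ℝ) / 2000000 := ⟨_, rfl⟩
  have om1 : (D.F.om : ℝ) ≤ 1000000 := by exact_mod_cast q3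
  have hω0 : 0 ≤ ω := by
    rw [hωd]
    positivity
  have hω1 : ω ≤ 1 / 2 := by
    rw [hωd]
    linarith
  have hω2 : 0 < 1 - ω := by linarith
  have hχ : 3 / 2 + 2 * qq D.Sx ≤ (1 / (1 - ω)) ^ 2 := by
    have h1 := (Nat.cast_le (α := ℝ)).2 q2
    rw [Nat.cast_mul, Nat.cast_pow, Nat.cast_sub (q3.trans (by norm_num))] at h1
    push_cast at h1
    rw [one_div, inv_pow, ← one_div, le_div_iff₀ (by positivity), hωd]
    unfold qq
    have e : (3 / 2 + 2 * ((D.Sx : ℝ) / 1000000)) * (1 - (D.F.om : ℝ) / 2000000) ^ 2 =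
        (1500000 + 2 * (D.Sx : ℝ)) * (2000000 - (D.F.om : ℝ)) ^ 2 / 4000000000000000000 := by
      ring
    rw [e, div_le_one (by norm_num)]
    exact h1
  -- classes
  have cel : ∀ k, ∃ κ, Cel (pcor (fun i => a (τ i)) x k) κ 0 0 D.L := fun k =>
    Cel_unit (prt_nonneg _ _) (prt_le _ _) H.L0 H.L1
  choose κ hκ using cel
  have cq : ∀ k, κ k < D.L.length := fun k => (Cel_ends (hκ k)).1
  -- the relative deficits
  obtain ⟨f1, f2, f3, f4, f5⟩ := body_geo hgr (h'.hp x hx) (v'.le 0 x hx)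
  have bet1 : ∀ k, bcor (fun i => a (τ i)) (2 / 3 * cN) x k ≤ 1 := by
    obtain ⟨z1, z2, z3⟩ := Zd_le (c := 2 / 3 * cN) (by linarith) f1 f2 f3 f4
    intro k
    have key : k = 0 ∨ k = 1 ∨ k = 2 := by
      fin_cases k <;> simp
    rcases key with rfl | rfl | rfl
    · exact bet_le_one (u := b3 (fun i => a (τ i)) x 2) (v := b3 (fun i => a (τ i)) x 1)
        (by linarith)
    · exact bet_le_one (u := b3 (fun i => a (τ i)) x 0) (v := b3 (fun i => a (τ i)) x 2)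
        (by linarith)
    · exact bet_le_one (u := b3 (fun i => a (τ i)) x 0) (v := b3 (fun i => a (τ i)) x 1)
        (by linarith)
  have bet0 : ∀ k, 0 ≤ bcor (fun i => a (τ i)) (2 / 3 * cN) x k := fun k => bet_nonneg _ _ _
  -- the affine functions
  have s0 : 0 ≤ S (τ 0) := v.nn _
  have eb : (gb D.F).ev (nc N) = 1 - ((D.F.g0 : ℝ) / 1000000 + (D.F.g1 : ℝ) / 1000000 * TN N) := by
    have hg : D.F.g0 ≤ 1000000 := by
      have h1 := H.phi
      unfold phk at h1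
      simp only [Bool.and_eq_true, Nat.ble_eq] at h1
      exact h1.1.2.1.2
    unfold gb
    rw [ga_sum, ← hT]
    unfold qq
    rw [Nat.cast_sub hg]
    push_cast
    ring
  have et : (gt D.F).ev (nc N) = (D.F.l0 : ℝ) / 1000000 + (D.F.l1 : ℝ) / 1000000 * TN N := by
    unfold gt
    rw [ga_sum, ← hT]
    unfold qq
    push_cast
    ring
  have ep : (gp D.F).ev (nc N) =
      2 * ((D.F.f0 : ℝ) / 1000000 + (D.F.f1 : ℝ) / 1000000 * TN N) := by
    unfold gp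
    rw [ga_sum, ← hT]
    unfold qq
    push_cast
    ring
  have eb1 : 1 - φ ≤ (gb D.F).ev (nc N) := by
    rw [eb]
    linarith [sp.lo]
  have et1 : 1 - φ ≤ (gt D.F).ev (nc N) := by
    rw [et]
    have k1 := sp.l hφ1 0
    have k2 : 0 ≤ (1 - φ) * ((D.F.r1 : ℝ) / 1000000 * nc N 0) := by
      have := nn 0
      have : 0 ≤ 1 - φ := by linarith
      positivity
    linarith
  have ep1 : 2 * φ ≤ (gp D.F).ev (nc N) := by
    rw [ep]
    linarith [sp.hi]
  have hT' : nc N 0 + nc N 1 + nc N 2 = TN N := rfl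
  have q1e : qq 1000000 = 1 := by
    unfold qq
    norm_num
  have hU : ((2040000 : ℕ) : ℝ) / (U : ℝ) = 2.04 := by
    norm_num [Helper60.R7.U]
  have z0 : ((0 : ℕ) : ℝ) / (U : ℝ) = 0 := by simp
  refine wcf_fam (A := 2040000) h v hz τ hl hδ hρ hMρ hx hxs hNd htt hU (by norm_num) hφ hφ1
    (fun p => (hβ p).ge) (fun p => by rw [hβ]; exact zero_le_one) hK hF hcN hcN1 (s := qq D.Sx)
    (χ := 1 / (1 - ω)) (ω := ω) hSx (div_nonneg zero_le_one (by linarith)) hχ hω0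
    (by rw [mul_one_div, div_self (by linarith)]) hSV (C := fun k => D.C (κ k) k)
    (c0 := c0) (c1 := c1) (hh := 0) (e1 := e1) (fun k => H.fam _ (cq k) k) ?_
    (wt := fun k => wt D.F.tt (nc N) (bcor (fun i => a (τ i)) (2 / 3 * cN) x k))
    (μ := fun _ _ => mu en lam)
    (b := fun k => bcor (fun i => a (τ i)) (2 / 3 * cN) x k * (qq 500000 * (gb D.F).ev (nc N)))
    (te := fun _ => S (τ 0) * (gt D.F).ev (nc N)) (pe := fun _ => S (τ 0) * (gp D.F).ev (nc N))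
    (fun k => ?_) hI (fun j => (hSx j).trans hSm) hd1 ?_ hc0 hc1 (X := 1 / 10)
    (y := 0.2823 + 2.04 * ((1 / 2 + 2) * (2 * (((0 : ℕ) : ℝ) / U)) + 1.134 * (1 / 10)))
    (M := 1) (dj := 2) hsum le_rfl (by rw [z0]; norm_num) (by norm_num) ?_ (by linarith) le_rfl
    le_rfl zero_le_one (by rw [z0]; norm_num) ?_
  · -- `1 + cN / 2 ≤ e1`
    have h5 : (2000000 + (D.F.tt m0 : ℝ)) ≤ 2 * e1 := by exact_mod_cast q5 m0
    have h6 := htD m0
    rw [hm0]
    unfold qq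
    linarith
  · -- the corner `k`
    obtain ⟨-, c5, c6⟩ := Cel_ends (hκ k)
    have hlev := hm0
    refine ⟨?_, ?_, ?_, ?_, ?_, ⟨?_, ?_, Or.inl hβ, ?_, ?_, ?_, Or.inl hβ, ?_⟩, ?_, ?_, ?_, ?_, ?_,
      ?_, bet1 k, Or.inl hβ⟩
    · show qq ((0 :: D.L).getD (κ k) 0) ≤ pcor (fun i => a (τ i)) x k
      unfold qq
      rw [div_le_iff₀ (by norm_num)]
      exact c5
    · show pcor (fun i => a (τ i)) x k ≤ qq (D.L.getD (κ k) 0)
      unfold qq
      rw [le_div_iff₀ (by norm_num)]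
      exact c6
    · show qq 0 * nc N k ≤ N (jj k) k
      unfold qq
      simpa using hN (jj k) k
    · show N (jj k) k ≤ qq 1000000 * nc N k
      rw [q1e, one_mul]
      have a0 := hN 0 k
      have a1 := hN 1 k
      have a2 := hN 2 k
      unfold nc
      have key : jj k = 0 ∨ jj k = 1 ∨ jj k = 2 := by
        generalize jj k = m
        fin_cases m <;> simp
      rcases key with e | e | e <;> rw [e] <;> linarith
    · exact mul_nonneg (bet0 k) (mul_nonneg (qq_nonneg _) (by linarith))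
    · -- c
      show φ * (2 * ω + 0 + 2 / 3 * cN) ≤ qq D.F.c0 + qq D.F.c1 * (nc N 0 + nc N 1 + nc N 2)
      have k1 := sp.c m0
      rw [← hm0] at k1
      rw [hT', hωd]
      unfold qq
      refine le_trans (le_of_eq ?_) k1
      ring
    · show φ * (2 * ω + 0 + cN) ≤ qq D.F.d0 + qq D.F.d1 * (nc N 0 + nc N 1 + nc N 2)
      have k1 := sp.d m0
      rw [← hm0] at k1
      rw [hT', hωd]
      unfold qq
      refine le_trans (le_of_eq ?_) k1
      ring
    · show (1 - φ) / 2 * bcor (fun i => a (τ i)) (2 / 3 * cN) x k ≤ qq 1000000 *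
        (bcor (fun i => a (τ i)) (2 / 3 * cN) x k * (qq 500000 * (gb D.F).ev (nc N)))
      have k1 := mul_le_mul_of_nonneg_left eb1 (bet0 k)
      have k2 : qq 500000 = 1 / 2 := by
        unfold qq
        norm_num
      rw [q1e, k2]
      linarith
    · show (1 - φ) * S (τ 0) ≤ qq 1000000 * (S (τ 0) * (gt D.F).ev (nc N))
      have k1 := mul_le_mul_of_nonneg_left et1 s0
      rw [q1e]
      linarith
    · show φ * (2 * S (τ 0)) ≤ qq 1000000 * (S (τ 0) * (gp D.F).ev (nc N))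
      have k1 := mul_le_mul_of_nonneg_left ep1 s0
      rw [q1e]
      linarith
    · show qq (6 * D.V6) / 6 ≤ qq D.V6
      unfold qq
      push_cast
      linarith
    · exact mul_nonneg s0 (by linarith)
    · exact mul_nonneg s0 (by linarith)
    · exact fun e => wt_nonneg nn htD (bet0 k) (bet1 k) e
    · exact wt_one _ _ _
    · exact vr_hst (H.row _ (cq k) k) en hD hV (hτ 0) (hτ _) (hτ _) (hτ _) nn htD (bet0 k)
        (bet1 k) (H.len _ (cq k) k)
    · exact vr_rowB (H.row _ (cq k) k) en hD hV (hτ 0) (hτ _) (hτ _) (hτ _) (H.len _ (cq k) k)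
        (H.fam _ (cq k) k).tab
  · -- `3 d1 (1 + S0) ≤ d0`
    have k1 := mul_le_mul_of_nonneg_left (hSx (τ 0)) (show 0 ≤ 3 * d1 by linarith)
    unfold qq at k1
    linarith
  · -- `dj`
    have k1 : φ * (2 * ω + 2 / 3 * cN) ≤ 1 * (2 * ω + 2 / 3 * cN) :=
      mul_le_mul_of_nonneg_right hφ1 (by linarith)
    linarith
  · -- the cost
    have key := vr_cost (X := D.Sx) hgr (h'.hp x hx) (v'.le 0 x hx) (c := 2 / 3 * cN)
      (by linarith) (by linarith) (by
        have := hSx (τ 0)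
        unfold qq at this
        linarith) s0 hκ (m := n) (lam := mu en lam) (mu_nonneg en hD.nn) nn htD H.ck H.tr
      (fun q hq k e => H.len q hq k e) H.w0 H.w1
    have e0 : (17 : ℝ) * (((0 : ℕ) : ℝ) / (U : ℝ)) ^ 2 * 1 *
        (0.2823 + 2.04 * ((1 / 2 + 2) * (2 * (((0 : ℕ) : ℝ) / U)) + 1.134 * (1 / 10))) = 0 := by
      rw [z0]
      norm_num
    rw [e0, add_zero]
    exact key

/-- **THE COST OF A FACE ON A PIECE** (hypothesis of `coreP_7W`, `coreP_8W`), no strips -/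
theorem vr_wface {i : Fin 4} {d : Helper21.Sk.PD ι} {X nb ε k1 k12 : ℝ}
    {P : (Fin 4 → ℝ) → Prop} (H : D.Ok c0 c1 e1) (ht : ∀ j, Helper21.Sk.tf i j = D.t j)
    (en : Fin n ≃ ι) (hV : ∀ (g : Fin n) (j : Fin 4), V (en g) j ≤ qq (D.vN g j))
    (hrb : d.rb i = (D.F.rb : ℝ) / 1000000) (htt : ∀ k, d.tt i k ≤ (D.F.tt k : ℝ) / 1000000)
    (hcost : ∀ (g : Fin n) cl j j' (N : Fin 3 → Fin 3 → ℝ), (∀ k, 0 ≤ nc N k) →
      D.cst g N ≤ d.cost i (en g) cl j j' N)
    {Sm d0 d1 : ℝ} (hI : IsC Sm d0 d1) (hSm : (D.Sx : ℝ) / 1000000 ≤ Sm) (hd1 : 0 ≤ d1)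
    (hd3 : 3 * d1 * (1 + (D.Sx : ℝ) / 1000000) ≤ d0) (hc0 : (c0 : ℝ) / U ≤ d0)
    (hc1 : d1 ≤ (c1 : ℝ) / U) : Helper21.Sk.WFace d i V X P nb 0 0 ε k1 k12 := by
  intro K σ hσ a c hC hX S hv hP lam hlam z hz ρ hρe hρ hρb hM hδ x hx hxs N hNd hN hd hnb htd
    hdom φ hφe hφ hφ1 j j' hj hp cl hcl
  have hβ : ∀ p, bt 2.04 (kv 0 0 N) ρ p = 0 := by
    intro p
    have e0 : kv 0 0 N p = 0 := by
      unfold kv
      ring
    have e1 : min (kv 0 0 N p) (ρ p / 2.04) = 0 := by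
      rw [e0]
      exact min_eq_left (div_nonneg (hρ p).le (by norm_num))
    unfold bt km
    rw [e1, mul_zero, zero_div]
  rw [hrb] at hρb hφe
  have nn : ∀ m, 0 ≤ nc N m := fun m => Pool.Agent.Helper73.MEI.SideP.nc_nonneg hN m
  have key := vr_wcf H hC hv hz (Helper21.Sk.tq i) ht (l2_ok hC.ha) hδ hρ hρb hM hβ hx hxs hNd
    (tt := d.tt i) htd (fun k => (htd k).trans (htt k)) hφe hφ hφ1 en hlam hV hI hSm hd1 hd3 hc0
    hc1
  intro ζp z1 z2 lm l1 l2
  refine (key ζp z1 z2 lm l1 l2).mono ?_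
  calc ∑ g ∈ Finset.range n, mu en lam g * D.cst g N
      ≤ ∑ g ∈ Finset.range n, mu en lam g * mu en (fun w => d.cost i w cl j j' N) g := by
        refine Finset.sum_le_sum fun g hg => mul_le_mul_of_nonneg_left ?_
          (mu_nonneg en hlam.nn g)
        rw [mu_lt en _ (Finset.mem_range.1 hg)]
        exact hcost ⟨g, Finset.mem_range.1 hg⟩ cl j j' N nn
    _ = ∑ w, lam w * d.cost i w cl j j' N := mu_sum en lam _

end main

end Helper22.VR
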