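import Pool.Agent.Helper22.MEI.VRC
import Pool.Agent.Helper22.MEI.VR2
import Pool.Agent.Helper99.MEI.WT7

/-!
# Project MEI (M2), track B: the cost of a face from families of tables, general form

Classes by position and height of the apex, strips allowed, the majorants of the dropped apex and
of the value as hypotheses. `VE` = the data of a face, `VE.Ok` = the kernel checks, `ve_wcf` = the
cost `WCF` of a placed body.
-/

set_option autoImplicit false

namespace Helper22.VR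

open Set Metric MeasureTheory Helper93.MEI Helper80.CW Helper14.CW Helper82.CW Helper82.M2
open Helper14.MEI2 Pool.Agent.Helper73.MEI Helper78.MEI Helper41.MEI
open Pool.Agent.Helper31.SR hiding qq
open Helper37.MEI Pool.Agent.Helper52.MEI
open Helper14.MEI4 Helper99.MEI Helper60.R8 Helper49.VR
open Helper60.R7 (U U_pos jj ll)
open Helper33.MEI (Dl)
open Pool.Agent.Helper31.SR.IntC
open Pool.Agent.Helper73.MEI.SideP Pool.Agent.Helper73.MEI.ArCor
open Pool.Agent.Helper55.Apex (nc)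
open Pool.Agent.Helper55.ApexP (PN alP)
open Pool.Agent.Helper55.Mass (vv)
open Pool.Agent.Helper96.Kap (kap kap_nonneg)
open scoped RealInnerProductSpace

/-- **the data of a face**: classes `L` of the position and `H` of the height of the apex (number
`q = κ + |L| σ`); for a class `q`, a corner `k` and a member `(r, b)` (corner `r` of the box of the
leaks, bit `b` of the apex) the table `Q` and the numbers `rN` of its rows, one row per vertex
`i < n` of the levels -/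
structure VE (n : ℕ) where
  F : Helper22.VR.FN
  V6 : ℕ
  Sx : ℕ
  rc : ℕ
  re : ℕ
  L : List ℕ
  H : List ℕ
  Q : ℕ → Fin 3 → Fin 8 × Bool → Cor
  rN : ℕ → Fin 3 → ℕ → Bool → List RN
  As : ℕ → Fin 3 → List LT
  Vs : ℕ → Fin 3 → List VT
  a : ℕ → Fin 3 → ℕ
  n1 : ℕ → Fin 3 → ℕ
  nl : ℕ → Fin 3 → ℕ
  ne : ℕ → Fin 3 → ℕ
  t : Fin 4 → Fin 4
  vN : ℕ → Fin 4 → ℕ
  e : ℕ → ℕ → ℕ → Fin 3 → ℕ
  d : ℕ → ℕ → ℕ → Fin 3 → ℕ
  em : ℕ → ℕ → Fin 3 → ℕ
  V : ℕ → ℕ → ℕ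
  A : ℕ → ℕ
  B : ℕ → Fin 3 → ℕ
  Tr : ℕ → ℕ → ZT

variable {n : ℕ}

/-- the numbers of the tables -/
def tpE (F : Helper22.VR.FN) (V6 rc re : ℕ) : TP :=
  ⟨F.c0, F.c1, F.d0, F.d1, rc, 1000000, 1000000, 1000000, re, V6⟩

/-- number of classes -/
def VE.nq (D : VE n) : ℕ := D.L.length * D.H.length

/-- the family of the class `q` and the corner `k` -/
def VE.C (D : VE n) (q : ℕ) (k : Fin 3) : CT (Fin 8 × Bool) :=
  ⟨D.Q q k, fun e => D.rN q k e.1 e.2, tpE D.F D.V6 D.rc D.re, D.As q k, D.Vs q k,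
    (0 :: D.L).getD (q % D.L.length) 0, D.L.getD (q % D.L.length) 0, 0, 1000000, D.a q k,
    D.n1 q k, D.nl q k, D.ne q k⟩

/-- the check of the numbers of a face -/
def VE.num (D : VE n) (e1 : ℕ) : Bool :=
  ((List.range n).all fun i =>
    Nat.ble (D.vN i 0) D.Sx && Nat.ble (D.vN i 1) D.Sx && Nat.ble (D.vN i 2) D.Sx &&
    Nat.ble (D.vN i 3) D.Sx &&
    Nat.ble (D.vN i 0 + D.vN i 1 + D.vN i 2 + D.vN i 3) 100000 &&
    Nat.ble (D.vN i (D.t 1)) (6 * D.V6) && Nat.ble (D.vN i (D.t 2)) (6 * D.V6) &&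
    Nat.ble (D.vN i (D.t 3)) (6 * D.V6)) &&
  (Nat.ble ((1500000 + 2 * D.Sx) * (2000000 - D.F.om) ^ 2) 4000000000000000000 &&
    Nat.ble D.F.om 1000000) &&
  (Nat.ble (D.F.tt 0) 500000 && Nat.ble (D.F.tt 1) 500000 && Nat.ble (D.F.tt 2) 500000) &&
  (Nat.ble (2000000 + D.F.tt 0) (2 * e1) && Nat.ble (2000000 + D.F.tt 1) (2 * e1) &&
    Nat.ble (2000000 + D.F.tt 2) (2 * e1))

/-- the check of the strips at a corner with the leaks `x` (own), `y`, `z` (others) -/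
def stk (x y z a n1 : ℕ) (As : List LT) : Bool :=
  nrk n1 As && Nat.ble (x * (1000000 - a)) (1000000 * a) &&
    Nat.ble ((x + y) * (1000000 - a)) (2 * 1000000 * a) &&
    Nat.ble ((x + z) * (1000000 - a)) (2 * 1000000 * a) && Nat.ble a 1000000

/-- the check of the strips -/
def VE.str (D : VE n) : Bool :=
  ((List.range D.nq).all fun q =>
    stk (D.F.tt 0) (D.F.tt (jj 0)) (D.F.tt (ll 0)) (D.a q 0) (D.n1 q 0) (D.As q 0) &&
    stk (D.F.tt 1) (D.F.tt (jj 1)) (D.F.tt (ll 1)) (D.a q 1) (D.n1 q 1) (D.As q 1) &&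
    stk (D.F.tt 2) (D.F.tt (jj 2)) (D.F.tt (ll 2)) (D.a q 2) (D.n1 q 2) (D.As q 2)) &&
  Nat.ble D.F.om D.rc && Nat.ble (2 * D.Sx + 12 * D.V6) D.re

/-- **the kernel checks of the data of a face** -/
structure VE.Ok (D : VE n) (c0 c1 e1 : ℕ) : Prop where
  phi : phk D.F = true
  num : D.num e1 = true
  L0 : D.L ≠ []
  L1 : D.L.getLastD 0 = 1000000
  H0 : D.H ≠ []
  H1 : D.H.getLastD 0 = 1000000
  fam : ∀ q < D.nq, ∀ k, (D.C q k).OkG 2040000 c0 c1 0
  len : ∀ q < D.nq, ∀ k e, (D.Q q k e).rows.length = n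
  row : ∀ q < D.nq, ∀ k, Helper49.VR.vck n D.F.tt 500000 (gb D.F) (gt D.F) (gp D.F) D.vN
    (D.t 0) (D.t k.succ) (D.t (jj k).succ) (D.t (ll k).succ) k (D.rN q k) = true
  w0 : ∀ q < D.nq, ∀ k, ∀ r : Fin 8, ∀ g < n,
    (D.Q q k (r, false)).w g ≤ 400000000000000 * D.e g r q k
  w1 : ∀ q < D.nq, ∀ k, ∀ r : Fin 8, ∀ g < n,
    (D.Q q k (r, true)).w g ≤ 400000000000000 * (D.e g r q k + D.d g r q k)
  ck : ∀ g < n, ∀ r < 8, zfck D.nq D.F.tt (D.e g r) (D.em g r) (D.V g r) (D.A g) (D.B g) r = true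
  tr : ∀ g < n, ∀ r < 8, zchk3 D.Sx (D.V g r)
    (tabL3 0 D.H D.L (fun q => D.e g r q 0) fun q => D.d g r q 0)
    (tabL3 0 D.H D.L (fun q => D.e g r q 1) fun q => D.d g r q 1)
    (tabL3 0 D.H D.L (fun q => D.e g r q 2) fun q => D.d g r q 2) (D.Tr g r)
    0 0 0 1000000 1000000 1000000 = true

/-- the cost of the vertex `g` -/
noncomputable def VE.cst (D : VE n) (g : ℕ) (N : Fin 3 → Fin 3 → ℝ) : ℝ :=
  (D.A g : ℝ) / 1000000000000 + (D.B g 0 : ℝ) / 1000000000 * nc N 0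
    + (D.B g 1 : ℝ) / 1000000000 * nc N 1 + (D.B g 2 : ℝ) / 1000000000 * nc N 2

theorem numE_iff {D : VE n} {e1 : ℕ} (h : D.num e1 = true) :
    (∀ i < n, ((D.vN i 0 ≤ D.Sx ∧ D.vN i 1 ≤ D.Sx ∧ D.vN i 2 ≤ D.Sx ∧ D.vN i 3 ≤ D.Sx) ∧
      D.vN i 0 + D.vN i 1 + D.vN i 2 + D.vN i 3 ≤ 100000) ∧
      (D.vN i (D.t 1) ≤ 6 * D.V6 ∧ D.vN i (D.t 2) ≤ 6 * D.V6 ∧ D.vN i (D.t 3) ≤ 6 * D.V6)) ∧
    ((1500000 + 2 * D.Sx) * (2000000 - D.F.om) ^ 2 ≤ 4000000000000000000 ∧ D.F.om ≤ 1000000) ∧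
    (∀ k, D.F.tt k ≤ 500000) ∧ ∀ k, 2000000 + D.F.tt k ≤ 2 * e1 := by
  have three : ∀ {P : Fin 3 → Prop}, P 0 → P 1 → P 2 → ∀ k, P k := by
    intro P p0 p1 p2 k
    have key : k = 0 ∨ k = 1 ∨ k = 2 := by
      fin_cases k <;> simp
    rcases key with rfl | rfl | rfl
    · exact p0
    · exact p1
    · exact p2
  unfold VE.num at h
  simp only [Bool.and_eq_true, List.all_eq_true, List.mem_range, Nat.ble_eq] at h
  obtain ⟨⟨⟨h1, h2⟩, h3⟩, h4⟩ := h
  refine ⟨fun i hi => ?_, h2, three h3.1.1 h3.1.2 h3.2, three h4.1.1 h4.1.2 h4.2⟩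
  obtain ⟨⟨⟨⟨⟨⟨⟨a0, a1⟩, a2⟩, a3⟩, a4⟩, a5⟩, a6⟩, a7⟩ := h1 i hi
  exact ⟨⟨⟨a0, a1, a2, a3⟩, a4⟩, a5, a6, a7⟩

/-- the strips at a corner -/
theorem stk_iff {x y z a n1 : ℕ} {As : List LT} (h : stk x y z a n1 As = true) {u v w : ℝ}
    (hu0 : 0 ≤ u) (hv0 : 0 ≤ v) (hw0 : 0 ≤ w)
    (hu : u ≤ (x : ℝ) / 1000000) (hv : v ≤ (y : ℝ) / 1000000) (hw : w ≤ (z : ℝ) / 1000000) :
    nrk n1 As = true ∧ ∃ m, (u ≤ m ∧ u + v ≤ 2 * m ∧ u + w ≤ 2 * m) ∧
      m * (1 - Helper99.MEI.qq a) ≤ Helper99.MEI.qq a := by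
  unfold stk at h
  simp only [Bool.and_eq_true, Nat.ble_eq] at h
  obtain ⟨⟨⟨⟨h1, h2⟩, h3⟩, h4⟩, h5⟩ := h
  refine ⟨h1, max u (max ((u + v) / 2) ((u + w) / 2)), ⟨le_max_left _ _, ?_, ?_⟩, ?_⟩
  · have := (le_max_left ((u + v) / 2) ((u + w) / 2)).trans (le_max_right u _)
    linarith
  · have := (le_max_right ((u + v) / 2) ((u + w) / 2)).trans (le_max_right u _)
    linarith
  · have c2 := (Nat.cast_le (α := ℝ)).2 h2
    have c3 := (Nat.cast_le (α := ℝ)).2 h3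
    have c4 := (Nat.cast_le (α := ℝ)).2 h4
    rw [Nat.cast_mul, Nat.cast_sub h5] at c2 c3 c4
    push_cast at c2 c3 c4
    have a0 : 0 ≤ 1 - (a : ℝ) / 1000000 := by
      have : (a : ℝ) ≤ 1000000 := by exact_mod_cast h5
      linarith
    unfold Helper99.MEI.qq
    rcases max_cases u (max ((u + v) / 2) ((u + w) / 2)) with ⟨e, -⟩ | ⟨e, -⟩
    · rw [e]
      have := mul_le_mul_of_nonneg_right hu a0
      linarith
    · rw [e]
      rcases max_cases ((u + v) / 2) ((u + w) / 2) with ⟨e, -⟩ | ⟨e, -⟩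
      · rw [e]
        have := mul_le_mul_of_nonneg_right (show (u + v) / 2 ≤
          ((x : ℝ) / 1000000 + (y : ℝ) / 1000000) / 2 by linarith) a0
        linarith
      · rw [e]
        have := mul_le_mul_of_nonneg_right (show (u + w) / 2 ≤
          ((x : ℝ) / 1000000 + (z : ℝ) / 1000000) / 2 by linarith) a0
        linarith

/-- the check of the strips -/
theorem str_iff {D : VE n} (h : D.str = true) : (∀ q < D.nq, ∀ k,
    stk (D.F.tt k) (D.F.tt (jj k)) (D.F.tt (ll k)) (D.a q k) (D.n1 q k) (D.As q k) = true) ∧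
    D.F.om ≤ D.rc ∧ 2 * D.Sx + 12 * D.V6 ≤ D.re := by
  unfold VE.str at h
  simp only [Bool.and_eq_true, List.all_eq_true, List.mem_range, Nat.ble_eq] at h
  obtain ⟨⟨h1, h2⟩, h3⟩ := h
  refine ⟨fun q hq k => ?_, h2, h3⟩
  obtain ⟨⟨a0, a1⟩, a2⟩ := h1 q hq
  have key : k = 0 ∨ k = 1 ∨ k = 2 := by
    fin_cases k <;> simp
  rcases key with rfl | rfl | rfl
  · exact a0
  · exact a1
  · exact a2

/-- the premise about the dropped apex (`wcf_gen`) at the corner `k` -/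
def HalP {ι : Type*} (C : CT ι) (a : Fin 4 → E3) (S : Fin 4 → ℝ) (τ : Equiv.Perm (Fin 4)) (x : E3)
    (N : Fin 3 → Fin 3 → ℝ) (R : Fin 3 → ℝ) (k : Fin 3) : Prop :=
  ∀ ζp : Fin 3 → ℝ, (∀ k, 0 < ζp k) →
    (∀ k, zc (fun i => a (τ i)) N x k ≤ ζp k) → ∀ t ∈ Dl, T3 t (jj k) ≤ T3 t k →
    T3 t (ll k) ≤ T3 t k → ∀ L ∈ C.As, L.z = 0 →
    alP N ζp t * (S (τ 0) - (zc (fun i => a (τ i)) N x 0 * R 0
      + zc (fun i => a (τ i)) N x 1 * R 1 + zc (fun i => a (τ i)) N x 2 * R 2)) ≤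
      S (τ 0) * (qq L.e0 * T3 t k + qq L.ex * T3 t (jj k) + qq L.ey * T3 t (ll k))

/-- the premise about the majorants of the value (`wcf_gen`) at the corner `k` -/
def HvalP {ι : Type*} (C : CT ι) (A' : ℝ) (σ : Measure (E3 × E3)) (a : Fin 4 → E3)
    (l : Fin 3 → Bool → Bool → E3 × E3 → ℝ) (S : Fin 4 → ℝ)
    (τ : Equiv.Perm (Fin 4)) (x : E3) (N : Fin 3 → Fin 3 → ℝ) (R : Fin 3 → ℝ) (φ : ℝ)
    (β : Fin 3 → ℝ) (k : Fin 3) (b te pe : ℝ) : Prop :=
  ∀ ζp : Fin 3 → ℝ, (∀ k, 0 < ζp k) →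
    (∀ k, zc (fun i => a (τ i)) N x k ≤ ζp k) → ∀ lam, 0 ≤ lam → lam ≤ 1 - φ → ∀ t ∈ Dl,
    T3 t (jj k) ≤ T3 t k → T3 t (ll k) ≤ T3 t k → ∀ W ∈ C.Vs,
    GM A' N (zc (fun i => a (τ i)) N x) ζp lam (fun p t => φ * flP (PN N) p t)
      (fun p t => kap N (vv t) p) β (MB σ a l τ)
      (fun p => aE σ a l (τ 0) (τ p.succ) - (fun _ => (0 : ℝ)) p) R
      (fun k => S (τ k.succ)) (S (τ 0)) t ≤
    -(T3 t 0 * S (τ 1) + T3 t 1 * S (τ 2) + T3 t 2 * S (τ 3))
      + (W.k.ev (stc S τ N k b te pe) * T3 t k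
        + W.j.ev (stc S τ N k b te pe) * T3 t (jj k)
        + W.l.ev (stc S τ N k b te pe) * T3 t (ll k))

section main
variable {ι : Type} [Fintype ι] {D : VE n} {c0 c1 e1 : ℕ}
variable {a : Fin 4 → E3} {σ : Measure (E3 × E3)} {K : Set E3} {S : Fin 4 → ℝ}
  {c : Fin 4 → E3} {z : Fin 4 → Fin 4 → E3} {l : Fin 3 → Bool → Bool → E3 × E3 → ℝ}
  {V : ι → Fin 4 → ℝ} {lam : ι → ℝ}

/-- **THE COST OF A FACE OF A PLACED BODY FROM THE FAMILIES OF TABLES**, general form -/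
theorem ve_wcf [IsFiniteMeasure σ] (H : D.Ok c0 c1 e1) (h : CN K σ a c) (v : Viol K a S)
    (hz : CV a K z) (τ : Equiv.Perm (Fin 4)) (hτ : ∀ j, τ j = D.t j) (hl : Lok a l)
    (hδ : ∀ p, MA σ a l τ p p ≤ 0) {ρ β : Fin 3 → ℝ} (hρ : ∀ p, 0 < ρ p)
    (hMρ : ∀ p k, k ≠ p → MA σ a l τ p k ≤ ρ p) (hβ0 : ∀ p, 0 ≤ β p) (hβ1 : ∀ p, β p ≤ 1)
    (hβ : (∀ p, β p = 0) ∨ D.str = true)
    {x : E3} (hx : x ∈ K) (hxs : Qv a (τ 0) x = S (τ 0) ∨ S (τ 0) = 0)
    {N : Fin 3 → Fin 3 → ℝ} (hNd : N = NM (fun i => a (τ i)) (fun i j => z (τ i) (τ j)))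
    {tt : Fin 3 → ℝ} (htt : ∀ k, nc N k ≤ tt k)
    (htD : ∀ k, nc N k ≤ (D.F.tt k : ℝ) / 1000000)
    {φ : ℝ} (sp : D.F.Sp N φ) (hφ : 0 < φ) (hφ1 : φ ≤ 1)
    (hK : ∀ p, β p * ρ p ≤ 2.04 * Pool.Agent.Helper55.Mass.Id (fun t => kap N (vv t) p))
    (hF : ∀ p, (1 - β p) * ρ p ≤ φ * (2.04 * Pool.Agent.Helper55.Mass.Id (flP (PN N) p)))
    (en : Fin n ≃ ι) (hD : Dc V S lam)
    (hV : ∀ (i : Fin n) (j : Fin 4), V (en i) j ≤ qq (D.vN i j))
    {Sm d0 d1 : ℝ} (hI : IsC Sm d0 d1) (hSm : (D.Sx : ℝ) / 1000000 ≤ Sm) (hd1 : 0 ≤ d1)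
    (hd3 : 3 * d1 * (1 + (D.Sx : ℝ) / 1000000) ≤ d0) (hc0 : (c0 : ℝ) / U ≤ d0)
    (hc1 : d1 ≤ (c1 : ℝ) / U)
    (hL : ∀ cN, (∀ m, nc N m ≤ cN) → (∃ m, cN = nc N m) → ∀ k, ∀ q < D.nq,
      qq ((0 :: D.L).getD (q % D.L.length) 0) ≤ pcor (fun i => a (τ i)) x k →
      pcor (fun i => a (τ i)) x k ≤ qq (D.L.getD (q % D.L.length) 0) →
      ucor (fun i => a (τ i)) x k * 1000000 ≤ (D.H.getD (q / D.L.length) 0 : ℕ) →
      HalP (D.C q k) a S τ x N (Rv tt N) k ∧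
      HvalP (D.C q k) 2.04 σ a l S τ x N (Rv tt N) φ β k
        (bcor (fun i => a (τ i)) (2 / 3 * cN) x k * (qq 500000 * (gb D.F).ev (nc N)))
        (S (τ 0) * (gt D.F).ev (nc N)) (S (τ 0) * (gp D.F).ev (nc N))) :
    WCF 2.04 σ a K l τ z S x N (Rv tt N) φ β (fun _ => 0) (fun _ => 0)
      (∑ g ∈ Finset.range n, mu en lam g * D.cst g N) := by
  have h' := h.perm τ
  have v' := viol_perm v τ
  have hz' := hz.perm τ
  have hN : ∀ k m, 0 ≤ N k m := fun k m => by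
    rw [hNd]
    exact NM_nonneg h' v' hz' k m
  have hd : ∀ k, N k k = 0 := fun k => by
    rw [hNd]
    exact NM_diag k
  have hcol : ∀ m, nc N m ≤ 9 / 10 := fun m => by
    rw [hNd]
    exact nc_le h' v' hz' m
  have hc : (9 / 10 : ℝ) < 1 := by norm_num
  have hgr := gram_of_dist h'.ha
  have nn : ∀ m, 0 ≤ nc N m := fun m => Pool.Agent.Helper73.MEI.SideP.nc_nonneg hN m
  obtain ⟨q1, ⟨q2, q3⟩, q4, q5⟩ := numE_iff H.num
  -- levels
  have hS : ∀ j, S j = ∑ w, lam w * V w j := fun j => hD.eq j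
  have hVn : ∀ (w : ι) (j : Fin 4), V w j ≤ qq (D.vN (en.symm w) j) := fun w j => by
    have := hV (en.symm w) j
    rw [Equiv.apply_symm_apply] at this
    exact this
  have hle : ∀ (j : Fin 4) (M : ℕ), (∀ i < n, D.vN i j ≤ M) → S j ≤ qq M := by
    intro j M hM
    rw [hS]
    calc ∑ w, lam w * V w j ≤ ∑ w, lam w * qq M :=
          Finset.sum_le_sum fun w _ => mul_le_mul_of_nonneg_left ((hVn w j).trans
            (qq_mono (hM _ (en.symm w).2))) (hD.nn w)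
      _ = qq M := by
          rw [← Finset.sum_mul, hD.one, one_mul]
  have hSx : ∀ j, S j ≤ qq D.Sx := by
    intro j
    refine hle j _ fun i hi => ?_
    obtain ⟨⟨⟨a0, a1, a2, a3⟩, -⟩, -⟩ := q1 i hi
    have key : j = 0 ∨ j = 1 ∨ j = 2 ∨ j = 3 := by
      fin_cases j <;> simp
    rcases key with rfl | rfl | rfl | rfl
    · exact a0
    · exact a1
    · exact a2
    · exact a3
  have hSV : ∀ k : Fin 3, S (τ k.succ) ≤ qq (6 * D.V6) := by
    intro k
    rw [hτ]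
    refine hle _ _ fun i hi => ?_
    obtain ⟨-, a1, a2, a3⟩ := q1 i hi
    have key : k = 0 ∨ k = 1 ∨ k = 2 := by
      fin_cases k <;> simp
    rcases key with rfl | rfl | rfl
    · exact a1
    · exact a2
    · exact a3
  have hsum : S (τ 0) + (S (τ 1) + S (τ 2) + S (τ 3)) ≤ 1 / 10 := by
    have e1 : S (τ 0) + (S (τ 1) + S (τ 2) + S (τ 3)) = S 0 + S 1 + S 2 + S 3 := by
      have h1 := Equiv.sum_comp τ S
      rw [Fin.sum_univ_four, Fin.sum_univ_four] at h1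
      linarith
    rw [e1, hS 0, hS 1, hS 2, hS 3, ← Finset.sum_add_distrib, ← Finset.sum_add_distrib,
      ← Finset.sum_add_distrib]
    calc ∑ w, (lam w * V w 0 + lam w * V w 1 + lam w * V w 2 + lam w * V w 3) ≤
        ∑ w, lam w * (1 / 10) := by
          refine Finset.sum_le_sum fun w _ => ?_
          have e2 : lam w * V w 0 + lam w * V w 1 + lam w * V w 2 + lam w * V w 3 =
              lam w * (V w 0 + V w 1 + V w 2 + V w 3) := by ring
          rw [e2]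
          refine mul_le_mul_of_nonneg_left ?_ (hD.nn w)
          obtain ⟨⟨-, a4⟩, -⟩ := q1 _ (en.symm w).2
          have a5 : ((D.vN (en.symm w) 0 : ℝ) + (D.vN (en.symm w) 1 : ℝ)
            + (D.vN (en.symm w) 2 : ℝ) + (D.vN (en.symm w) 3 : ℝ)) ≤ 100000 := by
            exact_mod_cast a4
          have b0 := hVn w 0
          have b1 := hVn w 1
          have b2 := hVn w 2
          have b3 := hVn w 3
          unfold qq at b0 b1 b2 b3
          linarith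
      _ = 1 / 10 := by
          rw [← Finset.sum_mul, hD.one, one_mul]
  -- the largest leak
  obtain ⟨cN, hcN, m0, hm0⟩ : ∃ cN, (∀ m, nc N m ≤ cN) ∧ ∃ m, cN = nc N m := by
    rcases le_total (nc N 0) (nc N 1) with h1 | h1
    · rcases le_total (nc N 1) (nc N 2) with h2 | h2
      · refine ⟨nc N 2, fun m => ?_, 2, rfl⟩
        have key : m = 0 ∨ m = 1 ∨ m = 2 := by
          fin_cases m <;> simp
        rcases key with rfl | rfl | rfl
        · exact h1.trans h2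
        · exact h2
        · exact le_rfl
      · refine ⟨nc N 1, fun m => ?_, 1, rfl⟩
        have key : m = 0 ∨ m = 1 ∨ m = 2 := by
          fin_cases m <;> simp
        rcases key with rfl | rfl | rfl
        · exact h1
        · exact le_rfl
        · exact h2
    · rcases le_total (nc N 0) (nc N 2) with h2 | h2
      · refine ⟨nc N 2, fun m => ?_, 2, rfl⟩
        have key : m = 0 ∨ m = 1 ∨ m = 2 := by
          fin_cases m <;> simp
        rcases key with rfl | rfl | rfl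
        · exact h2
        · exact h1.trans h2
        · exact le_rfl
      · refine ⟨nc N 0, fun m => ?_, 0, rfl⟩
        have key : m = 0 ∨ m = 1 ∨ m = 2 := by
          fin_cases m <;> simp
        rcases key with rfl | rfl | rfl
        · exact le_rfl
        · exact h1
        · exact h2
  have cN0 : 0 ≤ cN := (nn 0).trans (hcN 0)
  have httm : ∀ m, (D.F.tt m : ℝ) / 1000000 ≤ 1 / 2 := fun m => by
    have : (D.F.tt m : ℝ) ≤ 500000 := by exact_mod_cast q4 m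
    linarith
  have hcN1 : cN ≤ 1 / 2 := by
    rw [hm0]
    exact (htD m0).trans (httm m0)
  -- the share
  have hT : TN N = nc N 0 + nc N 1 + nc N 2 := rfl
  have hT0 : 0 ≤ TN N := TN_nonneg hN
  -- omega
  obtain ⟨ω, hωd⟩ : ∃ ω, ω = (D.F.om : ℝ) / 2000000 := ⟨_, rfl⟩
  have om1 : (D.F.om : ℝ) ≤ 1000000 := by exact_mod_cast q3
  have hω0 : 0 ≤ ω := by
    rw [hωd]
    positivity
  have hω1 : ω ≤ 1 / 2 := by
    rw [hωd]
    linarith
  have hω2 : 0 < 1 - ω := by linarith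
  have hχ : 3 / 2 + 2 * qq D.Sx ≤ (1 / (1 - ω)) ^ 2 := by
    have h1 := (Nat.cast_le (α := ℝ)).2 q2
    rw [Nat.cast_mul, Nat.cast_pow, Nat.cast_sub (q3.trans (by norm_num))] at h1
    push_cast at h1
    rw [one_div, inv_pow, ← one_div, le_div_iff₀ (by positivity), hωd]
    unfold qq
    have e : (3 / 2 + 2 * ((D.Sx : ℝ) / 1000000)) * (1 - (D.F.om : ℝ) / 2000000) ^ 2 =
        (1500000 + 2 * (D.Sx : ℝ)) * (2000000 - (D.F.om : ℝ)) ^ 2 / 4000000000000000000 := by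
      ring
    rw [e, div_le_one (by norm_num)]
    exact h1
  -- classes
  have cel : ∀ k, ∃ κ, Cel (pcor (fun i => a (τ i)) x k) κ 0 0 D.L := fun k =>
    Cel_unit (prt_nonneg _ _) (prt_le _ _) H.L0 H.L1
  choose κ hκ using cel
  have celu : ∀ k, ∃ κ, Cel (ucor (fun i => a (τ i)) x k) κ 0 0 D.H := fun k =>
    ucor_cel H.H0 H.H1
  choose κ' hκ' using celu
  obtain ⟨ν, hν⟩ : ∃ ν : Fin 3 → ℕ, ∀ k, ν k = κ k + D.L.length * κ' k := ⟨_, fun _ => rfl⟩
  have cq : ∀ k, ν k < D.nq := fun k => by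
    rw [hν]
    exact cls_lt (hκ k) (hκ' k)
  have cm : ∀ k, ν k % D.L.length = κ k := fun k => by
    rw [hν, Nat.add_mul_mod_self_left, Nat.mod_eq_of_lt (Cel_ends (hκ k)).1]
  have cd : ∀ k, ν k / D.L.length = κ' k := fun k => by
    have hpos : 0 < D.L.length := lt_of_le_of_lt (Nat.zero_le _) (Cel_ends (hκ k)).1
    rw [hν, Nat.add_mul_div_left _ _ hpos, Nat.div_eq_of_lt (Cel_ends (hκ k)).1, zero_add]
  have c5 : ∀ k, qq ((0 :: D.L).getD (ν k % D.L.length) 0) ≤ pcor (fun i => a (τ i)) x k :=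
    fun k => by
    obtain ⟨-, c5, -⟩ := Cel_ends (hκ k)
    rw [cm]
    unfold qq
    rw [div_le_iff₀ (by norm_num)]
    exact c5
  have c6 : ∀ k, pcor (fun i => a (τ i)) x k ≤ qq (D.L.getD (ν k % D.L.length) 0) := fun k => by
    obtain ⟨-, -, c6⟩ := Cel_ends (hκ k)
    rw [cm]
    unfold qq
    rw [le_div_iff₀ (by norm_num)]
    exact c6
  have c7 : ∀ k, ucor (fun i => a (τ i)) x k * 1000000 ≤ (D.H.getD (ν k / D.L.length) 0 : ℕ) :=
    fun k => by
    rw [cd]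
    exact (Cel_ends (hκ' k)).2.2
  have hLk := fun k => hL cN hcN ⟨m0, hm0⟩ k (ν k) (cq k) (c5 k) (c6 k) (c7 k)
  -- the relative deficits
  obtain ⟨f1, f2, f3, f4, f5⟩ := body_geo hgr (h'.hp x hx) (v'.le 0 x hx)
  have bet1 : ∀ k, bcor (fun i => a (τ i)) (2 / 3 * cN) x k ≤ 1 := by
    obtain ⟨z1, z2, z3⟩ := Zd_le (c := 2 / 3 * cN) (by linarith) f1 f2 f3 f4
    intro k
    have key : k = 0 ∨ k = 1 ∨ k = 2 := by
      fin_cases k <;> simp
    rcases key with rfl | rfl | rfl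
    · exact bet_le_one (u := b3 (fun i => a (τ i)) x 2) (v := b3 (fun i => a (τ i)) x 1)
        (by linarith)
    · exact bet_le_one (u := b3 (fun i => a (τ i)) x 0) (v := b3 (fun i => a (τ i)) x 2)
        (by linarith)
    · exact bet_le_one (u := b3 (fun i => a (τ i)) x 0) (v := b3 (fun i => a (τ i)) x 1)
        (by linarith)
  have bet0 : ∀ k, 0 ≤ bcor (fun i => a (τ i)) (2 / 3 * cN) x k := fun k => bet_nonneg _ _ _
  -- the affine functions
  have s0 : 0 ≤ S (τ 0) := v.nn _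
  have eb : (gb D.F).ev (nc N) = 1 - ((D.F.g0 : ℝ) / 1000000 + (D.F.g1 : ℝ) / 1000000 * TN N) := by
    have hg : D.F.g0 ≤ 1000000 := by
      have h1 := H.phi
      unfold phk at h1
      simp only [Bool.and_eq_true, Nat.ble_eq] at h1
      exact h1.1.2.1.2
    unfold gb
    rw [ga_sum, ← hT]
    unfold qq
    rw [Nat.cast_sub hg]
    push_cast
    ring
  have et : (gt D.F).ev (nc N) = (D.F.l0 : ℝ) / 1000000 + (D.F.l1 : ℝ) / 1000000 * TN N := by
    unfold gt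
    rw [ga_sum, ← hT]
    unfold qq
    push_cast
    ring
  have ep : (gp D.F).ev (nc N) =
      2 * ((D.F.f0 : ℝ) / 1000000 + (D.F.f1 : ℝ) / 1000000 * TN N) := by
    unfold gp
    rw [ga_sum, ← hT]
    unfold qq
    push_cast
    ring
  have eb1 : 1 - φ ≤ (gb D.F).ev (nc N) := by
    rw [eb]
    linarith [sp.lo]
  have et1 : 1 - φ ≤ (gt D.F).ev (nc N) := by
    rw [et]
    have k1 := sp.l hφ1 0
    have k2 : 0 ≤ (1 - φ) * ((D.F.r1 : ℝ) / 1000000 * nc N 0) := by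
      have := nn 0
      have : 0 ≤ 1 - φ := by linarith
      positivity
    linarith
  have ep1 : 2 * φ ≤ (gp D.F).ev (nc N) := by
    rw [ep]
    linarith [sp.hi]
  have hT' : nc N 0 + nc N 1 + nc N 2 = TN N := rfl
  have q1e : qq 1000000 = 1 := by
    unfold qq
    norm_num
  have hU : ((2040000 : ℕ) : ℝ) / (U : ℝ) = 2.04 := by
    norm_num [Helper60.R7.U]
  have z0 : ((0 : ℕ) : ℝ) / (U : ℝ) = 0 := by simp
  refine wcf_gen (A := 2040000) h v hz τ hl hδ hρ hMρ hx hxs hNd htt hU (by norm_num) hφ hφ1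
    hβ0 hβ1 hK hF hcN hcN1 (s := qq D.Sx)
    (χ := 1 / (1 - ω)) (ω := ω) hSx (div_nonneg zero_le_one (by linarith)) hχ hω0
    (by rw [mul_one_div, div_self (by linarith)]) hSV (C := fun k => D.C (ν k) k)
    (c0 := c0) (c1 := c1) (hh := 0) (fun k => H.fam _ (cq k) k)
    (wt := fun k => wt D.F.tt (nc N) (bcor (fun i => a (τ i)) (2 / 3 * cN) x k))
    (μ := fun _ _ => mu en lam)
    (b := fun k => bcor (fun i => a (τ i)) (2 / 3 * cN) x k * (qq 500000 * (gb D.F).ev (nc N)))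
    (te := fun _ => S (τ 0) * (gt D.F).ev (nc N)) (pe := fun _ => S (τ 0) * (gp D.F).ev (nc N))
    (fun k => ?_) (fun k => (hLk k).1) (fun k => (hLk k).2) hI (fun j => (hSx j).trans hSm) hd1 ?_ hc0 hc1 (X := 1 / 10)
    (y := 0.2823 + 2.04 * ((1 / 2 + 2) * (2 * (((0 : ℕ) : ℝ) / U)) + 1.134 * (1 / 10)))
    (M := 1) (dj := 2) hsum le_rfl (by rw [z0]; norm_num) (by norm_num) ?_ (by linarith) le_rfl
    le_rfl zero_le_one (by rw [z0]; norm_num) ?_
  · -- the corner `k`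
    refine ⟨c5 k, c6 k, ?_, ?_, ?_, ⟨?_, ?_, ?_, ?_, ?_, ?_, ?_, ?_⟩, ?_, ?_, ?_, ?_, ?_,
      ?_, bet1 k, ?_⟩
    · show qq 0 * nc N k ≤ N (jj k) k
      unfold qq
      simpa using hN (jj k) k
    · show N (jj k) k ≤ qq 1000000 * nc N k
      rw [q1e, one_mul]
      have a0 := hN 0 k
      have a1 := hN 1 k
      have a2 := hN 2 k
      unfold nc
      have key : jj k = 0 ∨ jj k = 1 ∨ jj k = 2 := by
        generalize jj k = m
        fin_cases m <;> simp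
      rcases key with e | e | e <;> rw [e] <;> linarith
    · exact mul_nonneg (bet0 k) (mul_nonneg (qq_nonneg _) (by linarith))
    · -- c
      show φ * (2 * ω + 0 + 2 / 3 * cN) ≤ qq D.F.c0 + qq D.F.c1 * (nc N 0 + nc N 1 + nc N 2)
      have k1 := sp.c m0
      rw [← hm0] at k1
      rw [hT', hωd]
      unfold qq
      refine le_trans (le_of_eq ?_) k1
      ring
    · show φ * (2 * ω + 0 + cN) ≤ qq D.F.d0 + qq D.F.d1 * (nc N 0 + nc N 1 + nc N 2)
      have k1 := sp.d m0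
      rw [← hm0] at k1
      rw [hT', hωd]
      unfold qq
      refine le_trans (le_of_eq ?_) k1
      ring
    · rcases hβ with h0 | h0
      · exact Or.inl h0
      · right
        show 2 * ω + 0 ≤ qq D.rc
        have k1 : (D.F.om : ℝ) ≤ D.rc := by exact_mod_cast (str_iff h0).2.1
        rw [hωd]
        unfold qq
        linarith
    · show (1 - φ) / 2 * bcor (fun i => a (τ i)) (2 / 3 * cN) x k ≤ qq 1000000 *
        (bcor (fun i => a (τ i)) (2 / 3 * cN) x k * (qq 500000 * (gb D.F).ev (nc N)))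
      have k1 := mul_le_mul_of_nonneg_left eb1 (bet0 k)
      have k2 : qq 500000 = 1 / 2 := by
        unfold qq
        norm_num
      rw [q1e, k2]
      linarith
    · show (1 - φ) * S (τ 0) ≤ qq 1000000 * (S (τ 0) * (gt D.F).ev (nc N))
      have k1 := mul_le_mul_of_nonneg_left et1 s0
      rw [q1e]
      linarith
    · show φ * (2 * S (τ 0)) ≤ qq 1000000 * (S (τ 0) * (gp D.F).ev (nc N))
      have k1 := mul_le_mul_of_nonneg_left ep1 s0
      rw [q1e]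
      linarith
    · rcases hβ with h0 | h0
      · exact Or.inl h0
      · right
        show 2 * S (τ 0) + 2 * qq (6 * D.V6) ≤ qq D.re
        have k1 : (2 * (D.Sx : ℝ) + 12 * (D.V6 : ℝ)) ≤ D.re := by
          exact_mod_cast (str_iff h0).2.2
        have k2 := hSx (τ 0)
        unfold qq at k2 ⊢
        push_cast
        linarith
    · show qq (6 * D.V6) / 6 ≤ qq D.V6
      unfold qq
      push_cast
      linarith
    · exact mul_nonneg s0 (by linarith)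
    · exact mul_nonneg s0 (by linarith)
    · exact fun e => wt_nonneg nn htD (bet0 k) (bet1 k) e
    · exact wt_one _ _ _
    · exact vr_hst (H.row _ (cq k) k) en hD hV (hτ 0) (hτ _) (hτ _) (hτ _) nn htD (bet0 k)
        (bet1 k) (H.len _ (cq k) k)
    · exact vr_rowB (H.row _ (cq k) k) en hD hV (hτ 0) (hτ _) (hτ _) (hτ _) (H.len _ (cq k) k)
        (H.fam _ (cq k) k).tab
    · rcases hβ with h0 | h0
      · exact Or.inl h0
      · right
        exact stk_iff ((str_iff h0).1 _ (cq k) k) (nn k) (nn _) (nn _) (htD k) (htD _) (htD _)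
  · -- `3 d1 (1 + S0) ≤ d0`
    have k1 := mul_le_mul_of_nonneg_left (hSx (τ 0)) (show 0 ≤ 3 * d1 by linarith)
    unfold qq at k1
    linarith
  · -- `dj`
    have k1 : φ * (2 * ω + 2 / 3 * cN) ≤ 1 * (2 * ω + 2 / 3 * cN) :=
      mul_le_mul_of_nonneg_right hφ1 (by linarith)
    linarith
  · -- the cost
    have key := vr_cost4 (X := D.Sx) hgr (h'.hp x hx) (v'.le 0 x hx) (c := 2 / 3 * cN)
      (by linarith) (by linarith) (by
        have := hSx (τ 0)
        unfold qq at this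
        linarith) s0 hκ hκ' (m := n) (lam := mu en lam) (mu_nonneg en hD.nn) nn htD H.ck H.tr
      (fun q hq k e => H.len q hq k e) H.w0 H.w1
    have e0 : (17 : ℝ) * (((0 : ℕ) : ℝ) / (U : ℝ)) ^ 2 * 1 *
        (0.2823 + 2.04 * ((1 / 2 + 2) * (2 * (((0 : ℕ) : ℝ) / U)) + 1.134 * (1 / 10))) = 0 := by
      rw [z0]
      norm_num
    rw [e0, add_zero]
    simp only [← hν] at key
    exact key

end main

end Helper22.VR
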