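import Pool.Agent.Helper14.MEI4.ZH
import Pool.Agent.Helper60.MEI.R9T

/-!
# Project MEI (M2), track B: the cost of a face from the weights of the families

`vr_cost`: the weights of the families of the three corners (members = leak corner `r`, bit of the
apex `b`; rows = vertices of the levels) in the classes of the positions of the apex are at most
the combination of the costs of the vertices, linear in the leaks.
-/

set_option autoImplicit false

namespace Helper22.VR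

open Helper93.MEI Helper78.MEI Helper80.CW Helper14.CW Pool.Agent.Helper52.MEI Helper14.MEI4
open Helper60.R7 (jj ll)
open Helper60.R8 (Cor)

/-- the weight of the member `(r, b)` of a family -/
noncomputable def wm (tt : Fin 3 → ℕ) (n : Fin 3 → ℝ) (β : ℝ) (e : Fin 8 × Bool) : ℝ :=
  wbx tt n e.1 * (if e.2 then β else 1 - β)

theorem wm_nonneg {tt : Fin 3 → ℕ} {n : Fin 3 → ℝ} (hn0 : ∀ k, 0 ≤ n k)
    (hn : ∀ k, n k ≤ (tt k : ℝ) / 1000000) {β : ℝ} (h0 : 0 ≤ β) (h1 : β ≤ 1)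
    (e : Fin 8 × Bool) : 0 ≤ wm tt n β e := by
  unfold wm
  refine mul_nonneg (wbx_nonneg hn0 hn _) ?_
  split_ifs
  · exact h0
  · linarith

/-- sums over the members -/
theorem wm_sum {tt : Fin 3 → ℕ} {n : Fin 3 → ℝ} {β : ℝ} (F G : ℕ → ℝ)
    (f : Fin 8 × Bool → ℝ) (h0 : ∀ r, f (r, false) = F r) (h1 : ∀ r, f (r, true) = G r) :
    ∑ e, wm tt n β e * f e = (1 - β) * (∑ r ∈ Finset.range 8, wbx tt n r * F r) +
      β * (∑ r ∈ Finset.range 8, wbx tt n r * G r) := by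
  rw [Fintype.sum_prod_type, Finset.mul_sum, Finset.mul_sum, ← Finset.sum_add_distrib,
    Finset.sum_range]
  refine Finset.sum_congr rfl fun r _ => ?_
  rw [Fintype.sum_bool, h0, h1]
  unfold wm
  simp only [if_true, Bool.false_eq_true, if_false]
  ring

theorem wbx_sum {tt : Fin 3 → ℕ} {n : Fin 3 → ℝ} (hn0 : ∀ k, 0 ≤ n k)
    (hn : ∀ k, n k ≤ (tt k : ℝ) / 1000000) : ∑ r ∈ Finset.range 8, wbx tt n r = 1 := by
  have h := wbx_mean (tt := tt) hn0 hn 1 0 0 0 0 0 0 0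
  simpa using h

theorem wm_one {tt : Fin 3 → ℕ} {n : Fin 3 → ℝ} (hn0 : ∀ k, 0 ≤ n k)
    (hn : ∀ k, n k ≤ (tt k : ℝ) / 1000000) (β : ℝ) : ∑ e, wm tt n β e = 1 := by
  have h := wm_sum (tt := tt) (n := n) (β := β) (fun _ => 1) (fun _ => 1) (fun _ => 1)
    (fun _ => rfl) (fun _ => rfl)
  simp only [mul_one] at h
  rw [h, wbx_sum hn0 hn]
  ring

/-- the weight of a table from the numbers of its rows -/
theorem W_le {Q : Cor} {m : ℕ} (hm : Q.rows.length = m) {lam : ℕ → ℝ}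
    (h0 : ∀ i, 0 ≤ lam i) {e : ℕ → ℕ} (h : ∀ i < m, Q.w i ≤ 400000000000000 * e i) :
    Q.W lam ≤ ∑ i ∈ Finset.range m, lam i * (1 / 10000000000 * (e i : ℝ)) := by
  unfold Cor.W
  rw [hm]
  refine Finset.sum_le_sum fun i hi => mul_le_mul_of_nonneg_left ?_ (h0 i)
  have h1 : ((Q.w i : ℕ) : ℝ) ≤ 400000000000000 * (e i : ℝ) := by
    exact_mod_cast h i (Finset.mem_range.1 hi)
  have hU : (Helper60.R7.U : ℝ) = 1000000 := by
    norm_num [Helper60.R7.U]
  rw [hU, div_le_iff₀ (by norm_num)]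
  linarith

/-- **THE COST OF A FACE FROM THE WEIGHTS OF THE FAMILIES** -/
theorem vr_cost {a : Fin 4 → E3} (hg : Gram4 (al a)) {x : E3} (hx : Pl a x) {X : ℕ} {c s' : ℝ}
    (hq : Qv a 0 x ≤ s') (hc0 : 0 ≤ c) (hc : c ≤ 2 / 5) (hs' : s' * 1000000 ≤ X) (hs0 : 0 ≤ s')
    {L : List ℕ} {κ : Fin 3 → ℕ} (hκ : ∀ k, Cel (pcor a x k) (κ k) 0 0 L)
    {m : ℕ} {lam : ℕ → ℝ} (hl : ∀ g, 0 ≤ lam g)
    {n : Fin 3 → ℝ} {tt : Fin 3 → ℕ} (hn0 : ∀ k, 0 ≤ n k)
    (hn : ∀ k, n k ≤ (tt k : ℝ) / 1000000)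
    {e d : ℕ → ℕ → ℕ → Fin 3 → ℕ} {em : ℕ → ℕ → Fin 3 → ℕ}
    {V : ℕ → ℕ → ℕ} {A : ℕ → ℕ} {B : ℕ → Fin 3 → ℕ} {Tr : ℕ → ℕ → ZT}
    (hck : ∀ g < m, ∀ r < 8, zfck L.length tt (e g r) (em g r) (V g r) (A g) (B g) r = true)
    (hz : ∀ g < m, ∀ r < 8, zchk2 X (V g r) (tabL2 0 L (fun q => e g r q 0) fun q => d g r q 0)
      (tabL2 0 L (fun q => e g r q 1) fun q => d g r q 1)
      (tabL2 0 L (fun q => e g r q 2) fun q => d g r q 2) (Tr g r)
      0 0 0 1000000 1000000 1000000 = true)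
    {Q : ℕ → Fin 3 → Fin 8 × Bool → Cor}
    (hlen : ∀ q < L.length, ∀ k j, (Q q k j).rows.length = m)
    (h1 : ∀ q < L.length, ∀ k, ∀ r : Fin 8, ∀ g < m,
      (Q q k (r, false)).w g ≤ 400000000000000 * e g r q k)
    (h2 : ∀ q < L.length, ∀ k, ∀ r : Fin 8, ∀ g < m,
      (Q q k (r, true)).w g ≤ 400000000000000 * (e g r q k + d g r q k)) :
    (√2)⁻¹ * ((∑ j, wm tt n (bcor a c x 0) j * (Q (κ 0) 0 j).W lam)
      + (∑ j, wm tt n (bcor a c x 1) j * (Q (κ 1) 1 j).W lam)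
      + (∑ j, wm tt n (bcor a c x 2) j * (Q (κ 2) 2 j).W lam)) ≤
      ∑ g ∈ Finset.range m, lam g * ((A g : ℝ) / 1000000000000
        + (B g 0 : ℝ) / 1000000000 * n 0
        + (B g 1 : ℝ) / 1000000000 * n 1 + (B g 2 : ℝ) / 1000000000 * n 2) := by
  have bw : ∀ r, 0 ≤ wbx tt n r := wbx_nonneg hn0 hn
  have cq : ∀ k, κ k < L.length := fun k => (Cel_ends (hκ k)).1
  -- extension of a family to all numbers
  have ext : ∀ (b : Bool) (k : Fin 3), ∀ r : Fin 8,
      (Q (κ k) k (r, b)).W lam = (fun s : ℕ => if h : s < 8 then (Q (κ k) k (⟨s, h⟩, b)).W lam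
        else 0) r := fun b k r => by
    simp
  have key := zlin3 hg hx hq hc0 hc hs' hs0 hκ (Finset.range m) (lam := lam)
    (fun g _ => hl g) hn0 hn (e := e) (d := d) (em := em) (V := V) (A := A) (B := B) (Tr := Tr)
    (fun g hg' r hr => hck g (Finset.mem_range.1 hg') r hr)
    (fun g hg' r hr => hz g (Finset.mem_range.1 hg') r hr)
    (T := fun k => ∑ r ∈ Finset.range 8, wbx tt n r *
      (if h : r < 8 then (Q (κ k) k (⟨r, h⟩, false)).W lam else 0))
    (W := fun k => ∑ r ∈ Finset.range 8, wbx tt n r *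
      (if h : r < 8 then (Q (κ k) k (⟨r, h⟩, true)).W lam else 0))
    (fun k => by
      rw [Finset.sum_comm]
      refine Finset.sum_le_sum fun r hr => ?_
      have hr' := Finset.mem_range.1 hr
      rw [dif_pos hr']
      have h3 := mul_le_mul_of_nonneg_left (W_le (hlen _ (cq k) k (⟨r, hr'⟩, false)) hl
        (h1 _ (cq k) k ⟨r, hr'⟩)) (bw r)
      refine h3.trans (le_of_eq ?_)
      rw [Finset.mul_sum]
      exact Finset.sum_congr rfl fun g _ => by ring)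
    (fun k => by
      rw [Finset.sum_comm]
      refine Finset.sum_le_sum fun r hr => ?_
      have hr' := Finset.mem_range.1 hr
      rw [dif_pos hr']
      have h3 := mul_le_mul_of_nonneg_left (W_le (hlen _ (cq k) k (⟨r, hr'⟩, true)) hl
        (h2 _ (cq k) k ⟨r, hr'⟩)) (bw r)
      refine h3.trans (le_of_eq ?_)
      rw [Finset.mul_sum]
      refine Finset.sum_congr rfl fun g _ => ?_
      push_cast
      ring)
  refine le_trans (le_of_eq ?_) key
  have sm : ∀ k, ∑ j, wm tt n (bcor a c x k) j * (Q (κ k) k j).W lam =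
      (1 - bcor a c x k) * (∑ r ∈ Finset.range 8, wbx tt n r *
        (if h : r < 8 then (Q (κ k) k (⟨r, h⟩, false)).W lam else 0)) +
      bcor a c x k * (∑ r ∈ Finset.range 8, wbx tt n r *
        (if h : r < 8 then (Q (κ k) k (⟨r, h⟩, true)).W lam else 0)) := fun k =>
    wm_sum (fun s => if h : s < 8 then (Q (κ k) k (⟨s, h⟩, false)).W lam else 0)
      (fun s => if h : s < 8 then (Q (κ k) k (⟨s, h⟩, true)).W lam else 0)
      (fun j => (Q (κ k) k j).W lam) (ext false k) (ext true k)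
  rw [sm 0, sm 1, sm 2]

end Helper22.VR
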