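import Pool.Agent.Helper14.MEI4.ZI
import Pool.Agent.Helper22.MEI.VRA

/-!
# Project MEI (M2), track B: the cost of a face, classes by position and height of the apex

`vr_cost4` = `vr_cost` with the classes `(p, u)` of `zlin4`.
-/

set_option autoImplicit false

namespace Helper22.VR

open Helper93.MEI Helper78.MEI Helper80.CW Helper14.CW Pool.Agent.Helper52.MEI Helper14.MEI4
open Helper60.R7 (jj ll)
open Helper60.R8 (Cor)

/-- the number of a class -/
theorem cls_lt {p u : ℝ} {c d : ℕ} {L U : List ℕ} (h1 : Cel p c 0 0 L) (h2 : Cel u d 0 0 U) :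
    c + L.length * d < L.length * U.length := by
  have a1 := (Cel_ends h1).1
  have a2 := (Cel_ends h2).1
  have h3 : L.length * (d + 1) ≤ L.length * U.length := Nat.mul_le_mul_left _ a2
  have h4 : L.length * (d + 1) = L.length * d + L.length := by ring
  omega

/-- **THE COST OF A FACE FROM THE WEIGHTS OF THE FAMILIES**, classes `(p, u)` -/
theorem vr_cost4 {a : Fin 4 → E3} (hg : Gram4 (al a)) {x : E3} (hx : Pl a x) {X : ℕ} {c s' : ℝ}
    (hq : Qv a 0 x ≤ s') (hc0 : 0 ≤ c) (hc : c ≤ 2 / 5) (hs' : s' * 1000000 ≤ X) (hs0 : 0 ≤ s')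
    {L U : List ℕ} {κ σ : Fin 3 → ℕ} (hκ : ∀ k, Cel (pcor a x k) (κ k) 0 0 L)
    (hσ : ∀ k, Cel (ucor a x k) (σ k) 0 0 U)
    {m : ℕ} {lam : ℕ → ℝ} (hl : ∀ g, 0 ≤ lam g)
    {n : Fin 3 → ℝ} {tt : Fin 3 → ℕ} (hn0 : ∀ k, 0 ≤ n k)
    (hn : ∀ k, n k ≤ (tt k : ℝ) / 1000000)
    {e d : ℕ → ℕ → ℕ → Fin 3 → ℕ} {em : ℕ → ℕ → Fin 3 → ℕ}
    {V : ℕ → ℕ → ℕ} {A : ℕ → ℕ} {B : ℕ → Fin 3 → ℕ} {Tr : ℕ → ℕ → ZT}
    (hck : ∀ g < m, ∀ r < 8, zfck (L.length * U.length) tt (e g r) (em g r) (V g r) (A g) (B g) r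
      = true)
    (hz : ∀ g < m, ∀ r < 8, zchk3 X (V g r)
      (tabL3 0 U L (fun q => e g r q 0) fun q => d g r q 0)
      (tabL3 0 U L (fun q => e g r q 1) fun q => d g r q 1)
      (tabL3 0 U L (fun q => e g r q 2) fun q => d g r q 2) (Tr g r)
      0 0 0 1000000 1000000 1000000 = true)
    {Q : ℕ → Fin 3 → Fin 8 × Bool → Cor}
    (hlen : ∀ q < L.length * U.length, ∀ k j, (Q q k j).rows.length = m)
    (h1 : ∀ q < L.length * U.length, ∀ k, ∀ r : Fin 8, ∀ g < m,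
      (Q q k (r, false)).w g ≤ 400000000000000 * e g r q k)
    (h2 : ∀ q < L.length * U.length, ∀ k, ∀ r : Fin 8, ∀ g < m,
      (Q q k (r, true)).w g ≤ 400000000000000 * (e g r q k + d g r q k)) :
    (√2)⁻¹ * ((∑ j, wm tt n (bcor a c x 0) j * (Q (κ 0 + L.length * σ 0) 0 j).W lam)
      + (∑ j, wm tt n (bcor a c x 1) j * (Q (κ 1 + L.length * σ 1) 1 j).W lam)
      + (∑ j, wm tt n (bcor a c x 2) j * (Q (κ 2 + L.length * σ 2) 2 j).W lam)) ≤
      ∑ g ∈ Finset.range m, lam g * ((A g : ℝ) / 1000000000000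
        + (B g 0 : ℝ) / 1000000000 * n 0
        + (B g 1 : ℝ) / 1000000000 * n 1 + (B g 2 : ℝ) / 1000000000 * n 2) := by
  have bw : ∀ r, 0 ≤ wbx tt n r := wbx_nonneg hn0 hn
  obtain ⟨ν, hν⟩ : ∃ ν : Fin 3 → ℕ, ∀ k, ν k = κ k + L.length * σ k := ⟨_, fun _ => rfl⟩
  have cq : ∀ k, ν k < L.length * U.length := fun k => by
    rw [hν]
    exact cls_lt (hκ k) (hσ k)
  simp only [← hν]
  -- extension of a family to all numbers
  have ext : ∀ (b : Bool) (k : Fin 3), ∀ r : Fin 8,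
      (Q (ν k) k (r, b)).W lam = (fun s : ℕ => if h : s < 8 then (Q (ν k) k (⟨s, h⟩, b)).W lam
        else 0) r := fun b k r => by
    simp
  have key := zlin4 hg hx hq hc0 hc hs' hs0 hκ hσ (Finset.range m) (lam := lam)
    (fun g _ => hl g) hn0 hn (e := e) (d := d) (em := em) (V := V) (A := A) (B := B) (Tr := Tr)
    (fun g hg' r hr => hck g (Finset.mem_range.1 hg') r hr)
    (fun g hg' r hr => hz g (Finset.mem_range.1 hg') r hr)
    (T := fun k => ∑ r ∈ Finset.range 8, wbx tt n r *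
      (if h : r < 8 then (Q (ν k) k (⟨r, h⟩, false)).W lam else 0))
    (W := fun k => ∑ r ∈ Finset.range 8, wbx tt n r *
      (if h : r < 8 then (Q (ν k) k (⟨r, h⟩, true)).W lam else 0))
    (fun k => by
      rw [← hν k, Finset.sum_comm]
      refine Finset.sum_le_sum fun r hr => ?_
      have hr' := Finset.mem_range.1 hr
      rw [dif_pos hr']
      have h3 := mul_le_mul_of_nonneg_left (W_le (hlen _ (cq k) k (⟨r, hr'⟩, false)) hl
        (h1 _ (cq k) k ⟨r, hr'⟩)) (bw r)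
      refine h3.trans (le_of_eq ?_)
      rw [Finset.mul_sum]
      exact Finset.sum_congr rfl fun g _ => by ring)
    (fun k => by
      rw [← hν k, Finset.sum_comm]
      refine Finset.sum_le_sum fun r hr => ?_
      have hr' := Finset.mem_range.1 hr
      rw [dif_pos hr']
      have h3 := mul_le_mul_of_nonneg_left (W_le (hlen _ (cq k) k (⟨r, hr'⟩, true)) hl
        (h2 _ (cq k) k ⟨r, hr'⟩)) (bw r)
      refine h3.trans (le_of_eq ?_)
      rw [Finset.mul_sum]
      refine Finset.sum_congr rfl fun g _ => ?_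
      push_cast
      ring)
  refine le_trans (le_of_eq ?_) key
  have sm : ∀ k, ∑ j, wm tt n (bcor a c x k) j * (Q (ν k) k j).W lam =
      (1 - bcor a c x k) * (∑ r ∈ Finset.range 8, wbx tt n r *
        (if h : r < 8 then (Q (ν k) k (⟨r, h⟩, false)).W lam else 0)) +
      bcor a c x k * (∑ r ∈ Finset.range 8, wbx tt n r *
        (if h : r < 8 then (Q (ν k) k (⟨r, h⟩, true)).W lam else 0)) := fun k =>
    wm_sum (fun s => if h : s < 8 then (Q (ν k) k (⟨s, h⟩, false)).W lam else 0)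
      (fun s => if h : s < 8 then (Q (ν k) k (⟨s, h⟩, true)).W lam else 0)
      (fun j => (Q (ν k) k j).W lam) (ext false k) (ext true k)
  rw [sm 0, sm 1, sm 2]

end Helper22.VR
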