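import Pool.Agent.Helper22.MEI.VR2

/-!
# Project MEI (M2), track B: a face from its families

`Fm` = one family of tables (class of the position, corner) with the numbers of its rows and its
weights, `Fm.Ok` = its checks, `Fm.ok16` = the checks from a family with sixteen members
`e = 2 r + b`; `Fc` = a face from its families, `Fc.ok` = the checks of the face.
-/

set_option autoImplicit false

namespace Helper22.VR

open Helper14.MEI4 Helper99.MEI Helper60.R8 Helper60.R9 Helper49.VR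
open Helper60.R7 (jj ll)
open Helper90.R8T (nw)

/-- one family of tables -/
structure Fm where
  Q : Fin 8 × Bool → Cor
  rN : ℕ → Bool → List RN
  As : List LT
  Vs : List VT
  a : ℕ
  n1 : ℕ
  nl : ℕ
  ne : ℕ
  W : ℕ → Bool → List ℕ

/-- the family as an input of `wcf_fam` -/
def Fm.C (G : Fm) (P : TP) (p0 p1 : ℕ) : CT (Fin 8 × Bool) :=
  ⟨G.Q, fun e => G.rN e.1 e.2, P, G.As, G.Vs, p0, p1, 0, 1000000, G.a, G.n1, G.nl, G.ne⟩

/-- **the checks of a family**, `n` rows, corner `k`, class `[p0, p1]` -/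
structure Fm.Ok (G : Fm) (n : ℕ) (F : Helper22.VR.FN) (V6 : ℕ) (vN : ℕ → Fin 4 → ℕ)
    (t : Fin 4 → Fin 4) (k : Fin 3) (p0 p1 c0 c1 e1 : ℕ) : Prop where
  ct : (G.C (tpF F V6) p0 p1).Ok 2040000 c0 c1 0 e1
  len : ∀ e, (G.Q e).rows.length = n
  row : Helper49.VR.vck n F.tt 500000 (gb F) (gt F) (gp F) vN (t 0) (t k.succ) (t (jj k).succ)
    (t (ll k).succ) k G.rN = true
  w : ∀ (r : Fin 8) (b : Bool) (g : ℕ), g < n → (G.Q (r, b)).w g ≤ (G.W r b).getD g 0

/-- the number of the member `(r, b)` -/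
def ix (e : Fin 8 × Bool) : Fin 16 := ⟨2 * e.1 + cond e.2 1 0, by
  have h := e.1.2
  cases e.2 <;> simp <;> omega⟩

/-- reindexing of a family -/
theorem fam_ix {ι κ : Type*} {Q : ι → Cor} {A c0 c1 n hh : ℕ} {nf : ℕ → ℕ → ℕ}
    (h : Fam Q A c0 c1 nf n hh) (f : κ → ι) : Fam (fun e => Q (f e)) A c0 c1 nf n hh :=
  ⟨fun e => h.ok _, fun e => h.ne _, fun e => h.h _, by
    obtain ⟨T, hT⟩ := h.sk
    exact ⟨T, fun e => hT _⟩⟩

/-- the numbers of the rows of the member `(r, b)` from the list of the sixteen members -/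
def rsN (R : List (List RN)) (r : ℕ) (b : Bool) : List RN := R.getD (2 * r + cond b 1 0) []

/-- the weights of the member `(r, b)` from the list of the sixteen members -/
def wsN (W : List (List ℕ)) (r : ℕ) (b : Bool) : List ℕ := W.getD (2 * r + cond b 1 0) []

/-- **a family with sixteen members** `e = 2 r + b` -/
def fm16 (Q : Fin 16 → Cor) (R : List (List RN)) (As : List LT) (Vs : List VT)
    (a n1 nl ne : ℕ) (W : List (List ℕ)) : Fm :=
  ⟨fun e => Q (ix e), rsN R, As, Vs, a, n1, nl, ne, wsN W⟩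

theorem fm16_ok {Q : Fin 16 → Cor} {R : List (List RN)} {As : List LT} {Vs : List VT}
    {a n1 nl ne : ℕ} {W : List (List ℕ)} {n : ℕ} {F : Helper22.VR.FN} {V6 : ℕ}
    {vN : ℕ → Fin 4 → ℕ} {t : Fin 4 → Fin 4} {k : Fin 3} {p0 p1 c0 c1 e1 : ℕ}
    (fam : Fam Q 2040000 c0 c1 (nw a n1 nl) ne 0)
    (tab : ∀ e : Fin 16, tck (tpF F V6) As Vs 0 1000000 (R.getD e []) (Q e) = true)
    (nls : ∀ e, nl ≤ (Q e).nl) (n1l : n1 ≤ nl) (pos : pok p0 p1 As = true)
    (val : Helper99.MEI.vck e1 Vs = true) (drp : drk As = true)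
    (len : ∀ e, (Q e).rows.length = n)
    (row : Helper49.VR.vck n F.tt 500000 (gb F) (gt F) (gp F) vN (t 0) (t k.succ)
      (t (jj k).succ) (t (ll k).succ) k (rsN R) = true)
    (w : ∀ e : Fin 16, ∀ g < n, (Q e).w g ≤ (W.getD e []).getD g 0) :
    (fm16 Q R As Vs a n1 nl ne W).Ok n F V6 vN t k p0 p1 c0 c1 e1 where
  ct := ⟨fam_ix fam ix, fun e => tab (ix e), fun e => nls _, n1l, pos, val, drp⟩
  len e := len _
  row := row
  w r b g hg := w (ix (r, b)) g hg

/-- **a face from its families** -/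
structure Fc (n : ℕ) where
  F : Helper22.VR.FN
  V6 : ℕ
  Sx : ℕ
  L : List ℕ
  G : ℕ → Fin 3 → Fm
  t : Fin 4 → Fin 4
  vN : ℕ → Fin 4 → ℕ
  e : ℕ → ℕ → ℕ → Fin 3 → ℕ
  d : ℕ → ℕ → ℕ → Fin 3 → ℕ
  em : ℕ → ℕ → Fin 3 → ℕ
  V : ℕ → ℕ → ℕ
  A : ℕ → ℕ
  B : ℕ → Fin 3 → ℕ
  Tr : ℕ → ℕ → ZT

variable {n : ℕ}

/-- the data of a face -/
def Fc.D (X : Fc n) : VD n :=
  ⟨X.F, X.V6, X.Sx, X.L, fun q k => (X.G q k).Q, fun q k => (X.G q k).rN, fun q k => (X.G q k).As,
    fun q k => (X.G q k).Vs, fun q k => (X.G q k).a, fun q k => (X.G q k).n1,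
    fun q k => (X.G q k).nl, fun q k => (X.G q k).ne, X.t, X.vN, X.e, X.d, X.em, X.V, X.A, X.B,
    X.Tr⟩

/-- the check of the weights of a class, a corner and a corner `r` of the box of the leaks -/
def wck1 (n : ℕ) (W0 W1 : List ℕ) (e d : ℕ → ℕ) : Bool :=
  (List.range n).all fun g => Nat.ble (W0.getD g 0) (400000000000000 * e g) &&
    Nat.ble (W1.getD g 0) (400000000000000 * (e g + d g))

/-- the check of the weights -/
def Fc.wck (X : Fc n) : Bool :=
  (List.range X.L.length).all fun q => (List.range 8).all fun r =>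
    wck1 n ((X.G q 0).W r false) ((X.G q 0).W r true) (fun g => X.e g r q 0)
      (fun g => X.d g r q 0) &&
    wck1 n ((X.G q 1).W r false) ((X.G q 1).W r true) (fun g => X.e g r q 1)
      (fun g => X.d g r q 1) &&
    wck1 n ((X.G q 2).W r false) ((X.G q 2).W r true) (fun g => X.e g r q 2)
      (fun g => X.d g r q 2)

theorem three' {P : Fin 3 → Prop} (p0 : P 0) (p1 : P 1) (p2 : P 2) : ∀ k, P k := by
  intro k
  have key : k = 0 ∨ k = 1 ∨ k = 2 := by
    fin_cases k <;> simp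
  rcases key with rfl | rfl | rfl
  · exact p0
  · exact p1
  · exact p2

theorem wck1_iff {n : ℕ} {W0 W1 : List ℕ} {e d : ℕ → ℕ} (h : wck1 n W0 W1 e d = true) {g : ℕ}
    (hg : g < n) : W0.getD g 0 ≤ 400000000000000 * e g ∧
      W1.getD g 0 ≤ 400000000000000 * (e g + d g) := by
  unfold wck1 at h
  have h1 := List.all_eq_true.1 h g (List.mem_range.2 hg)
  simp only [Bool.and_eq_true, Nat.ble_eq] at h1
  exact h1

theorem Fc.wck_iff {X : Fc n} (h : X.wck = true) {q : ℕ} (hq : q < X.L.length) (k : Fin 3)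
    (r : Fin 8) {g : ℕ} (hg : g < n) :
    ((X.G q k).W r false).getD g 0 ≤ 400000000000000 * X.e g r q k ∧
      ((X.G q k).W r true).getD g 0 ≤ 400000000000000 * (X.e g r q k + X.d g r q k) := by
  unfold Fc.wck at h
  have h1 := List.all_eq_true.1 (List.all_eq_true.1 h q (List.mem_range.2 hq)) r
    (List.mem_range.2 r.2)
  simp only [Bool.and_eq_true] at h1
  revert k
  exact three' (wck1_iff h1.1.1 hg) (wck1_iff h1.1.2 hg) (wck1_iff h1.2 hg)

/-- **THE CHECKS OF A FACE FROM THE CHECKS OF ITS FAMILIES** -/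
theorem Fc.ok {X : Fc n} {c0 c1 e1 : ℕ} (phi : phk X.F = true) (num : X.D.num e1 = true)
    (L0 : X.L ≠ []) (L1 : X.L.getLastD 0 = 1000000)
    (fam : ∀ q < X.L.length, ∀ k, (X.G q k).Ok n X.F X.V6 X.vN X.t k ((0 :: X.L).getD q 0)
      (X.L.getD q 0) c0 c1 e1)
    (w : X.wck = true)
    (ck : ∀ g < n, ∀ r < 8, zfck X.L.length X.F.tt (X.e g r) (X.em g r) (X.V g r) (X.A g) (X.B g)
      r = true)
    (tr : ∀ g < n, ∀ r < 8, zchk2 X.Sx (X.V g r)
      (tabL2 0 X.L (fun q => X.e g r q 0) fun q => X.d g r q 0)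
      (tabL2 0 X.L (fun q => X.e g r q 1) fun q => X.d g r q 1)
      (tabL2 0 X.L (fun q => X.e g r q 2) fun q => X.d g r q 2) (X.Tr g r)
      0 0 0 1000000 1000000 1000000 = true) : X.D.Ok c0 c1 e1 where
  phi := phi
  num := num
  L0 := L0
  L1 := L1
  fam q hq k := (fam q hq k).ct
  len q hq k e := (fam q hq k).len e
  row q hq k := (fam q hq k).row
  w0 q hq k r g hg := ((fam q hq k).w r false g hg).trans (Fc.wck_iff w hq k r hg).1
  w1 q hq k r g hg := ((fam q hq k).w r true g hg).trans (Fc.wck_iff w hq k r hg).2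
  ck := ck
  tr := tr

/-- all families, three classes -/
theorem all3 {P : ℕ → Fin 3 → Prop} (a0 : P 0 0) (a1 : P 0 1) (a2 : P 0 2) (b0 : P 1 0)
    (b1 : P 1 1) (b2 : P 1 2) (c0 : P 2 0) (c1 : P 2 1) (c2 : P 2 2) : ∀ q < 3, ∀ k, P q k := by
  intro q hq
  have key : q = 0 ∨ q = 1 ∨ q = 2 := by omega
  rcases key with rfl | rfl | rfl
  · exact three' a0 a1 a2
  · exact three' b0 b1 b2
  · exact three' c0 c1 c2

end Helper22.VR
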