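import Pool.Agent.Helper22.MEI.VRW
import Pool.Agent.Helper22.MEI.VRT
import Pool.Agent.Helper60.MEI.R10F

/-!
# Project MEI (M2), track B: a face from packed families

`Pkf` = a packed family (rule R10) with sixteen members `e = 2 r + b`, `Pkf.Ok` = its checks;
`Fe` = a face from packed families, `Fe.ok` = the kernel checks `VE.Ok` of the face from the
checks of its families, of its numbers and of its trees.
-/

set_option autoImplicit false

namespace Helper22.VR

open Helper14.MEI4 Helper99.MEI Helper60.R8 Helper60.R9 Helper49.VR Helper60.R10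
open Helper60.R7 (jj ll)
open Helper90.R8T (nw)

/-- **a packed family**: `En` = the weights, units `10⁻¹⁰`, index `n e + v` -/
structure Pkf where
  P : PR
  Rs : List (List Row)
  T : Tr
  En : List ℕ
  As : List LT
  Vs : List VT
  a : ℕ
  n1 : ℕ
  nl : ℕ

/-- the number of the member `(r, b)` -/
def iN (e : Fin 8 × Bool) : ℕ := 2 * e.1 + cond e.2 1 0

theorem iN_lt (e : Fin 8 × Bool) : iN e < 16 := by
  unfold iN
  have h := e.1.2
  cases e.2 <;> simp <;> omega

/-- the table of a member -/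
def Pkf.Q (G : Pkf) (c0 c1 : ℕ) (e : Fin 8 × Bool) : Cor :=
  QQ G.P G.Rs 2040000 c0 c1 0 G.T (iN e)

/-- **the checks of a packed family**, `n` rows, numbers `P`, class `[p0, p1]` -/
structure Pkf.Ok (G : Pkf) (n : ℕ) (P : TP) (rs : ℕ → Bool → List RN) (p0 p1 c0 c1 : ℕ) :
    Prop where
  fam : Fam (G.Q c0 c1) 2040000 c0 c1 (nw G.a G.n1 G.nl) G.P.ne 0
  tab : ∀ e : Fin 8 × Bool, tck P G.As G.Vs 0 1000000 (rs e.1 e.2) (G.Q c0 c1 e) = true
  nls : G.nl ≤ G.P.nl
  n1l : G.n1 ≤ G.nl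
  pos : pok p0 p1 G.As = true
  len : ∀ e, (G.Q c0 c1 e).rows.length = n
  w : ∀ e, ∀ g < n, (G.Q c0 c1 e).w g ≤ 400000000000000 * G.En.getD (n * iN e + g) 0

/-- **a packed family from its kernel checks** -/
theorem Pkf.of {G : Pkf} {n : ℕ} {P : TP} {rs : ℕ → Bool → List RN} {p0 p1 c0 c1 w a : ℕ}
    (hE : G.P.E = 16) (hV : G.P.V = n) (nls : G.nl ≤ G.P.nl) (n1l : G.n1 ≤ G.nl)
    (T_ok : OkT G.P 2040000 c0 c1 (nw G.a G.n1 G.nl) 0 G.T 0 500000 0 500000 w a)
    (fin : finB G.P G.Rs 2040000 w a (G.En.map fun x => 400000000000000 * x) = true)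
    (tab : ∀ e < 16, tck P G.As G.Vs 0 1000000 (rs (e / 2) (decide (e % 2 = 1)))
      (QQ G.P G.Rs 2040000 c0 c1 0 G.T e) = true)
    (pos : pok p0 p1 G.As = true) : G.Ok n P rs p0 p1 c0 c1 where
  fam := by
    have h := fam_of fin T_ok
    have h2 := fam_ix h (fun e : Fin 8 × Bool => (⟨iN e, by rw [hE]; exact iN_lt e⟩ : Fin G.P.E))
    exact h2
  tab e := by
    have h := tab (iN e) (iN_lt e)
    obtain ⟨r, b⟩ := e
    have e1 : iN (r, b) / 2 = r := by
      unfold iN
      cases b <;> simp <;> omega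
    have e2 : decide (iN (r, b) % 2 = 1) = b := by
      unfold iN
      cases b <;> simp <;> omega
    rw [e1, e2] at h
    exact h
  nls := nls
  n1l := n1l
  pos := pos
  len e := by
    have h := rows_len fin (e := iN e) (by rw [hE]; exact iN_lt e)
    rw [hV] at h
    exact h
  w e g hg := by
    have h := w_le fin T_ok (e := iN e) (by rw [hE]; exact iN_lt e) (i := g) (by rw [hV]; exact hg)
    rw [hV] at h
    refine h.trans (le_of_eq ?_)
    have h3 : (G.En.map fun x => 400000000000000 * x).getD (iN e * n + g) (400000000000000 * 0) =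
        400000000000000 * G.En.getD (iN e * n + g) 0 := by
      exact List.getD_map _ _ _
    rw [mul_zero] at h3
    rw [h3, mul_comm n]

/-- **a face from packed families** -/
structure Fe (n : ℕ) where
  F : Helper22.VR.FN
  V6 : ℕ
  Sx : ℕ
  rc : ℕ
  re : ℕ
  L : List ℕ
  H : List ℕ
  G : ℕ → Fin 3 → Pkf
  rs : Fin 3 → ℕ → Bool → List RN
  t : Fin 4 → Fin 4
  vN : ℕ → Fin 4 → ℕ
  em : ℕ → ℕ → Fin 3 → ℕ
  V : ℕ → ℕ → ℕ
  A : ℕ → ℕ
  B : ℕ → Fin 3 → ℕ
  Tr : ℕ → ℕ → ZT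

variable {n : ℕ}

/-- the deficit of a family without the gain of the apex -/
def Fe.e (X : Fe n) (g r q : ℕ) (k : Fin 3) : ℕ := (X.G q k).En.getD (n * (2 * r) + g) 0

/-- the gain of the apex -/
def Fe.d (X : Fe n) (g r q : ℕ) (k : Fin 3) : ℕ :=
  (X.G q k).En.getD (n * (2 * r + 1) + g) 0 - X.e g r q k

/-- the data of a face -/
def Fe.D (X : Fe n) (c0 c1 : ℕ) : VE n :=
  ⟨X.F, X.V6, X.Sx, X.rc, X.re, X.L, X.H, fun q k => (X.G q k).Q c0 c1, fun _ k => X.rs k,
    fun q k => (X.G q k).As, fun q k => (X.G q k).Vs, fun q k => (X.G q k).a,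
    fun q k => (X.G q k).n1, fun q k => (X.G q k).nl, fun q k => (X.G q k).P.ne, X.t, X.vN, X.e,
    X.d, X.em, X.V, X.A, X.B, X.Tr⟩

/-- number of classes -/
def Fe.nq (X : Fe n) : ℕ := X.L.length * X.H.length

/-- the check of the rows -/
def Fe.rowk (X : Fe n) : Bool :=
  Helper49.VR.vck n X.F.tt 500000 (gb X.F) (gt X.F) (gp X.F) X.vN (X.t 0)
    (X.t (Fin.succ 0)) (X.t (jj 0).succ) (X.t (ll 0).succ) 0 (X.rs 0) &&
  Helper49.VR.vck n X.F.tt 500000 (gb X.F) (gt X.F) (gp X.F) X.vN (X.t 0)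
    (X.t (Fin.succ 1)) (X.t (jj 1).succ) (X.t (ll 1).succ) 1 (X.rs 1) &&
  Helper49.VR.vck n X.F.tt 500000 (gb X.F) (gt X.F) (gp X.F) X.vN (X.t 0)
    (X.t (Fin.succ 2)) (X.t (jj 2).succ) (X.t (ll 2).succ) 2 (X.rs 2)

/-- the final check of the vertices -/
def Fe.ckk (X : Fe n) : Bool :=
  (List.range n).all fun g => (List.range 8).all fun r =>
    zfck X.nq X.F.tt (X.e g r) (X.em g r) (X.V g r) (X.A g) (X.B g) r

/-- the check of a tree -/
def Fe.trk (X : Fe n) (g r : ℕ) : Bool :=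
  zchk3 X.Sx (X.V g r)
    (tabL3 0 X.H X.L (fun q => X.e g r q 0) fun q => X.d g r q 0)
    (tabL3 0 X.H X.L (fun q => X.e g r q 1) fun q => X.d g r q 1)
    (tabL3 0 X.H X.L (fun q => X.e g r q 2) fun q => X.d g r q 2) (X.Tr g r)
    0 0 0 1000000 1000000 1000000

/-- the trees of a vertex -/
def Fe.trg (X : Fe n) (g : ℕ) : Bool := (List.range 8).all fun r => X.trk g r

/-- the check of the ends of the classes -/
def Fe.clk (X : Fe n) : Bool :=
  Nat.beq (X.L.getLastD 0) 1000000 && Nat.beq (X.H.getLastD 0) 1000000 &&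
    Nat.blt 0 X.L.length && Nat.blt 0 X.H.length

/-- **THE CHECKS OF A FACE FROM THE CHECKS OF ITS PACKED FAMILIES** -/
theorem Fe.ok {X : Fe n} {c0 c1 e1 : ℕ} (phi : phk X.F = true)
    (num : (X.D c0 c1).num e1 = true) (cl : X.clk = true)
    (fam : ∀ q < X.nq, ∀ k, (X.G q k).Ok n (tpE X.F X.V6 X.rc X.re) (X.rs k)
      ((0 :: X.L).getD (q % X.L.length) 0) (X.L.getD (q % X.L.length) 0) c0 c1)
    (row : X.rowk = true) (ck : X.ckk = true) (tr : ∀ g < n, X.trg g = true) :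
    (X.D c0 c1).Ok c0 c1 e1 := by
  unfold Fe.clk at cl
  simp only [Bool.and_eq_true, Nat.beq_eq, Nat.blt_eq] at cl
  obtain ⟨⟨⟨c1', c2'⟩, c3'⟩, c4'⟩ := cl
  unfold Fe.rowk at row
  simp only [Bool.and_eq_true] at row
  unfold Fe.ckk at ck
  simp only [List.all_eq_true, List.mem_range] at ck
  refine ⟨phi, num, ?_, c1', ?_, c2', ?_, ?_, ?_, ?_, ?_, ?_, ?_⟩
  · intro h
    rw [show X.L = [] from h] at c3'
    exact absurd c3' (by simp)
  · intro h
    rw [show X.H = [] from h] at c4'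
    exact absurd c4' (by simp)
  · intro q hq k
    have h := fam q hq k
    exact ⟨h.fam, h.tab, fun _ => h.nls, h.n1l, h.pos⟩
  · intro q hq k e
    exact (fam q hq k).len e
  · intro q _
    exact three' row.1.1 row.1.2 row.2
  · intro q hq k r g hg
    have h := (fam q hq k).w (r, false) g hg
    exact h
  · intro q hq k r g hg
    have h := (fam q hq k).w (r, true) g hg
    refine h.trans (Nat.mul_le_mul_left _ ?_)
    show (X.G q k).En.getD (n * (2 * r + 1) + g) 0 ≤ X.e g r q k +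
      ((X.G q k).En.getD (n * (2 * r + 1) + g) 0 - X.e g r q k)
    omega
  · intro g hg r hr
    exact ck g hg r hr
  · intro g hg r hr
    have h := tr g hg
    unfold Fe.trg at h
    simp only [List.all_eq_true, List.mem_range] at h
    exact h r hr

/-- all families, three classes of the position, two of the height -/
theorem all6 {P : ℕ → Fin 3 → Prop} (h0 : ∀ k, P 0 k) (h1 : ∀ k, P 1 k) (h2 : ∀ k, P 2 k)
    (h3 : ∀ k, P 3 k) (h4 : ∀ k, P 4 k) (h5 : ∀ k, P 5 k) : ∀ q < 6, ∀ k, P q k := by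
  intro q hq
  have key : q = 0 ∨ q = 1 ∨ q = 2 ∨ q = 3 ∨ q = 4 ∨ q = 5 := by omega
  rcases key with rfl | rfl | rfl | rfl | rfl | rfl
  · exact h0
  · exact h1
  · exact h2
  · exact h3
  · exact h4
  · exact h5

/-- from a list of proofs -/
theorem allN {P : ℕ → Prop} : ∀ {m : ℕ}, (∀ q < m, P q) → P m → ∀ q < m + 1, P q :=
  fun {m} h hm q hq => by
    rcases Nat.lt_succ_iff_lt_or_eq.1 hq with h1 | rfl
    · exact h q h1
    · exact hm

theorem all0 {P : ℕ → Prop} : ∀ q < 0, P q := fun _ h => absurd h (Nat.not_lt_zero _)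

end Helper22.VR
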