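import Pool.Agent.Helper22.MEI.VRW

/-!
# Project MEI (M2), track B: the leaks of a state of a piece

`VE.ttk` = the check that the leaks of every state of the piece (hull of the vertices `vN`) lie in
the box `tt`; `nc_piece` = the leaks; `ve_piece` = `ve_loc0` without a hypothesis about the leaks.
-/

set_option autoImplicit false

namespace Helper22.VR

open Set Metric MeasureTheory Helper93.MEI Helper80.CW Helper14.CW Helper82.CW Helper82.M2
open Helper14.MEI2 Pool.Agent.Helper73.MEI Helper78.MEI Helper41.MEI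
open Pool.Agent.Helper31.SR hiding qq
open Helper37.MEI Pool.Agent.Helper52.MEI
open Helper14.MEI4 Helper99.MEI Helper60.R8 Helper49.VR
open Helper60.R7 (U U_pos jj ll)
open Helper33.MEI (Dl)
open Pool.Agent.Helper31.SR.IntC
open Pool.Agent.Helper73.MEI.SideP Pool.Agent.Helper73.MEI.ArCor
open Pool.Agent.Helper55.Apex (nc)
open Pool.Agent.Helper55.ApexP (PN alP)
open Pool.Agent.Helper55.Mass (vv)
open scoped RealInnerProductSpace

variable {n : ℕ}

/-- the box of the leaks of a corner against a level -/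
def tk1 (n : ℕ) (vN : ℕ → Fin 4 → ℕ) (j : Fin 4) (t : ℕ) : Bool :=
  (List.range n).all fun g => Nat.ble (vN g j * (2000000 + t) ^ 2) (2000000 * t ^ 2)

/-- the check of the box of the leaks -/
def VE.ttk (D : VE n) : Bool :=
  (tk1 n D.vN (D.t 0) (D.F.tt 0) || tk1 n D.vN (D.t 1) (D.F.tt 0)) &&
  (tk1 n D.vN (D.t 0) (D.F.tt 1) || tk1 n D.vN (D.t 2) (D.F.tt 1)) &&
  (tk1 n D.vN (D.t 0) (D.F.tt 2) || tk1 n D.vN (D.t 3) (D.F.tt 2))

theorem ttk_iff {D : VE n} (h : D.ttk = true) (k : Fin 3) :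
    tk1 n D.vN (D.t 0) (D.F.tt k) = true ∨ tk1 n D.vN (D.t k.succ) (D.F.tt k) = true := by
  unfold VE.ttk at h
  simp only [Bool.and_eq_true, Bool.or_eq_true] at h
  have key : k = 0 ∨ k = 1 ∨ k = 2 := by
    fin_cases k <;> simp
  rcases key with rfl | rfl | rfl
  · exact h.1.1
  · exact h.1.2
  · exact h.2

section main
variable {ι : Type} [Fintype ι] {D : VE n} {c0 c1 e1 : ℕ}
variable {a : Fin 4 → E3} {σ : Measure (E3 × E3)} {K : Set E3} {S : Fin 4 → ℝ}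
  {c : Fin 4 → E3} {z : Fin 4 → Fin 4 → E3} {l : Fin 3 → Bool → Bool → E3 × E3 → ℝ}
  {V : ι → Fin 4 → ℝ} {lam : ι → ℝ}

/-- a level of a state of the piece -/
theorem lev_piece {vN : ℕ → Fin 4 → ℕ} {j : Fin 4} {t : ℕ} (hk : tk1 n vN j t = true)
    (en : Fin n ≃ ι) (hD : Dc V S lam) (hV : ∀ (i : Fin n) (j : Fin 4), V (en i) j ≤ qq (vN i j)) :
    2 * S j * (1 + ((t : ℝ) / 1000000) / 2) ^ 2 ≤ ((t : ℝ) / 1000000) ^ 2 := by
  unfold tk1 at hk
  simp only [List.all_eq_true, List.mem_range, Nat.ble_eq] at hk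
  have h1 : S j * (2000000 + (t : ℝ)) ^ 2 ≤ 2 * (t : ℝ) ^ 2 := by
    rw [hD.eq j, Finset.sum_mul]
    calc ∑ w, lam w * V w j * (2000000 + (t : ℝ)) ^ 2 ≤ ∑ w, lam w * (2 * (t : ℝ) ^ 2) := by
          refine Finset.sum_le_sum fun w _ => ?_
          rw [mul_assoc]
          refine mul_le_mul_of_nonneg_left ?_ (hD.nn w)
          have h2 := hV (en.symm w) j
          rw [Equiv.apply_symm_apply] at h2
          have h3 : ((vN (en.symm w) j : ℝ)) * (2000000 + (t : ℝ)) ^ 2 ≤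
              2000000 * (t : ℝ) ^ 2 := by
            exact_mod_cast hk _ (en.symm w).2
          have h4 := mul_le_mul_of_nonneg_right h2 (sq_nonneg (2000000 + (t : ℝ)))
          unfold qq at h4
          linarith
      _ = 2 * (t : ℝ) ^ 2 := by
          rw [← Finset.sum_mul, hD.one, one_mul]
  have e : 2 * S j * (1 + ((t : ℝ) / 1000000) / 2) ^ 2 =
      S j * (2000000 + (t : ℝ)) ^ 2 / 2000000000000 := by ring
  rw [e, div_pow, div_le_iff₀ (by norm_num)]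
  linarith

/-- **the leaks of a state of the piece** -/
theorem nc_piece (H : D.ttk = true) (h : CN K σ a c) (v : Viol K a S)
    (hz : CV a K z) (τ : Equiv.Perm (Fin 4)) (hτ : ∀ j, τ j = D.t j)
    {N : Fin 3 → Fin 3 → ℝ} (hNd : N = NM (fun i => a (τ i)) (fun i j => z (τ i) (τ j)))
    (en : Fin n ≃ ι) (hD : Dc V S lam)
    (hV : ∀ (i : Fin n) (j : Fin 4), V (en i) j ≤ qq (D.vN i j)) (k : Fin 3) :
    nc N k ≤ (D.F.tt k : ℝ) / 1000000 := by
  have h' := h.perm τ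
  have v' := viol_perm v τ
  have hz' := hz.perm τ
  have hN : ∀ k m, 0 ≤ N k m := fun k m => by
    rw [hNd]
    exact NM_nonneg h' v' hz' k m
  have hd : ∀ k, N k k = 0 := fun k => by
    rw [hNd]
    exact NM_diag k
  have nn : 0 ≤ nc N k := Pool.Agent.Helper73.MEI.SideP.nc_nonneg hN k
  have e : nc N k = N (k + 1) k + N (k + 2) k := by
    have d0 := hd 0
    have d1 := hd 1
    have d2 := hd 2
    unfold nc
    fin_cases k
    · show N 0 0 + N 1 0 + N 2 0 = N 1 0 + N 2 0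
      linarith
    · show N 0 1 + N 1 1 + N 2 1 = N 2 1 + N 0 1
      linarith
    · show N 0 2 + N 1 2 + N 2 2 = N 0 2 + N 1 2
      linarith
  have hp : 0 < (1 + nc N k / 2) ^ 2 := by positivity
  have hdq : nc N k ^ 2 ≤ 2 * dq (N (k + 1) k) (N (k + 2) k) := by
    rw [e]
    unfold dq
    nlinarith [sq_nonneg (N (k + 1) k - N (k + 2) k)]
  obtain ⟨-, q1, q2⟩ := dom_VF h v hz τ hNd (tt := fun k => nc N k) (fun _ => le_rfl) k
  rw [div_le_iff₀ hp] at q1 q2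
  rcases ttk_iff H k with hk | hk
  · have h1 := lev_piece hk en hD hV
    rw [← hτ 0] at h1
    exact col_le nn (by positivity) (by linarith) h1
  · have h1 := lev_piece hk en hD hV
    rw [← hτ k.succ] at h1
    exact col_le nn (by positivity) (by linarith) h1

/-- **THE COST OF A FACE AT A STATE OF A PIECE** -/
theorem ve_piece [IsFiniteMeasure σ] {Z : VL} (H : D.Ok c0 c1 e1) (HZ : D.lok Z e1 = true)
    (Ht : D.ttk = true) (h : CN K σ a c) (v : Viol K a S)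
    (hz : CV a K z) (τ : Equiv.Perm (Fin 4)) (hτ : ∀ j, τ j = D.t j) (hl : Lok a l)
    (hδ : ∀ p, MA σ a l τ p p ≤ 0) {ρ β : Fin 3 → ℝ} (hρ : ∀ p, 0 < ρ p)
    (hρb : ∀ p, ρ p ≤ (D.F.rb : ℝ) / 1000000)
    (hMρ : ∀ p k, k ≠ p → MA σ a l τ p k ≤ ρ p) (hβ : ∀ p, β p = 0)
    {x : E3} (hx : x ∈ K) (hxs : Qv a (τ 0) x = S (τ 0) ∨ S (τ 0) = 0)
    {N : Fin 3 → Fin 3 → ℝ} (hNd : N = NM (fun i => a (τ i)) (fun i j => z (τ i) (τ j)))
    {tt : Fin 3 → ℝ} (htt : ∀ k, nc N k ≤ tt k)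
    {φ : ℝ} (hφe : φ = phiN 2.04 ((D.F.rb : ℝ) / 1000000) (TN N) (QN N)) (hφ : 0 < φ)
    (hφ1 : φ ≤ 1) (en : Fin n ≃ ι) (hD : Dc V S lam)
    (hV : ∀ (i : Fin n) (j : Fin 4), V (en i) j ≤ qq (D.vN i j))
    {Sm d0 d1 : ℝ} (hI : IsC Sm d0 d1) (hSm : (D.Sx : ℝ) / 1000000 ≤ Sm) (hd1 : 0 ≤ d1)
    (hd3 : 3 * d1 * (1 + (D.Sx : ℝ) / 1000000) ≤ d0) (hc0 : (c0 : ℝ) / U ≤ d0)
    (hc1 : d1 ≤ (c1 : ℝ) / U) :
    WCF 2.04 σ a K l τ z S x N (Rv tt N) φ β (fun _ => 0) (fun _ => 0)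
      (∑ g ∈ Finset.range n, mu en lam g * D.cst g N) :=
  ve_loc0 H HZ h v hz τ hτ hl hδ hρ hρb hMρ hβ hx hxs hNd htt
    (nc_piece Ht h v hz τ hτ hNd en hD hV) hφe hφ hφ1 en hD hV hI hSm hd1 hd3 hc0 hc1

end main

end Helper22.VR
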