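import Pool.Agent.Helper22.MEI.VRE
import Pool.Agent.Helper22.MEI.VRQ
import Pool.Agent.Helper21.MEI.Cvr3

/-!
# Project MEI (M2), track B: a checked piece of a face

`PcOk` = a face from packed families on a piece of a cover (vertices `v / (10⁶ q)`), against the
affine cost `p` of the static certificate; `PcOk.pg`, `PcOk.cst`, `PcOk.box` = the hypotheses of
`Helper21.Cvr.wface_covG` for this piece.
-/

set_option autoImplicit false

namespace Helper22.VR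

open Set Metric MeasureTheory Helper93.MEI Helper80.CW Helper14.CW Helper82.CW Helper82.M2
open Helper14.MEI2 Pool.Agent.Helper73.MEI Helper78.MEI Helper41.MEI
open Pool.Agent.Helper31.SR hiding qq
open Helper37.MEI Pool.Agent.Helper52.MEI
open Helper14.MEI4 Helper99.MEI Helper60.R8 Helper49.VR
open Helper60.R7 (U jj ll)
open Helper21.Cvr
open Pool.Agent.Helper31.SR.IntC
open Pool.Agent.Helper73.MEI.SideP Pool.Agent.Helper73.MEI.ArCor
open Pool.Agent.Helper55.Apex (nc)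

variable {n : ℕ}

/-- the vertices of a piece -/
noncomputable def pcV (n q : ℕ) (v : ℕ → Fin 4 → ℕ) : Fin n → Fin 4 → ℝ :=
  fun g j => (v g j : ℝ) / (1000000 * q)

/-- the check of the vertices of a piece, of the affine cost and of the box of the leaks -/
def Fe.pk (X : Fe n) (p : PhN) (q : ℕ) (v : ℕ → Fin 4 → ℕ) : Bool :=
  ((List.range n).all fun g =>
    (Nat.ble (v g 0) (q * X.vN g 0) && Nat.ble (v g 1) (q * X.vN g 1) &&
      Nat.ble (v g 2) (q * X.vN g 2) && Nat.ble (v g 3) (q * X.vN g 3)) &&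
    phbq p q (v g) X.F.tt (X.A g) (X.B g)) &&
  ((tk1 n X.vN (X.t 0) (X.F.tt 0) || tk1 n X.vN (X.t 1) (X.F.tt 0)) &&
    (tk1 n X.vN (X.t 0) (X.F.tt 1) || tk1 n X.vN (X.t 2) (X.F.tt 1)) &&
    (tk1 n X.vN (X.t 0) (X.F.tt 2) || tk1 n X.vN (X.t 3) (X.F.tt 2))) &&
  Nat.ble (X.F.tt 0 + X.F.tt 1 + X.F.tt 2) 1000000

/-- **a checked piece of a face** -/
structure PcOk (i : Fin 4) (X : Fe n) (Z : VL) (p : PhN) (q : ℕ) (v : ℕ → Fin 4 → ℕ)
    (c0 c1 e1 : ℕ) : Prop where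
  ok : (X.D c0 c1).Ok c0 c1 e1
  lok : (X.D c0 c1).lok Z e1 = true
  tf : ∀ j, Helper21.Sk.tf i j = X.t j
  q0 : 0 < q
  pk : X.pk p q v = true

section
variable {i : Fin 4} {X : Fe n} {Z : VL} {p : PhN} {q : ℕ} {v : ℕ → Fin 4 → ℕ} {c0 c1 e1 : ℕ}

theorem pk_iff (h : X.pk p q v = true) :
    (∀ g < n, (∀ j, v g j ≤ q * X.vN g j) ∧ phbq p q (v g) X.F.tt (X.A g) (X.B g) = true) ∧
    (∀ k : Fin 3, tk1 n X.vN (X.t 0) (X.F.tt k) = true ∨
      tk1 n X.vN (X.t k.succ) (X.F.tt k) = true) ∧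
    X.F.tt 0 + X.F.tt 1 + X.F.tt 2 ≤ 1000000 := by
  unfold Fe.pk at h
  simp only [Bool.and_eq_true, Bool.or_eq_true, List.all_eq_true, List.mem_range,
    Nat.ble_eq] at h
  obtain ⟨⟨h1, ⟨h2, h3⟩, h4⟩, h5⟩ := h
  refine ⟨fun g hg => ?_, fun k => ?_, h5⟩
  · obtain ⟨⟨⟨⟨a0, a1⟩, a2⟩, a3⟩, a4⟩ := h1 g hg
    refine ⟨fun j => ?_, a4⟩
    have key : j = 0 ∨ j = 1 ∨ j = 2 ∨ j = 3 := by
      fin_cases j <;> simp
    rcases key with rfl | rfl | rfl | rfl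
    · exact a0
    · exact a1
    · exact a2
    · exact a3
  · have key : k = 0 ∨ k = 1 ∨ k = 2 := by
      fin_cases k <;> simp
    rcases key with rfl | rfl | rfl
    · exact h2
    · exact h3
    · exact h4

theorem pcV_le (h : X.pk p q v = true) (hq : 0 < q) (g : Fin n) (j : Fin 4) :
    pcV n q v g j ≤ Helper99.MEI.qq (X.vN g j) := by
  have h1 := ((pk_iff h).1 g g.2).1 j
  have hq' : (0 : ℝ) < q := by exact_mod_cast hq
  have h2 : ((v g j : ℕ) : ℝ) ≤ q * X.vN g j := by exact_mod_cast h1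
  unfold pcV Helper99.MEI.qq
  rw [div_le_div_iff₀ (by positivity) (by norm_num)]
  linarith

/-- **the cost of the piece** -/
theorem PcOk.pg (H : PcOk i X Z p q v c0 c1 e1) {rb nb : ℝ}
    (hrb : rb = (X.F.rb : ℝ) / 1000000) (tt : Fin 3 → ℝ)
    {Sm d0 d1 : ℝ} (hI : IsC Sm d0 d1) (hSm : (X.Sx : ℝ) / 1000000 ≤ Sm) (hd1 : 0 ≤ d1)
    (hd3 : 3 * d1 * (1 + (X.Sx : ℝ) / 1000000) ≤ d0) (hc0 : (c0 : ℝ) / U ≤ d0)
    (hc1 : d1 ≤ (c1 : ℝ) / U) :
    PG i rb nb 0 0 tt (fun k => (X.F.tt k : ℝ) / 1000000) (pcV n q v)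
      fun g N => (X.D c0 c1).cst g N :=
  pg_ve H.ok H.lok (Or.inl ⟨rfl, rfl⟩) H.tf (fun g j => pcV_le H.pk H.q0 g j) hrb tt
    (fun _ => le_rfl) (pk_iff H.pk).2.2 hI hSm hd1 hd3 hc0 hc1

/-- **the cost of the vertices of the piece against the affine cost** -/
theorem PcOk.cst (H : PcOk i X Z p q v c0 c1 e1) (g : Fin n) (N : Fin 3 → Fin 3 → ℝ)
    (h0 : ∀ k, 0 ≤ nc N k) (h1 : ∀ k, nc N k ≤ (X.F.tt k : ℝ) / 1000000) :
    (X.D c0 c1).cst g N ≤ Ph p.F (pcV n q v g) (nc N) := by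
  have h := phbq_le H.q0 ((pk_iff H.pk).1 g g.2).2 h0 h1
  have e : (X.D c0 c1).cst g N = (X.A g : ℝ) / 1000000000000
      + (X.B g 0 : ℝ) / 1000000000 * nc N 0 + (X.B g 1 : ℝ) / 1000000000 * nc N 1
      + (X.B g 2 : ℝ) / 1000000000 * nc N 2 := rfl
  rw [e]
  unfold pcV
  linarith

/-- **the box of the leaks of the piece** -/
theorem PcOk.box (H : PcOk i X Z p q v c0 c1 e1) (k : Fin 3) :
    0 ≤ (X.F.tt k : ℝ) / 1000000 ∧ ∃ D,
      ((∀ g, pcV n q v g (Helper21.Sk.tf i 0) ≤ D) ∨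
        ∀ g, pcV n q v g (Helper21.Sk.tf i k.succ) ≤ D) ∧
      2 * D * (1 + (X.F.tt k : ℝ) / 1000000 / 2) ^ 2 ≤ ((X.F.tt k : ℝ) / 1000000) ^ 2 := by
  have hp : 0 < (1 + (X.F.tt k : ℝ) / 1000000 / 2) ^ 2 := by positivity
  have lv : ∀ j, tk1 n X.vN j (X.F.tt k) = true → ∀ g, pcV n q v g j ≤
      ((X.F.tt k : ℝ) / 1000000) ^ 2 / (2 * (1 + (X.F.tt k : ℝ) / 1000000 / 2) ^ 2) := by
    intro j hj g
    unfold tk1 at hj
    simp only [List.all_eq_true, List.mem_range, Nat.ble_eq] at hj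
    refine (pcV_le H.pk H.q0 g j).trans ?_
    have h1 : ((X.vN g j : ℕ) : ℝ) * (2000000 + (X.F.tt k : ℝ)) ^ 2 ≤
        2000000 * (X.F.tt k : ℝ) ^ 2 := by
      exact_mod_cast hj g g.2
    rw [le_div_iff₀ (by positivity)]
    unfold Helper99.MEI.qq
    have e : ((X.vN g j : ℕ) : ℝ) / 1000000 * (2 * (1 + (X.F.tt k : ℝ) / 1000000 / 2) ^ 2) =
        ((X.vN g j : ℕ) : ℝ) * (2000000 + (X.F.tt k : ℝ)) ^ 2 / 2000000000000000000 := by ring
    rw [e, div_pow, div_le_div_iff₀ (by norm_num) (by norm_num)]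
    linarith
  refine ⟨by positivity,
    ((X.F.tt k : ℝ) / 1000000) ^ 2 / (2 * (1 + (X.F.tt k : ℝ) / 1000000 / 2) ^ 2), ?_, ?_⟩
  · rcases (pk_iff H.pk).2.1 k with h | h
    · left
      rw [H.tf 0]
      exact lv _ h
    · right
      rw [H.tf k.succ]
      exact lv _ h
  · refine le_of_eq ?_
    field_simp

end

end Helper22.VR
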