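import Pool.Agent.Helper22.MEI.VR3
import Pool.Agent.Helper21.MEI.Loc

/-!
# Project MEI (M2), track B: the cost of a face from families of tables with a localized apex

`VL` = where the apex is localized and with which slopes, `VE.lok` = the check of the types and
of the majorants, `ve_loc` = the cost `WCF` of a placed body, `ve_wface` = the hypothesis
`Helper21.Sk.WFace` of the core statement, strips allowed.
-/

set_option autoImplicit false

namespace Helper22.VR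

open Set Metric MeasureTheory Helper93.MEI Helper80.CW Helper14.CW Helper82.CW Helper82.M2
open Helper14.MEI2 Pool.Agent.Helper73.MEI Helper78.MEI Helper41.MEI
open Pool.Agent.Helper31.SR hiding qq
open Helper37.MEI Pool.Agent.Helper52.MEI
open Helper14.MEI4 Helper99.MEI Helper60.R8 Helper49.VR
open Helper60.R7 (U U_pos jj ll)
open Helper33.MEI (Dl)
open Helper21.Loc
open Pool.Agent.Helper31.SR.IntC
open Pool.Agent.Helper73.MEI.SideP Pool.Agent.Helper73.MEI.ArCor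
open Pool.Agent.Helper55.Apex (nc)
open Pool.Agent.Helper55.ApexP (PN alP)
open Pool.Agent.Helper55.Mass (vv)
open Pool.Agent.Helper96.Kap (kap kap_nonneg)
open scoped RealInnerProductSpace

/-- where the apex is localized, slopes of the majorants, factor of the localized types -/
structure VL where
  loc : ℕ → Fin 3 → Bool
  G : ℕ → Fin 3 → List (ℕ × ℕ)
  kl : ℕ

variable {n : ℕ}

/-- the check of the types and of the majorants of a class -/
def VE.lk (D : VE n) (Z : VL) (e1 q : ℕ) (k : Fin 3) : Bool :=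
  (!(Z.loc q k) || Nat.ble (D.H.getD (q / D.L.length) 0) 500000) &&
    vcl (Z.loc q k) ((0 :: D.L).getD (q % D.L.length) 0) (D.L.getD (q % D.L.length) 0) e1
      1000000 1000000 (Z.G q k) (D.Vs q k) &&
    drl (Z.loc q k) ((0 :: D.L).getD (q % D.L.length) 0) (D.L.getD (q % D.L.length) 0) Z.kl
      (D.As q k) &&
    Nat.ble ((0 :: D.L).getD (q % D.L.length) 0) (D.L.getD (q % D.L.length) 0) &&
    Nat.ble (D.L.getD (q % D.L.length) 0) 1000000

/-- the check of the types and of the majorants -/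
def VE.lok (D : VE n) (Z : VL) (e1 : ℕ) : Bool :=
  ((List.range D.nq).all fun q => D.lk Z e1 q 0 && D.lk Z e1 q 1 && D.lk Z e1 q 2) &&
  (Nat.ble (2000000 * e1 + D.F.tt 0 * Z.kl) (1000000 * Z.kl) &&
    Nat.ble (2000000 * e1 + D.F.tt 1 * Z.kl) (1000000 * Z.kl) &&
    Nat.ble (2000000 * e1 + D.F.tt 2 * Z.kl) (1000000 * Z.kl))

theorem lok_iff {D : VE n} {Z : VL} {e1 : ℕ} (h : D.lok Z e1 = true) :
    (∀ q < D.nq, ∀ k, D.lk Z e1 q k = true) ∧
      ∀ k, 2000000 * e1 + D.F.tt k * Z.kl ≤ 1000000 * Z.kl := by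
  unfold VE.lok at h
  simp only [Bool.and_eq_true, List.all_eq_true, List.mem_range, Nat.ble_eq] at h
  obtain ⟨h1, ⟨h2, h3⟩, h4⟩ := h
  refine ⟨fun q hq k => ?_, fun k => ?_⟩
  · obtain ⟨⟨a0, a1⟩, a2⟩ := h1 q hq
    have key : k = 0 ∨ k = 1 ∨ k = 2 := by
      fin_cases k <;> simp
    rcases key with rfl | rfl | rfl
    · exact a0
    · exact a1
    · exact a2
  · have key : k = 0 ∨ k = 1 ∨ k = 2 := by
      fin_cases k <;> simp
    rcases key with rfl | rfl | rfl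
    · exact h2
    · exact h3
    · exact h4

section main
variable {ι : Type} [Fintype ι] {D : VE n} {c0 c1 e1 : ℕ}
variable {a : Fin 4 → E3} {σ : Measure (E3 × E3)} {K : Set E3} {S : Fin 4 → ℝ}
  {c : Fin 4 → E3} {z : Fin 4 → Fin 4 → E3} {l : Fin 3 → Bool → Bool → E3 × E3 → ℝ}
  {V : ι → Fin 4 → ℝ} {lam : ι → ℝ}

/-- **THE COST OF A FACE OF A PLACED BODY FROM THE FAMILIES OF TABLES**, localized apex -/
theorem ve_loc [IsFiniteMeasure σ] {Z : VL} (H : D.Ok c0 c1 e1) (HZ : D.lok Z e1 = true)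
    (h : CN K σ a c) (v : Viol K a S)
    (hz : CV a K z) (τ : Equiv.Perm (Fin 4)) (hτ : ∀ j, τ j = D.t j) (hl : Lok a l)
    (hδ : ∀ p, MA σ a l τ p p ≤ 0) {ρ β : Fin 3 → ℝ} (hρ : ∀ p, 0 < ρ p)
    (hMρ : ∀ p k, k ≠ p → MA σ a l τ p k ≤ ρ p) (hβ0 : ∀ p, 0 ≤ β p) (hβ1 : ∀ p, β p ≤ 1)
    (hβ : (∀ p, β p = 0) ∨ (D.str = true ∧ ∀ q k, Z.loc q k = false))
    {x : E3} (hx : x ∈ K) (hxs : Qv a (τ 0) x = S (τ 0) ∨ S (τ 0) = 0)
    {N : Fin 3 → Fin 3 → ℝ} (hNd : N = NM (fun i => a (τ i)) (fun i j => z (τ i) (τ j)))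
    {tt : Fin 3 → ℝ} (htt : ∀ k, nc N k ≤ tt k)
    (htD : ∀ k, nc N k ≤ (D.F.tt k : ℝ) / 1000000)
    {φ : ℝ} (sp : D.F.Sp N φ) (hφ : 0 < φ) (hφ1 : φ ≤ 1)
    (hK : ∀ p, β p * ρ p ≤ 2.04 * Pool.Agent.Helper55.Mass.Id (fun t => kap N (vv t) p))
    (hF : ∀ p, (1 - β p) * ρ p ≤ φ * (2.04 * Pool.Agent.Helper55.Mass.Id (flP (PN N) p)))
    (en : Fin n ≃ ι) (hD : Dc V S lam)
    (hV : ∀ (i : Fin n) (j : Fin 4), V (en i) j ≤ qq (D.vN i j))
    {Sm d0 d1 : ℝ} (hI : IsC Sm d0 d1) (hSm : (D.Sx : ℝ) / 1000000 ≤ Sm) (hd1 : 0 ≤ d1)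
    (hd3 : 3 * d1 * (1 + (D.Sx : ℝ) / 1000000) ≤ d0) (hc0 : (c0 : ℝ) / U ≤ d0)
    (hc1 : d1 ≤ (c1 : ℝ) / U) :
    WCF 2.04 σ a K l τ z S x N (Rv tt N) φ β (fun _ => 0) (fun _ => 0)
      (∑ g ∈ Finset.range n, mu en lam g * D.cst g N) := by
  have h' := h.perm τ
  have v' := viol_perm v τ
  have hz' := hz.perm τ
  have hN : ∀ k m, 0 ≤ N k m := fun k m => by
    rw [hNd]
    exact NM_nonneg h' v' hz' k m
  have nn : ∀ m, 0 ≤ nc N m := fun m => Pool.Agent.Helper73.MEI.SideP.nc_nonneg hN m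
  obtain ⟨l1', l2'⟩ := lok_iff HZ
  obtain ⟨-, -, q4, q5⟩ := numE_iff H.num
  have hT : TN N = nc N 0 + nc N 1 + nc N 2 := rfl
  have hT0 : 0 ≤ TN N := TN_nonneg hN
  have s0 : 0 ≤ S (τ 0) := v.nn _
  have et : (gt D.F).ev (nc N) = (D.F.l0 : ℝ) / 1000000 + (D.F.l1 : ℝ) / 1000000 * TN N := by
    unfold gt
    rw [ga_sum, ← hT]
    unfold qq
    push_cast
    ring
  have ep : (gp D.F).ev (nc N) =
      2 * ((D.F.f0 : ℝ) / 1000000 + (D.F.f1 : ℝ) / 1000000 * TN N) := by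
    unfold gp
    rw [ga_sum, ← hT]
    unfold qq
    push_cast
    ring
  have eb : (gb D.F).ev (nc N) = 1 - ((D.F.g0 : ℝ) / 1000000 + (D.F.g1 : ℝ) / 1000000 * TN N) := by
    have hg : D.F.g0 ≤ 1000000 := by
      have h1 := H.phi
      unfold phk at h1
      simp only [Bool.and_eq_true, Nat.ble_eq] at h1
      exact h1.1.2.1.2
    unfold gb
    rw [ga_sum, ← hT]
    unfold qq
    rw [Nat.cast_sub hg]
    push_cast
    ring
  have eb1 : 1 - φ ≤ (gb D.F).ev (nc N) := by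
    rw [eb]
    linarith [sp.lo]
  have et1 : 1 - φ ≤ (gt D.F).ev (nc N) := by
    rw [et]
    have k1 := sp.l hφ1 0
    have k2 : 0 ≤ (1 - φ) * ((D.F.r1 : ℝ) / 1000000 * nc N 0) := by
      have := nn 0
      have : 0 ≤ 1 - φ := by linarith
      positivity
    linarith
  have ep1 : 2 * φ ≤ (gp D.F).ev (nc N) := by
    rw [ep]
    linarith [sp.hi]
  have q1e : qq 1000000 = 1 := by
    unfold qq
    norm_num
  refine ve_wcf H h v hz τ hτ hl hδ hρ hMρ hβ0 hβ1 ?_ hx hxs hNd htt htD sp hφ hφ1 hK hF en hD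
    hV hI hSm hd1 hd3 hc0 hc1 ?_
  · rcases hβ with h0 | h0
    · exact Or.inl h0
    · exact Or.inr h0.1
  intro cN hcN hm k q hq c5 c6 c7
  obtain ⟨m0, hm0⟩ := hm
  have cN0 : 0 ≤ cN := (nn 0).trans (hcN 0)
  have tm : (D.F.tt m0 : ℝ) ≤ 500000 := by exact_mod_cast q4 m0
  have cNt : cN ≤ (D.F.tt m0 : ℝ) / 1000000 := by
    rw [hm0]
    exact htD m0
  have hcN1 : cN ≤ 1 / 2 := by linarith
  have he1 : 1 + cN / 2 ≤ qq e1 := by
    have k1 : (2000000 + (D.F.tt m0 : ℝ)) ≤ 2 * e1 := by exact_mod_cast q5 m0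
    unfold qq
    linarith
  have hkl : 2 * qq e1 ≤ (1 - cN) * qq Z.kl := by
    have k1 : 2000000 * (e1 : ℝ) + D.F.tt m0 * Z.kl ≤ 1000000 * Z.kl := by
      exact_mod_cast l2' m0
    have k2 := mul_le_mul_of_nonneg_right cNt (Nat.cast_nonneg (α := ℝ) Z.kl)
    unfold qq
    linarith
  have hk := l1' q hq k
  unfold VE.lk at hk
  simp only [Bool.and_eq_true, Bool.or_eq_true, Nat.ble_eq, Bool.not_eq_true'] at hk
  obtain ⟨⟨⟨⟨g1, g2⟩, g3⟩, g4⟩, g5⟩ := hk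
  have hu : Z.loc q k = true → pp (b3 (fun i => a (τ i)) x k) ≤
      pp (b3 (fun i => a (τ i)) x (jj k)) + pp (b3 (fun i => a (τ i)) x (ll k)) := by
    intro hlc
    have g1' : D.H.getD (q / D.L.length) 0 ≤ 500000 := by
      rcases g1 with g1 | g1
      · rw [hlc] at g1
        exact absurd g1 (by decide)
      · exact g1
    have c8 : ucor (fun i => a (τ i)) x k * 1000000 ≤ ((500000 : ℕ) : ℝ) :=
      c7.trans (by exact_mod_cast g1')
    have c9 := ucor_le c8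
    have c10 := jl_sum k (fun m => pp (b3 (fun i => a (τ i)) x m))
    beta_reduce at c10
    push_cast at c9
    linarith
  refine ⟨?_, ?_⟩
  · intro ζp z1 z2 t ht _ _ L hL hz0
    exact hal_L h v hz τ hl hδ hx hxs hNd htt hcN hcN1 he1 hkl z1 z2 ht k g4 g5 c5 c6 hu g3 hL
      hz0
  · intro ζp z1 z2 lm m1 m2 t ht _ _ W hW
    refine hval_L h v hz τ hl hδ hρ hMρ hx hxs hNd htt (by norm_num) hφ hβ0 hβ1 hK hF hcN he1
      z1 z2 m1 m2 ht k g4 g5 c5 c6 (loc := Z.loc q k) (fun hlc => ⟨?_, hu hlc⟩) g2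
      (mul_nonneg (bet_nonneg _ _ _) (mul_nonneg (qq_nonneg _) (by linarith)))
      (mul_nonneg s0 (by linarith)) (mul_nonneg s0 (by linarith)) ?_ ?_ hW
    · rcases hβ with h0 | h0
      · exact h0
      · rw [h0.2 q k] at hlc
        exact absurd hlc (by decide)
    · have k1 := mul_le_mul_of_nonneg_left et1 s0
      have k2 := mul_le_mul_of_nonneg_right m2 s0
      rw [q1e]
      linarith
    · have k1 := mul_le_mul_of_nonneg_left ep1 s0
      rw [q1e]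
      linarith

/-- the same without strips, the share `phiN` -/
theorem ve_loc0 [IsFiniteMeasure σ] {Z : VL} (H : D.Ok c0 c1 e1) (HZ : D.lok Z e1 = true)
    (h : CN K σ a c) (v : Viol K a S)
    (hz : CV a K z) (τ : Equiv.Perm (Fin 4)) (hτ : ∀ j, τ j = D.t j) (hl : Lok a l)
    (hδ : ∀ p, MA σ a l τ p p ≤ 0) {ρ β : Fin 3 → ℝ} (hρ : ∀ p, 0 < ρ p)
    (hρb : ∀ p, ρ p ≤ (D.F.rb : ℝ) / 1000000)
    (hMρ : ∀ p k, k ≠ p → MA σ a l τ p k ≤ ρ p) (hβ : ∀ p, β p = 0)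
    {x : E3} (hx : x ∈ K) (hxs : Qv a (τ 0) x = S (τ 0) ∨ S (τ 0) = 0)
    {N : Fin 3 → Fin 3 → ℝ} (hNd : N = NM (fun i => a (τ i)) (fun i j => z (τ i) (τ j)))
    {tt : Fin 3 → ℝ} (htt : ∀ k, nc N k ≤ tt k)
    (htD : ∀ k, nc N k ≤ (D.F.tt k : ℝ) / 1000000)
    {φ : ℝ} (hφe : φ = phiN 2.04 ((D.F.rb : ℝ) / 1000000) (TN N) (QN N)) (hφ : 0 < φ)
    (hφ1 : φ ≤ 1) (en : Fin n ≃ ι) (hD : Dc V S lam)
    (hV : ∀ (i : Fin n) (j : Fin 4), V (en i) j ≤ qq (D.vN i j))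
    {Sm d0 d1 : ℝ} (hI : IsC Sm d0 d1) (hSm : (D.Sx : ℝ) / 1000000 ≤ Sm) (hd1 : 0 ≤ d1)
    (hd3 : 3 * d1 * (1 + (D.Sx : ℝ) / 1000000) ≤ d0) (hc0 : (c0 : ℝ) / U ≤ d0)
    (hc1 : d1 ≤ (c1 : ℝ) / U) :
    WCF 2.04 σ a K l τ z S x N (Rv tt N) φ β (fun _ => 0) (fun _ => 0)
      (∑ g ∈ Finset.range n, mu en lam g * D.cst g N) := by
  have h' := h.perm τ
  have v' := viol_perm v τ
  have hz' := hz.perm τ
  have hN : ∀ k m, 0 ≤ N k m := fun k m => by
    rw [hNd]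
    exact NM_nonneg h' v' hz' k m
  have hd : ∀ k, N k k = 0 := fun k => by
    rw [hNd]
    exact NM_diag k
  have hcol : ∀ m, nc N m ≤ 9 / 10 := fun m => by
    rw [hNd]
    exact nc_le h' v' hz' m
  have hc : (9 / 10 : ℝ) < 1 := by norm_num
  obtain ⟨-, -, q4, -⟩ := numE_iff H.num
  have httm : ∀ m, (D.F.tt m : ℝ) / 1000000 ≤ 1 / 2 := fun m => by
    have : (D.F.tt m : ℝ) ≤ 500000 := by exact_mod_cast q4 m
    linarith
  refine ve_loc H HZ h v hz τ hτ hl hδ hρ hMρ (fun p => (hβ p).ge)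
    (fun p => by rw [hβ p]; exact zero_le_one) (Or.inl hβ) hx hxs hNd htt htD
    (FN.sp H.phi hN htD hφe) hφ hφ1 ?_ ?_ en hD hV hI hSm hd1 hd3 hc0 hc1
  · intro p
    rw [hβ, zero_mul]
    refine mul_nonneg (by norm_num) ?_
    unfold Pool.Agent.Helper55.Mass.Id
    refine mul_nonneg (by positivity) (setIntegral_nonneg
      Pool.Agent.Helper55.Sx.Sim_meas fun t ht => ?_)
    exact div_nonneg (kap_nonneg hN hc hcol (fun k => Pool.Agent.Helper55.Mass.vv_nonneg ht k) p)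
      (by positivity)
  · intro p
    rw [hβ p, sub_zero, one_mul]
    have hT2 : TN N < 2 := by
      have hT : TN N = nc N 0 + nc N 1 + nc N 2 := rfl
      have b0 := (htD 0).trans (httm 0)
      have b1 := (htD 1).trans (httm 1)
      have b2 := (htD 2).trans (httm 2)
      rw [hT]
      linarith
    have k1 := phi_ok hN hd hc hcol (A' := 2.04) (by norm_num)
      (ρ := (D.F.rb : ℝ) / 1000000) (by positivity) hT2 p
    rw [← hφe] at k1
    exact (hρb p).trans k1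

/-- **the cost of a face in the core statement from the families of tables**, localized apex,
strips allowed -/
theorem ve_wface {i : Fin 4} {d : Helper21.Sk.PD ι} {X nb K0 K1 ε k1 k12 : ℝ}
    {P : (Fin 4 → ℝ) → Prop} {Z : VL} (H : D.Ok c0 c1 e1) (HZ : D.lok Z e1 = true)
    (hs : (K0 = 0 ∧ K1 = 0) ∨ (D.str = true ∧ (∀ q k, Z.loc q k = false) ∧
      ∃ (X' qm e rb r V0 : ℝ) (D' tt' : Fin 3 → ℝ), Stc X' qm nb K0 K1 e rb r V0 D' tt'))
    (ht : ∀ j, Helper21.Sk.tf i j = D.t j)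
    (en : Fin n ≃ ι) (hV : ∀ (g : Fin n) (j : Fin 4), V (en g) j ≤ qq (D.vN g j))
    (hrb : d.rb i = (D.F.rb : ℝ) / 1000000) (htt : ∀ k, d.tt i k ≤ (D.F.tt k : ℝ) / 1000000)
    (hT1 : D.F.tt 0 + D.F.tt 1 + D.F.tt 2 ≤ 1000000)
    (hcost : ∀ (g : Fin n) cl j j' (N : Fin 3 → Fin 3 → ℝ), (∀ k, 0 ≤ nc N k) →
      D.cst g N ≤ d.cost i (en g) cl j j' N)
    {Sm d0 d1 : ℝ} (hI : IsC Sm d0 d1) (hSm : (D.Sx : ℝ) / 1000000 ≤ Sm) (hd1 : 0 ≤ d1)
    (hd3 : 3 * d1 * (1 + (D.Sx : ℝ) / 1000000) ≤ d0) (hc0 : (c0 : ℝ) / U ≤ d0)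
    (hc1 : d1 ≤ (c1 : ℝ) / U) : Helper21.Sk.WFace d i V X P nb K0 K1 ε k1 k12 := by
  intro K σ hσ a c hC hX S hv hP lam hlam z hz ρ hρe hρ hρb hM hδ x hx hxs N hNd hN hd hnb htd
    hdom φ hφe hφ hφ1 j j' hj hp cl hcl
  rw [hrb] at hρb hφe
  have nn : ∀ m, 0 ≤ nc N m := fun m => Pool.Agent.Helper73.MEI.SideP.nc_nonneg hN m
  have htD : ∀ k, nc N k ≤ (D.F.tt k : ℝ) / 1000000 := fun k => (htd k).trans (htt k)
  have sp := FN.sp H.phi hN htD hφe
  have hT : TN N ≤ 1 := by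
    have b0 := htD 0
    have b1 := htD 1
    have b2 := htD 2
    have b3 : ((D.F.tt 0 : ℝ) + (D.F.tt 1 : ℝ) + (D.F.tt 2 : ℝ)) ≤ 1000000 := by
      exact_mod_cast hT1
    unfold TN
    linarith
  have hnc9 : ∀ k, nc N k ≤ 9 / 10 := fun k => by
    rw [hNd]
    exact nc_le (hC.perm (Helper21.Sk.tq i)) (viol_perm hv (Helper21.Sk.tq i))
      (hz.perm (Helper21.Sk.tq i)) k
  have key : WCF 2.04 σ a K (l2 a) (Helper21.Sk.tq i) z S x N (Rv (d.tt i) N) φ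
      (bt 2.04 (kv K0 K1 N) ρ) (fun _ => 0) (fun _ => 0)
      (∑ g ∈ Finset.range n, mu en lam g * D.cst g N) := by
    rcases hs with ⟨e0, e1'⟩ | ⟨h1, h2, X', qm, e, rb, r, V0, D', tt', h3⟩
    · subst e0 e1'
      have hm := masses0 hN hd hnc9 hT (A' := 2.04) (by norm_num) hφe.ge hρ hρb
      have hβ := bt_zero (N := N) (A' := 2.04) (by norm_num) hρ
      exact ve_loc H HZ hC hv hz (Helper21.Sk.tq i) ht (l2_ok hC.ha) hδ hρ hM
        (fun p => (hβ p).ge) (fun p => by rw [hβ p]; exact zero_le_one) (Or.inl hβ) hx hxs hNd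
        (tt := d.tt i) htd htD sp hφ hφ1 hm.1 hm.2 en hlam hV hI hSm hd1 hd3 hc0 hc1
    · have hN' : ∀ k m, N k m ≤ nb := fun k m => by
        refine le_trans ?_ (hnb m)
        have a0 := hN 0 m
        have a1 := hN 1 m
        have a2 := hN 2 m
        unfold nc
        have key : k = 0 ∨ k = 1 ∨ k = 2 := by
          fin_cases k <;> simp
        rcases key with e | e | e <;> rw [e] <;> linarith
      have hκ := kv_nonneg hN hN' h3.K10 h3.K1n
      have hm := masses hN hd hnb h3.nb5 hT h3.nbe h3.K hκ (A' := 2.04) (by norm_num) hφe.ge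
        hρ hρb
      exact ve_loc H HZ hC hv hz (Helper21.Sk.tq i) ht (l2_ok hC.ha) hδ hρ hM
        (bt_nonneg (by norm_num) hκ hρ) (bt_le_one (by norm_num) hρ) (Or.inr ⟨h1, h2⟩) hx hxs
        hNd (tt := d.tt i) htd htD sp hφ hφ1 hm.1 hm.2 en hlam hV hI hSm hd1 hd3 hc0 hc1
  intro ζp z1 z2 lm l1 l2
  refine (key ζp z1 z2 lm l1 l2).mono ?_
  calc ∑ g ∈ Finset.range n, mu en lam g * D.cst g N
      ≤ ∑ g ∈ Finset.range n, mu en lam g * mu en (fun w => d.cost i w cl j j' N) g := by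
        refine Finset.sum_le_sum fun g hg => mul_le_mul_of_nonneg_left ?_
          (mu_nonneg en hlam.nn g)
        rw [mu_lt en _ (Finset.mem_range.1 hg)]
        exact hcost ⟨g, Finset.mem_range.1 hg⟩ cl j j' N nn
    _ = ∑ w, lam w * d.cost i w cl j j' N := mu_sum en lam _

end main

end Helper22.VR
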