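import Mathlib

/-!
# Project MEI, all bodies: the divergence theorem in cells, with Lebesgue integrals only

`Z = {0 < l}` with `l` Lipschitz (for a polyhedral cell: the minimum of its affine functions), the
field `F = ∑ φ k x • v k`, a Lipschitz cut-off function `χ` with compact support.
-/

namespace Helper22.Wedge

open Set MeasureTheory Filter Topology Metric

variable {E : Type*} [NormedAddCommGroup E] [NormedSpace ℝ E] [FiniteDimensional ℝ E]
  [MeasurableSpace E] [BorelSpace E] {μ : Measure E} [μ.IsAddHaarMeasure]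
  {ι : Type*} [Fintype ι]

/-- Lipschitz on balls -/
def LL (φ : E → ℝ) : Prop := ∀ R : ℝ, ∃ L, LipschitzOnWith L φ (closedBall 0 R)

omit [FiniteDimensional ℝ E] [MeasurableSpace E] [BorelSpace E] in
theorem LL.of_lip {K : NNReal} {φ : E → ℝ} (h : LipschitzWith K φ) : LL φ :=
  fun _ => ⟨K, h.lipschitzOnWith⟩

omit [MeasurableSpace E] [BorelSpace E] in
theorem LL.of_cd {φ : E → ℝ} (h : ContDiff ℝ 1 φ) : LL φ := by
  intro R
  have hc : IsCompact (closedBall (0 : E) R) := isCompact_closedBall 0 R
  have hcont : Continuous (fun x => ‖fderiv ℝ φ x‖) := (h.continuous_fderiv one_ne_zero).norm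
  obtain ⟨C, hC⟩ := hc.bddAbove_image hcont.continuousOn
  refine ⟨Real.toNNReal C, ?_⟩
  refine Convex.lipschitzOnWith_of_nnnorm_fderiv_le (𝕜 := ℝ)
    (fun x _ => (h.differentiable one_ne_zero) x) (fun x hx => ?_) (convex_closedBall 0 R)
  have h1 : ‖fderiv ℝ φ x‖ ≤ C := hC ⟨x, hx, rfl⟩
  have h2 : (‖fderiv ℝ φ x‖₊ : ℝ) ≤ Real.toNNReal C := by
    rw [coe_nnnorm]
    exact h1.trans (Real.le_coe_toNNReal C)
  exact_mod_cast h2

omit [FiniteDimensional ℝ E] [MeasurableSpace E] [BorelSpace E] in
theorem mul_lip {g φ : E → ℝ} {K : NNReal} (hg : LipschitzWith K g) (hs : HasCompactSupport g)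
    (hφ : LL φ) : ∃ K' : NNReal, LipschitzWith K' (fun x => g x * φ x) := by
  obtain ⟨R0, hR0⟩ := hs.isBounded.subset_closedBall (0 : E)
  set R := max R0 0 with hR
  have hRn : 0 ≤ R := le_max_right _ _
  have hsub : tsupport g ⊆ closedBall 0 R :=
    hR0.trans (closedBall_subset_closedBall (le_max_left _ _))
  have hz : ∀ x, x ∉ closedBall (0 : E) R → g x = 0 := fun x hx =>
    image_eq_zero_of_notMem_tsupport fun h => hx (hsub h)
  obtain ⟨L, hL⟩ := hφ R
  obtain ⟨C, hC0, hC⟩ : ∃ C : NNReal, True ∧ ∀ x ∈ closedBall (0 : E) R, |φ x| ≤ C := by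
    refine ⟨Real.toNNReal (|φ 0| + L * R), trivial, fun x hx => ?_⟩
    refine le_trans ?_ (Real.le_coe_toNNReal _)
    have h0 : (0 : E) ∈ closedBall (0 : E) R := mem_closedBall_self hRn
    have h1 := hL.dist_le_mul x hx 0 h0
    rw [Real.dist_eq] at h1
    have h2 : dist x 0 ≤ R := hx
    have h3 : |φ x| ≤ |φ x - φ 0| + |φ 0| := by
      have := abs_add_le (φ x - φ 0) (φ 0)
      simpa using this
    have h4 : (L : ℝ) * dist x 0 ≤ L * R := mul_le_mul_of_nonneg_left h2 L.coe_nonneg
    linarith
  obtain ⟨D, hD0, hD⟩ : ∃ D : NNReal, True ∧ ∀ x ∈ closedBall (0 : E) R, |g x| ≤ D := by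
    refine ⟨Real.toNNReal (|g 0| + K * R), trivial, fun x hx => ?_⟩
    refine le_trans ?_ (Real.le_coe_toNNReal _)
    have h1 := hg.dist_le_mul x 0
    rw [Real.dist_eq] at h1
    have h2 : dist x 0 ≤ R := hx
    have h3 : |g x| ≤ |g x - g 0| + |g 0| := by
      have := abs_add_le (g x - g 0) (g 0)
      simpa using this
    have h4 : (K : ℝ) * dist x 0 ≤ K * R := mul_le_mul_of_nonneg_left h2 K.coe_nonneg
    linarith
  refine ⟨K * C + D * L, LipschitzWith.of_dist_le_mul fun x y => ?_⟩
  rw [Real.dist_eq]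
  push_cast
  have hgl := hg.dist_le_mul x y
  rw [Real.dist_eq] at hgl
  have hdn : 0 ≤ dist x y := dist_nonneg
  have hDL : 0 ≤ (D : ℝ) * L * dist x y := by positivity
  by_cases hx : x ∈ closedBall (0 : E) R
  · by_cases hy : y ∈ closedBall (0 : E) R
    · have hf := hL.dist_le_mul x hx y hy
      rw [Real.dist_eq] at hf
      have e : g x * φ x - g y * φ y = (g x - g y) * φ x + g y * (φ x - φ y) := by ring
      rw [e]
      calc |(g x - g y) * φ x + g y * (φ x - φ y)|
          ≤ |(g x - g y) * φ x| + |g y * (φ x - φ y)| := abs_add_le _ _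
        _ = |g x - g y| * |φ x| + |g y| * |φ x - φ y| := by rw [abs_mul, abs_mul]
        _ ≤ (K * dist x y) * C + D * (L * dist x y) := by
            gcongr
            · exact hC x hx
            · exact hD y hy
        _ = (K * C + D * L) * dist x y := by ring
    · rw [hz y hy, zero_mul, sub_zero, abs_mul]
      rw [hz y hy, sub_zero] at hgl
      have h1 := mul_le_mul hgl (hC x hx) (abs_nonneg _) (by positivity)
      calc |g x| * |φ x| ≤ (K * dist x y) * C := h1
        _ ≤ (K * C + D * L) * dist x y := by nlinarith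
  · rw [hz x hx, zero_mul, zero_sub, abs_neg, abs_mul]
    rw [hz x hx, zero_sub, abs_neg] at hgl
    by_cases hy : y ∈ closedBall (0 : E) R
    · have h1 := mul_le_mul hgl (hC y hy) (abs_nonneg _) (by positivity)
      calc |g y| * |φ y| ≤ (K * dist x y) * C := h1
        _ ≤ (K * C + D * L) * dist x y := by nlinarith
    · rw [hz y hy, abs_zero, zero_mul]
      positivity

/-- integral of a derivative of a Lipschitz function with compact support -/
theorem int_fd {g : E → ℝ} {K : NNReal} (hg : LipschitzWith K g) (hs : HasCompactSupport g)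
    (v : E) : ∫ x, fderiv ℝ g x v ∂μ = 0 := by
  have h1 : LipschitzWith 0 (fun _ : E => (1 : ℝ)) := LipschitzWith.const 1
  have h2 := h1.integral_lineDeriv_mul_eq (μ := μ) hg hs (-v)
  have h3 : ∀ x, lineDeriv ℝ (fun _ : E => (1 : ℝ)) x (-v) = 0 := by
    intro x
    rw [(differentiableAt_const (1 : ℝ)).lineDeriv_eq_fderiv]
    simp
  simp only [h3, zero_mul, integral_zero, neg_neg, mul_one] at h2
  rw [h2]
  refine integral_congr_ae ?_
  filter_upwards [hg.ae_differentiableAt] with x hx
  exact hx.lineDeriv_eq_fderiv.symm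

omit [μ.IsAddHaarMeasure] in
/-- bounded measurable functions with bounded support are integrable -/
theorem integrable_bd [IsFiniteMeasureOnCompacts μ] {g : E → ℝ} {S : Set E} (hS : IsCompact S)
    (hm : Measurable g) {B : ℝ} (hB : ∀ x ∈ S, |g x| ≤ B) (h0 : ∀ x, x ∉ S → g x = 0) :
    Integrable g μ := by
  have h1 : IntegrableOn g S μ := by
    refine Measure.integrableOn_of_bounded (M := B) hS.measure_lt_top.ne hm.aestronglyMeasurable ?_
    filter_upwards [ae_restrict_mem hS.measurableSet] with x hx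
    exact hB x hx
  exact (integrableOn_iff_integrable_of_support_subset fun x hx => by
    by_contra hcon; exact hx (h0 x hcon)).1 h1

/-! ### the cut-off near the walls -/

noncomputable def th (e : ℝ) (r : ℝ) : ℝ := max 0 (min (r / e) 1)

theorem th_nonneg (e r : ℝ) : 0 ≤ th e r := le_max_left _ _

theorem th_le (e r : ℝ) : th e r ≤ 1 := max_le zero_le_one (min_le_right _ _)

theorem th_lip {e : ℝ} (he : 0 < e) : LipschitzWith (Real.toNNReal e⁻¹) (th e) := by
  have h1 : LipschitzWith (Real.toNNReal e⁻¹) (fun r : ℝ => r / e) := by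
    refine LipschitzWith.of_dist_le_mul fun x y => ?_
    rw [Real.dist_eq, Real.dist_eq, ← sub_div, abs_div, abs_of_pos he, div_eq_inv_mul,
      Real.coe_toNNReal _ (by positivity)]
  have h2 : LipschitzWith (max (Real.toNNReal e⁻¹) 0) (fun r : ℝ => min (r / e) 1) :=
    h1.min (LipschitzWith.const (1 : ℝ))
  have h3 : LipschitzWith (max 0 (max (Real.toNNReal e⁻¹) 0)) (fun r : ℝ => max 0 (min (r / e) 1)) :=
    (LipschitzWith.const (0 : ℝ)).max h2
  refine h3.weaken ?_
  simp

theorem th_of_nonpos {e r : ℝ} (he : 0 < e) (hr : r ≤ 0) : th e r = 0 := by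
  unfold th
  apply max_eq_left
  exact (min_le_left _ _).trans (div_nonpos_of_nonpos_of_nonneg hr he.le)

theorem th_of_ge {e r : ℝ} (he : 0 < e) (hr : e ≤ r) : th e r = 1 := by
  unfold th
  rw [min_eq_right ((one_le_div he).2 hr)]
  exact max_eq_right zero_le_one

theorem th_of_mem {e r : ℝ} (he : 0 < e) (h0 : 0 ≤ r) (h1 : r ≤ e) : th e r = r / e := by
  unfold th
  rw [min_eq_left ((div_le_one he).2 h1)]
  exact max_eq_right (div_nonneg h0 he.le)

omit [FiniteDimensional ℝ E] [MeasurableSpace E] [BorelSpace E] in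
/-- the derivative of the cut-off -/
theorem fd_th {l : E → ℝ} {e : ℝ} (he : 0 < e) {x : E} (hc : Continuous l)
    (hd : DifferentiableAt ℝ (fun y => th e (l y)) x) (v : E) :
    fderiv ℝ (fun y => th e (l y)) x v = if 0 < l x ∧ l x < e then e⁻¹ * fderiv ℝ l x v else 0 := by
  split_ifs with h
  · have hn : ∀ᶠ y in 𝓝 x, 0 < l y ∧ l y < e :=
      (hc.continuousAt.eventually (lt_mem_nhds h.1)).and
        (hc.continuousAt.eventually (gt_mem_nhds h.2))
    have heq : (fun y => th e (l y)) =ᶠ[𝓝 x] fun y => e⁻¹ * l y := by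
      filter_upwards [hn] with y hy
      rw [th_of_mem he hy.1.le hy.2.le, div_eq_inv_mul]
    rw [heq.fderiv_eq]
    have hl : DifferentiableAt ℝ l x := by
      have h1 : DifferentiableAt ℝ (fun y => e⁻¹ * l y) x := heq.differentiableAt_iff.1 hd
      have h2 := h1.const_mul e
      have e2 : (fun y => e * (e⁻¹ * l y)) = l := by
        funext y; field_simp
      rwa [e2] at h2
    rw [fderiv_const_mul hl]
    rfl
  · rw [not_and_or, not_lt, not_lt] at h
    have h0 : fderiv ℝ (fun y => th e (l y)) x = 0 := by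
      rcases h with h | h
      · refine IsLocalMin.fderiv_eq_zero (Eventually.of_forall fun y => ?_)
        simp only [th_of_nonpos he h]
        exact th_nonneg _ _
      · refine IsLocalMax.fderiv_eq_zero (Eventually.of_forall fun y => ?_)
        simp only [th_of_ge he h]
        exact th_le _ _
    rw [h0]; rfl

omit [FiniteDimensional ℝ E] [MeasurableSpace E] [BorelSpace E] in
theorem fd_zero_of {g : E → ℝ} {x : E} (hx : x ∉ tsupport g) : fderiv ℝ g x = 0 := by
  have h : g =ᶠ[𝓝 x] fun _ => 0 := by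
    have := (isClosed_tsupport g).isOpen_compl.mem_nhds hx
    filter_upwards [this] with y hy using image_eq_zero_of_notMem_tsupport hy
  rw [h.fderiv_eq]
  simp

/-- the integrand of the flux identity -/
noncomputable def GG (χ : E → ℝ) (φ : ι → E → ℝ) (v : ι → E) (x : E) : ℝ :=
  (∑ k, φ k x * fderiv ℝ χ x (v k)) + χ x * ∑ k, fderiv ℝ (φ k) x (v k)

omit [FiniteDimensional ℝ E] in
theorem GG_meas {χ : E → ℝ} {φ : ι → E → ℝ} {v : ι → E} (hχ : Continuous χ)
    (hφ : ∀ k, ContDiff ℝ 1 (φ k)) : Measurable (GG χ φ v) := by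
  unfold GG
  refine Measurable.add ?_ (hχ.measurable.mul ?_)
  · exact Finset.measurable_sum _ fun k _ => (hφ k).continuous.measurable.mul
      (measurable_fderiv_apply_const ℝ χ (v k))
  · exact Finset.measurable_sum _ fun k _ =>
      (((hφ k).continuous_fderiv one_ne_zero).clm_apply continuous_const).measurable

omit [MeasurableSpace E] [BorelSpace E] in
theorem GG_bd {χ : E → ℝ} {φ : ι → E → ℝ} {v : ι → E} {K : NNReal} (hχ : LipschitzWith K χ)
    (hs : HasCompactSupport χ) (hφ : ∀ k, ContDiff ℝ 1 (φ k)) :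
    ∃ B, ∀ x ∈ tsupport χ, |GG χ φ v x| ≤ B := by
  have hF : Continuous (fun x => (∑ k, |φ k x| * (K * ‖v k‖))
      + |χ x * ∑ k, fderiv ℝ (φ k) x (v k)|) := by
    have h1 : ∀ k, Continuous (φ k) := fun k => (hφ k).continuous
    have h2 : ∀ k, Continuous (fun x => fderiv ℝ (φ k) x (v k)) :=
      fun k => ((hφ k).continuous_fderiv one_ne_zero).clm_apply continuous_const
    have h3 := hχ.continuous
    fun_prop
  obtain ⟨B, hB⟩ := (hs : IsCompact (tsupport χ)).bddAbove_image hF.continuousOn
  refine ⟨B, fun x hx => ?_⟩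
  have h1 : (fun x => (∑ k, |φ k x| * (K * ‖v k‖))
      + |χ x * ∑ k, fderiv ℝ (φ k) x (v k)|) x ≤ B := hB ⟨x, hx, rfl⟩
  refine le_trans ?_ h1
  unfold GG
  refine (abs_add_le _ _).trans (add_le_add ?_ le_rfl)
  refine (Finset.abs_sum_le_sum_abs _ _).trans ?_
  refine Finset.sum_le_sum fun k _ => ?_
  rw [abs_mul]
  have h2 : |fderiv ℝ χ x (v k)| ≤ K * ‖v k‖ := by
    have h3 := (fderiv ℝ χ x).le_opNorm (v k)
    have h4 := norm_fderiv_le_of_lipschitz ℝ (x₀ := x) hχ
    rw [Real.norm_eq_abs] at h3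
    exact h3.trans (mul_le_mul_of_nonneg_right h4 (norm_nonneg _))
  exact mul_le_mul_of_nonneg_left h2 (abs_nonneg _)

omit [MeasurableSpace E] [BorelSpace E] in
theorem GG_zero {χ : E → ℝ} {φ : ι → E → ℝ} {v : ι → E} {x : E} (hx : x ∉ tsupport χ) :
    GG χ φ v x = 0 := by
  unfold GG
  rw [fd_zero_of hx, image_eq_zero_of_notMem_tsupport hx]
  simp

theorem GG_int {χ : E → ℝ} {φ : ι → E → ℝ} {v : ι → E} {K : NNReal} (hχ : LipschitzWith K χ)
    (hs : HasCompactSupport χ) (hφ : ∀ k, ContDiff ℝ 1 (φ k)) : Integrable (GG χ φ v) μ := by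
  obtain ⟨B, hB⟩ := GG_bd (v := v) hχ hs hφ
  exact integrable_bd hs (GG_meas hχ.continuous hφ) hB fun x hx => GG_zero hx

/-- the identity with the cut-off -/
theorem cut_id {l χ : E → ℝ} {φ : ι → E → ℝ} {v : ι → E} {Kl Kc : NNReal}
    (hl : LipschitzWith Kl l) (hχ : LipschitzWith Kc χ) (hs : HasCompactSupport χ)
    (hφ : ∀ k, ContDiff ℝ 1 (φ k)) {e : ℝ} (he : 0 < e) :
    ∫ x, (th e (l x) * GG χ φ v x
      + χ x * ∑ k, φ k x * fderiv ℝ (fun y => th e (l y)) x (v k)) ∂μ = 0 := by
  have ht : LipschitzWith (Real.toNNReal e⁻¹ * Kl) (fun y => th e (l y)) := (th_lip he).comp hl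
  -- Lipschitz functions with compact support
  have key : ∀ k, ∃ K', LipschitzWith K' (fun x => (χ x * φ k x) * th e (l x)) := by
    intro k
    obtain ⟨K1, h1⟩ := mul_lip hχ hs (LL.of_cd (hφ k))
    exact mul_lip h1 hs.mul_right (LL.of_lip ht)
  choose K' hK' using key
  have hcs : ∀ k, HasCompactSupport (fun x => (χ x * φ k x) * th e (l x)) :=
    fun k => (hs.mul_right).mul_right
  have h0 : ∑ k, ∫ x, fderiv ℝ (fun x => (χ x * φ k x) * th e (l x)) x (v k) ∂μ = 0 :=
    Finset.sum_eq_zero fun k _ => int_fd (hK' k) (hcs k) (v k)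
  rw [← integral_finset_sum] at h0
  · rw [← h0]
    refine integral_congr_ae ?_
    filter_upwards [hχ.ae_differentiableAt, ht.ae_differentiableAt] with x hx1 hx2
    have hk : ∀ k, fderiv ℝ (fun x => (χ x * φ k x) * th e (l x)) x (v k)
        = χ x * φ k x * fderiv ℝ (fun y => th e (l y)) x (v k)
          + th e (l x) * (φ k x * fderiv ℝ χ x (v k) + χ x * fderiv ℝ (φ k) x (v k)) := by
      intro k
      have hp : DifferentiableAt ℝ (φ k) x := (hφ k).differentiable one_ne_zero x
      have h1 : HasFDerivAt (fun x => χ x * φ k x) (χ x • fderiv ℝ (φ k) x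
          + φ k x • fderiv ℝ χ x) x := hx1.hasFDerivAt.mul hp.hasFDerivAt
      have h2 := h1.mul hx2.hasFDerivAt
      have h3 := h2.fderiv
      have h4 : fderiv ℝ (fun x => (χ x * φ k x) * th e (l x)) x
          = (χ x * φ k x) • fderiv ℝ (fun y => th e (l y)) x
            + th e (l x) • (χ x • fderiv ℝ (φ k) x + φ k x • fderiv ℝ χ x) := h3
      rw [h4]
      simp only [ContinuousLinearMap.add_apply, ContinuousLinearMap.smul_apply, smul_eq_mul]
      ring
    simp only [hk]
    rw [Finset.sum_add_distrib, ← Finset.mul_sum, Finset.sum_add_distrib]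
    unfold GG
    rw [Finset.mul_sum, Finset.mul_sum]
    have e1 : ∑ i, χ x * (φ i x * fderiv ℝ (fun y => th e (l y)) x (v i))
        = ∑ i, χ x * φ i x * fderiv ℝ (fun y => th e (l y)) x (v i) :=
      Finset.sum_congr rfl fun k _ => by ring
    rw [e1]
    ring
  · intro k _
    have hm : Measurable (fun x => fderiv ℝ (fun x => (χ x * φ k x) * th e (l x)) x (v k)) :=
      measurable_fderiv_apply_const ℝ _ (v k)
    refine integrable_bd (hcs k) hm (B := K' k * ‖v k‖) (fun x _ => ?_) (fun x hx => ?_)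
    · have h3 := (fderiv ℝ (fun x => (χ x * φ k x) * th e (l x)) x).le_opNorm (v k)
      have h4 := norm_fderiv_le_of_lipschitz ℝ (x₀ := x) (hK' k)
      rw [Real.norm_eq_abs] at h3
      exact h3.trans (mul_le_mul_of_nonneg_right h4 (norm_nonneg _))
    · rw [fd_zero_of hx]; rfl

/-- **divergence theorem in a cell, one-sided**: the field flows into the cell through the walls
(up to `C l`). -/
theorem wedge_le {l χ : E → ℝ} {φ : ι → E → ℝ} {v : ι → E} {Kl Kc : NNReal}
    (hl : LipschitzWith Kl l) (hχ : LipschitzWith Kc χ) (hs : HasCompactSupport χ)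
    (h0 : ∀ x, 0 ≤ χ x) (hφ : ∀ k, ContDiff ℝ 1 (φ k)) {C : ℝ}
    (hC : ∀ᵐ x ∂μ, 0 < l x → χ x ≠ 0 → -(C * l x) ≤ ∑ k, φ k x * fderiv ℝ l x (v k)) :
    ∫ x in {x | 0 < l x}, GG χ φ v x ∂μ ≤ 0 := by
  have hZ : MeasurableSet {x | 0 < l x} := measurableSet_lt measurable_const hl.continuous.measurable
  have hG := GG_int (μ := μ) (v := v) hχ hs hφ
  have hcm := hχ.continuous
  -- the error
  set r : ℕ → E → ℝ := fun n x => |C| * χ x * (if 0 < l x ∧ l x < 1 / ((n : ℝ) + 1) then 1 else 0)
    with hr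
  have hen : ∀ n : ℕ, (0 : ℝ) < 1 / ((n : ℝ) + 1) := fun n => by positivity
  have hrm : ∀ n, Measurable (r n) := by
    intro n
    refine (measurable_const.mul hcm.measurable).mul ?_
    refine Measurable.ite ?_ measurable_const measurable_const
    exact (measurableSet_lt measurable_const hl.continuous.measurable).inter
      (measurableSet_lt hl.continuous.measurable measurable_const)
  obtain ⟨B, hB⟩ := (hs : IsCompact (tsupport χ)).bddAbove_image hcm.continuousOn
  have hBr : ∀ n, ∀ x, |r n x| ≤ |C| * χ x := by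
    intro n x
    simp only [hr]
    have h1 : 0 ≤ |C| * χ x := mul_nonneg (abs_nonneg _) (h0 x)
    split_ifs
    · rw [mul_one, abs_of_nonneg h1]
    · rw [mul_zero, abs_zero]; exact h1
  have hci : Integrable (fun x => |C| * χ x) μ :=
    (hcm.integrable_of_hasCompactSupport hs).const_mul _
  have hri : ∀ n, Integrable (r n) μ := fun n => hci.mono' (hrm n).aestronglyMeasurable
    (Eventually.of_forall fun x => hBr n x)
  -- inequality with the cut-off
  have hstep : ∀ n : ℕ, ∫ x, th (1 / ((n : ℝ) + 1)) (l x) * GG χ φ v x ∂μ ≤ ∫ x, r n x ∂μ := by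
    intro n
    have hid := cut_id (μ := μ) (v := v) hl hχ hs hφ (hen n)
    have ht : LipschitzWith (Real.toNNReal (1 / ((n : ℝ) + 1))⁻¹ * Kl)
      (fun y => th (1 / ((n : ℝ) + 1)) (l y)) := (th_lip (hen n)).comp hl
    have hTm : Measurable (fun x => th (1 / ((n : ℝ) + 1)) (l x) * GG χ φ v x) :=
      ht.continuous.measurable.mul (GG_meas hcm hφ)
    have hTi : Integrable (fun x => th (1 / ((n : ℝ) + 1)) (l x) * GG χ φ v x) μ := by
      refine hG.norm.mono' hTm.aestronglyMeasurable (Eventually.of_forall fun x => ?_)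
      rw [Real.norm_eq_abs, Real.norm_eq_abs, abs_mul, abs_of_nonneg (th_nonneg _ _)]
      exact mul_le_of_le_one_left (abs_nonneg _) (th_le _ _)
    have hSm : Measurable (fun x => χ x * ∑ k, φ k x *
        fderiv ℝ (fun y => th (1 / ((n : ℝ) + 1)) (l y)) x (v k)) :=
      hcm.measurable.mul (Finset.measurable_sum _ fun k _ =>
        (hφ k).continuous.measurable.mul (measurable_fderiv_apply_const ℝ _ (v k)))
    have hF : Continuous (fun x => χ x * ∑ k, |φ k x| *
        ((Real.toNNReal (1 / ((n : ℝ) + 1))⁻¹ * Kl : NNReal) * ‖v k‖)) := by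
      have h1 : ∀ k, Continuous (φ k) := fun k => (hφ k).continuous
      fun_prop
    have hFs : HasCompactSupport (fun x => χ x * ∑ k, |φ k x| *
        ((Real.toNNReal (1 / ((n : ℝ) + 1))⁻¹ * Kl : NNReal) * ‖v k‖)) := hs.mul_right
    have hSi : Integrable (fun x => χ x * ∑ k, φ k x *
        fderiv ℝ (fun y => th (1 / ((n : ℝ) + 1)) (l y)) x (v k)) μ := by
      refine (hF.integrable_of_hasCompactSupport hFs).mono' hSm.aestronglyMeasurable
        (Eventually.of_forall fun x => ?_)
      rw [Real.norm_eq_abs, abs_mul, abs_of_nonneg (h0 x)]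
      refine mul_le_mul_of_nonneg_left ?_ (h0 x)
      refine (Finset.abs_sum_le_sum_abs _ _).trans (Finset.sum_le_sum fun k _ => ?_)
      rw [abs_mul]
      refine mul_le_mul_of_nonneg_left ?_ (abs_nonneg _)
      have h3 := (fderiv ℝ (fun y => th (1 / ((n : ℝ) + 1)) (l y)) x).le_opNorm (v k)
      have h4 := norm_fderiv_le_of_lipschitz ℝ (x₀ := x) ht
      rw [Real.norm_eq_abs] at h3
      exact h3.trans (mul_le_mul_of_nonneg_right h4 (norm_nonneg _))
    rw [integral_add hTi hSi] at hid
    have hneg : ∫ x, -(χ x * ∑ k, φ k x *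
        fderiv ℝ (fun y => th (1 / ((n : ℝ) + 1)) (l y)) x (v k)) ∂μ ≤ ∫ x, r n x ∂μ := by
      refine integral_mono_ae hSi.neg (hri n) ?_
      filter_upwards [hC, ht.ae_differentiableAt] with x hx hd
      have hk : ∀ k, fderiv ℝ (fun y => th (1 / ((n : ℝ) + 1)) (l y)) x (v k)
          = if 0 < l x ∧ l x < 1 / ((n : ℝ) + 1) then
            (1 / ((n : ℝ) + 1))⁻¹ * fderiv ℝ l x (v k) else 0 :=
        fun k => fd_th (hen n) hl.continuous hd (v k)
      simp only [hk, hr]
      split_ifs with h
      · by_cases hχ0 : χ x = 0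
        · simp [hχ0]
        · have h1 := hx h.1 hχ0
          have h2 : ∑ k, φ k x * ((1 / ((n : ℝ) + 1))⁻¹ * fderiv ℝ l x (v k))
              = (1 / ((n : ℝ) + 1))⁻¹ * ∑ k, φ k x * fderiv ℝ l x (v k) := by
            rw [Finset.mul_sum]
            exact Finset.sum_congr rfl fun k _ => by ring
          rw [h2, mul_one]
          have hi : 0 < (1 / ((n : ℝ) + 1))⁻¹ := inv_pos.2 (hen n)
          have h3 : (1 / ((n : ℝ) + 1))⁻¹ * l x ≤ 1 := by
            rw [inv_mul_le_iff₀ (hen n), mul_one]; exact h.2.le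
          have h4 : -|C| ≤ (1 / ((n : ℝ) + 1))⁻¹ * ∑ k, φ k x * fderiv ℝ l x (v k) := by
            have h5 : -(|C| * l x) ≤ -(C * l x) := by
              have := mul_le_mul_of_nonneg_right (le_abs_self C) h.1.le
              linarith
            have h6 := mul_le_mul_of_nonneg_left (h5.trans h1) hi.le
            have h7 : (1 / ((n : ℝ) + 1))⁻¹ * -(|C| * l x)
              = -(|C| * ((1 / ((n : ℝ) + 1))⁻¹ * l x)) := by ring
            rw [h7] at h6
            have h8 := mul_le_mul_of_nonneg_left h3 (abs_nonneg C)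
            linarith
          have h9 := mul_le_mul_of_nonneg_left h4 (h0 x)
          linarith
      · simp
    rw [integral_neg] at hneg
    linarith
  -- limits
  have hlim1 : Tendsto (fun n : ℕ => ∫ x, th (1 / ((n : ℝ) + 1)) (l x) * GG χ φ v x ∂μ) atTop
      (𝓝 (∫ x, (if 0 < l x then 1 else 0) * GG χ φ v x ∂μ)) := by
    refine tendsto_integral_of_dominated_convergence (fun x => |GG χ φ v x|) (fun n => ?_)
      hG.norm (fun n => Eventually.of_forall fun x => ?_) (Eventually.of_forall fun x => ?_)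
    · exact ((((th_lip (hen n)).comp hl).continuous.measurable).mul
        (GG_meas hcm hφ)).aestronglyMeasurable
    · rw [Real.norm_eq_abs, abs_mul, abs_of_nonneg (th_nonneg _ _)]
      exact mul_le_of_le_one_left (abs_nonneg _) (th_le _ _)
    · refine Tendsto.mul_const _ ?_
      split_ifs with h
      · refine tendsto_const_nhds.congr' ?_
        obtain ⟨N, hN⟩ := exists_nat_one_div_lt h
        filter_upwards [eventually_ge_atTop N] with n hn
        refine (th_of_ge (hen n) ?_).symm
        refine le_trans ?_ hN.le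
        apply one_div_le_one_div_of_le (by positivity)
        have : (N : ℝ) ≤ n := by exact_mod_cast hn
        linarith
      · refine tendsto_const_nhds.congr' (Eventually.of_forall fun n => ?_)
        exact (th_of_nonpos (hen n) (not_lt.1 h)).symm
  have hlim2 : Tendsto (fun n : ℕ => ∫ x, r n x ∂μ) atTop (𝓝 (∫ _x : E, (0 : ℝ) ∂μ)) := by
    refine tendsto_integral_of_dominated_convergence (fun x => |C| * χ x)
      (fun n => (hrm n).aestronglyMeasurable) hci
      (fun n => Eventually.of_forall fun x => hBr n x) (Eventually.of_forall fun x => ?_)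
    refine tendsto_const_nhds.congr' ?_
    by_cases h : 0 < l x
    · obtain ⟨N, hN⟩ := exists_nat_one_div_lt h
      filter_upwards [eventually_ge_atTop N] with n hn
      simp only [hr]
      rw [if_neg]
      · simp
      · rintro ⟨-, h2⟩
        have h3 : 1 / ((n : ℝ) + 1) ≤ 1 / ((N : ℝ) + 1) := by
          apply one_div_le_one_div_of_le (by positivity)
          have : (N : ℝ) ≤ n := by exact_mod_cast hn
          linarith
        linarith
    · refine Eventually.of_forall fun n => ?_
      simp only [hr]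
      rw [if_neg (fun h2 => h h2.1)]
      simp
  have hfin := le_of_tendsto_of_tendsto' hlim1 hlim2 hstep
  rw [integral_zero] at hfin
  have e : ∫ x, (if 0 < l x then (1 : ℝ) else 0) * GG χ φ v x ∂μ
      = ∫ x in {x | 0 < l x}, GG χ φ v x ∂μ := by
    rw [← integral_indicator hZ]
    refine integral_congr_ae (Eventually.of_forall fun x => ?_)
    by_cases h : 0 < l x
    · rw [indicator_of_mem (show x ∈ {x | 0 < l x} from h)]
      simp only [if_pos h, one_mul]
    · rw [indicator_of_notMem (show x ∉ {x | 0 < l x} from h)]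
      simp only [if_neg h, zero_mul]
  rw [e] at hfin
  exact hfin

/-- **divergence theorem in a cell** for fields tangent to the walls -/
theorem wedge_eq {l χ : E → ℝ} {φ : ι → E → ℝ} {v : ι → E} {Kl Kc : NNReal}
    (hl : LipschitzWith Kl l) (hχ : LipschitzWith Kc χ) (hs : HasCompactSupport χ)
    (h0 : ∀ x, 0 ≤ χ x) (hφ : ∀ k, ContDiff ℝ 1 (φ k)) {C : ℝ}
    (hC : ∀ᵐ x ∂μ, 0 < l x → χ x ≠ 0 → |∑ k, φ k x * fderiv ℝ l x (v k)| ≤ C * l x) :
    ∫ x in {x | 0 < l x}, GG χ φ v x ∂μ = 0 := by
  refine le_antisymm (wedge_le hl hχ hs h0 hφ (C := C) ?_) ?_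
  · filter_upwards [hC] with x hx h1 h2
    exact (abs_le.1 (hx h1 h2)).1
  · have h1 := wedge_le (μ := μ) (v := v) (φ := fun k x => -(φ k x)) hl hχ hs h0
      (fun k => (hφ k).neg) (C := C) (by
        filter_upwards [hC] with x hx h1 h2
        have h3 := (abs_le.1 (hx h1 h2)).2
        have e : ∑ k, -(φ k x) * fderiv ℝ l x (v k) = -∑ k, φ k x * fderiv ℝ l x (v k) := by
          rw [← Finset.sum_neg_distrib]
          exact Finset.sum_congr rfl fun k _ => by ring
        rw [e]
        linarith)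
    have e : ∀ x, GG χ (fun k x => -(φ k x)) v x = -GG χ φ v x := by
      intro x
      unfold GG
      have e1 : ∑ k, -(φ k x) * fderiv ℝ χ x (v k) = -∑ k, φ k x * fderiv ℝ χ x (v k) := by
        rw [← Finset.sum_neg_distrib]
        exact Finset.sum_congr rfl fun k _ => by ring
      have e2 : ∑ k, fderiv ℝ (fun x => -(φ k x)) x (v k) = -∑ k, fderiv ℝ (φ k) x (v k) := by
        rw [← Finset.sum_neg_distrib]
        refine Finset.sum_congr rfl fun k _ => ?_
        rw [fderiv_fun_neg]
        rfl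
      rw [e1, e2]
      ring
    simp only [e] at h1
    rw [integral_neg] at h1
    linarith

end Helper22.Wedge
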